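import Mathlib.LinearAlgebra.TensorAlgebra.Basic
import Mathlib.RingTheory.DiscreteValuationRing.Basic
import Mathlib.RingTheory.AlgebraicIndependent.Basic
import Mathlib.RingTheory.Valuation.ValuationSubring
import Pool.Agent.MP_55d974_ag.Defs

/-! Basic definitions: Steinberg relation, primitive polynomials, places, reduction modulo `q`. -/

open AlgebraicGeometry CategoryTheory Limits TopologicalSpace Opposite Pool.Agent.MP_55d974_ag

namespace Pool.Agent.KEW

noncomputable section

section

variable (R : Type) [CommRing R] {S : Type} [CommRing S]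

/-- The Steinberg relation `a ⊗ b = 0` for units with `a + b = 1`. -/
def St (x y : TensorAlgebra ℤ (Additive Rˣ)) : Prop :=
  y = 0 ∧ ∃ a b : Rˣ, (a : R) + b = 1 ∧
    x = TensorAlgebra.ι ℤ (Additive.ofMul a) * TensorAlgebra.ι ℤ (Additive.ofMul b)

variable {R}

variable (R) in
/-- Polynomials whose coefficients lie in no maximal ideal. -/
def prim (σ : Type) : Submonoid (MvPolynomial σ R) where
  carrier := {P | ∀ m : Ideal R, m.IsMaximal → P.map (Ideal.Quotient.mk m) ≠ 0}
  one_mem' m hm := by
    rw [map_one]
    have := Ideal.Quotient.nontrivial_iff.2 hm.ne_top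
    exact one_ne_zero
  mul_mem' ha hb m hm := by
    rw [map_mul]
    exact mul_ne_zero (ha m hm) (hb m hm)

theorem prim_le {σ τ : Type} (e : σ ↪ τ) (φ : R →+* S) : prim R σ ≤ (prim S τ).comap
    ((MvPolynomial.rename e).toRingHom.comp (MvPolynomial.map φ)) := fun P hP m hm h => by
  obtain ⟨m', h1, h2⟩ := Ideal.exists_le_maximal (m.comap φ) (Ideal.comap_ne_top φ hm.ne_top)
  refine hP m' h1 (MvPolynomial.ext _ _ fun i => ?_)
  have := congrArg (MvPolynomial.coeff (Finsupp.mapDomain e i)) h
  simp only [AlgHom.toRingHom_eq_coe, RingHom.coe_comp, RingHom.coe_coe, Function.comp_apply,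
    MvPolynomial.coeff_map, MvPolynomial.coeff_rename_mapDomain _ e.injective,
    MvPolynomial.coeff_zero, Ideal.Quotient.eq_zero_iff_mem] at this ⊢
  exact h2 this

end

variable {X : Scheme.{0}}

/-- The map from the local ring at `z` to the residue field of a generisation `y`. -/
def gz {y z : X} (h : y ⤳ z) : X.presheaf.stalk z →+* X.residueField y :=
  (X.presheaf.stalkSpecializes h ≫ X.residue y).hom

/-- `V` is a discrete valuation ring of the residue field of `y` that dominates the local ring
of `z`. -/
structure Pl (y z : X) (V : ValuationSubring (X.residueField y)) : Prop where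
  sp : y ⤳ z
  dvr : IsDiscreteValuationRing V
  mem : ∀ a, gz sp a ∈ V
  loc : IsLocalHom ((gz sp).codRestrict V mem)

theorem hasSh (X : Scheme.{0}) :
    HasSheafify (Opens.grothendieckTopology X) AddCommGrpCat.{0} := inferInstance

theorem hasE (X : Scheme.{0}) : haveI := hasSh X
    HasExt.{0} (Sheaf (Opens.grothendieckTopology X) AddCommGrpCat.{0}) := hasExt X

/-- The map induced on the quotients by `q`. -/
def modq {G H : Type} [AddCommGroup G] [AddCommGroup H] (q : ℕ) (φ : G →+ H) :
    G ⧸ (nsmulAddMonoidHom q : G →+ G).range →+ H ⧸ (nsmulAddMonoidHom q : H →+ H).range :=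
  QuotientAddGroup.map _ _ φ (by
    rintro _ ⟨x, rfl⟩
    exact ⟨φ x, (map_nsmul φ q x).symm⟩)

variable {A : Type} [CommRing A] (f : X ⟶ Spec (.of A)) (d : ℕ)

/-- The structure map to the local ring at `x`. -/
def sA (x : X) : A →+* X.presheaf.stalk x :=
  ((Scheme.ΓSpecIso (.of A)).inv ≫ f.appTop ≫ X.presheaf.germ ⊤ x trivial).hom

/-- Every point has dimension `d` in its fibre: the dimension of its local ring in the fibre plus
the transcendence degree of its residue field is `d`. -/
def RelDim : Prop := ∀ x : X, ∃ a b : ℕ, a + b = d ∧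
  ringKrullDim (X.presheaf.stalk x ⧸
    (RingHom.ker ((X.residue x).hom.comp (sA f x))).map (sA f x)) = a ∧
  Algebra.trdeg ((X.residue x).hom.comp (sA f x)).range (X.residueField x) = b

end

end Pool.Agent.KEW
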