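import Mathlib.CategoryTheory.Functor.Category
import Mathlib.CategoryTheory.ObjectProperty.FullSubcategory
import Mathlib.CategoryTheory.Opposites
import Mathlib.Algebra.RingQuot
import Mathlib.FieldTheory.RatFunc.AsPolynomial
import Mathlib.RingTheory.SimpleRing.Principal
import Mathlib.RingTheory.Henselian
import Mathlib.RingTheory.RegularLocalRing.Defs
import Pool.Agent.MP_55d974_ag.kew.KBase

/-!
Milnor K-theory of rings, the improved Milnor K-sheaf, tame symbols, Bass-Tate norms, the Gersten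
complex of a scheme, and restriction to the thickenings of the special fibre.
-/

open AlgebraicGeometry CategoryTheory Limits TopologicalSpace Opposite Pool.Agent.MP_55d974_ag

namespace Pool.Agent.KEW

noncomputable section

open Classical

section Milnor

variable (R : Type) [CommRing R] {S : Type} [CommRing S]

/-- The total Milnor K-ring: the tensor ring of the unit group modulo the Steinberg relation. -/
abbrev Kr : Type := RingQuot (St R)

variable {R}

/-- The symbol `{u}`. -/
def sym (u : Rˣ) : Kr R := RingQuot.mkRingHom (St R) (TensorAlgebra.ι ℤ (Additive.ofMul u))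

variable (R) in
/-- `K^M_m(R)`: the span of the symbols `{u₁, …, u_m}`. -/
def K (m : ℕ) : AddSubgroup (Kr R) :=
  AddSubgroup.closure {x | ∃ l : List Rˣ, l.length = m ∧ x = (l.map sym).prod}

/-- Functoriality of the Milnor K-ring. -/
def kmap (φ : R →+* S) : Kr R →+* Kr S :=
  RingQuot.lift ⟨(RingQuot.mkRingHom (St S)).comp (TensorAlgebra.lift ℤ
    (TensorAlgebra.ι ℤ ∘ₗ (MonoidHom.toAdditive (Units.map φ.toMonoidHom)).toIntLinearMap)).toRingHom,
    by
      rintro x y ⟨rfl, a, b, h, rfl⟩
      rw [map_zero, ← map_zero (RingQuot.mkRingHom (St S))]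
      refine RingQuot.mkRingHom_rel ⟨rfl, Units.map φ.toMonoidHom a, Units.map φ.toMonoidHom b,
        by simpa using congrArg φ h, ?_⟩
      simp⟩

theorem kmap_sym (φ : R →+* S) (u : Rˣ) : kmap φ (sym u) = sym (Units.map φ.toMonoidHom u) := by
  simp [kmap, sym]

theorem kr_ext {T : Type} [Ring T] {f g : Kr R →+* T} (h : ∀ u, f (sym u) = g (sym u)) : f = g := by
  refine RingQuot.ringQuot_ext _ _ (RingHom.toIntAlgHom_injective ?_)
  ext u
  exact h (Additive.toMul u)

theorem kmap_mem (φ : R →+* S) {m : ℕ} {x : Kr R} (hx : x ∈ K R m) : kmap φ x ∈ K S m := by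
  refine AddSubgroup.closure_induction (fun x hx => ?_) (by simp) (fun x y _ _ h1 h2 => ?_)
    (fun x _ h => ?_) hx
  · obtain ⟨l, hl, rfl⟩ := hx
    refine AddSubgroup.subset_closure ⟨l.map (Units.map φ.toMonoidHom), by simpa, ?_⟩
    rw [map_list_prod, List.map_map, List.map_map]
    exact congrArg _ (List.map_congr_left fun u _ => kmap_sym φ u)
  · rw [map_add]
    exact add_mem h1 h2
  · rw [map_neg]
    exact neg_mem h

theorem kmap_comp {T : Type} [CommRing T] (φ : R →+* S) (ψ : S →+* T) (x : Kr R) :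
    kmap ψ (kmap φ x) = kmap (ψ.comp φ) x :=
  DFunLike.congr_fun (kr_ext (f := (kmap ψ).comp (kmap φ)) fun u => by
    rw [RingHom.comp_apply, kmap_sym, kmap_sym, kmap_sym]
    rfl) x

theorem kmap_id (x : Kr R) : kmap (RingHom.id R) x = x :=
  DFunLike.congr_fun (kr_ext (g := RingHom.id _) fun u => kmap_sym _ u) x

variable (R) in
/-- `R(t_σ)`: the polynomial ring with the primitive polynomials inverted. -/
abbrev RT (σ : Type) : Type := Localization (prim R σ)

/-- The map `R(t_σ) → S(t_τ)` given by a ring map and a renaming of the variables. -/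
def rt {σ τ : Type} (e : σ ↪ τ) (φ : R →+* S) : RT R σ →+* RT S τ :=
  IsLocalization.map _ _ (prim_le e φ)

theorem rt_comp {T : Type} [CommRing T] {σ τ υ : Type} (e : σ ↪ τ) (e' : τ ↪ υ) (φ : R →+* S)
    (ψ : S →+* T) : (rt e' ψ).comp (rt e φ) = rt (e.trans e') (ψ.comp φ) := by
  unfold rt
  rw [IsLocalization.map_comp_map]
  congr 1
  ext <;> simp

theorem rt_id {σ : Type} : rt (.refl σ) (RingHom.id R) = RingHom.id _ := by
  refine IsLocalization.ringHom_ext (prim R σ) ?_
  unfold rt
  rw [IsLocalization.map_comp]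
  ext <;> simp

variable (R) in
/-- Kerz's improved Milnor K-group: the equaliser of `K^M_m(R(t)) ⇉ K^M_m(R(t₁, t₂))`. -/
def KH (m : ℕ) : AddSubgroup (Kr (RT R Unit)) :=
  K _ m ⊓ AddMonoidHom.eqLocus
    (kmap (rt ⟨fun _ => false, fun _ _ _ => rfl⟩ (RingHom.id R))).toAddMonoidHom
    (kmap (rt ⟨fun _ => true, fun _ _ _ => rfl⟩ (RingHom.id R))).toAddMonoidHom

theorem kh_mem (φ : R →+* S) {m : ℕ} {x : Kr (RT R Unit)} (hx : x ∈ KH R m) :
    kmap (rt (.refl _) φ) x ∈ KH S m := by
  refine ⟨kmap_mem _ hx.1, ?_⟩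
  have h := congrArg (kmap (rt (.refl Bool) φ)) hx.2
  change kmap _ (kmap _ x) = kmap _ (kmap _ x) at h ⊢
  simp only [kmap_comp, rt_comp] at h ⊢
  exact h

/-- The improved Milnor K-group as a functor on rings. -/
def khF (m : ℕ) : CommRingCat.{0} ⥤ AddCommGrpCat.{0} where
  obj R := AddCommGrpCat.of (KH R m)
  map {R S} φ := AddCommGrpCat.ofHom (((kmap (rt (.refl _) φ.hom)).toAddMonoidHom.comp
    (KH R m).subtype).codRestrict (KH S m) fun x => kh_mem φ.hom x.2)
  map_id R := by
    ext x
    change kmap (rt _ (RingHom.id _)) x.1 = x.1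
    rw [rt_id, kmap_id]
  map_comp φ ψ := by
    ext x
    change kmap _ x.1 = kmap _ (kmap _ x.1)
    rw [kmap_comp, rt_comp]
    rfl

/-- A degree-shifting additive map with property `P`, if there is one, and `0` otherwise. -/
def pick (i : ℕ) (P : (Kr R →+ Kr S) → Prop) : Kr R →+ Kr S :=
  if h : ∃ N, P N ∧ ∀ m, ∀ x ∈ K R (m + i), N x ∈ K S m then h.choose else 0

end Milnor

section Fields

variable {E L k : Type} [Field E] [Field L] [Field k]

/-- The tame symbol of a discrete valuation ring `V` with residue map `ρ`: it kills symbols of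
units and sends `{ϖ, u₁, …, u_m}` to `{ρ u₁, …, ρ u_m}`. -/
def tame (V : ValuationSubring E) (ρ : V →+* k) : Kr E →+ Kr k :=
  pick 1 fun D => ∀ γ : Kr V, D (kmap V.subtype γ) = 0 ∧
    ∀ (w : V) (u : Eˣ), Irreducible w → (u : E) = w → D (sym u * kmap V.subtype γ) = kmap ρ γ

/-- The Bass-Tate norm of a simple extension `E = L(a)`: if `β` in the K-ring of `L(T)` has zero
tame symbol at all places over `L` other than the place `V` of `a` and the place `W` at infinity,
then the norm of its symbol at `V` is minus its symbol at `W`. -/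
def N1 (φ : L →+* E) (a : E) : Kr E →+ Kr L :=
  pick 0 fun N => ∀ (V W : ValuationSubring (RatFunc L)) (ρ : V →+* E) (σ : W →+* L)
    (hV : ∀ c, RatFunc.C c ∈ V) (hW : ∀ c, RatFunc.C c ∈ W) (hT : RatFunc.X ∈ V),
    (∀ c, ρ ⟨_, hV c⟩ = φ c) → ρ ⟨_, hT⟩ = a → (∀ c, σ ⟨_, hW c⟩ = c) → RatFunc.X ∉ W →
    ∀ β, (∀ U : ValuationSubring (RatFunc L), (∀ c, RatFunc.C c ∈ U) → U ≠ ⊤ → U ≠ V → U ≠ W →
      tame U (IsLocalRing.residue U) β = 0) → N (tame V ρ β) = -tame W σ β

/-- The norm along the tower of simple extensions given by a list of generators. -/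
def nrmL : List E → ∀ M : Subfield E, Kr E →+ Kr M
  | [], M => N1 M.subtype 0
  | a :: l, M => (N1 (Subfield.inclusion (le_sup_left : M ≤ M ⊔ Subfield.closure {a}))
      ⟨a, (le_sup_right : _ ≤ M ⊔ _) (Subfield.subset_closure rfl)⟩).comp (nrmL l _)

/-- The norm of a finite field extension, through one generator if there is one and through a
tower otherwise. -/
def nrm (φ : L →+* E) : Kr E →+ Kr L :=
  if h : ∃ a, Subfield.closure (Set.range φ ∪ {a}) = ⊤ then N1 φ h.choose else
    (kmap φ.rangeRestrictFieldEquiv.symm.toRingHom).toAddMonoidHom.comp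
      (nrmL (epsilon fun l : List E => Subfield.closure (Set.range φ ∪ {a | a ∈ l}) = ⊤) _)

end Fields

section Gersten

variable {X : Scheme.{0}}

/-- The component at `y, z` of Kato's differential. -/
def dK (y z : X) : Kr (X.residueField y) →+ Kr (X.residueField z) :=
  if ringKrullDim (X.presheaf.stalk z) = ringKrullDim (X.presheaf.stalk y) + 1 then
    ∑ᶠ V : {V // Pl y z V}, (nrm (@IsLocalRing.ResidueField.map _ _ _ _ _ _ _ V.2.loc)).comp
      (tame V.1 (IsLocalRing.residue V.1))
  else 0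

variable (X) in
/-- Finite families of elements of the K-rings of the residue fields. -/
abbrev Ch : Type := Π₀ y : X, Kr (X.residueField y)

/-- The differential of a finite family, as a family. -/
def dd (a : Ch X) (z : X) : Kr (X.residueField z) := DFinsupp.sumAddHom (fun y => dK y z) a

/-- `a` lies in the sum of the `K^M_i` over the generisations of `x` of codimension `j`. -/
def Deg (x : X) (j i : ℕ) (a : Ch X) : Prop :=
  ∀ y, a y ∈ K _ i ∧ (a y ≠ 0 → y ⤳ x ∧ ringKrullDim (X.presheaf.stalk y) = j)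

/-- The presheaf of improved Milnor K-groups. -/
abbrev KP (Y : Scheme.{0}) (m : ℕ) : Y.Opensᵒᵖ ⥤ AddCommGrpCat.{0} := Y.presheaf ⋙ khF m

/-- The section `s` and the family `a` agree at the generisations of `x` of codimension zero. -/
def Agree {m : ℕ} {U : X.Opens} {x : X} (hx : x ∈ U) (s : (KP X m).obj (op U)) (a : Ch X) : Prop :=
  ∀ y (h : y ⤳ x), ringKrullDim (X.presheaf.stalk y) = 0 →
    kmap (rt (.refl _) (X.evaluation U y (h.mem_open U.2 hx)).hom) (Subtype.val s) =
      kmap (algebraMap (X.residueField y) _) (a y)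

variable (X) in
/-- The Gersten complex of weight `m` is exact on the stalk at every point. -/
def Gersten (m : ℕ) : Prop := ∀ x : X,
  (∀ (U : X.Opens) (hx : x ∈ U) (s : (KP X m).obj (op U)), Agree hx s 0 →
    ∃ (V : X.Opens) (_ : x ∈ V) (i : V ⟶ U), (KP X m).map i.op s = 0) ∧
  (∀ a, Deg x 0 m a → ((∀ z, z ⤳ x → dd a z = 0) ↔
    ∃ (U : X.Opens) (hx : x ∈ U) (s : (KP X m).obj (op U)), Agree hx s a)) ∧
  ∀ j i a, j + 1 + i = m → Deg x (j + 1) i a → ((∀ z, z ⤳ x → dd a z = 0) ↔
    ∃ b, Deg x j (i + 1) b ∧ ∀ z, z ⤳ x → a z = dd b z)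

end Gersten

section Restriction

variable {X Y Z : Scheme.{0}}

/-- The improved Milnor K-sheaf. -/
def KS (Y : Scheme.{0}) (m : ℕ) : AbSheaf Y := (presheafToSheaf _ _).obj (KP Y m)

/-- The direct image of the improved Milnor K-sheaf. -/
def KD (g : Y ⟶ X) (m : ℕ) : AbSheaf X := (TopCat.Sheaf.pushforward _ g.base).obj (KS Y m)

/-- Pull-back of sections along `h`. -/
def pull (h : Z ⟶ Y) (m : ℕ) : KS Y m ⟶ KD h m :=
  ⟨sheafifyLift _ (Functor.whiskerRight h.c (khF m) ≫
    Functor.whiskerLeft (Opens.map h.base).op (toSheafify _ (KP Z m))) (KD h m).2⟩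

/-- Pull-back along `h` between direct images. -/
def pullD (g : Y ⟶ X) (h : Z ⟶ Y) (m : ℕ) : KD g m ⟶ KD (h ≫ g) m :=
  (TopCat.Sheaf.pushforward _ g.base).map (pull h m)

/-- Zariski cohomology. -/
abbrev HH (F : AbSheaf X) (d : ℕ) : Type := @Sheaf.H.{0} _ _ _ F (hasSh X) (hasE X) d

variable {A : Type} [CommRing A] (f : X ⟶ Spec (.of A)) (π : A) (d q : ℕ)

/-- The map induced on cohomology. -/
def hm {F G : AbSheaf X} (φ : F ⟶ G) : HH F d →+ HH G d :=
  @Sheaf.H.map.{0} _ _ _ (hasSh X) (hasE X) _ _ φ d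

/-- Restriction to `X_n`. -/
def res0 (n : ℕ) : HH (KS X d) d →+ HH (KD (thick f π n) d) d := hm d (pull (thick f π n) d)

/-- The transition map from level `n + 1` to level `n`. -/
def tr0 (n : ℕ) : HH (KD (thick f π (n + 1)) d) d →+ HH (KD (thick f π n) d) d :=
  hm d (pullD (thick f π (n + 1)) (step f π n) d ≫ eqToHom (by rw [step_thick]))

/-- Restriction to `X_n`, modulo `q`. -/
def res (n : ℕ) := modq q (res0 f π d n)

/-- The transition map from level `n + 1` to level `n`, modulo `q`. -/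
def tr (n : ℕ) := modq q (tr0 f π d n)

end Restriction

end

end Pool.Agent.KEW
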