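import Pool.Agent.MP_55d974_ag.kew.KDefs
import Mathlib.AlgebraicGeometry.Morphisms.Flat
import Mathlib.AlgebraicGeometry.Modules.Sheaf
import Pool.Agent.MP_55d974_ag.coh.Spec
import Mathlib.RingTheory.PicardGroup
import Mathlib.Data.Complex.Basic
import Mathlib.Algebra.MvPolynomial.NoZeroDivisors
import Mathlib.RingTheory.IntegralClosure.GoingDown
import Mathlib.FieldTheory.RatFunc.Basic
import Mathlib.AlgebraicGeometry.OrderOfVanishing
import Mathlib.Combinatorics.Quiver.ReflQuiver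
import Mathlib.RingTheory.SimpleRing.Principal
import Mathlib.Order.CompletePartialOrder
import Mathlib.RingTheory.Henselian
import Mathlib.RingTheory.NoetherNormalization
import Mathlib.RingTheory.RegularLocalRing.Defs
import Mathlib.Algebra.Order.Ring.Star
import Mathlib.Data.Int.ConditionallyCompleteOrder
import Mathlib.Data.Int.Star

-- ======== part 0: formerly Pool.Agent.MP_55d974_ag.kew.SpecA
section MrgPart0

/-! PROJECT KEW, algebraic statements. -/

namespace Pool.Agent.KEW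

noncomputable section

open Classical IsLocalRing

section Defs

variable {E : Type} [Field E]

/-- `F` is congruent to one modulo `c` at `V`. -/
def Ap (V : ValuationSubring E) (c : E) (F : Eˣ) : Prop := ((F : E) - 1) / c ∈ V

/-- `u` is a unit at `V`. -/
def Un (V : ValuationSubring E) (u : E) : Prop := u ≠ 0 ∧ u ∈ V ∧ u⁻¹ ∈ V

/-- Span of the `{F} γ` with `F` congruent to one modulo `c` at all members of `S`. -/
def KI (S : Set (ValuationSubring E)) (c : E) : AddSubgroup (Kr E) :=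
  AddSubgroup.closure {x | ∃ (F : Eˣ) (γ : Kr E), (∀ V ∈ S, Ap V c F) ∧ x = sym F * γ}

/-- A finite set of discrete valuation rings at which `c ≠ 0` is a nonunit. -/
structure Fam (S : Set (ValuationSubring E)) (c : E) : Prop where
  fin : S.Finite
  dvr : ∀ V ∈ S, IsDiscreteValuationRing V
  ne : c ≠ 0
  non : ∀ V ∈ S, c ∈ V.nonunits

/-- The level `n` is deep enough for `q`-th roots. -/
structure Lv {A : Type} [CommRing A] (π : A) (p q n : ℕ) : Prop where
  pp : p.Prime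
  qq : ∃ r, q = p ^ r
  dv : π ∣ (p : A)
  lev : (q : A) * p * π ∣ π ^ n

/-- `B` is a completion of the discrete valuation ring `A` with uniformiser `π`. -/
structure IsCpl (A : Type) [CommRing A] (π : A) (B : Type) [CommRing B] [Algebra A B] : Prop where
  inj : Function.Injective (algebraMap A B)
  irr : Irreducible (algebraMap A B π)
  cpl : IsAdicComplete (Ideal.span {algebraMap A B π}) B
  den : ∀ (x : B) (N : ℕ), ∃ c, algebraMap A B π ^ N ∣ x - algebraMap A B c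

/-- Greenberg approximation: finitely generated subalgebras of `B` retract onto `A`. -/
def Grn (A : Type) [CommRing A] (π : A) (B : Type) [CommRing B] [Algebra A B] : Prop :=
  ∀ s : Finset B, ∃ ρ : Algebra.adjoin A (s : Set B) →ₐ[A] A,
    ∀ x, algebraMap A B π ∣ x.1 - algebraMap A B (ρ x)

/-- The integral closure of a subring of a field. -/
def IC (S : Subring E) : Subring E := (integralClosure S E).toSubring

/-- `V` is the localisation of `D` at `P`. -/
def IsAt (D : Subring E) (P : Ideal D) (V : ValuationSubring E) : Prop :=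
  ∀ x, x ∈ V ↔ ∃ s c : D, s ∉ P ∧ s * x = c

/-- `F = 1 + c / h`. -/
def Fr (F : Eˣ) (c h : E) : Prop := h ≠ 0 ∧ (F : E) = 1 + c / h

end Defs

/-- Properties of the tame symbol. -/
structure TameS : Prop where
  unit : ∀ {E k : Type} [Field E] [Field k] (V : ValuationSubring E) (ρ : V →+* k),
    IsDiscreteValuationRing V → IsLocalHom ρ → ∀ γ, tame V ρ (kmap V.subtype γ) = 0
  unif : ∀ {E k : Type} [Field E] [Field k] (V : ValuationSubring E) (ρ : V →+* k),
    IsDiscreteValuationRing V → IsLocalHom ρ → ∀ (w : V) (u : Eˣ), Irreducible w → (u : E) = w →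
    ∀ γ, tame V ρ (sym u * kmap V.subtype γ) = kmap ρ γ
  mul : ∀ {E k : Type} [Field E] [Field k] (V : ValuationSubring E) (ρ : V →+* k),
    IsDiscreteValuationRing V → IsLocalHom ρ → ∀ (w : V) (u : Eˣ) (u' : kˣ), (u : E) = w →
    (u' : k) = ρ w → ∀ β, tame V ρ (sym u * β) = -(sym u' * tame V ρ β)
  syms : ∀ {E k : Type} [Field E] [Field k] (V : ValuationSubring E) (ρ : V →+* k),
    IsDiscreteValuationRing V → IsLocalHom ρ → ∀ l : List Eˣ, (∀ u ∈ l, Un V u) →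
    tame V ρ (l.map sym).prod = 0
  one : ∀ {E k : Type} [Field E] [Field k] (V : ValuationSubring E) (ρ : V →+* k),
    IsDiscreteValuationRing V → IsLocalHom ρ → ∀ F : Eˣ, (F : E) - 1 ∈ V.nonunits →
    ∀ β, tame V ρ (sym F * β) = 0
  base : ∀ {E k E' k' : Type} [Field E] [Field k] [Field E'] [Field k'] (V : ValuationSubring E)
    (ρ : V →+* k) (V' : ValuationSubring E') (ρ' : V' →+* k') (ι : E →+* E') (ψ : k →+* k')
    (h : ∀ x : V, ι x ∈ V'), IsDiscreteValuationRing V → IsLocalHom ρ →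
    IsDiscreteValuationRing V' → IsLocalHom ρ' → (∀ x : V, ρ' ⟨_, h x⟩ = ψ (ρ x)) →
    ∀ (w : V) (w' : V') (e : ℕ), Irreducible w → Irreducible w' → Associated ⟨_, h w⟩ (w' ^ e) →
    ∀ β, tame V' ρ' (kmap ι β) = e • kmap ψ (tame V ρ β)

/-- The places of `L(T)` over `L` that contain `T`. -/
def FinPl (L : Type) [Field L] (V : ValuationSubring (RatFunc L)) : Prop :=
  (∀ c, RatFunc.C c ∈ V) ∧ RatFunc.X ∈ V ∧ V ≠ ⊤

/-- Milnor's theorem on `L(T)`. -/
structure MilS : Prop where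
  dvr : ∀ (L : Type) [Field L] (V : ValuationSubring (RatFunc L)), (∀ c, RatFunc.C c ∈ V) →
    V ≠ ⊤ → IsDiscreteValuationRing V
  fin : ∀ (L : Type) [Field L] (β : Kr (RatFunc L)),
    {V | FinPl L V ∧ tame V (residue V) β ≠ 0}.Finite
  ker : ∀ (L : Type) [Field L] (β : Kr (RatFunc L)),
    (∀ V, FinPl L V → tame V (residue V) β = 0) → ∃ γ, β = kmap RatFunc.C γ
  surj : ∀ (L : Type) [Field L] (V : ValuationSubring (RatFunc L)), FinPl L V →
    ∀ m, ∀ δ ∈ K (ResidueField V) m, ∃ β ∈ K (RatFunc L) (m + 1), tame V (residue V) β = δ ∧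
      ∀ U, FinPl L U → U ≠ V → tame U (residue U) β = 0

/-- Properties of the norm. -/
structure NrmS : Prop where
  spec : ∀ {L E : Type} [Field L] [Field E] (φ : L →+* E) (a : E),
    Subfield.closure (Set.range φ ∪ {a}) = ⊤ → φ.IsIntegralElem a →
    ∀ (V W : ValuationSubring (RatFunc L)) (ρ : V →+* E) (σ : W →+* L)
    (hV : ∀ c, RatFunc.C c ∈ V) (hW : ∀ c, RatFunc.C c ∈ W) (hT : RatFunc.X ∈ V),
    (∀ c, ρ ⟨_, hV c⟩ = φ c) → ρ ⟨_, hT⟩ = a → (∀ c, σ ⟨_, hW c⟩ = c) → RatFunc.X ∉ W →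
    ∀ β, (∀ U : ValuationSubring (RatFunc L), (∀ c, RatFunc.C c ∈ U) → U ≠ ⊤ → U ≠ V → U ≠ W →
      tame U (residue U) β = 0) → N1 φ a (tame V ρ β) = -tame W σ β
  proj : ∀ {L E : Type} [Field L] [Field E] [CharZero L] (φ : L →+* E), φ.Finite →
    ∀ (c : Lˣ) (δ : Kr E), nrm φ (sym (Units.map φ.toMonoidHom c) * δ) = sym c * nrm φ δ
  bij : ∀ {L E : Type} [Field L] [Field E] (φ : L →+* E), Function.Surjective φ →
    ∀ γ, nrm φ (kmap φ γ) = γ

/-- Extensions of finitely many discrete valuation rings. -/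
def ExtS : Prop := ∀ {L E : Type} [Field L] [Field E] [CharZero L] (φ : L →+* E), φ.Finite →
  ∀ (S : Set (ValuationSubring L)) (c : L), Fam S c → Fam {U | U.comap φ ∈ S} (φ c)

/-- The norm respects the congruence subgroups modulo `q`. -/
def NnS : Prop := ∀ {A L E : Type} [CommRing A] [Field L] [Field E] [CharZero L] (π : A)
  (p q n : ℕ) (a : A →+* L) (φ : L →+* E) (S : Set (ValuationSubring L)), Lv π p q n → φ.Finite →
  Fam S (a π) → (∀ V ∈ S, ∀ c, a c ∈ V) → ∀ x ∈ KI {U | U.comap φ ∈ S} (φ (a π) ^ n),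
  ∃ y ∈ KI S (a π ^ n), ∃ z, nrm φ x = y + q • z

/-- Approximation. -/
structure LocA : Prop where
  apx : ∀ {E : Type} [Field E] (S S₁ : Set (ValuationSubring E)) (c : E), Fam S c →
    ∃ θ : E, (∀ V ∈ S, V ∈ S₁ → (θ - 1) / c ∈ V) ∧ ∀ V ∈ S, V ∉ S₁ → θ / c ∈ V
  one : ∀ {E : Type} [Field E] (S S₁ : Set (ValuationSubring E)) (c : E), Fam S c → ∀ f : Eˣ,
    ∃ g : Eˣ, (∀ V ∈ S, V ∈ S₁ → Ap V c (g / f)) ∧ ∀ V ∈ S, V ∉ S₁ → Ap V c g
  unif : ∀ {E : Type} [Field E] (S : Set (ValuationSubring E)) (c : E), Fam S c →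
    ∃ w : ValuationSubring E → Eˣ, (∀ V ∈ S, (∃ t : V, Irreducible t ∧ (w V : E) = t) ∧
      ∀ U ∈ S, U ≠ V → Un U (w V)) ∧ ∀ (T : Finset (ValuationSubring E)), (T : Set _) = S →
      ∀ g : Eˣ, ∃ (k : ValuationSubring E → ℤ) (u : Eˣ), (∀ V ∈ S, Un V u) ∧
        g = u * ∏ V ∈ T, w V ^ k V
  root : ∀ {A E : Type} [CommRing A] [Field E] (π : A) (p q n : ℕ) (a : A →+* E)
    (S : Set (ValuationSubring E)), Lv π p q n → Fam S (a π) → (∀ V ∈ S, ∀ c, a c ∈ V) →
    ∀ (N : ℕ) (F : Eˣ), (∀ V ∈ S, Ap V (a π ^ n) F) →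
    ∃ F' g : Eˣ, (∀ V ∈ S, Ap V (a π ^ N) F') ∧ F = F' * g ^ q

/-- Localisation of symbols. -/
structure LocB : Prop where
  orth : ∀ {E : Type} [Field E] (S S₁ : Set (ValuationSubring E)) (c : E), Fam S c →
    ∀ (a b : Eˣ) (γ : Kr E), (∀ V ∈ S, V ∈ S₁ → Ap V c a) → (∀ V ∈ S, V ∉ S₁ → Ap V c b) →
    sym a * sym b * γ ∈ KI S c
  map : ∀ {E : Type} [Field E] (S S₁ : Set (ValuationSubring E)) (c : E), Fam S c →
    ∃ ρ : Kr E →+ Kr E ⧸ KI S c, ρ 1 = 0 ∧ ∀ (f g : Eˣ) (γ : Kr E),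
      (∀ V ∈ S, V ∈ S₁ → Ap V c (g / f)) → (∀ V ∈ S, V ∉ S₁ → Ap V c g) →
      ρ (sym f * γ) = QuotientAddGroup.mk (sym g * γ)

/-- Deep symbols are symbols of units modulo `q`. -/
def DeepS : Prop := ∀ {E : Type} [Field E] (S : Set (ValuationSubring E)) (c : E), Fam S c →
  ∀ q n m : ℕ, 0 < q → ∃ N, ∀ F : Eˣ, (∀ V ∈ S, Ap V (c ^ N) F) → ∀ γ ∈ K E m,
    ∃ y ∈ AddSubgroup.closure {x | ∃ (G : Eˣ) (l : List Eˣ), (∀ V ∈ S, Ap V (c ^ n) G) ∧
      l.length = m ∧ (∀ u ∈ l, ∀ V ∈ S, Un V u) ∧ x = sym G * (l.map sym).prod},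
    ∃ z ∈ AddSubgroup.closure {x | ∃ (G : Eˣ), ∃ δ ∈ K E m, (∀ V ∈ S, Ap V c G) ∧ x = sym G * δ},
      sym F * γ = y + q • z

/-- The K-ring commutes with directed limits: injectivity part. -/
def ContS : Prop := ∀ {ι : Type} [Preorder ι] [IsDirectedOrder ι] (R : ι → Type)
  [∀ i, CommRing (R i)] (S : Type) [CommRing S] (f : ∀ i j, i ≤ j → R i →+* R j)
  (g : ∀ i, R i →+* S), (∀ i j k h h' x, f j k h' (f i j h x) = f i k (h.trans h') x) →
  (∀ i j h x, g j (f i j h x) = g i x) → (∀ s, ∃ i x, g i x = s) →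
  (∀ i x, g i x = 0 → ∃ j h, f i j h x = 0) →
  ∀ i (x : Kr (R i)), kmap (g i) x = 0 → ∃ j h, kmap (f i j h) x = 0

/-- Improved and naive Milnor K-groups of local rings. -/
structure KhS : Prop where
  mem : ∀ (R : Type) [CommRing R] (m : ℕ), ∀ x ∈ K R m, kmap (algebraMap R (RT R Unit)) x ∈ KH R m
  mul : ∀ (R : Type) [CommRing R] (m : ℕ) (u : Rˣ), ∀ x ∈ KH R m,
    kmap (algebraMap R (RT R Unit)) (sym u) * x ∈ KH R (m + 1)
  nat : ∀ (R S : Type) [CommRing R] [CommRing S] (φ : R →+* S) (x : Kr R),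
    kmap (rt (.refl Unit) φ) (kmap (algebraMap R _) x) = kmap (algebraMap S _) (kmap φ x)
  surj : ∀ (R : Type) [CommRing R] [IsLocalRing R] (m : ℕ),
    Infinite (ResidueField R) ∨ m ≤ 1 → ∀ x ∈ KH R m, ∃ y ∈ K R m, kmap (algebraMap R _) y = x
  inj : ∀ (R : Type) [CommRing R] [IsLocalRing R] (m : ℕ),
    Infinite (ResidueField R) ∨ m ≤ 1 → ∀ y ∈ K R m, kmap (algebraMap R (RT R Unit)) y = 0 → y = 0

/-- Completions exist. -/
def CplS : Prop := ∀ (A : Type) [CommRing A] [IsDomain A] [IsDiscreteValuationRing A] (π : A),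
  Irreducible π → ∃ (B : Type) (_ : CommRing B) (_ : IsDomain B) (_ : IsDiscreteValuationRing B)
    (_ : Algebra A B), IsCpl A π B

/-- Greenberg approximation in characteristic zero. -/
def GbS : Prop := ∀ (A : Type) [CommRing A] [IsDomain A] [IsDiscreteValuationRing A]
  [HenselianLocalRing A] [CharZero A] (π : A) (B : Type) [CommRing B] [IsDomain B]
  [IsDiscreteValuationRing B] [Algebra A B], Irreducible π → IsCpl A π B → Grn A π B

/-- Unique extension of the valuation to algebraic extensions. -/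
def Hen (A : Type) [CommRing A] (π : A) : Prop := ∀ (L : Type) [Field L] [Algebra A L],
  Function.Injective (algebraMap A L) → Algebra.IsAlgebraic A L → ∀ V W : ValuationSubring L,
  (∀ c, algebraMap A L c ∈ V) → (∀ c, algebraMap A L c ∈ W) → algebraMap A L π ∈ V.nonunits →
  algebraMap A L π ∈ W.nonunits → V = W

def HenS : Prop := ∀ (A : Type) [CommRing A] [IsDomain A] [IsDiscreteValuationRing A]
  [HenselianLocalRing A] [CharZero A] (π : A), Irreducible π → Hen A π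

/-- Height one primes of normal noetherian domains. -/
structure HartS : Prop where
  den : ∀ {E : Type} [Field E] (D : Subring E) [IsNoetherianRing D] [IsIntegrallyClosedIn D E]
    (g : E) (I P : Ideal D), (∀ s : D, s ∈ I ↔ s * g ∈ D) → P ∈ I.minimalPrimes →
    ∀ Q : Ideal D, Q.IsPrime → Q < P → Q = ⊥
  dvr : ∀ {E : Type} [Field E] (D : Subring E) [IsNoetherianRing D] [IsIntegrallyClosedIn D E]
    [IsFractionRing D E] (P : Ideal D), P.IsPrime → P ≠ ⊥ →
    (∀ Q : Ideal D, Q.IsPrime → Q < P → Q = ⊥) → ∃ V, IsAt D P V ∧ IsDiscreteValuationRing V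

/-- The core of the basic lemma. -/
def CoreS : Prop := ∀ (A : Type) [CommRing A] [IsDomain A] [IsDiscreteValuationRing A] (π : A)
  (C : Type) [CommRing C] [IsDomain C] [IsDiscreteValuationRing C] [Algebra A C]
  (B : Type) [CommRing B] [IsDomain B] [Algebra A B] (p q n N : ℕ) (u : B) (b : Finset B)
  (h : Polynomial A), Irreducible π → IsCpl A π C → Grn A π C → Lv π p q n →
  Function.Injective (algebraMap A B) →
  (∀ x : B, ∃ c : B → Polynomial A, x = ∑ t ∈ b, Polynomial.aeval u (c t) * t) →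
  (∃ i, IsUnit (h.coeff i)) → ∃ L : ℕ, ∀ k : B, algebraMap A B π ^ n ∣ k - Polynomial.aeval u h →
    ∃ γ ∈ Submodule.span A ({x | ∃ i ≤ L, x = u ^ i} ∪ {x | ∃ t ∈ b, ∃ i, i + N ≤ L ∧ x = t * u ^ i}),
      ∃ (G w w' : B) (σ σ' : Polynomial A), IsUnit (σ.coeff 0) ∧ IsUnit (σ'.coeff 0) ∧
        Polynomial.aeval u σ * (u ^ L + algebraMap A B π * γ) = k * G ^ q * w ∧
        Polynomial.aeval u σ' * (k * G ^ q) = (u ^ L + algebraMap A B π * γ) * w'

/-- `V` dominates the local subring `O`. -/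
def Dm {E : Type} [Field E] (O : Subring E) (V : ValuationSubring E) : Prop :=
  (∀ x ∈ O, x ∈ V) ∧ ∀ x ∈ O, x ≠ 0 → x⁻¹ ∈ V → x⁻¹ ∈ O

/-- The basic lemma, algebraic form. -/
def BlaS : Prop := ∀ (A : Type) [CommRing A] [IsDomain A] [IsDiscreteValuationRing A]
  [HenselianLocalRing A] [CharZero A] (π : A) (E : Type) [Field E] [Algebra A E] (p q n : ℕ)
  (u : E) (O : Subring E) [IsLocalRing O] (f : Eˣ), Irreducible π → Lv π p q n →
  Function.Injective (algebraMap A E) → Transcendental A u →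
  Module.Finite (Algebra.adjoin A {u}) (integralClosure (Algebra.adjoin A {u}) E) →
  IsFractionRing O E → (∀ c, algebraMap A E c ∈ O) → u ∈ O → u⁻¹ ∉ O → (algebraMap A E π)⁻¹ ∉ O →
  (∀ x ∈ O, ∃ s ∈ O, s ≠ 0 ∧ s⁻¹ ∈ O ∧ IsIntegral (Algebra.adjoin A {u}) s ∧
    IsIntegral (Algebra.adjoin A {u}) (s * x)) →
  (∀ V : ValuationSubring E, IsDiscreteValuationRing V → (∀ x ∈ O, x ∈ V) →
    algebraMap A E π ∈ V.nonunits → (∀ P : Polynomial A, (∃ i, IsUnit (P.coeff i)) →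
      Un V (Polynomial.aeval u P)) → Ap V (algebraMap A E π ^ n) f) →
  ∃ g : Eˣ, ∀ V : ValuationSubring E, (∀ c, algebraMap A E c ∈ V) →
    algebraMap A E π ∈ V.nonunits → ∃ G w : Eˣ, Un V w ∧
      g = (if Dm O V then f else 1) * G ^ q * w

/-- The abstract form of the two-dimensional vanishing lemma. -/
def GabS : Prop := ∀ {E C : Type} [Field E] [AddCommGroup C] (D : Subring E) [IsNoetherianRing D]
  [IsIntegrallyClosedIn D E] [IsFractionRing D E] (π : D) (p r n : ℕ) (B : Eˣ → Eˣ → C),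
  p.Prime → π ≠ 0 → ¬ IsUnit π → (p : D) ^ r * p * π ∣ π ^ n → (∀ x : C, p ^ r • x = 0) →
  (∀ P Q : Ideal D, P.IsPrime → Q.IsPrime → P ≠ ⊥ → π ∉ Q → P ≤ Q → P = Q) →
  (∀ a a' b, B (a * a') b = B a b + B a' b) → (∀ a b b', B a (b * b') = B a b + B a b') →
  (∀ a b : Eˣ, (a : E) + b = 1 → B a b = 0) →
  (∀ (F G : Eˣ) (c h c' h' : D) (k : ℕ), π ^ k ∈ Ideal.span {h, h'} →
    Fr F (π ^ (n + k) * c) h → Fr G (π ^ (n + k) * c') h' → B F G = 0) →
  (∀ (F : Eˣ) (c h u : D) (k : ℕ), (∀ P ∈ (Ideal.span {π}).minimalPrimes, h ∉ P) →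
    Fr F (π ^ (n + 1) * c) h → ¬ π ^ k ∣ u → n ≤ k →
    ∃ (s : D) (U : Eˣ), (U : E) = u + π ^ k * s ∧ B F U = 0) →
  ∀ F g : Eˣ, (∀ P ∈ (Ideal.span {π}).minimalPrimes, ∃ h c : D, h ∉ P ∧ Fr F (π ^ n * c) h) →
    B F g = 0

end

end Pool.Agent.KEW

end MrgPart0

-- ======== part 1: formerly Pool.Agent.MP_55d974_ag.kew.SpecG
section MrgPart1

/-! PROJECT KEW, geometric statements. -/

open AlgebraicGeometry CategoryTheory TopologicalSpace Opposite Pool.Agent.MP_55d974_ag IsLocalRing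

namespace Pool.Agent.KEW

noncomputable section

open Classical

variable {A : Type} [CommRing A] {X : Scheme.{0}}

/-- The codimension of a point, as a natural number. -/
def cod (y : X) : ℕ := ((ringKrullDim (X.presheaf.stalk y)).unbotD 0).toNat

/-- The dimension function. -/
def dl (d : ℕ) (y : X) : ℕ := d + 1 - cod y

/-- The local ring at `z` of the closure of `y`, as a subring of the residue field of `y`. -/
def O {y z : X} (h : y ⤳ z) : Subring (X.residueField y) := (gz h).range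

/-- `b` lies in the maximal ideal of `O h`. -/
def Nu {y z : X} (h : y ⤳ z) (b : X.residueField y) : Prop :=
  ∃ a ∈ maximalIdeal (X.presheaf.stalk z), gz h a = b

/-- The residue field extension of a place. -/
def rk {y z : X} {V : ValuationSubring (X.residueField y)} (P : Pl y z V) :
    X.residueField z →+* ResidueField V :=
  @ResidueField.map _ _ _ _ _ _ _ P.loc

variable (X) in
/-- The differential on finite families. -/
def DD : Ch X →+ Ch X := if h : ∃ D : Ch X →+ Ch X, ∀ a z, D a z = dd a z then h.choose else 0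

variable (X) in
/-- Points and primes of local rings, valid on every scheme. -/
structure Pts : Prop where
  loc : ∀ {y z : X} (h : y ⤳ z), IsLocalRing (O h)
  frac : ∀ {y z : X} (h : y ⤳ z), IsFractionRing (O h) (X.residueField y)
  nu : ∀ {y z : X} (h : y ⤳ z), ∀ b ∈ O h, ¬ Nu h b ↔ b ≠ 0 ∧ b⁻¹ ∈ O h
  self : ∀ {y : X} (h : y ⤳ y) (b), Nu h b ↔ b = 0
  le : ∀ {w z x : X} (h : w ⤳ z) (h' : z ⤳ x), O (h.trans h') ≤ O h
  sub : ∀ {w z x : X} (h : w ⤳ z) (h' : z ⤳ x), ∀ c ∈ O h, ∃ s ∈ O (h.trans h'),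
    ¬ Nu h s ∧ c * s ∈ O (h.trans h')
  pt : ∀ {w x : X} (h : w ⤳ x) (P : Ideal (O h)), P.IsPrime →
    ∃ (z : X) (h1 : w ⤳ z), z ⤳ x ∧ ∀ b : O h, b ∈ P ↔ Nu h1 b
  ord : ∀ {w z z' x : X} (h : w ⤳ z) (h' : w ⤳ z') (k : z ⤳ x), z' ⤳ x →
    (∀ b ∈ O (h.trans k), Nu h b → Nu h' b) → z ⤳ z'
  pl : ∀ {y z : X} (h : y ⤳ z) (V), Pl y z V ↔ IsDiscreteValuationRing V ∧ Dm (O h) V
  rk_gz : ∀ {w z x : X} {V} (P : Pl w z V) (h' : z ⤳ x) (a) (m : gz (P.sp.trans h') a ∈ V),
    residue V ⟨_, m⟩ = rk P (gz h' a)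

variable (f : X ⟶ Spec (.of A)) (π : A) (d : ℕ)

/-- The structure map to the residue field. -/
def aK (y : X) : A →+* X.residueField y := (X.residue y).hom.comp (sA f y)

/-- Horizontal points. -/
def Hor (y : X) : Prop := aK f y π ≠ 0

/-- The standing hypotheses. -/
structure Hyp : Prop where
  irr : Irreducible π
  proj : IsProjective f
  flat : Flat f
  reg : ∀ x : X, IsRegularLocalRing (X.presheaf.stalk x)
  rel : RelDim f d

/-- The structure map to sections. -/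
def aU (U : X.Opens) : A →+* Γ(X, U) :=
  ((Scheme.ΓSpecIso (.of A)).inv ≫ f.appTop ≫ X.presheaf.map (homOfLE le_top).op).hom

/-- The standard charts of a closed subscheme of projective space. -/
def Cov : Prop := ∃ (N : ℕ) (U : Fin (N + 1) → X.Opens) (t : ∀ i, Fin (N + 1) → Γ(X, U i)),
  (∀ i, IsAffineOpen (U i)) ∧ (∀ x, ∃ i, x ∈ U i) ∧
  (∀ i, Subring.closure (Set.range (aU f (U i)) ∪ Set.range (t i)) = ⊤) ∧ (∀ i, t i i = 1) ∧
  (∀ i k, X.basicOpen (t i k) = U i ⊓ U k) ∧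
  ∀ i j k x (hi : x ∈ U i) (hj : x ∈ U j), X.presheaf.germ _ x hi (t i j) *
    X.presheaf.germ _ x hj (t j k) = X.presheaf.germ _ x hi (t i k)

/-- The affine coordinate ring of the closure of `w` in the chart `i`. -/
def Bi {N : ℕ} (w : X) (τ : Fin (N + 1) → X.residueField w) (i : Fin (N + 1)) :
    Subring (X.residueField w) :=
  Subring.closure (Set.range (aK f w) ∪ Set.range fun k => τ k / τ i)

/-- Homogeneous coordinates `τ` of `w` describe the specialisations of `w`. -/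
structure IsCrd {N : ℕ} (w : X) (τ : Fin (N + 1) → X.residueField w) : Prop where
  ex : ∀ {z} (h : w ⤳ z), ∃ i, τ i ≠ 0 ∧ Bi f w τ i ≤ O h
  loc : ∀ {z} (h : w ⤳ z) (i), τ i ≠ 0 → Bi f w τ i ≤ O h → ∀ c ∈ O h, ∃ s ∈ Bi f w τ i,
    ¬ Nu h s ∧ c * s ∈ Bi f w τ i
  pt : ∀ i, τ i ≠ 0 → ∀ P : Ideal (Bi f w τ i), P.IsPrime →
    ∃ (z : X) (h : w ⤳ z), Bi f w τ i ≤ O h ∧ ∀ b : Bi f w τ i, b ∈ P ↔ Nu h b
  ord : ∀ {z z'} (h : w ⤳ z) (h' : w ⤳ z'), O h ≤ O h' → z' ⤳ z

/-- Coordinates exist and the space is noetherian. -/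
structure Crd (π : A) (d : ℕ) : Prop where
  crd : ∀ w : X, ∃ (N : ℕ) (τ : Fin (N + 1) → X.residueField w), IsCrd f w τ
  noeth : NoetherianSpace X

/-- Dimension theory. -/
structure Dim : Prop where
  eq : ∀ y : X, ringKrullDim (X.presheaf.stalk y) = cod y
  add : ∀ y : X, cod y + dl d y = d + 1
  lt : ∀ {y z : X}, y ⤳ z → y ≠ z → dl d z < dl d y
  hor : ∀ w, Hor f π w → 1 ≤ dl d w ∧
    Algebra.trdeg (aK f w).range (X.residueField w) = (dl d w - 1 : ℕ)
  ver : ∀ x, ¬ Hor f π x → dl d x ≤ d ∧ Algebra.trdeg (aK f x).range (X.residueField x) = dl d x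
  gen : ∀ x : X, ∃ w, w ⤳ x ∧ cod w = 0 ∧ ∀ w', w' ⤳ x → cod w' = 0 → w' = w
  ak : ∀ {y z : X} (h : y ⤳ z) (c), gz h (sA f z c) = aK f y c
  inf : ∀ y : X, 1 ≤ dl d y → Infinite (X.residueField y)
  inj : ∀ w, Hor f π w → Function.Injective (aK f w)
  nu : ∀ {y z : X} (h : y ⤳ z), Nu h (aK f y π) ↔ ¬ Hor f π z
  sp : ∀ {y z : X}, y ⤳ z → Hor f π z → Hor f π y
  cl : IsClosed {y | ¬ Hor f π y}

/-- Valuative criteria. -/
structure Sep : Prop where
  sep : ∀ {w z z' : X} (h : w ⤳ z) (h' : w ⤳ z') (V), Dm (O h) V → Dm (O h') V → z = z'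
  ctr : ∀ (w : X) (V : ValuationSubring (X.residueField w)), (∀ c, aK f w c ∈ V) →
    ∃ (z : X) (h : w ⤳ z), Dm (O h) V
  ver : ∀ w : X, ∃ x, w ⤳ x ∧ ¬ Hor f π x
  fin : ∀ (y : X) (u : (X.residueField y)ˣ), {z | ∃ h : y ⤳ z, cod z = cod y + 1 ∧
    ¬ ((u : X.residueField y) ∈ O h ∧ (u : X.residueField y)⁻¹ ∈ O h)}.Finite
  x0 : ∀ w, Hor f π w → dl d w = 1 → ∃! x, ¬ Hor f π x ∧ w ⤳ x

/-- Projective Noether normalisation near a vertical point. -/
def Pnn : Prop := ∀ {w x : X} (h : w ⤳ x), Hor f π w → ¬ Hor f π x →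
  letI := (aK f w).toAlgebra
  ∃ u : Fin (dl d w - 1) → X.residueField w, AlgebraicIndependent A u ∧ (∀ k, u k ∈ O h) ∧
    Module.Finite (Algebra.adjoin A (Set.range u))
      (integralClosure (Algebra.adjoin A (Set.range u)) (X.residueField w)) ∧
    ∀ c ∈ O h, ∃ s ∈ O h, s ≠ 0 ∧ s⁻¹ ∈ O h ∧ IsIntegral (Algebra.adjoin A (Set.range u)) s ∧
      IsIntegral (Algebra.adjoin A (Set.range u)) (s * c)

/-- The prime `P` of the normalisation of `O h` has centre `z`. -/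
def Cen {w x z : X} (h : w ⤳ x) (P : Ideal (IC (O h))) (h1 : w ⤳ z) : Prop :=
  z ⤳ x ∧ ∀ b : IC (O h), b.1 ∈ O h → (b ∈ P ↔ Nu h1 b)

/-- Normalisations of local rings of horizontal closures. -/
structure Nrmx : Prop where
  fin : ∀ {w x : X} (h : w ⤳ x), Hor f π w →
    Module.Finite (O h) (integralClosure (O h) (X.residueField w))
  noeth : ∀ {w x : X} (h : w ⤳ x), Hor f π w → IsNoetherianRing (IC (O h))
  norm : ∀ {w x : X} (h : w ⤳ x), IsIntegrallyClosedIn (IC (O h)) (X.residueField w)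
  frac : ∀ {w x : X} (h : w ⤳ x), IsFractionRing (IC (O h)) (X.residueField w)
  sub : ∀ {w z x : X} (h : w ⤳ z) (h' : z ⤳ x), IC (O (h.trans h')) ≤ IC (O h) ∧
    ∀ c ∈ IC (O h), ∃ s ∈ O (h.trans h'), ¬ Nu h s ∧ c * s ∈ IC (O (h.trans h'))
  df : ∀ {w x : X} (h : w ⤳ x), Hor f π w → ∀ t : IC (O h), t.1 = aK f w π →
    ∀ Q ∈ (Ideal.span {t}).minimalPrimes, ∃ z V, z ⤳ x ∧ ¬ Hor f π z ∧ dl d z + 1 = dl d w ∧
      Pl w z V ∧ IsAt (IC (O h)) Q V
  cen : ∀ {w x : X} (h : w ⤳ x) (P : Ideal (IC (O h))), P.IsPrime →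
    ∃ (z : X) (h1 : w ⤳ z), Cen h P h1
  lt : ∀ {w x z z' : X} (h : w ⤳ x) (P Q : Ideal (IC (O h))) (h1 : w ⤳ z) (h2 : w ⤳ z'),
    P.IsPrime → Q.IsPrime → P < Q → Cen h P h1 → Cen h Q h2 → dl d z' < dl d z
  bot : ∀ {w x : X} (h : w ⤳ x) (P : Ideal (IC (O h))) (h1 : w ⤳ w), P.IsPrime →
    Cen h P h1 → P = ⊥

/-- Finiteness of places. -/
structure Plf : Prop where
  fin : ∀ w z, Hor f π w → dl d z + 1 = dl d w → {V | Pl w z V}.Finite
  res : ∀ w z V (P : Pl w z V), Hor f π z → dl d z + 1 = dl d w → (rk P).Finite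
  vz : ∀ w, Hor f π w → {z | ¬ Hor f π z ∧ dl d z + 1 = dl d w ∧ w ⤳ z}.Finite
  fam : ∀ w, Hor f π w →
    Fam {V | ∃ z, ¬ Hor f π z ∧ dl d z + 1 = dl d w ∧ Pl w z V} (aK f w π)
  mem : ∀ {w z : X} {V}, Pl w z V → ∀ c, aK f w c ∈ V
  uniq : ∀ {w z z' : X} {V}, Pl w z V → Pl w z' V → z = z'
  cond : ∀ {w y : X} (h : w ⤳ y), Hor f π w → ¬ Hor f π y → dl d y + 1 = dl d w →
    ∃ c : ℕ, ∀ g, (∀ V, Pl w y V → g / aK f w π ^ c ∈ V) → g ∈ O h

/-- A vertical point is a regular divisor on a horizontal closure. -/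
def Mov : Prop := ∀ z, ¬ Hor f π z → ∃ w V, Hor f π w ∧ dl d w = dl d z + 1 ∧
  ∃ P : Pl w z V, (∀ V', Pl w z V' → V' = V) ∧ Function.Surjective (rk P)

/-- The thickenings of the special fibre. -/
def Thk (d : ℕ) : Prop := ∀ n, 1 ≤ n → IsClosedImmersion (thick f π n) ∧
  Set.range (thick f π n) = {y | ¬ Hor f π y} ∧
  ∀ x, RingHom.ker ((thick f π n).stalkMap x).hom = Ideal.span {sA f _ π ^ n}

/-- The differential. -/
structure Dif (f : X ⟶ Spec (.of A)) (π : A) (d : ℕ) : Prop where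
  app : ∀ (a : Ch X) (z), DD X a z = dd a z
  single : ∀ (y : X) (β) (z), DD X (DFinsupp.single y β) z = dK y z β
  loc : ∀ (y z : X) (β), dK y z β ≠ 0 → y ⤳ z ∧ dl d y = dl d z + 1
  mem : ∀ (y z : X) (i), ∀ β ∈ K _ (i + 1), dK y z β ∈ K _ i
  zero : ∀ (y z : X), dK y z 1 = 0
  ind : ∀ (y z : X) (β) (H : AddSubgroup (Kr (X.residueField z))),
    (∀ V (P : Pl y z V), dl d y = dl d z + 1 → nrm (rk P) (tame V (residue V) β) ∈ H) →
    dK y z β ∈ H
  congr : ∀ (y z : X) (β β') (g : Kr (X.residueField z) →+ Kr (X.residueField z)),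
    (∀ V (P : Pl y z V), dl d y = dl d z + 1 → nrm (rk P) (tame V (residue V) β) =
      g (nrm (rk P) (tame V (residue V) β'))) → dK y z β = g (dK y z β')
  uniq : ∀ (y z : X) (V) (P : Pl y z V) (β), dl d y = dl d z + 1 → (∀ V', Pl y z V' → V' = V) →
    dK y z β = nrm (rk P) (tame V (residue V) β)
  dd : (∀ m, Gersten X m) → ∀ a : Ch X, DD X (DD X a) = 0

/-- All geometric facts. -/
structure Geo : Prop where
  pts : Pts X
  crd : Crd f π d
  dim : Dim f π d
  sep : Sep f π d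
  pnn : Pnn f π d
  nrm : Nrmx f π d
  plf : Plf f π d
  mov : Mov f π d
  thk : Thk f π d
  dif : Dif f π d

/-- `P` holds under the standing hypotheses. -/
def All (P : ∀ {A : Type} [CommRing A] {X : Scheme.{0}}, (X ⟶ Spec (.of A)) → A → ℕ → Prop) : Prop :=
  ∀ (A : Type) [CommRing A] [IsDomain A] [IsDiscreteValuationRing A] [HenselianLocalRing A]
    [CharZero A] (X : Scheme.{0}) (f : X ⟶ Spec (.of A)) (π : A) (d : ℕ), Hyp f π d → P f π d

def PtsS : Prop := ∀ X, Pts X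

def ProjS : Prop := ∀ (A : Type) [CommRing A] (X : Scheme.{0}) (f : X ⟶ Spec (.of A)),
  IsProjective f → Cov f

theorem geo_of (h1 : PtsS) (h2 : All Crd) (h3 : All Dim) (h4 : All Sep) (h5 : All Pnn)
    (h6 : All Nrmx) (h7 : All Plf) (h8 : All Mov) (h9 : All Thk) (h10 : All Dif) : All Geo :=
  fun A _ _ _ _ _ X f π d h => ⟨h1 X, h2 A X f π d h, h3 A X f π d h, h4 A X f π d h,
    h5 A X f π d h, h6 A X f π d h, h7 A X f π d h, h8 A X f π d h, h9 A X f π d h,
    h10 A X f π d h⟩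

end

end Pool.Agent.KEW

end MrgPart1

-- ======== part 2: formerly Pool.Agent.MP_55d974_ag.kew.SpecR
section MrgPart2

/-! PROJECT KEW, the recursion and the link with the sheaves. -/

open AlgebraicGeometry CategoryTheory TopologicalSpace Opposite Pool.Agent.MP_55d974_ag IsLocalRing

namespace Pool.Agent.KEW

noncomputable section

open Classical

variable {A : Type} [CommRing A] {X : Scheme.{0}} (f : X ⟶ Spec (.of A)) (π : A) (d : ℕ)

section Rec

variable {C : Type} [AddCommGroup C]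

/-- A cycle class modulo `q`. -/
structure Cy (q : ℕ) (cy : Ch X →+ C) : Prop where
  tor : ∀ x : C, q • x = 0
  bd : ∀ (y : X) (β), cod y + 1 = d → cy (DD X (DFinsupp.single y β)) = 0
  pos : ∀ (z : X) (u) (γ), cy (DFinsupp.single z (sym u * γ)) = 0

/-- Flags of vertical points below `w`. -/
def Fl : X → List X → Prop
  | w, [] => dl d w = 0
  | w, x :: l => w ⤳ x ∧ ¬ Hor f π x ∧ dl d w = dl d x + 1 ∧ Fl x l

variable (X) in
/-- Families of maps to functions on flags. -/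
abbrev Lm (C : Type) [AddCommGroup C] : Type :=
  ∀ w : X, Kr (X.residueField w) →+ (List X →₀ C)

/-- Extension to chains. -/
def Lc (Λ : Lm X C) : Ch X →+ (List X →₀ C) := DFinsupp.sumAddHom Λ

/-- The map `T`. -/
def TT (Λ : Lm X C) (w : X) : Kr (X.residueField w) →+ (List X →₀ C) :=
  (Lc Λ).comp ((DD X).comp (DFinsupp.singleAddHom (fun y : X => Kr (X.residueField y)) w))

/-- Summation over the first entry of the flag. -/
def Del : (List X →₀ C) →+ (List X →₀ C) := Finsupp.mapDomain.addMonoidHom List.tail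

/-- Level zero of the recursion. -/
def L0 (cy : Ch X →+ C) : Lm X C := fun w =>
  if Hor f π w ∧ dl d w = 1 then
    (Finsupp.singleAddHom [@epsilon _ ⟨w⟩ fun x => ¬ Hor f π x ∧ w ⤳ x]).comp
      (cy.comp (DFinsupp.singleAddHom (fun y : X => Kr (X.residueField y)) w))
  else 0

variable (n : ℕ)

/-- The invariants of level `j`. -/
structure Inv (j : ℕ) (Λ : Lm X C) : Prop where
  sup : ∀ w β l, Λ w β l ≠ 0 → Hor f π w ∧ dl d w = j + 1 ∧ Fl f π d w l
  kill : ∀ w x F γ l, (∀ V, Pl w x V → Ap V (aK f w π ^ n) F) → Λ w (sym F * γ) (x :: l) = 0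
  one : 1 ≤ j → ∀ w, Λ w 1 = 0

/-- The recursion from level `j` to level `j + 1`. -/
def Rec (j : ℕ) (Λ' Λ : Lm X C) : Prop :=
  ∀ w, Hor f π w → dl d w = j + 2 → ∀ β, Del (Λ' w β) = TT Λ w β

/-- The vanishing statement `G (j + 1)`. -/
def GG (j : ℕ) (Λ : Lm X C) : Prop :=
  ∀ w, Hor f π w → dl d w = j + 2 → ∀ y l F γ,
    (∀ z V, ¬ Hor f π z → dl d z + 1 = dl d w → z ⤳ y → Pl w z V → Ap V (aK f w π ^ n) F) →
    TT Λ w (sym F * γ) (y :: l) = 0

/-- The sum over the top entry vanishes. -/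
def P1 (j : ℕ) (Λ : Lm X C) : Prop :=
  ∀ w, Hor f π w → dl d w = j + 2 → ∀ β, Del (TT Λ w β) = 0

/-- The conclusion of the place by place lemma. -/
def PLc (j : ℕ) (Λ : Lm X C) : Prop :=
  ∀ {w y : X} (h : w ⤳ y), Hor f π w → dl d w = j + 2 → ∀ (t : IC (O h)), t.1 = aK f w π →
    ∀ (F G : (X.residueField w)ˣ) (c e c' e' : IC (O h)), Fr F c e → Fr G c' e' →
    (∀ (k : Type) [Field k] (φ : IC (O h) →+* k) (ν : ValuationSubring k), (∀ b, φ b ∈ ν) →
      φ t ≠ 0 → φ t ∈ ν.nonunits → (φ e ≠ 0 ∧ φ c / φ e / φ t ^ n ∈ ν) ∨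
        (φ e' ≠ 0 ∧ φ c' / φ e' / φ t ^ n ∈ ν)) →
    ∀ γ l, TT Λ w (sym F * sym G * γ) (y :: l) = 0

/-- The conclusion of the moving lemma. -/
def STc (j : ℕ) (Λ : Lm X C) : Prop :=
  ∀ {w y : X} (h : w ⤳ y), Hor f π w → dl d w = j + 2 → ¬ Hor f π y → dl d y = j →
    ∀ (t : IC (O h)), t.1 = aK f w π → ∀ (F : (X.residueField w)ˣ) (c e u : IC (O h)) (k : ℕ),
    (∀ P ∈ (Ideal.span {t}).minimalPrimes, e ∉ P) → Fr F (t ^ (n + 1) * c) e → ¬ t ^ k ∣ u →
    n ≤ k → ∀ γ l, ∃ (s : IC (O h)) (U : (X.residueField w)ˣ),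
      (U : X.residueField w) = u + t ^ k * s ∧ TT Λ w (sym F * sym U * γ) (y :: l) = 0

/-- The whole recursion. -/
def Lam (cy : Ch X →+ C) : Prop := ∃ Λ : ℕ → Lm X C, Λ 0 = L0 f π d cy ∧
  ∀ j, Inv f π d n j (Λ j) ∧ Rec f π d j (Λ (j + 1)) (Λ j)

end Rec

/-- The context of the main argument. -/
structure Ctx (p q n : ℕ) : Prop where
  hyp : Hyp f π d
  geo : Geo f π d
  lv : Lv π p q n
  ger : ∀ m, d ≤ m + 1 → m ≤ d → Gersten X m

/-- `P` holds in the context of the main argument. -/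
def AllC (P : ∀ {A : Type} [CommRing A] {X : Scheme.{0}},
    (X ⟶ Spec (.of A)) → A → ℕ → ℕ → ℕ → Prop) : Prop :=
  ∀ (A : Type) [CommRing A] [IsDomain A] [IsDiscreteValuationRing A] [HenselianLocalRing A]
    [CharZero A] (X : Scheme.{0}) (f : X ⟶ Spec (.of A)) (π : A) (d p q n : ℕ),
    Ctx f π d p q n → P f π d q n

variable (q n : ℕ)

def Blg : Prop := ∀ (C : Type) [AddCommGroup C] (cy : Ch X →+ C), Cy d q cy →
  Inv f π d n 0 (L0 f π d cy) ∧ GG f π d n 0 (L0 f π d cy)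

def Plm : Prop := ∀ (C : Type) [AddCommGroup C] (j : ℕ) (Λ : Lm X C), (∀ x : C, q • x = 0) →
  1 ≤ j → Inv f π d n j Λ → PLc f π d n j Λ

def Star (_q n : ℕ) : Prop := ∀ (C : Type) [AddCommGroup C] (j : ℕ) (Λ : Lm X C),
  1 ≤ j → Inv f π d n j Λ → P1 f π d j Λ → PLc f π d n j Λ → STc f π d n j Λ

def Gj : Prop := ∀ (C : Type) [AddCommGroup C] (j : ℕ) (Λ : Lm X C), (∀ x : C, q • x = 0) →
  1 ≤ j → Inv f π d n j Λ → PLc f π d n j Λ → STc f π d n j Λ → GG f π d n j Λ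

def GSt : Prop := ∀ (C : Type) [AddCommGroup C] (j : ℕ) (Λ : Lm X C), (∀ x : C, q • x = 0) →
  1 ≤ j → Inv f π d n j Λ → P1 f π d j Λ → GG f π d n j Λ

def Step (_q n : ℕ) : Prop := ∀ (C : Type) [AddCommGroup C] (j : ℕ) (Λ : Lm X C),
  Inv f π d n j Λ → GG f π d n j Λ → ∃ Λ', Inv f π d n (j + 1) Λ' ∧ Rec f π d j Λ' Λ

def LamS : Prop := ∀ (C : Type) [AddCommGroup C] (cy : Ch X →+ C), Cy d q cy → Lam f π d n cy

/-- The special fibre. -/
def Yv : Set X.carrier := {y | ¬ Hor f π y}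

/-- The part of weight `m` and codimension `j`. -/
def AW (m j : ℕ) (y : X.carrier) : AddSubgroup (Kr (X.residueField y)) :=
  if cod y = j ∧ j ≤ m then K _ (m - j) else ⊥

/-- The Gersten complexes satisfy the hypotheses of the cohomological statement. -/
def CxS (_q _n : ℕ) : Prop := ∀ m, d ≤ m + 1 → m ≤ d → Coh.Cx (X := X.carrier) (Yv f π) (dl d) d (AW m) (DD X)

/-- Exactness of the horizontal subcomplex. -/
def HexS (_q _n : ℕ) : Prop := ∀ m, d ≤ m + 1 → m ≤ d → ∀ j < d, ∀ (z : X) (c : Ch X),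
  c ∈ Coh.Deg (X := X.carrier) (AW m (j + 1)) → (∀ w, ¬ Hor f π w → c w = 0) →
  (∀ w, w ⤳ z → DD X c w = 0) → ∃ b : Ch X, b ∈ Coh.Deg (X := X.carrier) (AW m j) ∧
    (∀ w, ¬ Hor f π w → b w = 0) ∧ ∀ w, w ⤳ z → DD X b w = c w

/-- Sections of the K-sheaf. -/
abbrev KSec (Y : Scheme.{0}) (m : ℕ) (U : Y.Opens) : Type := (KS Y m).obj.obj (op U)

/-- The section of the K-sheaf given by a section of the presheaf. -/
def shf {Y : Scheme.{0}} {m : ℕ} (U : Y.Opens) : (KP Y m).obj (op U) →+ KSec Y m U :=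
  ((toSheafify _ (KP Y m)).app (op U)).hom

/-- Values of sections of the K-sheaf in the K-groups of the local rings. -/
structure IsSt (Y : Scheme.{0}) (m : ℕ)
    (st : ∀ (y : Y) (U : Y.Opens), y ∈ U → KSec Y m U →+ KH (Y.presheaf.stalk y) m) : Prop where
  pre : ∀ y U hy s, st y U hy (shf U s) = (khF m).map (Y.presheaf.germ U y hy) s
  res : ∀ y U V (h : V ≤ U) (hy : y ∈ V) s,
    st y V hy ((KS Y m).obj.map (homOfLE h).op s) = st y U (h hy) s
  inj : ∀ y U hy s, st y U hy s = 0 →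
    ∃ V, y ∈ V ∧ ∃ h : V ≤ U, (KS Y m).obj.map (homOfLE h).op s = 0

/-- General facts on the K-sheaf. -/
structure StS : Prop where
  st : ∀ (Y : Scheme.{0}) (m : ℕ), ∃ st, IsSt Y m st
  loc : ∀ (Y : Scheme.{0}) (m : ℕ) (U : Y.Opens) (s : KSec Y m U), ∀ y ∈ U, ∃ V, y ∈ V ∧
    ∃ (h : V ≤ U) (s' : (KP Y m).obj (op V)), (KS Y m).obj.map (homOfLE h).op s = shf V s'
  nat : ∀ (Y : Scheme.{0}) (m : ℕ) (U V : Y.Opens) (h : V ≤ U) (s : (KP Y m).obj (op U)),
    (KS Y m).obj.map (homOfLE h).op (shf U s) = shf V ((KP Y m).map (homOfLE h).op s)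
  spread : ∀ (Y : Scheme.{0}) (m : ℕ) (U : Y.Opens) (y : Y), y ∈ U →
    ∀ σ ∈ K (Y.presheaf.stalk y) m, ∃ (V : Y.Opens) (hy : y ∈ V), V ≤ U ∧
      ∃ σ' ∈ K Γ(Y, V) m, kmap (Y.presheaf.germ V y hy).hom σ' = σ
  pull : ∀ {Z Y : Scheme.{0}} (h : Z ⟶ Y) (m : ℕ) (U : Y.Opens) (s : (KP Y m).obj (op U)),
    (pull h m).hom.app (op U) (shf U s) = shf (h ⁻¹ᵁ U) ((khF m).map (h.app U) s)
  comp : ∀ {Z Y W : Scheme.{0}} (g : Y ⟶ W) (h : Z ⟶ Y) (m : ℕ),
    KEW.pull g m ≫ pullD g h m = KEW.pull (h ≫ g) m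

/-- The K-sheaf is the sheaf of cycles of degree zero. -/
structure Io (ι : ∀ U : X.Opens, KSec X d U →+ Ch X) : Prop where
  agree : ∀ (U : X.Opens) (s : (KP X d).obj (op U)) (y) (hy : y ∈ U), cod y = 0 →
    kmap (rt (.refl _) (X.evaluation U y hy).hom) (Subtype.val s) =
      kmap (algebraMap (X.residueField y) _) (ι U (shf U s) y)
  deg : ∀ U s w, ι U s w ∈ AW d 0 w
  off : ∀ U s, ∀ w ∉ U, ι U s w = 0
  nat : ∀ U V (h : V ≤ U) s, ∀ w ∈ V, ι V ((KS X d).obj.map (homOfLE h).op s) w = ι U s w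
  cyc : ∀ U s, ∀ w ∈ U, DD X (ι U s) w = 0
  inj : ∀ U s, ι U s = 0 → s = 0
  sur : ∀ (z : X) (c : Ch X), (∀ w, c w ∈ AW d 0 w) → (∀ w, w ⤳ z → DD X c w = 0) →
    ∃ U, z ∈ U ∧ ∃ s, ∀ w, w ⤳ z → ι U s w = c w

def IoS (_f : X ⟶ Spec (.of A)) (_π : A) (d _q _n : ℕ) : Prop := ∃ ι, Io (X := X) d ι

/-- The direct image lives on the special fibre and restriction is locally onto. -/
structure Vl (_q n : ℕ) : Prop where
  van : ∀ z, Hor f π z → ∀ U : X.Opens, z ∈ U → ∀ t : (KD (thick f π n) d).obj.obj (op U),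
    ∃ V, z ∈ V ∧ ∃ h : V ≤ U, (KD (thick f π n) d).obj.map (homOfLE h).op t = 0
  lift : ∀ z, ¬ Hor f π z → d ≤ dl d z + 1 → ∀ U : X.Opens, z ∈ U →
    ∀ t : (KD (thick f π n) d).obj.obj (op U), ∃ V, z ∈ V ∧ ∃ h : V ≤ U, ∃ s,
      (pull (thick f π n) d).hom.app (op V) s = (KD (thick f π n) d).obj.map (homOfLE h).op t

/-- `c` is the product of the symbol of `u` with `τ` at the generisations of `y`. -/
def Tm {y : X} (u : (X.presheaf.stalk y)ˣ) (τ c : Ch X) : Prop :=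
  ∀ w (h : w ⤳ y), c w = sym (Units.map (gz h).toMonoidHom u) * τ w

/-- The negligible germs of degree zero. -/
structure Kn (ι : ∀ U : X.Opens, KSec X d U →+ Ch X) (N : X → AddSubgroup (Ch X)) : Prop where
  ker : ∀ z, ¬ Hor f π z → dl d z = d → ∀ U : X.Opens, z ∈ U → ∀ s,
    Coh.germ (X := X.carrier) z (ι U s) ∈ N z ↔ ∃ V, z ∈ V ∧ ∃ h : V ≤ U, ∃ t,
      (KD (thick f π n) d).obj.map (homOfLE h).op ((pull (thick f π n) d).hom.app (op U) s) = q • t
  k1 : ∀ z, ¬ Hor f π z → dl d z = d → ∀ c ∈ N z, ∀ w,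
    ∃ y ∈ KI {V | Pl w z V} (aK f w π ^ n), ∃ y', c w = y + q • y'
  k2 : ∀ z, ¬ Hor f π z → dl d z = d → ∀ e, d = e + 1 → ∀ (u : (X.presheaf.stalk z)ˣ) (τ c : Ch X),
    sA f z π ^ n ∣ (u : X.presheaf.stalk z) - 1 → (∀ w, τ w ∈ AW e 0 w) →
    (∀ w, w ⤳ z → DD X τ w = 0) → Tm u τ c → Coh.germ (X := X.carrier) z c ∈ N z

def KnS : Prop := ∀ ι, Io (X := X) d ι → ∃ N, Kn f π d q n ι N

/-- Negligible germs. -/
abbrev NG (N : X → AddSubgroup (Ch X)) (j : ℕ) (y : X) : AddSubgroup (Ch X) :=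
  Coh.Neg (X := X.carrier) (Yv f π) (dl d) d (AW d) (DD X) N j y

/-- Multiples of `q` are negligible. -/
def NegQ : Prop := ∀ ι N, Io (X := X) d ι → Kn f π d q n ι N → ∀ j (y : X), ¬ Hor f π y →
  dl d y + j = d → ∀ b : Ch X, (∀ w, b w ∈ AW d j w) → (∀ w, ¬ Hor f π w → b w = 0) →
  DD X b y = 0 → Coh.germ (X := X.carrier) y (q • b) ∈ NG f π d N j y

/-- Products with units congruent to one are negligible. -/
def NegD : Prop := ∀ ι N, Io (X := X) d ι → Kn f π d q n ι N → ∀ e, d = e + 1 →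
  ∀ j (y : X), ¬ Hor f π y → dl d y + j = d → ∀ (u : (X.presheaf.stalk y)ˣ) (τ c : Ch X),
  sA f y π ^ n ∣ (u : X.presheaf.stalk y) - 1 → (∀ w, τ w ∈ AW e j w) →
  (∀ w, ¬ Hor f π w → τ w = 0) → DD X τ y = 0 → Tm u τ c →
  Coh.germ (X := X.carrier) y c ∈ NG f π d N j y

/-- Deep symbols are negligible. -/
def NegF : Prop := ∀ ι N, Io (X := X) d ι → Kn f π d q n ι N → ∀ j i (w y : X), j + i + 1 = d →
  Hor f π w → ¬ Hor f π y → dl d y + j = d → dl d w = dl d y + 1 → ∃ M : ℕ, ∀ F,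
  (∀ V, Pl w y V → Ap V (aK f w π ^ M) F) → ∀ γ ∈ K _ i,
  Coh.germ (X := X.carrier) y (DFinsupp.single w (sym F * γ)) ∈ NG f π d N j y

def LocZ : Prop := ∀ ι N, Io (X := X) d ι → Kn f π d q n ι N →
  Coh.Localise (X := X.carrier) (Yv f π) (dl d) d (AW d) (DD X) N

def KillS : Prop := ∀ ι N, Io (X := X) d ι → Kn f π d q n ι N →
  Coh.Kill (X := X.carrier) (Yv f π) (dl d) d (AW d) (DD X) N q

/-- Restriction to level `n` is bijective modulo `q`. -/
def Bij : Prop := Function.Bijective (res f π d q n)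

end

end Pool.Agent.KEW

end MrgPart2

-- ======== part 3: formerly Pool.Agent.MP_55d974_ag.kew.DimV
section MrgPart3

/-! PROJECT KEW (copy of SRAT module DIM): dimension theory of varieties. -/

namespace Pool.Agent.KEW.Dg

open AlgebraicGeometry CategoryTheory MvPolynomial Algebra

section Alg

variable {k : Type} [Field k]

theorem trdeg_quot_lt {R : Type} [CommRing R] [IsDomain R] [Algebra k R] {n : ℕ}
    (hR : trdeg k R = n) (p : Ideal R) [p.IsPrime] {h : R} (hp : h ∈ p) (h0 : h ≠ 0) :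
    trdeg k (R ⧸ p) < n := by
  by_contra hc
  obtain ⟨s, hs⟩ := exists_isTranscendenceBasis k (R ⧸ p)
  rw [← hs.cardinalMk_eq_trdeg, not_lt, ← Cardinal.mk_fin] at hc
  obtain ⟨e⟩ := Cardinal.le_def _ _ |>.1 hc
  have h2 : AlgebraicIndependent k fun i => (e i : R ⧸ p) := hs.1.comp e e.injective
  choose g hg using fun i => Ideal.Quotient.mk_surjective (I := p) (e i : R ⧸ p)
  have e1 : (Ideal.Quotient.mkₐ k p) ∘ g = fun i => (e i : R ⧸ p) := funext hg
  rw [← e1] at h2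
  have h3 : AlgebraicIndependent k g := AlgebraicIndependent.of_comp _ h2
  have h4 : IsAlgebraic (Algebra.adjoin k (Set.range g)) h := by
    by_contra ht
    have := ((h3.option_iff_transcendental h).2 ht).cardinalMk_le_trdeg.trans hR.le
    rw [Cardinal.mk_fintype, Fintype.card_option, Fintype.card_fin, Nat.cast_le] at this
    omega
  obtain ⟨⟨b, hb⟩, b0, hd⟩ := h4.exists_nonzero_dvd (mem_nonZeroDivisors_of_ne_zero h0)
  have hbp : b ∈ p := p.mem_of_dvd hd hp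
  rw [Algebra.adjoin_range_eq_range_aeval] at hb
  obtain ⟨Q, rfl⟩ := hb
  have h5 : MvPolynomial.aeval ((Ideal.Quotient.mkₐ k p) ∘ g) Q = 0 := by
    have := MvPolynomial.comp_aeval_apply g (Ideal.Quotient.mkₐ k p) Q
    exact this.symm.trans (Ideal.Quotient.eq_zero_iff_mem.2 hbp)
  have h6 := algebraicIndependent_iff.1 h2 Q h5
  exact b0 (Subtype.ext (by simp [h6]))

theorem height_one {A : Type} [CommRing A] [IsDomain A] [Algebra k A] [FiniteType k A]
    (p : Ideal A) [p.IsPrime] (hp : p.height = 1) : trdeg k (A ⧸ p) + 1 = trdeg k A := by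
  obtain ⟨s, g, hg, hi⟩ := exists_integral_inj_algHom_of_fg k A
  let _ := g.toRingHom.toAlgebra
  have : IsScalarTower k (MvPolynomial (Fin s) k) A := .of_algebraMap_eq fun c => (g.commutes c).symm
  have : Algebra.IsIntegral (MvPolynomial (Fin s) k) A := ⟨hi⟩
  have : FaithfulSMul (MvPolynomial (Fin s) k) A := (faithfulSMul_iff_algebraMap_injective _ _).2 hg
  have : IsNoetherianRing A := Algebra.FiniteType.isNoetherianRing k A
  have hA : trdeg k A = s := by
    rw [← trdeg_add_eq k (MvPolynomial (Fin s) k) (A := A), trdeg_eq_zero (A := A), add_zero,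
      MvPolynomial.trdeg_of_isDomain, Cardinal.lift_id, Cardinal.mk_fin]
  obtain ⟨f, hf, f0⟩ := Submodule.exists_mem_ne_zero_of_ne_bot (p.ne_bot_of_height_eq_one hp)
  let q := p.under (MvPolynomial (Fin s) k)
  have q0 : q ≠ ⊥ := Ideal.comap_ne_bot_of_integral_mem f0 hf (hi f)
  have q1 : q.height = 1 := le_antisymm
    (hp ▸ (Ideal.height_eq_height_add_of_liesOver_of_hasGoingDown q p).ge.trans' le_self_add)
    (by simpa [Order.one_le_iff_ne_zero])
  obtain ⟨π, hπ, hp'⟩ := Ideal.IsPrime.exists_mem_prime_of_ne_bot (I := q) inferInstance q0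
  have e := q.eq_span_singleton_of_height_eq_one q1 hπ hp'
  obtain ⟨i, hi0⟩ : ∃ i, π.degreeOf i ≠ 0 := by
    by_contra hc
    push Not at hc
    have h1 : π = C (π.coeff 0) := by
      refine totalDegree_eq_zero_iff_eq_C.1 ((totalDegree_eq_zero_iff _ _).2 fun m hm j => ?_)
      exact Nat.eq_zero_of_le_zero (hc j ▸ monomial_le_degreeOf j hm)
    refine hp'.not_isUnit (h1 ▸ (IsUnit.mk0 _ fun h0 => hp'.ne_zero ?_).map C)
    rw [h1, h0, map_zero]
  obtain ⟨n, rfl⟩ : ∃ n, s = n + 1 := ⟨s - 1, by have := i.pos; omega⟩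
  have h2 : AlgebraicIndependent k fun j : Fin n =>
      Ideal.Quotient.mkₐ k p (g (X (i.succAbove j))) := by
    rw [algebraicIndependent_iff]
    intro Q hQ
    by_contra h0
    have h3 : rename i.succAbove Q ∈ q := by
      rw [Ideal.mem_comap, ← Ideal.Quotient.eq_zero_iff_mem, ← hQ]
      exact AlgHom.congr_fun (algHom_ext (f := ((Ideal.Quotient.mkₐ k p).comp g).comp
        (rename i.succAbove)) fun j => by simp) Q
    obtain ⟨r, hr⟩ := Ideal.mem_span_singleton.1 (e ▸ h3)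
    have h4 : rename i.succAbove Q ≠ 0 := fun h =>
      h0 (rename_injective _ Fin.succAbove_right_injective (h.trans (map_zero _).symm))
    have h5 : (rename i.succAbove Q).degreeOf i = 0 := by
      by_contra h6
      obtain ⟨j, -, hj⟩ := mem_vars_rename _ _ (mem_vars_iff_degreeOf_ne_zero.2 h6)
      exact Fin.succAbove_ne i j hj
    rw [hr, degreeOf_mul_eq hp'.ne_zero (right_ne_zero_of_mul (hr ▸ h4))] at h5
    omega
  have h6 := h2.cardinalMk_le_trdeg
  have h7 := trdeg_quot_lt hA p hf f0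
  rw [Cardinal.mk_fin] at h6
  rw [Nat.cast_succ, ← Cardinal.succ_natCast, Order.lt_succ_iff] at h7
  rw [hA, le_antisymm h7 h6, Nat.cast_succ]

theorem krull {A : Type} [CommRing A] [IsDomain A] [Algebra k A] [FiniteType k A] {f : A}
    (hf : f ≠ 0) {p : Ideal A} (hp : p ∈ (Ideal.span {f}).minimalPrimes) :
    trdeg k (A ⧸ p) + 1 = trdeg k A := by
  have : IsNoetherianRing A := Algebra.FiniteType.isNoetherianRing k A
  have := hp.isPrime
  have h0 : p ≠ ⊥ := fun e => hf (Ideal.span_singleton_eq_bot.1 (bot_unique (hp.le.trans_eq e)))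
  exact height_one p (le_antisymm (Ideal.height_le_one_of_isPrincipal_of_mem_minimalPrimes _ p hp)
    (by simpa [Order.one_le_iff_ne_zero]))

variable {R : Type} [CommRing R] [Algebra k R]

theorem trdeg_lt {q p : Ideal R} [q.IsPrime] [p.IsPrime] (h : q < p) {n : ℕ}
    (hn : trdeg k (R ⧸ q) = n) : trdeg k (R ⧸ p) < n := by
  obtain ⟨f, h1, h2⟩ := SetLike.exists_of_lt h
  have : (p.map (Ideal.Quotient.mkₐ k q)).IsPrime :=
    Ideal.map_isPrime_of_surjective (Ideal.Quotient.mk_surjective (I := q)) (I := p)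
      (by rw [Ideal.mk_ker]; exact h.le)
  rw [← (DoubleQuot.quotQuotEquivQuotOfLEₐ k h.le).trdeg_eq]
  exact trdeg_quot_lt hn _ (Ideal.mem_map_of_mem _ h1)
    fun e => h2 (Ideal.Quotient.eq_zero_iff_mem.1 e)

theorem exists_gt [FiniteType k R] (q : Ideal R) [q.IsPrime] (h : trdeg k (R ⧸ q) ≠ 0) :
    ∃ p : Ideal R, p.IsPrime ∧ q < p ∧ trdeg k (R ⧸ p) + 1 = trdeg k (R ⧸ q) := by
  have h1 : ¬ IsField (R ⧸ q) := fun e => by
    let _ := e.toField
    have := finite_of_finite_type_of_isJacobsonRing k (R ⧸ q)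
    exact h trdeg_eq_zero
  obtain ⟨f, f0, hf⟩ := Ring.exists_not_isUnit_of_not_isField h1
  obtain ⟨P, hP⟩ := Ideal.nonempty_minimalPrimes (I := Ideal.span {f})
    (mt Ideal.span_singleton_eq_top.1 hf)
  have := hP.isPrime
  have h2 : q ≤ P.comap (Ideal.Quotient.mk q) := fun x hx => by
    rw [Ideal.mem_comap, Ideal.Quotient.eq_zero_iff_mem.2 hx]; exact P.zero_mem
  refine ⟨P.comap (Ideal.Quotient.mk q), Ideal.comap_isPrime _ _, lt_of_le_of_ne h2 fun e => ?_, ?_⟩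
  · obtain ⟨f, rfl⟩ := Ideal.Quotient.mk_surjective f
    exact f0 (Ideal.Quotient.eq_zero_iff_mem.2 (e.ge (hP.le (Ideal.mem_span_singleton_self _))))
  · rw [← krull (k := k) f0 hP, ← (DoubleQuot.quotQuotEquivQuotOfLEₐ k h2).trdeg_eq]
    exact congrArg (fun I : Ideal (R ⧸ q) => trdeg k ((R ⧸ q) ⧸ I) + 1)
      (Ideal.map_comap_of_surjective _ Ideal.Quotient.mk_surjective P)

theorem trdeg_frac (A Ω : Type) [CommRing A] [IsDomain A] [Algebra k A] [Field Ω] [Algebra A Ω]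
    [IsFractionRing A Ω] [Algebra k Ω] [IsScalarTower k A Ω] : trdeg k Ω = trdeg k A := by
  have := IsLocalization.isAlgebraic Ω (nonZeroDivisors A)
  rw [← trdeg_add_eq k A (A := Ω), trdeg_eq_zero (A := Ω), add_zero]

end Alg

theorem trd (A Ω : Type) [CommRing A] [IsDomain A] [Algebra ℂ A] [Algebra.FiniteType ℂ A] [Field Ω]
    [Algebra A Ω] [IsFractionRing A Ω] [Algebra ℂ Ω] [IsScalarTower ℂ A Ω] :
    ∃ n : ℕ, Algebra.trdeg ℂ Ω = n ∧ Algebra.trdeg ℂ (RatFunc Ω) = (n + 1 : ℕ) := by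
  obtain ⟨n, hn⟩ := Cardinal.lt_aleph0.1 (trdeg_lt_aleph0_of_finiteType (R := ℂ) (S := A))
  have h1 := (trdeg_frac (k := ℂ) A Ω).trans hn
  refine ⟨n, h1, ?_⟩
  rw [← trdeg_add_eq ℂ Ω (A := RatFunc Ω), h1, trdeg_frac (k := Ω) (Polynomial Ω),
    Polynomial.trdeg_of_isDomain, Nat.cast_succ]

theorem height_closed {W Y : Scheme.{0}} (i : W ⟶ Y) [IsClosedImmersion i] (w : W) :
    Order.height (i w) = Order.height w := by
  have hi := i.isClosedEmbedding
  have h : ∀ a b : W, i a ≤ i b ↔ a ≤ b := fun a b => hi.isInducing.specializes_iff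
  refine (Order.height_eq_of_strictMono i (fun a b e => ?_) (fun a b e => ?_) w).symm
  · exact lt_of_le_not_ge ((h a b).2 e.le) fun c => e.not_ge ((h b a).1 c)
  · obtain ⟨c, rfl⟩ := Specializes.mem_closed e.le hi.isClosed_range ⟨a, rfl⟩
    exact ⟨c, lt_of_le_not_ge ((h c a).1 e.le) fun c' => e.not_ge ((h a c).2 c'), rfl⟩

theorem ord_finite (W : Scheme.{0}) [IsIntegral W] [IsNoetherian W] (φ : W.functionField) :
    {w : W | W.ord φ w ≠ 0}.Finite := by
  rcases eq_or_ne φ 0 with rfl | h0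
  · simp
  obtain ⟨U, hU, f, rfl⟩ := W.presheaf.exists_germ_eq φ
  have h1 : genericPoint W ∈ W.basicOpen f := (W.mem_basicOpen f _ hU).2 (Ne.isUnit h0)
  obtain ⟨S, h2, h3, h4, h5⟩ := TopologicalSpace.NoetherianSpace.exists_finite_set_isClosed_irreducible
    (W.basicOpen f).isOpen.isClosed_compl
  have := h2.to_subtype
  refine (Set.finite_range fun C : S => (h4 C C.2).genericPoint).subset fun w hw => ?_
  have : Nonempty (W.basicOpen f) := ⟨⟨_, h1⟩⟩
  have h6 : w ∉ W.basicOpen f := fun e => hw (by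
    have := Scheme.ord_of_isUnit (U := W.basicOpen f) (W.toRingedSpace.isUnit_res_basicOpen f) e
    exact (congrArg (W.ord · w) (W.presheaf.germ_res_apply (homOfLE (W.basicOpen_le f)) _ h1
      f)).symm.trans this)
  have h7 : Order.coheight w = 1 := not_not.1 fun e => hw (Scheme.ord_eq_zero_of_coheight_neq_one e _)
  obtain ⟨C, hC, hw'⟩ := h5.le h6
  have h8 := (h4 C hC).isGenericPoint_genericPoint (h3 C hC)
  refine ⟨⟨C, hC⟩, by_contra fun e => ?_⟩
  have a1 : w < (h4 C hC).genericPoint := lt_of_le_not_ge (h8.specializes hw')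
    fun c => e (Specializes.antisymm (h8.specializes hw') c).eq
  have a2 : (h4 C hC).genericPoint < (⊤ : W) := lt_of_le_not_ge le_top fun c =>
    h5.ge ⟨C, hC, h8.mem⟩ (Specializes.mem_open c (W.basicOpen f).isOpen h1)
  have a3 := Order.coheight_add_one_le a1
  have a4 := Order.coheight_add_one_le a2
  rw [h7] at a3
  exact absurd ((add_le_add_left (le_add_self.trans a4) 1).trans a3) (by decide)

section Sch

variable {k : Type} [Field k] {W : Scheme.{0}} (t : W ⟶ Spec (CommRingCat.of k))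

/-- The transcendence degree of the residue field. -/
noncomputable def dl (w : W) : Cardinal :=
  letI := (Spec.preimage (W.fromSpecResidueField w ≫ t)).hom.toAlgebra
  trdeg k (W.residueField w)

theorem dl_eq {w : W} {K : Type} [Field K] [Algebra k K] (φ : W.residueField w ⟶ .of K)
    (hφ : Function.Surjective φ) (h : Spec.map φ ≫ W.fromSpecResidueField w ≫ t =
      Spec.map (CommRingCat.ofHom (algebraMap k K))) : dl t w = trdeg k K := by
  let _ := (Spec.preimage (W.fromSpecResidueField w ≫ t)).hom.toAlgebra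
  rw [← Spec.map_preimage (W.fromSpecResidueField w ≫ t), ← Spec.map_comp, Spec.map_inj] at h
  exact (AlgEquiv.ofBijective ⟨φ.hom, fun c => congrArg (fun g => g.hom c) h⟩
    ⟨φ.hom.injective, hφ⟩).trdeg_eq

theorem dl_chart {A : Type} [CommRing A] [Algebra k A] (j : Spec (CommRingCat.of A) ⟶ W)
    [IsOpenImmersion j] (hj : j ≫ t = Spec.map (CommRingCat.ofHom (algebraMap k A)))
    (p : Spec (CommRingCat.of A)) : dl t (j p) = trdeg k (A ⧸ p.asIdeal) := by
  rw [← trdeg_frac (k := k) _ p.asIdeal.ResidueField]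
  refine dl_eq t (j.residueFieldMap p ≫ (Scheme.Spec.residueFieldIso _ p).hom)
    (ConcreteCategory.bijective_of_isIso _).2 ?_
  rw [Spec.map_comp, Category.assoc, Scheme.Hom.SpecMap_residueFieldMap_fromSpecResidueField_assoc,
    hj, ← Scheme.Spec.map_residueFieldIso_inv_eq_fromSpecResidueField]
  simp only [← Spec.map_comp, Category.assoc, Iso.inv_hom_id, Category.comp_id]
  rfl

variable [LocallyOfFiniteType t]

theorem exists_chart (w : W) : ∃ (A : Type) (_ : CommRing A) (_ : Algebra k A)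
    (_ : FiniteType k A) (j : Spec (CommRingCat.of A) ⟶ W) (_ : IsOpenImmersion j),
    j ≫ t = Spec.map (CommRingCat.ofHom (algebraMap k A)) ∧ w ∈ Set.range j := by
  obtain ⟨R, j, h1, h2, -⟩ := Scheme.exists_affine_mem_range_and_range_subset (show w ∈ ⊤ from trivial)
  let _ := (Spec.preimage (j ≫ t)).hom.toAlgebra
  refine ⟨R, inferInstance, inferInstance, ?_, j, h1, (Spec.map_preimage _).symm, h2⟩
  have : LocallyOfFiniteType (Spec.map (Spec.preimage (j ≫ t))) := by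
    rw [Spec.map_preimage]; infer_instance
  exact (HasRingHomProperty.Spec_iff (P := @LocallyOfFiniteType)).1 this

theorem dl_nat (w : W) : ∃ n : ℕ, dl t w = n := by
  obtain ⟨A, _, _, _, j, _, hj, p, rfl⟩ := exists_chart t w
  rw [dl_chart t j hj]
  exact Cardinal.lt_aleph0.1 trdeg_lt_aleph0_of_finiteType

theorem height_eq {w : W} {n : ℕ} (h : dl t w = n) : Order.height w = n := by
  choose d hd using dl_nat t
  have h1 : StrictMono d := fun v w e => by
    obtain ⟨A, _, _, _, j, _, hj, p, rfl⟩ := exists_chart t v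
    obtain ⟨q, rfl⟩ := Specializes.mem_open e.le j.isOpenEmbedding.isOpen_range ⟨p, rfl⟩
    have a1 : q.asIdeal < p.asIdeal := lt_of_le_of_ne ((PrimeSpectrum.le_iff_specializes q p).2
      (j.isOpenEmbedding.isInducing.specializes_iff.1 e.le))
      fun c => e.ne (congrArg j (PrimeSpectrum.ext c.symm))
    have a2 := trdeg_lt a1 ((dl_chart t j hj q).symm.trans (hd _))
    rwa [← dl_chart t j hj, hd, Nat.cast_lt] at a2
  refine le_antisymm ((Order.height_le_height_apply_of_strictMono d h1 w).trans_eq ?_) ?_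
  · rw [Order.height_nat, Nat.cast_injective (R := Cardinal) ((hd w).symm.trans h)]
  induction n generalizing w with
  | zero => exact zero_le
  | succ n ih =>
    obtain ⟨A, _, _, _, j, _, hj, q, rfl⟩ := exists_chart t w
    rw [dl_chart t j hj] at h
    obtain ⟨p, a1, a2, a3⟩ := exists_gt (k := k) q.asIdeal (by rw [h]; exact_mod_cast n.succ_ne_zero)
    have a4 := dl_chart t j hj ⟨p, a1⟩
    have a5 : dl t (j ⟨p, a1⟩) = n := by
      rw [h, ← a4, hd] at a3
      rw [hd, Nat.succ_injective (by exact_mod_cast a3 : d (j ⟨p, a1⟩) + 1 = n + 1)]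
    have a6 : j ⟨p, a1⟩ < j q := lt_of_le_not_ge
      (((PrimeSpectrum.le_iff_specializes q ⟨p, a1⟩).1 a2.le).map j.continuous) fun c =>
      a2.not_ge ((PrimeSpectrum.le_iff_specializes ⟨p, a1⟩ q).2
        (j.isOpenEmbedding.isInducing.specializes_iff.1 c))
    exact le_trans (by exact_mod_cast add_le_add_left (ih a5) 1) (Order.height_add_one_le a6)

end Sch

theorem dim_of (W : Scheme.{0}) [IsIntegral W] (t : W ⟶ Spec (CommRingCat.of ℂ))
    [LocallyOfFiniteType t] (K : Type) [Field K] [Algebra ℂ K] (ε : W.functionField →+* K)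
    (hε : Function.Surjective ε) (he : Spec.map (CommRingCat.ofHom ε) ≫
      W.fromSpecStalk (genericPoint W) ≫ t = Spec.map (CommRingCat.ofHom (algebraMap ℂ K)))
    (n : ℕ) (hn : Algebra.trdeg ℂ K = n) :
    topologicalKrullDim W = n ∧ ∀ w : W, Order.coheight w = 1 → Order.height w + 1 = n := by
  have h1 : dl t (genericPoint W) = n := by
    refine (dl_eq t (Scheme.descResidueField (x := genericPoint W) (CommRingCat.ofHom ε))
      (fun y => ?_) ?_).trans hn
    · obtain ⟨x, rfl⟩ := hε y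
      exact ⟨W.residue _ x, rfl⟩
    · rw [← Category.assoc, Scheme.descResidueField_fromSpecResidueField, Category.assoc]
      exact he
  refine ⟨?_, fun w hw => ?_⟩
  · have h2 : topologicalKrullDim W = Order.krullDim W := by
      let := specializationOrder W
      rw [topologicalKrullDim, Order.krullDim_eq_of_orderIso (irreducibleSetEquivPoints (α := W))]
    rw [h2, ← Order.height_top_eq_krullDim]
    exact congrArg _ (height_eq t h1)
  · obtain ⟨A, _, _, _, j, _, hj, p, rfl⟩ := exists_chart t w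
    have : Nonempty (Spec (CommRingCat.of A)) := ⟨p⟩
    have := isIntegral_of_isOpenImmersion j
    have : IsDomain A := (affine_isIntegral_iff (CommRingCat.of A)).1 this
    obtain ⟨e, h2⟩ := dl_nat t (j p)
    have h3 := height_one (k := ℂ) p.asIdeal
      ((idealHeight_eq_coheight _ p).trans ((coheight_eq_of_isOpenImmersion j).symm.trans hw))
    have h4 := dl_chart t j hj (genericPoint _)
    rw [genericPoint_eq_of_isOpenImmersion, h1, genericPoint_eq_bot_of_affine] at h4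
    rw [← dl_chart t j hj, h2, ← (AlgEquiv.quotientBot ℂ A).trdeg_eq] at h3
    rw [height_eq t h2]
    exact_mod_cast h3.trans h4.symm

end Pool.Agent.KEW.Dg

end MrgPart3

-- ======== part 4: formerly Pool.Agent.MP_55d974_ag.kew.GabsA
section MrgPart4

/-! Commutative algebra for the abstract vanishing lemma: local rings at primes inside the
fraction field, prime avoidance, uniformisers at primes of height one. -/

namespace Pool.Agent.KEW.Gabs

open Ideal

variable {D : Type*} (E : Type*) [CommRing D] [Field E] [Algebra D E]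

/-- The elements of `E` that are integral at the prime `Q`. -/
def Oq (Q : Ideal D) (hQ : Q.IsPrime) : Subring E where
  carrier := {z | ∃ y x : D, y ∉ Q ∧ z * algebraMap D E y = algebraMap D E x}
  zero_mem' := ⟨1, 0, (ne_top_iff_one Q).1 hQ.ne_top, by simp⟩
  one_mem' := ⟨1, 1, (ne_top_iff_one Q).1 hQ.ne_top, by simp⟩
  add_mem' := by
    rintro a b ⟨y, x, h, e⟩ ⟨y', x', h', e'⟩
    refine ⟨y * y', x * y' + x' * y, fun hh => (hQ.mem_or_mem hh).elim h h', ?_⟩
    rw [map_add, map_mul, map_mul, map_mul, ← e, ← e']; ring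
  mul_mem' := by
    rintro a b ⟨y, x, h, e⟩ ⟨y', x', h', e'⟩
    refine ⟨y * y', x * x', fun hh => (hQ.mem_or_mem hh).elim h h', ?_⟩
    rw [map_mul, map_mul, ← e, ← e']; ring
  neg_mem' := by
    rintro a ⟨y, x, h, e⟩
    exact ⟨y, -x, h, by rw [map_neg, ← e, neg_mul]⟩

/-- The denominators of `z`. -/
def Den (D : Type*) {E : Type*} [CommRing D] [Field E] [Algebra D E] (z : E) : Ideal D where
  carrier := {y | ∃ x : D, z * algebraMap D E y = algebraMap D E x}
  zero_mem' := ⟨0, by simp⟩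
  add_mem' := by
    rintro a b ⟨x, e⟩ ⟨x', e'⟩
    exact ⟨x + x', by rw [map_add, map_add, mul_add, e, e']⟩
  smul_mem' := by
    rintro c a ⟨x, e⟩
    exact ⟨c * x, by rw [smul_eq_mul, map_mul, map_mul, ← e]; ring⟩

variable {E}

/-- Units at the prime `Q`. -/
def Un (Q : Ideal D) (hQ : Q.IsPrime) (z : E) : Prop := z ≠ 0 ∧ z ∈ Oq E Q hQ ∧ z⁻¹ ∈ Oq E Q hQ

variable {Q : Ideal D} {hQ : Q.IsPrime} {z w : E}

lemma alg_mem (x : D) : algebraMap D E x ∈ Oq E Q hQ :=
  ⟨1, x, (ne_top_iff_one Q).1 hQ.ne_top, by simp⟩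

lemma Un.mul (h : Un Q hQ z) (h' : Un Q hQ w) : Un Q hQ (z * w) :=
  ⟨mul_ne_zero h.1 h'.1, mul_mem h.2.1 h'.2.1, by rw [mul_inv]; exact mul_mem h.2.2 h'.2.2⟩

lemma Un.inv (h : Un Q hQ z) : Un Q hQ z⁻¹ :=
  ⟨inv_ne_zero h.1, h.2.2, by rw [inv_inv]; exact h.2.1⟩

lemma Un.div (h : Un Q hQ z) (h' : Un Q hQ w) : Un Q hQ (z / w) := by
  rw [div_eq_mul_inv]; exact h.mul h'.inv

lemma Un.one : Un Q hQ (1 : E) := ⟨one_ne_zero, one_mem _, by rw [inv_one]; exact one_mem _⟩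

lemma Un.pow (h : Un Q hQ z) (k : ℕ) : Un Q hQ (z ^ k) := by
  induction k with
  | zero => rw [pow_zero]; exact Un.one
  | succ k ih => rw [pow_succ]; exact ih.mul h

lemma Un.zpow (h : Un Q hQ z) (k : ℤ) : Un Q hQ (z ^ k) := by
  cases k with
  | ofNat k => rw [Int.ofNat_eq_natCast, zpow_natCast]; exact h.pow k
  | negSucc k => rw [zpow_negSucc]; exact (h.pow _).inv

/-- Prime avoidance, with one exceptional ideal. -/
lemma avoid (J : Ideal D) {T : Set (Ideal D)} (hT : T.Finite) (a : Ideal D)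
    (hp : ∀ Q ∈ T, Q ≠ a → Q.IsPrime) (h : ∀ Q ∈ T, ¬ J ≤ Q) : ∃ y ∈ J, ∀ Q ∈ T, y ∉ Q := by
  by_contra h0
  push Not at h0
  obtain ⟨Q, h1, h2⟩ := (subset_union_prime_finite hT (f := id) a a (I := J)
    fun Q hQ ha _ => hp Q hQ ha).1 fun y hy => by
      obtain ⟨Q, h1, h2⟩ := h0 y hy
      exact Set.mem_biUnion h1 h2
  exact h Q h1 h2

variable [IsFractionRing D E]

lemma alg_ne {x : D} (h : x ≠ 0) : algebraMap D E x ≠ 0 :=
  (map_ne_zero_iff _ (IsFractionRing.injective D E)).2 h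

lemma un_alg {x : D} (h : x ∉ Q) : Un Q hQ (algebraMap D E x) := by
  have h0 : algebraMap D E x ≠ 0 := alg_ne fun e => h (e ▸ Q.zero_mem)
  exact ⟨h0, alg_mem x, x, 1, h, by rw [inv_mul_cancel₀ h0, map_one]⟩

lemma not_mem_of_inv {x : D} (h0 : x ≠ 0) (h : (algebraMap D E x)⁻¹ ∈ Oq E Q hQ) : x ∉ Q := by
  obtain ⟨y, x', h1, h2⟩ := h
  intro hx
  refine h1 ?_
  have : y = x * x' := IsFractionRing.injective D E (by
    rw [map_mul, ← h2, ← mul_assoc, mul_inv_cancel₀ (alg_ne h0), one_mul])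
  rw [this]
  exact Q.mul_mem_right _ hx

variable [IsDomain D]

lemma frac (z : E) : ∃ y x : D, y ≠ 0 ∧ z * algebraMap D E y = algebraMap D E x := by
  obtain ⟨x, y, hy, rfl⟩ := IsFractionRing.div_surjective (A := D) z
  have h0 := nonZeroDivisors.ne_zero hy
  exact ⟨y, x, h0, div_mul_cancel₀ _ (alg_ne h0)⟩

/-- A common denominator for finitely many primes. -/
lemma common {T : Set (Ideal D)} (hT : T.Finite) (hp : ∀ Q ∈ T, Q.IsPrime)
    (h : ∀ Q (hQ : Q ∈ T), z ∈ Oq E Q (hp Q hQ)) :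
    ∃ y x : D, y ≠ 0 ∧ (∀ Q ∈ T, y ∉ Q) ∧ z * algebraMap D E y = algebraMap D E x := by
  obtain ⟨y, ⟨x, h1⟩, h2⟩ := avoid (Den D z) (hT.insert ⊥) ⊥
    (fun Q hQ hne => hp Q (hQ.resolve_left hne)) (by
      rintro Q (rfl | hQ) hle
      · obtain ⟨y, x, h1, h2⟩ := frac (D := D) z
        exact h1 (hle ⟨x, h2⟩)
      · obtain ⟨y, x, h1, h2⟩ := h Q hQ
        exact h1 (hle ⟨x, h2⟩))
  exact ⟨y, x, h2 ⊥ (Set.mem_insert _ _), fun Q hQ => h2 Q (Set.mem_insert_of_mem _ hQ), h1⟩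

variable [IsNoetherianRing D] {π : D}

/-- Horizontal primes. -/
def Hor (π : D) (P : Ideal D) : Prop := P.IsPrime ∧ P ≠ ⊥ ∧ π ∉ P

/-- Nonzero primes without `π` are incomparable. -/
def Inc (π : D) : Prop :=
  ∀ P Q : Ideal D, P.IsPrime → Q.IsPrime → P ≠ ⊥ → π ∉ Q → P ≤ Q → P = Q

omit [IsDomain D] in
lemma fin_hor (hI : Inc π) {x : D} (hx : x ≠ 0) : {P | Hor π P ∧ x ∈ P}.Finite := by
  refine (finite_minimalPrimes_of_isNoetherianRing D (span {x})).subset ?_
  rintro P ⟨hP, hxP⟩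
  have := hP.1
  obtain ⟨p, h1, h2⟩ := exists_minimalPrimes_le ((span_singleton_le_iff_mem P).2 hxP)
  rw [← hI p P h1.isPrime hP.1 (fun e => hx (by
    have := (span_singleton_le_iff_mem p).1 h1.le
    rwa [e, mem_bot] at this)) hP.2.2 h2]
  exact h1

omit [IsDomain D] [IsNoetherianRing D] in
lemma ver_mem (h : Q ∈ (span {π}).minimalPrimes) : π ∈ Q := (span_singleton_le_iff_mem Q).1 h.le

lemma hor_not_le {P : Ideal D} (hP : Hor π P) (h : Q ∈ (span {π}).minimalPrimes) : ¬ P ≤ Q := by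
  intro hle
  have := hP.1
  have := h.isPrime
  have h1 := height_le_one_of_isPrincipal_of_mem_minimalPrimes _ Q h
  have h2 := height_add_one_le_of_lt_of_isPrime
    (lt_of_le_of_ne hle fun e => hP.2.2 (e ▸ ver_mem h))
  have h3 := height_add_one_le_of_lt_of_isPrime (bot_lt_iff_ne_bot.2 hP.2.1)
  rw [height_bot, zero_add] at h3
  have h4 : (1 : ℕ∞) + 1 ≤ 1 := (add_le_add h3 le_rfl).trans (h2.trans h1)
  norm_num at h4

/-- A power of `π` clears the vertical poles of `1 / u`. -/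
lemma clear {u : D} (hu : u ≠ 0) : ∃ k : ℕ, ∀ Q (h : Q ∈ (span {π}).minimalPrimes),
    algebraMap D E π ^ k / algebraMap D E u ∈ Oq E Q h.isPrime := by
  have h1 : ∀ Q : (span {π}).minimalPrimes, ∃ k : ℕ,
      algebraMap D E π ^ k / algebraMap D E u ∈ Oq E Q.1 Q.2.isPrime := by
    rintro ⟨Q, h⟩
    have := h.isPrime
    by_contra h0
    obtain ⟨P, p1, p2, p3⟩ := (span {u}).exists_le_prime_disjoint
      (Q.primeCompl ⊔ Submonoid.powers π) (Set.disjoint_left.2 fun a ha hb => by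
        obtain ⟨y, hy, _, ⟨k, rfl⟩, rfl⟩ := Submonoid.mem_sup.1 hb
        obtain ⟨x, hx⟩ := mem_span_singleton'.1 ha
        refine h0 ⟨k, y, x, hy, ?_⟩
        rw [div_mul_eq_mul_div, div_eq_iff (alg_ne hu), ← map_pow, ← map_mul, ← map_mul, hx,
          mul_comm])
    rw [Set.disjoint_left] at p3
    refine hor_not_le ⟨p1, fun e => hu ?_, fun hπ => p3 hπ ?_⟩ h fun a ha => ?_
    · have := (span_singleton_le_iff_mem P).1 p2
      rwa [e, mem_bot] at this
    · exact Submonoid.mem_sup_right (Submonoid.mem_powers π)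
    · by_contra hn
      exact p3 ha (Submonoid.mem_sup_left hn)
  choose k hk using h1
  have := (finite_minimalPrimes_of_isNoetherianRing D (span {π})).to_subtype
  obtain ⟨K, hK⟩ := (Set.finite_range k).bddAbove
  refine ⟨K, fun Q h => ?_⟩
  obtain ⟨j, hj⟩ := Nat.exists_eq_add_of_le (hK ⟨⟨Q, h⟩, rfl⟩)
  rw [hj, pow_add, mul_div_right_comm, ← map_pow _ _ j]
  exact mul_mem (hk ⟨Q, h⟩) (alg_mem _)

omit [IsDomain D] [IsNoetherianRing D] in
lemma coprime {a b : D} (ha : a ≠ 0) (h : ∀ P, Hor π P → a ∈ P → b ∉ P) :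
    ∃ k : ℕ, π ^ k ∈ span {a, b} := by
  have : π ∈ (span {a, b}).radical := by
    rw [radical_eq_sInf, mem_sInf]
    rintro P ⟨h1, h2⟩
    by_contra hπ
    have h3 : a ∈ P := h1 (subset_span (by simp))
    exact h P ⟨h2, fun e => ha (by rwa [e, mem_bot] at h3), hπ⟩ h3 (h1 (subset_span (by simp)))
  exact this

lemma krull (hπ : ¬ IsUnit π) {u : D} (hu : u ≠ 0) : ∃ k : ℕ, ∀ K, k ≤ K → u ∉ span {π ^ K} := by
  have h := iInf_pow_eq_bot_of_isDomain (span {π}) (by rwa [Ne, span_singleton_eq_top])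
  by_contra h0
  push Not at h0
  refine hu (mem_bot.1 (h ▸ mem_iInf.2 fun k => ?_))
  obtain ⟨K, h1, h2⟩ := h0 k
  rw [← span_singleton_pow] at h2
  exact pow_le_pow_right h1 h2

variable [IsIntegrallyClosed D]

lemma unifD (hI : Inc π) {P : Ideal D} (hP : Hor π P) : ∃ t ∈ P, t ≠ 0 ∧ ∀ x : D, x ≠ 0 →
    ∃ (k : ℕ) (a b : D), a ∉ P ∧ b ∉ P ∧ x * b = a * t ^ k := by
  have := hP.1
  let R := Localization.AtPrime P
  have hle := P.primeCompl_le_nonZeroDivisors
  have inj : Function.Injective (algebraMap D R) := IsLocalization.injective R hle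
  have hf : ¬ IsField R := IsLocalization.AtPrime.not_isField D hP.2.1 R
  have hd : IsDiscreteValuationRing R := by
    suffices h : IsIntegrallyClosed R ∧ ∃! P : Ideal R, P ≠ ⊥ ∧ P.IsPrime from
      ((IsDiscreteValuationRing.TFAE R hf).out 3 0).1 h
    refine ⟨isIntegrallyClosed_of_isLocalization R P.primeCompl hle, IsLocalRing.maximalIdeal R,
      ⟨IsLocalRing.isField_iff_maximalIdeal_eq.not.1 hf, inferInstance⟩, fun J hJ => ?_⟩
    have := hJ.2
    have e : J.under D = P := by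
      refine hI _ _ inferInstance hP.1 (fun e => hJ.1 ?_) hP.2.2 ?_
      · rw [← IsLocalization.map_under P.primeCompl R J, e, Ideal.map_bot]
      · exact (comap_mono (IsLocalRing.le_maximalIdeal hJ.2.ne_top)).trans
          (Localization.AtPrime.under_maximalIdeal (I := P)).le
    rw [← IsLocalization.map_under P.primeCompl R J, e, Localization.AtPrime.map_eq_maximalIdeal]
  obtain ⟨ϖ, hϖ⟩ := IsDiscreteValuationRing.exists_irreducible R
  obtain ⟨⟨t, s⟩, rfl⟩ := IsLocalization.mk'_surjective P.primeCompl ϖ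
  refine ⟨t, ?_, fun e => hϖ.ne_zero (by simp [e]), fun x hx => ?_⟩
  · by_contra h0
    exact hϖ.not_isUnit ((IsLocalization.AtPrime.isUnit_mk'_iff R P t s).2 h0)
  · obtain ⟨k, v, hv⟩ := IsDiscreteValuationRing.eq_unit_mul_pow_irreducible
      ((map_ne_zero_iff _ inj).2 hx) hϖ
    obtain ⟨⟨a, b⟩, e⟩ := IsLocalization.mk'_surjective P.primeCompl (v : R)
    have ha : a ∉ P := (IsLocalization.AtPrime.isUnit_mk'_iff R P a b).1 (by
      have := v.isUnit
      rwa [← e] at this)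
    refine ⟨k, a, b * s ^ k, ha, (b * s ^ k).2, inj ?_⟩
    simp only at hv e
    rw [map_mul, hv, ← e, map_mul, map_mul, map_pow, map_pow,
      ← IsLocalization.mk'_spec R a b, ← IsLocalization.mk'_spec R t s]
    ring

lemma unif (hI : Inc π) {P : Ideal D} (hP : Hor π P) : ∃ t ∈ P, t ≠ 0 ∧ ∀ z : E, z ≠ 0 →
    ∃ a : ℤ, Un P hP.1 (z * algebraMap D E t ^ a) := by
  obtain ⟨t, h1, h2, h3⟩ := unifD hI hP
  have key : ∀ x : D, x ≠ 0 → ∃ k : ℕ, Un P hP.1 (algebraMap D E x / algebraMap D E t ^ k) := by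
    intro x hx
    obtain ⟨k, a, b, ha, hb, e⟩ := h3 x hx
    refine ⟨k, ?_⟩
    have hb' : Un P hP.1 (algebraMap D E b) := un_alg hb
    have : algebraMap D E x / algebraMap D E t ^ k = algebraMap D E a / algebraMap D E b := by
      rw [div_eq_div_iff (pow_ne_zero _ (alg_ne h2)) hb'.1, ← map_pow, ← map_mul, ← map_mul, e]
    rw [this]
    exact (un_alg ha).div hb'
  refine ⟨t, h1, h2, fun z hz => ?_⟩
  obtain ⟨y, x, hy, e⟩ := frac (D := D) z
  have hx : x ≠ 0 := by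
    rintro rfl
    exact mul_ne_zero hz (alg_ne hy) (by rw [e, map_zero])
  obtain ⟨k, hk⟩ := key x hx
  obtain ⟨l, hl⟩ := key y hy
  refine ⟨l - k, ?_⟩
  have : z * algebraMap D E t ^ ((l : ℤ) - k) = (algebraMap D E x / algebraMap D E t ^ k) /
      (algebraMap D E y / algebraMap D E t ^ l) := by
    have := alg_ne (E := E) h2
    have := alg_ne (E := E) hy
    rw [zpow_sub₀ (alg_ne h2), zpow_natCast, zpow_natCast, ← e]
    field_simp
  rw [this]
  exact hk.div hl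

omit [IsDomain D] [IsNoetherianRing D] [IsIntegrallyClosed D] in
/-- A uniformiser at `P` outside finitely many other primes. -/
lemma pick {P : Ideal D} (hP : P.IsPrime) {t : D} (ht : t ∈ P) (t0 : t ≠ 0)
    (hu : ∀ z : E, z ≠ 0 → ∃ a : ℤ, Un P hP (z * algebraMap D E t ^ a))
    {T : Set (Ideal D)} (hT : T.Finite) (hp : ∀ Q ∈ T, Q.IsPrime) (h : ∀ Q ∈ T, ¬ P ≤ Q) :
    ∃ c ∈ P, c ≠ 0 ∧ Un P hP (algebraMap D E c / algebraMap D E t) ∧ ∀ Q ∈ T, c ∉ Q := by
  have t1 := alg_ne (E := E) t0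
  let J : Ideal D :=
    { carrier := {x | algebraMap D E x / algebraMap D E t ^ 2 ∈ Oq E P hP}
      zero_mem' := by simp
      add_mem' := fun {a b} ha hb => by
        have := (Oq E P hP).add_mem ha hb
        rwa [← add_div, ← map_add] at this
      smul_mem' := fun c a ha => by
        have := (Oq E P hP).mul_mem (alg_mem (hQ := hP) c) ha
        rwa [← mul_div_assoc, ← map_mul] at this }
  obtain ⟨c, c1, c2⟩ := avoid P (hT.insert J) J (fun Q hQ hne => hp Q (hQ.resolve_left hne)) (by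
    rintro Q (rfl | hQ) hle
    · have h1 : algebraMap D E t / algebraMap D E t ^ 2 ∈ Oq E P hP := hle ht
      rw [pow_two, div_mul_cancel_left₀ t1] at h1
      exact not_mem_of_inv t0 h1 ht
    · exact h Q hQ hle)
  have c3 : c ∉ J := c2 J (Set.mem_insert _ _)
  have c0 : c ≠ 0 := fun e => c3 (e ▸ J.zero_mem)
  refine ⟨c, c1, c0, ?_, fun Q hQ => c2 Q (Set.mem_insert_of_mem _ hQ)⟩
  obtain ⟨a, ha⟩ := hu _ (alg_ne (E := E) c0)
  have c4 := alg_ne (E := E) c0
  rcases lt_trichotomy a (-1) with h1 | rfl | h1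
  · refine absurd ?_ c3
    obtain ⟨k, hk⟩ := Int.eq_ofNat_of_zero_le (show 0 ≤ -a - 2 by omega)
    have e : algebraMap D E c / algebraMap D E t ^ 2 =
        algebraMap D E c * algebraMap D E t ^ a * algebraMap D E (t ^ k) := by
      rw [map_pow, ← zpow_natCast _ k, ← hk, mul_assoc, ← zpow_add₀ t1, div_eq_mul_inv,
        ← zpow_natCast, ← zpow_neg]
      congr 2
      omega
    exact show _ ∈ Oq E P hP from e ▸ mul_mem ha.2.1 (alg_mem _)
  · rwa [zpow_neg_one, ← div_eq_mul_inv] at ha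
  · refine absurd c1 (not_mem_of_inv (E := E) (hQ := hP) c0 ?_)
    obtain ⟨k, rfl⟩ := Int.eq_ofNat_of_zero_le (show 0 ≤ a by omega)
    have e : (algebraMap D E c)⁻¹ =
        (algebraMap D E c * algebraMap D E t ^ (k : ℤ))⁻¹ * algebraMap D E (t ^ k) := by
      rw [map_pow, zpow_natCast]
      field_simp
    exact e ▸ mul_mem ha.2.2 (alg_mem _)

end Pool.Agent.KEW.Gabs

end MrgPart4

-- ======== part 5: formerly Pool.Agent.MP_55d974_ag.kew.LocB
section MrgPart5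

/-! PROJECT KEW: orthogonality and localisation of symbols. -/

namespace Pool.Agent.KEW

noncomputable section

open Classical

namespace LB

section Ring

variable {R : Type} [CommRing R]

theorem k_neg_mul (a b : Kr R) : -a * b = -(a * b) := neg_mul a b

theorem k_mul_neg (a b : Kr R) : a * -b = -(a * b) := mul_neg a b

theorem k_mul_sub (a b d : Kr R) : a * (b - d) = a * b - a * d := mul_sub a b d

theorem k_sub_mul (a b d : Kr R) : (a - b) * d = a * d - b * d := sub_mul a b d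

theorem s_mul (a b : Rˣ) : sym (a * b) = sym a + sym b := by
  unfold sym
  rw [ofMul_mul, map_add, map_add]

theorem s_one : sym (1 : Rˣ) = 0 := by
  unfold sym
  rw [ofMul_one, map_zero, map_zero]

theorem s_inv (a : Rˣ) : sym a⁻¹ = -sym a := by
  unfold sym
  rw [ofMul_inv, map_neg, map_neg]

theorem s_div (a b : Rˣ) : sym (a / b) = sym a - sym b := by
  rw [div_eq_mul_inv, s_mul, s_inv, sub_eq_add_neg]

theorem s_pow (a : Rˣ) (n : ℕ) : sym (a ^ n) = n • sym a := by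
  unfold sym
  rw [ofMul_pow, map_nsmul, map_nsmul]

theorem s_st {a b : Rˣ} (h : (a : R) + b = 1) : sym a * sym b = 0 := by
  unfold sym
  rw [← map_mul, ← map_zero (RingQuot.mkRingHom (St R))]
  exact RingQuot.mkRingHom_rel ⟨rfl, a, b, h, rfl⟩

/-- The universal property. -/
def lift {T : Type} [Ring T] (g : Rˣ → T) (h1 : ∀ a b, g (a * b) = g a + g b)
    (h2 : ∀ a b : Rˣ, (a : R) + b = 1 → g a * g b = 0) : Kr R →+* T :=
  RingQuot.lift ⟨(TensorAlgebra.lift ℤ (AddMonoidHom.mk' (fun x : Additive Rˣ => g x.toMul)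
    (fun _ _ => h1 _ _)).toIntLinearMap).toRingHom, by
      rintro x y ⟨rfl, a, b, h, rfl⟩
      simpa using h2 a b h⟩

theorem lift_sym {T : Type} [Ring T] (g : Rˣ → T) (h1 : ∀ a b, g (a * b) = g a + g b)
    (h2 : ∀ a b : Rˣ, (a : R) + b = 1 → g a * g b = 0) (u : Rˣ) : lift g h1 h2 (sym u) = g u := by
  simp [lift, sym]

theorem ind {P : Kr R → Prop} (h1 : P 1) (hs : ∀ u x, P x → P (sym u * x))
    (ha : ∀ x y, P x → P y → P (x + y)) (hn : ∀ x, P x → P (-x)) (x : Kr R) : P x := by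
  have h0 : ∀ x, P x → P 0 := fun x hx => by simpa using ha _ _ hx (hn _ hx)
  let A : Subring (Kr R) :=
    { carrier := {x | ∀ y, P y → P (x * y)}
      mul_mem' := fun {a b} h h' y hy => by rw [mul_assoc]; exact h _ (h' y hy)
      one_mem' := fun y hy => by rwa [one_mul]
      add_mem' := fun {a b} h h' y hy => by rw [add_mul]; exact ha _ _ (h y hy) (h' y hy)
      zero_mem' := fun y hy => by rw [zero_mul]; exact h0 y hy
      neg_mem' := fun {a} h y hy => by rw [k_neg_mul]; exact hn _ (h y hy) }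
  have hA : x ∈ A := by
    obtain ⟨t, rfl⟩ := RingQuot.mkRingHom_surjective (St R) x
    induction t using TensorAlgebra.induction with
    | algebraMap r =>
      rw [eq_intCast, map_intCast]
      exact intCast_mem A r
    | ι u => exact fun y hy => hs u.toMul y hy
    | mul a b h h' => rw [map_mul]; exact mul_mem h h'
    | add a b h h' => rw [map_add]; exact add_mem h h'
  simpa using hA 1 h1

end Ring

variable {E : Type} [Field E]

theorem s_neg (a : Eˣ) : sym a * sym (-a) = 0 := by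
  by_cases h : a = 1
  · rw [h, s_one, zero_mul]
  have h1 : (1 : E) - a ≠ 0 := fun e => h (Units.ext (by simpa using (sub_eq_zero.1 e).symm))
  have h2 : (1 : E) - (a⁻¹ : Eˣ) ≠ 0 := fun e => h (inv_eq_one.1
    (Units.ext (by simpa using (sub_eq_zero.1 e).symm)))
  have e : -a = Units.mk0 _ h1 / Units.mk0 _ h2 := by
    have ha := a.ne_zero
    rw [eq_div_iff_mul_eq']
    ext
    simp only [Units.val_mul, Units.val_neg, Units.val_mk0, Units.val_inv_eq_inv_val]
    field_simp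
    ring
  have e1 : sym a * sym (Units.mk0 _ h1) = 0 := s_st (by simp)
  have e2 : sym a⁻¹ * sym (Units.mk0 _ h2) = 0 := s_st (by simp)
  rw [s_inv, k_neg_mul, neg_eq_zero] at e2
  rw [e, s_div, k_mul_sub, e1, e2, sub_zero]

theorem s_anti (a b : Eˣ) : sym a * sym b = -(sym b * sym a) := by
  have h := s_neg (a * b)
  have h1 : sym a * sym (-(a * b)) = sym a * sym b := by
    rw [← neg_mul, s_mul, mul_add, s_neg, zero_add]
  have h2 : sym b * sym (-(a * b)) = sym b * sym a := by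
    rw [← mul_neg, s_mul, mul_add, s_neg, add_zero]
  rw [s_mul, add_mul, h1, h2] at h
  exact eq_neg_of_add_eq_zero_left h

section Val

variable {V : ValuationSubring E} {c x y : E}

theorem non_mem (hc : c ∈ V.nonunits) : c ∈ V := V.nonunits_subset hc

theorem ap_mem (hc : c ∈ V.nonunits) (h0 : c ≠ 0) (h : (x - 1) / c ∈ V) : x ∈ V := by
  have e : x = 1 + c * ((x - 1) / c) := by field_simp; ring
  rw [e]
  exact add_mem (one_mem _) (mul_mem (non_mem hc) h)

theorem ap_val (hc : c ∈ V.nonunits) (h0 : c ≠ 0) (h : (x - 1) / c ∈ V) :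
    V.valuation x = 1 := by
  have e : x = 1 + c * ((x - 1) / c) := by field_simp; ring
  rw [e]
  apply Valuation.map_one_add_of_lt
  rw [map_mul]
  exact mul_lt_one_of_lt_of_le ((V.mem_nonunits_iff).1 hc) ((V.valuation_le_one_iff _).2 h)

theorem ap_ne (hc : c ∈ V.nonunits) (h0 : c ≠ 0) (h : (x - 1) / c ∈ V) : x ≠ 0 := fun e => by
  have := ap_val hc h0 h
  rw [e, map_zero] at this
  exact zero_ne_one this

theorem ap_inv_mem (hc : c ∈ V.nonunits) (h0 : c ≠ 0) (h : (x - 1) / c ∈ V) : x⁻¹ ∈ V := by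
  rw [← V.valuation_le_one_iff, map_inv₀, ap_val hc h0 h, inv_one]

theorem ap_mul (hc : c ∈ V.nonunits) (h0 : c ≠ 0) (h : (x - 1) / c ∈ V) (h' : (y - 1) / c ∈ V) :
    (x * y - 1) / c ∈ V := by
  have e : (x * y - 1) / c = x * ((y - 1) / c) + (x - 1) / c := by field_simp; ring
  rw [e]
  exact add_mem (mul_mem (ap_mem hc h0 h) h') h

theorem ap_inv (hc : c ∈ V.nonunits) (h0 : c ≠ 0) (h : (x - 1) / c ∈ V) : (x⁻¹ - 1) / c ∈ V := by
  have hx := ap_ne hc h0 h
  have e : (x⁻¹ - 1) / c = -(x⁻¹ * ((x - 1) / c)) := by field_simp; ring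
  rw [e]
  exact neg_mem (mul_mem (ap_inv_mem hc h0 h) h)

theorem Ap_mul (hc : c ∈ V.nonunits) (h0 : c ≠ 0) {a b : Eˣ} (h : Ap V c a) (h' : Ap V c b) :
    Ap V c (a * b) := ap_mul hc h0 h h'

theorem Ap_inv (hc : c ∈ V.nonunits) (h0 : c ≠ 0) {a : Eˣ} (h : Ap V c a) : Ap V c a⁻¹ := by
  unfold Ap
  rw [Units.val_inv_eq_inv_val]
  exact ap_inv hc h0 h

theorem Ap_div (hc : c ∈ V.nonunits) (h0 : c ≠ 0) {a b : Eˣ} (h : Ap V c a) (h' : Ap V c b) :
    Ap V c (a / b) := by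
  rw [div_eq_mul_inv]
  exact Ap_mul hc h0 h (Ap_inv hc h0 h')

/-- Passing to a smaller level. -/
theorem div_mono {d : E} (h0 : c ≠ 0) (hd : d ∈ V) (hd0 : d ≠ 0) (h : x / (c * d) ∈ V) :
    x / c ∈ V := by
  have e : x / c = d * (x / (c * d)) := by field_simp
  rw [e]
  exact mul_mem hd h

theorem pow_non (hc : c ∈ V.nonunits) (N : ℕ) : c ^ (N + 1) ∈ V.nonunits := by
  rw [V.mem_nonunits_iff, pow_succ', map_mul]
  exact mul_lt_one_of_lt_of_le ((V.mem_nonunits_iff).1 hc)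
    ((V.valuation_le_one_iff _).2 (pow_mem (non_mem hc) N))

theorem ev_pow (hV : IsDiscreteValuationRing V) (hc : c ∈ V.nonunits) (b : E) :
    ∀ᶠ N in Filter.atTop, c ^ N * b ∈ V := by
  obtain ⟨r, s, hs, rfl⟩ := IsFractionRing.div_surjective (A := V) b
  have hs0 : s ≠ 0 := nonZeroDivisors.ne_zero hs
  obtain ⟨t, ht⟩ := IsDiscreteValuationRing.exists_irreducible V
  obtain ⟨j, u, rfl⟩ := IsDiscreteValuationRing.eq_unit_mul_pow_irreducible hs0 ht
  have hm : (⟨c, non_mem hc⟩ : V) ∈ IsLocalRing.maximalIdeal V :=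
    (V.coe_mem_nonunits_iff (a := ⟨c, non_mem hc⟩)).1 hc
  rw [ht.maximalIdeal_eq, Ideal.mem_span_singleton] at hm
  filter_upwards [Filter.eventually_ge_atTop j] with N hN
  have h1 : (u * t ^ j : V) ∣ (⟨c, non_mem hc⟩ : V) ^ N :=
    (Units.isUnit u).mul_left_dvd.2 ((pow_dvd_pow_of_dvd hm j).trans (pow_dvd_pow _ hN))
  obtain ⟨k, hk⟩ := h1
  have h2 : c ^ N = ((u * t ^ j : V) : E) * k := by
    have := congrArg (fun z : V => (z : E)) hk
    simpa using this
  have h3 : ((u * t ^ j : V) : E) ≠ 0 := fun e => hs0 (Subtype.ext e)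
  have h4 : c ^ N * (algebraMap V E r / algebraMap V E (u * t ^ j)) = k * r := by
    rw [h2]
    show ((u * t ^ j : V) : E) * k * ((r : E) / ((u * t ^ j : V) : E)) = k * r
    field_simp
  rw [h4]
  exact mul_mem k.2 r.2

end Val

variable {S : Set (ValuationSubring E)} {c : E}

theorem ex_pow (hS : Fam S c) (b b' : E) : ∃ N, ∀ V ∈ S, c ^ N * b ∈ V ∧ c ^ N * b' ∈ V :=
  ((Filter.eventually_all_finite hS.fin).2 fun V hV =>
    (ev_pow (hS.dvr V hV) (hS.non V hV) b).and (ev_pow (hS.dvr V hV) (hS.non V hV) b')).exists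

theorem fam_pow (hS : Fam S c) (N : ℕ) : Fam S (c ^ (N + 1)) :=
  ⟨hS.fin, hS.dvr, pow_ne_zero _ hS.ne, fun V hV => pow_non (hS.non V hV) N⟩

theorem ki_gen {F : Eˣ} (h : ∀ V ∈ S, Ap V c F) (γ : Kr E) : sym F * γ ∈ KI S c :=
  AddSubgroup.subset_closure ⟨F, γ, h, rfl⟩

theorem ki_left (a : Eˣ) {x : Kr E} (hx : x ∈ KI S c) : sym a * x ∈ KI S c := by
  refine AddSubgroup.closure_induction (fun x hx => ?_) (by simp) (fun x y _ _ h1 h2 => ?_)
    (fun x _ h => ?_) hx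
  · obtain ⟨F, γ, hF, rfl⟩ := hx
    rw [← mul_assoc, s_anti, k_neg_mul, mul_assoc]
    exact neg_mem (ki_gen hF _)
  · rw [mul_add]; exact add_mem h1 h2
  · rw [k_mul_neg]; exact neg_mem h

/-- If `a / (1 - x)` is congruent to one then `{a, x}` is in the ideal. -/
theorem st_mem {a w x : Eˣ} (h : (w : E) + x = 1) (hw : ∀ V ∈ S, Ap V c (a / w)) (γ : Kr E) :
    sym a * sym x * γ ∈ KI S c := by
  have e : sym a = sym w + sym (a / w) := by rw [s_div]; abel
  rw [e, add_mul, s_st h, zero_add, mul_assoc]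
  exact ki_gen hw _

theorem orth0 (hA : LocA) (hS : Fam S c) (T : Set (ValuationSubring E)) (a b : Eˣ) (γ : Kr E)
    (ha : ∀ V ∈ S, V ∉ T → Ap V c a) (hb : ∀ V ∈ S, V ∈ T → Ap V c b)
    (ha' : ∀ V ∈ S, V ∈ T → (a : E)⁻¹ ∈ V) : sym a * sym b * γ ∈ KI S c := by
  by_cases h : ∀ V ∈ S, Ap V c a
  · rw [mul_assoc]; exact ki_gen h _
  push Not at h
  obtain ⟨V₀, hV₀, hn⟩ := h
  have hT : V₀ ∈ T := by
    by_contra e
    exact hn (ha V₀ hV₀ e)
  have ha1 : (1 : E) - a ≠ 0 := fun e => hn (by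
    unfold Ap
    rw [← neg_sub, e, neg_zero, zero_div]
    exact zero_mem _)
  obtain ⟨N, hN⟩ := ex_pow hS b 1
  obtain ⟨θ, h1, h2⟩ := hA.apx S T _ (fam_pow hS N)
  have hc := hS.ne
  have h1' : ∀ V ∈ S, V ∈ T → (θ - 1) / c ∈ V := fun V hV hV' =>
    div_mono hc (pow_mem (non_mem (hS.non V hV)) N) (pow_ne_zero _ hc)
      (by rw [← pow_succ']; exact h1 V hV hV')
  have hθ : θ ≠ 0 := ap_ne (hS.non V₀ hV₀) hc (h1' V₀ hV₀ hT)
  have key : ∀ u : Eˣ, (∀ V ∈ S, V ∈ T → Ap V c u) → (∀ V ∈ S, c ^ N * u ∈ V) →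
      sym a * sym (Units.mk0 _ hθ * Units.mk0 _ ha1 * u) * γ ∈ KI S c := by
    intro u hu hu'
    have h3 : ∀ V ∈ S, ((1 - θ * (1 - a) * u) / a - 1) / c ∈ V := by
      intro V hV
      have a0 := a.ne_zero
      by_cases hV' : V ∈ T
      · have e : ((1 - θ * (1 - a) * u) / a - 1) / c
            = -((θ * u - 1) / c * ((a : E)⁻¹ - 1)) := by field_simp; ring
        rw [e]
        exact neg_mem (mul_mem (ap_mul (hS.non V hV) hc (h1' V hV hV') (hu V hV hV'))
          (sub_mem (ha' V hV hV') (one_mem _)))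
      · rw [div_eq_mul_inv _ (a : E)]
        refine ap_mul (hS.non V hV) hc ?_ (ap_inv (hS.non V hV) hc (ha V hV hV'))
        have e : (1 - θ * (1 - a) * u - 1) / c
            = θ / c ^ (N + 1) * c * (c ^ N * u) * (((a : E) - 1) / c) := by
          field_simp; ring
        rw [e]
        exact mul_mem (mul_mem (mul_mem (h2 V hV hV') (non_mem (hS.non V hV))) (hu' V hV))
          (ha V hV hV')
    have h4 : 1 - θ * (1 - a) * u ≠ 0 := fun e =>
      ap_ne (hS.non V₀ hV₀) hc (h3 V₀ hV₀) (by rw [e, zero_div])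
    refine st_mem (w := Units.mk0 _ h4) (by simp) (fun V hV => ?_) γ
    rw [← inv_div]
    refine Ap_inv (hS.non V hV) hc ?_
    unfold Ap
    rw [Units.val_div_eq_div_val]
    exact h3 V hV
  have k1 := key 1 (fun V _ _ => by simp [Ap]) (fun V hV => (hN V hV).2)
  have k2 := key b hb (fun V hV => (hN V hV).1)
  rw [mul_one] at k1
  rw [s_mul _ b, mul_add, add_mul] at k2
  simpa using sub_mem k2 k1

theorem orth (hA : LocA) (hS : Fam S c) (T : Set (ValuationSubring E)) (a b : Eˣ) (γ : Kr E)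
    (ha : ∀ V ∈ S, V ∉ T → Ap V c a) (hb : ∀ V ∈ S, V ∈ T → Ap V c b) :
    sym a * sym b * γ ∈ KI S c := by
  have hc := hS.ne
  obtain ⟨N, hN⟩ := ex_pow hS (a : E)⁻¹ 1
  obtain ⟨g, h1, h2⟩ := hA.one S T c hS (Units.mk0 _ (pow_ne_zero N hc))⁻¹
  have h3 : ∀ V ∈ S, V ∈ T → ((g : E) * c ^ N)⁻¹ ∈ V := fun V hV hV' => by
    have h := h1 V hV hV'
    unfold Ap at h
    rw [div_inv_eq_mul, Units.val_mul, Units.val_mk0] at h
    exact ap_inv_mem (hS.non V hV) hc h
  have g0 := g.ne_zero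
  have a0 := a.ne_zero
  have k1 := orth0 hA hS T (a * g) b γ
    (fun V hV hV' => Ap_mul (hS.non V hV) hc (ha V hV hV') (h2 V hV hV')) hb (fun V hV hV' => by
      have e : ((a * g : Eˣ) : E)⁻¹ = ((g : E) * c ^ N)⁻¹ * (c ^ N * (a : E)⁻¹) := by
        rw [Units.val_mul]; field_simp
      rw [e]
      exact mul_mem (h3 V hV hV') (hN V hV).1)
  have k2 := orth0 hA hS T g b γ h2 hb (fun V hV hV' => by
      have e : (g : E)⁻¹ = ((g : E) * c ^ N)⁻¹ * (c ^ N * 1) := by field_simp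
      rw [e]
      exact mul_mem (h3 V hV hV') (hN V hV).2)
  rw [s_mul, add_mul, add_mul] at k1
  simpa using sub_mem k1 k2

/-- Two localisations of the same element agree modulo the ideal. -/
theorem loc_ap (hS : Fam S c) {T : Set (ValuationSubring E)} {f g g' : Eˣ}
    (h1 : ∀ V ∈ S, V ∈ T → Ap V c (g / f)) (h2 : ∀ V ∈ S, V ∉ T → Ap V c g)
    (h1' : ∀ V ∈ S, V ∈ T → Ap V c (g' / f)) (h2' : ∀ V ∈ S, V ∉ T → Ap V c g') :
    ∀ V ∈ S, Ap V c (g / g') := fun V hV => by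
  by_cases hT : V ∈ T
  · have h := Ap_div (hS.non V hV) hS.ne (h1 V hV hT) (h1' V hV hT)
    rwa [div_div_div_cancel_right] at h
  · exact Ap_div (hS.non V hV) hS.ne (h2 V hV hT) (h2' V hV hT)

theorem loc_st (hA : LocA) (hS : Fam S c) (T : Set (ValuationSubring E)) {f f' g : Eˣ}
    (h : (f : E) + f' = 1) (h1 : ∀ V ∈ S, V ∈ T → Ap V c (g / f))
    (h2 : ∀ V ∈ S, V ∉ T → Ap V c g) (γ : Kr E) : sym g * sym f' * γ ∈ KI S c := by
  by_cases h0 : ∀ V ∈ S, V ∉ T
  · rw [mul_assoc]; exact ki_gen (fun V hV => h2 V hV (h0 V hV)) _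
  push Not at h0
  obtain ⟨V₀, hV₀, hT⟩ := h0
  have hc := hS.ne
  have f0 := f.ne_zero
  obtain ⟨N, hN⟩ := ex_pow hS ((f' : E) / f) f'
  obtain ⟨θ, h3, h4⟩ := hA.apx S T _ (fam_pow hS N)
  have h3' : ∀ V ∈ S, V ∈ T → (θ - 1) / c ∈ V := fun V hV hV' =>
    div_mono hc (pow_mem (non_mem (hS.non V hV)) N) (pow_ne_zero _ hc)
      (by rw [← pow_succ']; exact h3 V hV hV')
  have hθ : θ ≠ 0 := ap_ne (hS.non V₀ hV₀) hc (h3' V₀ hV₀ hT)
  have h5 : ∀ V ∈ S, V ∈ T → ((1 - θ * f') / f - 1) / c ∈ V := fun V hV hV' => by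
    have e : ((1 - θ * f') / f - 1) / c = -((θ - 1) / c ^ (N + 1) * (c ^ N * ((f' : E) / f))) := by
      have e1 : (1 : E) - θ * f' = f + (1 - θ) * f' := by linear_combination -h
      rw [e1]
      field_simp
      ring
    rw [e]
    exact neg_mem (mul_mem (h3 V hV hV') (hN V hV).1)
  have h6 : 1 - θ * f' ≠ 0 := fun e =>
    ap_ne (hS.non V₀ hV₀) hc (h5 V₀ hV₀ hT) (by rw [e, zero_div])
  have h7 : ∀ V ∈ S, V ∉ T → Ap V c (Units.mk0 _ h6) := fun V hV hV' => by
    have e : (1 - θ * f' - 1) / c = -(θ / c ^ (N + 1) * (c ^ N * f')) := by field_simp; ring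
    show (1 - θ * f' - 1) / c ∈ V
    rw [e]
    exact neg_mem (mul_mem (h4 V hV hV') (hN V hV).2)
  have h8 := loc_ap hS h1 h2 (g' := Units.mk0 _ h6) (fun V hV hV' => by
    unfold Ap
    rw [Units.val_div_eq_div_val]
    exact h5 V hV hV') h7
  have k1 := st_mem (x := Units.mk0 _ hθ * f') (by simp) h8 γ
  have k2 := orth hA hS T g (Units.mk0 _ hθ) γ h2 h3'
  rw [s_mul, mul_add, add_mul] at k1
  simpa using sub_mem k1 k2

/-- The quotient group. -/
def Q (S : Set (ValuationSubring E)) (c : E) : Type := Kr E ⧸ KI S c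

instance : AddCommGroup (Q S c) := inferInstanceAs (AddCommGroup (Kr E ⧸ KI S c))

/-- The projection to the quotient. -/
def mkq (S : Set (ValuationSubring E)) (c : E) : Kr E →+ Q S c := QuotientAddGroup.mk' (KI S c)

/-- Left multiplication by a symbol on the quotient. -/
def lmul (S : Set (ValuationSubring E)) (c : E) (a : Eˣ) : AddMonoid.End (Q S c) :=
  QuotientAddGroup.map (KI S c) (KI S c) (AddMonoidHom.mulLeft (sym a)) fun _ hx => ki_left a hx

theorem lmul_mk (a : Eˣ) (x : Kr E) : lmul S c a (mkq S c x) = mkq S c (sym a * x) := rfl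

theorem mk_eq {x y : Kr E} (h : x - y ∈ KI S c) : mkq S c x = mkq S c y :=
  QuotientAddGroup.eq_iff_sub_mem.2 h

theorem mk_ap {g g' : Eˣ} (h : ∀ V ∈ S, Ap V c (g / g')) (γ : Kr E) :
    mkq S c (sym g * γ) = mkq S c (sym g' * γ) :=
  mk_eq (by rw [← k_sub_mul, ← s_div]; exact ki_gen h γ)

theorem end_ext {f g : AddMonoid.End (Q S c)} (h : ∀ x, f (mkq S c x) = g (mkq S c x)) : f = g :=
  AddMonoidHom.ext fun y => by
    obtain ⟨x, rfl⟩ := QuotientAddGroup.mk'_surjective (KI S c) y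
    exact h x

theorem map (hA : LocA) (hS : Fam S c) (T : Set (ValuationSubring E)) :
    ∃ ρ : Kr E →+ Q S c, ρ 1 = 0 ∧ ∀ (f g : Eˣ) (γ : Kr E),
      (∀ V ∈ S, V ∈ T → Ap V c (g / f)) → (∀ V ∈ S, V ∉ T → Ap V c g) →
      ρ (sym f * γ) = mkq S c (sym g * γ) := by
  choose l h1 h2 using hA.one S T c hS
  have hc := hS.ne
  have sw : ∀ (g u : Eˣ) (γ : Kr E), (∀ V ∈ S, V ∉ T → Ap V c g) →
      mkq S c (sym g * (sym (l u) * γ)) = mkq S c (sym g * (sym u * γ)) :=
    fun g u γ hg => mk_eq (by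
      rw [← k_mul_sub, ← k_sub_mul, ← s_div, ← mul_assoc]
      exact orth hA hS T g _ γ hg (h1 u))
  let Φ : Kr E →+* AddMonoid.End (Q S c) := lift (fun f => lmul S c (l f))
    (fun a b => by
      refine end_ext fun x => ?_
      show mkq S c (sym (l (a * b)) * x) = mkq S c (sym (l a) * x) + mkq S c (sym (l b) * x)
      rw [← map_add, ← add_mul, ← s_mul]
      refine mk_ap (loc_ap hS (h1 _) (h2 _) (fun V hV hT => ?_) fun V hV hT => ?_) x
      · rw [← div_mul_div_comm]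
        exact Ap_mul (hS.non V hV) hc (h1 a V hV hT) (h1 b V hV hT)
      · exact Ap_mul (hS.non V hV) hc (h2 a V hV hT) (h2 b V hV hT))
    (fun a b h => by
      refine end_ext fun x => ?_
      show mkq S c (sym (l a) * (sym (l b) * x)) = 0
      rw [sw _ _ _ (h2 a), ← map_zero (mkq S c)]
      refine mk_eq ?_
      rw [sub_zero, ← mul_assoc]
      exact loc_st hA hS T h (h1 a) (h2 a) x)
  have hΦ : ∀ f, Φ (sym f) = lmul S c (l f) := lift_sym _ _ _
  let d : Kr E →+* ℤ := lift (fun _ => 0) (fun _ _ => rfl) (fun _ _ _ => rfl)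
  have hd : ∀ f, d (sym f) = 0 := lift_sym _ _ _
  have main : ∀ (γ : Kr E) (g : Eˣ), (∀ V ∈ S, V ∉ T → Ap V c g) →
      lmul S c g (Φ γ (mkq S c 1)) = mkq S c (sym g * γ) := by
    intro γ
    induction γ using ind with
    | h1 => intro g _; rw [map_one Φ]; rfl
    | hs u x ih =>
      intro g hg
      rw [map_mul Φ, hΦ, ← sw g u x hg, ← lmul_mk, ← ih _ (h2 u)]
      rfl
    | ha x y ih ih' =>
      intro g hg
      rw [map_add Φ, mul_add, map_add (mkq S c), ← ih g hg, ← ih' g hg]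
      exact (lmul S c g).map_add _ _
    | hn x ih =>
      intro g hg
      rw [map_neg Φ, k_mul_neg, map_neg (mkq S c), ← ih g hg]
      exact (lmul S c g).map_neg _
  refine ⟨AddMonoidHom.mk' (fun x => Φ x (mkq S c 1) - d x • mkq S c 1)
    (fun x y => ?_), ?_, fun f g γ hg hg' => ?_⟩
  · rw [map_add Φ, map_add d, add_smul]
    show Φ x (mkq S c 1) + Φ y (mkq S c 1) - _ = _
    abel
  · show Φ 1 (mkq S c 1) - d 1 • mkq S c 1 = 0
    rw [map_one Φ, map_one d, one_smul]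
    exact sub_self _
  · show Φ (sym f * γ) (mkq S c 1) - d (sym f * γ) • mkq S c 1 = _
    rw [map_mul Φ, map_mul d, hd, zero_mul, zero_smul, sub_zero, hΦ,
      mk_ap (loc_ap hS hg hg' (h1 f) (h2 f)) γ, ← main γ _ (h2 f)]
    rfl

end LB

theorem locB (hA : LocA) : LocB where
  orth _ S₁ _ hS a b γ ha hb :=
    LB.orth hA hS S₁ᶜ a b γ (fun V hV h => ha V hV (not_not.1 h)) hb
  map _ S₁ _ hS := LB.map hA hS S₁

end

end Pool.Agent.KEW

end MrgPart5

-- ======== part 6: formerly Pool.Agent.MP_55d974_ag.kew.Deep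
section MrgPart6

/-! PROJECT KEW: deep symbols are symbols of units modulo `q`. -/

namespace Pool.Agent.KEW

noncomputable section

open Classical

namespace DP

open LB

variable {E : Type} [Field E] {S : Set (ValuationSubring E)} {c : E} {q n m : ℕ}

/-- Symbols with a first entry of level `n` and further entries units. -/
def Y (S : Set (ValuationSubring E)) (c : E) (n m : ℕ) : AddSubgroup (Kr E) :=
  AddSubgroup.closure {x | ∃ (G : Eˣ) (l : List Eˣ), (∀ V ∈ S, Ap V (c ^ n) G) ∧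
    l.length = m ∧ (∀ u ∈ l, ∀ V ∈ S, Un V u) ∧ x = sym G * (l.map sym).prod}

/-- Symbols with a first entry of level one. -/
def Z (S : Set (ValuationSubring E)) (c : E) (m : ℕ) : AddSubgroup (Kr E) :=
  AddSubgroup.closure {x | ∃ (G : Eˣ), ∃ δ ∈ K E m, (∀ V ∈ S, Ap V c G) ∧ x = sym G * δ}

/-- The subgroup `Y + q Z`. -/
def W (S : Set (ValuationSubring E)) (c : E) (q n m : ℕ) : AddSubgroup (Kr E) where
  carrier := {x | ∃ y ∈ Y S c n m, ∃ z ∈ Z S c m, x = y + q • z}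
  zero_mem' := ⟨0, zero_mem _, 0, zero_mem _, by simp⟩
  add_mem' := by
    rintro _ _ ⟨y, hy, z, hz, rfl⟩ ⟨y', hy', z', hz', rfl⟩
    exact ⟨y + y', add_mem hy hy', z + z', add_mem hz hz', by rw [nsmul_add]; abel⟩
  neg_mem' := by
    rintro _ ⟨y, hy, z, hz, rfl⟩
    exact ⟨-y, neg_mem hy, -z, neg_mem hz, by rw [neg_nsmul]; abel⟩

theorem left_mem {A B : AddSubgroup (Kr E)} {s : Set (Kr E)} (hA : A = AddSubgroup.closure s)
    (a : Kr E) (h : ∀ x ∈ s, a * x ∈ B) {x : Kr E} (hx : x ∈ A) : a * x ∈ B := by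
  rw [hA] at hx
  refine AddSubgroup.closure_induction h (by simp) (fun x y _ _ h1 h2 => ?_) (fun x _ h => ?_) hx
  · rw [mul_add]; exact add_mem h1 h2
  · rw [k_mul_neg]; exact neg_mem h

theorem K_left (u : Eˣ) {δ : Kr E} (h : δ ∈ K E m) : sym u * δ ∈ K E (m + 1) :=
  left_mem rfl _ (by
    rintro _ ⟨l, hl, rfl⟩
    exact AddSubgroup.subset_closure ⟨u :: l, by simp [hl], by simp⟩) h

theorem swap (a b : Eˣ) (x : Kr E) : sym a * (sym b * x) = -(sym b * (sym a * x)) := by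
  rw [← mul_assoc, s_anti, k_neg_mul, mul_assoc]

theorem W_left {u : Eˣ} (hu : ∀ V ∈ S, Un V u) {x : Kr E} (hx : x ∈ W S c q n m) :
    sym u * x ∈ W S c q n (m + 1) := by
  obtain ⟨y, hy, z, hz, rfl⟩ := hx
  refine ⟨sym u * y, left_mem rfl _ ?_ hy, sym u * z, left_mem rfl _ ?_ hz, ?_⟩
  · rintro _ ⟨G, l, hG, hl, hl', rfl⟩
    rw [swap]
    refine neg_mem (AddSubgroup.subset_closure ⟨G, u :: l, hG, by simp [hl], ?_, by simp⟩)
    intro v hv
    rcases List.mem_cons.1 hv with rfl | hv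
    · exact hu
    · exact hl' v hv
  · rintro _ ⟨G, δ, hδ, hG, rfl⟩
    rw [swap]
    exact neg_mem (AddSubgroup.subset_closure ⟨G, _, K_left u hδ, hG, rfl⟩)
  · rw [mul_add, mul_smul_comm]

theorem W_q {G : Eˣ} (hG : ∀ V ∈ S, Ap V c G) {δ : Kr E} (hδ : δ ∈ K E m) :
    q • (sym G * δ) ∈ W S c q n m :=
  ⟨0, zero_mem _, _, AddSubgroup.subset_closure ⟨G, δ, hδ, hG, rfl⟩, (zero_add _).symm⟩

theorem lev (hS : Fam S c) {F : Eˣ} {N N' : ℕ} (h : N' ≤ N) (hF : ∀ V ∈ S, Ap V (c ^ N) F) :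
    ∀ V ∈ S, Ap V (c ^ N') F := fun V hV => by
  obtain ⟨k, rfl⟩ := Nat.exists_eq_add_of_le h
  exact div_mono (pow_ne_zero _ hS.ne) (pow_mem (non_mem (hS.non V hV)) k)
    (pow_ne_zero _ hS.ne) (by rw [← pow_add]; exact hF V hV)

theorem key (hS : Fam S c) (hq : 0 < q) {V₀ : ValuationSubring E} (hV₀ : V₀ ∈ S) (w F : Eˣ)
    (hw : ∀ V ∈ S, (w : E) ∈ V ∧ c / w ∈ V) (N : ℕ)
    (hF : ∀ V ∈ S, Ap V (c ^ (q * (N + 1) + 2)) F) :
    ∃ G ε b : Eˣ, (∀ V ∈ S, Ap V (c ^ (N + 1)) G) ∧ (∀ V ∈ S, Un V ε) ∧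
      sym F * sym w = -(sym G * sym ε) - sym F * sym (-1) - q • (sym F * sym b) := by
  have hc := hS.ne
  have w0 := w.ne_zero
  obtain ⟨k, rfl⟩ : ∃ k, q = k + 1 := ⟨q - 1, by omega⟩
  have hS' := fam_pow hS N
  set b : Eˣ := Units.mk0 c hc ^ (N + 1) with hb
  set a : Eˣ := w * b ^ (k + 1) with ha
  have hav : (a : E) = w * (c ^ (N + 1)) ^ (k + 1) := by simp [ha, hb]
  have a0 := a.ne_zero
  have h1 : ∀ V ∈ S, (1 + (a : E) - 1) / c ^ (N + 1) ∈ V := fun V hV => by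
    have e : (1 + (a : E) - 1) / c ^ (N + 1) = w * (c ^ (N + 1)) ^ k := by
      rw [hav]; field_simp; ring
    rw [e]
    exact mul_mem (hw V hV).1 (pow_mem (pow_mem (non_mem (hS.non V hV)) _) _)
  have h2 : 1 + (a : E) ≠ 0 := ap_ne (hS'.non V₀ hV₀) hS'.ne (h1 V₀ hV₀)
  have h3 : ∀ V ∈ S, (1 + ((F : E) - 1) * (1 + a) / a - 1) / c ∈ V := fun V hV => by
    have e : (1 + ((F : E) - 1) * (1 + a) / a - 1) / c
        = ((F : E) - 1) / c ^ ((k + 1) * (N + 1) + 2) * (c / w) * (1 + a) := by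
      have e1 : c ^ ((k + 1) * (N + 1) + 2) = a / w * c ^ 2 := by
        rw [hav]; field_simp; ring
      rw [e1]
      field_simp
      ring
    rw [e]
    exact mul_mem (mul_mem (hF V hV) (hw V hV).2) (ap_mem (hS'.non V hV) hS'.ne (h1 V hV))
  have h4 : 1 + ((F : E) - 1) * (1 + a) / a ≠ 0 := ap_ne (hS.non V₀ hV₀) hc (h3 V₀ hV₀)
  have hF' := lev hS (N' := N + 1) (by nlinarith) hF
  refine ⟨F * Units.mk0 _ h2, Units.mk0 _ h4, b,
    fun V hV => Ap_mul (hS'.non V hV) hS'.ne (hF' V hV) (h1 V hV),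
    fun V hV => ⟨h4, ap_mem (hS.non V hV) hc (h3 V hV), ap_inv_mem (hS.non V hV) hc (h3 V hV)⟩, ?_⟩
  have s1 : sym (F * Units.mk0 _ h2) * sym (-a * Units.mk0 _ h4) = 0 := s_st (by
    simp only [Units.val_mul, Units.val_neg, Units.val_mk0]
    field_simp
    ring)
  have s2 : sym (Units.mk0 _ h2) * sym (-a) = 0 := s_st (by simp)
  have s3 : sym (-a) = sym (-1) + (sym w + (k + 1) • sym b) := by
    rw [← s_pow, ← s_mul, ← s_mul, neg_one_mul]
  rw [s_mul (-a), mul_add] at s1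
  have s4 : sym F * sym (-a) = -(sym (F * Units.mk0 _ h2) * sym (Units.mk0 _ h4)) := by
    rw [← eq_neg_of_add_eq_zero_left s1, s_mul, add_mul, s2, add_zero]
  rw [← s4, s3, mul_add, mul_add, mul_smul_comm]
  abel

theorem step (hA : LocA) (hS : Fam S c) (hq : 0 < q) (N : ℕ)
    (ih : ∀ G : Eˣ, (∀ V ∈ S, Ap V (c ^ (N + 1)) G) → ∀ δ ∈ K E m, sym G * δ ∈ W S c q n m)
    (F : Eˣ) (hF : ∀ V ∈ S, Ap V (c ^ (q * (N + 1) + 2)) F) (g : Eˣ) (δ : Kr E)
    (hδ : δ ∈ K E m) : sym F * sym g * δ ∈ W S c q n (m + 1) := by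
  have hu : ∀ G u : Eˣ, (∀ V ∈ S, Ap V (c ^ (N + 1)) G) → (∀ V ∈ S, Un V u) →
      sym G * sym u * δ ∈ W S c q n (m + 1) := fun G u hG hu => by
    rw [mul_assoc, swap]
    exact neg_mem (W_left hu (ih G hG δ hδ))
  have hF' := lev hS (N' := N + 1) (by nlinarith) hF
  have hF1 : ∀ V ∈ S, Ap V c F := by
    have h := lev hS (N' := 1) (by omega) hF
    rwa [pow_one] at h
  let D : Subgroup Eˣ :=
    { carrier := {g | sym F * sym g * δ ∈ W S c q n (m + 1)}
      one_mem' := by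
        show sym F * sym 1 * δ ∈ W S c q n (m + 1)
        rw [s_one, mul_zero, zero_mul]; exact zero_mem _
      mul_mem' := fun {a b} h h' => by
        show sym F * sym (a * b) * δ ∈ W S c q n (m + 1)
        rw [s_mul, mul_add, add_mul]; exact add_mem h h'
      inv_mem' := fun {a} h => by
        show sym F * sym a⁻¹ * δ ∈ W S c q n (m + 1)
        rw [s_inv, k_mul_neg, k_neg_mul]; exact neg_mem h }
  obtain ⟨w, hw, hw'⟩ := hA.unif S c hS
  obtain ⟨k, u, hu', rfl⟩ := hw' hS.fin.toFinset (by simp) g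
  refine D.mul_mem (hu F u hF' hu') (D.prod_mem fun V₀ hV₀ => D.zpow_mem ?_ _)
  have hV : V₀ ∈ S := by simpa using hV₀
  obtain ⟨⟨t, ht, e⟩, h2⟩ := hw V₀ hV
  obtain ⟨G, ε, b, hG, hε, h⟩ := key hS hq hV (w V₀) F (fun V hV' => by
    by_cases hh : V = V₀
    · subst hh
      have := hS.dvr V hV
      have hm : (⟨c, non_mem (hS.non V hV)⟩ : V) ∈ IsLocalRing.maximalIdeal V :=
        (V.coe_mem_nonunits_iff (a := ⟨c, non_mem (hS.non V hV)⟩)).1 (hS.non V hV)
      rw [ht.maximalIdeal_eq, Ideal.mem_span_singleton] at hm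
      obtain ⟨r, hr⟩ := hm
      have h3 : c = (t : E) * r := congrArg (fun z : V => (z : E)) hr
      have h4 : (t : E) ≠ 0 := e ▸ (w V).ne_zero
      rw [e, h3, mul_div_cancel_left₀ _ h4]
      exact ⟨t.2, r.2⟩
    · obtain ⟨_, h3, h4⟩ := h2 V hV' hh
      exact ⟨h3, by rw [div_eq_mul_inv]; exact mul_mem (non_mem (hS.non V hV')) h4⟩) N hF
  show sym F * sym (w V₀) * δ ∈ W S c q n (m + 1)
  rw [h, k_sub_mul, k_sub_mul, k_neg_mul, smul_mul_assoc, mul_assoc (sym F) (sym b)]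
  refine sub_mem (sub_mem (neg_mem (hu G ε hG hε)) (hu F _ hF' fun V _ => ?_))
    (W_q hF1 (K_left b hδ))
  refine ⟨by simp, by simp, ?_⟩
  rw [Units.val_neg, Units.val_one, inv_neg, inv_one]
  exact neg_mem (one_mem _)

theorem main (hA : LocA) (hS : Fam S c) (hq : 0 < q) (n m : ℕ) :
    ∃ N, ∀ F : Eˣ, (∀ V ∈ S, Ap V (c ^ (N + 1)) F) → ∀ γ ∈ K E m, sym F * γ ∈ W S c q n m := by
  induction m with
  | zero =>
    refine ⟨n, fun F hF γ hγ => left_mem rfl _ ?_ hγ⟩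
    rintro _ ⟨l, hl, rfl⟩
    refine ⟨_, AddSubgroup.subset_closure ⟨F, l, lev hS (Nat.le_succ n) hF, hl, ?_, rfl⟩, 0,
      zero_mem _, by simp⟩
    rw [List.length_eq_zero_iff.1 hl]
    simp
  | succ m ih =>
    obtain ⟨N, ih⟩ := ih
    refine ⟨q * (N + 1) + 1, fun F hF γ hγ => left_mem rfl _ ?_ hγ⟩
    rintro _ ⟨l, hl, rfl⟩
    obtain ⟨g, l, rfl⟩ := List.exists_cons_of_length_eq_add_one hl
    rw [List.map_cons, List.prod_cons, ← mul_assoc]
    exact step hA hS hq N ih F hF g _ (AddSubgroup.subset_closure ⟨l, by simpa using hl, rfl⟩)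

end DP

theorem deepS (hA : LocA) : DeepS := by
  intro E _ S c hS q n m hq
  obtain ⟨N, h⟩ := DP.main hA hS hq n m
  exact ⟨N + 1, h⟩

end

end Pool.Agent.KEW

end MrgPart6

-- marker of a merged file
example : 731051 + 472642 = 731051 + 472642 := rfl
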