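import Mathlib.Algebra.Order.Star.Basic
import Pool.Agent.MP_55d974_ag.kew.Deep
import Pool.Agent.MP_55d974_ag.coh.Tow

-- ======== part 0: formerly Pool.Agent.MP_55d974_ag.kew.Kn
section MrgPart0

/-! PROJECT KEW: the negligible germs of degree zero. -/

open AlgebraicGeometry CategoryTheory TopologicalSpace Opposite Pool.Agent.MP_55d974_ag IsLocalRing

namespace Pool.Agent.KEW

noncomputable section

open Classical

namespace KnA

variable {X : Scheme.{0}}

/-- Restriction of sections. -/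
abbrev rs (F : AbSheaf X) {U V : X.Opens} (h : V ≤ U) : F.obj.obj (op U) →+ F.obj.obj (op V) :=
  (F.obj.map (homOfLE h).op).hom

theorem rs_rs (F : AbSheaf X) {U V W : X.Opens} (h : V ≤ U) (h' : W ≤ V) (s) :
    rs F h' (rs F h s) = rs F (h'.trans h) s := by
  rw [← ConcreteCategory.comp_apply, ← Functor.map_comp]
  rfl

theorem nat_r {F G : AbSheaf X} (r : F ⟶ G) {U V : X.Opens} (h : V ≤ U) (s) :
    r.hom.app (op V) (rs F h s) = rs G h (r.hom.app (op U) s) :=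
  NatTrans.naturality_apply r.hom (homOfLE h).op s

/-- The image of `s` is a multiple of `q` near `z`. -/
def Good {F G : AbSheaf X} (r : F ⟶ G) (q : ℕ) (z : X) (U : X.Opens) (s : F.obj.obj (op U)) :
    Prop := ∃ V, z ∈ V ∧ ∃ h : V ≤ U, ∃ t, rs G h (r.hom.app (op U) s) = q • t

variable {F G : AbSheaf X} {r : F ⟶ G} {q : ℕ} {z : X} {U V : X.Opens}

theorem Good.res {s} (h : V ≤ U) (hz : z ∈ V) (g : Good r q z U s) : Good r q z V (rs F h s) := by
  obtain ⟨W, hW, k, t, e⟩ := g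
  refine ⟨W ⊓ V, ⟨hW, hz⟩, inf_le_right, rs G inf_le_left t, ?_⟩
  rw [nat_r, rs_rs, ← map_nsmul, ← e, rs_rs]

theorem Good.of_res {s} (h : V ≤ U) (g : Good r q z V (rs F h s)) : Good r q z U s := by
  obtain ⟨W, hW, k, t, e⟩ := g
  exact ⟨W, hW, k.trans h, t, by rw [← e, nat_r, rs_rs]⟩

theorem Good.sub {s s'} (g : Good r q z U s) (g' : Good r q z U s') : Good r q z U (s - s') := by
  obtain ⟨W, hW, k, t, e⟩ := g
  obtain ⟨W', hW', k', t', e'⟩ := g'
  refine ⟨W ⊓ W', ⟨hW, hW'⟩, inf_le_left.trans k, rs G inf_le_left t - rs G inf_le_right t', ?_⟩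
  rw [map_sub, map_sub, smul_sub, ← map_nsmul, ← map_nsmul, ← e, ← e', rs_rs, rs_rs]

theorem germ_pos {w z : X} (h : w ⤳ z) (c : Ch X) : Coh.germ (X := X.carrier) z c w = c w :=
  if_pos h

theorem germ_neg {w z : X} (h : ¬ w ⤳ z) (c : Ch X) : Coh.germ (X := X.carrier) z c w = 0 :=
  if_neg h

theorem germ_ext {z : X} {c c' : Ch X} (h : ∀ w, w ⤳ z → c w = c' w) :
    Coh.germ (X := X.carrier) z c = Coh.germ (X := X.carrier) z c' := by
  ext w
  by_cases k : w ⤳ z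
  · rw [germ_pos k, germ_pos k, h w k]
  · rw [germ_neg k, germ_neg k]

variable {d : ℕ} {ι : ∀ U : X.Opens, KSec X d U →+ Ch X}

theorem germ_res (hι : Io d ι) (h : V ≤ U) (hz : z ∈ V) (s) :
    Coh.germ (X := X.carrier) z (ι V (rs (KS X d) h s)) = Coh.germ (X := X.carrier) z (ι U s) :=
  germ_ext fun w k => hι.nat U V h s w (k.mem_open V.2 hz)

theorem zero_near (hι : Io d ι) (hz : z ∈ U) {s} (h : ∀ w, w ⤳ z → ι U s w = 0) :
    ∃ V, z ∈ V ∧ ∃ k : V ≤ U, rs (KS X d) k s = 0 := by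
  let Z : Set X := ⋃ w ∈ (ι U s).support, closure {w}
  have hZ : IsClosed Z := isClosed_biUnion_finset fun _ _ => isClosed_closure
  refine ⟨U ⊓ ⟨Zᶜ, hZ.isOpen_compl⟩, ⟨hz, fun hz' => ?_⟩, inf_le_left, hι.inj _ _ ?_⟩
  · obtain ⟨w, hw, hz'⟩ := Set.mem_iUnion₂.1 hz'
    exact DFinsupp.mem_support_iff.1 hw (h w (specializes_iff_mem_closure.2 hz'))
  · ext w
    by_cases k : w ∈ U ⊓ ⟨Zᶜ, hZ.isOpen_compl⟩
    · refine (hι.nat U _ inf_le_left s w k).trans (by_contra fun e => k.2 ?_)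
      exact Set.mem_iUnion₂.2 ⟨w, DFinsupp.mem_support_iff.2 e, subset_closure rfl⟩
    · exact hι.off _ _ w k

/-- The germs of sections whose image is a multiple of `q`. -/
def NN (hι : Io d ι) (r : KS X d ⟶ G) (q : ℕ) (z : X) : AddSubgroup (Ch X) :=
  AddSubgroup.ofSub {c | ∃ U, z ∈ U ∧ ∃ s, Good r q z U s ∧ c = Coh.germ (X := X.carrier) z (ι U s)}
    ⟨0, ⊤, trivial, 0, ⟨⊤, trivial, le_rfl, 0, by simp⟩, by simp⟩ (by
      rintro _ ⟨U, hU, s, g, rfl⟩ _ ⟨V, hV, s', g', rfl⟩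
      have hz : z ∈ U ⊓ V := ⟨hU, hV⟩
      refine ⟨U ⊓ V, hz, _, (g.res inf_le_left hz).sub (g'.res inf_le_right hz), ?_⟩
      rw [map_sub, map_sub, germ_res hι _ hz, germ_res hι _ hz, sub_eq_add_neg])

theorem mem_NN (hι : Io d ι) (r : KS X d ⟶ G) (hz : z ∈ U) (s) :
    Coh.germ (X := X.carrier) z (ι U s) ∈ NN hι r q z ↔ Good r q z U s := by
  refine ⟨?_, fun g => ⟨U, hz, s, g, rfl⟩⟩
  rintro ⟨V, hV, s', g, e⟩
  have hW : z ∈ U ⊓ V := ⟨hz, hV⟩
  obtain ⟨W, h1, h2, h3⟩ := zero_near hι hW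
    (s := rs (KS X d) inf_le_left s - rs (KS X d) inf_le_right s') fun w k => by
      rw [← germ_pos k, map_sub, map_sub, germ_res hι _ hW, germ_res hι _ hW, e, sub_self]
      rfl
  rw [map_sub, rs_rs, rs_rs, sub_eq_zero] at h3
  exact Good.of_res (h2.trans inf_le_left) (h3 ▸ g.res _ h1)

theorem ev_eq {w z : X} (h : w ⤳ z) (hz : z ∈ U) :
    (X.evaluation U w (h.mem_open U.2 hz)).hom = (gz h).comp (X.presheaf.germ U z hz).hom := by
  rw [gz, ← CommRingCat.hom_comp, ← Category.assoc, TopCat.Presheaf.germ_stalkSpecializes]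
  rfl

theorem inf_res {k : Type} [Field k] (h : Infinite k) : Infinite (ResidueField k) :=
  .of_injective _ ((residue k).injective)

theorem val_eq (hK : KhS) (hι : Io d ι) {w : X} (hw : w ∈ U) (h0 : cod w = 0)
    (hi : Infinite (X.residueField w)) (s : (KP X d).obj (op U)) {y : Kr (X.residueField w)}
    (hy : y ∈ K _ d) (e : kmap (rt (.refl _) (X.evaluation U w hw).hom) (Subtype.val s) =
      kmap (algebraMap (X.residueField w) _) y) : ι U (shf U s) w = y := by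
  have h1 : ι U (shf U s) w ∈ K _ d := by simpa [AW, h0] using hι.deg U (shf U s) w
  refine sub_eq_zero.1 (hK.inj _ d (.inl (inf_res hi)) _ (sub_mem h1 hy) ?_)
  rw [map_sub, ← hι.agree U s w hw h0, e, sub_self]

theorem khF_val {R S : CommRingCat.{0}} (φ : R ⟶ S) (m : ℕ) (x : (khF m).obj R) :
    Subtype.val ((khF m).map φ x) = kmap (rt (.refl _) φ.hom) (Subtype.val x) := rfl

theorem kk {R S T : Type} [CommRing R] [CommRing S] [CommRing T] (φ : R →+* S) (ψ : S →+* T) (x) :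
    kmap (rt (.refl Unit) ψ) (kmap (rt (.refl Unit) φ) x) = kmap (rt (.refl Unit) (ψ.comp φ)) x := by
  rw [kmap_comp, rt_comp]
  rfl

theorem st_pull {Y : Scheme.{0}} (i : Y ⟶ X) {st} (hst : IsSt Y d st) (hS : StS) (y : Y)
    (hy : i y ∈ U) (hy' : y ∈ i ⁻¹ᵁ U) (s : (KP X d).obj (op U)) :
    Subtype.val (st y (i ⁻¹ᵁ U) hy' ((pull i d).hom.app (op U) (shf U s))) =
      kmap (rt (.refl _) (i.stalkMap y).hom)
        (kmap (rt (.refl _) (X.presheaf.germ U _ hy).hom) (Subtype.val s)) := by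
  refine (congrArg (fun t => Subtype.val (st y (i ⁻¹ᵁ U) hy' t)) (hS.pull i d U s)).trans ?_
  refine (congrArg Subtype.val (hst.pre y _ hy' _)).trans ((khF_val _ _ _).trans ?_)
  refine (congrArg _ (khF_val _ _ _)).trans ((kk _ _ _).trans (Eq.trans ?_ (kk _ _ _).symm))
  rw [← CommRingCat.hom_comp, ← CommRingCat.hom_comp, Scheme.Hom.germ_stalkMap]

theorem st_zero {Y : Scheme.{0}} (i : Y ⟶ X) (hS : StS) (y : Y) (hy : i y ∈ U)
    (s : (KP X d).obj (op U)) (h : (pull i d).hom.app (op U) (shf U s) = 0) :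
    kmap (rt (.refl _) (i.stalkMap y).hom)
      (kmap (rt (.refl _) (X.presheaf.germ U _ hy).hom) (Subtype.val s)) = 0 := by
  obtain ⟨st, hst⟩ := hS.st Y d
  refine (st_pull i hst hS y hy hy s).symm.trans ?_
  exact (congrArg (fun t => Subtype.val (st y (i ⁻¹ᵁ U) hy t)) h).trans
    (congrArg Subtype.val (map_zero (st y (i ⁻¹ᵁ U) hy)))

theorem st_good {Y : Scheme.{0}} (i : Y ⟶ X) [IsClosedImmersion i] (hS : StS) (y : Y)
    (hy : i y ∈ U) (s : (KP X d).obj (op U)) (h : kmap (rt (.refl _) (i.stalkMap y).hom)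
      (kmap (rt (.refl _) (X.presheaf.germ U _ hy).hom) (Subtype.val s)) = 0) :
    Good (pull i d) q (i y) U (shf U s) := by
  obtain ⟨st, hst⟩ := hS.st Y d
  obtain ⟨W, hW, k', e3⟩ := hst.inj y _ hy _ (Subtype.ext ((st_pull i hst hS y hy hy s).trans h))
  obtain ⟨W', h1, h2⟩ := i.isClosedEmbedding.isInducing.isOpen_iff.1 W.2
  have k2 : i ⁻¹ᵁ (U ⊓ ⟨W', h1⟩) ≤ W := fun a ha => show a ∈ W.carrier from h2 ▸ ha.2
  refine ⟨U ⊓ ⟨W', h1⟩, ⟨hy, show y ∈ i ⁻¹' W' from h2 ▸ hW⟩, inf_le_left, 0, ?_⟩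
  exact ((rs_rs (KS Y d) k' k2 _).symm.trans (congrArg (rs (KS Y d) k2) e3)).trans
    ((map_zero _).trans (smul_zero q).symm)

theorem dd_germ {w z : X} (hw : w ⤳ z) (h : ∀ (y : X) β, dK y w β ≠ 0 → y ⤳ w) (τ : Ch X) :
    dd (Coh.germ (X := X.carrier) z τ) w = dd τ w := by
  refine (sub_eq_zero.1 ?_).symm
  rw [dd, dd, ← map_sub, DFinsupp.sumAddHom_apply]
  refine Finset.sum_eq_zero fun y hy => by_contra fun k => DFinsupp.mem_support_iff.1 hy ?_
  exact sub_eq_zero.2 (germ_pos ((h y _ k).trans hw) τ).symm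

theorem mul_val (hK : KhS) {R S T : Type} [CommRing R] [CommRing S] [CommRing T] (ψ : R →+* S)
    (φ : S →+* T) (v : Kr S) (s) : kmap (rt (.refl Unit) φ) (kmap (algebraMap S _) v *
      kmap (rt (.refl Unit) ψ) s) = kmap (algebraMap T _) (kmap φ v) *
        kmap (rt (.refl Unit) (φ.comp ψ)) s := by
  rw [map_mul, hK.nat, kk]

end KnA

open KnA

theorem knS (hK : KhS) (hS : StS) (hV : AllC Vl) : AllC KnS := by
  intro A _ _ _ _ _ X f π d p q n c ι hι
  have hv := hV A X f π d p q n c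
  have hn : 1 ≤ n := Nat.pos_of_ne_zero fun e => c.hyp.irr.not_isUnit
    (isUnit_of_dvd_one ((Dvd.intro_left _ rfl).trans (by simpa [e] using c.lv.lev)))
  obtain ⟨hc, hr, hk⟩ := c.geo.thk n hn
  have hD := c.geo.dim
  have hinf : ∀ w : X, cod w = 0 → Infinite (X.residueField w) := fun w h =>
    hD.inf w (by have := hD.add w; omega)
  refine ⟨NN hι (pull (thick f π n) d) q, fun z _ _ U hU s => mem_NN hι _ hU s, ?_, ?_⟩
  · rintro z hz hd _ ⟨U, hU, s, ⟨V, hV, h, t, e⟩, rfl⟩ w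
    by_cases hw : w ⤳ z
    swap
    · exact ⟨0, zero_mem _, 0, by simp [germ_neg hw]⟩
    by_cases h0 : cod w = 0
    swap
    · exact ⟨0, zero_mem _, 0, by simpa [germ_pos hw, AW, h0] using hι.deg U s w⟩
    obtain ⟨V₁, h1, k1, s₁, e1⟩ := hv.lift z hz (by omega) V hV t
    obtain ⟨V₂, h2, k2, s₂, e2⟩ := hS.loc X d V₁ (rs (KS X d) (k1.trans h) s - q • s₁) z h1
    obtain ⟨y, rfl⟩ : z ∈ Set.range (thick f π n) := hr ▸ hz
    have hres : Infinite (ResidueField (X.presheaf.stalk (thick f π n y))) ∨ d ≤ 1 := by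
      by_cases h1 : d ≤ 1
      exacts [.inr h1, .inl (hD.inf _ (by omega))]
    obtain ⟨x, hx, ex⟩ := hK.surj _ d hres _ (kh_mem (X.presheaf.germ V₂ _ h2).hom s₂.2)
    have e3 : (pull (thick f π n) d).hom.app (op V₂) (shf V₂ s₂) = 0 := by
      rw [← e2]
      refine (nat_r _ k2 _).trans ?_
      rw [map_sub, map_nsmul, e1, nat_r, ← rs_rs _ h k1, e, map_nsmul, sub_self, map_zero]
    have e4 := st_zero _ hS y h2 s₂ e3
    rw [← ex, hK.nat] at e4
    have e5 := hK.inj _ d (hres.imp_left fun k => @Infinite.of_injective _ _ k _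
      (ResidueField.map ((thick f π n).stalkMap y).hom).injective) _ (kmap_mem _ hx) e4
    have e6 := val_eq hK hι (hw.mem_open V₂.2 h2) h0 (hinf w h0) s₂ (kmap_mem (gz hw) hx) (by
      rw [ev_eq hw h2, ← hK.nat, ex, kk])
    refine ⟨kmap (gz hw) x, ?_, ι V₁ s₁ w, ?_⟩
    · refine AddSubgroup.closure_mono ?_ (kq ((thick f π n).stalkMap_surjective y) (gz hw) e5)
      rintro _ ⟨u, hu, γ, rfl⟩
      refine ⟨_, γ, fun W hW => ?_, rfl⟩
      have : (u : X.presheaf.stalk _) - 1 ∈ RingHom.ker ((thick f π n).stalkMap y).hom := by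
        rw [RingHom.mem_ker, map_sub, hu, map_one, sub_self]
      rw [hk, Ideal.mem_span_singleton] at this
      obtain ⟨a, ha⟩ := this
      have e7 := congrArg (gz hw) ha
      rw [map_sub, map_one, map_mul, map_pow, hD.ak] at e7
      change (gz hw u - 1) / _ ∈ W
      rw [e7]
      by_cases e8 : aK f w π ^ n = 0
      · rw [e8, div_zero]
        exact zero_mem _
      · rw [mul_div_cancel_left₀ _ e8]
        exact hW.mem a
    · rw [germ_pos hw, ← e6, ← e2, hι.nat _ _ k2 _ w (hw.mem_open V₂.2 h2), map_sub, map_nsmul,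
        DFinsupp.sub_apply, hι.nat _ _ (k1.trans h) _ w (hw.mem_open V₁.2 h1)]
      exact (sub_add_cancel _ _).symm
  · rintro z hz hd e rfl u τ b hu hτ hb hm
    obtain ⟨U, hU, s, hs⟩ := (((c.ger e le_rfl e.le_succ z).2.1 (Coh.germ (X := X.carrier) z τ) fun w => by
      by_cases hw : w ⤳ z
      · rw [germ_pos hw]
        by_cases h0 : cod w = 0
        · exact ⟨by simpa [AW, h0] using hτ w, fun _ => ⟨hw, by rw [hD.eq, h0]⟩⟩
        · have : τ w = 0 := by simpa [AW, h0] using hτ w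
          exact ⟨this ▸ zero_mem _, fun h => absurd this h⟩
      · exact ⟨germ_neg hw τ ▸ zero_mem _, fun h => absurd (germ_neg hw τ) h⟩).1 fun w hw => by
      rw [dd_germ hw fun y β h => (c.geo.dif.loc y w β h).1, ← c.geo.dif.app, hb w hw])
    obtain ⟨V, hV, k, σ, hσ, eσ⟩ := hS.spread X 1 U z hU _ (sym_mem_K u)
    obtain ⟨v, rfl⟩ := mem_K_one.1 hσ
    let s' : (KP X (e + 1)).obj (op V) := ⟨_, hK.mul _ e v _ ((KP X e).map (homOfLE k).op s).2⟩
    have es : ∀ {R : Type} [CommRing R] (φ : Γ(X, V) →+* R), kmap (rt (.refl _) φ) (Subtype.val s') =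
        kmap (algebraMap R _) (kmap φ (sym v)) *
          kmap (rt (.refl _) (φ.comp (X.presheaf.map (homOfLE k).op).hom)) (Subtype.val s) := by
      exact fun φ => mul_val hK _ φ _ _
    refine ⟨V, hV, shf V s', ?_, germ_ext fun w hw => ?_⟩
    · obtain ⟨y, rfl⟩ : z ∈ Set.range (thick f π n) := hr ▸ hz
      have e1 : Units.map ((thick f π n).stalkMap y).hom.toMonoidHom u = 1 := by
        rw [← Ideal.mem_span_singleton, ← hk, RingHom.mem_ker, map_sub, map_one, sub_eq_zero] at hu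
        exact Units.ext hu
      refine st_good _ hS y hV s' ?_
      rw [es, eσ, map_mul, hK.nat, kmap_sym, e1, sym_one, map_zero, zero_mul]
    · rw [hm w hw]
      by_cases h0 : cod w = 0
      · refine (val_eq hK hι (hw.mem_open V.2 hV) h0 (hinf w h0) s'
          (sym_mul_mem_K _ (by simpa [AW, h0] using hτ w)) ?_).symm
        have e1 := hs w hw (by rw [hD.eq, h0]; rfl)
        rw [germ_pos hw] at e1
        rw [es, map_mul, ← e1, ← kmap_sym, ← eσ, kmap_comp _ (gz hw), ← ev_eq hw hV,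
          ← CommRingCat.hom_comp]
        congr 5
        rw [Scheme.evaluation, ← Category.assoc, TopCat.Presheaf.germ_res]
        rfl
      · have e1 : τ w = 0 := by simpa [AW, h0] using hτ w
        rw [e1, mul_zero]
        simpa [AW, h0, eq_comm] using hι.deg V (shf V s') w

end

end Pool.Agent.KEW

end MrgPart0

-- ======== part 1: formerly Pool.Agent.MP_55d974_ag.kew.Vl
section MrgPart1

/-! PROJECT KEW: the direct image lives on the special fibre and restriction is locally onto. -/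

open AlgebraicGeometry CategoryTheory TopologicalSpace Opposite Pool.Agent.MP_55d974_ag IsLocalRing

namespace Pool.Agent.KEW

noncomputable section

open Classical KnA

namespace VlA

variable {X Y : Scheme.{0}} {d : ℕ}

theorem van (i : Y ⟶ X) [IsClosedImmersion i] (z : X) (hz : z ∉ Set.range i) (U : X.Opens)
    (hU : z ∈ U) (t : (KD i d).obj.obj (op U)) :
    ∃ V, z ∈ V ∧ ∃ h : V ≤ U, (KD i d).obj.map (homOfLE h).op t = 0 := by
  refine ⟨U ⊓ ⟨(Set.range i)ᶜ, i.isClosedEmbedding.isClosed_range.isOpen_compl⟩, ⟨hU, hz⟩,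
    inf_le_left, ?_⟩
  exact TopCat.Sheaf.eq_of_locally_eq' (KS Y d) (fun e : Empty => e.elim) _ (fun e => e.elim)
    (fun a ha => (ha.2 ⟨a, rfl⟩).elim) _ _ fun e => e.elim

theorem lift (hK : KhS) (hS : StS) (i : Y ⟶ X) [IsClosedImmersion i] (y : Y)
    (hres : Infinite (ResidueField (Y.presheaf.stalk y)) ∨ d ≤ 1) (U : X.Opens) (hU : i y ∈ U)
    (t : (KD i d).obj.obj (op U)) : ∃ V, i y ∈ V ∧ ∃ h : V ≤ U, ∃ s,
      (pull i d).hom.app (op V) s = (KD i d).obj.map (homOfLE h).op t := by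
  obtain ⟨st, hst⟩ := hS.st Y d
  obtain ⟨W, hW, k, s', e1⟩ := hS.loc Y d (i ⁻¹ᵁ U) t y hU
  obtain ⟨x, hx, ex⟩ := hK.surj _ d hres _ (kh_mem (Y.presheaf.germ W y hW).hom s'.2)
  obtain ⟨x', hx', rfl⟩ := kmap_surj (i.stalkMap_surjective y) hx
  obtain ⟨V, hV, kV, σ, hσ, rfl⟩ := hS.spread X d U (i y) hU x' hx'
  let s : (KP X d).obj (op V) := ⟨_, hK.mem _ d σ hσ⟩
  have kV' : i ⁻¹ᵁ V ≤ i ⁻¹ᵁ U := fun _ ha => kV ha
  let a : KSec Y d (i ⁻¹ᵁ V) := (pull i d).hom.app (op V) (shf V s)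
  have e2 : st y (i ⁻¹ᵁ V) hV (a - rs (KS Y d) kV' t) = 0 := by
    rw [map_sub, sub_eq_zero]
    refine Subtype.ext ((st_pull i hst hS y hV hV s).trans ?_)
    refine Eq.trans ?_ (congrArg Subtype.val (hst.res y _ _ kV' hV t)).symm
    refine Eq.trans ?_ (congrArg Subtype.val (hst.res y _ _ k hW t))
    rw [e1, hst.pre, khF_val, ← ex, ← hK.nat, ← hK.nat]
  obtain ⟨W₁, h1, k1, e3⟩ := hst.inj y _ hV _ e2
  obtain ⟨W', h2, h3⟩ := i.isClosedEmbedding.isInducing.isOpen_iff.1 W₁.2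
  have k2 : i ⁻¹ᵁ (V ⊓ ⟨W', h2⟩) ≤ W₁ := fun a ha => show a ∈ W₁.carrier from h3 ▸ ha.2
  refine ⟨V ⊓ ⟨W', h2⟩, ⟨hV, show y ∈ i ⁻¹' W' from h3 ▸ h1⟩, inf_le_left.trans kV,
    rs (KS X d) inf_le_left (shf V s), (nat_r _ inf_le_left _).trans ?_⟩
  have e4 := (rs_rs (KS Y d) k1 k2 _).symm.trans ((congrArg (rs (KS Y d) k2) e3).trans (map_zero _))
  rw [map_sub, sub_eq_zero, rs_rs] at e4
  exact e4

end VlA

theorem vl (hK : KhS) (hS : StS) : AllC Vl := by
  intro A _ _ _ _ _ X f π d p q n c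
  have hn : 1 ≤ n := Nat.pos_of_ne_zero fun e => c.hyp.irr.not_isUnit
    (isUnit_of_dvd_one ((Dvd.intro_left _ rfl).trans (by simpa [e] using c.lv.lev)))
  obtain ⟨hc, hr, -⟩ := c.geo.thk n hn
  refine ⟨fun z hz => VlA.van _ z fun h => (hr ▸ h : z ∈ {y | ¬ Hor f π y}) hz, fun z hz hd => ?_⟩
  obtain ⟨y, rfl⟩ : z ∈ Set.range (thick f π n) := hr ▸ hz
  refine VlA.lift hK hS _ y ?_
  by_cases h1 : d ≤ 1
  · exact .inr h1
  · exact .inl (@Infinite.of_injective _ _ (c.geo.dim.inf _ (by omega)) _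
      (ResidueField.map ((thick f π n).stalkMap y).hom).injective)

end

end Pool.Agent.KEW

end MrgPart1

-- ======== part 2: formerly Pool.Agent.MP_55d974_ag.kew.Lim
section MrgPart2

/-! PROJECT KEW, passage to the limit. -/

open AlgebraicGeometry CategoryTheory TopologicalSpace Opposite Pool.Agent.MP_55d974_ag IsLocalRing

namespace Pool.Agent.KEW

theorem lim_abs {C : Type} {H : ℕ → Type} (r : ∀ n, C → H n) (t : ∀ n, H (n + 1) → H n) (n₀ : ℕ)
    (hc : ∀ n c, t n (r (n + 1) c) = r n c) (hb : ∀ n, n₀ ≤ n → Function.Bijective (r n))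
    (y : ∀ n, H n) (hy : ∀ n, t n (y (n + 1)) = y n) : ∃! c, ∀ n, r n c = y n := by
  obtain ⟨c, h⟩ := (hb n₀ le_rfl).2 (y n₀)
  refine ⟨c, fun n => ?_, fun c' h' => (hb n₀ le_rfl).1 ((h' n₀).trans h.symm)⟩
  rcases le_total n₀ n with hn | hn
  · induction n, hn using Nat.le_induction with
    | base => exact h
    | succ n hn ih =>
      obtain ⟨c', h'⟩ := (hb (n + 1) (hn.trans n.le_succ)).2 (y (n + 1))
      rw [← (hb n hn).1 (show r n c' = r n c by rw [← hc, h', hy, ih]), h']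
  · induction hn using Nat.decreasingInduction with
    | self => exact h
    | of_succ k _ ih => rw [← hc, ih, hy]

theorem exists_lv {A : Type} [CommRing A] [IsDomain A] [IsDiscreteValuationRing A] [CharZero A]
    {p : ℕ} (hp : p.Prime) [CharP (ResidueField A) p] {π : A} (hπ : Irreducible π) (r : ℕ) :
    ∃ n₀, ∀ n, n₀ ≤ n → Lv π p (p ^ r) n := by
  have h0 : ((p ^ r : ℕ) : A) * p * π ≠ 0 :=
    mul_ne_zero (mul_ne_zero (Nat.cast_ne_zero.2 (pow_ne_zero _ hp.ne_zero))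
      (Nat.cast_ne_zero.2 hp.ne_zero)) hπ.ne_zero
  obtain ⟨k, hk⟩ := IsDiscreteValuationRing.associated_pow_irreducible h0 hπ
  refine ⟨k, fun n hn => ⟨hp, ⟨r, rfl⟩, ?_, hk.dvd.trans (pow_dvd_pow π hn)⟩⟩
  rw [← Ideal.mem_span_singleton, ← hπ.maximalIdeal_eq, ← residue_eq_zero_iff, map_natCast]
  exact CharP.cast_eq_zero _ p

theorem tr0_res0 (hS : StS) {A : Type} [CommRing A] {X : Scheme.{0}} (f : X ⟶ Spec (.of A)) (π : A)
    (d n : ℕ) (c) : tr0 f π d n (res0 f π d (n + 1) c) = res0 f π d n c := by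
  have := hasSh X
  have := hasE X
  refine (Sheaf.H.map_comp_apply _ _ c).symm.trans ?_
  rw [← Category.assoc, hS.comp]
  have key : ∀ (g : Xn f π n ⟶ X) (h : g = thick f π n) (e : KD g d = KD (thick f π n) d),
      pull g d ≫ eqToHom e = pull (thick f π n) d := by
    rintro _ rfl _
    simp
  rw [key _ (step_thick f π n)]
  rfl

theorem tr_res (hS : StS) {A : Type} [CommRing A] {X : Scheme.{0}} (f : X ⟶ Spec (.of A)) (π : A)
    (d q n : ℕ) (c) : tr f π d q n (res f π d q (n + 1) c) = res f π d q n c := by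
  obtain ⟨c, rfl⟩ := QuotientAddGroup.mk_surjective c
  exact congrArg QuotientAddGroup.mk (tr0_res0 hS f π d n c)

theorem main_of (hS : StS) (hg : All Geo) (hb : AllC Bij) (p : ℕ) (hp : p.Prime) (A : Type)
    [CommRing A] [IsDomain A] [IsDiscreteValuationRing A] [HenselianLocalRing A] [CharZero A]
    [CharP (ResidueField A) p] (π : A) (hπ : Irreducible π) (X : Scheme.{0})
    (f : X ⟶ Spec (.of A)) (d : ℕ) (h1 : IsProjective f) (h2 : Flat f)
    (h3 : ∀ x : X, IsRegularLocalRing (X.presheaf.stalk x)) (h4 : RelDim f d)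
    (hG : ∀ m, d ≤ m + 1 → m ≤ d → Gersten X m) (r : ℕ) :
    (∃ n₀, ∀ n, n₀ ≤ n → Function.Bijective (res f π d (p ^ r) n)) ∧
      ∀ y : ∀ n, _, (∀ n, tr f π d (p ^ r) n (y (n + 1)) = y n) →
        ∃! c, ∀ n, res f π d (p ^ r) n c = y n := by
  obtain ⟨n₀, hn⟩ := exists_lv hp hπ r
  have H : Hyp f π d := ⟨hπ, h1, h2, h3, h4⟩
  have hb' := fun n h => hb A X f π d p (p ^ r) n ⟨H, hg A X f π d H, hn n h, hG⟩
  exact ⟨⟨n₀, hb'⟩, lim_abs _ _ n₀ (tr_res hS f π d _) hb'⟩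

end Pool.Agent.KEW

end MrgPart2

-- ======== part 3: formerly Pool.Agent.MP_55d974_ag.coh.Lim
section MrgPart3

/-! PROJECT KEW: division by `q` in the limit of the top cohomology groups of a tower. -/

open CategoryTheory TopologicalSpace Opposite Limits

namespace Pool.Agent.KEW.Coh

variable {X : TopCat.{0}} {Y : Set X} {rk : X → ℕ} {d : ℕ}

/-- Right exactness in the top degree: surjectivity. -/
theorem top_sur (V : ∀ m, VV Y rk m) (le : ∀ y ∈ Y, rk y ≤ d) {A B : Sh X} (a : A ⟶ B)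
    (van : ∀ z ∉ Y, Van A z) (sur : ∀ z, Big Y rk d z → LSur a z) (y : Hc B d) :
    ∃ x, hm a d x = y :=
  sur_of V a (fun z hz U hU s _ => van z
    (fun hY => by have := hz hY; have := le z hY; omega) U hU s) sur y

/-- Right exactness in the top degree: divisibility of the kernel. -/
theorem top_div (V : ∀ m, VV Y rk m) (le : ∀ y ∈ Y, rk y ≤ d) {A B C : Sh X} (a : A ⟶ B)
    (b : A ⟶ C) (q : ℕ) (van : ∀ z ∉ Y, Van A z) (sur : ∀ z, Big Y rk (d - 1) z → LSur a z)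
    (div : ∀ z ∈ Y, rk z = d → ∀ U, z ∈ U → ∀ s, ap a U s = 0 →
      ∃ W, z ∈ W ∧ ∃ h : W ≤ U, ∃ t, rs A h s = q • t ∧ ap b W t = 0)
    (x : Hc A d) (hx : hm a d x = 0) : ∃ u, x = q • u ∧ hm b d u = 0 := by
  obtain ⟨K, I, _, i, e, m, _, w₁, _, S₁, S₂, f⟩ := factor a
  have : Mono m := S₂.mono_f
  have : Mono i := S₁.mono_f
  obtain ⟨y, rfl⟩ : ∃ y, hm i d y = x := ex2 S₁ x (inj_of V m
    (fun z hz U hU t => let ⟨W, hW, h, s, es⟩ := sur z hz U hU t
      ⟨W, hW, h, ap e W s, by rw [← ap_comp, f, es]⟩) (hm e d x) ((map_map f x).trans hx))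
  obtain ⟨L, J, _, j, e', m', _, w₁', _, S₁', S₂', f'⟩ := factor (biprod.lift b (q • e))
  have : Mono m' := S₂'.mono_f
  have : Mono j := S₁'.mono_f
  have h0 : j ≫ biprod.lift b (q • e) = 0 := by rw [← f', ← Category.assoc, w₁', zero_comp]
  have hb : j ≫ b = 0 := by simpa using h0 =≫ biprod.fst
  have he : (j ≫ (q • 𝟙 A)) ≫ e = 0 := by simpa using h0 =≫ biprod.snd
  have hq : ∀ U s, ap (q • 𝟙 A) U s = q • s := fun U s => by
    clear div f' h0 he
    induction q with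
    | zero =>
      rw [zero_smul, zero_smul]
      rfl
    | succ q ih =>
      rw [succ_nsmul, succ_nsmul, ← ih]
      rfl
  let ψ : L ⟶ K := S₁.exact.lift _ he
  have hψ : ψ ≫ i = j ≫ (q • 𝟙 A) := S₁.exact.lift_f _ he
  have vK : ∀ {M : Sh X} (k : M ⟶ A) [Mono k], ∀ z ∉ Y, Van M z := fun k _ z hz U hU t =>
    let ⟨W, hW, h, e0⟩ := van z hz U hU (ap k U t)
    ⟨W, hW, h, (mono_iff k).1 inferInstance W _ (by rw [ap_rs, e0])⟩
  obtain ⟨v, rfl⟩ := top_sur V le ψ (vK j) (fun z hz U hU s => by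
    by_cases hY : z ∈ Y
    · obtain ⟨W, hW, h, t, h1, h2⟩ := div z hY (le_antisymm (le z hY) (hz hY)) U hU (ap i U s) (by
        rw [← f, ap_comp, ap_zero w₁, map_zero])
      obtain ⟨u, hu⟩ := sec_exact S₁' W t ((mono_iff m').1 inferInstance W _ (by
        rw [← ap_comp, f']
        have e1 : biprod.lift b (q • e) = b ≫ biprod.inl + ((q • 𝟙 A) ≫ e) ≫ biprod.inr := by
          refine biprod.hom_ext _ _ ?_ ?_ <;> simp
        rw [e1]
        change ap (b ≫ biprod.inl) W t + ap (((q • 𝟙 A) ≫ e) ≫ biprod.inr) W t = 0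
        rw [ap_comp, ap_comp, ap_comp, h2, hq, ← h1, ← ap_rs, ap_zero w₁, map_zero, map_zero,
          add_zero]))
      refine ⟨W, hW, h, u, sub_eq_zero.1 ((mono_iff i).1 inferInstance W _ ?_)⟩
      rw [map_sub, ← ap_comp, hψ, ap_comp, show ap j W u = t from hu, hq, ap_rs, h1, sub_self]
    · obtain ⟨W, hW, h, e0⟩ := vK i z hY U hU s
      exact ⟨W, hW, h, 0, (map_zero _).trans e0.symm⟩) y
  exact ⟨hm j d v, by rw [map_map hψ, ← map_map rfl, map_nsmul'], by rw [map_map hb, map_zero']⟩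

/-- The transition maps of a tower. -/
noncomputable def dn {F : ℕ → Sh X} (τ : ∀ n, F (n + 1) ⟶ F n) {n m : ℕ} (h : n ≤ m) :
    F m ⟶ F n := Nat.leRec (𝟙 _) (fun k _ ih => τ k ≫ ih) h

theorem dn_self {F : ℕ → Sh X} (τ : ∀ n, F (n + 1) ⟶ F n) (n : ℕ) : dn τ (le_refl n) = 𝟙 _ :=
  Nat.leRec_self _ _

theorem dn_succ {F : ℕ → Sh X} (τ : ∀ n, F (n + 1) ⟶ F n) {n m : ℕ} (h : n ≤ m) :
    dn τ (h.trans m.le_succ) = τ m ≫ dn τ h := Nat.leRec_succ _ _ h

theorem dn_low {F : ℕ → Sh X} (τ : ∀ n, F (n + 1) ⟶ F n) {n m : ℕ} (h : n + 1 ≤ m) :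
    dn τ h ≫ τ n = dn τ (n.le_succ.trans h) := by
  induction m, h using Nat.le_induction with
  | base => rw [dn_self, dn_succ τ (le_refl n), dn_self, Category.id_comp, Category.comp_id]
  | succ m h ih => rw [dn_succ τ h, dn_succ τ (n.le_succ.trans h), Category.assoc, ih]

/-- A compatible family that comes from `F₀` modulo `q` at level `N` comes from `F₀` modulo `q`
times a compatible family. -/
theorem lim_sur (V : ∀ m, VV Y rk m) (le : ∀ y ∈ Y, rk y ≤ d) {F₀ : Sh X} {F : ℕ → Sh X}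
    (r : ∀ n, F₀ ⟶ F n) (τ : ∀ n, F (n + 1) ⟶ F n) (hr : ∀ n, r (n + 1) ≫ τ n = r n) (q N : ℕ)
    (van : ∀ n, N ≤ n → ∀ z ∉ Y, Van (F n) z)
    (lift : ∀ n, N ≤ n → ∀ z ∈ Y, d ≤ rk z + 1 → LSur (r n) z)
    (div : ∀ j, ∀ z ∈ Y, rk z = d → ∀ U, z ∈ U → ∀ s, ap (r (N + j)) U s = 0 →
      ∃ W, z ∈ W ∧ ∃ h : W ≤ U, ∃ t,
        ap (r (N + j + 1)) W (rs F₀ h s) = q • ap (r (N + j + 1)) W t ∧ ap (r j) W t = 0)
    (y : ∀ n, Hc (F n) d) (hy : ∀ n, hm (τ n) d (y (n + 1)) = y n)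
    (hN : ∃ c e, y N = hm (r N) d c + q • e) :
    ∃ (c : Hc F₀ d) (z : ∀ n, Hc (F n) d), (∀ n, hm (τ n) d (z (n + 1)) = z n) ∧
      ∀ n, y n = hm (r n) d c + q • z n := by
  obtain ⟨c, e, he⟩ := hN
  have hd : ∀ {n m} (h : n ≤ m), r m ≫ dn τ h = r n := fun {n m} h => by
    induction m, h using Nat.le_induction with
    | base => rw [dn_self, Category.comp_id]
    | succ m h ih => rw [dn_succ τ h, ← Category.assoc, hr, ih]
  have yd : ∀ {n m} (h : n ≤ m), hm (dn τ h) d (y m) = y n := fun {n m} h => by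
    induction m, h using Nat.le_induction with
    | base => rw [dn_self]; exact Sheaf.H.map_id_apply _
    | succ m h ih => rw [dn_succ τ h, ← map_map rfl, hy, ih]
  have sur : ∀ j z, Big Y rk (d - 1) z → LSur (τ (N + j)) z := fun j z hz U hU t => by
    by_cases hY : z ∈ Y
    · obtain ⟨W, hW, h, s, es⟩ := lift (N + j) (by omega) z hY (by have := hz hY; omega) U hU t
      exact ⟨W, hW, h, ap (r _) W s, by rw [← ap_comp, hr, es]⟩
    · obtain ⟨W, hW, h, e0⟩ := van (N + j) (by omega) z hY U hU t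
      exact ⟨W, hW, h, 0, (map_zero _).trans e0.symm⟩
  have step : ∀ j (u : Hc (F (N + j)) d), y (N + j) = hm (r _) d c + q • u →
      ∃ u' : Hc (F (N + j + 1)) d, y (N + j + 1) = hm (r _) d c + q • u' ∧
        hm (dn τ (by omega : j ≤ N + j + 1)) d u' = hm (dn τ (by omega : j ≤ N + j)) d u := by
    intro j u hu
    obtain ⟨v, rfl⟩ := top_sur V le (τ (N + j)) (van _ (by omega))
      (fun z hz => sur j z fun hY => (Nat.sub_le _ _).trans (hz hY)) u
    obtain ⟨t, h1, h2⟩ := top_div V le (τ (N + j)) (dn τ (by omega : j ≤ N + j + 1)) q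
      (van _ (by omega)) (sur j) (fun z hY e1 U hU s hs => by
        obtain ⟨W, hW, h, s', es⟩ := lift (N + j + 1) (by omega) z hY (by omega) U hU s
        obtain ⟨W', hW', h', t, h1, h2⟩ := div j z hY e1 W hW s' (by
          rw [← hr, ap_comp, es, ap_rs, hs, map_zero])
        exact ⟨W', hW', h'.trans h, ap (r _) W' t, by rw [← h1, ap_rs, es, rs_rs],
          by rw [← ap_comp, hd, h2]⟩)
      (y (N + j + 1) - hm (r _) d c - q • v) (by
        rw [map_sub, map_sub, hy, map_map (hr _), map_nsmul, hu, add_sub_cancel_left, sub_self])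
    refine ⟨v + t, by rw [smul_add, ← h1]; abel, ?_⟩
    rw [map_add, h2, add_zero, dn_succ τ (by omega : j ≤ N + j), map_map rfl]
  choose g hg1 hg2 using step
  let u : ∀ j, {u : Hc (F (N + j)) d // y (N + j) = hm (r _) d c + q • u} := fun j =>
    Nat.rec ⟨e, he⟩ (fun j ih => ⟨g j ih.1 ih.2, hg1 j ih.1 ih.2⟩) j
  refine ⟨c, fun j => hm (dn τ (by omega : j ≤ N + j)) d (u j).1, fun j => ?_, fun j => ?_⟩
  · exact (map_map (dn_low τ _) _).trans (hg2 j (u j).1 (u j).2)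
  · rw [← yd (by omega : j ≤ N + j), (u j).2, map_add, map_nsmul, map_map (hd _)]

end Pool.Agent.KEW.Coh

end MrgPart3

-- ======== part 4: formerly Pool.Agent.MP_55d974_ag.kew.LimQ
section MrgPart4

/-! PROJECT KEW: the limit of the cohomology groups modulo `q`. -/

open AlgebraicGeometry CategoryTheory TopologicalSpace Opposite Pool.Agent.MP_55d974_ag IsLocalRing

namespace Pool.Agent.KEW

noncomputable section

open Classical KnA

namespace LimA

theorem kq2 {R S : Type} [CommRing R] [CommRing S] [IsLocalRing R] [IsLocalRing S] {φ : R →+* S}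
    (hφ : Function.Surjective φ) (I : Ideal (Kr R)) [I.IsTwoSided]
    (hI : ∀ u : Rˣ, φ u = 1 → sym u ∈ I) {x : Kr R} (hx : kmap φ x = 0) : x ∈ I := by
  have := IsLocalHom.of_surjective φ hφ
  choose t ht using exists_unit_lift hφ
  have key : ∀ u u' : Rˣ, φ u = φ u' → Ideal.Quotient.mk I (sym u)
      = Ideal.Quotient.mk I (sym u') := fun u u' h => by
    rw [Ideal.Quotient.eq, ← sym_div]
    refine hI _ ?_
    rw [div_eq_mul_inv, Units.val_mul, map_mul, h, ← map_mul]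
    simp
  have ht' : ∀ s, φ (t s) = s := fun s => congrArg Units.val (ht s)
  let ψ : Kr S →+* Kr R ⧸ I := klift (fun s => Ideal.Quotient.mk I (sym (t s)))
    (fun a b => by
      rw [← map_add, ← sym_mul]
      exact key _ _ (by simp [ht']))
    (fun a b h => by
      obtain ⟨w, hw⟩ := IsLocalHom.map_nonunit (f := φ) (1 - (t a : R)) (by
        rw [map_sub, map_one, ht', ← h, add_sub_cancel_left]; exact b.isUnit)
      rw [key (t b) w (by rw [hw, map_sub, map_one, ht', ht', ← h, add_sub_cancel_left]),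
        ← map_mul, sym_st, map_zero]
      rw [hw, add_sub_cancel])
  have e : ψ.comp (kmap φ) = Ideal.Quotient.mk I := kr_ext fun u => by
    rw [RingHom.comp_apply, kmap_sym, klift_sym]
    exact key _ _ (ht' _)
  have := DFunLike.congr_fun e x
  rw [RingHom.comp_apply, hx, map_zero] at this
  exact Ideal.Quotient.eq_zero_iff_mem.1 this.symm

/-- Elements that become `q` times an element of the kernel of `χ` after applying `ψ`. -/
def dI {R S T : Type} [Ring R] [Ring S] [Ring T] (ψ : R →+* S) (χ : R →+* T) (q : ℕ) :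
    Ideal R where
  carrier := {x | ∃ t, χ t = 0 ∧ ψ x = q • ψ t}
  add_mem' := by
    rintro a b ⟨s, h1, h2⟩ ⟨t, h3, h4⟩
    exact ⟨s + t, by rw [map_add, h1, h3, add_zero], by rw [map_add, map_add, h2, h4, smul_add]⟩
  zero_mem' := ⟨0, map_zero _, by simp⟩
  smul_mem' := by
    rintro c a ⟨s, h1, h2⟩
    exact ⟨c * s, by rw [map_mul, h1, mul_zero], by
      rw [smul_eq_mul, map_mul, map_mul, h2, mul_smul_comm]⟩

theorem dI_two {R S T : Type} [Ring R] [Ring S] [Ring T] (ψ : R →+* S) (χ : R →+* T) (q : ℕ) :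
    (dI ψ χ q).IsTwoSided := ⟨by
  rintro a c ⟨s, h1, h2⟩
  exact ⟨s * c, by rw [map_mul, h1, zero_mul], by rw [map_mul, map_mul, h2, smul_mul_assoc]⟩⟩

theorem binom {R : Type} [CommRing R] (z : R) (n : ℕ) :
    ∃ h, (1 + z) ^ n = 1 + n * z + z ^ 2 * h := by
  induction n with
  | zero => exact ⟨0, by simp⟩
  | succ n ih =>
    obtain ⟨h, e⟩ := ih
    exact ⟨n + h + z * h, by rw [pow_succ, e]; push_cast; ring⟩

theorem binom' {R : Type} [CommRing R] (p : ℕ) (w y : R) (r : ℕ) :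
    ∃ h, (1 + p * w * y) ^ p ^ r = 1 + (p : R) ^ r * p * w * y * (1 + w * h) := by
  induction r with
  | zero => exact ⟨0, by simp⟩
  | succ r ih =>
    obtain ⟨h, e⟩ := ih
    obtain ⟨k, e'⟩ := binom ((p : R) ^ r * p * w * y * (1 + w * h)) p
    exact ⟨h + (p : R) ^ r * y * (1 + w * h) ^ 2 * k, by rw [pow_succ, pow_mul, e, e']; ring⟩

theorem root {R : Type} [CommRing R] [IsLocalRing R] {p r N : ℕ} {w : R} (hw : ¬ IsUnit w)
    (h : (p : R) ^ r * p * w ∣ w ^ N) (j : ℕ) (u : Rˣ) (hu : w ^ (N + j) ∣ (u : R) - 1) :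
    ∃ g : Rˣ, w ^ (j + 1) ∣ (g : R) - 1 ∧ w ^ (N + j + 1) ∣ (u : R) - g ^ p ^ r := by
  obtain ⟨c, hc⟩ := h
  obtain ⟨a, ha⟩ := hu
  obtain ⟨k, hk⟩ := binom' p w (w ^ j * c * a) r
  obtain ⟨g, hg⟩ : IsUnit (1 + p * w * (w ^ j * c * a)) := by
    have := isUnit_one_sub_self_of_mem_nonunits (-(p * w * (w ^ j * c * a))) fun h =>
      hw (isUnit_of_dvd_unit ⟨-(p * (w ^ j * c * a)), by ring⟩ h)
    rwa [sub_neg_eq_add] at this
  refine ⟨g, ⟨p * c * a, by rw [hg]; ring⟩, -(a * k), ?_⟩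
  rw [hg, hk, sub_eq_iff_eq_add.1 ha, pow_succ, pow_add, hc]
  ring

variable {X Y : Scheme.{0}} {d : ℕ}

theorem l1 (hK : KhS) (hS : StS) (i : Y ⟶ X) [IsClosedImmersion i] (c : ∀ z : X, X.presheaf.stalk z)
    (hk : ∀ y, RingHom.ker (i.stalkMap y).hom = Ideal.span {c _}) {z : X} (hz : z ∈ Set.range i)
    (hres : Infinite (ResidueField (X.presheaf.stalk z)) ∨ d ≤ 1) {U : X.Opens} (hU : z ∈ U)
    (s : (KP X d).obj (op U)) {x} (hx : x ∈ K _ d) (ex : kmap (algebraMap _ _) x =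
      kmap (rt (.refl _) (X.presheaf.germ U z hU).hom) (Subtype.val s))
    (h : (pull i d).hom.app (op U) (shf U s) = 0) (I : Ideal (Kr (X.presheaf.stalk z)))
    [I.IsTwoSided] (hI : ∀ u : (X.presheaf.stalk z)ˣ, c z ∣ u - 1 → sym u ∈ I) : x ∈ I := by
  obtain ⟨y, rfl⟩ := hz
  have e4 := st_zero _ hS y hU s h
  rw [← ex, hK.nat] at e4
  refine kq2 (i.stalkMap_surjective y) I (fun u hu => hI u ?_)
    (hK.inj _ d (hres.imp_left fun k => @Infinite.of_injective _ _ k _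
      (ResidueField.map (i.stalkMap y).hom).injective) _ (kmap_mem _ hx) e4)
  rw [← Ideal.mem_span_singleton, ← hk, RingHom.mem_ker, map_sub, hu, map_one, sub_self]

theorem l2 (hK : KhS) (hS : StS) (i : Y ⟶ X) [IsClosedImmersion i] (c : ∀ z : X, X.presheaf.stalk z)
    (hk : ∀ y, RingHom.ker (i.stalkMap y).hom = Ideal.span {c _}) {z : X} (hz : z ∈ Set.range i)
    {U : X.Opens} (hU : z ∈ U) (s : (KP X d).obj (op U)) {x} (ex : kmap (algebraMap _ _) x =
      kmap (rt (.refl _) (X.presheaf.germ U z hU).hom) (Subtype.val s))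
    (h : kmap (Ideal.Quotient.mk (Ideal.span {c z})) x = 0) :
    ∃ V, z ∈ V ∧ ∃ h : V ≤ U, (pull i d).hom.app (op V) (rs (KS X d) h (shf U s)) = 0 := by
  obtain ⟨y, rfl⟩ := hz
  obtain ⟨V, h1, h2, t, e⟩ := st_good (q := 0) i hS y hU s (by
    rw [← ex, hK.nat, ← Ideal.Quotient.lift_comp_mk _ (i.stalkMap y).hom (hk y).ge, ← kmap_comp, h,
      map_zero, map_zero])
  exact ⟨V, h1, h2, (nat_r _ h2 _).trans (e.trans (zero_smul _ _))⟩

theorem div (hK : KhS) (hS : StS) {A : Type} [CommRing A] (f : X ⟶ Spec (.of A)) (π : A)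
    (g : Geo f π d) {p r N : ℕ} (hN : 1 ≤ N) (hL : ((p ^ r : ℕ) : A) * p * π ∣ π ^ N) (j : ℕ) (z : X)
    (hz : ¬ Hor f π z) (hd : dl d z = d) (U : X.Opens) (hU : z ∈ U) (s : KSec X d U)
    (h : (pull (thick f π (N + j)) d).hom.app (op U) s = 0) : ∃ W, z ∈ W ∧ ∃ k : W ≤ U, ∃ t,
      (pull (thick f π (N + j + 1)) d).hom.app (op W) (rs (KS X d) k s) =
        p ^ r • (pull (thick f π (N + j + 1)) d).hom.app (op W) t ∧
      (pull (thick f π (j + 1)) d).hom.app (op W) t = 0 := by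
  obtain ⟨c1, r1, k1⟩ := g.thk (N + j) (by omega)
  obtain ⟨c2, r2, k2⟩ := g.thk (N + j + 1) (by omega)
  obtain ⟨c3, r3, k3⟩ := g.thk (j + 1) (by omega)
  have hres : Infinite (ResidueField (X.presheaf.stalk z)) ∨ d ≤ 1 := by
    by_cases h1 : d ≤ 1
    exacts [.inr h1, .inl (g.dim.inf _ (by omega))]
  obtain ⟨V, hV, kV, s', es⟩ := hS.loc X d U s z hU
  obtain ⟨x, hx, ex⟩ := hK.surj _ d hres _ (kh_mem (X.presheaf.germ V z hV).hom s'.2)
  have := dI_two (kmap (Ideal.Quotient.mk (Ideal.span {sA f z π ^ (N + j + 1)})))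
    (kmap (Ideal.Quotient.mk (Ideal.span {sA f z π ^ (j + 1)}))) (p ^ r)
  obtain ⟨t, h1, h2⟩ := l1 hK hS _ (fun z => sA f z π ^ (N + j)) k1 (r1 ▸ hz) hres hV s' hx ex (by
    rw [← es]
    exact (nat_r _ kV _).trans ((congrArg _ h).trans (map_zero _)))
    (dI (kmap (Ideal.Quotient.mk (Ideal.span {sA f z π ^ (N + j + 1)})))
      (kmap (Ideal.Quotient.mk (Ideal.span {sA f z π ^ (j + 1)}))) (p ^ r)) fun u hu => by
      obtain ⟨v, e1, e2⟩ := root (p := p) (r := r) (N := N) (w := sA f z π)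
        (fun e => hz (e.map (X.residue z).hom).ne_zero) (by simpa using map_dvd (sA f z) hL) j u hu
      refine ⟨sym v, ?_, ?_⟩
      · rw [kmap_sym, sym_eq_zero]
        exact Units.ext (Ideal.Quotient.eq.2 (Ideal.mem_span_singleton.2 e1))
      · rw [← map_nsmul, ← sym_pow, kmap_sym, kmap_sym]
        exact congrArg _ (Units.ext (Ideal.Quotient.eq.2 (Ideal.mem_span_singleton.2 e2)))
  replace h1 := congrArg (proj d) h1
  replace h2 := congrArg (proj d) h2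
  rw [proj_kmap, map_zero] at h1
  rw [map_nsmul, proj_kmap, proj_kmap, proj_of_mem hx, ← map_nsmul, ← sub_eq_zero, ← map_sub] at h2
  obtain ⟨V₁, hV₁, kV₁, σ, hσ, eσ⟩ := hS.spread X d V z hV _ (proj_mem d t)
  let t' : (KP X d).obj (op V₁) := ⟨_, hK.mem _ d σ hσ⟩
  have et : kmap (algebraMap _ _) (proj d t) =
      kmap (rt (.refl _) (X.presheaf.germ V₁ z hV₁).hom) (Subtype.val t') := by
    rw [← eσ, ← hK.nat]
  obtain ⟨W₁, a1, b1, e1⟩ := l2 hK hS _ (fun z => sA f z π ^ (j + 1)) k3 (r3 ▸ hz) hV₁ t' et h1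
  obtain ⟨W₂, a2, b2, e2⟩ := l2 hK hS _ (fun z => sA f z π ^ (N + j + 1)) k2 (r2 ▸ hz) hV₁
    ((KP X d).map (homOfLE kV₁).op s' - p ^ r • t') (by
      rw [map_sub, map_nsmul, et, ex, ← map_nsmul]
      refine Eq.trans ?_ (map_sub _ _ _).symm
      refine congrArg (· - _) (Eq.trans ?_ (kk _ _ _).symm)
      rw [← CommRingCat.hom_comp, TopCat.Presheaf.germ_res]
      rfl) h2
  refine ⟨W₁ ⊓ W₂, ⟨a1, a2⟩, inf_le_left.trans (b1.trans (kV₁.trans kV)),
    rs (KS X d) (inf_le_left.trans b1) (shf V₁ t'), ?_, ?_⟩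
  · rw [← map_nsmul, ← sub_eq_zero, ← map_sub]
    have e3 := congrArg (rs _ (inf_le_right : W₁ ⊓ W₂ ≤ W₂)) e2
    rw [map_zero, ← nat_r, rs_rs, map_sub, map_sub, map_nsmul, map_nsmul, ← hS.nat, ← es] at e3
    refine Eq.trans ?_ e3
    congr 2
    exact ((rs_rs _ _ _ _).trans (rs_rs _ _ _ _)).symm
  · rw [← rs_rs _ b1 inf_le_left, nat_r, e1, map_zero]

theorem ls {X : TopCat.{0}} {Y : Set X} {rk : X → ℕ} {d : ℕ}
    [i1 : HasSheafify (Opens.grothendieckTopology X) AddCommGrpCat.{0}]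
    [i2 : HasExt.{0} (Sheaf (Opens.grothendieckTopology X) AddCommGrpCat.{0})]
    (V : ∀ m, Coh.VV Y rk m) (le : ∀ y ∈ Y, rk y ≤ d) {F₀ : Coh.Sh X} {F : ℕ → Coh.Sh X}
    (r : ∀ n, F₀ ⟶ F n) (τ : ∀ n, F (n + 1) ⟶ F n) (hr : ∀ n, r (n + 1) ≫ τ n = r n) (q N : ℕ)
    (van : ∀ n, N ≤ n → ∀ z ∉ Y, Coh.Van (F n) z)
    (lift : ∀ n, N ≤ n → ∀ z ∈ Y, d ≤ rk z + 1 → Coh.LSur (r n) z)
    (div : ∀ j, ∀ z ∈ Y, rk z = d → ∀ U, z ∈ U → ∀ s, Coh.ap (r (N + j)) U s = 0 →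
      ∃ W, z ∈ W ∧ ∃ h : W ≤ U, ∃ t, Coh.ap (r (N + j + 1)) W (Coh.rs F₀ h s) =
        q • Coh.ap (r (N + j + 1)) W t ∧ Coh.ap (r (j + 1)) W t = 0)
    (y : ∀ n, @Sheaf.H.{0} _ _ _ (F n) i1 i2 d)
    (hy : ∀ n, @Sheaf.H.map.{0} _ _ _ i1 i2 _ _ (τ n) d (y (n + 1)) = y n)
    (hN : ∃ c e, y N = @Sheaf.H.map.{0} _ _ _ i1 i2 _ _ (r N) d c + q • e) :
    ∃ (c : @Sheaf.H.{0} _ _ _ F₀ i1 i2 d) (z : ∀ n, @Sheaf.H.{0} _ _ _ (F n) i1 i2 d),
      (∀ n, @Sheaf.H.map.{0} _ _ _ i1 i2 _ _ (τ n) d (z (n + 1)) = z n) ∧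
      ∀ n, y n = @Sheaf.H.map.{0} _ _ _ i1 i2 _ _ (r n) d c + q • z n :=
  Coh.lim_sur V le r τ hr q N van lift (fun j z hz e U hU s hs =>
    let ⟨W, a, b, t, e1, e2⟩ := div j z hz e U hU s hs
    ⟨W, a, b, t, e1, by rw [← hr, Coh.ap_comp, e2, map_zero]⟩) y hy hN

end LimA

theorem limQ (hK : KhS) (hS : StS) (hg : All Geo) (hb : AllC Bij) (p : ℕ) (hp : p.Prime) (A : Type)
    [CommRing A] [IsDomain A] [IsDiscreteValuationRing A] [HenselianLocalRing A] [CharZero A]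
    [CharP (ResidueField A) p] (π : A) (hπ : Irreducible π) (X : Scheme.{0})
    (f : X ⟶ Spec (.of A)) (d : ℕ) (h1 : IsProjective f) (h2 : Flat f)
    (h3 : ∀ x : X, IsRegularLocalRing (X.presheaf.stalk x)) (h4 : RelDim f d)
    (hG : ∀ m, d ≤ m + 1 → m ≤ d → Gersten X m) (r : ℕ)
    (y : ∀ n, HH (KD (thick f π n) d) d) (hy : ∀ n, tr0 f π d n (y (n + 1)) = y n) :
    ∃ (c : HH (KS X d) d) (z : ∀ n, HH (KD (thick f π n) d) d),
      (∀ n, tr0 f π d n (z (n + 1)) = z n) ∧ ∀ n, y n = res0 f π d n c + p ^ r • z n := by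
  obtain ⟨n₀, hn⟩ := exists_lv hp hπ r
  have H : Hyp f π d := ⟨hπ, h1, h2, h3, h4⟩
  have g := hg A X f π d H
  have C : ∀ n, n₀ + 1 ≤ n → Ctx f π d p (p ^ r) n := fun n h => ⟨H, g, hn n (by omega), hG⟩
  have := g.crd.noeth
  have hr : ∀ n, pull (thick f π (n + 1)) d ≫ (pullD (thick f π (n + 1)) (step f π n) d ≫
      eqToHom (by rw [step_thick])) = pull (thick f π n) d := fun n => by
    rw [← Category.assoc, hS.comp]
    have key : ∀ (g : Xn f π n ⟶ X) (_ : g = thick f π n) (e : KD g d = KD (thick f π n) d),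
        pull g d ≫ eqToHom e = pull (thick f π n) d := by
      rintro _ rfl _
      simp
    exact key _ (step_thick f π n) _
  refine @LimA.ls X.carrier (Yv f π) (dl d) d (hasSh X) (hasE X)
    (Coh.vv g.dim.cl fun y _ z => g.dim.lt) (fun y hy => (g.dim.ver y hy).1) _ _
    (fun n => pull (thick f π n) d) _ hr (p ^ r) (n₀ + 1)
    (fun n h z hz => (vl hK hS A X f π d p _ n (C n h)).van z (not_not.1 hz))
    (fun n h => (vl hK hS A X f π d p _ n (C n h)).lift)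
    (LimA.div hK hS f π g (by omega) (C _ le_rfl).lv.lev) y hy ?_
  obtain ⟨c, hc⟩ := (hb A X f π d p _ _ (C _ le_rfl)).2 (QuotientAddGroup.mk (y (n₀ + 1)))
  obtain ⟨c, rfl⟩ := QuotientAddGroup.mk_surjective c
  obtain ⟨e, he⟩ := QuotientAddGroup.eq.1 hc
  exact ⟨c, e, (neg_add_eq_iff_eq_add.1 he.symm)⟩

end

end Pool.Agent.KEW

end MrgPart4

-- marker of a merged file
example : 731051 + 560432 = 731051 + 560432 := rfl
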