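import Mathlib.AlgebraicGeometry.Modules.Sheaf
import Pool.Agent.MP_55d974_ag.kew.KDefs

/-!
Milnor K-theory of rings, the improved Milnor K-sheaf, tame symbols, Bass-Tate norms, the Gersten
complex of a scheme, and restriction to the thickenings of the special fibre.
-/

open AlgebraicGeometry CategoryTheory Limits TopologicalSpace Opposite Pool.Agent.MP_55d974_ag

namespace Pool.Agent.KEW.S

noncomputable section

open Classical

section Milnor

variable (R : Type) [CommRing R] {S T : Type} [CommRing S] [CommRing T]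

/-- The total Milnor K-ring: the tensor ring of the unit group modulo the Steinberg relation. -/
def Kr : RingCat.{0} := RingCat.of (RingQuot (St R))

/-- The quotient map. -/
def mk : TensorAlgebra ℤ (Additive Rˣ) →+* Kr R := RingQuot.mkRingHom (St R)

variable {R}

/-- The symbol `{u}`. -/
def sym (u : Rˣ) : Kr R := mk R (TensorAlgebra.ι ℤ (Additive.ofMul u))

variable (R) in
/-- `K^M_m(R)`: the span of the symbols `{u₁, …, u_m}`. -/
def K (m : ℕ) : AddSubgroup (Kr R) :=
  AddSubgroup.closure {x | ∃ l : List Rˣ, l.length = m ∧ x = (l.map sym).prod}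

/-- `x` has degree `m`. -/
def InK (m : ℕ) (x : Kr R) : Prop := x ∈ K R m

/-- Functoriality of the tensor ring. -/
def tmap (φ : R →+* S) : TensorAlgebra ℤ (Additive Rˣ) →+* TensorAlgebra ℤ (Additive Sˣ) :=
  (TensorAlgebra.lift ℤ (TensorAlgebra.ι ℤ ∘ₗ
    (MonoidHom.toAdditive (Units.map φ.toMonoidHom)).toIntLinearMap)).toRingHom

theorem st_map (φ : R →+* S) ⦃x y : TensorAlgebra ℤ (Additive Rˣ)⦄ (h : St R x y) :
    (mk S).comp (tmap φ) x = (mk S).comp (tmap φ) y :=
  have e : ∀ z, KEW.kmap φ (RingQuot.mkRingHom _ z) = (mk S).comp (tmap φ) z :=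
    fun z => RingQuot.lift_mkRingHom_apply _ _ z
  (e x).symm.trans ((congrArg (KEW.kmap φ) (RingQuot.mkRingHom_rel h)).trans (e y))

variable (R S) in
/-- Additive maps between K-rings. -/
def KHom : Type := Kr R →+ Kr S

/-- Evaluation. -/
def ap (D : KHom R S) (x : Kr R) : Kr S := AddMonoidHom.toZeroHom D x

/-- Composition. -/
def cp (D : KHom S T) (D' : KHom R S) : KHom R T := AddMonoidHom.comp D D'

/-- The sum of a family with finite support, if `c` holds, and zero otherwise. -/
def sumIf (c : Prop) {ι : Type} (D : ι → KHom R S) : KHom R S :=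
  if c then @finsum (Kr R →+ Kr S) ι _ D else (0 : Kr R →+ Kr S)

/-- Functoriality of the Milnor K-ring. -/
def kmap (φ : R →+* S) : KHom R S :=
  (RingQuot.lift ⟨(mk S).comp (tmap φ), st_map φ⟩ : Kr R →+* Kr S).toAddMonoidHom

/-- A map with property `P` that lowers degrees by `i`, if there is one, and `0` otherwise. -/
def pick (i : ℕ) (P : KHom R S → Prop) : KHom R S :=
  if h : ∃ N, P N ∧ ∀ m x, InK (m + i) x → InK m (ap N x) then h.choose else (0 : Kr R →+ Kr S)

variable (R) in
/-- `R(t_σ)`: the polynomial ring with the primitive polynomials inverted. -/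
def RT (σ : Type) : CommRingCat.{0} := CommRingCat.of (Localization (prim R σ))

variable (R) in
/-- The constants in `R(t)`. -/
def cst : KHom R (RT R Unit) := kmap (algebraMap R (Localization (prim R Unit)))

/-- The map induced by `R(t_σ) → S(t_τ)` for a ring map and a renaming of the variables. -/
def rt {σ τ : Type} (e : σ ↪ τ) (φ : R →+* S) : KHom (RT R σ) (RT S τ) :=
  kmap (IsLocalization.map (S := Localization (prim R σ)) (Localization (prim S τ)) _ (prim_le e φ))

/-- The inclusion of the variable `b`. -/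
def var (b : Bool) : Unit ↪ Bool := ⟨fun _ => b, fun _ _ _ => rfl⟩

variable (R) in
/-- Kerz's improved Milnor K-group: the equaliser of `K^M_m(R(t)) ⇉ K^M_m(R(t₁, t₂))`. -/
def KH (m : ℕ) : AddSubgroup (Kr (RT R Unit)) :=
  K _ m ⊓ AddMonoidHom.eqLocus (rt (var false) (RingHom.id R)) (rt (var true) (RingHom.id R))

/-- A subgroup as an abelian group. -/
def sub {G : Type} [AddCommGroup G] (H : AddSubgroup G) : AddCommGrpCat.{0} := AddCommGrpCat.of H

/-- The restriction of a map to subgroups. -/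
def subMap {G G' : Type} [AddCommGroup G] [AddCommGroup G'] (H : AddSubgroup G)
    (H' : AddSubgroup G') (φ : G →+ G') (h : ∀ x : H, φ x ∈ H') : sub H ⟶ sub H' :=
  AddCommGrpCat.ofHom ((φ.comp H.subtype).codRestrict H' h)

variable (R) in
/-- The improved Milnor K-group as an abelian group. -/
def KG (m : ℕ) : AddCommGrpCat.{0} := sub (KH R m)

/-- The underlying element. -/
def val {m : ℕ} (x : KG R m) : Kr (RT R Unit) := Subtype.val x

theorem kh_mem (φ : R →+* S) (m : ℕ) (x : KG R m) : ap (rt (.refl _) φ) (val x) ∈ KH S m :=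
  KEW.kh_mem φ x.2

/-- Functoriality of the improved Milnor K-group. -/
def khmap (φ : R →+* S) (m : ℕ) : KG R m ⟶ KG S m := subMap _ _ (rt (.refl _) φ) (kh_mem φ m)

theorem khmap_id (m : ℕ) (R : CommRingCat.{0}) : khmap (𝟙 R : R ⟶ R).hom m = 𝟙 (KG R m) :=
  (KEW.khF m).map_id R

theorem khmap_comp (m : ℕ) {R S T : CommRingCat.{0}} (φ : R ⟶ S) (ψ : S ⟶ T) :
    khmap (φ ≫ ψ).hom m = khmap φ.hom m ≫ khmap ψ.hom m :=
  (KEW.khF m).map_comp φ ψ

/-- The improved Milnor K-group as a functor on rings. -/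
def khF (m : ℕ) : CommRingCat.{0} ⥤ AddCommGrpCat.{0} where
  obj R := KG R m
  map φ := khmap φ.hom m
  map_id := khmap_id m
  map_comp := khmap_comp m

end Milnor

section Fields

variable {E L k : Type} [Field E] [Field L] [Field k]

/-- The tame symbol of a discrete valuation ring `V` with residue map `ρ`: it kills symbols of
units and sends `{ϖ, u₁, …, u_m}` to `{ρ u₁, …, ρ u_m}`. -/
def tame (V : ValuationSubring E) (ρ : V →+* k) : KHom E k :=
  pick 1 fun D => ∀ γ : Kr V, ap D (ap (kmap V.subtype) γ) = 0 ∧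
    ∀ (w : V) (u : Eˣ), Irreducible w → (u : E) = w →
      ap D (sym u * ap (kmap V.subtype) γ) = ap (kmap ρ) γ

/-- The defining property of the Bass-Tate norm `N` of a simple extension `E = L(a)`, for the
field `F = L(T)` with constants `C`: if `β` in the K-ring of `F` has zero tame symbol at all places
over `L` other than the place `V` of `a` and the place `W` at infinity, then the norm of its symbol
at `V` is minus its symbol at `W`. -/
def BT {F : Type} [Field F] (C : L →+* F) (T : F) (φ : L →+* E) (a : E) (N : KHom E L) : Prop :=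
  ∀ (V W : ValuationSubring F) (ρ : V →+* E) (σ : W →+* L)
    (hV : ∀ c, C c ∈ V) (hW : ∀ c, C c ∈ W) (hT : T ∈ V),
    (∀ c, ρ ⟨_, hV c⟩ = φ c) → ρ ⟨_, hT⟩ = a → (∀ c, σ ⟨_, hW c⟩ = c) → T ∉ W →
    ∀ β, (∀ U : ValuationSubring F, (∀ c, C c ∈ U) → U ≠ ⊤ → U ≠ V → U ≠ W →
      ap (tame U (IsLocalRing.residue U)) β = 0) → ap N (ap (tame V ρ) β) = -ap (tame W σ) β

/-- The Bass-Tate norm of a simple extension `E = L(a)`. -/
def N1 (φ : L →+* E) (a : E) : KHom E L := pick 0 (BT RatFunc.C RatFunc.X φ a)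

/-- The norm along the tower of simple extensions given by a list of generators. -/
def nrmL : List E → ∀ M : Subfield E, KHom E M
  | [], M => N1 M.subtype 0
  | a :: l, M => cp (N1 (Subfield.inclusion (le_sup_left : M ≤ M ⊔ Subfield.closure {a}))
      ⟨a, (le_sup_right : _ ≤ M ⊔ _) (Subfield.subset_closure rfl)⟩) (nrmL l _)

/-- The norm of a finite field extension, through one generator if there is one and through a
tower otherwise. -/
def nrm (φ : L →+* E) : KHom E L :=
  if h : ∃ a, Subfield.closure (Set.range φ ∪ {a}) = ⊤ then N1 φ h.choose else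
    cp (kmap φ.rangeRestrictFieldEquiv.symm.toRingHom)
      (nrmL (epsilon fun l : List E => Subfield.closure (Set.range φ ∪ {a | a ∈ l}) = ⊤) _)

end Fields

section Gersten

variable {X : Scheme.{0}}

/-- The component at `y, z` of Kato's differential. -/
def dK (y z : X) : KHom (X.residueField y) (X.residueField z) :=
  sumIf (ringKrullDim (X.presheaf.stalk z) = ringKrullDim (X.presheaf.stalk y) + 1)
    fun V : {V // Pl y z V} => cp (nrm (@IsLocalRing.ResidueField.map _ _ _ _ _ _ _ V.2.loc))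
      (tame V.1 (IsLocalRing.residue V.1))

variable (X) in
/-- Finite families of elements of the K-rings of the residue fields. -/
def Ch : Type := Π₀ y : X, Kr (X.residueField y)

/-- The component of a family at `y`. -/
def co (a : Ch X) (y : X) : Kr (X.residueField y) := DFinsupp.toFun a y

/-- The differential of a finite family, as a family. -/
def dd (a : Ch X) (z : X) : Kr (X.residueField z) :=
  DFinsupp.sumAddHom (fun y => (dK y z : Kr _ →+ Kr _)) a

/-- `a` lies in the sum of the `K^M_i` over the generisations of `x` of codimension `j`. -/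
def Deg (x : X) (j i : ℕ) (a : Ch X) : Prop :=
  ∀ y, InK i (co a y) ∧ (co a y ≠ 0 → y ⤳ x ∧ ringKrullDim (X.presheaf.stalk y) = j)

/-- The presheaf of improved Milnor K-groups. -/
def KP (Y : Scheme.{0}) (m : ℕ) : Y.Opensᵒᵖ ⥤ AddCommGrpCat.{0} := Y.presheaf ⋙ khF m

/-- The section `s` and the family `a` agree at the generisations of `x` of codimension zero. -/
def Agree {m : ℕ} {U : X.Opens} {x : X} (hx : x ∈ U) (s : KG Γ(X, U) m)
    (a : ∀ y : X, Kr (X.residueField y)) : Prop :=
  ∀ y (h : y ⤳ x), ringKrullDim (X.presheaf.stalk y) = 0 →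
    ap (rt (.refl _) (X.evaluation U y (h.mem_open U.2 hx)).hom) (val s) =
      ap (cst (X.residueField y)) (a y)

variable (X) in
/-- The Gersten complex of weight `m` is exact on the stalk at every point. -/
def Gersten (m : ℕ) : Prop := ∀ x : X,
  (∀ (U : X.Opens) (hx : x ∈ U) (s : KG Γ(X, U) m), Agree hx s (fun _ => 0) →
    ∃ (V : X.Opens) (_ : x ∈ V) (i : V ⟶ U), khmap (X.presheaf.map i.op).hom m s = 0) ∧
  (∀ a, Deg x 0 m a → ((∀ z, z ⤳ x → dd a z = 0) ↔
    ∃ (U : X.Opens) (hx : x ∈ U) (s : KG Γ(X, U) m), Agree hx s (co a))) ∧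
  ∀ j i a, j + 1 + i = m → Deg x (j + 1) i a → ((∀ z, z ⤳ x → dd a z = 0) ↔
    ∃ b, Deg x j (i + 1) b ∧ ∀ z, z ⤳ x → co a z = dd b z)

end Gersten

section Restriction

variable {X Y Z : Scheme.{0}}

/-- The improved Milnor K-sheaf. -/
def KS (Y : Scheme.{0}) (m : ℕ) : AbSheaf Y := (presheafToSheaf _ _).obj (KP Y m)

/-- The direct image of the improved Milnor K-sheaf. -/
def KD (g : Y ⟶ X) (m : ℕ) : AbSheaf X := (TopCat.Sheaf.pushforward _ g.base).obj (KS Y m)

/-- Pull-back of sections along `h`. -/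
def pull (h : Z ⟶ Y) (m : ℕ) : KS Y m ⟶ KD h m :=
  ⟨sheafifyLift _ (Functor.whiskerRight h.c (khF m) ≫
    Functor.whiskerLeft (Opens.map h.base).op (toSheafify _ (KP Z m))) (KD h m).2⟩

/-- Pull-back along `h` between direct images. -/
def pullD (g : Y ⟶ X) (h : Z ⟶ Y) (m : ℕ) : KD g m ⟶ KD (h ≫ g) m :=
  (TopCat.Sheaf.pushforward _ g.base).map (pull h m)

/-- Zariski cohomology in degree `d`. -/
def HH (X : Scheme.{0}) (d : ℕ) : AbSheaf X ⥤ AddCommGrpCat.{0} :=
  @Sheaf.functorH.{0} _ _ _ (hasSh X) (hasE X) d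

variable {A : Type} [CommRing A] (f : X ⟶ Spec (.of A)) (π : A) (d : ℕ)

/-- The transition map from level `n + 1` to level `n`. -/
def tr (n : ℕ) : KD (thick f π (n + 1)) d ⟶ KD (thick f π n) d :=
  pullD (thick f π (n + 1)) (step f π n) d ≫ eqToHom (by rw [step_thick])

/-- The quotient by the multiples of `q`. -/
def Mod (q : ℕ) (G : AddCommGrpCat.{0}) : Type := G ⧸ (nsmulAddMonoidHom q : G →+ G).range

/-- The induced map on the quotients. -/
def mq (q : ℕ) {G H : AddCommGrpCat.{0}} (φ : G ⟶ H) (x : Mod q G) : Mod q H := modq q φ.hom x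

/-- The maps `ρ n` from `C` to the tower `H` are bijective modulo `q` for large `n`, `C / q` is
the limit of the `H n / q`, and `C / q` maps onto the limit of the `H n` modulo `q`. -/
def IsoLim (C : AddCommGrpCat.{0}) (H : ℕ → AddCommGrpCat.{0}) (t : ∀ n, H (n + 1) ⟶ H n)
    (ρ : ∀ n, C ⟶ H n) (q : ℕ) : Prop :=
  (∃ n₀, ∀ n, n₀ ≤ n → Function.Bijective (mq q (ρ n))) ∧
    (∀ y : ∀ n, Mod q (H n), (∀ n, mq q (t n) (y (n + 1)) = y n) →
      ∃! c, ∀ n, mq q (ρ n) c = y n) ∧
    ∀ y : ∀ n, H n, (∀ n, (t n).hom (y (n + 1)) = y n) → ∃ (c : C) (z : ∀ n, H n),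
      (∀ n, (t n).hom (z (n + 1)) = z n) ∧ ∀ n, y n = (ρ n).hom c + q • z n

end Restriction

end

end Pool.Agent.KEW.S
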