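import Mathlib.Algebra.CharZero.Infinite
import Mathlib.Tactic.Monotonicity.Lemmas
import Mathlib.Algebra.GroupWithZero.Submonoid.CancelMulZero
import Mathlib.Data.Int.ConditionallyCompleteOrder
import Mathlib.Data.Int.Star
import Mathlib.Algebra.Order.Ring.Star
import Mathlib.RingTheory.PicardGroup
import Mathlib.RingTheory.IntegralClosure.GoingDown
import Mathlib.RingTheory.Valuation.LocalSubring
import Mathlib.Combinatorics.SimpleGraph.Basic
import Mathlib.RingTheory.Ideal.Quotient.HasFiniteQuotients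
import Mathlib.RingTheory.TotallySplit
import Mathlib.RingTheory.Etale.Weakly
import Mathlib.RingTheory.KrullDimension.Regular
import Pool.Agent.MP_55d974_ag.kew.Deep
import Pool.Agent.MP_55d974_ag.coh.Tow
import Pool.Agent.MP_55d974_ag.kew.SDefs

-- ======== part 0: formerly Pool.Agent.MP_55d974_ag.kew.Hart
section MrgPart0

/-! PROJECT KEW: height one primes of normal noetherian domains. -/

namespace Pool.Agent.KEW

open IsLocalRing

variable {E : Type} [Field E]

theorem hart_mem (D : Subring E) [IsNoetherianRing D] [IsIntegrallyClosedIn D E] (z : E)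
    (Q : Ideal D) (hQ : Q ≠ ⊥) (h : ∀ q ∈ Q, ∃ q' ∈ Q, z * (q : E) = (q' : E)) : z ∈ D := by
  have hint : IsIntegral D z := by
    refine isIntegral_of_smul_mem_submodule (M := E) (Submodule.map (Algebra.linearMap D E) Q)
      ?_ ((IsNoetherian.noetherian Q).map _) z ?_
    · intro h0
      apply hQ
      refine eq_bot_iff.2 fun q hq => ?_
      have : (Algebra.linearMap D E) q ∈ Submodule.map (Algebra.linearMap D E) Q :=
        Submodule.mem_map_of_mem hq
      rw [h0, Submodule.mem_bot] at this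
      exact Subtype.ext this
    · rintro _ ⟨q, hq, rfl⟩
      obtain ⟨q', h1, h2⟩ := h q hq
      exact ⟨q', h1, h2.symm⟩
  obtain ⟨y, hy⟩ := (IsIntegrallyClosedIn.isIntegral_iff (R := D) (A := E)).1 hint
  rw [← hy]
  exact y.2

/-- The ideal of denominators of `g`. -/
def hartDen (D : Subring E) (g : E) : Ideal D where
  carrier := {s | (s : E) * g ∈ D}
  add_mem' {a b} ha hb := by
    have : ((a + b : D) : E) * g = a * g + b * g := by push_cast; ring
    change ((a + b : D) : E) * g ∈ D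
    rw [this]
    exact D.add_mem ha hb
  zero_mem' := by
    change ((0 : D) : E) * g ∈ D
    simp
  smul_mem' c s hs := by
    change ((c * s : D) : E) * g ∈ D
    have : ((c * s : D) : E) * g = c * (s * g) := by push_cast; ring
    rw [this]
    exact D.mul_mem c.2 hs

theorem mem_hartDen (D : Subring E) (g : E) (s : D) : s ∈ hartDen D g ↔ (s : E) * g ∈ D := Iff.rfl

theorem hart_ass (D : Subring E) [IsNoetherianRing D] (g : E) (P : Ideal D)
    (hP : P ∈ (hartDen D g).minimalPrimes) : ∃ t : D, hartDen D (t * g) = P := by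
  have hPp : P.IsPrime := hP.1.1
  obtain ⟨J, ⟨t, rfl, ht⟩, hmax⟩ := set_has_maximal_iff_noetherian.2
    (inferInstance : IsNoetherian D D) {J | ∃ t : D, J = hartDen D (t * g) ∧ J ≤ P}
    ⟨_, 1, rfl, by simpa using hP.1.2⟩
  have hle : ∀ u : D, hartDen D (t * g) ≤ hartDen D ((u * t : D) * g) := by
    intro u s hs
    rw [mem_hartDen] at hs ⊢
    have : (s : E) * ((u * t : D) * g) = u * (s * (t * g)) := by push_cast; ring
    rw [this]
    exact D.mul_mem u.2 hs
  have heq : ∀ u : D, hartDen D ((u * t : D) * g) ≤ P →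
      hartDen D ((u * t : D) * g) ≤ hartDen D (t * g) := by
    intro u hu
    by_contra hc
    exact hmax _ ⟨u * t, rfl, hu⟩ (lt_of_le_of_ne (hle u) fun e => hc e.ge)
  have hprime : (hartDen D (t * g)).IsPrime := by
    refine ⟨fun e => hPp.ne_top (top_le_iff.1 (e ▸ ht)), fun {x y} hxy => ?_⟩
    by_cases hx : hartDen D ((x * t : D) * g) ≤ P
    · refine Or.inr (heq x hx ?_)
      rw [mem_hartDen] at hxy ⊢
      convert hxy using 1
      push_cast; ring
    · obtain ⟨u, hu1, hu2⟩ := SetLike.not_le_iff_exists.1 hx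
      refine Or.inl (heq u (fun w hw => ?_) ?_)
      · have : w * u ∈ hartDen D (t * g) := by
          rw [mem_hartDen] at hw ⊢
          convert hw using 1
          push_cast; ring
        exact (hPp.mem_or_mem (ht this)).resolve_right hu2
      · rw [mem_hartDen] at hu1 ⊢
        convert hu1 using 1
        push_cast; ring
  refine ⟨t, le_antisymm ht (hP.2 ⟨hprime, fun s hs => ?_⟩ ht)⟩
  rw [mem_hartDen] at hs ⊢
  have : (s : E) * (t * g) = t * (s * g) := by ring
  rw [this]
  exact D.mul_mem t.2 hs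

theorem hart_den (D : Subring E) [IsNoetherianRing D] [IsIntegrallyClosedIn D E]
    (g : E) (I P : Ideal D) (hI : ∀ s : D, s ∈ I ↔ s * g ∈ D) (hP : P ∈ I.minimalPrimes)
    (Q : Ideal D) (hQ : Q.IsPrime) (hlt : Q < P) : Q = ⊥ := by
  have hPp : P.IsPrime := hP.1.1
  obtain rfl : I = hartDen D g := Ideal.ext hI
  obtain ⟨t, ht⟩ := hart_ass D g P hP
  set z : E := t * g with hz
  have hzD : z ∉ D := fun h => hPp.ne_top ((Ideal.eq_top_iff_one _).2 (by
    rw [← ht, mem_hartDen]; simpa using h))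
  have hmem : ∀ p ∈ P, (p : E) * z ∈ D := fun p hp => by
    rw [← ht] at hp
    exact hp
  have hP0 : P ≠ ⊥ := fun e => not_lt_bot (e ▸ hlt)
  obtain ⟨s, hs, hs'⟩ : ∃ s, ∃ hs : s ∈ P, (⟨_, hmem s hs⟩ : D) ∉ P := by
    by_contra hc
    push Not at hc
    exact hzD (hart_mem D z P hP0 fun q hq => ⟨_, hc q hq, mul_comm _ _⟩)
  obtain ⟨p₀, hp₀, hp₀'⟩ := SetLike.exists_of_lt hlt
  have hsQ : s ∉ Q := fun h => by
    have : p₀ * ⟨_, hmem s hs⟩ = s * ⟨_, hmem p₀ hp₀⟩ := Subtype.ext (by push_cast; ring)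
    have h2 : p₀ * ⟨_, hmem s hs⟩ ∈ Q := this ▸ Q.mul_mem_right _ h
    exact (hQ.mem_or_mem h2).elim hp₀' fun h3 => hs' (hlt.le h3)
  by_contra h0
  refine hzD (hart_mem D z Q h0 fun q hq => ⟨⟨_, hmem q (hlt.le hq)⟩, ?_, mul_comm _ _⟩)
  have : s * ⟨_, hmem q (hlt.le hq)⟩ = q * ⟨_, hmem s hs⟩ := Subtype.ext (by push_cast; ring)
  have h2 : s * ⟨_, hmem q (hlt.le hq)⟩ ∈ Q := this ▸ Q.mul_mem_right _ hq
  exact (hQ.mem_or_mem h2).resolve_left hsQ

theorem hart_dvr (D : Subring E) [IsNoetherianRing D] [IsIntegrallyClosedIn D E]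
    [IsFractionRing D E] (P : Ideal D) (hP : P.IsPrime) (h0 : P ≠ ⊥)
    (h1 : ∀ Q : Ideal D, Q.IsPrime → Q < P → Q = ⊥) :
    ∃ V, IsAt D P V ∧ IsDiscreteValuationRing V := by
  have hle : P.primeCompl ≤ nonZeroDivisors D := P.primeCompl_le_nonZeroDivisors
  let R : Subalgebra D E := Localization.subalgebra.ofField E P.primeCompl hle
  have : IsLocalization.AtPrime R P := Localization.subalgebra.isLocalization_ofField E _ hle
  have : IsLocalRing R := IsLocalization.AtPrime.isLocalRing R P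
  have : IsNoetherianRing R := IsLocalization.isNoetherianRing P.primeCompl R inferInstance
  have : IsIntegrallyClosed D := (isIntegrallyClosed_iff_isIntegrallyClosedIn E).2 inferInstance
  have hic : IsIntegrallyClosed R := isIntegrallyClosed_of_isLocalization R _ hle
  have hm : maximalIdeal R ≠ ⊥ := fun e => by
    apply h0
    rw [← IsLocalization.AtPrime.under_maximalIdeal R P, e]
    exact Ideal.comap_bot_of_injective _ (IsLocalization.injective R hle)
  have hf : ¬ IsField R := fun h => hm (isField_iff_maximalIdeal_eq.1 h)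
  have hd : IsDiscreteValuationRing R := by
    suffices hu : IsIntegrallyClosed R ∧ ∃! J : Ideal R, J ≠ ⊥ ∧ J.IsPrime from
      ((IsDiscreteValuationRing.TFAE R hf).out 3 0).1 hu
    refine ⟨hic, maximalIdeal R, ⟨hm, inferInstance⟩, fun J hJ => ?_⟩
    have hJp := hJ.2
    have hc : J.under D ≤ P := by
      rw [← IsLocalization.AtPrime.under_maximalIdeal R P]
      exact Ideal.comap_mono (le_maximalIdeal hJp.ne_top)
    rcases hc.lt_or_eq with hlt | he
    · exfalso
      apply hJ.1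
      rw [← IsLocalization.map_under P.primeCompl R J, h1 _ inferInstance hlt, Ideal.map_bot]
    · rw [← IsLocalization.map_under P.primeCompl R J, he]
      exact IsLocalization.AtPrime.map_eq_maximalIdeal P R
  refine ⟨ValuationSubring.ofSubring R.toSubring fun x => ?_, fun x => ?_, hd⟩
  · rcases ValuationRing.isInteger_or_isInteger R x with ⟨y, hy⟩ | ⟨y, hy⟩
    · exact Or.inl (hy ▸ y.2)
    · exact Or.inr (hy ▸ y.2)
  · change (∃ (a s : D) (_ : s ∈ P.primeCompl), x = algebraMap D E a * (algebraMap D E s)⁻¹) ↔ _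
    constructor
    · rintro ⟨a, s, hs, rfl⟩
      have hs0 : (s : E) ≠ 0 := fun e => hs (by rw [show s = 0 from Subtype.ext e]; exact P.zero_mem)
      refine ⟨s, a, hs, ?_⟩
      change (s : E) * (a * (s : E)⁻¹) = a
      field_simp
    · rintro ⟨s, c, hs, h⟩
      have hs0 : (s : E) ≠ 0 := fun e => hs (by rw [show s = 0 from Subtype.ext e]; exact P.zero_mem)
      refine ⟨c, s, hs, ?_⟩
      change x = c * (s : E)⁻¹
      rw [← h]
      field_simp

theorem hartS : HartS :=
  ⟨fun D _ _ g I P hI hP Q hQ hlt => hart_den D g I P hI hP Q hQ hlt,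
    fun D _ _ _ P hP h0 h1 => hart_dvr D P hP h0 h1⟩

end Pool.Agent.KEW

end MrgPart0

-- ======== part 1: formerly Pool.Agent.MP_55d974_ag.kew.Reg
section MrgPart1

/-! PROJECT KEW: regular local rings are domains. -/

open IsLocalRing

namespace Pool.Agent.KEW

variable {R : Type} [CommRing R]

theorem span_exch [IsLocalRing R] [IsNoetherianRing R] {x : R} (hx : x ∈ maximalIdeal R)
    (h2 : x ∉ maximalIdeal R ^ 2) : ∃ t : Finset R, t.card + 1 = (maximalIdeal R).spanFinrank ∧
      Ideal.span {x} ⊔ Ideal.span (t : Set R) = maximalIdeal R := by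
  classical
  obtain ⟨s, hs, hm⟩ := Submodule.FG.exists_span_finset_card_eq_spanFinrank
    (IsNoetherian.noetherian (maximalIdeal R))
  have hs' : ∀ a ∈ s, a ∈ maximalIdeal R := fun a ha => hm ▸ Submodule.subset_span ha
  obtain ⟨c, -, hc⟩ := Submodule.mem_span_finset.1 (hm ▸ hx : x ∈ Submodule.span R (s : Set R))
  obtain ⟨a, ha, hu⟩ : ∃ a ∈ s, IsUnit (c a) := by
    by_contra hn
    push Not at hn
    refine h2 (hc ▸ Ideal.sum_mem _ fun b hb => ?_)
    rw [pow_two]
    exact Ideal.mul_mem_mul (hn b hb) (hs' b hb)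
  refine ⟨s.erase a, by rw [Finset.card_erase_add_one ha, hs], le_antisymm (sup_le ?_ ?_) ?_⟩
  · exact (Ideal.span_singleton_le_iff_mem _).2 hx
  · exact Ideal.span_le.2 fun b hb => hs' b (Finset.mem_of_mem_erase hb)
  · refine hm.ge.trans (Submodule.span_le.2 fun b hb => ?_)
    by_cases e : b = a
    · subst e
      rw [← Finset.add_sum_erase _ _ ha] at hc
      refine (Ideal.unit_mul_mem_iff_mem _ hu).1 ?_
      rw [← smul_eq_mul, eq_sub_of_add_eq hc]
      refine sub_mem (Ideal.mem_sup_left (Ideal.mem_span_singleton_self x))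
        (Ideal.mem_sup_right (Ideal.sum_mem _ fun b hb => ?_))
      exact Ideal.mul_mem_left _ _ (Ideal.subset_span hb)
    · exact Ideal.mem_sup_right (Ideal.subset_span (Finset.mem_erase.2 ⟨e, hb⟩))

theorem dim_nat (R : Type) [CommRing R] [IsLocalRing R] [IsNoetherianRing R] :
    ∃ n : ℕ, ringKrullDim R = n := by
  obtain ⟨n, hn⟩ := ENat.ne_top_iff_exists.1
    (Ideal.height_ne_top (maximalIdeal.isMaximal R).ne_top)
  exact ⟨n, by rw [← maximalIdeal_height_eq_ringKrullDim, ← hn]; rfl⟩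

theorem reg_quot' [IsRegularLocalRing R] {x : R} (hx : x ∈ maximalIdeal R)
    (h2 : x ∉ maximalIdeal R ^ 2) : ∃ _ : IsRegularLocalRing (R ⧸ Ideal.span {x}),
      (maximalIdeal (R ⧸ Ideal.span {x})).spanFinrank + 1 = (maximalIdeal R).spanFinrank := by
  classical
  obtain ⟨t, ht, hm⟩ := span_exch hx h2
  have hle : Ideal.span {x} ≤ maximalIdeal R := (Ideal.span_singleton_le_iff_mem _).2 hx
  have : Nontrivial (R ⧸ Ideal.span {x}) :=
    Ideal.Quotient.nontrivial_iff.2 (ne_top_of_le_ne_top (maximalIdeal.isMaximal R).ne_top hle)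
  have : IsLocalRing (R ⧸ Ideal.span {x}) :=
    .of_surjective' (Ideal.Quotient.mk _) Ideal.Quotient.mk_surjective
  have e : maximalIdeal (R ⧸ Ideal.span {x}) =
      Ideal.span (t.image (Ideal.Quotient.mk (Ideal.span {x})) : Set _) := by
    rw [← map_maximalIdeal_of_surjective (Ideal.Quotient.mk (Ideal.span {x}))
      Ideal.Quotient.mk_surjective, ← hm, Ideal.map_sup, Ideal.map_quotient_self, bot_sup_eq,
      Ideal.map_span, Finset.coe_image]
  have h3 : (maximalIdeal (R ⧸ Ideal.span {x})).spanFinrank ≤ t.card := by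
    rw [e]
    refine (Submodule.spanFinrank_span_le_ncard_of_finite (Finset.finite_toSet _)).trans ?_
    rw [Set.ncard_coe_finset]
    exact Finset.card_image_le
  have h4 := ringKrullDim_le_ringKrullDim_quotient_add_spanFinrank (Ideal.span {x})
    (ringJacobson_eq_maximalIdeal R ▸ hle)
  have h5 : (Ideal.span {x}).spanFinrank ≤ 1 :=
    (Submodule.spanFinrank_span_le_ncard_of_finite (Set.finite_singleton x)).trans (by simp)
  have h6 := ringKrullDim_le_spanFinrank_maximalIdeal (R := R ⧸ Ideal.span {x})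
  rw [← IsRegularLocalRing.spanFinrank_maximalIdeal, ← ht] at h4
  obtain ⟨n, hn⟩ := dim_nat (R ⧸ Ideal.span {x})
  rw [hn] at h4 h6
  norm_cast at h4 h6
  refine ⟨.of_spanFinrank_maximalIdeal_le _ ?_, by omega⟩
  rw [hn]
  norm_cast
  omega

/-- The quotient of a regular local ring by a regular parameter. -/
theorem reg_quot [IsRegularLocalRing R] {x : R} (hx : x ∈ maximalIdeal R)
    (h2 : x ∉ maximalIdeal R ^ 2) : IsRegularLocalRing (R ⧸ Ideal.span {x}) ∧
      ringKrullDim (R ⧸ Ideal.span {x}) + 1 = ringKrullDim R := by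
  obtain ⟨h, e⟩ := reg_quot' hx h2
  refine ⟨h, ?_⟩
  rw [← IsRegularLocalRing.spanFinrank_maximalIdeal, ← IsRegularLocalRing.spanFinrank_maximalIdeal,
    ← e]
  norm_cast

theorem reg_dom_aux (n : ℕ) : ∀ (R : Type) [CommRing R] [IsRegularLocalRing R],
    (maximalIdeal R).spanFinrank = n → IsDomain R := by
  induction n with
  | zero =>
    intro R _ _ h
    rw [Submodule.spanFinrank_eq_zero_iff_eq_bot (IsNoetherian.noetherian _)] at h
    exact (isField_iff_maximalIdeal_eq.2 h).isDomain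
  | succ n ih =>
    intro R _ _ h
    have hj : maximalIdeal R ≤ Ideal.jacobson ⊥ := maximalIdeal_le_jacobson _
    obtain ⟨x, hx, hn⟩ : ∃ x ∈ maximalIdeal R,
        ∀ I ∈ insert (maximalIdeal R ^ 2) (minimalPrimes R), x ∉ I := by
      by_contra hc
      push Not at hc
      obtain ⟨I, hI, hle⟩ := (Ideal.subset_union_prime_finite
        ((minimalPrimes.finite_of_isNoetherianRing R).insert (maximalIdeal R ^ 2)) (f := id)
        (maximalIdeal R ^ 2) (maximalIdeal R ^ 2) (I := maximalIdeal R)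
        fun I hI h1 _ => (hI.resolve_left h1).1.1).1 fun x hx => by
          obtain ⟨I, hI, hxI⟩ := hc x hx
          exact Set.mem_biUnion hI hxI
      rcases hI with rfl | hI
      · have := Submodule.eq_bot_of_le_smul_of_le_jacobson_bot _ _ (IsNoetherian.noetherian _)
          (hle.trans (pow_two _).le) hj
        rw [this, Submodule.spanFinrank_bot] at h
        omega
      · have := hI.1.1
        have e : maximalIdeal R = I := le_antisymm hle (le_maximalIdeal this.ne_top)
        have h1 : (maximalIdeal R).height = 0 := by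
          rw [e]
          exact (Ideal.height_eq_zero_iff).2 hI
        have h2 := IsRegularLocalRing.spanFinrank_maximalIdeal (R := R)
        rw [← maximalIdeal_height_eq_ringKrullDim, h1, h] at h2
        norm_cast at h2
    obtain ⟨hr, e⟩ := reg_quot' hx (hn _ (Set.mem_insert _ _))
    have := ih (R ⧸ Ideal.span {x}) (by omega)
    have hp : (Ideal.span {x}).IsPrime := (Ideal.Quotient.isDomain_iff_prime _).1 this
    obtain ⟨p, hp1, hp2⟩ := Ideal.exists_minimalPrimes_le (bot_le : ⊥ ≤ Ideal.span {x})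
    have hb : p = ⊥ := Submodule.eq_bot_of_le_smul_of_le_jacobson_bot _ _
      (IsNoetherian.noetherian _) (fun y hy => by
        obtain ⟨c, rfl⟩ := Ideal.mem_span_singleton.1 (hp2 hy)
        exact Ideal.mul_mem_mul hx
          ((hp1.1.1.mem_or_mem hy).resolve_left (hn _ (Set.mem_insert_of_mem _ hp1)))) hj
    have : (⊥ : Ideal R).IsPrime := hb ▸ hp1.1.1
    exact IsDomain.of_bot_isPrime R

/-- A regular local ring is a domain. -/
theorem reg_dom (R : Type) [CommRing R] [IsRegularLocalRing R] : IsDomain R :=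
  reg_dom_aux _ R rfl

end Pool.Agent.KEW

end MrgPart1

-- ======== part 2: formerly Pool.Agent.MP_55d974_ag.kew.Dim
section MrgPart2

/-! PROJECT KEW: dimension theory of the points. -/

open AlgebraicGeometry CategoryTheory TopologicalSpace Opposite IsLocalRing

namespace Pool.Agent.KEW

variable {A : Type} [CommRing A] {X : Scheme.{0}} (f : X ⟶ Spec (.of A)) {π : A} {d : ℕ}

theorem cod_of {y : X} {n : ℕ} (h : ringKrullDim (X.presheaf.stalk y) = n) : cod y = n := by
  rw [cod, h]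
  rfl

theorem gz_sA {y z : X} (h : y ⤳ z) (c : A) : gz h (sA f z c) = aK f y c :=
  congrArg (X.residue y).hom (X.presheaf.germ_stalkSpecializes_apply _ h _)

theorem aK_eq_zero {z : X} {c : A} : aK f z c = 0 ↔ sA f z c ∈ maximalIdeal _ :=
  residue_eq_zero_iff _

theorem nu_aK {y z : X} (h : y ⤳ z) (c : A) : Nu h (aK f y c) ↔ aK f z c = 0 := by
  rw [aK_eq_zero]
  refine ⟨fun ⟨a, ha, e⟩ => ?_, fun hc => ⟨_, hc, gz_sA f h c⟩⟩
  have h1 : sA f z c - a ∈ RingHom.ker (gz h) := by
    rw [RingHom.mem_ker, map_sub, e, gz_sA, sub_self]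
  simpa using add_mem (le_maximalIdeal (RingHom.ker_ne_top _) h1) ha

theorem sA_flat [Flat f] (x : X) : (sA f x).Flat := by
  have e : sA f x = (f.stalkMap x).hom.comp (((Spec (.of A)).presheaf.germ ⊤ (f x) trivial).hom.comp
      (Scheme.ΓSpecIso (.of A)).inv.hom) :=
    RingHom.ext fun c => (f.germ_stalkMap_apply ⊤ x trivial _).symm
  rw [e]
  refine RingHom.Flat.comp (RingHom.Flat.comp (.of_bijective
    (ConcreteCategory.bijective_of_isIso (Scheme.ΓSpecIso (.of A)).inv)) ?_) (Flat.stalkMap f x)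
  let := (Spec (.of A)).presheaf.algebra_section_stalk (U := ⊤) ⟨f x, trivial⟩
  have := (isAffineOpen_top (Spec (.of A))).isLocalization_stalk ⟨f x, trivial⟩
  exact IsLocalization.flat _ ((isAffineOpen_top (Spec (.of A))).primeIdealOf
    ⟨f x, trivial⟩).asIdeal.primeCompl

theorem sA_ne_zero [Flat f] [IsDomain A] (x : X) {c : A} (hc : c ≠ 0) : sA f x c ≠ 0 := fun h => by
  have := sA_flat f x
  algebraize [sA f x]
  refine one_ne_zero ((Module.Flat.isSMulRegular_of_nonZeroDivisors (M := X.presheaf.stalk x)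
    (mem_nonZeroDivisors_of_ne_zero hc)) (a₁ := 1) (a₂ := 0) ?_)
  simp only [Algebra.smul_def, mul_one, mul_zero]
  exact h

theorem cod_lt (he : ∀ y : X, ringKrullDim (X.presheaf.stalk y) = cod y) {y z : X} (h : y ⤳ z)
    (hn : y ≠ z) : cod y < cod z := by
  have h1 : ∀ x : X, Order.coheight x = cod x := fun x =>
    WithBot.coe_injective ((ringKrullDim_stalk_eq_coheight x).symm.trans (he x))
  have h2 : z < y := lt_of_le_not_ge h fun h' => hn (Specializes.antisymm h h').eq
  have := Order.coheight_strictAnti h2 (by simp [h1])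
  rw [h1, h1] at this
  exact_mod_cast this

theorem gen_pt (x : X) [IsDomain (X.presheaf.stalk x)] :
    ∃ w, w ⤳ x ∧ ∀ y, y ⤳ x → w ⤳ y := by
  have h : ∀ y, y ⤳ x ↔ y ∈ Set.range (X.fromSpecStalk x) := fun y => by
    rw [Scheme.range_fromSpecStalk]
    rfl
  refine ⟨X.fromSpecStalk x (⊥ : PrimeSpectrum _), (h _).2 ⟨_, rfl⟩, fun y hy => ?_⟩
  obtain ⟨p, rfl⟩ := (h y).1 hy
  exact ((PrimeSpectrum.le_iff_specializes _ _).1 bot_le).map (X.fromSpecStalk x).continuous

theorem inf_of_trdeg {K : Type} [Field K] (S : Subring K) (h : Algebra.trdeg S K ≠ 0) :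
    Infinite K := by
  refine not_finite_iff_infinite.1 fun _ => h ?_
  have : Algebra.IsAlgebraic S K := inferInstance
  exact trdeg_eq_zero

variable [IsDomain A] [IsDiscreteValuationRing A]

theorem aK_inj (hπ : Irreducible π) {w : X} (h : Hor f π w) : Function.Injective (aK f w) := by
  refine (injective_iff_map_eq_zero _).2 fun c hc => by_contra fun h0 => h ?_
  obtain ⟨n, u, rfl⟩ := IsDiscreteValuationRing.eq_unit_mul_pow_irreducible h0 hπ
  rw [map_mul, map_pow] at hc
  exact eq_zero_of_pow_eq_zero ((mul_eq_zero.1 hc).resolve_left (u.isUnit.map _).ne_zero)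

theorem dim_hor (H : Hyp f π d) {w : X} (h : Hor f π w) :
    ∃ b : ℕ, cod w + b = d ∧ Algebra.trdeg (aK f w).range (X.residueField w) = b := by
  obtain ⟨a, b, h1, h2, h3⟩ := H.rel w
  refine ⟨b, ?_, h3⟩
  have e : (RingHom.ker ((X.residue w).hom.comp (sA f w))).map (sA f w) = ⊥ := by
    rw [show RingHom.ker ((X.residue w).hom.comp (sA f w)) = ⊥ from
      (RingHom.injective_iff_ker_eq_bot _).1 (aK_inj f H.irr h), Ideal.map_bot]
  rw [e, ringKrullDim_eq_of_ringEquiv (RingEquiv.quotientBot _)] at h2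
  rw [cod_of h2, h1]

theorem dim_ver (H : Hyp f π d) {x : X} (h : ¬ Hor f π x) :
    ∃ b : ℕ, cod x + b = d + 1 ∧ b ≤ d ∧ Algebra.trdeg (aK f x).range (X.residueField x) = b := by
  obtain ⟨a, b, h1, h2, h3⟩ := H.rel x
  refine ⟨b, ?_, by omega, h3⟩
  have h0 : aK f x π = 0 := not_not.1 h
  have := H.reg x
  have := reg_dom (X.presheaf.stalk x)
  have := H.flat
  have e : (RingHom.ker ((X.residue x).hom.comp (sA f x))).map (sA f x) =
      Ideal.span {sA f x π} := by
    have e1 : RingHom.ker ((X.residue x).hom.comp (sA f x)) = Ideal.span {π} := le_antisymm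
      ((le_maximalIdeal (RingHom.ker_ne_top _)).trans H.irr.maximalIdeal_eq.le)
      ((Ideal.span_singleton_le_iff_mem _).2 h0)
    rw [e1, Ideal.map_span, Set.image_singleton]
  have h4 := ringKrullDim_quotient_span_singleton_succ_eq_ringKrullDim_of_mem_nonZeroDivisors
    (mem_nonZeroDivisors_of_ne_zero (sA_ne_zero f x H.irr.ne_zero)) ((aK_eq_zero f).1 h0)
  rw [e] at h2
  rw [h2] at h4
  rw [cod_of (n := a + 1) (h4.symm.trans (by norm_cast))]
  omega

theorem dim' : All Dim := by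
  intro A _ _ _ _ _ X f π d H
  have he : ∀ y : X, ringKrullDim (X.presheaf.stalk y) = cod y := fun y => by
    have := H.reg y
    obtain ⟨n, hn⟩ := dim_nat (X.presheaf.stalk y)
    rw [cod_of hn, hn]
  have hle : ∀ y : X, cod y ≤ d + 1 := fun y => by
    by_cases h : Hor f π y
    · obtain ⟨b, h1, -⟩ := dim_hor f H h
      omega
    · obtain ⟨b, h1, -⟩ := dim_ver f H h
      omega
  have hv : ∀ x, ¬ Hor f π x →
      dl d x ≤ d ∧ Algebra.trdeg (aK f x).range (X.residueField x) = dl d x := fun x h => by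
    obtain ⟨b, h1, h2, h3⟩ := dim_ver f H h
    rw [show dl d x = b by unfold dl; omega]
    exact ⟨h2, h3⟩
  refine ⟨he, fun y => ?_, fun {y z} h hn => ?_, fun w h => ?_, hv, fun x => ?_, gz_sA f,
    fun y h => ?_, fun w => aK_inj f H.irr, fun h => (nu_aK f h π).trans not_not.symm,
    fun {y z} h h1 h2 => h1 ((nu_aK f h π).1 ⟨0, zero_mem _, (map_zero _).trans h2.symm⟩), ?_⟩
  · have := hle y
    unfold dl
    omega
  · have := hle z
    have := cod_lt he h hn
    unfold dl
    omega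
  · obtain ⟨b, h1, h2⟩ := dim_hor f H h
    rw [show dl d w = b + 1 by unfold dl; omega]
    exact ⟨by omega, h2⟩
  · have := H.reg x
    have := reg_dom (X.presheaf.stalk x)
    obtain ⟨w, h1, h2⟩ := gen_pt x
    refine ⟨w, h1, cod_of ?_, fun w' h3 h4 => by_contra fun hn => ?_⟩
    · rw [ringKrullDim_stalk_eq_coheight, Order.coheight_eq_zero.2 fun y hy =>
        h2 y (Specializes.trans hy h1)]
      rfl
    · have := cod_lt he (h2 w' h3) (Ne.symm hn)
      omega
  · by_cases hy : Hor f π y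
    · exact .of_injective _ (aK_inj f H.irr hy)
    · refine inf_of_trdeg (aK f y).range ?_
      rw [(hv y hy).2]
      norm_cast
      omega
  · have e : {y | ¬ Hor f π y} =
        (X.basicOpen (((Scheme.ΓSpecIso (.of A)).inv ≫ f.appTop).hom π) : Set X)ᶜ :=
      Set.ext fun y => not_not.trans (X.evaluation_eq_zero_iff_notMem_basicOpen (U := ⊤) y trivial _)
    rw [e]
    exact (X.basicOpen _).2.isClosed_compl

theorem dim (_h1 : PtsS) : All Dim := dim'

end Pool.Agent.KEW

end MrgPart2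

-- ======== part 3: formerly Pool.Agent.MP_55d974_ag.kew.PnnB
section MrgPart3

/-! PROJECT KEW, projective Noether normalisation: integrality and finiteness. -/

open IsLocalRing

namespace Pool.Agent.KEW.PnnA

noncomputable section

open Classical

variable {A E : Type} [CommRing A] [Field E] [Algebra A E] {N : ℕ} {τ : Fin (N + 1) → E}

theorem nu_mul {V : ValuationSubring E} {a b : E} (ha : a ∈ V.nonunits) (hb : b ∈ V) :
    a * b ∈ V.nonunits := by
  rw [ValuationSubring.mem_nonunits_iff] at ha ⊢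
  rw [map_mul]
  exact mul_lt_one_of_lt_of_le ha ((V.valuation_le_one_iff b).2 hb)

theorem val_chart (V : ValuationSubring E) (hA : ∀ c, algebraMap A E c ∈ V) {i0} (h0 : τ i0 ≠ 0) :
    ∃ i, Ct A τ V.toSubring i := by
  obtain ⟨i, hi⟩ := Finite.exists_max fun k => V.valuation (τ k)
  have h1 : V.valuation (τ i) ≠ 0 := fun e =>
    h0 ((map_eq_zero V.valuation).1 (le_antisymm (e ▸ hi i0) zero_le))
  refine ⟨i, (map_ne_zero V.valuation).1 h1, B_le hA fun k => ?_⟩
  change τ k / τ i ∈ V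
  rw [← V.valuation_le_one_iff, map_div₀]
  exact div_le_one_of_le₀ (hi k) zero_le

/-- A valuation ring can be refined to one with vertical centre. -/
theorem refine_val [IsLocalRing A] {π : A} (hπ : π ∈ maximalIdeal A) (V : ValuationSubring E)
    (hA : ∀ c, algebraMap A E c ∈ V) : ∃ W : ValuationSubring E, (∀ c, algebraMap A E c ∈ W) ∧
      algebraMap A E π ∈ W.nonunits ∧ V.nonunits ≤ W.nonunits := by
  have hm : ∀ {x y : E} {c d : A}, x - algebraMap A E c ∈ V.nonunits →
      y - algebraMap A E d ∈ V.nonunits → x * y - algebraMap A E (c * d) ∈ V.nonunits := by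
    intro x y c d h1 h2
    have e : x * y - algebraMap A E (c * d) = (x - algebraMap A E c) * (y - algebraMap A E d) +
        (x - algebraMap A E c) * algebraMap A E d + (y - algebraMap A E d) * algebraMap A E c := by
      rw [map_mul]
      ring
    rw [e]
    exact add_mem (add_mem (mul_mem h1 h2) (nu_mul h1 (hA d))) (nu_mul h2 (hA c))
  have ha : ∀ {x y : E} {c d : A}, x - algebraMap A E c ∈ V.nonunits →
      y - algebraMap A E d ∈ V.nonunits → x + y - algebraMap A E (c + d) ∈ V.nonunits := by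
    intro x y c d h1 h2
    have e : x + y - algebraMap A E (c + d) = (x - algebraMap A E c) + (y - algebraMap A E d) := by
      rw [map_add]
      ring
    rw [e]
    exact add_mem h1 h2
  let S : Subring E :=
    { carrier := {x | ∃ c, x - algebraMap A E c ∈ V.nonunits}
      mul_mem' := fun ⟨c, h1⟩ ⟨d, h2⟩ => ⟨c * d, hm h1 h2⟩
      one_mem' := ⟨1, by simp⟩
      add_mem' := fun ⟨c, h1⟩ ⟨d, h2⟩ => ⟨c + d, ha h1 h2⟩
      zero_mem' := ⟨0, by simp⟩
      neg_mem' := fun {x} ⟨c, h1⟩ => ⟨-c, by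
        have e : -x - algebraMap A E (-c) = -(x - algebraMap A E c) := by
          rw [map_neg]
          ring
        rw [e]
        exact neg_mem h1⟩ }
  let I : Ideal S :=
    { carrier := {x | ∃ c ∈ maximalIdeal A, x.1 - algebraMap A E c ∈ V.nonunits}
      add_mem' := fun ⟨c, hc, h1⟩ ⟨d, hd, h2⟩ => ⟨c + d, add_mem hc hd, ha h1 h2⟩
      zero_mem' := ⟨0, zero_mem _, by simp⟩
      smul_mem' := fun ⟨_, c, h1⟩ _ ⟨d, hd, h2⟩ => ⟨c * d, Ideal.mul_mem_left _ _ hd, hm h1 h2⟩ }
  have hI : I ≠ ⊤ := by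
    rw [Ideal.ne_top_iff_one]
    rintro ⟨c, hc, h1⟩
    obtain ⟨u, hu⟩ := isUnit_one_sub_self_of_mem_nonunits c hc
    have h2 := nu_mul h1 (hA ↑u⁻¹)
    have e : ((1 : S).1 - algebraMap A E c) * algebraMap A E ↑u⁻¹ = 1 := by
      rw [OneMemClass.coe_one, ← map_one (algebraMap A E), ← map_sub, ← hu, ← map_mul]
      simp
    rw [e, ValuationSubring.mem_nonunits_iff] at h2
    simp at h2
  obtain ⟨W, h1, h2⟩ := Ideal.image_subset_nonunits_valuationSubring I hI
  exact ⟨W, fun c => h1 ⟨c, by simp⟩, h2 ⟨⟨_, π, by simp⟩, ⟨π, hπ, by simp⟩, rfl⟩,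
    fun x hx => h2 ⟨⟨x, 0, by simpa using hx⟩, ⟨0, zero_mem _, by simpa using hx⟩, rfl⟩⟩

theorem int_of_val (R : Subalgebra A E) {g : E}
    (h : ∀ V : ValuationSubring E, (∀ r ∈ R, r ∈ V) → g ∈ V) : IsIntegral R g := by
  by_contra hg
  obtain ⟨V, h1, h2⟩ := Subring.exists_le_valuationSubring_of_isIntegrallyClosedIn
    (R := (integralClosure R E).toSubring) (x := g) hg
  exact h2 (h V fun r hr => h1 (isIntegral_algebraMap (x := (⟨r, hr⟩ : R))))

variable {π : A} {Z : Type} {O : Z → Subring E} {dl : Z → ℕ} {j : ℕ}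

/-- Forms without a common vertical zero have no common zero at any valuation ring. -/
theorem Dat.noz [IsLocalRing A] (D : Dat τ π O dl j) (hπ : π ∈ maximalIdeal A) {ι : Type} {e : ℕ}
    {F : ι → E} (hF : ∀ k, Form A τ e (F k))
    (hz : ∀ z, ¬ U (O z) (algebraMap A E π) → ∃ k, NV A τ (O z) e (F k))
    (V : ValuationSubring E) {i} (hi : Ct A τ V.toSubring i) :
    ∃ k, F k / τ i ^ e ∉ V.nonunits := by
  by_contra H
  push Not at H
  obtain ⟨W, h1, h2, h3⟩ := refine_val hπ V fun c => hi.2 (alg_mem i c)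
  obtain ⟨l, hl⟩ := val_chart W h1 hi.1
  have hWV : W ≤ V := ValuationSubring.nonunits_le_nonunits.1 h3
  let P : Ideal (B A τ l) := (maximalIdeal W).comap (Subring.inclusion hl.2)
  have hP : ∀ b : B A τ l, b.1 ∈ W.nonunits → b ∈ P := fun b hb =>
    (ValuationSubring.coe_mem_nonunits_iff (a := ⟨b.1, hl.2 b.2⟩)).1 hb
  obtain ⟨z, k1, k2⟩ := D.pt l hl.1 P (Ideal.comap_isPrime _ _)
  obtain ⟨k, hk⟩ := hz z ((k2 ⟨_, alg_mem l π⟩).1 (hP _ h2))
  refine (k2 ⟨_, hF k l hl.1⟩).1 (hP _ (h3 ?_)) (hk l ⟨hl.1, k1⟩)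
  have e1 : F k / τ l ^ e = F k / τ i ^ e * (τ i / τ l) ^ e := by
    have := hi.1
    have := hl.1
    rw [div_pow]
    field_simp
  change F k / τ l ^ e ∈ _
  rw [e1]
  exact nu_mul (H k) (pow_mem (hWV (hl.2 (div_mem l i))) e)

theorem fin_ic [IsDomain A] [IsDiscreteValuationRing A] [CharZero A]
    (inj : Function.Injective (algebraMap A E)) (u : Fin j → E) (s : Set E) [Finite s]
    (hs : ∀ g ∈ s, ∃ a b, IsIntegral (Algebra.adjoin A (Set.range u)) a ∧
      IsIntegral (Algebra.adjoin A (Set.range u)) b ∧ g = a / b)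
    (gen : ∀ M : Subfield E, (∀ c, algebraMap A E c ∈ M) → s ⊆ M → M = ⊤)
    (htr : Algebra.trdeg (algebraMap A E).range E = j) :
    AlgebraicIndependent A u ∧ Module.Finite (Algebra.adjoin A (Set.range u))
      (integralClosure (Algebra.adjoin A (Set.range u)) E) := by
  let R := Algebra.adjoin A (Set.range u)
  let _ := FractionRing.liftAlgebra R E
  have hs' : ∀ g ∈ s, IsIntegral (FractionRing R) g := fun g hg => by
    obtain ⟨a, b, ha, hb, rfl⟩ := hs g hg
    rw [div_eq_mul_inv]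
    exact (ha.tower_top (A := FractionRing R)).mul
      (hb.tower_top (A := FractionRing R)).isAlgebraic.inv.isIntegral
  have hfd := IntermediateField.finiteDimensional_adjoin hs'
  have htop : IntermediateField.adjoin (FractionRing R) s = ⊤ := by
    apply IntermediateField.toSubfield_injective
    refine gen _ (fun c => ?_) (IntermediateField.subset_adjoin _ _)
    have := (IntermediateField.adjoin (FractionRing R) s).algebraMap_mem
      (algebraMap R _ (algebraMap A R c))
    rwa [← IsScalarTower.algebraMap_apply] at this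
  rw [htop] at hfd
  have hfin : FiniteDimensional (FractionRing R) E :=
    IntermediateField.topEquiv.toLinearEquiv.finiteDimensional
  have halg : Algebra.IsAlgebraic R E :=
    (IsFractionRing.comap_isAlgebraic_iff (K := FractionRing R)).2 inferInstance
  have hfs : FaithfulSMul A E := (faithfulSMul_iff_algebraMap_injective A E).2 inj
  have htr' : Algebra.trdeg A E = j := by
    let _ : Algebra A (algebraMap A E).range := (algebraMap A E).rangeRestrict.toAlgebra
    have : IsScalarTower A (algebraMap A E).range E := .of_algebraMap_eq fun _ => rfl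
    have : FaithfulSMul A (algebraMap A E).range :=
      (faithfulSMul_iff_algebraMap_injective _ _).2 fun a b h => inj (congrArg Subtype.val h)
    have : Algebra.IsIntegral A (algebraMap A E).range :=
      Algebra.isIntegral_of_surjective (algebraMap A E).rangeRestrict_surjective
    rw [← trdeg_add_eq A (algebraMap A E).range, htr, trdeg_eq_zero, zero_add]
  have hind : AlgebraicIndependent A u :=
    (Algebra.IsAlgebraic.isTranscendenceBasis_of_le_trdeg_of_finite A u (by simp [htr'])).1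
  refine ⟨hind, ?_⟩
  have : IsIntegrallyClosed R := IsIntegrallyClosed.of_equiv hind.aevalEquiv.toRingEquiv
  have : IsNoetherianRing R := isNoetherianRing_of_ringEquiv _ hind.aevalEquiv.toRingEquiv
  have : CharZero E := charZero_of_injective_algebraMap inj
  have : CharZero (FractionRing R) := (algebraMap (FractionRing R) E).charZero
  exact IsIntegralClosure.finite R (FractionRing R) E _

/-- Projective Noether normalisation, algebraic form. -/
theorem Dat.main [IsDomain A] [IsDiscreteValuationRing A] [CharZero A] (D : Dat τ π O dl j)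
    (hπ : π ∈ maximalIdeal A) (inj : Function.Injective (algebraMap A E)) (x : Z)
    (frac : IsFractionRing (O x) E) (htr : Algebra.trdeg (algebraMap A E).range E = j) :
    ∃ u : Fin j → E, AlgebraicIndependent A u ∧ (∀ k, u k ∈ O x) ∧
      Module.Finite (Algebra.adjoin A (Set.range u))
        (integralClosure (Algebra.adjoin A (Set.range u)) E) ∧
      ∀ c ∈ O x, ∃ s ∈ O x, s ≠ 0 ∧ s⁻¹ ∈ O x ∧ IsIntegral (Algebra.adjoin A (Set.range u)) s ∧
        IsIntegral (Algebra.adjoin A (Set.range u)) (s * c) := by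
  obtain ⟨e, F, he, h1, h2, h3⟩ := D.forms x (j + 1)
  obtain ⟨i, hi⟩ := D.ex x
  have hi0 := hi.1
  have hu := h2 0 i hi
  have hF0 : F 0 ≠ 0 := fun h => hu.2.1 (by simp [h])
  let u : Fin j → E := fun k => F (k + 1) / F 0
  have hz : ∀ z, ¬ U (O z) (algebraMap A E π) →
      ∃ k : Fin (j + 1), NV A τ (O z) e (F k) := fun z hz => by
    by_contra H
    push Not at H
    have := h3 z hz fun k hk => H ⟨k, hk⟩
    omega
  have hint : ∀ m G, Form A τ (e * m) G →
      IsIntegral (Algebra.adjoin A (Set.range u)) (G / F 0 ^ m) := fun m G hG => by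
    refine int_of_val _ fun V hV => ?_
    obtain ⟨l, hl⟩ := val_chart V (fun c => hV _ (Subalgebra.algebraMap_mem _ c)) hi0
    have hl0 := hl.1
    obtain ⟨k, hk⟩ := D.noz hπ (fun k : Fin (j + 1) => h1 k) hz V hl
    have h4 : F k / F 0 ∈ V := by
      refine Fin.cases ?_ (fun k => ?_) k
      · simp [hF0]
      · exact hV _ (Algebra.subset_adjoin ⟨k, rfl⟩)
    have h5 : F 0 / τ l ^ e ∉ V.nonunits := fun H => hk (by
      have e1 : F k / τ l ^ e = F 0 / τ l ^ e * (F k / F 0) := by field_simp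
      rw [e1]
      exact nu_mul H h4)
    rw [ValuationSubring.mem_nonunits_iff_or, not_or, not_not] at h5
    have e2 : G / F 0 ^ m = G / τ l ^ (e * m) * ((F 0 / τ l ^ e)⁻¹) ^ m := by
      rw [inv_div, div_pow, pow_mul]
      field_simp
    rw [e2]
    exact mul_mem (hl.2 (hG l hl.1)) (pow_mem h5.2 m)
  have hfin := fin_ic inj u (Set.range fun k => τ k / τ i) (by
    rintro _ ⟨k, rfl⟩
    have a1 : Form A τ 1 (τ k / τ i * τ i ^ 1) := by simpa [hi0] using form_tau k
    have a2 : Form A τ 0 (1 * τ i ^ 0) := by simpa using form_alg (τ := τ) (E := E) (1 : A)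
    refine ⟨_, _, hint 1 _ (form_up a1 (by omega)), hint 1 _ (form_up a2 (by omega)), ?_⟩
    field_simp) (fun M k1 k2 => by
    have k3 : B A τ i ≤ M.toSubring := B_le k1 fun k => k2 ⟨k, rfl⟩
    have k4 : ∀ c ∈ O x, c ∈ M := fun c hc => by
      obtain ⟨s, hs, a1, a2⟩ := D.fr x i hi c hc
      have e1 : c = c * s / s := by
        have := a1.2.1
        field_simp
      rw [e1]
      exact _root_.div_mem (k3 a2) (k3 hs)
    refine top_unique fun g _ => ?_
    obtain ⟨a, b, -, rfl⟩ := IsFractionRing.div_surjective (A := O x) g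
    exact _root_.div_mem (k4 _ a.2) (k4 _ b.2)) htr
  refine ⟨u, hfin.1, fun k => ?_, hfin.2, fun c hc => ?_⟩
  · have e1 : u k = F (k + 1) / τ i ^ e * (F 0 / τ i ^ e)⁻¹ := by
      simp only [u]
      field_simp
    rw [e1]
    exact mul_mem (hi.2 (h1 _ i hi0)) hu.2.2
  · obtain ⟨s, hs, a1, a2⟩ := D.fr x i hi c hc
    obtain ⟨n, hn⟩ := form_of_mem hi0 hs
    obtain ⟨m, hm⟩ := form_of_mem hi0 a2
    have b1 := hint (n + m) _ (form_up hn (by nlinarith))
    have b2 := hint (n + m) _ (form_up hm (by nlinarith))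
    have e1 : s * τ i ^ (e * (n + m)) / F 0 ^ (n + m) = s * ((F 0 / τ i ^ e)⁻¹) ^ (n + m) := by
      rw [inv_div, div_pow, pow_mul, mul_div_assoc]
    have b3 := a1.mul (hu.inv.pow (n + m))
    rw [← e1] at b3
    refine ⟨_, b3.1, b3.2.1, b3.2.2, b1, ?_⟩
    have e2 : s * τ i ^ (e * (n + m)) / F 0 ^ (n + m) * c =
      c * s * τ i ^ (e * (n + m)) / F 0 ^ (n + m) := by ring
    rwa [e2]

end

end Pool.Agent.KEW.PnnA

end MrgPart3

-- ======== part 4: formerly Pool.Agent.MP_55d974_ag.kew.NrmxA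
section MrgPart4

/-! PROJECT KEW, row NRMX: algebraic lemmas on integral closures of subrings of a field. -/

namespace Pool.Agent.KEW

noncomputable section

open Classical Polynomial

variable {E : Type} [Field E]

theorem mem_IC {S : Subring E} {y : E} : y ∈ IC S ↔ IsIntegral S y := Iff.rfl

theorem le_IC (S : Subring E) : S ≤ IC S := fun y hy =>
  mem_IC.2 (isIntegral_algebraMap (x := (⟨y, hy⟩ : S)))

theorem IC_mono {S T : Subring E} (h : S ≤ T) : IC S ≤ IC T := fun y hy => by
  obtain ⟨p, hp, e⟩ := mem_IC.1 hy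
  refine mem_IC.2 ⟨p.map (Subring.inclusion h), hp.map _, ?_⟩
  rw [eval₂_map]
  exact e

instance IC_closed (S : Subring E) : IsIntegrallyClosedIn (IC S) E :=
  inferInstanceAs (IsIntegrallyClosedIn (integralClosure S E) E)

theorem IC_IC {S : Subring E} {y : E} (hy : y ∈ IC (IC S)) : y ∈ IC S :=
  (Subring.isIntegrallyClosedIn_iff.1 (IC_closed S)) hy

/-- Clearing denominators in an equation of integral dependence. -/
theorem IC_clear (O B : Subring E) (M : Submonoid E) (hM : ∀ s ∈ M, s ∈ B)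
    (hO : ∀ c ∈ O, ∃ s ∈ M, c * s ∈ B) {y : E} (hy : y ∈ IC O) : ∃ s ∈ M, y * s ∈ IC B := by
  obtain ⟨p, hp, e⟩ := mem_IC.1 hy
  choose! σ hσ using hO
  let n := p.natDegree
  let s : E := ∏ i ∈ Finset.range n, σ (p.coeff i)
  have hs : s ∈ M := M.prod_mem fun i _ => (hσ _ (p.coeff i).2).1
  have hc : ∀ i < n, (p.coeff i : E) * s ∈ B := fun i hi => by
    have hi' : i ∈ Finset.range n := Finset.mem_range.2 hi
    rw [show s = σ (p.coeff i) * ∏ j ∈ (Finset.range n).erase i, σ (p.coeff j) from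
      (Finset.mul_prod_erase _ (fun j => σ (p.coeff j)) hi').symm, ← mul_assoc]
    exact B.mul_mem (hσ _ (p.coeff i).2).2 (B.prod_mem fun j _ => hM _ (hσ _ (p.coeff j).2).1)
  let q : E[X] := (p.map O.subtype).scaleRoots s
  have hq : q.Monic := (monic_scaleRoots_iff s).2 (hp.map _)
  have hn : (p.map O.subtype).natDegree = n := hp.natDegree_map _
  have hl : q ∈ lifts B.subtype := by
    rw [lifts_iff_coeff_lifts]
    intro i
    have : q.coeff i ∈ B := by
      simp only [q, coeff_scaleRoots, coeff_map, hn, Subring.coe_subtype]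
      rcases lt_trichotomy i n with hi | rfl | hi
      · obtain ⟨k, hk⟩ : ∃ k, n - i = k + 1 := ⟨n - i - 1, by omega⟩
        rw [hk, pow_succ', ← mul_assoc]
        exact B.mul_mem (hc i hi) (B.pow_mem (hM s hs) k)
      · simp [n, hp.coeff_natDegree]
      · simp [coeff_eq_zero_of_natDegree_lt hi]
    exact ⟨⟨_, this⟩, rfl⟩
  obtain ⟨r, hr, -, hr'⟩ := lifts_and_natDegree_eq_and_monic hl hq
  refine ⟨s, hs, mem_IC.2 ⟨r, hr', ?_⟩⟩
  have h1 : eval y (p.map O.subtype) = 0 := by
    rw [eval_map]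
    exact e
  have h2 := scaleRoots_eval_mul (p.map O.subtype) y s
  rw [h1, mul_zero, mul_comm] at h2
  change eval₂ B.subtype _ r = 0
  rw [← eval_map, hr]
  exact h2

/-- Finiteness of the normalisation passes to a localisation. -/
theorem IC_fin {O R : Subring E} (hR : R ≤ O)
    (h : ∀ y ∈ IC O, ∃ s : E, s ≠ 0 ∧ s⁻¹ ∈ O ∧ y * s ∈ IC R)
    (hf : Module.Finite R (integralClosure R E)) : Module.Finite O (integralClosure O E) := by
  have hf' : (integralClosure R E).toSubmodule.FG := Module.Finite.iff_fg.1 hf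
  obtain ⟨T, hT⟩ := hf'
  have key : ∀ y ∈ IC R, y ∈ Submodule.span O (T : Set E) := fun y hy => by
    have hy' : y ∈ Submodule.span R (T : Set E) := by
      rw [hT]
      exact hy
    refine Submodule.span_induction (fun x hx => Submodule.subset_span hx) (zero_mem _)
      (fun x z _ _ h1 h2 => add_mem h1 h2) (fun c x _ hx => ?_) hy'
    exact Submodule.smul_mem _ (⟨c.1, hR c.2⟩ : O) hx
  have : (integralClosure O E).toSubmodule.FG := by
    refine ⟨T, le_antisymm (Submodule.span_le.2 fun x hx => ?_) fun y hy => ?_⟩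
    · have hx' : x ∈ Submodule.span R (T : Set E) := Submodule.subset_span hx
      rw [hT] at hx'
      exact IC_mono hR hx'
    · obtain ⟨s, h0, h1, h2⟩ := h y hy
      have := Submodule.smul_mem _ (⟨s⁻¹, h1⟩ : O) (key _ h2)
      have e : (⟨s⁻¹, h1⟩ : O) • (y * s) = y := by
        change s⁻¹ * (y * s) = y
        field_simp
      rwa [e] at this
  exact Module.Finite.iff_fg.2 this

theorem IC_noeth (O : Subring E) [IsNoetherianRing O] (hf : Module.Finite O (integralClosure O E)) :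
    IsNoetherianRing (IC O) :=
  IsNoetherianRing.of_finite O (integralClosure O E)

theorem IC_frac (O : Subring E) [IsFractionRing O E] : IsFractionRing (IC O) E :=
  inferInstanceAs (IsFractionRing (integralClosure O E) E)

theorem pow_mul_mem_of_min {D : Type} [CommRing D] {I Q : Ideal D} (hQ : Q ∈ I.minimalPrimes)
    {b : D} (hb : b ∈ Q) : ∃ s ∉ Q, ∃ N : ℕ, s * b ^ N ∈ I := by
  have := hQ.isPrime
  have h := IsLocalization.AtPrime.radical_map_of_mem_minimalPrimes (Localization.AtPrime Q) Q I hQ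
  have h1 : algebraMap D (Localization.AtPrime Q) b ∈ (I.map (algebraMap _ _)).radical := by
    rw [h]
    exact Ideal.mem_map_of_mem _ hb
  obtain ⟨N, hN⟩ := h1
  rw [← map_pow, IsLocalization.algebraMap_mem_map_algebraMap_iff Q.primeCompl] at hN
  obtain ⟨s, hs, h2⟩ := hN
  exact ⟨s, hs, N, h2⟩

/-- A minimal prime of a prime element `p` of a normal domain `R`, in a localisation of the
normalisation of `R`, contracts to `p R`. -/
theorem min_contr {R : Type} [CommRing R] [IsDomain R] [IsIntegrallyClosed R] [Algebra R E]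
    [FaithfulSMul R E] {p : R} (hp : Prime p) (D : Subring E) (hB : ∀ y, IsIntegral R y → y ∈ D)
    (Q : Ideal D) (t : D) (ht : t.1 = algebraMap R E p) (hQ : Q ∈ (Ideal.span {t}).minimalPrimes)
    (hD : ∀ y : D, ∃ s : D, s ∉ Q ∧ IsIntegral R s.1 ∧ IsIntegral R (y.1 * s.1)) (r : R) (b : D)
    (hb : b.1 = algebraMap R E r) (hbQ : b ∈ Q) : p ∣ r := by
  have := hQ.isPrime
  let B := integralClosure R E
  let ι : B →+* D := B.val.toRingHom.codRestrict D fun y => hB _ y.2
  let q : Ideal B := Q.comap ι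
  have hq : q.IsPrime := Ideal.comap_isPrime ι Q
  have hp0 : (Ideal.span {p}).IsPrime := (Ideal.span_singleton_prime hp.ne_zero).2 hp
  have htQ : t ∈ Q := hQ.le (Ideal.mem_span_singleton_self t)
  have hι : ∀ c : R, (ι (algebraMap R B c)).1 = algebraMap R E c := fun c => rfl
  have hle : Ideal.span {p} ≤ q.under R := by
    rw [Ideal.span_singleton_le_iff_mem]
    change ι (algebraMap R B p) ∈ Q
    rwa [show ι (algebraMap R B p) = t from Subtype.ext ((hι p).trans ht.symm)]
  have : FaithfulSMul R B := (faithfulSMul_iff_algebraMap_injective R B).2 fun x y h =>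
    FaithfulSMul.algebraMap_injective R E (congrArg Subtype.val h)
  obtain ⟨q', h1, h2, h3⟩ := Ideal.exists_ideal_le_liesOver_of_le (p := Ideal.span {p})
    (q := q.under R) q hle
  obtain ⟨s, hs, N, hN⟩ := pow_mul_mem_of_min hQ hbQ
  obtain ⟨c, hc⟩ := Ideal.mem_span_singleton'.1 hN
  obtain ⟨s1, a1, a2, a3⟩ := hD s
  obtain ⟨s2, b1, b2, b3⟩ := hD c
  let x1 : B := ⟨s.1 * s1.1, a3⟩
  let x2 : B := ⟨s2.1, b2⟩
  let y1 : B := ⟨c.1 * s2.1, b3⟩
  let y2 : B := ⟨s1.1, a2⟩
  have hpq : algebraMap R B p ∈ q' := by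
    have := h3.over
    change p ∈ q'.under R
    rw [← this]
    exact Ideal.mem_span_singleton_self p
  have e : x1 * x2 * algebraMap R B r ^ N = y1 * y2 * algebraMap R B p := by
    apply Subtype.ext
    have hc' := congrArg Subtype.val hc
    change c.1 * t.1 = s.1 * b.1 ^ N at hc'
    change s.1 * s1.1 * s2.1 * (algebraMap R E r) ^ N = c.1 * s2.1 * s1.1 * algebraMap R E p
    rw [← hb, ← ht]
    linear_combination (-(s1.1 * s2.1)) * hc'
  have hm : x1 * x2 * algebraMap R B r ^ N ∈ q' := e ▸ q'.mul_mem_left _ hpq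
  rcases h2.mem_or_mem hm with h4 | h4
  · exfalso
    have h5 : ι (x1 * x2) ∈ Q := h1 h4
    rw [show ι (x1 * x2) = s * s1 * s2 from Subtype.ext rfl] at h5
    rcases Ideal.IsPrime.mem_or_mem ‹Q.IsPrime› h5 with h6 | h6
    · exact (Ideal.IsPrime.mem_or_mem ‹Q.IsPrime› h6).elim hs a1
    · exact b1 h6
  · have h5 : r ∈ q'.under R := h2.mem_of_pow_mem N h4
    rw [← h3.over] at h5
    exact Ideal.mem_span_singleton.1 h5

theorem lt_min_bot {D : Type} [CommRing D] [IsDomain D] [IsNoetherianRing D] {t : D} {Q : Ideal D}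
    (hQ : Q ∈ (Ideal.span {t}).minimalPrimes) (P : Ideal D) (hP : P.IsPrime) (h : P < Q) :
    P = ⊥ := by
  by_contra h0
  have := hQ.isPrime
  have h1 := Ideal.height_le_one_of_isPrincipal_of_mem_minimalPrimes _ Q hQ
  have h2 := Ideal.height_add_one_le_of_lt_of_isPrime h
  have h3 := Ideal.height_add_one_le_of_lt_of_isPrime (bot_lt_iff_ne_bot.2 h0)
  have h4 : (⊥ : Ideal D).height + 1 + 1 ≤ 1 := ((add_le_add_left h3 1).trans h2).trans h1
  have h5 : (1 + 1 : ℕ∞) ≤ 1 := le_trans (by gcongr; exact le_add_self) h4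
  exact absurd h5 (by decide)

end

end Pool.Agent.KEW

end MrgPart4

-- ======== part 5: formerly Pool.Agent.MP_55d974_ag.kew.Step
section MrgPart5

/-! PROJECT KEW, one step of the recursion. -/

open AlgebraicGeometry CategoryTheory TopologicalSpace Opposite Pool.Agent.MP_55d974_ag IsLocalRing

namespace Pool.Agent.KEW

noncomputable section

open Classical

namespace Stp

section Ap

variable {E : Type} [Field E] {V : ValuationSubring E} {c : E}

theorem ap_one : Ap V c 1 := by
  simp [Ap, zero_mem]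

theorem ap_val (hc : c ∈ V.nonunits) (h0 : c ≠ 0) {a : Eˣ} (h : Ap V c a) :
    V.valuation (a : E) = 1 := by
  have h1 : V.valuation ((a : E) - 1) < 1 := by
    have e : (a : E) - 1 = ((a : E) - 1) / c * c := by field_simp
    rw [e, map_mul]
    exact mul_lt_one_of_nonneg_of_lt_one_right ((V.valuation_le_one_iff _).2 h) zero_le
      (V.mem_nonunits_iff.1 hc)
  have := V.valuation.map_one_add_of_lt h1
  simpa using this

theorem ap_mul (hc : c ∈ V.nonunits) (h0 : c ≠ 0) {a b : Eˣ} (h : Ap V c a) (h' : Ap V c b) :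
    Ap V c (a * b) := by
  have hb : (b : E) ∈ V := (V.valuation_le_one_iff _).1 (ap_val hc h0 h').le
  have e : (((a * b : Eˣ) : E) - 1) / c = ((a : E) - 1) / c * b + ((b : E) - 1) / c := by
    push_cast
    ring
  unfold Ap
  rw [e]
  exact add_mem (mul_mem h hb) h'

theorem ap_inv (hc : c ∈ V.nonunits) (h0 : c ≠ 0) {a : Eˣ} (h : Ap V c a) : Ap V c a⁻¹ := by
  have ha : (a : E)⁻¹ ∈ V := (V.valuation_le_one_iff _).1 (by rw [map_inv₀, ap_val hc h0 h]; simp)
  have e : (((a⁻¹ : Eˣ) : E) - 1) / c = -(((a : E) - 1) / c * (a : E)⁻¹) := by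
    have := a.ne_zero
    push_cast
    field_simp
    ring
  unfold Ap
  rw [e]
  exact neg_mem (mul_mem h ha)

theorem ap_prod (hc : c ∈ V.nonunits) (h0 : c ≠ 0) {ι : Type} (s : Finset ι) (g : ι → Eˣ)
    (h : ∀ i ∈ s, Ap V c (g i)) : Ap V c (∏ i ∈ s, g i) :=
  Finset.prod_induction _ _ (fun _ _ => ap_mul hc h0) ap_one h

theorem fam_pow {S : Set (ValuationSubring E)} (h : Fam S c) {n : ℕ} (hn : n ≠ 0) :
    Fam S (c ^ n) :=
  ⟨h.fin, h.dvr, pow_ne_zero _ h.ne, fun V hV => by
    rw [V.mem_nonunits_iff, map_pow]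
    exact pow_lt_one₀ zero_le (V.mem_nonunits_iff.1 (h.non V hV)) hn⟩

end Ap

variable {A : Type} [CommRing A] {X : Scheme.{0}} {f : X ⟶ Spec (.of A)} {π : A} {d n j : ℕ}
  {C : Type} [AddCommGroup C] {Λ : Lm X C}

theorem lc_ne {b : Ch X} {l : List X} (h : Lc Λ b l ≠ 0) : ∃ w, Λ w (b w) l ≠ 0 := by
  unfold Lc at h
  rw [DFinsupp.sumAddHom_apply, DFinsupp.sum, Finsupp.finsetSum_apply] at h
  obtain ⟨w, -, hw⟩ := Finset.exists_ne_zero_of_sum_ne_zero h
  exact ⟨w, hw⟩

theorem tt_ne {w : X} {β} {l : List X} (h : TT Λ w β l ≠ 0) :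
    ∃ z, Λ z (DD X (DFinsupp.single w β) z) l ≠ 0 := lc_ne h

theorem tt_nil (hI : Inv f π d n j Λ) (w : X) (β) : TT Λ w β [] = 0 := by
  by_contra h
  obtain ⟨z, hz⟩ := tt_ne h
  obtain ⟨-, h1, h2⟩ := hI.sup _ _ _ hz
  have h3 : dl d z = 0 := h2
  omega

theorem tt_one (hD : Dif f π d) (w : X) : TT Λ w 1 = 0 := by
  ext l
  by_contra h
  obtain ⟨z, hz⟩ := tt_ne h
  rw [hD.single, hD.zero, map_zero] at hz
  exact hz rfl

theorem del_cons (x : X) (a : List X →₀ C) : Del (a.mapDomain (x :: ·)) = a := by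
  change Finsupp.mapDomain _ _ = _
  rw [← Finsupp.mapDomain_comp]
  exact Finsupp.mapDomain_id

theorem cons_ne {x : X} {a : List X →₀ C} {l : List X} (h : a.mapDomain (x :: ·) l ≠ 0) :
    ∃ l', l = x :: l' ∧ a l' ≠ 0 := by
  by_cases hl : l ∈ Set.range (x :: ·)
  · obtain ⟨l', rfl⟩ := hl
    rw [Finsupp.mapDomain_apply (List.cons_injective)] at h
    exact ⟨l', rfl, h⟩
  · exact absurd (Finsupp.mapDomain_of_notMem_range _ _ hl) h

theorem point (hA : LocA) (hB : LocB) (hG : Geo f π d) (hn : n ≠ 0) (hI : Inv f π d n j Λ)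
    (hg : GG f π d n j Λ) (w : X) (hw : Hor f π w) (hd : dl d w = j + 2) :
    ∃ L : Kr (X.residueField w) →+ (List X →₀ C), (∀ β l, L β l ≠ 0 → Fl f π d w l) ∧
      (∀ x F γ l, (∀ V, Pl w x V → Ap V (aK f w π ^ n) F) → L (sym F * γ) (x :: l) = 0) ∧
      L 1 = 0 ∧ ∀ β, Del (L β) = TT Λ w β := by
  set S : Set (ValuationSubring (X.residueField w)) :=
    {V | ∃ z, ¬ Hor f π z ∧ dl d z + 1 = dl d w ∧ Pl w z V} with hS
  set c := aK f w π ^ n with hc
  have hF : Fam S c := fam_pow (hG.plf.fam w hw) hn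
  have hT : ∀ F γ, (∀ V ∈ S, Ap V c F) → TT Λ w (sym F * γ) = 0 := by
    intro F γ h
    ext l
    rcases l with _ | ⟨y, l⟩
    · exact tt_nil hI w _
    · exact hg w hw hd y l F γ fun z V h1 h2 _ h4 => h V ⟨z, h1, h2, h4⟩
  have hK : KI S c ≤ (TT Λ w).ker := by
    refine (AddSubgroup.closure_le _).2 ?_
    rintro _ ⟨F, γ, h, rfl⟩
    exact hT F γ h
  choose ρ hρ1 hρ using fun x : X => hB.map S {V | Pl w x V} c hF
  choose g hg1 hg2 using fun x : X => hA.one S {V | Pl w x V} c hF
  let τ : X → Kr (X.residueField w) →+ (List X →₀ C) := fun x =>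
    (QuotientAddGroup.lift (KI S c) (TT Λ w) hK).comp (ρ x)
  have hτ1 : ∀ x, τ x 1 = 0 := fun x => by
    simp only [τ, AddMonoidHom.comp_apply, hρ1, map_zero]
  have hτ : ∀ x F γ, τ x (sym F * γ) = TT Λ w (sym (g x F) * γ) := fun x F γ => by
    simp only [τ, AddMonoidHom.comp_apply]
    rw [hρ x F (g x F) γ (hg1 x F) (hg2 x F), QuotientAddGroup.lift_mk]
  let Z := (hG.plf.vz w hw).toFinset
  have hZ : ∀ z, z ∈ Z ↔ ¬ Hor f π z ∧ dl d z + 1 = dl d w ∧ w ⤳ z := fun z =>
    (hG.plf.vz w hw).mem_toFinset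
  let L : Kr (X.residueField w) →+ (List X →₀ C) :=
    ∑ x ∈ Z, (Finsupp.mapDomain.addMonoidHom (x :: ·)).comp (τ x)
  have hL : ∀ β, L β = ∑ x ∈ Z, (τ x β).mapDomain (x :: ·) := fun β => by
    simp only [L, AddMonoidHom.finsetSum_apply]
    rfl
  have hne : ∀ β l, L β l ≠ 0 → ∃ x ∈ Z, ∃ l', l = x :: l' ∧ τ x β l' ≠ 0 := by
    intro β l h
    rw [hL, Finsupp.finsetSum_apply] at h
    obtain ⟨x, hx, h⟩ := Finset.exists_ne_zero_of_sum_ne_zero h
    exact ⟨x, hx, cons_ne h⟩
  refine ⟨L, fun β l h => ?_, fun x F γ l h => ?_, ?_, fun β => ?_⟩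
  · obtain ⟨x, hx, l', rfl, h'⟩ := hne β l h
    obtain ⟨x1, x2, x3⟩ := (hZ x).1 hx
    refine ⟨x3, x1, x2.symm, ?_⟩
    by_contra hfl
    have : (Finsupp.applyAddHom l').comp (τ x) = 0 := by
      refine kr_hom_ext (by simp [hτ1]) fun F γ => ?_
      change τ x (sym F * γ) l' = 0
      rw [hτ]
      rcases l' with _ | ⟨y, l⟩
      · exact tt_nil hI w _
      by_contra h0
      obtain ⟨z, hz⟩ := tt_ne h0
      obtain ⟨-, z2, -, z4, z5, z6⟩ := hI.sup _ _ _ hz
      refine h0 (hg w hw hd y l _ γ fun z' V h1 h2 h3 h4 => hg2 x F V ⟨z', h1, h2, h4⟩ fun h5 => ?_)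
      obtain rfl := hG.plf.uniq h4 h5
      exact hfl ⟨h3, z4, by omega, z6⟩
    exact h' (DFunLike.congr_fun this β)
  · by_contra h0
    obtain ⟨x', -, l', e, h1⟩ := hne _ _ h0
    obtain ⟨rfl, rfl⟩ := List.cons.inj e
    refine h1 ?_
    simp only [τ, AddMonoidHom.comp_apply]
    rw [hρ x F 1 γ (fun V hV h2 => ?_) fun V _ _ => ap_one, QuotientAddGroup.lift_mk]
    · simp
    · rw [one_div]
      exact ap_inv (hF.non V hV) hF.ne (h V h2)
  · rw [hL]
    simp [hτ1]
  · have : (Del (C := C)).comp L = TT Λ w := by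
      refine kr_hom_ext ?_ fun F γ => ?_
      · rw [AddMonoidHom.comp_apply, hL, tt_one hG.dif]
        simp [hτ1]
      rw [AddMonoidHom.comp_apply, hL, map_sum]
      simp only [del_cons, hτ]
      rw [← map_sum, ← Finset.sum_mul, ← sym_prod, ← sub_eq_zero, ← map_sub, ← ksub_mul,
        ← sym_div]
      refine hT _ γ ?_
      rintro V hV
      obtain ⟨z, z1, z2, z3⟩ := id hV
      have hz : z ∈ Z := (hZ z).2 ⟨z1, z2, z3.sp⟩
      rw [← Finset.mul_prod_erase _ _ hz, mul_div_right_comm]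
      refine ap_mul (hF.non V hV) hF.ne (hg1 z F V hV z3) (ap_prod (hF.non V hV) hF.ne _ _ ?_)
      intro x hx
      exact hg2 x F V hV fun h5 => Finset.ne_of_mem_erase hx (hG.plf.uniq h5 z3)
    exact DFunLike.congr_fun this β

end Stp

theorem step (hA : LocA) (hB : LocB) : AllC Step := by
  intro A _ _ _ _ _ X f π d p q n c C _ j Λ hI hg
  have hn : n ≠ 0 := by
    rintro rfl
    have := c.lv.lev
    rw [pow_zero] at this
    exact c.hyp.irr.not_isUnit (isUnit_of_dvd_one ((dvd_mul_left _ _).trans this))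
  choose L h1 h2 h3 h4 using Stp.point hA hB c.geo hn hI hg
  refine ⟨fun w => if h : Hor f π w ∧ dl d w = j + 2 then L w h.1 h.2 else 0,
    ⟨fun w β l h => ?_, fun w x F γ l h => ?_, fun _ w => ?_⟩, fun w hw hd β => ?_⟩
  · by_cases hw : Hor f π w ∧ dl d w = j + 2
    · rw [dif_pos hw] at h
      exact ⟨hw.1, hw.2, h1 w _ _ β l h⟩
    · rw [dif_neg hw] at h
      exact absurd rfl h
  · by_cases hw : Hor f π w ∧ dl d w = j + 2
    · rw [dif_pos hw]
      exact h2 w _ _ x F γ l h
    · rw [dif_neg hw]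
      rfl
  · by_cases hw : Hor f π w ∧ dl d w = j + 2
    · rw [dif_pos hw]
      exact h3 w _ _
    · rw [dif_neg hw]
      rfl
  · beta_reduce
    rw [dif_pos ⟨hw, hd⟩]
    exact h4 w hw hd β

end

end Pool.Agent.KEW

end MrgPart5

-- ======== part 6: formerly Pool.Agent.MP_55d974_ag.kew.Io
section MrgPart6

/-! PROJECT KEW: the K-sheaf as the sheaf of cycles of degree zero. -/

open AlgebraicGeometry CategoryTheory TopologicalSpace Opposite Pool.Agent.MP_55d974_ag IsLocalRing

namespace Pool.Agent.KEW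

noncomputable section

open Classical

namespace IoAux

variable {A : Type} [CommRing A] {X : Scheme.{0}} {f : X ⟶ Spec (.of A)} {π : A} {d : ℕ}

theorem fin0 (hD : Dim f π d) (hN : NoetherianSpace X) : {y : X | cod y = 0}.Finite := by
  refine (genericPoints.finite NoetherianSpace.finite_irreducibleComponents).subset fun y hy => ?_
  have h1 := (isIrreducible_irreducibleComponent (x := y)).isGenericPoint_genericPoint
    isClosed_irreducibleComponent
  have h2 : (isIrreducible_irreducibleComponent (x := y)).genericPoint = y := by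
    by_contra h
    have h3 := hD.lt (h1.specializes mem_irreducibleComponent) h
    have h4 : cod y = 0 := hy
    unfold dl at h3
    omega
  rw [h2] at h1
  change closure {y} ∈ irreducibleComponents X
  rw [h1.def]
  exact irreducibleComponent_mem_irreducibleComponents y

theorem dd_loc (hF : Dif f π d) {a b : Ch X} {z : X} (h : ∀ y, y ⤳ z → a y = b y) :
    DD X a z = DD X b z := by
  rw [← sub_eq_zero, ← DFinsupp.sub_apply, ← map_sub, hF.app, dd, DFinsupp.sumAddHom_apply]
  refine Finset.sum_eq_zero fun y _ => ?_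
  by_contra h0
  exact h0 (by rw [DFinsupp.sub_apply, h y (hF.loc y z _ h0).1, sub_self]; exact map_zero _)

theorem inv_j (hK : KhS) (k : Type) [Field k] [Infinite k] (m : ℕ) :
    (∀ x ∈ K k m, ∀ y ∈ K k m, kmap (algebraMap k (RT k Unit)) x = kmap (algebraMap k _) y →
      x = y) ∧ ∃ r : KH k m →+ Kr k, ∀ x, r x ∈ K k m ∧ kmap (algebraMap k _) (r x) = x.1 := by
  have hi : Infinite (ResidueField k) := Infinite.of_injective _ (residue k).injective
  have h1 : ∀ x ∈ K k m, ∀ y ∈ K k m,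
      kmap (algebraMap k (RT k Unit)) x = kmap (algebraMap k _) y → x = y := fun x hx y hy h =>
    sub_eq_zero.1 (hK.inj k m (Or.inl hi) _ (sub_mem hx hy) (by rw [map_sub, h, sub_self]))
  choose r h2 h3 using fun x : KH k m => hK.surj k m (Or.inl hi) x.1 x.2
  refine ⟨h1, AddMonoidHom.mk' r fun x y => h1 _ (h2 _) _ (add_mem (h2 _) (h2 _)) ?_,
    fun x => ⟨h2 x, h3 x⟩⟩
  rw [map_add, h3, h3, h3]
  rfl

theorem exists_io (hK : KhS) (hD : Dim f π d) (hN : NoetherianSpace X)
    (st : ∀ (y : X) (U : X.Opens), y ∈ U → KSec X d U →+ KH (X.presheaf.stalk y) d) :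
    ∃ ι : ∀ U : X.Opens, KSec X d U →+ Ch X, ∀ U s w,
      (∀ hw : w ∈ U, cod w = 0 → ι U s w ∈ K _ d ∧ kmap (algebraMap (X.residueField w) _) (ι U s w) =
        kmap (rt (.refl _) (X.residue w).hom) (st w U hw s).1) ∧
      (¬ (w ∈ U ∧ cod w = 0) → ι U s w = 0) := by
  have hv : ∀ (U : X.Opens) (w : X), ∃ v : KSec X d U →+ Kr (X.residueField w), ∀ s,
      (∀ hw : w ∈ U, cod w = 0 → v s ∈ K _ d ∧ kmap (algebraMap (X.residueField w) _) (v s) =
        kmap (rt (.refl _) (X.residue w).hom) (st w U hw s).1) ∧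
      (¬ (w ∈ U ∧ cod w = 0) → v s = 0) := fun U w => by
    by_cases h : w ∈ U ∧ cod w = 0
    · have : Infinite (X.residueField w) := hD.inf w (by
        have := h.2
        unfold dl
        omega)
      obtain ⟨-, r, hr⟩ := inv_j hK (X.residueField w) d
      exact ⟨r.comp (((khF d).map (X.residue w)).hom.comp (st w U h.1)),
        fun s => ⟨fun _ _ => hr _, fun h' => absurd h h'⟩⟩
    · exact ⟨0, fun s => ⟨fun h1 h2 => absurd ⟨h1, h2⟩ h, fun _ => rfl⟩⟩
  choose v hv using hv
  refine ⟨fun U => ∑ y ∈ (fin0 hD hN).toFinset,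
    (DFinsupp.singleAddHom (fun y : X => Kr (X.residueField y)) y).comp (v U y), fun U s w => ?_⟩
  have : (∑ y ∈ (fin0 hD hN).toFinset,
      (DFinsupp.singleAddHom (fun y : X => Kr (X.residueField y)) y).comp (v U y)) s w =
      v U w s := by
    rw [AddMonoidHom.finsetSum_apply, DFinsupp.finsetSum_apply, Finset.sum_eq_single w]
    · exact DFinsupp.single_eq_same
    · exact fun y _ hy => DFinsupp.single_eq_of_ne hy.symm
    · intro hw
      refine DFinsupp.single_eq_same.trans ((hv U w s).2 fun h => hw ?_)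
      exact (Set.Finite.mem_toFinset _).2 h.2
  rw [this]
  exact hv U w s

theorem aw (w : X) (a : Kr (X.residueField w)) :
    a ∈ AW d 0 w ↔ a ∈ K _ d ∧ (cod w ≠ 0 → a = 0) := by
  unfold AW
  by_cases h : cod w = 0
  · simp [h]
  · simp only [h, false_and, if_false, AddSubgroup.mem_bot, ne_eq, not_false_eq_true,
      forall_const]
    exact ⟨fun h => ⟨h ▸ zero_mem _, h⟩, fun h => h.2⟩

theorem dim0 (hD : Dim f π d) (y : X) : ringKrullDim (X.presheaf.stalk y) = 0 ↔ cod y = 0 := by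
  rw [hD.eq y]
  exact_mod_cast Iff.rfl

/-- The part of a family supported on the generisations of `z`. -/
def flt (z : X) (a : Ch X) : Ch X := a.filter (· ⤳ z)

theorem flt_pos {z y : X} (a : Ch X) (h : y ⤳ z) : flt z a y = a y :=
  DFinsupp.filter_apply_pos (p := (· ⤳ z)) a h

theorem flt_deg (hD : Dim f π d) (z : X) (a : Ch X) (ha : ∀ w, a w ∈ AW d 0 w) :
    Deg z 0 d (flt z a) := fun y => by
  by_cases h : y ⤳ z
  · rw [flt_pos a h]
    refine ⟨((aw y _).1 (ha y)).1, fun h1 => ⟨h, (dim0 hD y).2 ?_⟩⟩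
    by_contra h2
    exact h1 (((aw y _).1 (ha y)).2 h2)
  · have : flt z a y = 0 := DFinsupp.filter_apply_neg (p := (· ⤳ z)) a h
    rw [this]
    exact ⟨zero_mem _, fun h1 => absurd rfl h1⟩

theorem ev_germ {U : X.Opens} {y : X} (hy : y ∈ U) (s : (KP X d).obj (op U)) :
    kmap (rt (.refl _) (X.evaluation U y hy).hom) (Subtype.val s) =
      kmap (rt (.refl _) (X.residue y).hom) ((khF d).map (X.presheaf.germ U y hy) s).1 := by
  have h : ((khF d).map (X.presheaf.germ U y hy) s).1 =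
    kmap (rt (.refl _) (X.presheaf.germ U y hy).hom) (Subtype.val s) := rfl
  rw [h, kmap_comp, rt_comp]
  rfl

theorem sep (U : X.Opens) (s : KSec X d U) (h : ∀ x ∈ U, ∃ V : X.Opens, x ∈ V ∧ ∃ h : V ≤ U,
    (KS X d).obj.map (homOfLE h).op s = 0) : s = 0 := by
  choose V h1 h2 h3 using fun x : U => h x.1 x.2
  exact TopCat.Sheaf.eq_of_locally_eq' (X := X.carrier) (KS X d) V U (fun x => homOfLE (h2 x))
    (fun x hx => Opens.mem_iSup.2 ⟨⟨x, hx⟩, h1 _⟩) s 0 fun x => (h3 x).trans (map_zero _).symm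

theorem res_res {U V W : X.Opens} (h : V ≤ U) (h' : W ≤ V) (s : KSec X d U) :
    (KS X d).obj.map (homOfLE h').op ((KS X d).obj.map (homOfLE h).op s) =
      (KS X d).obj.map (homOfLE (h'.trans h)).op s := by
  rw [← ConcreteCategory.comp_apply, ← Functor.map_comp]
  rfl

end IoAux

open IoAux in
theorem ioS (hK : KhS) (hS : StS) : AllC IoS := by
  intro A _ _ _ _ _ X f π d p q n c
  have hD := c.geo.dim
  have hF := c.geo.dif
  have hG : Gersten X d := c.ger d (Nat.le_succ d) le_rfl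
  obtain ⟨st, hst⟩ := hS.st X d
  obtain ⟨ι, hι⟩ := exists_io hK hD c.geo.crd.noeth st
  have hinj : ∀ y : X, cod y = 0 → ∀ a ∈ K (X.residueField y) d, ∀ b ∈ K (X.residueField y) d,
      kmap (algebraMap (X.residueField y) (RT (X.residueField y) Unit)) a =
        kmap (algebraMap (X.residueField y) (RT (X.residueField y) Unit)) b → a = b :=
    fun y hy => by
      have : Infinite (X.residueField y) := hD.inf y (by
        unfold dl
        omega)
      exact (inv_j hK (X.residueField y) d).1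
  have agree : ∀ (U : X.Opens) (s : (KP X d).obj (op U)) (y) (hy : y ∈ U), cod y = 0 →
      kmap (rt (.refl _) (X.evaluation U y hy).hom) (Subtype.val s) =
        kmap (algebraMap (X.residueField y) _) (ι U (shf U s) y) := fun U s y hy h => by
    rw [((hι U _ y).1 hy h).2, hst.pre]
    exact ev_germ hy s
  have mem : ∀ U s w, ι U s w ∈ K _ d := fun U s w => by
    by_cases h : w ∈ U ∧ cod w = 0
    · exact ((hι U s w).1 h.1 h.2).1
    · rw [(hι U s w).2 h]
      exact zero_mem _
  have nat : ∀ U V (h : V ≤ U) s, ∀ w ∈ V,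
      ι V ((KS X d).obj.map (homOfLE h).op s) w = ι U s w := fun U V h s w hw => by
    by_cases h1 : cod w = 0
    · refine hinj w h1 _ (mem _ _ _) _ (mem _ _ _) ?_
      rw [((hι V _ w).1 hw h1).2, ((hι U s w).1 (h hw) h1).2, hst.res]
    · rw [(hι V _ w).2 fun h => h1 h.2, (hι U s w).2 fun h => h1 h.2]
  have deg : ∀ U s w, ι U s w ∈ AW d 0 w := fun U s w =>
    (aw w _).2 ⟨mem U s w, fun h => (hι U s w).2 fun h' => h h'.2⟩
  have agr : ∀ (U V : X.Opens) (h : V ≤ U) (s) (s' : (KP X d).obj (op V)) (x) (hx : x ∈ V)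
      (a : Ch X), (KS X d).obj.map (homOfLE h).op s = shf V s' →
      (∀ y, y ⤳ x → a y = ι U s y) → Agree hx s' a := fun U V h s s' x hx a hs ha y hy h1 =>
    (agree V s' y _ ((dim0 hD y).1 h1)).trans (congrArg _ (by
      rw [← hs, nat U V h s y (hy.mem_open V.2 hx), ha y hy]))
  refine ⟨ι, agree, deg, fun U s w hw => (hι U s w).2 fun h => hw h.1, nat, fun U s w hw => ?_,
    fun U s hs => sep U s fun x hx => ?_, fun z a ha hz => ?_⟩
  · obtain ⟨V, hV, h, s', hs'⟩ := hS.loc X d U s w hw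
    have := ((hG w).2.1 _ (flt_deg hD w _ (deg U s))).2
      ⟨V, hV, s', agr U V h s s' w hV _ hs' fun y hy => flt_pos _ hy⟩ w specializes_rfl
    rw [← this, ← hF.app]
    exact dd_loc hF fun y hy => (flt_pos _ hy).symm
  · obtain ⟨V, hV, h, s', hs'⟩ := hS.loc X d U s x hx
    obtain ⟨V', hV', i, hi⟩ := (hG x).1 V hV s'
      (agr U V h s s' x hV _ hs' fun y _ => by rw [hs])
    refine ⟨V', hV', i.le.trans h, ?_⟩
    have h2 := hS.nat X d V V' i.le s'
    rw [← hs', res_res] at h2
    exact h2.trans ((congrArg (shf V') hi).trans (map_zero _))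
  · obtain ⟨U, hU, s, hs⟩ := ((hG z).2.1 _ (flt_deg hD z a ha)).1 fun w hw => by
      rw [← hF.app, ← hz w hw]
      exact dd_loc hF fun y hy => flt_pos _ (hy.trans hw)
    refine ⟨U, hU, shf U s, fun w hw => ?_⟩
    by_cases h1 : cod w = 0
    · refine hinj w h1 _ (mem _ _ _) _ ((aw w _).1 (ha w)).1 ?_
      rw [← flt_pos a hw]
      exact (agree U s w (hw.mem_open U.2 hU) h1).symm.trans (hs w hw ((dim0 hD w).2 h1))
    · rw [((aw w _).1 (deg U _ w)).2 h1, ((aw w _).1 (ha w)).2 h1]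

end

end Pool.Agent.KEW

end MrgPart6

-- ======== part 7: formerly Pool.Agent.MP_55d974_ag.kew.NegF
section MrgPart7

/-! PROJECT KEW: deep symbols are negligible. -/

open AlgebraicGeometry CategoryTheory TopologicalSpace Opposite Pool.Agent.MP_55d974_ag IsLocalRing

namespace Pool.Agent.KEW

open Classical

theorem Ap.mono {E : Type} [Field E] {V : ValuationSubring E} {c : E} {F : Eˣ} {a b : ℕ}
    (hc : c ∈ V) (h0 : c ≠ 0) (hab : a ≤ b) (h : Ap V (c ^ b) F) : Ap V (c ^ a) F := by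
  obtain ⟨k, rfl⟩ := Nat.exists_eq_add_of_le hab
  have : ((F : E) - 1) / c ^ a = ((F : E) - 1) / c ^ (a + k) * c ^ k := by
    field_simp
    ring
  unfold Ap
  rw [this]
  exact V.mul_mem _ _ h (pow_mem hc k)

theorem Ap.nonunits {E : Type} [Field E] {V : ValuationSubring E} {c : E} {F : Eˣ}
    (hc : c ∈ V.nonunits) (h0 : c ≠ 0) (h : Ap V c F) : (F : E) - 1 ∈ V.nonunits := by
  rw [ValuationSubring.mem_nonunits_iff] at hc ⊢
  have h1 := (V.valuation_le_one_iff _).2 h
  rw [← div_mul_cancel₀ ((F : E) - 1) h0, map_mul]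
  exact lt_of_le_of_lt (mul_le_of_le_one_left' h1) hc

variable {A : Type} [CommRing A] {X : Scheme.{0}} {f : X ⟶ Spec (.of A)} {π : A} {d : ℕ}

theorem germ_single {w y : X} (h : ¬ w ⤳ y) (β : Kr (X.residueField w)) :
    Coh.germ (X := X.carrier) y (DFinsupp.single w β : Ch X) = 0 := by
  ext z
  change (DFinsupp.filter (fun v => v ⤳ y) (DFinsupp.single w β : Ch X)) z = 0
  rw [DFinsupp.filter_single, if_neg h]
  rfl

theorem single_AW {w : X} {m j : ℕ} (hw : cod w = j) (hj : j ≤ m) {β : Kr (X.residueField w)}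
    (hβ : β ∈ K _ (m - j)) (v : X) : (DFinsupp.single w β : Ch X) v ∈ AW m j v := by
  rcases eq_or_ne w v with rfl | hv
  · rw [DFinsupp.single_eq_same, AW, if_pos ⟨hw, hj⟩]
    exact hβ
  · rw [DFinsupp.single_eq_of_ne hv.symm]
    exact zero_mem _

theorem single_ver {w : X} (hw : Hor f π w) (β : Kr (X.residueField w)) (v : X)
    (hv : ¬ Hor f π v) : (DFinsupp.single w β : Ch X) v = 0 :=
  DFinsupp.single_eq_of_ne (by rintro rfl; exact hv hw)

theorem Geo.fam (g : Geo f π d) {w y : X} (hw : Hor f π w) (hy : ¬ Hor f π y)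
    (h : dl d y + 1 = dl d w) : Fam {V | Pl w y V} (aK f w π) :=
  ⟨g.plf.fin w y hw h, fun _ P => P.dvr, hw, fun V P => (g.plf.fam w hw).non V ⟨y, hy, h, P⟩⟩

theorem Geo.dK_deep (hT : TameS) (g : Geo f π d) {w y : X} (hw : Hor f π w) (hy : ¬ Hor f π y)
    {F : (X.residueField w)ˣ} (hF : ∀ V, Pl w y V → dl d y + 1 = dl d w → Ap V (aK f w π) F) (γ) :
    dK w y (sym F * γ) = 0 :=
  AddSubgroup.mem_bot.1 (g.dif.ind w y _ ⊥ fun V P h => by
    rw [hT.one V _ P.dvr inferInstance F
      ((hF V P h.symm).nonunits ((g.fam hw hy h.symm).non V P) hw), map_zero]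
    exact zero_mem _)

theorem negF (hT : TameS) (hD : DeepS) (h1 : AllC NegQ) (h2 : AllC NegD) : AllC NegF := by
  intro A _ _ _ _ _ X f π d p q n c ι N hι hN j i w y hd hw hy hj hdl
  have g := c.geo
  by_cases h : w ⤳ y
  swap
  · exact ⟨0, fun F _ γ _ => by rw [germ_single h]; exact zero_mem _⟩
  have hq : 0 < q := by
    obtain ⟨r, hr⟩ := c.lv.qq
    exact hr ▸ pow_pos c.lv.pp.pos r
  have hn : n ≠ 0 := by
    rintro rfl
    exact c.hyp.irr.not_isUnit (isUnit_of_dvd_one ((Dvd.intro_left _ rfl).trans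
      (by simpa using c.lv.lev)))
  have hc : cod w = j := by have := g.dim.add w; omega
  obtain ⟨e, he⟩ := g.plf.cond h hw hy hdl.symm
  obtain ⟨M, hM⟩ := hD _ _ (g.fam hw hy hdl.symm) q (n + e) i hq
  refine ⟨M, fun F hF γ hγ => ?_⟩
  obtain ⟨a, ha, b, hb, hab⟩ := hM F hF γ hγ
  rw [hab, DFinsupp.single_add, map_add]
  refine add_mem ?_ ?_
  · refine (AddSubgroup.closure_le ((NG f π d N j y).comap ((Coh.germ (X := X.carrier) y).comp
      (DFinsupp.singleAddHom (fun y : X => Kr (X.residueField y)) w)))).2 ?_ ha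
    rintro _ ⟨G, l, hG, hl, hu, rfl⟩
    obtain ⟨t, ht⟩ := he (((G : X.residueField w) - 1) / aK f w π ^ n) fun V P => by
      have := hG V P
      rwa [Ap, pow_add, ← div_div] at this
    have hm : sA f y π ∈ maximalIdeal (X.presheaf.stalk y) :=
      (residue_eq_zero_iff _).1 (not_not.1 hy)
    have hU : IsUnit (1 + sA f y π ^ n * t) := by
      by_contra hU
      exact (maximalIdeal.isMaximal _).ne_top ((Ideal.eq_top_iff_one _).2
        ((Ideal.add_mem_iff_left _ (Ideal.mul_mem_right t _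
          (Ideal.pow_mem_of_mem _ hm n (Nat.pos_of_ne_zero hn)))).1 ((mem_maximalIdeal _).2 hU)))
    refine h2 A X f π d p q n c ι N hι hN (j + i) hd.symm j y hy hj hU.unit
      (DFinsupp.single w (l.map sym).prod) _ ⟨t, by simp⟩
      (single_AW hc (by omega) (by simpa [hl] using prod_mem_K l)) (single_ver hw _) ?_
      fun v hv => ?_
    · rw [g.dif.single]
      exact AddSubgroup.mem_bot.1 (g.dif.ind w y _ ⊥ fun V P _ => by
        rw [hT.syms V _ P.dvr inferInstance l fun u hu' => hu u hu' V P, map_zero]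
        exact zero_mem _)
    · rcases eq_or_ne w v with rfl | hv'
      · rw [DFinsupp.singleAddHom_apply, DFinsupp.single_eq_same, DFinsupp.single_eq_same]
        congr 2
        ext
        have : gz hv (1 + sA f y π ^ n * t) = G := by
          rw [map_add, map_one, map_mul, map_pow, g.dim.ak, ht]
          have : aK f w π ^ n ≠ 0 := pow_ne_zero _ hw
          field_simp
          ring
        simpa using this.symm
      · rw [DFinsupp.singleAddHom_apply, DFinsupp.single_eq_of_ne hv'.symm,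
          DFinsupp.single_eq_of_ne hv'.symm, mul_zero]
  · have hb' : b ∈ K _ (i + 1) ⊓ (dK w y).ker := by
      refine (AddSubgroup.closure_le _).2 ?_ hb
      rintro _ ⟨G, δ, hδ, hG, rfl⟩
      exact ⟨sym_mul_mem_K G hδ, g.dK_deep hT hw hy (fun V P _ => hG V P) δ⟩
    have := h1 A X f π d p q n c ι N hι hN j y hy hj (DFinsupp.single w b)
      (single_AW hc (by omega) (by rw [show d - j = i + 1 by omega]; exact hb'.1))
      (single_ver hw _) (by rw [g.dif.single]; exact hb'.2)
    rwa [← DFinsupp.single_smul] at this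

end Pool.Agent.KEW

end MrgPart7

-- ======== part 8: formerly Pool.Agent.MP_55d974_ag.kew.Kill
section MrgPart8

/-! PROJECT KEW: negligible chains of top degree are boundaries modulo `q`. -/

open AlgebraicGeometry CategoryTheory TopologicalSpace Opposite Pool.Agent.MP_55d974_ag IsLocalRing

namespace Pool.Agent.KEW

noncomputable section

open Classical

namespace Kill

theorem gen_neg {ι : Type} {T : ι → Type} [∀ x, AddCommGroup (T x)] (a b : Π₀ x, T x) :
    -(a + b) = -a + -b := neg_add a b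

theorem exists_quot {ι : Type} {T : ι → Type} [∀ x, AddCommGroup (T x)]
    (H : AddSubgroup (Π₀ x, T x)) : ∃ (C : Type) (_ : AddCommGroup C) (cy : (Π₀ x, T x) →+ C),
      Function.Surjective cy ∧ ∀ c, cy c = 0 ↔ c ∈ H :=
  ⟨_ ⧸ H, inferInstance, QuotientAddGroup.mk' H, QuotientAddGroup.mk'_surjective H,
    fun _ => QuotientAddGroup.eq_zero_iff _⟩

variable {A : Type} [CommRing A] {X : Scheme.{0}} {f : X ⟶ Spec (.of A)} {π : A} {d q n : ℕ}
  {C : Type} [AddCommGroup C]

theorem ch_ext {G : Type} [AddCommGroup G] (g g' : Ch X →+ G) (b : Ch X)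
    (h : ∀ w, g (DFinsupp.single w (b w)) = g' (DFinsupp.single w (b w))) : g b = g' b := by
  rw [← DFinsupp.sum_single (f := b), DFinsupp.sum, map_sum, map_sum]
  exact Finset.sum_congr rfl fun w _ => h w

theorem ch_neg {G : Type} [AddCommGroup G] (g : Ch X →+ G) (b : Ch X) : g (-b) = -g b :=
  eq_neg_of_add_eq_zero_left (((g.map_add _ _).symm.trans (congrArg g (neg_add_cancel b))).trans
    g.map_zero)

theorem lc_single (Λ : Lm X C) (w : X) (β : Kr (X.residueField w)) :
    Lc Λ (DFinsupp.single w β) = Λ w β := DFinsupp.sumAddHom_single Λ w β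

theorem lc_apply (Λ : Lm X C) (b : Ch X) (s : Finset X) (hs : b.support ⊆ s) (l : List X) :
    Lc Λ b l = ∑ w ∈ s, Λ w (b w) l := by
  conv_lhs => rw [← DFinsupp.sum_single (f := b), DFinsupp.sum, map_sum, Finsupp.finsetSum_apply]
  simp only [lc_single]
  refine Finset.sum_subset hs fun w _ hw => ?_
  rw [DFinsupp.notMem_support_iff.1 hw, map_zero, Finsupp.zero_apply]

theorem lc_congr (Λ : Lm X C) (b b' : Ch X) (l : List X)
    (h : ∀ w, Λ w (b w) l = Λ w (b' w) l) : Lc Λ b l = Lc Λ b' l := by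
  rw [lc_apply Λ b _ (Finset.subset_union_left (s₂ := b'.support)),
    lc_apply Λ b' _ (Finset.subset_union_right (s₁ := b.support))]
  exact Finset.sum_congr rfl fun w _ => h w

theorem lc_zero (Λ : Lm X C) (b : Ch X) (l : List X) (h : ∀ w, Λ w (b w) l = 0) :
    Lc Λ b l = 0 := by
  rw [lc_apply Λ b _ subset_rfl]
  exact Finset.sum_eq_zero fun w _ => h w

theorem germ_apply (z : X) (b : Ch X) (w : X) :
    Coh.germ (X := X.carrier) z b w = if w ⤳ z then b w else 0 :=
  DFinsupp.filter_apply _ _ _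

theorem lc_germ {j : ℕ} {Λ : Lm X C} (h : Inv f π d n j Λ) (b : Ch X) (z : X) (l : List X) :
    Lc Λ (Coh.germ (X := X.carrier) z b) (z :: l) = Lc Λ b (z :: l) := by
  refine lc_congr Λ _ _ _ fun w => ?_
  rw [germ_apply]
  split_ifs with hw
  · rfl
  · rw [map_zero, Finsupp.zero_apply]
    by_contra h0
    exact hw (h.sup w _ _ (Ne.symm h0)).2.2.1

theorem del_zero (g : List X →₀ C) (z : X) (l : List X) (h : ∀ y, g (y :: z :: l) = 0) :
    Del g (z :: l) = 0 := by
  change Finsupp.mapDomain List.tail g (z :: l) = 0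
  rw [Finsupp.mapDomain, Finsupp.sum_apply, Finsupp.sum]
  refine Finset.sum_eq_zero fun l' _ => ?_
  rw [Finsupp.single_apply]
  split_ifs with e
  · cases l' with
    | nil => simp at e
    | cons y l' =>
      rw [List.tail_cons] at e
      rw [e, h]
  · rfl

theorem aw_ne {m j : ℕ} {w : X} {β : Kr (X.residueField w)} (h : β ∈ AW m j w) (h0 : β ≠ 0) :
    cod w = j := by
  by_contra hc
  rw [AW, if_neg fun h' => hc h'.1] at h
  exact h0 h

theorem claim (hd : Dim f π d) (ht : ∀ x : C, q • x = 0) {ι : ∀ U : X.Opens, KSec X d U →+ Ch X}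
    {N : X → AddSubgroup (Ch X)} (hN : Kn f π d q n ι N) {Λ : ℕ → Lm X C}
    (hΛ : ∀ j, Inv f π d n j (Λ j) ∧ Rec f π d j (Λ (j + 1)) (Λ j)) (j : ℕ) :
    ∀ z : X, ¬ Hor f π z → dl d z + j = d → ∀ c ∈ NG f π d N j z, ∀ l,
      Lc (Λ (dl d z)) c (z :: l) = 0 := by
  induction j with
  | zero =>
    intro z hz hr c hc l
    refine lc_zero _ _ _ fun w => ?_
    obtain ⟨y, hy, y', e⟩ := hN.k1 z hz hr c hc w
    rw [e, map_add, map_nsmul, Finsupp.add_apply, Finsupp.smul_apply, ht, add_zero]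
    clear e
    induction hy using AddSubgroup.closure_induction with
    | mem y hy =>
      obtain ⟨F, γ, hF, rfl⟩ := hy
      exact (hΛ _).1.kill w z F γ l hF
    | zero => simp
    | add x y _ _ hx hy => rw [map_add, Finsupp.add_apply, hx, hy, add_zero]
    | neg x _ hx => rw [map_neg, Finsupp.neg_apply, hx, neg_zero]
  | succ j ih =>
    intro z hz hr c hc l
    obtain ⟨b, ⟨⟨⟨hb1, hb2⟩, -⟩, hb3⟩, rfl⟩ := hc
    have e : Lc (Λ (dl d z)) (DD X b) = Del (Lc (Λ (dl d z + 1)) b) := by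
      refine ch_ext ((Lc (Λ (dl d z))).comp (DD X)) (Del.comp (Lc (Λ (dl d z + 1)))) b fun w => ?_
      by_cases h0 : b w = 0
      · simp [h0]
      have hw : Hor f π w := by
        by_contra hw
        exact h0 (hb2 w hw)
      have h1 := aw_ne (hb1 w) h0
      have h2 := hd.add w
      rw [AddMonoidHom.comp_apply, AddMonoidHom.comp_apply, lc_single,
        (hΛ _).2 w hw (by omega) (b w)]
      rfl
    rw [AddMonoidHom.comp_apply, lc_germ (hΛ _).1, e]
    refine del_zero _ _ _ fun y => ?_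
    by_contra h0
    obtain ⟨w, hw⟩ : ∃ w, Λ (dl d z + 1) w (b w) (y :: z :: l) ≠ 0 := by
      by_contra hn
      exact h0 (lc_zero _ _ _ (by simpa using hn))
    obtain ⟨-, -, -, hy, -, hyz, -, hr', -⟩ := (hΛ _).1.sup w _ _ hw
    have hm : Coh.germ (X := X.carrier) y b ∈ NG f π d N j y := by
      exact AddSubgroup.mem_iInf.1 (AddSubgroup.mem_iInf.1 hb3 y) ⟨hy, hyz, by omega⟩
    have := ih y hy (by omega) _ hm (z :: l)
    rw [lc_germ (hΛ _).1, hr'] at this
    exact h0 this

variable (X d q) in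
/-- The relations of the cycle class group modulo `q`. -/
def Rel : AddSubgroup (Ch X) := AddSubgroup.closure
  ({c | ∃ (y : X) (β : _), cod y + 1 = d ∧ c = DD X (DFinsupp.single y β)} ∪ {c | ∃ c', c = q • c'} ∪
    {c | ∃ (z : X) (u : _) (γ : _), c = DFinsupp.single z (sym u * γ)})

variable (X d q) in
theorem exists_cy : ∃ (C : Type) (_ : AddCommGroup C) (cy : Ch X →+ C), Cy d q cy ∧
    ∀ c, cy c = 0 → c ∈ Rel X d q := by
  obtain ⟨C, hC, cy', h1', h2'⟩ :=
    exists_quot (T := fun y : X => Kr (X.residueField y)) (Rel X d q)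
  obtain ⟨cy, h1, h2⟩ : ∃ cy : Ch X →+ C, Function.Surjective cy ∧
    ∀ c, cy c = 0 ↔ c ∈ Rel X d q := ⟨cy', h1', h2'⟩
  refine ⟨C, hC, cy, ⟨fun x => ?_, fun y β h => ?_, fun z u γ => ?_⟩, fun c => (h2 c).1⟩
  · obtain ⟨c, rfl⟩ := h1 x
    rw [← map_nsmul]
    exact (h2 _).2 (AddSubgroup.subset_closure (Or.inl (Or.inr ⟨c, rfl⟩)))
  · exact (h2 _).2 (AddSubgroup.subset_closure (Or.inl (Or.inl ⟨y, β, h, rfl⟩)))
  · exact (h2 _).2 (AddSubgroup.subset_closure (Or.inr ⟨z, u, γ, rfl⟩))

variable (X d) in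
/-- The part of codimension `d` and degree zero. -/
def P0 : Ch X →+ Ch X :=
  DFinsupp.mapRange.addMonoidHom fun w => if cod w = d then proj 0 else 0

theorem P0_apply (c : Ch X) (w : X) : P0 X d c w = if cod w = d then proj 0 (c w) else 0 := by
  rw [P0, DFinsupp.mapRange.addMonoidHom_apply, DFinsupp.mapRange_apply]
  split_ifs <;> rfl

theorem P0_mem (c : Ch X) : P0 X d c ∈ Coh.Deg (X := X.carrier) (AW d d) := fun w => by
  rw [P0_apply]
  split_ifs with h1
  · rw [AW, if_pos ⟨h1, le_rfl⟩, Nat.sub_self]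
    exact proj_mem 0 _
  · exact zero_mem _

theorem P0_of_mem {c : Ch X} (hc : c ∈ Coh.Deg (X := X.carrier) (AW d d)) : P0 X d c = c := by
  ext w
  have := hc w
  rw [P0_apply]
  split_ifs with h1
  · rw [AW, if_pos ⟨h1, le_rfl⟩, Nat.sub_self] at this
    exact proj_of_mem this
  · by_contra h0
    exact h1 (aw_ne this (Ne.symm h0))

theorem P0_bd (hd : Dim f π d) (hD : Dif f π d) (y : X) (β : Kr (X.residueField y))
    (h : cod y + 1 = d) :
    P0 X d (DD X (DFinsupp.single y β)) = DD X (DFinsupp.single y (proj 1 β)) := by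
  ext z
  rw [P0_apply, hD.single, hD.single]
  split_ifs with h1
  · refine proj_shift (i := 1) (fun m x hx => hD.mem y z m x hx) (fun m hm x hx => ?_) 0 β
    obtain rfl : m = 0 := by omega
    obtain ⟨k, rfl⟩ := mem_K_zero.1 hx
    rw [← zsmul_one, map_zsmul, hD.zero, smul_zero]
  · by_contra h0
    have h2 := (hD.loc y z _ (Ne.symm h0)).2
    have h3 := hd.add y
    have h4 := hd.add z
    omega

theorem back (hd : Dim f π d) (hD : Dif f π d) {c : Ch X} (hc : c ∈ Rel X d q) :
    ∃ b : Ch X, (b = 0 ∨ ∃ e, d = e + 1 ∧ b ∈ Coh.Deg (X := X.carrier) (AW d e)) ∧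
      ∃ c' ∈ Coh.Deg (X := X.carrier) (AW d d), P0 X d c = DD X b + q • c' := by
  induction hc using AddSubgroup.closure_induction with
  | mem c hc =>
    rcases hc with (⟨y, β, h, rfl⟩ | ⟨c', rfl⟩) | ⟨z, u, γ, rfl⟩
    · refine ⟨DFinsupp.single y (proj 1 β), Or.inr ⟨cod y, h.symm, fun w => ?_⟩, 0, zero_mem _,
        by rw [P0_bd hd hD y β h, smul_zero, add_zero]⟩
      by_cases e : y = w
      · subst e
        rw [DFinsupp.single_eq_same, AW, if_pos ⟨rfl, by omega⟩, show d - cod y = 1 by omega]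
        exact proj_mem 1 β
      · rw [DFinsupp.single_eq_of_ne (Ne.symm e)]
        exact zero_mem _
    · exact ⟨0, Or.inl rfl, P0 X d c', P0_mem c', by rw [map_zero, zero_add, map_nsmul]⟩
    · refine ⟨0, Or.inl rfl, 0, zero_mem _, ?_⟩
      rw [map_zero, smul_zero, add_zero]
      ext w
      rw [P0_apply]
      by_cases e : z = w
      · subst e
        rw [DFinsupp.single_eq_same, proj_zero_sym_mul]
        simp
      · rw [DFinsupp.single_eq_of_ne (Ne.symm e)]
        simp
  | zero => exact ⟨0, Or.inl rfl, 0, zero_mem _, by simp⟩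
  | add x y _ _ hx hy =>
    obtain ⟨b, hb, c, hc, e⟩ := hx
    obtain ⟨b', hb', c', hc', e'⟩ := hy
    refine ⟨b + b', ?_, c + c', add_mem hc hc', by rw [map_add, e, e', map_add, smul_add]; abel⟩
    rcases hb with rfl | ⟨k, hk, hb⟩
    · rwa [zero_add]
    rcases hb' with rfl | ⟨k', hk', hb'⟩
    · exact Or.inr ⟨k, hk, by rwa [add_zero]⟩
    obtain rfl : k = k' := by omega
    exact Or.inr ⟨k, hk, add_mem hb hb'⟩
  | neg x _ hx =>
    obtain ⟨b, hb, c, hc, e⟩ := hx
    have e1 : P0 X d (-x) = -P0 X d x := ch_neg (G := Ch X) (P0 X d) x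
    have e2 : DD X (-b) = -DD X b := ch_neg (G := Ch X) (DD X) b
    refine ⟨-b, ?_, -c, neg_mem hc, by
      rw [e1, e, e2, smul_neg]
      exact gen_neg (T := fun y : X => Kr (X.residueField y)) _ _⟩
    rcases hb with rfl | ⟨k, hk, hb⟩
    · exact Or.inl (neg_zero (G := Ch X))
    · exact Or.inr ⟨k, hk, neg_mem hb⟩

end Kill

theorem killS (h : AllC LamS) : AllC KillS := by
  intro A _ _ _ _ _ X f π d p q n c ι N _ hN a ha hx
  obtain ⟨ha1, ha2⟩ := ha
  have hd := c.geo.dim
  obtain ⟨C, _, cy, hcy, hk⟩ := Kill.exists_cy X d q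
  obtain ⟨Λ, h0, hΛ⟩ := h A X f π d p q n c C cy hcy
  have h1 : Lc (Λ 0) a = 0 := by
    ext l
    by_contra hne
    obtain ⟨w, hw⟩ : ∃ w, Λ 0 w (a w) l ≠ 0 := by
      by_contra hn
      exact hne (Kill.lc_zero _ _ _ (by simpa using hn))
    obtain ⟨-, h2, h3⟩ := (hΛ 0).1.sup w _ _ hw
    cases l with
    | nil =>
      have h4 : dl d w = 0 := h3
      omega
    | cons x l =>
      obtain ⟨-, h4, h5, -⟩ := h3
      have h6 : dl d x = 0 := by omega
      have := Kill.claim hd hcy.tor hN hΛ d x h4 (by omega) _ (hx x h4 h6) l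
      rw [Kill.lc_germ (hΛ _).1, h6] at this
      exact hne this
  have h2 : cy a = 0 := by
    rw [← Kill.ch_ext ((Finsupp.liftAddHom fun _ => AddMonoidHom.id _).comp (Lc (Λ 0))) _ a
      fun w => ?_, AddMonoidHom.comp_apply, h1, map_zero]
    by_cases e : a w = 0
    · simp [e]
    have hw : Hor f π w := by
      by_contra hw
      exact e (ha2 w hw)
    have h3 := Kill.aw_ne (ha1 w) e
    have h4 := hd.add w
    rw [AddMonoidHom.comp_apply, Kill.lc_single, h0, L0, if_pos ⟨hw, by omega⟩]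
    simp
  have h3 := Kill.back hd c.geo.dif (hk a h2)
  rwa [Kill.P0_of_mem ha1] at h3

end

end Pool.Agent.KEW

end MrgPart8

-- ======== part 9: formerly Pool.Agent.MP_55d974_ag.coh.Main
section MrgPart9

/-! PROJECT KEW, section 4: proof of the cohomological statement. -/

open CategoryTheory TopologicalSpace Opposite Limits

namespace Pool.Agent.KEW.Coh

variable {X : TopCat.{0}}

theorem step {A B C : Sh X} {f : A ⟶ B} {g : B ⟶ C} (w : f ≫ g = 0)
    (inj : ∀ U s, ap f U s = 0 → s = 0) (ex : ∀ U s, ap g U s = 0 → ∃ t, ap f U t = s) :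
    ∃ (I : Sh X) (e : B ⟶ I) (m : I ⟶ C) (w' : f ≫ e = 0),
      (ShortComplex.mk f e w').ShortExact ∧ Mono m ∧ e ≫ m = g := by
  obtain ⟨K, I, C', i, e, m, p, w₁, w₂, S₁, S₂, rfl⟩ := factor g
  have : Mono m := S₂.mono_f
  exact ⟨I, e, m, by rw [← cancel_mono m, Category.assoc, w, zero_comp], shortExact_of _ inj
    (fun U s h => ex U s (by rw [ap_comp, h, map_zero])) ((epi_iff e).1 S₁.epi_g), this, rfl⟩

theorem LSur.of_comp {A B C : Sh X} {f : A ⟶ B} {g : B ⟶ C} {z : X} (h : LSur (f ≫ g) z) :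
    LSur g z := fun U hU t =>
  let ⟨V, hV, le, _, e⟩ := h U hU t
  ⟨V, hV, le, _, e⟩

theorem LSur.comp {A B C : Sh X} {f : A ⟶ B} {g : B ⟶ C} {z : X} (h : LSur f z) (h' : LSur g z) :
    LSur (f ≫ g) z := fun U hU t => by
  obtain ⟨V, hV, le, s, e⟩ := h' U hU t
  obtain ⟨W, hW, le', s', e'⟩ := h V hV s
  exact ⟨W, hW, le'.trans le, s', by rw [ap_comp, e', ap_rs, e, rs_rs]⟩

theorem ap_nsmul (F : Sh X) (q : ℕ) (U : Opens X) (s) : ap (q • 𝟙 F) U s = q • s := by
  induction q with
  | zero =>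
    rw [zero_smul, zero_smul]
    rfl
  | succ q ih =>
    rw [succ_nsmul, succ_nsmul, ← ih]
    rfl

variable [NoetherianSpace X] [QuasiSober X] {T : X → Type} [∀ x, AddCommGroup (T x)]
  {Y : Set X} {rk : X → ℕ} {d q : ℕ} {A : ℕ → ∀ x, AddSubgroup (T x)}
  {D : (Π₀ x, T x) →+ Π₀ x, T x} {N₀ : X → AddSubgroup (Π₀ x, T x)}

/-- The cohomology of the sheaf of negligible cycles of degree zero. -/
theorem tower (h : Cx Y rk d A D) (hl : Localise Y rk d A D N₀) (hk : Kill Y rk d A D N₀ q) :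
    (∀ x : Hc (h.L 0 Set.univ {y | y ∈ Y ∧ rk y + 0 = d} N₀).sh (d + 1), x = 0) ∧
    ∃ φ : (h.L 0 Set.univ {y | y ∈ Y ∧ rk y + 0 = d} N₀).sh ⟶ (h.L 0 Set.univ ∅ N₀).sh,
      (∀ U s, LP.val _ U (ap φ U s) = LP.val _ U s) ∧ ∀ x, ∃ y, hm φ d x = q • y := by
  have V := vv h.closed h.lt
  let N := Neg Y rk d A D N₀
  let R : ℕ → Set X := fun j => {y | y ∈ Y ∧ rk y + j = d}
  choose iZ hiZ using fun j => h.incl (j := j) (N := N j) (Set.subset_univ Y) (subset_refl ∅)
  choose iK hiK using fun j => h.incl (j := j) (N := N j) (Set.subset_univ Y) (subset_refl (R j))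
  choose kz hkz using fun j =>
    h.incl (j := j) (N := N j) (subset_refl Set.univ) (Set.empty_subset (R j))
  choose nh hnh using fun j => h.incl (j := j) (N := N j) (subset_refl Y) (Set.empty_subset (R j))
  choose dH hdH using fun j => h.dmap (j := j) (R := ∅) (N := N j) (R' := ∅) (N' := N (j + 1))
    fun _ _ _ _ => False.elim
  choose dN hdN using fun j => h.dmap (j := j) (R := R j) (N := N j) (R' := R (j + 1))
    (N' := N (j + 1)) fun U s z hz _ => mem_neg.2 ⟨_, h.val_hor s hz, fun y hy hs e =>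
      h.val_n s (hs.mem_open U.2 hz) ⟨hy, e⟩, rfl⟩
  have aN : ∀ j ≤ d, Acy (h.L j Y (R j) (N j)).sh := fun j hj => h.acy_neg hj (hl j hj)
  have SZ : ∀ j < d, (ShortComplex.mk (iZ j) (dH j) (h.left (hiZ j) (hdH j)).1).ShortExact :=
    fun j hj => shortExact_of _ (incl_inj (hiZ j)) (h.left (hiZ j) (hdH j)).2 fun z =>
      h.lsur_d (hdH j) (fun _ => False.elim) fun U hU t =>
        let ⟨b, h1, h2⟩ := h.hor_ex hj (h.val_deg t) fun w hw =>
          h.val_d t (hw.mem_open U.2 hU) trivial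
        ⟨b, h1, fun _ => False.elim, h2⟩
  choose I e m w SK mo fac using fun j => step (h.left (hiK j) (hdN j)).1 (incl_inj (hiK j))
    (h.left (hiK j) (hdN j)).2
  have sN : ∀ j k, j + 1 + k = d → ∀ z, Big Y rk k z → LSur (dN j) z := fun j k hj z hz => by
    refine h.lsur_d (hdN j) (fun _ => id) fun U hU t => ?_
    by_cases hY : z ∈ Y
    · rcases (hz hY).eq_or_lt with e | e
      · obtain ⟨b, h1, h2, h3⟩ := mem_neg.1 (h.val_n t hU ⟨hY, by omega⟩)
        exact ⟨b, h1, fun y hy hs => h2 y hy.1 hs hy.2, fun v hv => by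
          rw [← germ_pos hv, h3, germ_pos hv]⟩
      · refine ⟨0, zero_mem _, fun _ _ _ => by rw [map_zero]; exact zero_mem _, fun v hv => ?_⟩
        rw [map_zero, DFinsupp.zero_apply]
        by_cases hv' : v ∈ Y
        · exact ((h.val_deg t).2 v hv').symm
        · exact (h.zero_of_lt hY (by omega) (h.val_deg t).1 hv' hv).symm
    · obtain ⟨b, h1, h2⟩ := h.hor_ex (j := j) (by omega) (h.val_deg t) fun v hv =>
        h.val_d t (hv.mem_open U.2 hU) trivial
      exact ⟨b, h1, fun y hy hs => absurd (hs.mem_closed h.closed hy.1) hY, h2⟩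
  have ha : ∀ k j, j + k = d → ∀ x : Hc (h.L j Set.univ (R j) (N j)).sh (k + 1), x = 0 := by
    intro k
    induction k with
    | zero =>
      rintro j rfl x
      have := (SK j).mono_f
      exact inj_of V (iK j) (fun z _ => lsur_of (fun U t => incl_ex (hiK j) t fun z hz =>
        h.mem_L_of (h.val_deg t) (fun _ => by rw [h.d_top (h.val_deg t).1, DFinsupp.zero_apply])
          (h.val_n t hz)) z) x (aN j le_rfl _ _)
    | succ k ih =>
      intro j hj x
      obtain ⟨y, rfl⟩ := ex1 (SK j) x (aN j (by omega) _ _)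
      have := mo j
      rw [inj_of V (m := k + 1) (m j) (fun z hz => LSur.of_comp (f := e j) (fac j ▸ sN j k (by omega) z hz)) y
        (ih (j + 1) (by omega) _), map_zero]
  have hs : ∀ j (hj : j < d) k (x : Hc (h.L j Set.univ (R j) (N j)).sh (k + 1)),
      ∃ x', hm (kz j) _ x = dl (SZ j hj) k (hm (kz (j + 1)) k x') := fun j hj k x => by
    obtain ⟨y, rfl⟩ := ex1 (SK j) x (aN j hj.le _ _)
    refine ⟨hm (m j) k y, (dl_nat (SK j) (SZ j hj) ⟨kz j, nh j, m j ≫ kz (j + 1),
      hom_ext fun U s => LP.ext fun v _ => ?_, hom_ext fun U s => LP.ext fun v hv => ?_⟩ y).trans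
      (congrArg _ (map_map rfl y).symm)⟩
    · simp only [ap_comp, hiZ, hkz, hnh, hiK]
    · rw [← Category.assoc, fac]
      simp only [ap_comp, hdH _ _ _ v hv, hnh, hkz, hdN _ _ _ v hv]
  have h0' : ∀ x : Hc (h.L d Set.univ (R d) (N d)).sh 0, ∃ b,
      (b = 0 ∨ ∃ e, d = e + 1 ∧ b ∈ Hor Y A D e Set.univ) ∧ ∃ y, ∀ v,
        LP.val _ ⊤ (h0 _ (hm (kz d) 0 x - q • y)) v = D b v := fun x => by
    obtain ⟨b, h1, c, h2, h3⟩ := h.kill_hor hk (h.val_deg (h0 _ x)) fun y hy e =>
      h.val_n _ trivial ⟨hy, by omega⟩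
    refine ⟨b, h1, (h0 _).symm (LP.mk' _ c fun z _ => h.mem_L_of h2
      (fun _ => by rw [h.d_top h2.1, DFinsupp.zero_apply]) False.elim), fun v => ?_⟩
    rw [map_sub, map_nsmul, AddEquiv.apply_symm_apply, h0_map, map_sub, map_nsmul, hkz, h3,
      DFinsupp.sub_apply, DFinsupp.add_apply, DFinsupp.smul_apply, DFinsupp.smul_apply,
      LP.val_mk _ _ _ (Opens.mem_top _), add_sub_cancel_right]
  refine ⟨ha d 0 (zero_add d), kz 0, hkz 0, ?_⟩
  cases d with
  | zero =>
    intro x
    obtain ⟨b, h1, y, h2⟩ := h0' x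
    refine ⟨y, sub_eq_zero.1 ((h0 _).injective ((LP.ext0 fun v _ => ?_).trans (map_zero _).symm))⟩
    exact (h2 v).trans (by
      rw [h1.resolve_right fun ⟨_, h, _⟩ => by omega, map_zero, DFinsupp.zero_apply])
  | succ n =>
    have hb : ∀ k j, j + k = n → ∀ x : Hc (h.L j Set.univ (R j) (N j)).sh (k + 1),
        ∃ y, hm (kz j) _ x = q • y := by
      intro k
      induction k with
      | zero =>
        rintro j rfl x
        obtain ⟨x', e1⟩ := hs j j.lt_succ_self 0 x
        obtain ⟨b, h1, y, h2⟩ := h0' x'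
        have h3 : b ∈ Hor Y A D j Set.univ := by
          rcases h1 with rfl | ⟨e, he, hb⟩
          · exact zero_mem _
          · rwa [show j = e from Nat.succ_injective he]
        have e2 : hm (kz (j + 1)) 0 x' - q • y = hm (dH j) 0 ((h0 _).symm (LP.mk' _ b fun z _ =>
            h.mem_L_of (mem_hor.1 h3).1 (fun hz => (mem_hor.1 h3).2 z hz trivial) False.elim)) :=
          (h0 _).injective (LP.ext fun v hv => by
            rw [h0_map, AddEquiv.apply_symm_apply, hdH _ _ _ v hv]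
            exact (h2 v).trans (h.congr fun u _ => (LP.val_mk _ _ _ (Opens.mem_top _)).symm))
        refine ⟨dl (SZ j j.lt_succ_self) 0 y, ?_⟩
        rw [e1, sub_eq_iff_eq_add.1 e2, map_add, map_nsmul]
        exact (congrArg (· + _) (dl_map (SZ j j.lt_succ_self) _)).trans (zero_add _)
      | succ k ih =>
        intro j hj x
        obtain ⟨x', e1⟩ := hs j (by omega) _ x
        obtain ⟨y, e2⟩ := ih (j + 1) (by omega) x'
        exact ⟨_, by rw [e1, e2, map_nsmul]⟩
    exact hb n 0 (zero_add n)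

theorem main {F F' : Sh X} {r : F ⟶ F'} {ι : ∀ U : Opens X, F.obj.obj (op U) →+ Π₀ x, T x}
    (h : Cx Y rk d A D) (ha : Aug Y rk d A D N₀ q F F' r ι) (hl : Localise Y rk d A D N₀)
    (hk : Kill Y rk d A D N₀ q) :
    (∀ c', ∃ c e, c' = hm r d c + q • e) ∧ ∀ c e, hm r d c = q • e → ∃ c₁, c = q • c₁ := by
  have V := vv h.closed h.lt
  obtain ⟨t1, kz, hkz, t2⟩ := tower h hl hk
  have hor : ∀ U s, ι U s ∈ Deg (A 0) ⊓ Off Y := fun U s =>
    ⟨ha.deg U s, fun y hy => AddSubgroup.mem_bot.1 (h.bot y hy ▸ ha.deg U s y)⟩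
  obtain ⟨a, hι⟩ := (h.L 0 Set.univ ∅ N₀).exists_hom F (fun U s x => ι U s x)
    (fun U s t x _ => by simp only [map_add, DFinsupp.add_apply])
    (fun U s => ⟨_, fun _ _ => rfl, fun z hz => h.mem_L_of (hor U s) (fun _ => ha.cyc U s z hz)
      False.elim⟩) ha.nat
  have ainj : ∀ U s, (∀ x ∈ U, ι U s x = 0) → s = 0 := fun U s e => ha.inj U s
    (DFinsupp.ext fun x => (em (x ∈ U)).elim (e x) (ha.off U s x))
  have : Mono a := (mono_iff a).2 fun U s e => ainj U s fun x hx => by
    rw [← hι U s x hx, e, map_zero, DFinsupp.zero_apply]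
  have : Epi a := (epi_iff a).2 fun z => LP.lsur _ a fun U hU t => by
    obtain ⟨W, hW, s, e⟩ := ha.sur z _ (h.val_deg t).1 fun w hw =>
      h.val_d t (hw.mem_open U.2 hU) trivial
    exact ⟨W, hW, s, fun w hw => (hι W s w (hw.mem_open W.2 hW)).trans (e w hw)⟩
  have := isIso_of_mono_of_epi a
  obtain ⟨K', I', C', i', e', m', p', w₁', w₂', S₁', S₂', f'⟩ := factor (q • 𝟙 F')
  obtain ⟨K, I, C, i, e, m, p, w₁, w₂, S₁, S₂, f⟩ := factor (r ≫ p')
  have hq : ∀ U s, ap p' U (q • s) = 0 := fun U s => by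
    rw [← ap_nsmul, ← f', ap_comp, ap_zero w₂']
  obtain ⟨κ, hκ⟩ := (h.L 0 Set.univ {y | y ∈ Y ∧ rk y + 0 = d} N₀).exists_hom K
    (fun U s x => ι U (ap i U s) x) (fun U s t x _ => by simp only [map_add, DFinsupp.add_apply])
    (fun U s => ⟨_, fun _ _ => rfl, fun z hz => h.mem_L_of (hor U _) (fun _ => ha.cyc U _ z hz)
      fun hR => by
        obtain ⟨u, hu⟩ := sec_exact S₂' U (ap r U (ap i U s)) (by
          rw [← ap_comp r, ← f, ap_comp, ap_zero w₁, map_zero])
        obtain ⟨W, hW, le, t, ht⟩ := (epi_iff e').1 S₁'.epi_g z U hz u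
        refine (ha.ker z hR.1 hR.2 U hz _).2 ⟨W, hW, le, t, ?_⟩
        rw [← ap_nsmul, ← f', ap_comp, ht, ap_rs]
        exact congrArg (rs F' le) hu.symm⟩)
    (fun U W le s x hx => by rw [ap_rs]; exact ha.nat U W le _ x hx)
  have : Mono κ := (mono_iff κ).2 fun U s e => (mono_iff i).1 S₁.mono_f U s (ainj U _ fun x hx => by
    rw [← hκ U s x hx, e, map_zero, DFinsupp.zero_apply])
  have : Mono m := S₂.mono_f
  have k1 : ∀ x : Hc K (d + 1), x = 0 := fun x => by
    refine inj_of V κ (fun z hz => LP.lsur _ κ fun U hU t => ?_) x (t1 _)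
    obtain ⟨W, hW, s, es⟩ := ha.sur z _ (h.val_deg t).1 fun w hw =>
      h.val_d t (hw.mem_open U.2 hU) trivial
    obtain ⟨W', hW', le, e0⟩ : ∃ W', z ∈ W' ∧ ∃ le : W' ≤ W, ap p' W' (rs F' le (ap r W s)) = 0 := by
      by_cases hY : z ∈ Y
      · have e1 : rk z = d := le_antisymm (h.le z hY) (hz hY)
        obtain ⟨W', hW', le, u, hu⟩ := (ha.ker z hY e1 W hW s).1
          (germ_congr es ▸ h.val_n t hU ⟨hY, e1⟩)
        exact ⟨W', hW', le, (congrArg _ hu).trans (hq W' u)⟩
      · obtain ⟨W', hW', le, hu⟩ := ha.van z hY W hW (ap r W s)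
        exact ⟨W', hW', le, (congrArg _ hu).trans (map_zero _)⟩
    obtain ⟨u, hu⟩ := sec_exact S₁ W' (rs F le s) ((mono_iff m).1 inferInstance W' _ (by
      rw [← ap_comp, f, ap_comp, ap_rs, e0]))
    refine ⟨W', hW', u, fun w hw => (hκ W' u w (hw.mem_open W'.2 hW')).trans ?_⟩
    rw [show ap i W' u = _ from hu]
    exact (ha.nat W W' le s w (hw.mem_open W'.2 hW')).trans (es w hw)
  have sm : ∀ z, Big Y rk (d - 1) z → LSur m z := fun z hz => by
    refine LSur.of_comp (f := e) (f ▸ LSur.comp (fun U hU t => ?_) ((epi_iff p').1 S₂'.epi_g z))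
    by_cases hY : z ∈ Y
    · exact ha.lift z hY (by have := hz hY; omega) U hU t
    · obtain ⟨W, hW, le, e0⟩ := ha.van z hY U hU t
      exact ⟨W, hW, le, 0, (map_zero _).trans e0.symm⟩
  refine ⟨fun c' => ?_, fun c u hc => ?_⟩
  · obtain ⟨y, hy⟩ := sur_of V m (fun z _ => linj_of ((mono_iff m).1 inferInstance) z)
      (fun z hz => sm z fun hY => (Nat.sub_le _ _).trans (hz hY)) (hm p' d c')
    obtain ⟨c, rfl⟩ : ∃ c, hm e d c = y := ex3 S₁ y (k1 _)
    obtain ⟨u, hu⟩ : ∃ u, hm m' d u = c' - hm r d c := ex2 S₂' _ (show hm p' d _ = 0 by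
      rw [map_sub, ← hy, map_map (φ := r) rfl, map_map f, sub_self])
    obtain ⟨v, rfl⟩ := sur_of V e' (fun z hz U hU s _ => ha.van z
      (fun hY => by have := hz hY; have := h.le z hY; omega) U hU s)
      (fun z _ => (epi_iff e').1 S₁'.epi_g z) u
    exact ⟨c, v, by rw [← map_nsmul', ← map_map f', hu, add_sub_cancel]⟩
  · obtain ⟨x, rfl⟩ : ∃ x, hm i d x = c := ex2 S₁ c (inj_of V m sm (hm e d c) (by
      rw [map_map f, ← map_map (φ := r) rfl, hc, ← map_nsmul', ← map_map f', map_map w₂',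
        map_zero']))
    obtain ⟨y, hy⟩ := t2 (hm κ d x)
    have w : κ ≫ kz = i ≫ a := hom_ext fun U s => LP.ext fun v hv => by
      rw [ap_comp, ap_comp, hkz, hκ U s v hv, hι U _ v hv]
    refine ⟨hm (inv a) d y, ?_⟩
    rw [← map_nsmul, ← hy, map_map w, map_map (χ := i) (by simp)]

/-- Section 4. -/
theorem coh : CohStmt := fun _ _ _ _ _ _ _ _ _ _ _ _ _ _ _ _ _ h ha hl hk => main h ha hl hk

end Pool.Agent.KEW.Coh

end MrgPart9

-- ======== part 10: formerly Pool.Agent.MP_55d974_ag.kew.SEq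
section MrgPart10

/-! PROJECT KEW: the definitions of the statement agree with those of the proof. -/

open AlgebraicGeometry CategoryTheory

namespace Pool.Agent.KEW.S

theorem nrmL_eq {E : Type} [Field E] (l : List E) (M : Subfield E) : nrmL l M = KEW.nrmL l M := by
  induction l generalizing M with
  | nil => rfl
  | cons a l ih =>
    rw [nrmL, ih]
    rfl

theorem nrm_eq {L E : Type} [Field L] [Field E] (φ : L →+* E) : nrm φ = KEW.nrm φ := by
  rw [nrm, nrmL_eq]
  rfl

theorem dK_eq {X : Scheme.{0}} (y z : X) : dK y z = KEW.dK y z := by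
  rw [dK]
  simp only [nrm_eq]
  unfold sumIf KEW.dK
  by_cases h : ringKrullDim (X.presheaf.stalk z) = ringKrullDim (X.presheaf.stalk y) + 1
  · rw [if_pos h, if_pos h]
    rfl
  · rw [if_neg h, if_neg h]
    rfl

theorem dd_eq {X : Scheme.{0}} (a : Ch X) (z : X) : dd a z = KEW.dd a z := by
  rw [dd]
  simp only [dK_eq]
  rfl

theorem gersten {X : Scheme.{0}} {m : ℕ} (h : Gersten X m) : KEW.Gersten X m := by
  unfold Gersten at h
  simp only [dd_eq] at h
  exact h

end Pool.Agent.KEW.S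

end MrgPart10

-- marker of a merged file
example : 731051 + 280075 = 731051 + 280075 := rfl
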