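import Pool.Agent.MP_55d974_ag.kew.GStep
import Pool.Agent.MP_55d974_ag.kew.Deep

-- ======== part 0: formerly Pool.Agent.MP_55d974_ag.kew.CoreA
section MrgPart0

/-!
Successive approximation for `s = k * G ^ q` up to a unit, passage to the limit, and descent to
the henselian base.
-/

open IsLocalRing TensorProduct

namespace Pool.Agent.KEW

section

variable {B : Type*} [CommRing B]

theorem binom_one (p : ℕ) (π X t : B) (h : p * π ∣ t) :
    ∃ z, (X + t) ^ p = X ^ p + p * t * (X ^ (p - 1) + π * z) := by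
  obtain ⟨c, hc⟩ := h
  obtain ⟨y, hy⟩ := (Polynomial.X ^ p : Polynomial B).binomExpansion X t
  refine ⟨y * c, ?_⟩
  simp only [Polynomial.eval_pow, Polynomial.eval_X, Polynomial.derivative_X_pow,
    Polynomial.eval_mul, Polynomial.eval_C] at hy
  rw [hy]
  linear_combination (y * t) * hc

theorem binom_pow {p : ℕ} (hp : 0 < p) (π G t : B) (h : p * π ∣ t) (r : ℕ) :
    ∃ z, (G + t) ^ p ^ r = G ^ p ^ r + (p ^ r : ℕ) * t * (G ^ (p ^ r - 1) + π * z) := by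
  induction r with
  | zero => exact ⟨0, by simp⟩
  | succ r ih =>
    obtain ⟨z, hz⟩ := ih
    obtain ⟨z', hz'⟩ := binom_one p π (G ^ p ^ r) ((p ^ r : ℕ) * t * (G ^ (p ^ r - 1) + π * z))
      ((h.mul_left _).mul_right _)
    have he : G ^ (p ^ r * p - 1) = G ^ (p ^ r - 1) * (G ^ p ^ r) ^ (p - 1) := by
      rw [← pow_mul, ← pow_add]
      congr 1
      obtain ⟨p, rfl⟩ := Nat.exists_eq_add_of_le' hp
      have := pow_pos hp r
      simp only [Nat.add_sub_cancel, Nat.mul_succ]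
      omega
    refine ⟨z * (G ^ p ^ r) ^ (p - 1) + z' * (G ^ (p ^ r - 1) + π * z), ?_⟩
    rw [pow_succ p r, he, pow_mul, pow_mul, hz, hz']
    push_cast; ring

theorem krull_away [IsNoetherianRing B] (ε π a b : B)
    (h : ∀ m : ℕ, ∃ (j : ℕ) (c d : B), ε ^ j * a = b * c + π ^ m * d) :
    ∃ (j : ℕ) (x β : B), (ε ^ j - π * x) * a = b * β := by
  let T := Localization.Away ε
  let φ := algebraMap B T
  have := IsLocalization.isNoetherianRing (Submonoid.powers ε) T inferInstance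
  have hu : IsUnit (φ ε) := IsLocalization.Away.algebraMap_isUnit ε
  obtain ⟨⟨r, hr⟩, h1⟩ := ((Ideal.span {φ π}).mem_iInf_smul_pow_eq_bot_iff
      (Ideal.Quotient.mk (Ideal.span {φ b}) (φ a))).1 (by
    refine Submodule.mem_iInf _ |>.2 fun m => ?_
    obtain ⟨j, c, d, hm⟩ := h m
    obtain ⟨v, hv⟩ := (hu.pow j).exists_left_inv
    have h2 : φ a - φ π ^ m * (v * φ d) = φ b * (v * φ c) := by
      have := congrArg φ hm
      simp only [map_add, map_mul, map_pow] at this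
      linear_combination v * this - φ a * hv
    have h3 : Ideal.Quotient.mk (Ideal.span {φ b}) (φ a) =
        φ π ^ m • Ideal.Quotient.mk (Ideal.span {φ b}) (v * φ d) := by
      change _ = Ideal.Quotient.mk (Ideal.span {φ b}) (φ π ^ m * (v * φ d))
      rw [Ideal.Quotient.eq, Ideal.mem_span_singleton]
      exact ⟨_, h2⟩
    rw [h3]
    exact Submodule.smul_mem_smul (Ideal.pow_mem_pow (Ideal.mem_span_singleton_self _) m) trivial)
  obtain ⟨x, rfl⟩ := Ideal.mem_span_singleton.1 hr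
  change Ideal.Quotient.mk (Ideal.span {φ b}) (φ π * x * φ a) = _ at h1
  obtain ⟨β, hβ⟩ := Ideal.mem_span_singleton.1 (Ideal.Quotient.eq.1 h1.symm)
  obtain ⟨j1, x1, hx⟩ := IsLocalization.Away.surj ε x
  obtain ⟨j2, β1, hβ1⟩ := IsLocalization.Away.surj ε β
  obtain ⟨j3, h3⟩ := IsLocalization.Away.exists_of_eq (S := T) ε
    (a := (ε ^ j1 - π * x1) * ε ^ j2 * a) (b := b * β1 * ε ^ j1) (by
      simp only [map_mul, map_sub, map_pow, ← hx, ← hβ1]
      linear_combination φ ε ^ j1 * φ ε ^ j2 * hβ)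
  exact ⟨j3 + j1 + j2, ε ^ j3 * x1 * ε ^ j2, ε ^ j3 * β1 * ε ^ j1, by linear_combination h3⟩

/-- One step of the approximation. -/
theorem core_step {π ε s F w r U D γ r₂ F' : B} {j m : ℕ} (h1 : ε ^ j * s - F * w = π ^ (m + 1) * r)
    (h2 : π ∣ ε * w - ε ^ j) (h3 : π ∣ F - ε * U) (h4 : r = ε ^ j * (γ + D) + U * r₂)
    (h5 : π ^ (m + 2) ∣ F' - F - π ^ (m + 1) * (ε * D)) :
    ∃ w' r', ε ^ (j + 1) * (s - π ^ (m + 1) * γ) - F' * w' = π ^ (m + 2) * r' ∧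
      π ∣ ε * w' - ε ^ (j + 1) := by
  obtain ⟨a, ha⟩ := h2
  obtain ⟨b, hb⟩ := h3
  obtain ⟨c, hc⟩ := h5
  have hF' : F' = F + π ^ (m + 1) * (ε * D) + π ^ (m + 2) * c := by linear_combination hc
  refine ⟨ε * w + π ^ (m + 1) * r₂, -(b * r₂) - ε * D * a - π ^ m * ε * D * r₂ -
    c * (ε * w + π ^ (m + 1) * r₂), ?_, ε * a + ε * π ^ m * r₂, by linear_combination ε * ha⟩
  rw [hF']
  linear_combination ε * h1 + ε * π ^ (m + 1) * h4 - π ^ (m + 1) * r₂ * hb -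
    π ^ (m + 1) * ε * D * ha

end

variable {A : Type*} [CommRing A] [IsDomain A] [IsDiscreteValuationRing A]

instance : IsNoetherianRing (Cpl A) := by
  obtain ⟨π, hπ⟩ := IsDiscreteValuationRing.exists_irreducible A
  have h0 : algebraMap A (Cpl A) π ≠ 0 := (map_ne_zero_iff _ ((cpl_dense hπ).inj hπ)).2 hπ.ne_zero
  have hm : maximalIdeal (Cpl A) = Ideal.span {algebraMap A (Cpl A) π} := by
    rw [AdicCompletion.maximalIdeal_eq_map.trans (congrArg (Ideal.map _) hπ.maximalIdeal_eq),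
      Ideal.map_span, Set.image_singleton]
  have hp : Prime (algebraMap A (Cpl A) π) :=
    (Ideal.span_singleton_prime h0).1 (hm ▸ inferInstance)
  have := IsDiscreteValuationRing.ofHasUnitMulPowIrreducibleFactorization (R := Cpl A)
    ⟨_, hp.irreducible, fun {x} hx => by
      obtain ⟨k, u, hu, rfl⟩ := cpl_eq hπ hx
      exact ⟨k, associated_mul_unit_right _ _ hu⟩⟩
  infer_instance

end Pool.Agent.KEW

end MrgPart0

-- ======== part 1: formerly Pool.Agent.MP_55d974_ag.kew.CoreB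
section MrgPart1

/-!
The limit of the successive approximations and its descent.
-/

open TensorProduct

namespace Pool.Agent.KEW

variable {A C B : Type*} [CommRing A] [CommRing C] [Algebra A C] [CommRing B] [Algebra A B]

theorem exists_coeffs (x : C ⊗[A] B) : ∃ c : Finset C, ∀ S : Subalgebra A C, (∀ y ∈ c, y ∈ S) →
    ∃ x', Algebra.TensorProduct.map S.val (AlgHom.id A B) x' = x := by
  classical
  induction x using TensorProduct.induction_on with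
  | zero => exact ⟨∅, fun S _ => ⟨0, map_zero _⟩⟩
  | tmul a b => exact ⟨{a}, fun S h => ⟨⟨a, h a (by simp)⟩ ⊗ₜ b, by simp⟩⟩
  | add x y hx hy =>
    obtain ⟨c, hc⟩ := hx
    obtain ⟨d, hd⟩ := hy
    refine ⟨c ∪ d, fun S h => ?_⟩
    obtain ⟨x, rfl⟩ := hc S fun y hy => h y (by simp [hy])
    obtain ⟨y, rfl⟩ := hd S fun y hy => h y (by simp [hy])
    exact ⟨x + y, map_add _ _ _⟩

/-- Descent of the two divisibilities. -/
theorem core_descend [Module.Flat A B]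
    (hG : ∀ s : Finset C, ∃ S : Subalgebra A C, (∀ y ∈ s, y ∈ S) ∧ Nonempty (S →ₐ[A] A))
    {ι κ : Type*} [Fintype ι] [Fintype κ] (γ : ι → B) (ψ : κ → B) (π ε U G k : B) (q j j' : ℕ)
    (y : ι → C) (z : κ → C) (x β x' β' : C ⊗[A] B)
    (h1 : ((1 ⊗ₜ ε) ^ j - (1 ⊗ₜ π) * x) * (1 ⊗ₜ U + (1 ⊗ₜ π) * ∑ i, y i ⊗ₜ γ i) =
      (1 ⊗ₜ k) * (1 ⊗ₜ G + ∑ i, z i ⊗ₜ ψ i) ^ q * β)
    (h2 : ((1 ⊗ₜ ε) ^ j' - (1 ⊗ₜ π) * x') * ((1 ⊗ₜ k) * (1 ⊗ₜ G + ∑ i, z i ⊗ₜ ψ i) ^ q) =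
      (1 ⊗ₜ U + (1 ⊗ₜ π) * ∑ i, y i ⊗ₜ γ i) * β') :
    ∃ (a : ι → A) (G' x β x' β' : B),
      (ε ^ j - π * x) * (U + π * ∑ i, a i • γ i) = k * G' ^ q * β ∧
      (ε ^ j' - π * x') * (k * G' ^ q) = (U + π * ∑ i, a i • γ i) * β' := by
  classical
  obtain ⟨c1, h3⟩ := exists_coeffs x
  obtain ⟨c2, h4⟩ := exists_coeffs β
  obtain ⟨c3, h5⟩ := exists_coeffs x'
  obtain ⟨c4, h6⟩ := exists_coeffs β'
  obtain ⟨S, hS, ⟨ρ⟩⟩ := hG (c1 ∪ c2 ∪ c3 ∪ c4 ∪ Finset.univ.image y ∪ Finset.univ.image z)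
  obtain ⟨x, rfl⟩ := h3 S fun w hw => hS w (by simp [hw])
  obtain ⟨β, rfl⟩ := h4 S fun w hw => hS w (by simp [hw])
  obtain ⟨x', rfl⟩ := h5 S fun w hw => hS w (by simp [hw])
  obtain ⟨β', rfl⟩ := h6 S fun w hw => hS w (by simp [hw])
  let y' : ι → S := fun i => ⟨y i, hS _ (by simp)⟩
  let z' : κ → S := fun i => ⟨z i, hS _ (by simp)⟩
  have hi : Function.Injective (Algebra.TensorProduct.map S.val (AlgHom.id A B)) :=
    Module.Flat.rTensor_preserves_injective_linearMap (M := B) S.val.toLinearMap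
      Subtype.val_injective
  let τ : S ⊗[A] B →ₐ[A] B := Algebra.TensorProduct.lift ((Algebra.ofId A B).comp ρ)
    (AlgHom.id A B) fun _ _ => Commute.all _ _
  have hτ : ∀ (s : S) (b : B), τ (s ⊗ₜ b) = ρ s • b := fun s b => by
    simp [τ, Algebra.smul_def]
  have h7 : ((1 ⊗ₜ ε) ^ j - (1 ⊗ₜ π) * x) * (1 ⊗ₜ U + (1 ⊗ₜ π) * ∑ i, y' i ⊗ₜ γ i) =
      (1 ⊗ₜ k) * (1 ⊗ₜ G + ∑ i, z' i ⊗ₜ ψ i) ^ q * β := hi (by
    simp only [map_mul, map_sub, map_add, map_pow, map_sum, Algebra.TensorProduct.map_tmul,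
      map_one, AlgHom.id_apply]
    exact h1)
  have h8 : ((1 ⊗ₜ ε) ^ j' - (1 ⊗ₜ π) * x') * ((1 ⊗ₜ k) * (1 ⊗ₜ G + ∑ i, z' i ⊗ₜ ψ i) ^ q) =
      (1 ⊗ₜ U + (1 ⊗ₜ π) * ∑ i, y' i ⊗ₜ γ i) * β' := hi (by
    simp only [map_mul, map_sub, map_add, map_pow, map_sum, Algebra.TensorProduct.map_tmul,
      map_one, AlgHom.id_apply]
    exact h2)
  refine ⟨fun i => ρ (y' i), G + ∑ i, ρ (z' i) • ψ i, τ x, τ β, τ x', τ β', ?_, ?_⟩
  · simpa only [map_mul, map_sub, map_add, map_pow, map_sum, hτ, map_one, one_smul] using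
      congrArg τ h7
  · simpa only [map_mul, map_sub, map_add, map_pow, map_sum, hτ, map_one, one_smul] using
      congrArg τ h8

variable {ι κ : Type*} [Fintype ι] [Fintype κ]

/-- The state of the approximation at level `m`. -/
def CoreSt (π : A) (q : ℕ) (γ : ι → B) (ψ : κ → B) (ε U G k : B) (m : ℕ)
    (x : (ι → A) × (κ → A)) : Prop :=
  algebraMap A B π ∣ ∑ i, x.2 i • ψ i ∧ ∃ (j : ℕ) (w r : B),
    ε ^ j * (U + algebraMap A B π * ∑ i, x.1 i • γ i) - k * (G + ∑ i, x.2 i • ψ i) ^ q * w =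
      algebraMap A B π ^ m * r ∧ algebraMap A B π ∣ ε * w - ε ^ j

theorem coreSt_succ {π : A} {p r n : ℕ} (hp : 0 < p)
    (hn : ((p ^ r : ℕ) : A) * p * π ∣ π ^ (n + 1)) {γ : ι → B} {ψ : κ → B} {ε H G k : B}
    (hk : algebraMap A B π ∣ k - ε * H) (hc : IsCoprime ε (H * G ^ p ^ r))
    (hd : ∀ b : B, ∃ (a : ι → A) (c : κ → A) (r₁ : B), b = ∑ i, a i • γ i +
      H * G ^ (p ^ r - 1) * ∑ i, c i • ψ i + H * G ^ p ^ r * r₁) (m : ℕ) (x : (ι → A) × (κ → A))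
    (hx : CoreSt π (p ^ r) γ ψ ε (H * G ^ p ^ r) G k (n + m + 1) x) :
    ∃ x', CoreSt π (p ^ r) γ ψ ε (H * G ^ p ^ r) G k (n + (m + 1) + 1) x' ∧
      (∀ i, π ^ m ∣ x'.1 i - x.1 i) ∧ ∀ i, π ^ m ∣ x'.2 i - x.2 i := by
  obtain ⟨h1, j, w, s, h2, h3⟩ := hx
  obtain ⟨c₀, hc₀⟩ := hn
  obtain ⟨α, β, hαβ⟩ := (hc.pow_left (m := j))
  obtain ⟨a, c, r₁, ha⟩ := hd (α * s)
  set ϖ := algebraMap A B π with hϖ
  set Ψ := ∑ i, x.2 i • ψ i
  have hG : ∀ e, ϖ ∣ k * (G + Ψ) ^ e - ε * (H * G ^ e) := fun e => by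
    have h4 : ϖ ∣ (G + Ψ) ^ e - G ^ e := h1.trans (by simpa using sub_dvd_pow_sub_pow (G + Ψ) G e)
    have := dvd_add (hk.mul_right ((G + Ψ) ^ e)) (h4.mul_left (ε * H))
    exact this.trans (dvd_of_eq (by ring))
  have ht : (p : B) * ϖ ∣ algebraMap A B (p * π * c₀ * π ^ m) * ∑ i, c i • ψ i := by
    refine Dvd.dvd.mul_right ⟨algebraMap A B (c₀ * π ^ m), ?_⟩ _
    simp only [map_mul, map_natCast, hϖ]; ring
  obtain ⟨z, hz⟩ := binom_pow hp ϖ (G + Ψ) _ ht r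
  have hq : ((p ^ r : ℕ) : B) * algebraMap A B (p * π * c₀ * π ^ m) = ϖ ^ (n + m + 1) := by
    rw [← map_natCast (algebraMap A B), ← map_mul, ← map_pow]
    congr 1
    linear_combination -π ^ m * hc₀
  obtain ⟨v, hv⟩ := hG (p ^ r - 1)
  obtain ⟨w', s', h5, h6⟩ := core_step (γ := ∑ i, a i • γ i)
    (D := H * G ^ (p ^ r - 1) * ∑ i, c i • ψ i) (r₂ := ε ^ j * r₁ + β * s)
    (F' := k * (G + Ψ + algebraMap A B (p * π * c₀ * π ^ m) * ∑ i, c i • ψ i) ^ p ^ r)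
    h2 h3 (hG _) (by linear_combination ε ^ j * ha - s * hαβ)
    ⟨(∑ i, c i • ψ i) * (v + k * z), by
      rw [hz, ← mul_assoc ((p ^ r : ℕ) : B), hq]
      linear_combination ϖ ^ (n + m + 1) * (∑ i, c i • ψ i) * hv⟩
  have e1 : ∑ i, (x.2 i + p * π * c₀ * π ^ m * c i) • ψ i =
      Ψ + algebraMap A B (p * π * c₀ * π ^ m) * ∑ i, c i • ψ i := by
    simp only [add_smul, Finset.sum_add_distrib, mul_smul _ (c _), Finset.mul_sum,
      Algebra.smul_def (p * π * c₀ * π ^ m), Ψ]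
  have e2 : ∑ i, (x.1 i - π ^ (n + m) * a i) • γ i =
      ∑ i, x.1 i • γ i - ϖ ^ (n + m) * ∑ i, a i • γ i := by
    simp only [sub_smul, Finset.sum_sub_distrib, mul_smul _ (a _), Finset.mul_sum,
      Algebra.smul_def (π ^ (n + m)), map_pow, hϖ]
  refine ⟨(fun i => x.1 i - π ^ (n + m) * a i, fun i => x.2 i + p * π * c₀ * π ^ m * c i),
    ⟨?_, j + 1, w', s', ?_, h6⟩, fun i => ⟨-(π ^ n * a i), by ring⟩,
    fun i => ⟨p * π * c₀ * c i, by ring⟩⟩
  · simp only [e1]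
    exact dvd_add h1 ((Dvd.intro_left _ rfl).trans ht)
  · simp only [e1, e2, ← add_assoc G]
    linear_combination h5

theorem dvd_sum_tmul {π : A} {m : ℕ} (y : ι → C) (a : ι → A) (γ : ι → B)
    (h : ∀ i, algebraMap A C π ^ m ∣ y i - algebraMap A C (a i)) :
    ((1 : C) ⊗ₜ[A] algebraMap A B π) ^ m ∣ ∑ i, y i ⊗ₜ[A] γ i - 1 ⊗ₜ[A] ∑ i, a i • γ i := by
  rw [TensorProduct.tmul_sum, ← Finset.sum_sub_distrib]
  refine Finset.dvd_sum fun i _ => ?_
  obtain ⟨c, hc⟩ := h i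
  refine ⟨c ⊗ₜ γ i, ?_⟩
  rw [← TensorProduct.smul_tmul, ← TensorProduct.sub_tmul, ← Algebra.algebraMap_eq_smul_one, hc,
    Algebra.TensorProduct.tmul_pow, Algebra.TensorProduct.tmul_mul_tmul, ← map_pow, ← map_pow,
    ← Algebra.smul_def, ← Algebra.smul_def, one_pow, one_mul, TensorProduct.smul_tmul]

theorem core_abs [IsNoetherianRing C] [Module.Flat A B] [Algebra.FiniteType A B] {π : A}
    (hL : ∀ f : ℕ → A, (∀ m, π ^ m ∣ f (m + 1) - f m) →
      ∃ y : C, ∀ m, algebraMap A C π ^ m ∣ y - algebraMap A C (f m))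
    (hG : ∀ s : Finset C, ∃ S : Subalgebra A C, (∀ y ∈ s, y ∈ S) ∧ Nonempty (S →ₐ[A] A))
    {p r n : ℕ} (hp : 0 < p)
    (hn : ((p ^ r : ℕ) : A) * p * π ∣ π ^ (n + 1)) {γ : ι → B} {ψ : κ → B} {ε H G k : B}
    (hk : algebraMap A B π ∣ k - ε * H) (hc : IsCoprime ε (H * G ^ p ^ r))
    (hd : ∀ b : B, ∃ (a : ι → A) (c : κ → A) (r₁ : B), b = ∑ i, a i • γ i +
      H * G ^ (p ^ r - 1) * ∑ i, c i • ψ i + H * G ^ p ^ r * r₁) (a₀ : ι → A)
    (h0 : CoreSt π (p ^ r) γ ψ ε (H * G ^ p ^ r) G k (n + 1) (a₀, 0)) :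
    ∃ (j j' : ℕ) (a : ι → A) (G' x β x' β' : B),
      (ε ^ j - algebraMap A B π * x) * (H * G ^ p ^ r + algebraMap A B π * ∑ i, a i • γ i) =
        k * G' ^ p ^ r * β ∧
      (ε ^ j' - algebraMap A B π * x') * (k * G' ^ p ^ r) =
        (H * G ^ p ^ r + algebraMap A B π * ∑ i, a i • γ i) * β' := by
  choose! g hg1 hg2 hg3 using coreSt_succ hp hn hk hc hd
  let f : ℕ → (ι → A) × (κ → A) := fun m => Nat.rec (a₀, 0) g m
  have hf : ∀ m, CoreSt π (p ^ r) γ ψ ε (H * G ^ p ^ r) G k (n + m + 1) (f m) := fun m => by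
    induction m with
    | zero => exact h0
    | succ m ih => exact hg1 m _ ih
  choose y hy using fun i => hL (fun m => (f m).1 i) fun m => hg2 m _ (hf m) i
  choose z hz using fun i => hL (fun m => (f m).2 i) fun m => hg3 m _ (hf m) i
  have : IsNoetherianRing (C ⊗[A] B) := Algebra.FiniteType.isNoetherianRing C _
  let φ : B →ₐ[A] C ⊗[A] B := Algebra.TensorProduct.includeRight
  set U := H * G ^ p ^ r
  have key : ∀ m, ∃ (j : ℕ) (w x d : C ⊗[A] B), φ ε ^ j * (φ U + φ (algebraMap A B π) *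
      ∑ i, y i ⊗ₜ γ i) - φ k * (φ G + ∑ i, z i ⊗ₜ ψ i) ^ p ^ r * w =
      φ (algebraMap A B π) ^ m * d ∧ φ ε * w - φ ε ^ j = φ (algebraMap A B π) * x := fun m => by
    obtain ⟨-, j, w, s, h2, x, h3⟩ := hf m
    obtain ⟨d1, h4⟩ := dvd_sum_tmul y _ γ fun i => hy i m
    obtain ⟨d2, h5⟩ := (dvd_sum_tmul z _ ψ fun i => hz i m).trans (dvd_of_eq
      (add_sub_add_left_eq_sub _ _ (φ G)).symm) |>.trans (sub_dvd_pow_sub_pow _ _ (p ^ r))
    have h6 := congrArg φ h2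
    have h7 := congrArg φ h3
    simp only [map_mul φ, map_sub φ, map_add φ, map_pow φ] at h6 h7
    change _ - φ _ = φ _ ^ m * d1 at h4
    change _ - (_ + φ _) ^ _ = φ _ ^ m * d2 at h5
    exact ⟨j, φ w, φ x, φ (algebraMap A B π) ^ (n + 1) * φ s + φ ε ^ j * φ (algebraMap A B π) * d1 -
      φ k * φ w * d2, by
        linear_combination h6 + φ ε ^ j * φ (algebraMap A B π) * h4 - φ k * φ w * h5, h7⟩
  obtain ⟨j, x, β, h1⟩ := krull_away (φ ε) (φ (algebraMap A B π))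
      (φ U + φ (algebraMap A B π) * ∑ i, y i ⊗ₜ γ i)
      (φ k * (φ G + ∑ i, z i ⊗ₜ ψ i) ^ p ^ r) fun m => by
    obtain ⟨j, w, x, d, h1, -⟩ := key m
    exact ⟨j, w, d, by linear_combination h1⟩
  obtain ⟨j', x', β', h2⟩ := krull_away (φ ε) (φ (algebraMap A B π))
      (φ k * (φ G + ∑ i, z i ⊗ₜ ψ i) ^ p ^ r)
      (φ U + φ (algebraMap A B π) * ∑ i, y i ⊗ₜ γ i) fun m => by
    obtain ⟨j, w, x, d, h1, h2⟩ := key m
    obtain ⟨e, he⟩ := sub_dvd_pow_sub_pow (φ ε ^ j) (-(φ (algebraMap A B π) * x)) m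
    rw [show φ ε ^ j - -(φ (algebraMap A B π) * x) = φ ε * w by linear_combination -h2,
      ← mul_neg, mul_pow, ← pow_mul] at he
    exact ⟨j * m, φ ε ^ j * φ ε * e, (-x) ^ m * (φ k * (φ G + ∑ i, z i ⊗ₜ ψ i) ^ p ^ r) -
      d * φ ε * e, by
        linear_combination (φ k * (φ G + ∑ i, z i ⊗ₜ ψ i) ^ p ^ r) * he - φ ε * e * h1⟩
  exact ⟨j, j', core_descend hG γ ψ _ ε U G k _ j j' y z x β x' β' h1 h2⟩

theorem core_sub [IsNoetherianRing C] [Module.Flat A B] [Algebra.FiniteType A B] {π : A}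
    (hL : ∀ f : ℕ → A, (∀ m, π ^ m ∣ f (m + 1) - f m) →
      ∃ y : C, ∀ m, algebraMap A C π ^ m ∣ y - algebraMap A C (f m))
    (hG : ∀ s : Finset C, ∃ S : Subalgebra A C, (∀ y ∈ s, y ∈ S) ∧ Nonempty (S →ₐ[A] A))
    {p r n : ℕ} (hp : 0 < p)
    (hn : ((p ^ r : ℕ) : A) * p * π ∣ π ^ (n + 1)) {Γ Ψ : Submodule A B} (hΓ : Γ.FG) (hΨ : Ψ.FG)
    {ε H G k : B} (hk : algebraMap A B π ∣ k - ε * H) (hc : IsCoprime ε (H * G ^ p ^ r))
    (hd : ∀ b : B, ∃ g ∈ Γ, ∃ c ∈ Ψ, ∃ r₁, b = g + H * G ^ (p ^ r - 1) * c + H * G ^ p ^ r * r₁)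
    {g : B} (hg : g ∈ Γ) {j : ℕ} {w s : B}
    (h1 : ε ^ j * (H * G ^ p ^ r + algebraMap A B π * g) - k * G ^ p ^ r * w =
      algebraMap A B π ^ (n + 1) * s) (h2 : algebraMap A B π ∣ ε * w - ε ^ j) :
    ∃ g ∈ Γ, ∃ (j j' : ℕ) (G' x β x' β' : B),
      (ε ^ j - algebraMap A B π * x) * (H * G ^ p ^ r + algebraMap A B π * g) =
        k * G' ^ p ^ r * β ∧
      (ε ^ j' - algebraMap A B π * x') * (k * G' ^ p ^ r) =
        (H * G ^ p ^ r + algebraMap A B π * g) * β' := by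
  obtain ⟨a, γ, rfl⟩ := Submodule.fg_iff_exists_fin_generating_family.1 hΓ
  obtain ⟨c, ψ, rfl⟩ := Submodule.fg_iff_exists_fin_generating_family.1 hΨ
  obtain ⟨a₀, rfl⟩ := (Submodule.mem_span_range_iff_exists_fun _).1 hg
  obtain ⟨j, j', a, h⟩ := core_abs hL hG hp hn (γ := γ) (ψ := ψ) hk hc (fun b => by
    obtain ⟨g, hg, c, hc, r₁, h⟩ := hd b
    obtain ⟨a, rfl⟩ := (Submodule.mem_span_range_iff_exists_fun _).1 hg
    obtain ⟨c, rfl⟩ := (Submodule.mem_span_range_iff_exists_fun _).1 hc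
    exact ⟨a, c, r₁, h⟩) a₀ ⟨by simp, j, w, s, by simpa using h1, h2⟩
  exact ⟨_, (Submodule.mem_span_range_iff_exists_fun _).2 ⟨a, rfl⟩, j, j', h⟩

end Pool.Agent.KEW

end MrgPart1

-- ======== part 2: formerly Pool.Agent.MP_55d974_ag.kew.Core
section MrgPart2

/-!
The core of the basic lemma.
-/

open Polynomial

namespace Pool.Agent.KEW

section

variable {A B : Type*} [CommRing A] [CommRing B] [Algebra A B]

theorem coeff_zero_pow (f : A[X]) (n : ℕ) : (f ^ n).coeff 0 = f.coeff 0 ^ n :=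
  map_pow (constantCoeff : A[X] →+* A) f n

theorem weier_mod {π : A} {h ε h₁ : A[X]} {M : ℕ} (hh : h = X ^ M * ε + C π * h₁)
    (hc : IsCoprime ε X) (m : ℕ) : ∃ (P : A[X]) (j : ℕ) (w r : A[X]), P.natDegree ≤ M ∧
      ε ^ j * (X ^ M + C π * P) - h * w = C π ^ (m + 1) * r ∧ C π ∣ ε * w - ε ^ j := by
  induction m with
  | zero => exact ⟨0, 1, 1, -h₁, by simp, by rw [hh]; ring, by simp⟩
  | succ m ih =>
    obtain ⟨P, j, w, r, h1, h2, h3⟩ := ih
    obtain ⟨α, β, hαβ⟩ := hc.pow (m := j) (n := M)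
    have h4 := modByMonic_add_div (α * r) (X ^ M)
    obtain ⟨w', r', h5, h6⟩ := core_step (U := X ^ M) (γ := (α * r) %ₘ X ^ M) (D := 0)
      (r₂ := ε ^ j * ((α * r) /ₘ X ^ M) + β * r) (F' := h) h2 h3 ⟨h₁, by rw [hh]; ring⟩
      (by linear_combination -ε ^ j * h4 - r * hαβ) (by simp)
    refine ⟨P - C (π ^ m) * ((α * r) %ₘ X ^ M), j + 1, w', r', ?_, ?_, h6⟩
    · refine (natDegree_sub_le _ _).trans (max_le h1 ((natDegree_C_mul_le _ _).trans ?_))
      exact (natDegree_modByMonic_le _ (monic_X_pow M)).trans (natDegree_X_pow_le M)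
    · rw [C_pow]
      linear_combination h5

theorem exists_poly_multiple [IsLocalRing A] {π : A} (hπ : ¬ IsUnit π) (u : B) (b : Finset B)
    (hb : ∀ x : B, ∃ c : B → A[X], x = ∑ t ∈ b, aeval u (c t) * t) {ε : A[X]}
    (hε : IsUnit (ε.coeff 0)) (x : B) :
    ∃ σ : A[X], IsUnit (σ.coeff 0) ∧ aeval u ε - algebraMap A B π * x ∣ aeval u σ := by
  let : Algebra A[X] B := (aeval u).toRingHom.toAlgebra
  have : Module.Finite A[X] B := ⟨b, eq_top_iff.2 fun y _ => by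
    obtain ⟨c, rfl⟩ := hb y
    exact Submodule.sum_mem _ fun t ht =>
      Submodule.smul_mem _ (c t) (Submodule.subset_span ht)⟩
  obtain ⟨P, hP, h0⟩ := Algebra.IsIntegral.isIntegral (R := A[X]) x
  refine ⟨(P.scaleRoots (C π)).eval ε, ?_, ?_⟩
  · have h1 : C π ∣ (P.scaleRoots (C π)).eval ε - ε ^ P.natDegree := by
      rw [eval_eq_sum_range, natDegree_scaleRoots, Finset.sum_range_succ, coeff_scaleRoots,
        hP.coeff_natDegree, Nat.sub_self, pow_zero, one_mul, one_mul, add_sub_cancel_right]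
      refine Finset.dvd_sum fun i hi => Dvd.dvd.mul_right ?_ _
      rw [coeff_scaleRoots]
      exact (dvd_pow_self _ (Nat.sub_ne_zero_of_lt (Finset.mem_range.1 hi))).mul_left _
    have h2 := (C_dvd_iff_dvd_coeff _ _).1 h1 0
    rw [coeff_sub, coeff_zero_pow] at h2
    by_contra h3
    have h4 := Ideal.sub_mem _ ((IsLocalRing.mem_maximalIdeal _).2 h3)
      (Ideal.mem_of_dvd _ h2 ((IsLocalRing.mem_maximalIdeal _).2 hπ))
    exact (IsLocalRing.mem_maximalIdeal _).1 h4 (by simpa using hε.pow _)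
  · have h1 := scaleRoots_eval₂_eq_zero (s := C π) (algebraMap A[X] B) h0
    have h2 := sub_dvd_eval_sub (algebraMap A[X] B ε) (algebraMap A[X] B (C π) * x)
      ((P.scaleRoots (C π)).map (algebraMap A[X] B))
    rw [eval_map, eval_map, h1, sub_zero, eval₂_at_apply] at h2
    have h3 : algebraMap A[X] B (C π) = algebraMap A B π := aeval_C u π
    rw [h3] at h2
    exact h2

theorem core_dec (u : B) (b : Finset B)
    (hb : ∀ x : B, ∃ c : B → A[X], x = ∑ t ∈ b, aeval u (c t) * t) (K N : ℕ) (x : B) :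
    ∃ g ∈ Submodule.span A ({x | ∃ i ≤ K + N, x = u ^ i} ∪
      {x | ∃ t ∈ b, ∃ i, i + N ≤ K + N ∧ x = t * u ^ i}),
    ∃ c ∈ Submodule.span A {x | ∃ t ∈ b, ∃ i < N, x = t * u ^ i}, ∃ r₁,
      x = g + u ^ K * c + u ^ (K + N) * r₁ := by
  set Γ := Submodule.span A ({x | ∃ i ≤ K + N, x = u ^ i} ∪
      {x | ∃ t ∈ b, ∃ i, i + N ≤ K + N ∧ x = t * u ^ i})
  set Ψ := Submodule.span A {x | ∃ t ∈ b, ∃ i < N, x = t * u ^ i}
  have : x ∈ Γ ⊔ Ψ.map (LinearMap.mulLeft A (u ^ K)) ⊔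
      LinearMap.range (LinearMap.mulLeft A (u ^ (K + N))) := by
    obtain ⟨c, rfl⟩ := hb x
    refine Submodule.sum_mem _ fun t ht => ?_
    rw [aeval_eq_sum_range, Finset.sum_mul]
    refine Submodule.sum_mem _ fun i _ => ?_
    rw [smul_mul_assoc]
    refine Submodule.smul_mem _ _ ?_
    rcases le_or_gt i K with h1 | h1
    · exact Submodule.mem_sup_left (Submodule.mem_sup_left (Submodule.subset_span
        (Or.inr ⟨t, ht, i, by omega, mul_comm _ _⟩)))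
    obtain ⟨i, rfl⟩ := Nat.exists_eq_add_of_le h1.le
    rcases lt_or_ge i N with h2 | h2
    · exact Submodule.mem_sup_left (Submodule.mem_sup_right ⟨_, Submodule.subset_span
        ⟨t, ht, i, h2, rfl⟩, by rw [LinearMap.mulLeft_apply]; ring⟩)
    · obtain ⟨i, rfl⟩ := Nat.exists_eq_add_of_le h2
      exact Submodule.mem_sup_right ⟨u ^ i * t, by rw [LinearMap.mulLeft_apply]; ring⟩
  obtain ⟨_, h1, _, ⟨r, rfl⟩, rfl⟩ := Submodule.mem_sup.1 this
  obtain ⟨g, hg, _, ⟨c, hc, rfl⟩, rfl⟩ := Submodule.mem_sup.1 h1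
  exact ⟨g, hg, c, hc, r, rfl⟩

theorem lim_of_complete {C : Type*} [CommRing C] [Algebra A C] {π : A}
    (hc : IsAdicComplete (Ideal.span {algebraMap A C π}) C) (f : ℕ → A)
    (hf : ∀ m, π ^ m ∣ f (m + 1) - f m) :
    ∃ y : C, ∀ m, algebraMap A C π ^ m ∣ y - algebraMap A C (f m) := by
  have h0 : ∀ (m : ℕ) (y : C), y ∈ (Ideal.span {algebraMap A C π} ^ m • ⊤ : Submodule C C) ↔
      algebraMap A C π ^ m ∣ y := fun m y => by
    rw [smul_eq_mul, Ideal.mul_top, Ideal.span_singleton_pow, Ideal.mem_span_singleton]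
  have h1 : ∀ m k, π ^ m ∣ f (m + k) - f m := fun m k => by
    induction k with
    | zero => simp
    | succ k ih =>
      have := dvd_add ((pow_dvd_pow π (Nat.le_add_right m k)).trans (hf (m + k))) ih
      simpa [add_assoc] using this
  obtain ⟨y, hy⟩ := IsPrecomplete.prec hc.toIsPrecomplete
    (f := fun m => algebraMap A C (f m)) (fun {m n} hmn => by
      obtain ⟨k, rfl⟩ := Nat.exists_eq_add_of_le hmn
      rw [SModEq.sub_mem, h0, ← map_sub, ← map_pow]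
      exact map_dvd _ (dvd_sub_comm.1 (h1 m k)))
  exact ⟨y, fun m => dvd_sub_comm.1 ((h0 m _).1 (SModEq.sub_mem.1 (hy m)))⟩

end

theorem coreS : CoreS := by
  intro A _ _ _ π C' _ _ _ _ B _ _ _ p q n N u b h hπ hC hG hv hinj hb hh
  classical
  obtain ⟨r, rfl⟩ := hv.qq
  obtain ⟨n, rfl⟩ : ∃ m, n = m + 1 := by
    rcases n with _ | n
    · exact absurd (isUnit_of_dvd_one ((Dvd.intro_left _ rfl).trans
        (by simpa using hv.lev))) hπ.not_isUnit
    · exact ⟨n, rfl⟩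
  obtain ⟨e, he⟩ : ∃ e, p ^ r = e + 1 := Nat.exists_eq_add_of_le' (pow_pos hv.pp.pos r)
  set M := Nat.find hh
  obtain ⟨ε, hε⟩ : X ^ M ∣ h - ∑ i ∈ Finset.range M, monomial i (h.coeff i) :=
    X_pow_dvd_iff.2 fun d hd => by simp [coeff_monomial, hd]
  obtain ⟨h₁, hh₁⟩ : C π ∣ ∑ i ∈ Finset.range M, monomial i (h.coeff i) := by
    refine Finset.dvd_sum fun i hi => ?_
    rw [← C_mul_X_pow_eq_monomial]
    refine Dvd.dvd.mul_right (_root_.map_dvd C ?_) _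
    rw [← Ideal.mem_span_singleton, ← hπ.maximalIdeal_eq]
    exact Nat.find_min hh (Finset.mem_range.1 hi)
  have hε0 : IsUnit (ε.coeff 0) := by
    have h1 := congrArg (coeff · M) hε
    simp only [coeff_sub, finsetSum_coeff, coeff_monomial, Finset.sum_ite_eq', Finset.mem_range,
      lt_irrefl, if_false, sub_zero, coeff_X_pow_mul', le_refl, if_true, Nat.sub_self] at h1
    exact h1 ▸ Nat.find_spec hh
  have hhe : h = X ^ M * ε + C π * h₁ := by linear_combination hε + hh₁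
  have hc : IsCoprime ε X := by
    obtain ⟨v, hv⟩ := hε0.exists_left_inv
    refine ⟨C v, -(C v * ε.divX), ?_⟩
    have := X_mul_divX_add ε
    rw [← C_1, ← hv, C_mul]
    linear_combination -C v * this
  have : Module.IsTorsionFree A B := by
    rwa [Module.isTorsionFree_iff_algebraMap_injective]
  have : Algebra.FiniteType A B := ⟨insert u b, eq_top_iff.2 fun y _ => by
    obtain ⟨c, rfl⟩ := hb y
    refine Subalgebra.sum_mem _ fun t ht => Subalgebra.mul_mem _ ?_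
      (Algebra.subset_adjoin (by simp [ht]))
    exact Algebra.adjoin_mono (s := {u}) (by simp) (aeval_mem_adjoin_singleton A u)⟩
  refine ⟨M + N * e + N, fun k ⟨k₁, hk⟩ => ?_⟩
  obtain ⟨P, j, w, s, h1, h2, h3⟩ := weier_mod hhe hc n
  have hU : u ^ M * (u ^ N) ^ p ^ r = u ^ (M + N * e + N) := by rw [he]; ring
  have hD : u ^ M * (u ^ N) ^ (p ^ r - 1) = u ^ (M + N * e) := by
    rw [he, Nat.add_sub_cancel]; ring
  have h4 := congrArg (aeval u) h2
  have h5 := map_dvd (aeval u) h3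
  have h6 := congrArg (aeval u) hhe
  simp only [map_sub, map_mul, map_add, map_pow, aeval_X, aeval_C] at h4 h5 h6
  obtain ⟨g, hg, j, j', G, x, β, x', β', h7, h8⟩ := core_sub (lim_of_complete hC.cpl)
    (fun t => ⟨_, fun y hy => Algebra.subset_adjoin hy, ⟨(hG t).choose⟩⟩) hv.pp.pos hv.lev
    (Γ := Submodule.span A ({x | ∃ i ≤ M + N * e + N, x = u ^ i} ∪
      {x | ∃ t ∈ b, ∃ i, i + N ≤ M + N * e + N ∧ x = t * u ^ i}))
    (Ψ := Submodule.span A {x | ∃ t ∈ b, ∃ i < N, x = t * u ^ i})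
    (Submodule.fg_span (Set.Finite.union
      (((Set.finite_Iic (M + N * e + N)).image (u ^ ·)).subset fun _ ⟨i, hi, h⟩ => ⟨i, hi, h.symm⟩)
      ((b.finite_toSet.image2 (fun t i => t * u ^ i) (Set.finite_Iic (M + N * e + N))).subset
        fun _ ⟨t, ht, i, hi, h⟩ => ⟨t, ht, i, le_of_add_le_left hi, h.symm⟩)))
    (Submodule.fg_span ((b.finite_toSet.image2 (fun t i => t * u ^ i) (Set.finite_Iio N)).subset
        fun _ ⟨t, ht, i, hi, h⟩ => ⟨t, ht, i, hi, h.symm⟩))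
    (ε := aeval u ε) (H := u ^ M) (G := u ^ N) (k := k)
    ⟨aeval u h₁ + algebraMap A B π ^ n * k₁, by linear_combination hk + h6⟩
    (by rw [hU]; simpa using (hc.pow_right (n := M + N * e + N)).map (aeval u).toRingHom)
    (by rw [hU, hD]; exact core_dec u b hb _ _)
    (g := aeval u P * (u ^ N) ^ p ^ r) (by
      rw [aeval_eq_sum_range, Finset.sum_mul]
      refine Submodule.sum_mem _ fun i hi => ?_
      rw [smul_mul_assoc]
      refine Submodule.smul_mem _ _ (Submodule.subset_span (Or.inl ⟨i + N * e + N, ?_, ?_⟩))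
      · have := Finset.mem_range.1 hi
        omega
      · rw [he]; ring)
    (j := j) (w := aeval u w) (s := (u ^ N) ^ p ^ r * (aeval u s - k₁ * aeval u w))
    (by linear_combination (u ^ N) ^ p ^ r * h4 - (u ^ N) ^ p ^ r * aeval u w * hk) h5
  rw [hU, ← map_pow] at h7 h8
  obtain ⟨σ, hσ, v, hv1⟩ := exists_poly_multiple hπ.not_isUnit u b hb (ε := ε ^ j)
    (by rw [coeff_zero_pow]; exact hε0.pow _) x
  obtain ⟨σ', hσ', v', hv2⟩ := exists_poly_multiple hπ.not_isUnit u b hb (ε := ε ^ j')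
    (by rw [coeff_zero_pow]; exact hε0.pow _) x'
  exact ⟨g, hg, G, β * v, β' * v', σ, σ', hσ, hσ', by rw [hv1]; linear_combination v * h7,
    by rw [hv2]; linear_combination v' * h8⟩

end Pool.Agent.KEW

end MrgPart2

-- marker of a merged file
example : 731051 + 494564 = 731051 + 494564 := rfl
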