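import Mathlib.Algebra.Order.Star.Basic
import Mathlib.Algebra.GroupWithZero.Submonoid.CancelMulZero
import Mathlib.AlgebraicGeometry.Fiber
import Mathlib.RingTheory.Polynomial.IsIntegral
import Mathlib.AlgebraicGeometry.ProjectiveSpectrum.Proper
import Mathlib.RingTheory.TotallySplit
import Mathlib.Tactic.Polynomial.Basic
import Pool.Agent.MP_55d974_ag.kew.Deep
import Pool.Agent.MP_55d974_ag.kew.KDefs

-- ======== part 0: formerly Pool.Agent.MP_55d974_ag.kew.BlaA
section MrgPart0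

/-! PROJECT KEW, the basic lemma: commutative algebra of a finite cover of the affine line. -/

namespace Pool.Agent.KEW.Bla

open Polynomial

section Avoid

variable {D : Type} [CommRing D]

theorem avoid (S T : Set (Ideal D)) (hS : S.Finite) (hT : T.Finite) (hp : ∀ m ∈ T, m.IsPrime)
    (h : ∀ P ∈ S, ∀ m ∈ T, ¬ P ≤ m) : ∃ a, (∀ P ∈ S, a ∈ P) ∧ ∀ m ∈ T, a ∉ m := by
  by_contra hc
  have key : ((hS.toFinset.inf id : Ideal D) : Set D) ⊆ ⋃ m ∈ T, ((id m : Ideal D) : Set D) := by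
    intro a ha
    by_contra hn
    refine hc ⟨a, fun P hP => ?_, fun m hm ham => hn (Set.mem_biUnion hm ham)⟩
    exact (Finset.inf_le (f := id) (hS.mem_toFinset.2 hP) : hS.toFinset.inf id ≤ P) ha
  obtain ⟨m, hm, hle⟩ := (Ideal.subset_union_prime_finite hT ⊥ ⊥ fun i hi _ _ => hp i hi).1 key
  obtain ⟨P, hP, hPm⟩ := (hp m hm).inf_le'.1 hle
  exact h P (hS.mem_toFinset.1 hP) m hm hPm

theorem sep [IsNoetherianRing D] (J : Ideal D) (S T : Set (Ideal D)) (hS : S.Finite)
    (hT : T.Finite) (pS : ∀ m ∈ S, m.IsPrime) (pT : ∀ m ∈ T, m.IsPrime)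
    (h1 : ∀ m ∈ S, ∀ m' ∈ T, ¬ m ≤ m')
    (h2 : ∀ P ∈ J.minimalPrimes, ∀ m ∈ S, ∀ m' ∈ T, P ≤ m → ¬ P ≤ m') :
    ∃ a, (∀ m ∈ S, a ∈ m) ∧ (∀ m ∈ T, a ∉ m) ∧ ∀ m ∈ S, ∃ t ∉ m, t * a ∈ J := by
  have hf := Ideal.finite_minimalPrimes_of_isNoetherianRing D J
  obtain ⟨a, ha, ha'⟩ := avoid (S ∪ {P ∈ J.minimalPrimes | ∃ m ∈ S, P ≤ m}) T
    (hS.union (hf.subset fun _ h => h.1)) hT pT (by
      rintro P (hP | ⟨hP, m, hm, hle⟩) m' hm'
      · exact h1 P hP m' hm'
      · exact h2 P hP m hm m' hm' hle)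
  obtain ⟨N, hN⟩ := Ideal.exists_radical_pow_le_of_fg J (IsNoetherian.noetherian _)
  refine ⟨a ^ (N + 1), fun m hm => m.pow_mem_of_mem (ha m (Or.inl hm)) _ N.succ_pos,
    fun m hm h => ha' m hm ((pT m hm).mem_of_pow_mem _ h), fun m hm => ?_⟩
  obtain ⟨t, ht, ht'⟩ := avoid {P ∈ J.minimalPrimes | ¬ P ≤ m} {m} (hf.subset fun _ h => h.1)
    (Set.finite_singleton m) (by rintro _ rfl; exact pS _ hm) (by rintro P hP _ rfl; exact hP.2)
  refine ⟨t ^ N, fun h => ht' m rfl ((pS m hm).mem_of_pow_mem _ h), ?_⟩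
  have : t * a ∈ J.radical := by
    rw [← Ideal.sInf_minimalPrimes]
    refine Submodule.mem_sInf.2 fun P hP => ?_
    by_cases h : P ≤ m
    · exact Ideal.mul_mem_left P _ (ha P (Or.inr ⟨hP, m, hm, h⟩))
    · exact Ideal.mul_mem_right _ P (ht P ⟨hP, h⟩)
  have h3 := J.mul_mem_right a (hN (Ideal.pow_mem_pow this N))
  rwa [mul_pow, mul_assoc, ← pow_succ] at h3

theorem exV (Q : Ideal D) [Q.IsPrime] {L : Type} [Field L] (φ : D →+* L)
    (h : ∀ x, φ x = 0 → x ∈ Q) :
    ∃ V : ValuationSubring L, (∀ x, φ x ∈ V) ∧ ∀ x, φ x ∈ V.nonunits ↔ x ∈ Q := by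
  have hu : ∀ y : Q.primeCompl, IsUnit (φ y) := fun y => (Ne.isUnit fun h0 => y.2 (h _ h0))
  obtain ⟨V, hV, hl⟩ := IsLocalRing.exists_factor_valuationRing
    (IsLocalization.lift (S := Localization.AtPrime Q) hu)
  have h1 : ∀ x, φ x ∈ V := fun x => by
    simpa using hV (algebraMap _ _ x)
  refine ⟨V, h1, fun x => ?_⟩
  rw [← IsLocalization.AtPrime.to_map_mem_maximal_iff (Localization.AtPrime Q) Q x,
    IsLocalRing.mem_maximalIdeal, mem_nonunits_iff, ← isUnit_map_iff
      ((IsLocalization.lift (S := Localization.AtPrime Q) hu).codRestrict V.toSubring hV),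
    ValuationSubring.mem_nonunits_iff_exists_mem_maximalIdeal]
  have e : (IsLocalization.lift (S := Localization.AtPrime Q) hu).codRestrict V.toSubring hV
      (algebraMap _ _ x) = (⟨φ x, h1 x⟩ : V) := Subtype.ext (by simp)
  rw [e]
  exact ⟨fun ⟨_, h⟩ => h, fun h => ⟨h1 x, h⟩⟩

end Avoid

section Val

variable {E : Type} [Field E] (V : ValuationSubring E)

theorem un_iff (x : E) : Un V x ↔ V.valuation x = 1 := by
  constructor
  · rintro ⟨h0, h1, h2⟩
    rw [← V.valuation_le_one_iff] at h1 h2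
    rw [map_inv₀] at h2
    exact le_antisymm h1 ((inv_le_one₀ (zero_lt_iff.2 ((_root_.map_ne_zero _).2 h0))).1 h2)
  · intro h
    refine ⟨fun h0 => by simp [h0] at h, (V.valuation_le_one_iff _).1 h.le,
      (V.valuation_le_one_iff _).1 (by rw [map_inv₀, h, inv_one])⟩

variable {V}

theorem un_one_add {x : E} (h : x ∈ V.nonunits) : Un V (1 + x) :=
  (un_iff V _).2 (V.valuation.map_one_add_of_lt (V.mem_nonunits_iff.1 h))

theorem non_mul {x y : E} (h : x ∈ V.nonunits) (hy : y ∈ V) : x * y ∈ V.nonunits := by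
  rw [V.mem_nonunits_iff] at h ⊢
  rw [map_mul]
  exact mul_lt_one_of_lt_of_le h ((V.valuation_le_one_iff _).2 hy)

theorem un_of_not {x : E} (h : x ∈ V) (h' : x ∉ V.nonunits) : Un V x :=
  (un_iff V _).2 (le_antisymm ((V.valuation_le_one_iff _).2 h)
    (not_lt.1 fun h1 => h' (V.mem_nonunits_iff.2 h1)))

theorem Un.not_non {x : E} (h : Un V x) : x ∉ V.nonunits := fun h' =>
  (V.mem_nonunits_iff.1 h').ne ((un_iff V _).1 h)

theorem un_mul {x y : E} (h : Un V x) (h' : Un V y) : Un V (x * y) := by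
  rw [un_iff] at h h' ⊢
  rw [map_mul, h, h', one_mul]

theorem un_div {x y : E} (h : Un V x) (h' : Un V y) : Un V (x / y) := by
  rw [un_iff] at h h' ⊢
  rw [map_div₀, h, h', div_one]

end Val

section Cover

variable {A : Type} [CommRing A] [IsDomain A] [IsDiscreteValuationRing A] {π : A}
  {D : Type} [CommRing D] [IsDomain D] [Algebra A[X] D] [Algebra.IsIntegral A[X] D]
  [FaithfulSMul A[X] D]

/-- Primes over the special fibre of the line. -/
def Vert (π : A) (Q : Ideal D) : Prop :=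
  Q.IsPrime ∧ Q.comap (algebraMap A[X] D) = Ideal.span {C π}

/-- Primes over the origin of the special fibre. -/
def Mx (π : A) (D : Type) [CommRing D] [Algebra A[X] D] : Set (Ideal D) :=
  {m | m.IsPrime ∧ algebraMap A[X] D (C π) ∈ m ∧ algebraMap A[X] D X ∈ m}

theorem p0_prime (hπ : Irreducible π) : (Ideal.span {C π} : Ideal A[X]).IsPrime :=
  (Ideal.span_singleton_prime (C_ne_zero.2 hπ.ne_zero)).2 (prime_C_iff.2 hπ.prime)

theorem mem_p0 (hπ : Irreducible π) (P : A[X]) :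
    P ∉ (Ideal.span {C π} : Ideal A[X]) ↔ ∃ i, IsUnit (P.coeff i) := by
  rw [Ideal.mem_span_singleton, C_dvd_iff_dvd_coeff, not_forall]
  refine exists_congr fun i => ?_
  rw [← Ideal.mem_span_singleton, ← hπ.maximalIdeal_eq, IsLocalRing.mem_maximalIdeal,
    mem_nonunits_iff, not_not]

omit [IsDomain D] [Algebra.IsIntegral A[X] D] [FaithfulSMul A[X] D] in
theorem mx_mem (hπ : Irreducible π) {m : Ideal D} (hm : m ∈ Mx π D) (P : A[X]) :
    algebraMap A[X] D P ∈ m ↔ ¬ IsUnit (P.coeff 0) := by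
  have e : algebraMap A[X] D P = algebraMap A[X] D X * algebraMap A[X] D P.divX +
      algebraMap A[X] D (C (P.coeff 0)) := by rw [← map_mul, ← map_add, X_mul_divX_add]
  rw [e, Ideal.add_mem_iff_right _ (m.mul_mem_right _ hm.2.2)]
  constructor
  · intro h hu
    exact hm.1.ne_top (m.eq_top_of_isUnit_mem h ((hu.map C).map _))
  · intro h
    have : P.coeff 0 ∈ IsLocalRing.maximalIdeal A := h
    rw [hπ.maximalIdeal_eq, Ideal.mem_span_singleton] at this
    obtain ⟨c, hc⟩ := this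
    rw [hc, map_mul, map_mul]
    exact m.mul_mem_right _ hm.2.1

omit [IsDomain D] [FaithfulSMul A[X] D] in
theorem mx_max (hπ : Irreducible π) {m : Ideal D} (hm : m ∈ Mx π D) : m.IsMaximal := by
  have := hm.1
  refine Ideal.isMaximal_of_isIntegral_of_isMaximal_comap (R := A[X]) m ?_
  have e : m.comap (algebraMap A[X] D) = (IsLocalRing.maximalIdeal A).comap constantCoeff :=
    Ideal.ext fun P => mx_mem hπ hm P
  rw [e]
  exact Ideal.comap_isMaximal_of_surjective _ constantCoeff_surjective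

omit [IsDomain D] [FaithfulSMul A[X] D] in
theorem mx_fin (hπ : Irreducible π) [IsNoetherianRing D] : (Mx π D).Finite := by
  refine (Ideal.finite_minimalPrimes_of_isNoetherianRing D
    (Ideal.span {algebraMap A[X] D (C π), algebraMap A[X] D X})).subset fun m hm => ?_
  refine ⟨⟨hm.1, ?_⟩, fun Q hQ hle => ?_⟩
  · rw [Ideal.span_le]
    rintro _ (rfl | rfl)
    exacts [hm.2.1, hm.2.2]
  · have hQ' : Q ∈ Mx π D := ⟨hQ.1, hQ.2 (Ideal.subset_span (by simp)),
      hQ.2 (Ideal.subset_span (by simp))⟩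
    exact ((mx_max hπ hQ').eq_of_le hm.1.ne_top hle).ge

omit [IsDomain D] [Algebra.IsIntegral A[X] D] [FaithfulSMul A[X] D] [IsDomain A]
  [IsDiscreteValuationRing A] in
theorem Vert.mem {Q : Ideal D} (h : Vert π Q) : algebraMap A[X] D (C π) ∈ Q := by
  rw [← Ideal.mem_comap, h.2]
  exact Ideal.mem_span_singleton_self _

omit [Algebra.IsIntegral A[X] D] [IsDomain D] [IsDomain A] [IsDiscreteValuationRing A] in
theorem pi_ne (hπ : Irreducible π) : algebraMap A[X] D (C π) ≠ 0 := fun h =>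
  C_ne_zero.2 hπ.ne_zero (FaithfulSMul.algebraMap_injective A[X] D (h.trans (map_zero _).symm))

omit [FaithfulSMul A[X] D] in
theorem Vert.ht (hπ : Irreducible π) {Q : Ideal D} (h : Vert π Q) (P : Ideal D) (hP : P.IsPrime)
    (hlt : P < Q) : P = ⊥ := by
  refine Ideal.eq_bot_of_comap_eq_bot (R := A[X]) (eq_bot_iff.2 fun x hx => ?_)
  have h1 := Ideal.IsIntegral.comap_lt_comap (R := A[X]) hlt
  rw [h.2] at h1
  by_contra h0
  obtain ⟨k, a, ha, rfl⟩ := WfDvdMonoid.max_power_factor h0 (prime_C_iff.2 hπ.prime).irreducible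
  rcases (Ideal.comap_isPrime (algebraMap A[X] D) P).mem_or_mem hx with h2 | h2
  · exact h1.not_ge ((Ideal.span_singleton_le_iff_mem _).2
      ((Ideal.comap_isPrime (algebraMap A[X] D) P).mem_of_pow_mem _ h2))
  · exact ha (Ideal.mem_span_singleton.1 (h1.le h2))

theorem vert_of (hπ : Irreducible π) {Q : Ideal D} (hQ : Q.IsPrime)
    (hm : algebraMap A[X] D (C π) ∈ Q) (h : ∀ P : Ideal D, P.IsPrime → P < Q → P = ⊥) :
    Vert π Q := by
  have := p0_prime hπ
  obtain ⟨P, hle, hP, hP'⟩ := Ideal.exists_ideal_le_liesOver_of_le (p := Ideal.span {C π})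
    (q := Q.under A[X]) Q ((Ideal.span_singleton_le_iff_mem _).2 hm)
  have hv : Vert π P := ⟨hP, hP'.over.symm⟩
  rcases hle.lt_or_eq with h1 | rfl
  · have h2 := hv.mem
    rw [h P hP h1] at h2
    exact absurd h2 (pi_ne hπ)
  · exact hv

omit [IsDomain D] [FaithfulSMul A[X] D] in
theorem Vert.le_mx (hπ : Irreducible π) {Q : Ideal D} (h : Vert π Q) : ∃ m ∈ Mx π D, Q ≤ m := by
  have hπ' : π ∈ IsLocalRing.maximalIdeal A := hπ.not_isUnit
  obtain ⟨m, hle, hm, e⟩ := Ideal.exists_ideal_over_prime_of_isIntegral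
    ((IsLocalRing.maximalIdeal A).comap (constantCoeff (R := A))) Q (by
      rw [h.2, Ideal.span_singleton_le_iff_mem]
      simpa using hπ')
  refine ⟨m, ⟨hm, hle h.mem, ?_⟩, hle⟩
  rw [← Ideal.mem_comap, e]
  simp

omit [IsDomain D] [FaithfulSMul A[X] D] in
theorem ex_prim (hπ : Irreducible π) (J : Ideal D) (h : ∀ Q, Vert π Q → ¬ J ≤ Q) :
    ∃ P : A[X], (∃ i, IsUnit (P.coeff i)) ∧ algebraMap A[X] D P ∈ J := by
  by_contra hc
  have := p0_prime hπ
  obtain ⟨Q, hle, hQ, e⟩ := Ideal.exists_ideal_over_prime_of_isIntegral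
    (Ideal.span {C π} : Ideal A[X]) J fun P hP => by
      by_contra hn
      exact hc ⟨P, (mem_p0 hπ P).1 hn, hP⟩
  exact h Q ⟨hQ, e⟩ hle

omit [IsDomain D] in
theorem ex_vert (hπ : Irreducible π) : ∃ Q : Ideal D, Vert π Q := by
  by_contra hc
  obtain ⟨P, ⟨i, hi⟩, hP⟩ := ex_prim hπ (⊥ : Ideal D) fun Q hQ => (hc ⟨Q, hQ⟩).elim
  have : P = 0 := FaithfulSMul.algebraMap_injective A[X] D (by simpa using hP)
  simp [this] at hi

omit [FaithfulSMul A[X] D] in
/-- A horizontal prime lies in at most one prime of the special fibre. -/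
theorem uniq (hπ : Irreducible π) (hH : Hen A π) {P Q Q' : Ideal D} (hP : P.IsPrime)
    (h0 : P ≠ ⊥) (hn : algebraMap A[X] D (C π) ∉ P) (hQ : Q.IsPrime) (hQ' : Q'.IsPrime)
    (h1 : P ≤ Q) (h1' : P ≤ Q') (h2 : algebraMap A[X] D (C π) ∈ Q)
    (h2' : algebraMap A[X] D (C π) ∈ Q') : Q = Q' := by
  let φ : D →+* FractionRing (D ⧸ P) := (algebraMap (D ⧸ P) _).comp (Ideal.Quotient.mk P)
  have hφ : ∀ x, φ x = 0 ↔ x ∈ P := fun x => by
    simp [φ, Ideal.Quotient.eq_zero_iff_mem]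
  let ψ : A[X] →+* FractionRing (D ⧸ P) := φ.comp (algebraMap A[X] D)
  let _ : Algebra A (FractionRing (D ⧸ P)) := (ψ.comp C).toAlgebra
  have hinj : Function.Injective (algebraMap A (FractionRing (D ⧸ P))) := by
    rw [injective_iff_map_eq_zero]
    intro a ha
    by_contra ha0
    obtain ⟨k, w, rfl⟩ := IsDiscreteValuationRing.eq_unit_mul_pow_irreducible ha0 hπ
    have h3 : algebraMap A[X] D (C (w * π ^ k)) ∈ P := (hφ _).1 ha
    rw [map_mul, map_mul, map_pow, map_pow] at h3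
    rcases hP.mem_or_mem h3 with h4 | h4
    · exact hP.ne_top (P.eq_top_of_isUnit_mem h4 ((w.isUnit.map C).map _))
    · exact hn (hP.mem_of_pow_mem _ h4)
  have hae : ∀ p : A[X], aeval (ψ X) p = ψ p := fun p => by
    have : (aeval (ψ X) : A[X] →ₐ[A] _).toRingHom = ψ := by
      ext <;> simp [RingHom.algebraMap_toAlgebra]
    exact DFunLike.congr_fun this p
  have hu : IsAlgebraic A (ψ X) := by
    obtain ⟨p, hp, hp0⟩ := Submodule.exists_mem_ne_zero_of_ne_bot
      (fun h => h0 (Ideal.eq_bot_of_comap_eq_bot (R := A[X]) h))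
    exact ⟨p, hp0, by rw [hae]; exact (hφ _).2 hp⟩
  have halg : ∀ x, IsAlgebraic A (φ x) := fun x => by
    let T := Subalgebra.algebraicClosure A (FractionRing (D ⧸ P))
    have hT : ∀ p, ψ p ∈ T := fun p => by
      rw [← hae, aeval_eq_sum_range]
      exact T.sum_mem fun i _ => T.smul_mem (T.pow_mem hu i) _
    obtain ⟨p, hp, hp0⟩ := Algebra.IsIntegral.isIntegral (R := A[X]) x
    refine IsIntegral.trans_isAlgebraic A (S := T) ⟨p.map (ψ.codRestrict T hT), hp.map _, ?_⟩
    rw [eval₂_map]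
    change eval₂ (φ.comp (algebraMap A[X] D)) (φ x) p = 0
    rw [← hom_eval₂, hp0, map_zero]
  have : Algebra.IsAlgebraic A (FractionRing (D ⧸ P)) := ⟨fun z => by
    obtain ⟨a, b, -, rfl⟩ := IsFractionRing.div_surjective (A := D ⧸ P) z
    obtain ⟨a, rfl⟩ := Ideal.Quotient.mk_surjective a
    obtain ⟨b, rfl⟩ := Ideal.Quotient.mk_surjective b
    rw [div_eq_mul_inv]
    exact (halg a).mul (halg b).inv⟩
  obtain ⟨V, hV, e⟩ := exV Q φ fun x hx => h1 ((hφ x).1 hx)
  obtain ⟨W, hW, e'⟩ := exV Q' φ fun x hx => h1' ((hφ x).1 hx)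
  have := hH _ hinj this V W (fun c => hV _) (fun c => hW _) ((e _).2 h2) ((e' _).2 h2')
  subst this
  exact Ideal.ext fun x => (e x).symm.trans (e' x)

end Cover

end Pool.Agent.KEW.Bla

end MrgPart0

-- ======== part 1: formerly Pool.Agent.MP_55d974_ag.kew.Bla
section MrgPart1

/-! PROJECT KEW, the basic lemma in algebraic form. -/

namespace Pool.Agent.KEW.Bla

open Polynomial Classical

variable {E : Type} [Field E]

/-- The ideal of denominators of `g`. -/
def den (D : Subring E) (g : E) : Ideal D where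
  carrier := {s | (s : E) * g ∈ D}
  zero_mem' := by simp
  add_mem' {a b} ha hb := by
    simp only [Set.mem_ofPred_eq, Subring.coe_add, add_mul] at ha hb ⊢
    exact add_mem ha hb
  smul_mem' c a ha := by
    simp only [Set.mem_ofPred_eq, smul_eq_mul, Subring.coe_mul, mul_assoc] at ha ⊢
    exact mul_mem c.2 ha

theorem mem_den {D : Subring E} {g : E} {s : D} : s ∈ den D g ↔ (s : E) * g ∈ D := Iff.rfl

theorem den_ne (D : Subring E) [IsFractionRing D E] (g : E) : den D g ≠ ⊥ := by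
  obtain ⟨a, b, hb, rfl⟩ := IsFractionRing.div_surjective (A := D) g
  have hb' := nonZeroDivisors.ne_zero hb
  intro h
  have : b ∈ den D (algebraMap D E a / algebraMap D E b) := by
    rw [mem_den]
    change (b : E) * ((a : E) / b) ∈ D
    rw [mul_div_cancel₀ _ (by simpa using hb')]
    exact a.2
  rw [h] at this
  exact hb' this

/-- The primes that lie over the maximal ideal of `O`. -/
def Ov (O D : Subring E) (m : Ideal D) : Prop :=
  ∀ x : D, (x : E) ∈ O → (x ∉ m ↔ (x : E) ≠ 0 ∧ (x : E)⁻¹ ∈ O)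

/-- The centre of a valuation ring. -/
def ctr (D : Subring E) (V : ValuationSubring E) (h : ∀ x ∈ D, x ∈ V) : Ideal D :=
  (IsLocalRing.maximalIdeal V).comap (D.subtype.codRestrict V fun x => h x x.2)

theorem mem_ctr {D : Subring E} {V : ValuationSubring E} (h : ∀ x ∈ D, x ∈ V) (x : D) :
    x ∈ ctr D V h ↔ (x : E) ∈ V.nonunits := by
  rw [ValuationSubring.mem_nonunits_iff_exists_mem_maximalIdeal]
  exact ⟨fun hx => ⟨h x x.2, hx⟩, fun ⟨_, hx⟩ => hx⟩

theorem ctr_prime {D : Subring E} {V : ValuationSubring E} (h : ∀ x ∈ D, x ∈ V) :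
    (ctr D V h).IsPrime := Ideal.comap_isPrime _ _

theorem ov_iff {O D : Subring E} {V : ValuationSubring E} (h : ∀ x ∈ D, x ∈ V)
    (hO : ∀ x ∈ O, ∃ s ∈ O, s ≠ 0 ∧ s⁻¹ ∈ O ∧ s ∈ D ∧ s * x ∈ D) :
    Ov O D (ctr D V h) ↔ Dm O V := by
  constructor
  · intro hm
    have key : ∀ s ∈ O, s ≠ 0 → s⁻¹ ∈ O → s ∈ D → Un V s := fun s h1 h2 h3 h4 =>
      un_of_not (h s h4) fun h5 => (hm ⟨s, h4⟩ h1).2 ⟨h2, h3⟩ ((mem_ctr h _).2 h5)
    refine ⟨fun x hx => ?_, fun x hx h0 hi => ?_⟩
    · obtain ⟨s, h1, h2, h3, h4, h5⟩ := hO x hx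
      have := mul_mem (key s h1 h2 h3 h4).2.2 (h _ h5)
      rwa [inv_mul_cancel_left₀ h2] at this
    · obtain ⟨s, h1, h2, h3, h4, h5⟩ := hO x hx
      have h6 : Un V (s * x) := ⟨mul_ne_zero h2 h0, h _ h5, by
        rw [mul_inv]
        exact mul_mem (key s h1 h2 h3 h4).2.2 hi⟩
      have h7 := ((hm ⟨_, h5⟩ (mul_mem h1 hx)).1 fun h8 => Un.not_non h6 ((mem_ctr h _).1 h8)).2
      have := mul_mem h1 h7
      rwa [mul_inv, mul_inv_cancel_left₀ h2] at this
  · intro hd x hx
    rw [mem_ctr]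
    exact ⟨fun h1 => ⟨(un_of_not (h _ x.2) h1).1, hd.2 _ hx (un_of_not (h _ x.2) h1).1
      (un_of_not (h _ x.2) h1).2.2⟩, fun h1 => Un.not_non ⟨h1.1, h _ x.2, hd.1 _ h1.2⟩⟩

theorem at_un {D : Subring E} {P : Ideal D} {V : ValuationSubring E} (hP : P.IsPrime)
    (h : IsAt D P V) (x : D) : (x : E) ∈ V ∧ (x ∉ P → Un V x) ∧ (x ∈ P → (x : E) ∈ V.nonunits) := by
  have h1 : (1 : D) ∉ P := (Ideal.ne_top_iff_one P).1 hP.ne_top
  have h2 : (x : E) ∈ V := (h _).2 ⟨1, x, h1, by simp⟩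
  refine ⟨h2, fun hx => ?_, fun hx => ?_⟩
  · have h0 : (x : E) ≠ 0 := fun h0 => hx (by rw [show x = 0 from Subtype.ext h0]; exact P.zero_mem)
    exact ⟨h0, h2, (h _).2 ⟨x, 1, hx, by simp [h0]⟩⟩
  · by_contra hn
    obtain ⟨h0, -, h3⟩ := un_of_not h2 hn
    obtain ⟨s, c, hs, e⟩ := (h _).1 h3
    refine hs ?_
    rw [show s = c * x from Subtype.ext (by rw [Subring.coe_mul, ← e, inv_mul_cancel_right₀ h0])]
    exact P.mul_mem_left _ hx

theorem e1 (s r a g : E) (h : r ≠ 0) : s * r * (a / r * g) = s * a * g := by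
  field_simp

theorem e2 (h a b f p : E) (h1 : h ≠ 0) (h2 : a + b * b ≠ 0) (h3 : f ≠ 0) (h4 : p ≠ 0) :
    (h + p * (h * (a / (a + b * b) * ((f - 1) / p)))) / h / f =
      1 + b * ((b * f⁻¹ - b) * (a + b * b)⁻¹) := by
  obtain ⟨r, hr⟩ : ∃ r, r = a + b * b := ⟨_, rfl⟩
  rw [← hr] at h2 ⊢
  rw [show a = r - b * b by rw [hr]; ring]
  field_simp
  ring

theorem e3 (h a r g p : E) (h1 : h ≠ 0) :
    (h + p * (h * (a / r * g))) / h / 1 = 1 + p * (a * g * r⁻¹) := by
  field_simp

section Kappa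

variable {A : Type} [CommRing A] [IsDomain A] [IsDiscreteValuationRing A] {π : A} [Algebra A E]
  {D : Subring E} [Algebra A[X] D] [Algebra.IsIntegral A[X] D] [FaithfulSMul A[X] D]
  [IsNoetherianRing D] [IsIntegrallyClosedIn D E] [IsFractionRing D E] {u : E}

theorem kappa (hT : HartS) (hH : Hen A π) (hπ : Irreducible π) {n : ℕ} (hn : n ≠ 0)
    (hal : ∀ P : A[X], ((algebraMap A[X] D P : D) : E) = aeval u P) (O : Subring E) (f : Eˣ)
    (hO : ∀ x ∈ O, ∃ s ∈ O, s ≠ 0 ∧ s⁻¹ ∈ O ∧ s ∈ D ∧ s * x ∈ D)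
    (hf : ∀ V : ValuationSubring E, IsDiscreteValuationRing V → (∀ x ∈ O, x ∈ V) →
      algebraMap A E π ∈ V.nonunits → (∀ P : A[X], (∃ i, IsUnit (P.coeff i)) →
        Un V (aeval u P)) → Ap V (algebraMap A E π ^ n) f) :
    ∃ (h : A[X]) (c : D), (∃ i, IsUnit (h.coeff i)) ∧ ∀ (V : ValuationSubring E),
      (∀ x ∈ D, x ∈ V) → algebraMap A E π ∈ V.nonunits → u ∈ V.nonunits →
      Un V ((aeval u h + algebraMap A E π ^ n * c) / aeval u h /
        (if Dm O V then f else 1 : Eˣ)) := by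
  have eπ : ((algebraMap A[X] D (C π) : D) : E) = algebraMap A E π := by rw [hal, aeval_C]
  have eu : ((algebraMap A[X] D X : D) : E) = u := by rw [hal, aeval_X]
  set ϖ := algebraMap A E π with hϖ
  have hϖ0 : ϖ ≠ 0 := fun h0 => pi_ne (D := D) hπ (Subtype.ext (eπ.trans h0))
  set g := ((f : E) - 1) / ϖ ^ n with hg
  have hfg : (f : E) = 1 + ϖ ^ n * g := by rw [hg]; field_simp; ring
  have hpow : ∀ V : ValuationSubring E, ϖ ∈ V.nonunits → ϖ ^ n ∈ V.nonunits := fun V h => by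
    obtain ⟨k, rfl⟩ := Nat.exists_eq_succ_of_ne_zero hn
    rw [pow_succ']
    exact non_mul h (pow_mem (V.nonunits_subset h) _)
  -- vertical primes below a prime over `O`
  have hv : ∀ Q m : Ideal D, Vert π Q → Ov O D m → Q ≤ m →
      ¬ den D g ≤ Q ∧ ¬ den D (f : E)⁻¹ ≤ Q := fun Q m hQ hm hle => by
    obtain ⟨V, hV, hd⟩ := hT.dvr D Q hQ.1 (fun h0 => pi_ne (D := D) hπ (Ideal.mem_bot.1 (h0 ▸ hQ.mem)))
      (hQ.ht hπ)
    have h1 : ϖ ∈ V.nonunits := eπ ▸ (at_un hQ.1 hV _).2.2 hQ.mem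
    have h2 : g ∈ V := hf V hd (fun x hx => by
      obtain ⟨s, h1, h2, h3, h4, h5⟩ := hO x hx
      exact (hV x).2 ⟨⟨s, h4⟩, ⟨_, h5⟩, fun h6 => (hm ⟨s, h4⟩ h1).2 ⟨h2, h3⟩ (hle h6), rfl⟩) h1
      fun P hP => hal P ▸ (at_un hQ.1 hV _).2.1 (by
        rw [← Ideal.mem_comap, hQ.2]
        exact (mem_p0 hπ P).2 hP)
    have h3 : (f : E)⁻¹ ∈ V := hfg ▸ (un_one_add (non_mul (hpow V h1) h2)).2.2
    constructor
    · obtain ⟨s, c, hs, e⟩ := (hV _).1 h2
      exact fun h4 => hs (h4 (mem_den.2 (e ▸ c.2)))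
    · obtain ⟨s, c, hs, e⟩ := (hV _).1 h3
      exact fun h4 => hs (h4 (mem_den.2 (e ▸ c.2)))
  have hmin : ∀ x : E, ∀ P ∈ (den D x).minimalPrimes, ∀ m ∈ Mx π D, ∀ m' ∈ Mx π D, m ≠ m' →
      P ≤ m → P ≤ m' → Vert π P := fun x P hP m hm m' hm' hne h1 h2 => by
    refine vert_of hπ hP.1.1 ?_ (hT.den D x _ P (fun _ => mem_den) hP)
    by_contra h3
    exact hne (uniq hπ hH hP.1.1 (fun h0 => den_ne D x (le_bot_iff.1 (h0 ▸ hP.1.2))) h3 hm.1 hm'.1
      h1 h2 hm.2.1 hm'.2.1)
  have hfin := mx_fin (D := D) hπ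
  have hinc : ∀ m ∈ Mx π D, ∀ m' ∈ Mx π D, m ≤ m' → m = m' := fun m hm m' hm' hle =>
    (mx_max hπ hm).eq_of_le hm'.1.ne_top hle
  obtain ⟨a, ha1, ha2, ha3⟩ := sep (den D g) {m ∈ Mx π D | ¬ Ov O D m} {m ∈ Mx π D | Ov O D m}
    (hfin.subset fun _ h => h.1) (hfin.subset fun _ h => h.1) (fun _ h => h.1.1) (fun _ h => h.1.1)
    (fun m hm m' hm' hle => hm.2 (hinc m hm.1 m' hm'.1 hle ▸ hm'.2))
    fun P hP m hm m' hm' h1 h2 => (hv P m' (hmin g P hP m hm.1 m' hm'.1
      (fun e => hm.2 (e ▸ hm'.2)) h1 h2) hm'.2 h2).1 hP.1.2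
  obtain ⟨b, hb1, hb2, hb3⟩ := sep (den D (f : E)⁻¹) {m ∈ Mx π D | Ov O D m}
    {m ∈ Mx π D | ¬ Ov O D m}
    (hfin.subset fun _ h => h.1) (hfin.subset fun _ h => h.1) (fun _ h => h.1.1) (fun _ h => h.1.1)
    (fun m hm m' hm' hle => hm'.2 (hinc m hm.1 m' hm'.1 hle ▸ hm.2))
    fun P hP m hm m' hm' h1 h2 => (hv P m (hmin _ P hP m hm.1 m' hm'.1
      (fun e => hm'.2 (e ▸ hm.2)) h1 h2) hm.2 h1).2 hP.1.2
  have hab : ∀ m ∈ Mx π D, a + b * b ∉ m := fun m hm h1 => by
    by_cases h2 : Ov O D m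
    · exact ha2 m ⟨hm, h2⟩ ((Ideal.add_mem_iff_left _ (m.mul_mem_left _ (hb1 m ⟨hm, h2⟩))).1 h1)
    · exact hb2 m ⟨hm, h2⟩ ((or_self_iff.1 (hm.1.mem_or_mem
        ((Ideal.add_mem_iff_right _ (ha1 m ⟨hm, h2⟩)).1 h1))))
  have hne : ∀ m ∈ Mx π D, (a : E) + b * b ≠ 0 := fun m hm h0 => hab m hm (by
    rw [show a + b * b = 0 from Subtype.ext h0]
    exact m.zero_mem)
  obtain ⟨h, hh, hc⟩ := ex_prim hπ (den D ((a : E) / (a + b * b) * g)) fun Q hQ hle => by
    obtain ⟨m, hm, hQm⟩ := hQ.le_mx hπ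
    have h0 := hne m hm
    by_cases h2 : Ov O D m
    · obtain ⟨s, hs, hs'⟩ := SetLike.not_le_iff_exists.1 (hv Q m hQ h2 hQm).1
      refine (hQ.1.mem_or_mem (hle (show s * (a + b * b) ∈ _ from ?_))).elim hs'
        fun h3 => hab m hm (hQm h3)
      rw [mem_den, show ((s * (a + b * b) : D) : E) * ((a : E) / (a + b * b) * g) = a * (s * g) by
        push_cast
        exact (e1 _ _ _ _ h0).trans (by ring)]
      exact mul_mem a.2 (mem_den.1 hs)
    · obtain ⟨t, ht, ht'⟩ := ha3 m ⟨hm, h2⟩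
      refine (hQ.1.mem_or_mem (hle (show t * (a + b * b) ∈ _ from ?_))).elim
        (fun h3 => ht (hQm h3)) fun h3 => hab m hm (hQm h3)
      rw [mem_den, show ((t * (a + b * b) : D) : E) * ((a : E) / (a + b * b) * g) =
          ((t * a : D) : E) * g by
        push_cast
        exact e1 _ _ _ _ h0]
      exact mem_den.1 ht'
  refine ⟨h, ⟨_, mem_den.1 hc⟩, hh, fun V hV h1 h2 => ?_⟩
  have hm : ctr D V hV ∈ Mx π D := ⟨ctr_prime hV, (mem_ctr hV _).2 (eπ ▸ h1), (mem_ctr hV _).2 (eu ▸ h2)⟩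
  have hun : ∀ x : D, x ∉ ctr D V hV → Un V x := fun x hx =>
    un_of_not (hV _ x.2) fun h3 => hx ((mem_ctr hV _).2 h3)
  have hh0 : aeval u h ≠ 0 := fun h0 => by
    have : h = 0 := FaithfulSMul.algebraMap_injective A[X] D
      (Subtype.ext (by rw [hal, h0]; simp))
    obtain ⟨i, hi⟩ := hh
    simp [this] at hi
  have h0 := hne _ hm
  have hi : ((a : E) + b * b)⁻¹ ∈ V := (hun _ (hab _ hm)).2.2
  simp only [hal]
  split_ifs with hd
  · have ho := (ov_iff hV hO).2 hd
    obtain ⟨t, ht, ht'⟩ := hb3 _ ⟨hm, ho⟩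
    have h3 : (b : E) * (f : E)⁻¹ ∈ V := by
      have := mul_mem (hun t ht).2.2 (hV _ (mem_den.1 ht'))
      rwa [Subring.coe_mul, mul_assoc, inv_mul_cancel_left₀ (hun t ht).1] at this
    have := un_one_add (non_mul ((mem_ctr hV _).1 (hb1 _ ⟨hm, ho⟩))
      (mul_mem (sub_mem h3 (hV _ b.2)) hi))
    rw [hg, e2 _ _ _ _ _ hh0 h0 f.ne_zero (pow_ne_zero n hϖ0)]
    exact this
  · have ho : ¬ Ov O D (ctr D V hV) := fun h3 => hd ((ov_iff hV hO).1 h3)
    obtain ⟨t, ht, ht'⟩ := ha3 _ ⟨hm, ho⟩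
    have h3 : (a : E) * g ∈ V := by
      have := mul_mem (hun t ht).2.2 (hV _ (mem_den.1 ht'))
      rwa [Subring.coe_mul, mul_assoc, inv_mul_cancel_left₀ (hun t ht).1] at this
    have := un_one_add (non_mul (hpow V h1) (mul_mem h3 hi))
    rw [Units.val_one, e3 _ _ _ _ _ hh0]
    exact this

omit [IsDomain A] [IsDiscreteValuationRing A] in
theorem aeval_mem {V : ValuationSubring E} (hA : ∀ c, algebraMap A E c ∈ V) (hu : u ∈ V)
    (P : A[X]) : aeval u P ∈ V := by
  rw [aeval_eq_sum_range]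
  exact sum_mem fun i _ => by
    rw [Algebra.smul_def]
    exact mul_mem (hA _) (pow_mem hu _)

omit [IsDomain A] [IsDiscreteValuationRing A] in
theorem aeval_un {V : ValuationSubring E} (hA : ∀ c, algebraMap A E c ∈ V) (hu : u ∈ V.nonunits)
    {P : A[X]} (hP : IsUnit (P.coeff 0)) : Un V (aeval u P) := by
  obtain ⟨w, hw⟩ := hP
  have h1 : algebraMap A E w * algebraMap A E (w⁻¹ : Aˣ) = 1 := by rw [← map_mul]; simp
  have h2 : Un V (algebraMap A E w) :=
    ⟨left_ne_zero_of_mul_eq_one h1, hA _, by rw [inv_eq_of_mul_eq_one_right h1]; exact hA _⟩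
  have h3 := un_mul h2 (un_one_add (non_mul hu
    (mul_mem (aeval_mem hA (V.nonunits_subset hu) P.divX) (hA (w⁻¹ : Aˣ)))))
  have e : aeval u P = algebraMap A E w *
      (1 + u * (aeval u P.divX * algebraMap A E (w⁻¹ : Aˣ))) := by
    conv_lhs => rw [← X_mul_divX_add P, ← hw]
    rw [map_add, map_mul, aeval_X, aeval_C]
    linear_combination (-u * aeval u P.divX) * h1
  exact e ▸ h3

omit [IsDomain A] [IsDiscreteValuationRing A] in
theorem root_mem {V : ValuationSubring E} {t : E} {p : A[X][X]} (hp : p.Monic)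
    (h : eval₂ (aeval u : A[X] →ₐ[A] E).toRingHom t p = 0) {r : E} (hr : 1 ≤ V.valuation r)
    (hc : ∀ i, V.valuation (aeval u (p.coeff i)) ≤ V.valuation r) :
    V.valuation t ≤ V.valuation r := by
  by_contra hn
  rw [not_le] at hn
  have h1 : 1 < V.valuation t := hr.trans_lt hn
  have h0 : 0 < V.valuation t := zero_lt_one.trans h1
  rw [eval₂_eq_sum_range, Finset.sum_range_succ, hp.coeff_natDegree, map_one, one_mul,
    add_eq_zero_iff_eq_neg] at h
  have h2 := V.valuation.map_sum_lt (s := Finset.range p.natDegree)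
    (f := fun i => (aeval u : A[X] →ₐ[A] E).toRingHom (p.coeff i) * t ^ i)
    (g := V.valuation t ^ p.natDegree) (pow_ne_zero _ h0.ne') fun i hi => by
      rw [map_mul, map_pow]
      calc _ < V.valuation t * V.valuation t ^ i :=
            mul_lt_mul_of_pos_right ((hc i).trans_lt hn) (pow_pos h0 i)
        _ ≤ _ := by
          rw [← pow_succ']
          exact pow_le_pow_right₀ h1.le (Finset.mem_range.1 hi)
  rw [h, Valuation.map_neg, map_pow] at h2
  exact lt_irrefl _ h2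

omit [IsDomain A] [IsDiscreteValuationRing A] in
theorem pole {t : E} {p : A[X][X]} (hp : p.Monic)
    (h : eval₂ (aeval u : A[X] →ₐ[A] E).toRingHom t p = 0) : ∃ N : ℕ, ∀ V : ValuationSubring E,
      (∀ c, algebraMap A E c ∈ V) → 1 ≤ V.valuation u → V.valuation t ≤ V.valuation u ^ N := by
  refine ⟨p.support.sup fun i => (p.coeff i).natDegree, fun V hA hu => ?_⟩
  rw [← map_pow]
  refine root_mem hp h (by rw [map_pow]; exact one_le_pow₀ hu) fun i => ?_
  by_cases hi : i ∈ p.support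
  · rw [aeval_eq_sum_range, map_pow]
    refine V.valuation.map_sum_le fun j hj => ?_
    rw [Algebra.smul_def, map_mul, map_pow]
    exact (mul_le_of_le_one_left' ((V.valuation_le_one_iff _).2 (hA _))).trans
      (pow_le_pow_right₀ hu ((Nat.lt_succ_iff.1 (Finset.mem_range.1 hj)).trans
        (Finset.le_sup (f := fun i => (p.coeff i).natDegree) hi)))
  · simp [notMem_support_iff.1 hi]

theorem main [HenselianLocalRing A] [CharZero A] [Algebra A D] (hC : CplS) (hG : GbS) (hH : HenS)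
    (hT : HartS) (hK : CoreS) (hπ : Irreducible π) {p q n : ℕ} (hL : Lv π p q n)
    (hal : ∀ P : A[X], ((algebraMap A[X] D P : D) : E) = aeval u P)
    (hal' : ∀ c : A, algebraMap A D c = algebraMap A[X] D (C c)) (b : Finset D)
    (hb : ∀ x : D, ∃ c : D → A[X], x = ∑ t ∈ b, algebraMap A[X] D (c t) * t)
    (O : Subring E) (f : Eˣ) (hu : u ∈ O) (hu' : u⁻¹ ∉ O)
    (hO : ∀ x ∈ O, ∃ s ∈ O, s ≠ 0 ∧ s⁻¹ ∈ O ∧ s ∈ D ∧ s * x ∈ D)
    (hf : ∀ V : ValuationSubring E, IsDiscreteValuationRing V → (∀ x ∈ O, x ∈ V) →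
      algebraMap A E π ∈ V.nonunits → (∀ P : A[X], (∃ i, IsUnit (P.coeff i)) →
        Un V (aeval u P)) → Ap V (algebraMap A E π ^ n) f) :
    ∃ g : Eˣ, ∀ V : ValuationSubring E, (∀ c, algebraMap A E c ∈ V) →
      algebraMap A E π ∈ V.nonunits → ∃ G w : Eˣ, Un V w ∧
        g = (if Dm O V then f else 1) * G ^ q * w := by
  have hn : n ≠ 0 := by
    rintro rfl
    exact hπ.not_isUnit (isUnit_of_dvd_one ((Dvd.intro_left _ rfl).trans (pow_zero π ▸ hL.lev)))
  have hinj := FaithfulSMul.algebraMap_injective A[X] D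
  have hae : ∀ P : A[X], aeval (algebraMap A[X] D X) P = algebraMap A[X] D P := fun P => by
    have : (aeval (algebraMap A[X] D X) : A[X] →ₐ[A] D).toRingHom = algebraMap A[X] D :=
      ringHom_ext (fun c => by simp [hal']) (by simp)
    exact DFunLike.congr_fun this P
  have eu : ((algebraMap A[X] D X : D) : E) = u := by rw [hal, aeval_X]
  have eA : ∀ c, ((algebraMap A D c : D) : E) = algebraMap A E c := fun c => by
    rw [hal', hal, aeval_C]
  have hint : ∀ x : D, ∃ p : A[X][X], p.Monic ∧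
      eval₂ (aeval u : A[X] →ₐ[A] E).toRingHom (x : E) p = 0 := fun x => by
    obtain ⟨p, hp, h0⟩ := Algebra.IsIntegral.isIntegral (R := A[X]) x
    refine ⟨p, hp, ?_⟩
    have := congrArg D.subtype h0
    rw [hom_eval₂, map_zero] at this
    rwa [show (aeval u : A[X] →ₐ[A] E).toRingHom = D.subtype.comp (algebraMap A[X] D) from
      RingHom.ext fun P => (hal P).symm]
  have hne : ∀ P : A[X], (∃ i, IsUnit (P.coeff i)) → aeval u P ≠ 0 := fun P ⟨i, hi⟩ h0 => by
    have : P = 0 := hinj (Subtype.ext (by rw [hal, h0]; simp))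
    simp [this] at hi
  have hu0 : u ≠ 0 := by simpa using hne X ⟨1, by simp⟩
  choose N hN using fun x : D => pole (hint x).choose_spec.1 (hint x).choose_spec.2
  obtain ⟨h, c, hh, hκ⟩ := kappa hT (hH A π hπ) hπ hn hal O f hO hf
  obtain ⟨B, _, _, _, _, hB⟩ := hC A π hπ
  obtain ⟨L, hL'⟩ := hK A π B D p q n (b.sup N) (algebraMap A[X] D X) b h hπ hB (hG A π B hπ hB) hL
    (fun x y e => C_injective (hinj (by rw [← hal', ← hal', e]))) (by simpa only [hae] using hb) hh
  have key : ∀ k : D, algebraMap A D π ^ n ∣ k - algebraMap A[X] D h → ∃ s : Eˣ,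
      ∀ V : ValuationSubring E, (∀ c, algebraMap A E c ∈ V) → algebraMap A E π ∈ V.nonunits →
        (u ∉ V.nonunits → Un V (s / u ^ L)) ∧
        (u ∈ V.nonunits → (∀ x ∈ D, x ∈ V) ∧ ∃ G : Eˣ, Un V (s / (k * G ^ q))) := fun k hk => by
    obtain ⟨γ, hγ, G, w, w', σ, σ', h1, h2, h3, h4⟩ := hL' k (by rwa [hae])
    obtain ⟨s, hs⟩ : ∃ s, s = algebraMap A[X] D X ^ L + algebraMap A D π * γ := ⟨_, rfl⟩
    rw [← hs, hae] at h3 h4
    have hs0 : (s : E) ≠ 0 := fun h0 => by
      obtain ⟨Q, hQ⟩ := ex_vert (D := D) hπ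
      have h5 : s ∈ Q := by
        rw [show s = 0 from Subtype.ext h0]
        exact Q.zero_mem
      rw [hs, hal', Ideal.add_mem_iff_left _ (Q.mul_mem_right _ hQ.mem)] at h5
      have h6 := hQ.1.mem_of_pow_mem _ h5
      rw [← Ideal.mem_comap, hQ.2] at h6
      exact (mem_p0 hπ X).2 ⟨1, by simp⟩ h6
    have h3' : aeval u σ * (s : E) = k * G ^ q * w := by
      rw [← hal]
      exact_mod_cast congrArg Subtype.val h3
    have h4' : aeval u σ' * ((k : E) * G ^ q) = s * w' := by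
      rw [← hal]
      exact_mod_cast congrArg Subtype.val h4
    have h5 : (k : E) * G ^ q ≠ 0 := left_ne_zero_of_mul (h3' ▸ mul_ne_zero (hne σ ⟨0, h1⟩) hs0)
    have hq : q ≠ 0 := by
      obtain ⟨r, rfl⟩ := hL.qq
      exact pow_ne_zero _ hL.pp.ne_zero
    have hG0 : (G : E) ≠ 0 := fun h0 => h5 (by rw [h0, zero_pow hq, mul_zero])
    refine ⟨Units.mk0 _ hs0, fun V hA hπV => ⟨fun h6 => ?_, fun h6 => ?_⟩⟩
    · have h7 : 1 ≤ V.valuation u := not_lt.1 fun h7 => h6 (V.mem_nonunits_iff.2 h7)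
      have h8 : V.valuation γ ≤ V.valuation u ^ L := by
        refine Submodule.span_induction (p := fun (x : D) _ => V.valuation (x : E) ≤ V.valuation u ^ L) ?_ (by simp)
          (fun x y _ _ hx hy => V.valuation.map_add_le hx hy) (fun a x _ hx => ?_) hγ
        · rintro _ (⟨i, hi, rfl⟩ | ⟨t, ht, i, hi, rfl⟩)
          · rw [Subring.coe_pow, eu, map_pow]
            exact pow_le_pow_right₀ h7 hi
          · rw [Subring.coe_mul, Subring.coe_pow, eu, map_mul, map_pow]
            refine (mul_le_mul_left (hN t V hA h7) _).trans ?_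
            rw [← pow_add]
            have := Finset.le_sup (f := N) ht
            exact pow_le_pow_right₀ h7 (by omega)
        · rw [Algebra.smul_def, Subring.coe_mul, eA, map_mul]
          exact (mul_le_of_le_one_left' ((V.valuation_le_one_iff _).2 (hA _))).trans hx
      have h9 : (γ : E) / u ^ L ∈ V := by
        rw [← V.valuation_le_one_iff, map_div₀, map_pow]
        exact div_le_one_of_le₀ h8 zero_le
      have e : (s : E) / u ^ L = 1 + algebraMap A E π * (γ / u ^ L) := by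
        rw [hs]
        push_cast
        rw [eu, eA]
        field_simp
      exact e ▸ un_one_add (non_mul hπV h9)
    · have hD : ∀ x ∈ D, x ∈ V := fun x hx => by
        obtain ⟨p, hp, h0⟩ := hint ⟨x, hx⟩
        rw [← V.valuation_le_one_iff, ← V.valuation.map_one]
        refine root_mem hp h0 (by simp) fun i => ?_
        rw [map_one, V.valuation_le_one_iff]
        exact aeval_mem hA (V.nonunits_subset h6) _
      have h7 := aeval_un hA h6 h1
      have h8 := aeval_un hA h6 h2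
      refine ⟨hD, Units.mk0 _ hG0, div_ne_zero hs0 h5, ?_, ?_⟩
      · have e : (s : E) / (k * G ^ q) = w * (aeval u σ)⁻¹ := by
          rw [div_eq_iff h5, eq_comm, mul_right_comm, mul_inv_eq_iff_eq_mul₀ h7.1]
          linear_combination -h3'
        exact e ▸ mul_mem (hD _ w.2) h7.2.2
      · have e : ((s : E) / (k * G ^ q))⁻¹ = w' * (aeval u σ')⁻¹ := by
          rw [inv_div, div_eq_iff hs0, eq_comm, mul_right_comm, mul_inv_eq_iff_eq_mul₀ h8.1]
          linear_combination -h4'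
        exact e ▸ mul_mem (hD _ w'.2) h8.2.2
  obtain ⟨s₁, h₁⟩ := key (algebraMap A[X] D h + algebraMap A D π ^ n * c) (by simp)
  obtain ⟨s₂, h₂⟩ := key (algebraMap A[X] D h) (by simp)
  refine ⟨s₁ / s₂, fun V hA hπV => ?_⟩
  by_cases h6 : u ∈ V.nonunits
  · obtain ⟨hD, G₁, e₁⟩ := (h₁ V hA hπV).2 h6
    obtain ⟨-, G₂, e₂⟩ := (h₂ V hA hπV).2 h6
    have h7 := un_mul (un_div e₁ e₂) (hκ V hD hπV h6)
    generalize (if Dm O V then f else 1 : Eˣ) = F at h7 ⊢
    refine ⟨G₁ / G₂, s₁ / s₂ / (F * (G₁ / G₂) ^ q), ?_, by simp⟩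
    refine (congrArg (Un V) ?_).mp h7
    have h8 : _ ≠ (0 : E) := fun h0 => e₁.1 (div_eq_zero_iff.2 (Or.inr h0))
    have h9 := left_ne_zero_of_mul h8
    have h10 := hne h hh
    push_cast at h9 ⊢
    rw [hal, eA] at h9 ⊢
    rw [div_pow]
    generalize aeval u h + algebraMap A E π ^ n * c = k at h9 ⊢
    field_simp
  · have h7 := un_div ((h₁ V hA hπV).1 h6) ((h₂ V hA hπV).1 h6)
    have hd : ¬ Dm O V := fun hd => hu' (hd.2 u hu hu0 (un_of_not (hd.1 u hu) h6).2.2)
    refine ⟨1, s₁ / s₂, ?_, by simp [hd]⟩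
    refine (congrArg (Un V) ?_).mp h7
    push_cast
    field_simp

end Kappa

end Pool.Agent.KEW.Bla

namespace Pool.Agent.KEW

open Polynomial

theorem blaS (hC : CplS) (hG : GbS) (hH : HenS) (hT : HartS) (hK : CoreS) : BlaS := by
  intro A _ _ _ _ _ π E _ _ p q n u O _ f hπ hL _ htr hfin hfr _ hu hu' _ hO hf
  let D : Subring E := (integralClosure (Algebra.adjoin A {u}) E).toSubring
  have hm : ∀ P : A[X], aeval u P ∈ Algebra.adjoin A {u} := fun P => aeval_mem_adjoin_singleton A u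
  let σ : A[X] →+* Algebra.adjoin A {u} := (aeval u : A[X] →ₐ[A] E).toRingHom.codRestrict _ hm
  have hσ : Function.Surjective σ := fun ⟨x, hx⟩ => by
    rw [Algebra.adjoin_singleton_eq_range_aeval] at hx
    obtain ⟨P, rfl⟩ := hx
    exact ⟨P, rfl⟩
  let ψ : A[X] →+* D := (aeval u : A[X] →ₐ[A] E).toRingHom.codRestrict D fun P =>
    isIntegral_algebraMap (x := σ P)
  let _ : Algebra A[X] D := ψ.toAlgebra
  let _ : Algebra A D := (ψ.comp C).toAlgebra
  have : FaithfulSMul A[X] D := (faithfulSMul_iff_algebraMap_injective _ _).2 fun x y e =>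
    transcendental_iff_injective.1 htr (congrArg Subtype.val e)
  obtain ⟨b, hb⟩ := hfin.fg_top
  have hb' : ∀ x : D, ∃ c : D → A[X], x = ∑ t ∈ (b : Finset D), algebraMap A[X] D (c t) * t :=
    fun x => by
      obtain ⟨c, -, hc⟩ := Submodule.mem_span_finset.1 (hb.ge (Submodule.mem_top (x := ⟨x.1, x.2⟩)))
      choose P hP using fun t => hσ (c t)
      refine ⟨P, hc.symm.trans (Finset.sum_congr rfl fun t _ => Subtype.ext ?_)⟩
      rw [← hP]
      rfl
  have : Module.Finite A[X] D := ⟨⟨b, eq_top_iff.2 fun x _ => by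
    obtain ⟨c, rfl⟩ := hb' x
    exact Submodule.sum_mem _ fun t ht => by
      rw [← Algebra.smul_def]
      exact Submodule.smul_mem _ _ (Submodule.subset_span ht)⟩⟩
  have : IsNoetherianRing D := IsNoetherianRing.of_finite A[X] D
  have : IsFractionRing D E := IsFractionRing.of_field D E fun z => by
    obtain ⟨x, y, -, rfl⟩ := IsFractionRing.div_surjective (A := O) z
    obtain ⟨s, -, h1, -, h2, h3⟩ := hO x x.2
    obtain ⟨s', -, h1', -, h2', h3'⟩ := hO y y.2
    refine ⟨⟨_, h3⟩ * ⟨_, h2'⟩, ⟨_, h3'⟩ * ⟨_, h2⟩, ?_⟩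
    change (x : E) / y = s * x * s' / (s' * y * s)
    field_simp
  exact Bla.main (D := D) hC hG hH hT hK hπ hL (fun _ => rfl) (fun _ => rfl) b hb' O f hu hu' hO hf

end Pool.Agent.KEW

end MrgPart1

-- ======== part 2: formerly Pool.Agent.MP_55d974_ag.kew.Sep
section MrgPart2

/-! PROJECT KEW, valuative criteria. -/

open AlgebraicGeometry CategoryTheory TopologicalSpace Opposite Pool.Agent.MP_55d974_ag IsLocalRing

namespace Pool.Agent.KEW

noncomputable section

open Classical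

variable {A : Type} [CommRing A] {X : Scheme.{0}}

namespace SepA

theorem nu_mul {y z : X} (h : y ⤳ z) {b s : X.residueField y} (hb : Nu h b) (hs : s ∈ O h) :
    Nu h (s * b) := by
  obtain ⟨a, ha, rfl⟩ := hb
  obtain ⟨c, rfl⟩ := hs
  exact ⟨c * a, Ideal.mul_mem_left _ _ ha, map_mul _ _ _⟩

theorem nu_add {y z : X} (h : y ⤳ z) {b s : X.residueField y} (hb : Nu h b) (hs : Nu h s) :
    Nu h (b + s) := by
  obtain ⟨a, ha, rfl⟩ := hb
  obtain ⟨c, hc, rfl⟩ := hs
  exact ⟨a + c, Ideal.add_mem _ ha hc, map_add _ _ _⟩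

theorem nu_zero {y z : X} (h : y ⤳ z) : Nu h 0 := ⟨0, Ideal.zero_mem _, map_zero _⟩

/-- The prime of a subring of `O h` cut out by the maximal ideal. -/
def ctrI {y z : X} (h : y ⤳ z) (B : Subring (X.residueField y)) (hB : B ≤ O h) : Ideal B where
  carrier := {b | Nu h b.1}
  add_mem' := fun ha hb => nu_add h ha hb
  zero_mem' := nu_zero h
  smul_mem' := fun c _ hb => nu_mul h hb (hB c.2)

theorem ctrI_prime (P : Pts X) {y z : X} (h : y ⤳ z) (B : Subring (X.residueField y))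
    (hB : B ≤ O h) : (ctrI h B hB).IsPrime := by
  refine ⟨fun ht => ?_, fun {a b} hab => ?_⟩
  · have h1 : (1 : B) ∈ ctrI h B hB := by rw [ht]; trivial
    exact (P.nu h 1 (one_mem _)).2 ⟨one_ne_zero, by rw [inv_one]; exact one_mem _⟩ h1
  · by_contra hn
    rw [not_or] at hn
    obtain ⟨a0, a1⟩ := (P.nu h a.1 (hB a.2)).1 hn.1
    obtain ⟨b0, b1⟩ := (P.nu h b.1 (hB b.2)).1 hn.2
    refine (P.nu h (a.1 * b.1) (mul_mem (hB a.2) (hB b.2))).2 ⟨mul_ne_zero a0 b0, ?_⟩ hab
    rw [mul_inv]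
    exact mul_mem a1 b1

theorem dm_nu (P : Pts X) {y z : X} (h : y ⤳ z) {V : ValuationSubring (X.residueField y)}
    (hV : Dm (O h) V) {b : X.residueField y} (hb : b ∈ O h) : Nu h b ↔ b ∈ V.nonunits := by
  rw [ValuationSubring.mem_nonunits_iff_or, ← not_iff_not, P.nu h b hb, not_or, not_not]
  exact ⟨fun k => ⟨k.1, hV.1 _ k.2⟩, fun k => ⟨k.1, hV.2 _ hb k.1 k.2⟩⟩

theorem exists_dm (P : Pts X) {y z : X} (h : y ⤳ z) : ∃ V, Dm (O h) V := by
  obtain ⟨V, h1, h2⟩ := Ideal.image_subset_nonunits_valuationSubring (ctrI h (O h) le_rfl)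
    (ctrI_prime P h _ _).ne_top
  refine ⟨V, fun x hx => h1 hx, fun x hx x0 hi => ?_⟩
  refine ((P.nu h x hx).1 fun hn => ?_).2
  have := h2 ⟨⟨x, hx⟩, hn, rfl⟩
  rw [SetLike.mem_coe, ValuationSubring.mem_nonunits_iff_or] at this
  exact this.elim x0 fun k => k hi

theorem o_self (P : Pts X) {y : X} (h : y ⤳ y) (c : X.residueField y) : c ∈ O h := by
  have := P.frac h
  obtain ⟨a, b, hb, rfl⟩ := IsFractionRing.div_surjective (A := O h) c
  have b0 : (b : X.residueField y) ≠ 0 := fun k =>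
    nonZeroDivisors.ne_zero hb (Subtype.ext k)
  have := (P.nu h b.1 b.2).1 fun k => b0 ((P.self h _).1 k)
  rw [div_eq_mul_inv]
  exact mul_mem a.2 this.2

variable {f : X ⟶ Spec (.of A)} {N : ℕ} {w : X} {τ : Fin (N + 1) → X.residueField w}

theorem ak_mem (i : Fin (N + 1)) (c : A) : aK f w c ∈ Bi f w τ i :=
  Subring.subset_closure (Or.inl ⟨c, rfl⟩)

theorem div_mem' (i k : Fin (N + 1)) : τ k / τ i ∈ Bi f w τ i :=
  Subring.subset_closure (Or.inr ⟨k, rfl⟩)

theorem bi_le {i : Fin (N + 1)} {S : Subring (X.residueField w)} (h1 : ∀ c, aK f w c ∈ S)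
    (h2 : ∀ k, τ k / τ i ∈ S) : Bi f w τ i ≤ S := by
  refine Subring.closure_le.2 ?_
  rintro _ (⟨c, rfl⟩ | ⟨k, rfl⟩)
  · exact h1 c
  · exact h2 k

theorem sp_of_nu (P : Pts X) (C : IsCrd f w τ) {z z' : X} (h : w ⤳ z) (h' : w ⤳ z')
    {i : Fin (N + 1)} (hi : τ i ≠ 0) (k : Bi f w τ i ≤ O h) (k' : Bi f w τ i ≤ O h')
    (hn : ∀ b ∈ Bi f w τ i, Nu h' b → Nu h b) : z' ⤳ z := by
  refine C.ord h h' fun c hc => ?_
  obtain ⟨s, hs, s1, s2⟩ := C.loc h i hi k c hc
  obtain ⟨s0, s3⟩ := (P.nu h' s (k' hs)).1 fun m => s1 (hn s hs m)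
  have : c = c * s * s⁻¹ := by field_simp
  rw [this]
  exact mul_mem (k' s2) s3

theorem chart (C : IsCrd f w τ) (V : ValuationSubring (X.residueField w))
    (hV : ∀ c, aK f w c ∈ V) : ∃ i, τ i ≠ 0 ∧ Bi f w τ i ≤ V.toSubring := by
  obtain ⟨j, hj, -⟩ := C.ex (specializes_refl w)
  obtain ⟨i, hi⟩ := Finite.exists_max fun i => V.valuation (τ i)
  have i0 : τ i ≠ 0 := fun k => hj (by
    have := hi j
    rw [k, map_zero, le_zero_iff] at this
    exact (map_eq_zero _).1 this)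
  refine ⟨i, i0, bi_le hV fun k => ?_⟩
  change τ k / τ i ∈ V
  rw [← V.valuation_le_one_iff, map_div₀]
  exact div_le_one_of_le₀ (hi k) zero_le

theorem ctr (P : Pts X) (C : IsCrd f w τ) (V : ValuationSubring (X.residueField w))
    (hV : ∀ c, aK f w c ∈ V) : ∃ (z : X) (h : w ⤳ z), Dm (O h) V := by
  obtain ⟨i, hi, hB⟩ := chart C V hV
  let φ : Bi f w τ i →+* V := (Bi f w τ i).subtype.codRestrict V fun x => hB x.2
  obtain ⟨z, h, h1, h2⟩ := C.pt i hi ((maximalIdeal V).comap φ) inferInstance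
  have key : ∀ b ∈ Bi f w τ i, ¬ Nu h b ↔ b ≠ 0 ∧ b⁻¹ ∈ V := fun b hb => by
    rw [← h2 ⟨b, hb⟩, Ideal.mem_comap, ← ValuationSubring.coe_mem_nonunits_iff,
      ValuationSubring.mem_nonunits_iff_or, not_or, not_not]
    rfl
  refine ⟨z, h, fun c hc => ?_, fun c hc c0 ci => ?_⟩
  · obtain ⟨s, hs, s1, s2⟩ := C.loc h i hi h1 c hc
    obtain ⟨s0, s3⟩ := (key s hs).1 s1
    have : c = c * s * s⁻¹ := by field_simp
    rw [this]
    exact mul_mem (hB s2) s3
  · obtain ⟨s, hs, s1, s2⟩ := C.loc h i hi h1 c hc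
    obtain ⟨s0, s3⟩ := (key s hs).1 s1
    refine ((P.nu h c hc).1 fun m => ?_).2
    refine (key _ s2).2 ⟨mul_ne_zero c0 s0, ?_⟩ (mul_comm c s ▸ nu_mul h m (h1 hs))
    rw [mul_inv]
    exact mul_mem ci s3

theorem sep (P : Pts X) (C : IsCrd f w τ) {z z' : X} (h : w ⤳ z) (h' : w ⤳ z')
    (V : ValuationSubring (X.residueField w)) (hV : Dm (O h) V) (hV' : Dm (O h') V) : z = z' := by
  obtain ⟨i, hi, k⟩ := C.ex h
  obtain ⟨j, hj, k1⟩ := C.ex h'
  have e : τ j / τ i ∈ O h' := by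
    have := hV'.2 _ (k1 (div_mem' j i)) (div_ne_zero hi hj)
      (by rw [inv_div]; exact hV.1 _ (k (div_mem' i j)))
    rwa [inv_div] at this
  have k' : Bi f w τ i ≤ O h' := bi_le (fun c => k1 (ak_mem j c)) fun l => by
    have : τ l / τ i = τ l / τ j * (τ j / τ i) := by field_simp
    rw [this]
    exact mul_mem (k1 (div_mem' j l)) e
  have m : ∀ b ∈ Bi f w τ i, Nu h b ↔ Nu h' b := fun b hb =>
    (dm_nu P h hV (k hb)).trans (dm_nu P h' hV' (k' hb)).symm
  exact ((sp_of_nu P C h' h hi k' k fun b hb => (m b hb).1).antisymm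
    (sp_of_nu P C h h' hi k k' fun b hb => (m b hb).2)).eq

theorem bi_noeth [IsNoetherianRing A] (i : Fin (N + 1)) : IsNoetherianRing (Bi f w τ i) := by
  have : Bi f w τ i = (MvPolynomial.eval₂Hom (aK f w) fun k => τ k / τ i).range := by
    refine le_antisymm (bi_le (fun c => ⟨MvPolynomial.C c, by simp⟩)
      fun k => ⟨MvPolynomial.X k, by simp⟩) ?_
    rintro _ ⟨p, rfl⟩
    induction p using MvPolynomial.induction_on with
    | C a => rw [MvPolynomial.eval₂Hom_C]; exact ak_mem i a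
    | add p q hp hq => rw [map_add]; exact add_mem hp hq
    | mul_X p n hp => rw [map_mul, MvPolynomial.eval₂Hom_X']; exact mul_mem hp (div_mem' i n)
  rw [this]
  infer_instance

theorem fin [IsNoetherianRing A] {π : A} {d : ℕ} (P : Pts X) (C : IsCrd f w τ) (D : Dim f π d)
    (u : (X.residueField w)ˣ) : {z | ∃ h : w ⤳ z, cod z = cod w + 1 ∧
      ¬ ((u : X.residueField w) ∈ O h ∧ (u : X.residueField w)⁻¹ ∈ O h)}.Finite := by
  have main : ∀ i, {z | ∃ h : w ⤳ z, (τ i ≠ 0 ∧ Bi f w τ i ≤ O h) ∧ cod z = cod w + 1 ∧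
      ¬ ((u : X.residueField w) ∈ O h ∧ (u : X.residueField w)⁻¹ ∈ O h)}.Finite := fun i => by
    by_cases hi : τ i = 0
    · refine Set.Finite.subset Set.finite_empty ?_
      rintro z ⟨h, ⟨k, -⟩, -⟩
      exact k hi
    have := bi_noeth (f := f) (τ := τ) i
    obtain ⟨s, hs, s1, s2⟩ := C.loc (specializes_refl w) i hi (fun c _ => o_self P _ c) u
      (o_self P _ _)
    have s0 : s ≠ 0 := fun k => s1 ((P.self _ _).2 k)
    have u0 : (u : X.residueField w) ≠ 0 := u.ne_zero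
    let g : Bi f w τ i := ⟨u * s * s, mul_mem s2 hs⟩
    have g0 : g.1 ≠ 0 := mul_ne_zero (mul_ne_zero u0 s0) s0
    let F : X → Ideal (Bi f w τ i) := fun z =>
      if h : ∃ h : w ⤳ z, Bi f w τ i ≤ O h then ctrI h.1 _ h.2 else ⊥
    have hF : ∀ z (h : w ⤳ z) (k : Bi f w τ i ≤ O h), F z = ctrI h _ k := fun z h k =>
      dif_pos ⟨h, k⟩
    refine Set.Finite.of_finite_image (f := F) (Set.Finite.subset
      (Ideal.finite_minimalPrimes_of_isNoetherianRing _ (Ideal.span {g})) ?_) ?_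
    · rintro _ ⟨z, ⟨h, ⟨-, k⟩, hc, hu⟩, rfl⟩
      rw [hF z h k]
      refine ⟨⟨ctrI_prime P h _ k, (Ideal.span_singleton_le_iff_mem _).2 ?_⟩, ?_⟩
      · by_contra hn
        obtain ⟨-, g1⟩ := (P.nu h g.1 (k g.2)).1 hn
        refine hu ⟨?_, ?_⟩
        · have : (u : X.residueField w) = u * s * (u * s) * (u * s * s)⁻¹ * s * 1 *
            (u * s * (u * s * s)⁻¹) := by field_simp
          rw [this]
          exact mul_mem (mul_mem (mul_mem (mul_mem (mul_mem (k s2) (k s2)) g1) (k hs)) (one_mem _))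
            (mul_mem (k s2) g1)
        · have : (u : X.residueField w)⁻¹ = s * s * (u * s * s)⁻¹ := by field_simp
          rw [this]
          exact mul_mem (mul_mem (k hs) (k hs)) g1
      · rintro Q ⟨hQ, hg⟩ hle
        obtain ⟨z', h', k', e⟩ := C.pt i hi Q hQ
        have sp : z' ⤳ z := sp_of_nu P C h h' hi k k' fun b hb m => hle ((e ⟨b, hb⟩).2 m)
        have n1 : w ≠ z' := by
          rintro rfl
          exact g0 ((P.self h' _).1 ((e g).1 (hg (Ideal.mem_span_singleton_self g))))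
        have n2 : z' = z := by
          by_contra n2
          have a1 := D.lt h' n1
          have a2 := D.lt sp n2
          have a3 := D.add w
          have a4 := D.add z
          omega
        subst n2
        exact fun b hb => (e b).2 hb
    · rintro z ⟨h, ⟨-, k⟩, -⟩ z' ⟨h', ⟨-, k'⟩, -⟩ e
      rw [hF z h k, hF z' h' k'] at e
      have m : ∀ b (hb : b ∈ Bi f w τ i), Nu h b ↔ Nu h' b := fun b hb =>
        SetLike.ext_iff.1 e ⟨b, hb⟩
      exact ((sp_of_nu P C h' h hi k' k fun b hb => (m b hb).1).antisymm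
        (sp_of_nu P C h h' hi k k' fun b hb => (m b hb).2)).eq
  refine (Set.finite_iUnion main).subset ?_
  rintro z ⟨h, hz⟩
  obtain ⟨i, hi⟩ := C.ex h
  exact Set.mem_iUnion.2 ⟨i, h, hi, hz⟩

theorem ver {π : A} {d : ℕ} (hπ : ¬ IsUnit π) (P : Pts X) (C : IsCrd f w τ) (D : Dim f π d) :
    ∃ x, w ⤳ x ∧ ¬ Hor f π x := by
  by_cases hw : Hor f π w
  swap
  · exact ⟨w, specializes_refl w, hw⟩
  have hI : Ideal.span {(aK f w).rangeRestrict π} ≠ ⊤ := by
    rw [Ne, Ideal.span_singleton_eq_top, isUnit_iff_exists_inv]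
    rintro ⟨⟨_, c, rfl⟩, hc⟩
    refine hπ (isUnit_iff_exists_inv.2 ⟨c, D.inj w hw ?_⟩)
    rw [map_mul, map_one]
    exact congrArg Subtype.val hc
  obtain ⟨V, h1, h2⟩ := Ideal.image_subset_nonunits_valuationSubring _ hI
  obtain ⟨z, h, hV⟩ := ctr P C V fun c => h1 ⟨c, rfl⟩
  refine ⟨z, h, (D.nu h).1 ((dm_nu P h hV ⟨_, D.ak h π⟩).2 ?_)⟩
  exact h2 ⟨_, Ideal.mem_span_singleton_self _, rfl⟩

theorem x0 {π : A} {d : ℕ} (hH : Hen A π) (P : Pts X) (C : IsCrd f w τ) (D : Dim f π d)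
    (hw : Hor f π w) (hd : dl d w = 1) {x x' : X} (h : w ⤳ x) (h' : w ⤳ x') (k : ¬ Hor f π x)
    (k' : ¬ Hor f π x') : x = x' := by
  obtain ⟨V, hV⟩ := exists_dm P h
  obtain ⟨W, hW⟩ := exists_dm P h'
  let _ := (aK f w).toAlgebra
  have ht := (D.hor w hw).2
  rw [hd, Nat.sub_self, Nat.cast_zero, trdeg_eq_zero_iff] at ht
  have alg : Algebra.IsAlgebraic A (X.residueField w) := ⟨fun y => by
    obtain ⟨p, p0, hp⟩ := ht.isAlgebraic y
    obtain ⟨q, rfl⟩ := Polynomial.map_surjective _ (aK f w).rangeRestrict_surjective p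
    refine ⟨q, fun e => p0 (by rw [e, Polynomial.map_zero]), ?_⟩
    rw [Polynomial.aeval_def, Polynomial.eval₂_map] at hp
    exact hp⟩
  have e : V = W := hH _ (D.inj w hw) alg V W (fun c => hV.1 _ ⟨_, D.ak h c⟩)
    (fun c => hW.1 _ ⟨_, D.ak h' c⟩) ((dm_nu P h hV ⟨_, D.ak h π⟩).1 ((D.nu h).2 k))
    ((dm_nu P h' hW ⟨_, D.ak h' π⟩).1 ((D.nu h').2 k'))
  exact sep P C h h' V hV (e ▸ hW)

end SepA

theorem sep (hH : HenS) (h1 : PtsS) (h2 : All Crd) (h3 : All Dim) : All Sep := by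
  intro A _ _ _ _ _ X f π d H
  have P := h1 X
  have C := (h2 A X f π d H).crd
  have D := h3 A X f π d H
  refine ⟨fun {w z z'} h h' V => ?_, fun w V => ?_, fun w => ?_, fun w u => ?_, fun w hw hd => ?_⟩
  all_goals obtain ⟨N, τ, c⟩ := C w
  · exact SepA.sep P c h h' V
  · exact SepA.ctr P c V
  · exact SepA.ver H.irr.not_isUnit P c D
  · exact SepA.fin P c D u
  · obtain ⟨x, a, b⟩ := SepA.ver H.irr.not_isUnit P c D
    exact ⟨x, ⟨b, a⟩, fun y hy => SepA.x0 (hH A π H.irr) P c D hw hd hy.2 a hy.1 b⟩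

end

end Pool.Agent.KEW

end MrgPart2

-- ======== part 3: formerly Pool.Agent.MP_55d974_ag.kew.Dif
section MrgPart3

/-! PROJECT KEW, the differential on finite families. -/

open AlgebraicGeometry CategoryTheory TopologicalSpace Opposite Pool.Agent.MP_55d974_ag IsLocalRing

namespace Pool.Agent.KEW

noncomputable section

open Classical

/-- An additive subgroup containing all products of symbols is everything. -/
theorem dif_top {R : Type} [CommRing R] (H : AddSubgroup (Kr R))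
    (h : ∀ l : List Rˣ, (l.map sym).prod ∈ H) (x : Kr R) : x ∈ H := by
  let G : AddSubgroup (Kr R) := AddSubgroup.closure {x | ∃ l : List Rˣ, x = (l.map sym).prod}
  have hG : G ≤ H := (AddSubgroup.closure_le _).2 (by rintro _ ⟨l, rfl⟩; exact h l)
  have hmul : ∀ a ∈ G, ∀ b ∈ G, a * b ∈ G := by
    intro a ha b hb
    refine (AddSubgroup.closure_le (G.comap (AddMonoidHom.mulRight b))).2 ?_ ha
    rintro _ ⟨l, rfl⟩
    refine (AddSubgroup.closure_le (G.comap (AddMonoidHom.mulLeft (l.map sym).prod))).2 ?_ hb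
    rintro _ ⟨l', rfl⟩
    exact AddSubgroup.subset_closure ⟨l ++ l', by simp⟩
  refine hG ?_
  obtain ⟨t, rfl⟩ := RingQuot.mkRingHom_surjective (St R) x
  induction t using TensorAlgebra.induction with
  | algebraMap r =>
    have h1 : (1 : Kr R) ∈ G := AddSubgroup.subset_closure ⟨[], by simp⟩
    have := zsmul_mem h1 r
    simpa using this
  | ι u => exact AddSubgroup.subset_closure ⟨[Additive.toMul u], by simp [sym]⟩
  | mul a b ha hb => rw [map_mul]; exact hmul _ ha _ hb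
  | add a b ha hb => rw [map_add]; exact add_mem ha hb

theorem dif_pick {R S : Type} [CommRing R] [CommRing S] (i : ℕ) (P : (Kr R →+ Kr S) → Prop)
    (m : ℕ) (x : Kr R) (hx : x ∈ K R (m + i)) : pick i P x ∈ K S m := by
  unfold pick
  split_ifs with h
  · exact h.choose_spec.2 m x hx
  · exact zero_mem _

theorem dif_nrmL {E : Type} [Field E] (m : ℕ) (l : List E) :
    ∀ (M : Subfield E), ∀ x ∈ K E m, nrmL l M x ∈ K M m := by
  induction l with
  | nil => exact fun M x hx => dif_pick 0 _ m x hx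
  | cons a l ih => exact fun M x hx => dif_pick 0 _ m _ (ih _ x hx)

theorem dif_nrm {L E : Type} [Field L] [Field E] (φ : L →+* E) (m : ℕ) (x : Kr E)
    (hx : x ∈ K E m) : nrm φ x ∈ K L m := by
  unfold nrm
  split_ifs with h
  · exact dif_pick 0 _ m x hx
  · exact kmap_mem _ (dif_nrmL m _ _ x hx)

variable {A : Type} [CommRing A] {X : Scheme.{0}} {f : X ⟶ Spec (.of A)} {π : A} {d : ℕ}

theorem dif_cond (h3 : Dim f π d) (y z : X) :
    ringKrullDim (X.presheaf.stalk z) = ringKrullDim (X.presheaf.stalk y) + 1 ↔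
      cod z = cod y + 1 := by
  rw [h3.eq, h3.eq]
  exact_mod_cast Iff.rfl

theorem dif_cod (h3 : Dim f π d) (y z : X) : cod z = cod y + 1 ↔ dl d y = dl d z + 1 := by
  have h1 := h3.add y
  have h2 := h3.add z
  omega

theorem dif_dK (y z : X) : dK y z =
    if ringKrullDim (X.presheaf.stalk z) = ringKrullDim (X.presheaf.stalk y) + 1 then
      ∑ᶠ V : {V // Pl y z V}, (nrm (rk V.2)).comp (tame V.1 (residue V.1)) else 0 := rfl

/-- The component of the differential is a finite sum over places. -/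
theorem dif_sum (h3 : Dim f π d) (y z : X) : ∃ s : Finset {V // Pl y z V},
    (s.Nonempty → cod z = cod y + 1) ∧
      ∀ β, dK y z β = ∑ V ∈ s, nrm (rk V.2) (tame V.1 (residue V.1) β) := by
  rw [dif_dK]
  split_ifs with h
  · rw [finsum_def]
    split_ifs with h'
    · exact ⟨h'.toFinset, fun _ => (dif_cond h3 y z).1 h, fun β => by
        rw [AddMonoidHom.finsetSum_apply]; rfl⟩
    · exact ⟨∅, by simp, by simp⟩
  · exact ⟨∅, by simp, by simp⟩

theorem dif_ind (h3 : Dim f π d) (y z : X) (β) (H : AddSubgroup (Kr (X.residueField z)))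
    (h : ∀ V (P : Pl y z V), cod z = cod y + 1 → nrm (rk P) (tame V (residue V) β) ∈ H) :
    dK y z β ∈ H := by
  obtain ⟨s, h1, h2⟩ := dif_sum h3 y z
  rw [h2]
  exact sum_mem fun V hV => h V.1 V.2 (h1 ⟨V, hV⟩)

theorem dif_ex (h3 : Dim f π d) (y z : X) (β) (h : dK y z β ≠ 0) :
    ∃ V, ∃ _ : Pl y z V, cod z = cod y + 1 ∧ tame V (residue V) β ≠ 0 := by
  by_contra hc
  refine h (AddSubgroup.mem_bot.1 (dif_ind h3 y z β ⊥ fun V P hP => ?_))
  have : tame V (residue V) β = 0 := by_contra fun h0 => hc ⟨V, P, hP, h0⟩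
  rw [this, map_zero]
  exact zero_mem _

theorem dif_fin (hT : TameS) (h3 : Dim f π d) (h4 : Sep f π d) (y : X)
    (β : Kr (X.residueField y)) : {z | dK y z β ≠ 0}.Finite := by
  let H : AddSubgroup (Kr (X.residueField y)) :=
    { carrier := {β | {z | dK y z β ≠ 0}.Finite}
      zero_mem' := by simp
      add_mem' := fun {a b} ha hb => (Set.Finite.union ha hb).subset fun z hz => by
        by_contra hc
        simp only [Set.mem_union, Set.mem_ofPred_eq, not_or, not_not] at hc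
        exact hz (by rw [map_add, hc.1, hc.2, add_zero])
      neg_mem' := fun {a} ha => by simpa using ha }
  refine dif_top H (fun l => ?_) β
  refine (Set.Finite.biUnion l.finite_toSet fun u _ => h4.fin y u).subset fun z hz => ?_
  obtain ⟨V, P, hP, h0⟩ := dif_ex h3 y z _ hz
  by_contra hc
  refine h0 (hT.syms V _ P.dvr inferInstance l fun u hu => ?_)
  have : (u : X.residueField y) ∈ O P.sp ∧ (u : X.residueField y)⁻¹ ∈ O P.sp :=
    by_contra fun h1 => hc (Set.mem_biUnion hu ⟨P.sp, hP, h1⟩)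
  obtain ⟨⟨a, ha⟩, ⟨b, hb⟩⟩ := this
  exact ⟨u.ne_zero, ha ▸ P.mem a, hb ▸ P.mem b⟩

theorem dif_dd_add (a b : Ch X) (z : X) : dd (a + b) z = dd a z + dd b z := map_add _ a b

theorem dif_dd_single (y : X) (β) (z : X) : dd (DFinsupp.single y β : Ch X) z = dK y z β :=
  DFinsupp.sumAddHom_single _ _ _

theorem dif_dd_zero (a : Ch X) (z : X) (h : ∀ y, dK y z (a y) = 0) : dd a z = 0 := by
  unfold dd
  rw [DFinsupp.sumAddHom_apply]
  exact Finset.sum_eq_zero fun y _ => h y

theorem dif_fin' (hT : TameS) (h3 : Dim f π d) (h4 : Sep f π d) (a : Ch X) :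
    {z | dd a z ≠ 0}.Finite := by
  refine (Set.Finite.biUnion a.support.finite_toSet fun y _ =>
    dif_fin hT h3 h4 y (a y)).subset fun z hz => ?_
  by_contra hc
  refine hz (dif_dd_zero a z fun y => by_contra fun h0 => hc (Set.mem_biUnion (x := y) ?_ h0))
  refine DFinsupp.mem_support_iff.2 fun h1 => h0 ?_
  rw [h1, map_zero]

theorem dif_app (hT : TameS) (h3 : Dim f π d) (h4 : Sep f π d) (a : Ch X) (z : X) :
    DD X a z = dd a z := by
  have h : ∃ D : Ch X →+ Ch X, ∀ a z, D a z = dd a z :=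
    ⟨AddMonoidHom.mk' (fun a => ⟨fun z => dd a z, Trunc.mk ⟨(dif_fin' hT h3 h4 a).toFinset.val,
      fun z => by
        by_cases h : dd a z = 0
        · exact Or.inr h
        · exact Or.inl ((dif_fin' hT h3 h4 a).mem_toFinset.2 h)⟩⟩)
      fun a b => DFinsupp.ext fun z => dif_dd_add a b z, fun _ _ => rfl⟩
  unfold DD
  rw [dif_pos h]
  exact h.choose_spec a z

theorem dif_mem (h3 : Dim f π d) (y z : X) (i) (β) (hβ : β ∈ K (X.residueField y) (i + 1)) :
    dK y z β ∈ K _ i :=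
  dif_ind h3 y z β _ fun _ _ _ => dif_nrm _ i _ (dif_pick 1 _ i β hβ)

theorem dif_zero (hT : TameS) (h3 : Dim f π d) (y z : X) : dK y z 1 = 0 :=
  by_contra fun h => by
    obtain ⟨V, P, -, h0⟩ := dif_ex h3 y z _ h
    exact h0 (hT.syms V _ P.dvr inferInstance [] (by simp))

theorem dif_sq (hT : TameS) (h3 : Dim f π d) (h4 : Sep f π d) (hG : ∀ m, Gersten X m) (y : X)
    (l : List (X.residueField y)ˣ) : DD X (DD X (DFinsupp.single y (l.map sym).prod)) = 0 := by
  have hs : ∀ β z, DD X (DFinsupp.single y β) z = dK y z β := fun β z => by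
    rw [dif_app hT h3 h4, dif_dd_single]
  rcases hl : l.length with _ | i
  · have : DD X (DFinsupp.single y (l.map sym).prod) = 0 := DFinsupp.ext fun z => by
      rw [hs, List.length_eq_zero_iff.1 hl]
      exact dif_zero hT h3 y z
    rw [this, map_zero]
  have hβ : (l.map sym).prod ∈ K (X.residueField y) (i + 1) :=
    AddSubgroup.subset_closure ⟨l, hl, rfl⟩
  generalize (l.map sym).prod = β at hβ
  refine DFinsupp.ext fun z => ?_
  rw [dif_app hT h3 h4, DFinsupp.zero_apply]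
  by_cases hyz : y ⤳ z
  swap
  · refine dif_dd_zero _ z fun w => by_contra fun h => ?_
    obtain ⟨V, P, -, -⟩ := dif_ex h3 w z _ h
    have h1 : dK y w β ≠ 0 := fun h0 => h (by rw [hs, h0, map_zero])
    obtain ⟨V', P', -, -⟩ := dif_ex h3 y w _ h1
    exact hyz (P'.sp.trans P.sp)
  set c := DD X (DFinsupp.single y β) with hc
  rw [← DFinsupp.filter_add_filter_not c (· ⤳ z), dif_dd_add]
  have h2 : dd (c.filter fun w => ¬ w ⤳ z) z = 0 := dif_dd_zero _ z fun w => by_contra fun h => by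
    obtain ⟨V, P, -, -⟩ := dif_ex h3 w z _ h
    rw [DFinsupp.filter_apply, if_neg (not_not.2 P.sp), map_zero] at h
    exact h rfl
  rw [h2, add_zero]
  refine ((hG (cod y + 1 + i) z).2.2 (cod y) i (c.filter (· ⤳ z)) rfl fun w => ?_).2
    ⟨DFinsupp.single y β, fun w => ?_, fun w hw => ?_⟩ z specializes_rfl
  · rw [DFinsupp.filter_apply]
    split_ifs with hw
    · rw [hc, hs]
      refine ⟨dif_mem h3 y w i β hβ, fun h => ⟨hw, ?_⟩⟩
      obtain ⟨V, P, hP, -⟩ := dif_ex h3 y w _ h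
      rw [h3.eq, hP]
    · exact ⟨zero_mem _, fun h => (h rfl).elim⟩
  · by_cases hw : y = w
    · subst hw
      rw [DFinsupp.single_eq_same]
      exact ⟨hβ, fun _ => ⟨hyz, h3.eq y⟩⟩
    · rw [DFinsupp.single_eq_of_ne (Ne.symm hw)]
      exact ⟨zero_mem _, fun h => (h rfl).elim⟩
  · rw [DFinsupp.filter_apply, if_pos hw, hc, hs, dif_dd_single]

theorem dif_of (hT : TameS) (h3 : Dim f π d) (h4 : Sep f π d) : Dif f π d where
  app := dif_app hT h3 h4
  single y β z := by rw [dif_app hT h3 h4, dif_dd_single]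
  loc y z β h := by
    obtain ⟨V, P, hP, -⟩ := dif_ex h3 y z β h
    exact ⟨P.sp, (dif_cod h3 y z).1 hP⟩
  mem y z i β hβ := dif_mem h3 y z i β hβ
  zero := dif_zero hT h3
  ind y z β H h := dif_ind h3 y z β H fun V P hP => h V P ((dif_cod h3 y z).1 hP)
  congr y z β β' g h := by
    obtain ⟨s, h1, h2⟩ := dif_sum h3 y z
    rw [h2, h2, map_sum]
    exact Finset.sum_congr rfl fun V hV => h V.1 V.2 ((dif_cod h3 y z).1 (h1 ⟨V, hV⟩))
  uniq y z V P β h hu := by
    rw [dif_dK, if_pos ((dif_cond h3 y z).2 ((dif_cod h3 y z).2 h)),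
      finsum_eq_single _ (⟨V, P⟩ : {V // Pl y z V}) fun W hW => (hW (Subtype.ext (hu W.1 W.2))).elim]
    rfl
  dd hG a := by
    induction a using DFinsupp.induction with
    | h0 => rw [map_zero, map_zero]
    | ha y β a _ _ ih =>
      rw [map_add, map_add, ih, add_zero]
      exact dif_top (((DD X).comp (DD X)).comp (DFinsupp.singleAddHom _ y)).ker
        (dif_sq hT h3 h4 hG y) β

theorem dif (hT : TameS) (_h1 : PtsS) (h3 : All Dim) (h4 : All Sep) : All Dif :=
  fun A _ _ _ _ _ X f π d h => dif_of hT (h3 A X f π d h) (h4 A X f π d h)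

end

end Pool.Agent.KEW

end MrgPart3

-- ======== part 4: formerly Pool.Agent.MP_55d974_ag.kew.BlgA
section MrgPart4

/-! PROJECT KEW, the basic lemma in geometric form. -/

open AlgebraicGeometry CategoryTheory TopologicalSpace Opposite Pool.Agent.MP_55d974_ag IsLocalRing

namespace Pool.Agent.KEW

noncomputable section

open Classical

namespace BlgA

open Polynomial

theorem s_mul {R : Type} [CommRing R] (a b : Rˣ) : sym (a * b) = sym a + sym b := by
  unfold sym
  rw [ofMul_mul, map_add, map_add]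

theorem s_pow {R : Type} [CommRing R] (a : Rˣ) (n : ℕ) : sym (a ^ n) = n • sym a := by
  unfold sym
  rw [ofMul_pow, map_nsmul, map_nsmul]

theorem s_one {R : Type} [CommRing R] : sym (1 : Rˣ) = 0 := by
  simpa using s_pow (1 : Rˣ) 0

/-- A valuation ring that contains a local ring contains a valuation ring dominating it. -/
theorem comp {E : Type} [Field E] (S : Subring E) [IsLocalRing S] (V : ValuationSubring E)
    (hS : ∀ x ∈ S, x ∈ V) : ∃ V', V' ≤ V ∧ Dm S V' := by
  let ι : S →+* V := S.subtype.codRestrict V fun x => hS x x.2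
  obtain ⟨W, h1, h2⟩ := Bla.exV (maximalIdeal S) ((residue V).comp ι) fun x hx hu => by
    have := (hu.map ((residue V).comp ι)).ne_zero
    exact this hx
  refine ⟨⟨(W.toSubring.comap (residue V)).map V.subtype, fun x => ?_⟩, ?_, fun x hx => ?_,
    fun x hx h0 hi => ?_⟩
  · have key : ∀ y, y ∈ V → y⁻¹ ∉ V → y ∈ (W.toSubring.comap (residue V)).map V.subtype :=
      fun y hy hy' => ⟨⟨y, hy⟩, by
        have : residue V ⟨y, hy⟩ = 0 := by
          rw [residue_eq_zero_iff, ← ValuationSubring.coe_mem_nonunits_iff,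
            ValuationSubring.mem_nonunits_iff_or]
          exact Or.inr hy'
        simp [this], rfl⟩
    by_cases h0 : x = 0
    · exact Or.inl ⟨0, zero_mem (W.toSubring.comap (residue V)), h0.symm⟩
    by_cases h3 : x ∈ V <;> by_cases h4 : x⁻¹ ∈ V
    · have e : residue V ⟨x, h3⟩ * residue V ⟨_, h4⟩ = 1 := by
        rw [← map_mul, ← map_one (residue V)]
        exact congrArg _ (Subtype.ext (mul_inv_cancel₀ h0))
      rcases W.mem_or_inv_mem (residue V ⟨x, h3⟩) with h5 | h5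
      · exact Or.inl ⟨⟨x, h3⟩, h5, rfl⟩
      · exact Or.inr ⟨⟨_, h4⟩, by rwa [inv_eq_of_mul_eq_one_right e] at h5, rfl⟩
    · exact Or.inl (key x h3 h4)
    · exact Or.inr (key _ h4 (by rwa [inv_inv]))
    · exact ((V.mem_or_inv_mem x).elim h3 h4).elim
  · rintro _ ⟨y, -, rfl⟩
    exact y.2
  · exact ⟨ι ⟨x, hx⟩, h1 _, rfl⟩
  · obtain ⟨y, hy, e⟩ := hi
    have e' : (residue V).comp ι ⟨x, hx⟩ * residue V y = 1 := by
      rw [RingHom.comp_apply, ← map_mul, ← map_one (residue V)]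
      refine congrArg _ (Subtype.ext ?_)
      change x * V.subtype y = 1
      rw [e, mul_inv_cancel₀ h0]
    have h3 : (⟨x, hx⟩ : S) ∉ maximalIdeal S := fun h4 => by
      rcases (ValuationSubring.mem_nonunits_iff_or _).1 ((h2 _).2 h4) with h5 | h5
      · exact left_ne_zero_of_mul_eq_one e' h5
      · exact h5 (by rw [inv_eq_of_mul_eq_one_right e']; exact hy)
    obtain ⟨t, ht⟩ := (notMem_maximalIdeal.1 h3).exists_right_inv
    rw [inv_eq_of_mul_eq_one_right (congrArg Subtype.val ht : x * t = 1)]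
    exact t.2

/-- Change of the generator by a monic polynomial. -/
theorem change {A E : Type} [CommRing A] [Field E] [Algebra A E] (u : E) (P : A[X]) (hP : P.Monic)
    (h0 : P.natDegree ≠ 0)
    (hf : Module.Finite (Algebra.adjoin A {u}) (integralClosure (Algebra.adjoin A {u}) E)) :
    Module.Finite (Algebra.adjoin A {aeval u P})
      (integralClosure (Algebra.adjoin A {aeval u P}) E) ∧
    ∀ x : E, IsIntegral (Algebra.adjoin A {u}) x → IsIntegral (Algebra.adjoin A {aeval u P}) x := by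
  set S := Algebra.adjoin A {aeval u P}
  set T := Algebra.adjoin A {u}
  have hle : S ≤ T := Algebra.adjoin_le (by
    rintro _ rfl
    exact aeval_mem_adjoin_singleton A u)
  let _ : Algebra S T := (Subalgebra.inclusion hle).toRingHom.toAlgebra
  have : IsScalarTower S T E := IsScalarTower.of_algebraMap_eq fun _ => rfl
  have : IsScalarTower A S T := IsScalarTower.of_algebraMap_eq fun _ => rfl
  have : Nontrivial S := inferInstance
  have hu : IsIntegral S (⟨u, Algebra.self_mem_adjoin_singleton A u⟩ : T) := by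
    refine (isIntegral_algHom_iff (IsScalarTower.toAlgHom S T E) Subtype.val_injective).1 ?_
    refine ⟨P.map (algebraMap A S) - C ⟨_, Algebra.self_mem_adjoin_singleton A _⟩,
      (hP.map _).sub_of_left (degree_C_le.trans_lt ?_), ?_⟩
    · rw [← natDegree_pos_iff_degree_pos, hP.natDegree_map]
      omega
    · rw [eval₂_sub, eval₂_map, eval₂_C, sub_eq_zero]
      rfl
  have hT : Module.Finite S T := by
    refine ⟨?_⟩
    have e : Algebra.adjoin S {(⟨u, Algebra.self_mem_adjoin_singleton A u⟩ : T)} = ⊤ := by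
      refine eq_top_iff.2 fun ⟨x, hx⟩ _ => ?_
      refine Algebra.adjoin_induction (p := fun x hx => (⟨x, hx⟩ : T) ∈ Algebra.adjoin S _) ?_
        (fun c => ?_) (fun x y _ _ h1 h2 => add_mem h1 h2) (fun x y _ _ h1 h2 => mul_mem h1 h2) hx
      · rintro _ rfl
        exact Algebra.subset_adjoin rfl
      · exact Subalgebra.algebraMap_mem _ (algebraMap A S c)
    have := hu.fg_adjoin_singleton
    rwa [e] at this
  have hi : ∀ x : E, IsIntegral T x → IsIntegral S x := fun x hx => isIntegral_trans x hx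
  refine ⟨?_, hi⟩
  have : Module.Finite S (integralClosure T E) := Module.Finite.trans T _
  refine Module.Finite.of_surjective (M := integralClosure T E)
    ((((integralClosure T E).val.restrictScalars S).codRestrict _ fun x => hi _ x.2).toLinearMap)
    fun x => ⟨⟨x.1, IsIntegral.tower_top x.2⟩, rfl⟩

variable {A : Type} [CommRing A] {X : Scheme.{0}} {f : X ⟶ Spec (.of A)} {π : A} {d : ℕ}

theorem ch_sum {C : Type} [AddCommGroup C] (φ : Ch X →+ C) (a : Ch X) (s : Finset X)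
    (hs : a.support ⊆ s) : φ a = ∑ z ∈ s, φ (DFinsupp.single z (a z)) := by
  conv_lhs => rw [← DFinsupp.sum_single (f := a)]
  rw [DFinsupp.sum, map_sum]
  refine Finset.sum_subset hs fun z _ hz => ?_
  rw [DFinsupp.notMem_support_iff.1 hz, DFinsupp.single_zero, map_zero]

theorem ch_eq {C : Type} [AddCommGroup C] (φ ψ : Ch X →+ C) (a b : Ch X)
    (h : ∀ z, φ (DFinsupp.single z (a z)) = ψ (DFinsupp.single z (b z))) : φ a = ψ b := by
  rw [ch_sum φ a _ Finset.subset_union_left, ch_sum ψ b _ Finset.subset_union_right]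
  exact Finset.sum_congr rfl fun z _ => h z

variable [IsDomain A] [IsDiscreteValuationRing A]

theorem monic (hπ : Irreducible π) (D : Dim f π d) {w x : X} (h : w ⤳ x) (hx : ¬ Hor f π x)
    (h0 : dl d x = 0) {u : X.residueField w} (hu : u ∈ O h) :
    ∃ P : A[X], P.Monic ∧ P.natDegree ≠ 0 ∧ Nu h (eval₂ (aK f w) u P) := by
  obtain ⟨a, rfl⟩ := hu
  have h1 := (D.ver x hx).2
  rw [h0, Nat.cast_zero, trdeg_eq_zero_iff] at h1
  obtain ⟨⟨_, c, rfl⟩, hc, h2⟩ := (h1.1 ((X.residue x).hom a)).exists_integral_multiple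
  let _ : Algebra A (X.residueField x) := (aK f x).toAlgebra
  let _ : Algebra A (aK f x).range := (aK f x).rangeRestrict.toAlgebra
  have : IsScalarTower A (aK f x).range (X.residueField x) :=
    IsScalarTower.of_algebraMap_eq fun _ => rfl
  have : Algebra.IsIntegral A (aK f x).range :=
    Algebra.isIntegral_of_surjective (aK f x).rangeRestrict_surjective
  have hcu : IsUnit c := by
    by_contra hn
    have : c ∈ maximalIdeal A := hn
    rw [hπ.maximalIdeal_eq, Ideal.mem_span_singleton] at this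
    obtain ⟨t, rfl⟩ := this
    exact hc (Subtype.ext (by simp [not_not.1 hx]))
  obtain ⟨c, rfl⟩ := hcu
  have h3 : IsIntegral A ((X.residue x).hom a) := by
    have := (isIntegral_trans (R := A) _ h2).smul (c⁻¹ : Aˣ).1
    rwa [show (c⁻¹ : Aˣ).1 • (⟨aK f x c, c, rfl⟩ : (aK f x).range) • (X.residue x).hom a =
      (X.residue x).hom a by
        change aK f x _ * (aK f x _ * _) = _
        rw [← mul_assoc, ← map_mul, Units.inv_mul, map_one, one_mul]] at this
  obtain ⟨P, hP, h4⟩ := h3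
  refine ⟨P, hP, fun h5 => ?_, eval₂ (sA f x) a P, ?_, ?_⟩
  · rw [eq_one_of_monic_natDegree_zero hP h5, eval₂_one] at h4
    exact one_ne_zero h4
  · rw [← residue_eq_zero_iff]
    change (X.residue x).hom _ = 0
    rw [hom_eval₂]
    exact h4
  · rw [hom_eval₂, show (gz h).comp (sA f x) = aK f w from RingHom.ext (D.ak h)]

variable [HenselianLocalRing A] [CharZero A]

theorem ex_g (hB : BlaS) (hπ : Irreducible π) (G : Geo f π d) {p q n : ℕ} (hL : Lv π p q n)
    {w x : X} (h : w ⤳ x) (hw : Hor f π w) (h2 : dl d w = 2) (hx : ¬ Hor f π x) (h0 : dl d x = 0)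
    (F : (X.residueField w)ˣ) (hF : ∀ z V, ¬ Hor f π z → dl d z = 1 → z ⤳ x → Pl w z V →
      Ap V (aK f w π ^ n) F) :
    ∃ g : (X.residueField w)ˣ, ∀ V : ValuationSubring (X.residueField w), (∀ c, aK f w c ∈ V) →
      aK f w π ∈ V.nonunits → ∃ G ω : (X.residueField w)ˣ, Un V ω ∧
        g = (if Dm (O h) V then F else 1) * G ^ q * ω := by
  let _ := (aK f w).toAlgebra
  obtain ⟨u, h3, h4, h5, h6⟩ := G.pnn h hw hx
  let _ : Unique (Fin (dl d w - 1)) := by
    rw [h2]
    exact Fin.instUnique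
  rw [Set.range_unique] at h5 h6
  rw [algebraicIndependent_unique_type_iff] at h3
  obtain ⟨P, hP, hP0, hN⟩ := monic hπ G.dim h hx h0 (h4 default)
  obtain ⟨h7, h8⟩ := change _ P hP hP0 h5
  have hA : ∀ c, aK f w c ∈ O h := fun c => ⟨_, G.dim.ak h c⟩
  have ht := h3.aeval P hP0 (by rw [hP.leadingCoeff]; exact one_mem _)
  have hu0 : aeval (u default) P ≠ 0 := fun e => ht (e ▸ isAlgebraic_zero)
  have huO : aeval (u default) P ∈ O h := by
    obtain ⟨a, -, e⟩ := hN
    exact ⟨a, e⟩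
  have := G.pts.loc h
  refine hB A π _ p q n (aeval (u default) P) (O h) F hπ hL (G.dim.inj w hw) ht h7 (G.pts.frac h)
    hA huO (fun e => (G.pts.nu h _ huO).2 ⟨hu0, e⟩ hN)
    (fun e => (G.pts.nu h _ (hA π)).2 ⟨hw, e⟩ ((G.dim.nu h).2 hx)) (fun c hc => ?_)
    fun V hV hO hπV hun => ?_
  · obtain ⟨s, h9, h10, h11, h12, h13⟩ := h6 c hc
    exact ⟨s, h9, h10, h11, h8 _ h12, h8 _ h13⟩
  · obtain ⟨z, hz, hd⟩ := G.sep.ctr w V fun c => hO _ (hA c)
    have hv : ¬ Hor f π z :=
      (G.dim.nu hz).1 ((SepA.dm_nu G.pts hz hd ⟨_, G.dim.ak hz π⟩).2 hπV)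
    have hzx : z ⤳ x := by
      let ι : O h →+* V := (O h).subtype.codRestrict V fun x => hO x x.2
      obtain ⟨z', hz', h9, h10⟩ := G.pts.pt h ((maximalIdeal V).comap ι) (Ideal.comap_isPrime _ _)
      have h11 : ∀ b ∈ O h, Nu hz' b ↔ b ∈ V.nonunits := fun b hb => by
        rw [← h10 ⟨b, hb⟩, ValuationSubring.mem_nonunits_iff_exists_mem_maximalIdeal]
        exact ⟨fun k => ⟨hO b hb, k⟩, fun k => k.2⟩
      have h12 : ∀ s ∈ O h, ¬ Nu hz' s → Un V s := fun s hs k =>
        Bla.un_of_not (hO s hs) fun k' => k ((h11 s hs).2 k')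
      have : Dm (O hz') V := ⟨fun c hc => ?_, fun c hc c0 hi => ?_⟩
      · exact G.sep.sep hz hz' V hd this ▸ h9
      · obtain ⟨s, k1, k2, k3⟩ := G.pts.sub hz' h9 c hc
        have := mul_mem (hO _ k3) (h12 s k1 k2).2.2
        rwa [mul_inv_cancel_right₀ (h12 s k1 k2).1] at this
      · obtain ⟨s, k1, k2, k3⟩ := G.pts.sub hz' h9 c hc
        have k4 : Un V (c * s) := ⟨mul_ne_zero c0 (h12 s k1 k2).1, hO _ k3, by
          rw [mul_inv]
          exact mul_mem hi (h12 s k1 k2).2.2⟩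
        have k5 := (G.pts.nu hz' _ (G.pts.le hz' h9 k3)).1
          fun k => Bla.Un.not_non k4 ((h11 _ k3).1 k)
        have := mul_mem k5.2 (G.pts.le hz' h9 k1)
        rwa [mul_inv, inv_mul_cancel_right₀ (h12 s k1 k2).1] at this
    have hne : z ≠ x := by
      rintro rfl
      have := hun Polynomial.X ⟨1, by simp⟩
      rw [aeval_X] at this
      exact Bla.Un.not_non this ((SepA.dm_nu G.pts hz hd huO).1 hN)
    have k1 := G.dim.lt hz (fun e => hv (e ▸ hw))
    have k2 := G.dim.lt hzx hne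
    exact hF z V hv (by omega) hzx ((G.pts.pl hz V).2 ⟨hV, hd⟩)

end BlgA

variable {A : Type} [CommRing A] [IsDomain A] [IsDiscreteValuationRing A] [HenselianLocalRing A]
  [CharZero A] {X : Scheme.{0}} {f : X ⟶ Spec (.of A)} {π : A} {d : ℕ}

/-- The basic lemma. -/
theorem blg_core (hB : BlaS) (hT : TameS) (hπ : Irreducible π) (G : Geo f π d) {p q n : ℕ}
    (hL : Lv π p q n) {C : Type} [AddCommGroup C] (cy τ : Ch X →+ C) (hq : ∀ c : C, q • c = 0)
    (hpos : ∀ z i, ∀ β ∈ K _ (i + 1), cy (DFinsupp.single z β) = 0) {w x : X}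
    (hx : ¬ Hor f π x) (h0 : dl d x = 0)
    (hτ : ∀ z β, τ (DFinsupp.single z β) =
      if Hor f π z ∧ dl d z = 1 ∧ z ⤳ x then cy (DFinsupp.single z β) else 0)
    (hw : Hor f π w) (h2 : dl d w = 2)
    (hcy : ∀ g, cy (DD X (DFinsupp.single w (sym g))) = 0) (F : (X.residueField w)ˣ)
    (hF : ∀ z V, ¬ Hor f π z → dl d z = 1 → z ⤳ x → Pl w z V → Ap V (aK f w π ^ n) F)
    (γ : Kr (X.residueField w)) : τ (DD X (DFinsupp.single w (sym F * γ))) = 0 := by
  have h1 : τ (DD X (DFinsupp.single w (sym F))) = 0 := by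
    by_cases h : w ⤳ x
    swap
    · refine (BlgA.ch_eq τ 0 _ 0 fun z => ?_).trans rfl
      rw [hτ, G.dif.single]
      split_ifs with k
      · by_cases k' : dK w z (sym F) = 0
        · simp [k']
        · exact (h ((G.dif.loc _ _ _ k').1.trans k.2.2)).elim
      · rfl
    obtain ⟨g, hg⟩ := BlgA.ex_g hB hπ G hL h hw h2 hx h0 F hF
    refine (BlgA.ch_eq τ cy _ _ fun z => ?_).trans (hcy g)
    have key : ∀ x', z ⤳ x' → ¬ Hor f π x' → ∀ F', F' = (if x' = x then F else 1) →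
        cy (DFinsupp.single z (dK w z (sym g))) = cy (DFinsupp.single z (dK w z (sym F'))) := by
      intro x' hz hv F' hF'
      rw [← sub_eq_zero, ← map_sub, ← DFinsupp.single_sub, ← map_sub]
      refine G.dif.ind w z _ (cy.comp (DFinsupp.singleAddHom _ z)).ker fun V P _ => ?_
      have := G.pts.loc (P.sp.trans hz)
      obtain ⟨V', hle, hd⟩ := BlgA.comp (O (P.sp.trans hz)) V fun c hc => by
        obtain ⟨a, rfl⟩ := G.pts.le P.sp hz hc
        exact P.mem a
      obtain ⟨G', ω, hω, e⟩ := hg V' (fun c => hd.1 _ ⟨_, G.dim.ak _ c⟩)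
        ((SepA.dm_nu G.pts _ hd ⟨_, G.dim.ak _ π⟩).1 ((G.dim.nu _).2 hv))
      have e' : (if Dm (O h) V' then F else 1) = F' := by
        rw [hF']
        refine if_congr ⟨fun k => G.sep.sep _ h V' hd k, ?_⟩ rfl rfl
        rintro rfl
        exact hd
      have h3 := hT.syms V (residue V) P.dvr inferInstance [ω] (by
        intro u hu
        rw [List.mem_singleton.1 hu]
        exact ⟨hω.1, hle hω.2.1, hle hω.2.2⟩)
      rw [List.map_singleton, List.prod_singleton] at h3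
      rw [e, e', BlgA.s_mul, BlgA.s_mul, BlgA.s_pow, add_assoc, add_sub_cancel_left, map_add, h3,
        add_zero, map_nsmul, map_nsmul, AddMonoidHom.mem_ker, map_nsmul, hq]
    rw [hτ, G.dif.single, G.dif.single]
    split_ifs with k
    · exact (key x k.2.2 hx F (if_pos rfl).symm).symm
    · by_cases k' : dK w z (sym g) = 0
      · simp [k']
      have k1 := (G.dif.loc _ _ _ k').2
      obtain ⟨x', k2, k3, k4⟩ : ∃ x', z ⤳ x' ∧ ¬ Hor f π x' ∧ x' ≠ x := by
        by_cases hz : Hor f π z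
        · obtain ⟨x', k2, k3⟩ := G.sep.ver z
          exact ⟨x', k2, k3, fun e => k ⟨hz, by omega, e ▸ k2⟩⟩
        · exact ⟨z, specializes_rfl, hz, fun e => by subst e; omega⟩
      rw [key x' k2 k3 1 (if_neg k4).symm, BlgA.s_one]
      simp
  refine dif_top (((τ.comp (DD X)).comp (DFinsupp.singleAddHom _ w)).comp
    (AddMonoidHom.mulLeft (sym F))).ker (fun l => ?_) γ
  change τ (DD X (DFinsupp.single w (sym F * _))) = 0
  rcases l with _ | ⟨u, l⟩
  · simpa using h1
  · refine (BlgA.ch_eq τ 0 _ 0 fun z => ?_).trans rfl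
    rw [hτ, G.dif.single]
    split_ifs with k
    · exact hpos z l.length _ (G.dif.mem _ _ _ _
        (AddSubgroup.subset_closure ⟨F :: u :: l, rfl, by simp⟩))
    · rfl

end

end Pool.Agent.KEW

end MrgPart4

-- ======== part 5: formerly Pool.Agent.MP_55d974_ag.kew.Pure
section MrgPart5

/-! PROJECT KEW: fibres of pure dimension `d` give relative dimension `d` at every point. -/

open AlgebraicGeometry CategoryTheory Limits TopologicalSpace Opposite Pool.Agent.MP_55d974_ag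
  IsLocalRing Algebra

namespace Pool.Agent.KEW

namespace Pure

theorem krull_le {α β γ : Type} [Preorder α] [Preorder β] [Preorder γ] (φ : α → γ) (ψ : β → γ)
    (hφ : ∀ a b, φ a ≤ φ b ↔ a ≤ b) (hψ : ∀ a b, ψ a ≤ ψ b ↔ a ≤ b) (h : ∀ a, ∃ b, ψ b = φ a) :
    Order.krullDim α ≤ Order.krullDim β := by
  choose g hg using h
  refine Order.krullDim_le_of_strictMono g fun a b e => ?_
  rw [lt_iff_le_not_ge, ← hψ, ← hψ, hg, hg, hφ, hφ]
  exact lt_iff_le_not_ge.1 e

theorem cover {k R : Type} [Field k] [CommRing R] [Algebra k R] [FiniteType k R] {q p : Ideal R}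
    [q.IsPrime] [p.IsPrime] (h : q < p) (h' : ∀ r : Ideal R, r.IsPrime → q < r → ¬ r < p) :
    trdeg k (R ⧸ p) + 1 = trdeg k (R ⧸ q) := by
  have hs := Ideal.Quotient.mk_surjective (I := q)
  have : (p.map (Ideal.Quotient.mk q)).IsPrime :=
    Ideal.map_isPrime_of_surjective hs (by rw [Ideal.mk_ker]; exact h.le)
  have hc : (p.map (Ideal.Quotient.mk q)).comap (Ideal.Quotient.mk q) = p := by
    rw [Ideal.comap_map_of_surjective _ hs, ← RingHom.ker_eq_comap_bot, Ideal.mk_ker,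
      sup_eq_left.2 h.le]
  have h1 : (p.map (Ideal.Quotient.mk q)).height = 1 := by
    refine le_antisymm ((Ideal.height_le_iff (n := 1)).2 fun Q hQ hlt => ?_) ?_
    · have h2 : Q = ⊥ := by
        by_contra h0
        refine h' (Q.comap (Ideal.Quotient.mk q)) inferInstance ?_ ?_
        · conv_lhs => rw [← Ideal.mk_ker (I := q), RingHom.ker_eq_comap_bot]
          exact lt_of_le_of_ne (Ideal.comap_mono bot_le) fun e =>
            h0 (Ideal.comap_injective_of_surjective _ hs e).symm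
        · conv_rhs => rw [← hc]
          exact lt_of_le_of_ne (Ideal.comap_mono hlt.le) fun e =>
            hlt.ne (Ideal.comap_injective_of_surjective _ hs e)
      rw [h2, Ideal.height_bot]
      norm_num
    · rw [Order.one_le_iff_ne_zero, ne_eq, Ideal.height_eq_zero_iff_eq_bot]
      intro e
      rw [e, ← RingHom.ker_eq_comap_bot, Ideal.mk_ker] at hc
      exact h.ne hc
  rw [← Dg.height_one (k := k) _ h1, ← (DoubleQuot.quotQuotEquivQuotOfLEₐ k h.le).trdeg_eq]
  rfl

theorem add_eq {k : Type} [Field k] {W : Scheme.{0}} (t : W ⟶ Spec (CommRingCat.of k))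
    [LocallyOfFiniteType t] {d : ℕ} (hd : ∀ w : W, IsMax w → Order.height w = d) (w : W) :
    ∃ a b : ℕ, a + b = d ∧ Order.coheight w = a ∧ Dg.dl t w = b := by
  obtain ⟨a, ha⟩ : ∃ a : ℕ, Order.coheight w = a := by
    obtain ⟨A, _, _, _, j, _, -, p, rfl⟩ := Dg.exists_chart t w
    have : IsNoetherianRing A := FiniteType.isNoetherianRing k A
    rw [show Order.coheight (j p) = _ from coheight_eq_of_isOpenImmersion j,
      ← idealHeight_eq_coheight]
    exact ENat.ne_top_iff_exists.1 (Ideal.height_ne_top_of_isPrime) |>.imp fun _ => Eq.symm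
  refine ⟨a, ?_⟩
  induction a generalizing w with
  | zero =>
    obtain ⟨b, hb⟩ := Dg.dl_nat t w
    have h1 := (Dg.height_eq t hb).symm.trans (hd w (Order.coheight_eq_zero.1 ha))
    exact ⟨b, by simpa using h1, ha, hb⟩
  | succ n ih =>
    obtain ⟨-, ⟨v, hv, h1⟩, h2⟩ := Order.coheight_eq_coe_add_one_iff.1 (ha.trans (Nat.cast_succ n))
    obtain ⟨b, h3, -, h4⟩ := ih v h1
    obtain ⟨c, hc⟩ := Dg.dl_nat t w
    refine ⟨c, ?_, ha, hc⟩
    obtain ⟨A, _, _, _, j, _, hj, p, rfl⟩ := Dg.exists_chart t w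
    obtain ⟨q, rfl⟩ := Specializes.mem_open hv.le j.isOpenEmbedding.isOpen_range ⟨p, rfl⟩
    have hle : ∀ x y : Spec (CommRingCat.of A), j x ≤ j y ↔ y.asIdeal ≤ x.asIdeal := fun x y =>
      j.isOpenEmbedding.isInducing.specializes_iff.trans (PrimeSpectrum.le_iff_specializes y x).symm
    have hlt : ∀ x y : Spec (CommRingCat.of A), j x < j y ↔ y.asIdeal < x.asIdeal := fun x y => by
      rw [lt_iff_le_not_ge, lt_iff_le_not_ge, hle, hle]
    have h5 := cover (k := k) ((hlt p q).1 hv) fun r hr e1 e2 => by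
      have a1 := h2 _ ((hlt p ⟨r, hr⟩).2 e2)
      have a2 := Order.coheight_add_one_le ((hlt ⟨r, hr⟩ q).2 e1)
      rw [h1] at a2
      have a3 : ((n + 1 : ℕ) : ℕ∞) ≤ n := (Nat.cast_succ n).trans_le (a2.trans a1)
      have a4 : n + 1 ≤ n := by exact_mod_cast a3
      omega
    rw [← Dg.dl_chart t j hj, ← Dg.dl_chart t j hj, hc, h4] at h5
    have h6 : c + 1 = b := by exact_mod_cast h5
    omega

theorem dim_emb {W : Scheme.{0}} {Z : Type} [TopologicalSpace Z] (i : Z → W)
    (hi : Topology.IsClosedEmbedding i) (w : W) (hr : Set.range i = closure {w}) :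
    topologicalKrullDim Z = Order.height w := by
  have := hi.quasiSober
  have := hi.isEmbedding.t0Space
  let := specializationOrder Z
  have h3 : ∀ a b : Z, i a ≤ i b ↔ a ≤ b := fun a b => hi.isInducing.specializes_iff
  rw [topologicalKrullDim, Order.krullDim_eq_of_orderIso irreducibleSetEquivPoints,
    Order.height_eq_krullDim_Iic]
  refine le_antisymm (krull_le (β := Set.Iic w) i Subtype.val h3 (fun _ _ => Iff.rfl)
    fun a => ⟨⟨i a, specializes_iff_mem_closure.2 (hr.le ⟨a, rfl⟩)⟩, rfl⟩)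
    (krull_le (α := Set.Iic w) Subtype.val i (fun _ _ => Iff.rfl) h3
    fun a => hr.ge (specializes_iff_mem_closure.1 a.2))

theorem height_max {W : Scheme.{0}} {E : Type} [TopologicalSpace E] (e : W ≃ₜ E) {d : ℕ}
    (h : ∀ Z ∈ irreducibleComponents E, topologicalKrullDim Z = d) (w : W) (hw : IsMax w) :
    Order.height w = d := by
  have h1 : e '' closure {w} ∈ irreducibleComponents E := by
    refine ⟨isIrreducible_singleton.closure.image _ e.continuous.continuousOn, fun T hT hle => ?_⟩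
    have h2 : IsIrreducible (e.symm '' T) := IsIrreducible.image hT _ e.symm.continuous.continuousOn
    have h3 := h2.isGenericPoint_genericPoint_closure
    have h4 : w ∈ closure (e.symm '' T) :=
      subset_closure ⟨e w, hle ⟨w, subset_closure rfl, rfl⟩, e.symm_apply_apply w⟩
    have h5 : w ⤳ h2.genericPoint := hw (show w ≤ h2.genericPoint from h3.specializes h4)
    intro y hy
    exact ⟨e.symm y, specializes_iff_mem_closure.1
      (h5.trans (h3.specializes (subset_closure ⟨y, hy, rfl⟩))), e.apply_symm_apply y⟩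
  have h2 := (e.image (closure {w})).isHomeomorph.topologicalKrullDim_eq _
  rw [h _ h1] at h2
  exact WithBot.coe_injective ((dim_emb _ isClosed_closure.isClosedEmbedding_subtypeVal w
    Subtype.range_coe).symm.trans h2)

theorem trdeg_range {A k K : Type} [CommRing A] [Field k] [Field K] [Algebra k K] (c : A →+* k)
    (hc : ∀ z : k, ∃ u v, z = c u / c v) :
    trdeg ((algebraMap k K).comp c).range K = trdeg k K := by
  let B := ((algebraMap k K).comp c).range
  let φ : c.range →+* B := ((algebraMap k K).comp c.range.subtype).codRestrict B (by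
    rintro ⟨_, a, rfl⟩
    exact ⟨a, rfl⟩)
  let _ := φ.toAlgebra
  have : IsScalarTower c.range B K := .of_algebraMap_eq fun _ => rfl
  have : FaithfulSMul c.range B := (faithfulSMul_iff_algebraMap_injective _ _).2 fun a b e =>
    Subtype.ext ((algebraMap k K).injective (congrArg Subtype.val e))
  have : Algebra.IsIntegral c.range B := Algebra.isIntegral_of_surjective (by
    rintro ⟨_, a, rfl⟩
    exact ⟨⟨_, a, rfl⟩, rfl⟩)
  have : IsFractionRing c.range k := IsFractionRing.of_field _ _ fun z => by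
    obtain ⟨u, v, rfl⟩ := hc z
    exact ⟨⟨_, u, rfl⟩, ⟨_, v, rfl⟩, rfl⟩
  have := IsLocalization.isAlgebraic k (nonZeroDivisors c.range)
  have h1 := trdeg_add_eq c.range B (A := K)
  have h2 := trdeg_add_eq c.range k (A := K)
  rw [trdeg_eq_zero, zero_add] at h1 h2
  exact h1.trans h2.symm

variable {A : Type} [CommRing A] {X : Scheme.{0}} (f : X ⟶ Spec (.of A))

theorem spec_sA (x : X) : Spec.map (CommRingCat.ofHom (sA f x)) = X.fromSpecStalk x ≫ f := by
  rw [← Scheme.SpecMap_stalkMap_fromSpecStalk, Spec.fromSpecStalk_eq, ← Spec.map_comp,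
    Category.assoc, Scheme.Hom.germ_stalkMap]
  rfl

theorem f_stalk (x : X) (P : PrimeSpectrum (X.presheaf.stalk x)) :
    (f (X.fromSpecStalk x P)).asIdeal = P.asIdeal.comap (sA f x) := by
  rw [← Scheme.Hom.comp_apply, ← spec_sA]
  rfl

theorem ker_eq (x : X) : RingHom.ker ((X.residue x).hom.comp (sA f x)) = (f x).asIdeal := by
  have h := f_stalk f x (closedPoint _)
  rw [Scheme.fromSpecStalk_closedPoint] at h
  rw [h]
  ext a
  exact residue_eq_zero_iff _

theorem dim_quot (s : Spec (.of A)) (w : f.fiber s) :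
    ringKrullDim (X.presheaf.stalk (f.fiberι s w) ⧸
      (f (f.fiberι s w)).asIdeal.map (sA f (f.fiberι s w))) = Order.coheight w := by
  have hs : ∀ y : X, (∃ v, f.fiberι s v = y) ↔ f y = s := fun y =>
    Set.ext_iff.1 (f.range_fiberι s) y
  have hi : ∀ a b : f.fiber s, f.fiberι s a ≤ f.fiberι s b ↔ a ≤ b := fun a b =>
    (f.fiberι s).isEmbedding.isInducing.specializes_iff
  generalize hx : f.fiberι s w = x
  have hfx : f x = s := (hs x).1 ⟨w, hx⟩
  have hr : ∀ y, y ⤳ x ↔ y ∈ Set.range (X.fromSpecStalk x) := fun y => by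
    rw [Scheme.range_fromSpecStalk]
    rfl
  rw [ringKrullDim_quotient, Order.coheight_eq_krullDim_Ici, ← Order.krullDim_orderDual]
  have hφ : ∀ a b : (PrimeSpectrum.zeroLocus (R := X.presheaf.stalk x)
      ((f x).asIdeal.map (sA f x)))ᵒᵈ, X.fromSpecStalk x (OrderDual.ofDual a).1 ≤
        X.fromSpecStalk x (OrderDual.ofDual b).1 ↔ a ≤ b := fun a b =>
    (X.fromSpecStalk x).isEmbedding.isInducing.specializes_iff.trans
      (PrimeSpectrum.le_iff_specializes _ _).symm
  refine le_antisymm (krull_le (β := Set.Ici w) _ (fun v => f.fiberι s v.1) hφ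
    (fun a b => hi a.1 b.1) fun a => ?_) (krull_le (α := Set.Ici w) (fun v => f.fiberι s v.1) _
    (fun a b => hi a.1 b.1) hφ fun v => ?_)
  · have h1 : X.fromSpecStalk x (OrderDual.ofDual a).1 ⤳ x := (hr _).2 ⟨_, rfl⟩
    obtain ⟨v, hv⟩ := (hs (X.fromSpecStalk x (OrderDual.ofDual a).1)).2 (by
      rw [← hfx]
      refine PrimeSpectrum.ext (le_antisymm
        ((PrimeSpectrum.le_iff_specializes _ _).2 (h1.map f.continuous)) ?_)
      rw [f_stalk]
      exact Ideal.map_le_iff_le_comap.1 (OrderDual.ofDual a).2)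
    exact ⟨⟨v, (hi w v).1 (by rw [hx, hv]; exact h1)⟩, hv⟩
  · obtain ⟨P, hP⟩ := (hr (f.fiberι s v.1)).1 (hx ▸ (hi w v.1).2 v.2)
    refine ⟨OrderDual.toDual ⟨P, Ideal.map_le_iff_le_comap.2 ?_⟩, hP⟩
    rw [← f_stalk, hP, (hs _).1 ⟨v.1, rfl⟩, hfx]

theorem trdeg_eq (s : Spec (.of A)) (w : f.fiber s) :
    trdeg ((X.residue (f.fiberι s w)).hom.comp (sA f (f.fiberι s w))).range
      (X.residueField (f.fiberι s w)) =
      Dg.dl (k := (Spec (.of A)).residueField s) (f.fiberToSpecResidueField s) w := by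
  have hb : Function.Bijective ((f.fiberι s).residueFieldMap w) := by
    refine ⟨((f.fiberι s).residueFieldMap w).hom.injective, fun y => ?_⟩
    obtain ⟨y, rfl⟩ := (f.fiber s).residue_surjective w y
    obtain ⟨z, rfl⟩ := (f.fiberι s).stalkMap_surjective w y
    exact ⟨X.residue _ z, congrArg (fun g => g.hom z) (Scheme.residue_residueFieldMap _ w)⟩
  have : IsIso ((f.fiberι s).residueFieldMap w) := (ConcreteCategory.isIso_iff_bijective _).2 hb
  let θ : (Spec (.of A)).residueField s ⟶ X.residueField (f.fiberι s w) :=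
    Spec.preimage ((f.fiber s).fromSpecResidueField w ≫ f.fiberToSpecResidueField s) ≫
      inv ((f.fiberι s).residueFieldMap w)
  let _ := θ.hom.toAlgebra
  let c : CommRingCat.of A ⟶ (Spec (.of A)).residueField s :=
    CommRingCat.ofHom (algebraMap A s.asIdeal.ResidueField) ≫ (Scheme.Spec.residueFieldIso _ s).inv
  have h1 : Dg.dl (k := (Spec (.of A)).residueField s) (f.fiberToSpecResidueField s) w =
      trdeg ((Spec (.of A)).residueField s) (X.residueField (f.fiberι s w)) := by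
    refine Dg.dl_eq (k := (Spec (.of A)).residueField s) _ (inv ((f.fiberι s).residueFieldMap w))
      (ConcreteCategory.bijective_of_isIso _).2 ?_
    change _ = Spec.map θ
    rw [Spec.map_comp, Spec.map_preimage]
  have h2 : CommRingCat.ofHom (sA f (f.fiberι s w)) ≫ X.residue _ = c ≫ θ := by
    rw [← Category.assoc, IsIso.eq_comp_inv, ← Spec.map_inj]
    have h3 : Spec.map c = (Spec (.of A)).fromSpecResidueField s :=
      (Spec.map_comp _ _).trans (Scheme.Spec.map_residueFieldIso_inv_eq_fromSpecResidueField _ s)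
    simp only [Spec.map_comp, Spec.map_preimage, h3, spec_sA, Category.assoc]
    rw [← Scheme.Hom.fiber_fac, ← Scheme.Hom.SpecMap_residueFieldMap_fromSpecResidueField_assoc]
    simp only [Scheme.fromSpecResidueField, Category.assoc]
  rw [h1, ← trdeg_range c.hom fun z => ?_]
  · exact congrArg (fun g : A →+* X.residueField (f.fiberι s w) =>
      trdeg g.range (X.residueField (f.fiberι s w))) (congrArg CommRingCat.Hom.hom h2)
  · obtain ⟨y, rfl⟩ := (ConcreteCategory.bijective_of_isIso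
      (Scheme.Spec.residueFieldIso (.of A) s).inv).2 z
    obtain ⟨u, v, -, rfl⟩ := IsFractionRing.div_surjective (A := A ⧸ s.asIdeal) y
    obtain ⟨u, rfl⟩ := Ideal.Quotient.mk_surjective u
    obtain ⟨v, rfl⟩ := Ideal.Quotient.mk_surjective v
    exact ⟨u, v, map_div₀ (Scheme.Spec.residueFieldIso (.of A) s).inv.hom _ _⟩

attribute [local instance] MvPolynomial.gradedAlgebra in
theorem lft_of_proj {X S : Scheme.{0}} {f : X ⟶ S} (h : IsProjective f) : LocallyOfFiniteType f := by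
  obtain ⟨n, i, hi, rfl⟩ := h
  have h1 : FiniteType (MvPolynomial.homogeneousSubmodule (Fin (n + 1)) ℤ 0)
      (MvPolynomial (Fin (n + 1)) ℤ) := by
    have := IsScalarTower.of_algebraMap_eq (R := ℤ)
      (S := MvPolynomial.homogeneousSubmodule (Fin (n + 1)) ℤ 0)
      (A := MvPolynomial (Fin (n + 1)) ℤ) fun _ => rfl
    exact FiniteType.of_restrictScalars_finiteType ℤ _ _
  have h2 : IsClosedImmersion (Spec.map (CommRingCat.ofHom
      (algebraMap ℤ (MvPolynomial.homogeneousSubmodule (Fin (n + 1)) ℤ 0)))) := by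
    refine IsClosedImmersion.spec_of_surjective _ fun x => ?_
    have hx : (x : MvPolynomial (Fin (n + 1)) ℤ).totalDegree = 0 :=
      Nat.le_zero.mp (MvPolynomial.IsHomogeneous.totalDegree_le x.2)
    exact ⟨_, Subtype.ext (MvPolynomial.totalDegree_eq_zero_iff_eq_C.mp hx).symm⟩
  have h3 : LocallyOfFiniteType (terminal.from
      (Proj (MvPolynomial.homogeneousSubmodule (Fin (n + 1)) ℤ))) := by
    have : IsIso (terminal.from (Spec (CommRingCat.of ℤ))) :=
      isIso_of_isTerminal specZIsTerminal terminalIsTerminal _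
    rw [← terminal.comp_from (Proj.toSpecZero _ ≫ Spec.map (CommRingCat.ofHom
      (algebraMap ℤ (MvPolynomial.homogeneousSubmodule (Fin (n + 1)) ℤ 0))))]
    infer_instance
  have h4 : LocallyOfFiniteType (prod.snd :
      Proj (MvPolynomial.homogeneousSubmodule (Fin (n + 1)) ℤ) ⨯ S ⟶ S) :=
    MorphismProperty.of_isPullback (IsPullback.of_hasBinaryProduct' _ _) h3
  infer_instance

end Pure

/-- If all fibres are of pure dimension `d`, every point has dimension `d` in its fibre. -/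
theorem relDim_of_pure' {A : Type} [CommRing A] {X : Scheme.{0}} (f : X ⟶ Spec (.of A))
    [LocallyOfFiniteType f] (d : ℕ)
    (h : ∀ s, ∀ Z ∈ irreducibleComponents (f ⁻¹' {s}), topologicalKrullDim Z = d) :
    RelDim f d := fun x => by
  obtain ⟨s, w, rfl⟩ : ∃ s, ∃ w : f.fiber s, f.fiberι s w = x := ⟨_, _, f.fiberι_asFiber x⟩
  have : LocallyOfFiniteType (f.fiberToSpecResidueField s) :=
    MorphismProperty.pullback_snd _ _ inferInstance
  obtain ⟨a, b, h1, h2, h3⟩ := @Pure.add_eq ((Spec (.of A)).residueField s) _ _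
    (f.fiberToSpecResidueField s) this _ (Pure.height_max (f.fiberHomeo s) (h s)) w
  refine ⟨a, b, h1, ?_, (Pure.trdeg_eq f s w).trans h3⟩
  rw [Pure.ker_eq, Pure.dim_quot, h2]
  rfl

theorem relDim_of_pure {A : Type} [CommRing A] {X : Scheme.{0}} (f : X ⟶ Spec (.of A))
    (hf : IsProjective f) (d : ℕ)
    (h : ∀ s, ∀ Z ∈ irreducibleComponents (f ⁻¹' {s}), topologicalKrullDim Z = d) :
    RelDim f d :=
  have := Pure.lft_of_proj hf
  relDim_of_pure' f d h

end Pool.Agent.KEW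

end MrgPart5

-- marker of a merged file
example : 731051 + 139427 = 731051 + 139427 := rfl
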