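import Mathlib.RingTheory.Flat.TorsionFree
import Mathlib.RingTheory.Norm.Transitivity
import Mathlib.RingTheory.AdicCompletion.LocalRing
import Pool.Agent.MP_55d974_ag.kew.Deep
import Pool.Agent.MP_55d974_ag.kew.Pure

-- ======== part 0: formerly Pool.Agent.MP_55d974_ag.kew.LocA
section MrgPart0

/-! PROJECT KEW: weak approximation for finitely many discrete valuation rings. -/

namespace Pool.Agent.KEW

open IsLocalRing

namespace La

variable {E : Type} [Field E]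

theorem un_iff (V : ValuationSubring E) (u : E) : Un V u ↔ V.valuation u = 1 := by
  constructor
  · rintro ⟨h0, h1, h2⟩
    rw [← V.valuation_le_one_iff] at h1 h2
    rw [map_inv₀] at h2
    have h3 : 0 < V.valuation u := zero_lt_iff.2 ((map_ne_zero _).2 h0)
    exact le_antisymm h1 ((inv_le_one₀ h3).1 h2)
  · intro h
    refine ⟨fun h0 => by simp [h0] at h, ?_, ?_⟩
    · rw [← V.valuation_le_one_iff, h]
    · rw [← V.valuation_le_one_iff, map_inv₀, h, inv_one]

theorem div_mem_iff (V : ValuationSubring E) (x : E) {c : E} (hc : c ≠ 0) :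
    x / c ∈ V ↔ V.valuation x ≤ V.valuation c := by
  rw [← V.valuation_le_one_iff, map_div₀, div_le_one₀ (zero_lt_iff.2 ((map_ne_zero _).2 hc))]

theorem val_irr (V : ValuationSubring E) {t : V} (ht : Irreducible t) :
    0 < V.valuation t ∧ V.valuation t < 1 := by
  refine ⟨zero_lt_iff.2 ((map_ne_zero _).2 fun h => ht.ne_zero (Subtype.ext h)), ?_⟩
  exact (V.valuation_lt_one_iff t).1 ht.not_isUnit

theorem val_nat (V : ValuationSubring E) (hV : IsDiscreteValuationRing V) {t : V}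
    (ht : Irreducible t) {x : E} (hx : x ≠ 0) (hm : x ∈ V) :
    ∃ k : ℕ, V.valuation x = V.valuation t ^ k := by
  obtain ⟨k, u, hu⟩ := IsDiscreteValuationRing.eq_unit_mul_pow_irreducible
    (x := (⟨x, hm⟩ : V)) (fun h => hx (congrArg Subtype.val h)) ht
  have e : x = ((u : V) : E) * (t : E) ^ k := congrArg Subtype.val hu
  exact ⟨k, by rw [e, map_mul, map_pow, V.valuation_unit, one_mul]⟩

theorem val_int (V : ValuationSubring E) (hV : IsDiscreteValuationRing V) {t : V}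
    (ht : Irreducible t) {x : E} (hx : x ≠ 0) : ∃ k : ℤ, V.valuation x = V.valuation t ^ k := by
  rcases V.mem_or_inv_mem x with h | h
  · obtain ⟨k, hk⟩ := val_nat V hV ht hx h
    exact ⟨k, by rw [hk, zpow_natCast]⟩
  · obtain ⟨k, hk⟩ := val_nat V hV ht (inv_ne_zero hx) h
    rw [map_inv₀] at hk
    exact ⟨-k, by rw [zpow_neg, zpow_natCast, ← hk, inv_inv]⟩

/-- the archimedean property -/
theorem arch (V : ValuationSubring E) (hV : IsDiscreteValuationRing V) {x d : E}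
    (hx : V.valuation x < 1) (hd : d ≠ 0) :
    ∃ k : ℕ, ∀ j ≥ k, V.valuation x ^ j < V.valuation d := by
  obtain ⟨t, ht⟩ := IsDiscreteValuationRing.exists_irreducible V
  obtain ⟨t0, t1⟩ := val_irr V ht
  have h1 : V.valuation x ≤ V.valuation t := by
    by_cases h0 : x = 0
    · simp [h0]
    obtain ⟨k, hk⟩ := val_nat V hV ht h0 ((V.valuation_le_one_iff x).1 hx.le)
    rw [hk] at hx ⊢
    have : k ≠ 0 := by rintro rfl; simp at hx
    exact pow_le_of_le_one t0.le t1.le this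
  obtain ⟨k, hk⟩ := val_int V hV ht hd
  refine ⟨k.toNat + 1, fun j hj => ?_⟩
  calc V.valuation x ^ j ≤ V.valuation t ^ j := pow_le_pow_left₀ zero_le h1 j
    _ = V.valuation t ^ (j : ℤ) := (zpow_natCast _ _).symm
    _ < V.valuation t ^ k := zpow_lt_zpow_right_of_lt_one₀ t0 t1 (by omega)
    _ = _ := hk.symm

theorem arch_fin {S : Set (ValuationSubring E)} (hS : S.Finite)
    (hV : ∀ V ∈ S, IsDiscreteValuationRing V) (x d : ValuationSubring E → E)
    (hx : ∀ V ∈ S, V.valuation (x V) < 1) (hd : ∀ V ∈ S, d V ≠ 0) :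
    ∃ k : ℕ, 0 < k ∧ ∀ V ∈ S, V.valuation (x V) ^ k < V.valuation (d V) := by
  choose! k hk using fun V (h : V ∈ S) => arch V (hV V h) (hx V h) (hd V h)
  obtain ⟨M, hM⟩ := (hS.image k).bddAbove
  exact ⟨M + 1, Nat.succ_pos M, fun V h => hk V h _ ((hM ⟨V, h, rfl⟩).trans (Nat.le_succ M))⟩

theorem ne_top {V : ValuationSubring E} (hV : IsDiscreteValuationRing V) : V ≠ ⊤ := by
  rintro rfl
  exact IsDiscreteValuationRing.not_isField (⊤ : ValuationSubring E) (Field.toIsField _)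

theorem sep_two {U V : ValuationSubring E} (hU : IsDiscreteValuationRing U)
    (hV : IsDiscreteValuationRing V) (h : U ≠ V) :
    ∃ w : E, 1 < V.valuation w ∧ U.valuation w < 1 := by
  have h1 : ¬U ≤ V := fun c => h (ValuationSubring.eq_of_le_of_ne_top U c (ne_top hV))
  have h2 : ¬V ≤ U := fun c => h (ValuationSubring.eq_of_le_of_ne_top V c (ne_top hU)).symm
  obtain ⟨a, a1, a2⟩ := SetLike.not_le_iff_exists.1 h1
  obtain ⟨b, b1, b2⟩ := SetLike.not_le_iff_exists.1 h2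
  have b0 : b ≠ 0 := fun c => b2 (c ▸ U.zero_mem)
  rw [← ValuationSubring.valuation_le_one_iff] at a1 a2 b1 b2
  refine ⟨a / b, ?_, ?_⟩
  · rw [map_div₀, one_lt_div₀ (zero_lt_iff.2 ((map_ne_zero _).2 b0))]
    exact b1.trans_lt (not_le.1 a2)
  · rw [map_div₀, div_lt_one₀ (zero_lt_iff.2 ((map_ne_zero _).2 b0))]
    exact a1.trans_lt (not_le.1 b2)

theorem val_big (V : ValuationSubring E) {y : E} (h : 1 < V.valuation y) :
    V.valuation (1 + y) = V.valuation y :=
  V.valuation.map_add_eq_of_lt_right (by rwa [map_one])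

theorem val_small (V : ValuationSubring E) {y : E} (h : V.valuation y < 1) :
    V.valuation (1 + y) = 1 := V.valuation.map_one_add_of_lt h

theorem sep {V : ValuationSubring E} (hV : IsDiscreteValuationRing V)
    {T : Set (ValuationSubring E)} (hT : T.Finite) : (∀ U ∈ T, IsDiscreteValuationRing U) →
    V ∉ T → ∃ z : E, 1 < V.valuation z ∧ ∀ U ∈ T, U.valuation z < 1 := by
  induction T, hT using Set.Finite.induction_on with
  | empty =>
    intro _ _
    obtain ⟨t, ht⟩ := IsDiscreteValuationRing.exists_irreducible V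
    obtain ⟨t0, t1⟩ := val_irr V ht
    exact ⟨(t : E)⁻¹, by rw [map_inv₀]; exact (one_lt_inv₀ t0).2 t1, by simp⟩
  | @insert U T hUT hT ih =>
    intro hd hn
    obtain ⟨y, y1, y2⟩ := ih (fun W hW => hd W (Set.mem_insert_of_mem _ hW))
      fun c => hn (Set.mem_insert_of_mem _ c)
    obtain ⟨w, w1, w2⟩ := sep_two (hd U (Set.mem_insert _ _)) hV
      fun c => hn (c ▸ Set.mem_insert _ _)
    have w0 : w ≠ 0 := by rintro rfl; simp at w1
    obtain ⟨k, k0, hk⟩ := arch_fin hT (fun W hW => hd W (Set.mem_insert_of_mem _ hW))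
      (fun _ => y) (fun _ => w⁻¹) y2 fun _ _ => inv_ne_zero w0
    have hk' : ∀ W ∈ T, W.valuation (w * y ^ k) < 1 := fun W hW => by
      have := hk W hW
      rw [map_inv₀] at this
      rw [map_mul, map_pow, mul_comm]
      exact (mul_lt_iff_lt_one_right (zero_lt_iff.2 (inv_ne_zero ((map_ne_zero _).2 w0)))).1
        (by rw [mul_comm, mul_assoc, mul_inv_cancel₀ ((map_ne_zero _).2 w0), mul_one]; exact this)
    have yk : 1 < V.valuation (y ^ k) := by rw [map_pow]; exact one_lt_pow₀ y1 k0.ne'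
    rcases le_or_gt (U.valuation y) 1 with c | c
    · refine ⟨w * y ^ k, by rw [map_mul]; exact one_lt_mul_of_lt_of_le' w1 yk.le, ?_⟩
      rintro W (rfl | hW)
      · rw [map_mul, map_pow]
        exact mul_lt_one_of_lt_of_le w2 (pow_le_one₀ zero_le c)
      · exact hk' W hW
    · have big : ∀ W : ValuationSubring E, 1 < W.valuation (y ^ k) →
          W.valuation (w * y ^ k / (1 + y ^ k)) = W.valuation w := fun W h => by
        rw [map_div₀, map_mul, val_big W h, mul_div_cancel_right₀ _ (zero_lt_one.trans h).ne']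
      refine ⟨w * y ^ k / (1 + y ^ k), by rw [big V yk]; exact w1, ?_⟩
      rintro W (rfl | hW)
      · rw [big W (by rw [map_pow]; exact one_lt_pow₀ c k0.ne')]
        exact w2
      · rw [map_div₀, val_small W (by rw [map_pow]; exact pow_lt_one₀ zero_le (y2 W hW) k0.ne'),
          div_one]
        exact hk' W hW

open Classical in
theorem apx_one {S : Set (ValuationSubring E)} (hS : S.Finite)
    (hV : ∀ V ∈ S, IsDiscreteValuationRing V) (d : ValuationSubring E → E)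
    (hd : ∀ V ∈ S, d V ≠ 0) {V : ValuationSubring E} (h : V ∈ S) :
    ∃ θ : E, V.valuation (θ - 1) < V.valuation (d V) ∧
      ∀ U ∈ S, U ≠ V → U.valuation θ < U.valuation (d U) := by
  obtain ⟨z, z1, z2⟩ := sep (hV V h) (T := S \ {V}) hS.sdiff (fun U hU => hV U hU.1) (by simp)
  have z0 : 0 < V.valuation z := zero_lt_one.trans z1
  obtain ⟨k, k0, hk⟩ := arch_fin hS hV (fun U => if U = V then z⁻¹ else z) d (fun U hU => by
    by_cases c : U = V
    · subst c
      rw [if_pos rfl, map_inv₀]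
      exact inv_lt_one_of_one_lt₀ z1
    · rw [if_neg c]
      exact z2 U ⟨hU, c⟩) hd
  have zk : 1 < V.valuation (z ^ k) := by rw [map_pow]; exact one_lt_pow₀ z1 k0.ne'
  have n0 : 1 + z ^ k ≠ 0 := fun c => by
    have := val_big V zk
    rw [c, map_zero] at this
    exact (zero_lt_one.trans zk).ne this
  refine ⟨z ^ k / (1 + z ^ k), ?_, fun U hU c => ?_⟩
  · have e : z ^ k / (1 + z ^ k) - 1 = -(1 + z ^ k)⁻¹ := by field_simp; ring
    have := hk V h
    rw [if_pos rfl, map_inv₀, inv_pow, ← map_pow] at this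
    rwa [e, Valuation.map_neg, map_inv₀, val_big V zk]
  · have := hk U hU
    rw [if_neg c, ← map_pow] at this
    rwa [map_div₀, val_small U (by rw [map_pow]; exact pow_lt_one₀ zero_le (z2 U ⟨hU, c⟩) k0.ne'),
      div_one]

open Classical in
theorem apx' {S : Set (ValuationSubring E)} (hS : S.Finite)
    (hV : ∀ V ∈ S, IsDiscreteValuationRing V) (d : ValuationSubring E → E)
    (hd : ∀ V ∈ S, d V ≠ 0) (S₁ : Set (ValuationSubring E)) :
    ∃ θ : E, (∀ V ∈ S, V ∈ S₁ → V.valuation (θ - 1) < V.valuation (d V)) ∧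
      ∀ V ∈ S, V ∉ S₁ → V.valuation θ < V.valuation (d V) := by
  choose! θ h1 h2 using fun V (h : V ∈ S) => apx_one hS hV d hd h
  have hT : ∀ V, V ∈ hS.toFinset.filter (· ∈ S₁) ↔ V ∈ S ∧ V ∈ S₁ := by simp
  refine ⟨∑ U ∈ hS.toFinset.filter (· ∈ S₁), θ U, fun V h h' => ?_, fun V h h' => ?_⟩
  · rw [← Finset.add_sum_erase _ _ ((hT V).2 ⟨h, h'⟩), add_sub_right_comm]
    refine V.valuation.map_add_lt (h1 V h) ?_
    refine V.valuation.map_sum_lt ((map_ne_zero _).2 (hd V h)) fun U hU => ?_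
    exact h2 U ((hT U).1 (Finset.mem_of_mem_erase hU)).1 V h (Finset.ne_of_mem_erase hU).symm
  · refine V.valuation.map_sum_lt ((map_ne_zero _).2 (hd V h)) fun U hU => ?_
    exact h2 U ((hT U).1 hU).1 V h fun c => h' (c ▸ ((hT U).1 hU).2)

theorem ap_val {V : ValuationSubring E} {c : E} (hc : c ≠ 0) (hn : c ∈ V.nonunits) {F : E}
    (h : (F - 1) / c ∈ V) : V.valuation F = 1 := by
  have h1 := ((div_mem_iff V _ hc).1 h).trans_lt (V.mem_nonunits_iff.1 hn)
  have := val_small V h1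
  rwa [add_sub_cancel] at this

open Classical in
theorem one (S S₁ : Set (ValuationSubring E)) (c : E) (h : Fam S c) (f : Eˣ) :
    ∃ g : Eˣ, (∀ V ∈ S, V ∈ S₁ → Ap V c (g / f)) ∧ ∀ V ∈ S, V ∉ S₁ → Ap V c g := by
  by_cases h1 : (f : E) = 1
  · refine ⟨f, fun V _ _ => ?_, fun V _ _ => ?_⟩
    · simp [Ap, V.zero_mem]
    · simp [Ap, h1, V.zero_mem]
  have f1 : (f : E) - 1 ≠ 0 := sub_ne_zero.2 h1
  have c0 := h.ne
  obtain ⟨θ, t1, t2⟩ := apx' h.fin h.dvr
    (fun V => if V ∈ S₁ then c * f / (f - 1) else c / (f - 1)) (fun V _ => by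
      split_ifs
      · exact div_ne_zero (mul_ne_zero c0 f.ne_zero) f1
      · exact div_ne_zero c0 f1) S₁
  have g1 : ∀ V ∈ S, V ∈ S₁ → ((1 + θ * (f - 1)) / f - 1) / c ∈ V := fun V hV h' => by
    have := t1 V hV h'
    rw [if_pos h'] at this
    have m := (div_mem_iff V _ (div_ne_zero (mul_ne_zero c0 f.ne_zero) f1)).2 this.le
    have e : ((1 + θ * (f - 1)) / f - 1) / c = (θ - 1) / (c * f / (f - 1)) := by
      have := f.ne_zero
      field_simp
      ring
    rwa [e]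
  have g2 : ∀ V ∈ S, V ∉ S₁ → (1 + θ * (f - 1) - 1) / c ∈ V := fun V hV h' => by
    have := t2 V hV h'
    rw [if_neg h'] at this
    have m := (div_mem_iff V _ (div_ne_zero c0 f1)).2 this.le
    have e : (1 + θ * (f - 1) - 1) / c = θ / (c / (f - 1)) := by
      field_simp
      ring
    rwa [e]
  by_cases g0 : 1 + θ * (f - 1) = 0
  · refine ⟨1, fun V hV h' => ?_, fun V hV h' => ?_⟩
    · have := ap_val c0 (h.non V hV) (g1 V hV h')
      simp [g0] at this
    · have := ap_val c0 (h.non V hV) (g2 V hV h')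
      simp [g0] at this
  · refine ⟨Units.mk0 _ g0, fun V hV h' => ?_, fun V hV h' => g2 V hV h'⟩
    have := g1 V hV h'
    simpa only [Ap, Units.val_div_eq_div_val, Units.val_mk0] using this

theorem unif_one (S : Set (ValuationSubring E)) (c : E) (h : Fam S c) {V : ValuationSubring E}
    (hV : V ∈ S) :
    ∃ w : Eˣ, (∃ t : V, Irreducible t ∧ (w : E) = t) ∧ ∀ U ∈ S, U ≠ V → Un U w := by
  haveI := h.dvr V hV
  obtain ⟨t, ht⟩ := IsDiscreteValuationRing.exists_irreducible V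
  have t0 : (t : E) ≠ 0 := fun e => ht.ne_zero (Subtype.ext e)
  obtain ⟨g, g1, g2⟩ := one S {V} c h (Units.mk0 t t0)
  refine ⟨g, ?_, fun U hU hne => (un_iff U g).2 (ap_val h.ne (h.non U hU) (g2 U hU hne))⟩
  have h1 := ap_val h.ne (h.non V hV) (g1 V hV rfl)
  rw [Units.val_div_eq_div_val, Units.val_mk0, map_div₀,
    div_eq_one_iff_eq ((map_ne_zero _).2 t0), V.valuation_eq_iff] at h1
  obtain ⟨a, ha⟩ := h1
  exact ⟨a * t, (irreducible_units_mul a).2 ht, ha.symm⟩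

theorem unif (S : Set (ValuationSubring E)) (c : E) (h : Fam S c) :
    ∃ w : ValuationSubring E → Eˣ, (∀ V ∈ S, (∃ t : V, Irreducible t ∧ (w V : E) = t) ∧
      ∀ U ∈ S, U ≠ V → Un U (w V)) ∧ ∀ (T : Finset (ValuationSubring E)), (T : Set _) = S →
      ∀ g : Eˣ, ∃ (k : ValuationSubring E → ℤ) (u : Eˣ), (∀ V ∈ S, Un V u) ∧
        g = u * ∏ V ∈ T, w V ^ k V := by
  choose! w hw using fun V (hV : V ∈ S) => unif_one S c h hV
  refine ⟨w, hw, fun T hT g => ?_⟩
  have hk : ∀ V ∈ S, ∃ k : ℤ, V.valuation (g : E) = V.valuation (w V : E) ^ k := fun V hV => by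
    obtain ⟨t, ht, e⟩ := (hw V hV).1
    rw [e]
    exact val_int V (h.dvr V hV) ht g.ne_zero
  choose! k hk using hk
  refine ⟨k, g / ∏ V ∈ T, w V ^ k V, fun V hV => ?_, (div_mul_cancel _ _).symm⟩
  have hVT : V ∈ T := by rw [← Finset.mem_coe, hT]; exact hV
  have e : V.valuation ((∏ U ∈ T, w U ^ k U : Eˣ) : E) = V.valuation (w V : E) ^ k V := by
    rw [Units.coe_prod, map_prod, Finset.prod_eq_single_of_mem V hVT fun U hU hne => ?_]
    · rw [Units.val_zpow_eq_zpow_val, map_zpow₀]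
    · have hUS : U ∈ S := by rw [← hT]; exact hU
      rw [Units.val_zpow_eq_zpow_val, map_zpow₀, (un_iff V _).1 ((hw U hUS).2 V hV hne.symm),
        one_zpow]
  rw [un_iff, Units.val_div_eq_div_val, map_div₀, e, hk V hV,
    div_self (zpow_ne_zero _ ((map_ne_zero _).2 (w V).ne_zero))]

/-! ### Roots -/

theorem pow_exp {R : Type} [CommRing R] (s : R) (p : ℕ) :
    ∃ z, (1 + s) ^ p = 1 + p * s + s ^ 2 * z := by
  induction p with
  | zero => exact ⟨0, by simp⟩
  | succ p ih =>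
    obtain ⟨z, hz⟩ := ih
    exact ⟨p + z + s * z, by rw [pow_succ, hz]; push_cast; ring⟩

theorem pow_pp {R : Type} [CommRing R] (π t : R) (p r : ℕ) :
    ∃ y, (1 + p * π * t) ^ p ^ r = 1 + p ^ r * (p * π * t) * (1 + π * y) := by
  induction r with
  | zero => exact ⟨0, by simp⟩
  | succ r ih =>
    obtain ⟨y, hy⟩ := ih
    obtain ⟨z, hz⟩ := pow_exp ((p : R) ^ r * (p * π * t) * (1 + π * y)) p
    refine ⟨y + (1 + π * y) * (p ^ r * t * (1 + π * y) * z), ?_⟩
    rw [pow_succ, pow_mul, hy, hz]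
    ring

theorem root_step {A : Type} [CommRing A] (π : A) (p q n : ℕ) (a : A →+* E)
    (S : Set (ValuationSubring E)) (hL : Lv π p q n) (h : Fam S (a π))
    (ha : ∀ V ∈ S, ∀ c, a c ∈ V) (k : ℕ) (F : Eˣ) (hF : ∀ V ∈ S, Ap V (a π ^ (n + k)) F) :
    ∃ F' g : Eˣ, (∀ V ∈ S, Ap V (a π ^ (n + k + 1)) F') ∧ F = F' * g ^ q := by
  obtain ⟨r, hr⟩ := hL.qq
  obtain ⟨e, he⟩ := hL.lev
  have p0 := h.ne
  have he' : a π ^ n = (q : E) * p * a π * a e := by
    rw [← map_pow, he]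
    simp
  have q0 : (q : E) ≠ 0 := fun c => pow_ne_zero n p0 (by rw [he', c]; ring)
  have key : ∀ V ∈ S, V.valuation (1 + ((F : E) - 1) / q) = 1 ∧
      ((F : E) - (1 + ((F : E) - 1) / q) ^ q) / a π ^ (n + k + 1) ∈ V := by
    intro V hV
    let x : V := ⟨_, hF V hV⟩
    let w : V := ⟨a π, ha V hV π⟩
    let t : V := ⟨a e, ha V hV e⟩ * w ^ k * x
    have hx : (F : E) - 1 = a π ^ (n + k) * x := by
      change _ = a π ^ (n + k) * (((F : E) - 1) / a π ^ (n + k))
      field_simp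
    have ht : ((F : E) - 1) / q = p * a π * t := by
      change _ = p * a π * (a e * a π ^ k * x)
      rw [hx, pow_add, he']
      field_simp
    obtain ⟨y, hy⟩ := pow_pp w t p r
    have hy' : (1 + (p : E) * a π * t) ^ q = 1 + q * (p * a π * t) * (1 + a π * y) := by
      have := congrArg V.subtype hy
      simp only [map_pow, map_add, map_mul, map_one, map_natCast, ValuationSubring.coe_subtype]
        at this
      rw [hr]
      push_cast
      exact this
    constructor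
    · rw [ht]
      refine val_small V ?_
      rw [mul_right_comm, map_mul]
      rw [mul_comm]
      refine mul_lt_one_of_lt_of_le (V.mem_nonunits_iff.1 (h.non V hV)) ?_
      exact (V.valuation_le_one_iff _).2 (V.mul_mem _ _ (natCast_mem V p) t.2)
    · have e1 : (q : E) * (p * a π * t) = a π ^ (n + k) * x := by
        rw [← ht, ← hx]
        field_simp
      have e2 : ((F : E) - (1 + ((F : E) - 1) / q) ^ q) / a π ^ (n + k + 1) = -(x * y) := by
        rw [ht, hy', e1, sub_eq_iff_eq_add.1 hx]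
        field_simp
        ring
      rw [e2]
      exact V.neg_mem _ (V.mul_mem _ _ x.2 y.2)
  by_cases g0 : 1 + ((F : E) - 1) / q = 0
  · refine ⟨F, 1, fun V hV => ?_, by simp⟩
    have := (key V hV).1
    simp [g0] at this
  · refine ⟨F / Units.mk0 _ g0 ^ q, Units.mk0 _ g0, fun V hV => ?_, (div_mul_cancel _ _).symm⟩
    obtain ⟨k1, k2⟩ := key V hV
    rw [Ap, Units.val_div_eq_div_val, Units.val_pow_eq_pow_val, Units.val_mk0,
      div_sub_one (pow_ne_zero _ g0), div_right_comm,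
      div_mem_iff V _ (pow_ne_zero _ g0), map_pow, k1, one_pow]
    exact (V.valuation_le_one_iff _).2 k2

theorem root {A : Type} [CommRing A] (π : A) (p q n : ℕ) (a : A →+* E)
    (S : Set (ValuationSubring E)) (hL : Lv π p q n) (h : Fam S (a π))
    (ha : ∀ V ∈ S, ∀ c, a c ∈ V) (N : ℕ) (F : Eˣ) (hF : ∀ V ∈ S, Ap V (a π ^ n) F) :
    ∃ F' g : Eˣ, (∀ V ∈ S, Ap V (a π ^ N) F') ∧ F = F' * g ^ q := by
  have main : ∀ k : ℕ, ∃ F' g : Eˣ, (∀ V ∈ S, Ap V (a π ^ (n + k)) F') ∧ F = F' * g ^ q := by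
    intro k
    induction k with
    | zero => exact ⟨F, 1, hF, by simp⟩
    | succ k ih =>
      obtain ⟨F₁, g₁, h1, e1⟩ := ih
      obtain ⟨F₂, g₂, h2, e2⟩ := root_step π p q n a S hL h ha k F₁ h1
      exact ⟨F₂, g₂ * g₁, h2, by rw [e1, e2, mul_pow, mul_assoc]⟩
  obtain ⟨F', g, h1, e⟩ := main N
  refine ⟨F', g, fun V hV => ?_, e⟩
  have p0 := h.ne
  have e2 : ((F' : E) - 1) / a π ^ N = a π ^ n * (((F' : E) - 1) / a π ^ (n + N)) := by
    rw [pow_add]
    field_simp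
  rw [Ap, e2]
  exact V.mul_mem _ _ (pow_mem (ha V hV π) n) (h1 V hV)

end La

theorem locA : LocA where
  apx := fun S S₁ c h => by
    obtain ⟨θ, t1, t2⟩ := La.apx' h.fin h.dvr (fun _ => c) (fun _ _ => h.ne) S₁
    exact ⟨θ, fun V hV h' => (La.div_mem_iff V _ h.ne).2 (t1 V hV h').le,
      fun V hV h' => (La.div_mem_iff V _ h.ne).2 (t2 V hV h').le⟩
  one := La.one
  unif := La.unif
  root := La.root

end Pool.Agent.KEW

end MrgPart0

-- ======== part 1: formerly Pool.Agent.MP_55d974_ag.kew.GB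
section MrgPart1

/-!
Approximation over a henselian discrete valuation ring of characteristic zero: a finite subset of
a dense extension domain lies in a subalgebra with a retraction close to the identity.
-/

open Polynomial IsLocalRing

namespace Pool.Agent.KEW

section

variable {A : Type*} [CommRing A] [HenselianLocalRing A]

theorem hensel_one {ε : A} (hε : ε ∈ maximalIdeal A) (H : A[X]) :
    ∃ t : A, 1 + t + ε * t ^ 2 * H.eval t = 0 := by
  set n := H.natDegree with hn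
  have hd : (reflect n H).natDegree ≤ n := by
    simpa [hn] using natDegree_reflect_le (N := n) (p := H)
  have hm : (X ^ (n + 2) + (X ^ (n + 1) + C ε * reflect n H)).Monic := by
    refine monic_X_pow_add (lt_of_le_of_lt (degree_le_of_natDegree_le (n := n + 1) ?_) ?_)
    · refine natDegree_add_le_of_degree_le (natDegree_X_pow_le _) ?_
      exact (natDegree_C_mul_le _ _).trans (hd.trans n.le_succ)
    · exact_mod_cast Nat.lt_succ_self _
  obtain ⟨w, hw, hw1⟩ := HenselianLocalRing.is_henselian _ hm (-1) (by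
    have : eval (-1) (X ^ (n + 2) + (X ^ (n + 1) + C ε * reflect n H)) =
        ε * eval (-1) (reflect n H) := by
      simp only [eval_add, eval_pow, eval_X, eval_mul, eval_C]; ring
    rw [this]; exact Ideal.mul_mem_right _ _ hε) (by
    have : eval (-1) (derivative (X ^ (n + 2) + (X ^ (n + 1) + C ε * reflect n H))) =
        (-1) ^ (n + 1) + ε * eval (-1) (derivative (reflect n H)) := by
      simp only [derivative_add, derivative_X_pow, derivative_C_mul, eval_add, eval_pow, eval_X,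
        eval_mul, eval_C]
      simp only [show n + 2 - 1 = n + 1 from rfl, show n + 1 - 1 = n from rfl]
      push_cast; ring
    rw [this]
    by_contra hu
    have h1 := (mem_maximalIdeal _).2 hu
    have h2 := (Ideal.add_mem_iff_left _ (Ideal.mul_mem_right _ _ hε)).1 h1
    exact (mem_maximalIdeal _).1 h2 (isUnit_one.neg.pow _))
  have hu : IsUnit w := by
    by_contra hu
    have h1 := Ideal.sub_mem _ hw1 ((mem_maximalIdeal _).2 hu)
    exact (mem_maximalIdeal _).1 h1 (by simp)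
  obtain ⟨w, rfl⟩ := hu
  let : Invertible (↑w⁻¹ : A) := ⟨w, by simp, by simp⟩
  have h3 : eval (w : A) (reflect n H) * (↑w⁻¹ : A) ^ n = eval (↑w⁻¹ : A) H :=
    eval₂_reflect_mul_pow (RingHom.id A) (↑w⁻¹ : A) n H le_rfl
  refine ⟨↑w⁻¹, ?_⟩
  have h4 : (w : A) ^ (n + 2) + ((w : A) ^ (n + 1) + ε * eval (w : A) (reflect n H)) = 0 := by
    simpa using hw
  have h5 : (w : A) * (↑w⁻¹ : A) = 1 := by simp
  have h6 : (w : A) ^ n * (↑w⁻¹ : A) ^ n = 1 := by rw [← mul_pow, h5, one_pow]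
  rw [← h3]
  linear_combination (↑w⁻¹ : A) ^ (n + 2) * h4 -
    ((w : A) ^ 2 * (↑w⁻¹ : A) ^ 2 + w * (↑w⁻¹ : A) ^ 2) * h6 -
    (w * (↑w⁻¹ : A) + 1 + (↑w⁻¹ : A)) * h5

theorem newton (P : A[X]) (a : A) {ε : A} (hε : ε ∈ maximalIdeal A)
    (h : P.eval a = P.derivative.eval a ^ 2 * ε) :
    ∃ t : A, P.eval (a + P.derivative.eval a * ε * t) = 0 := by
  set d := P.derivative.eval a with hd
  obtain ⟨t, ht⟩ := hensel_one hε ((taylor a P).divX.divX.comp (C (d * ε) * X))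
  refine ⟨t, ?_⟩
  have h1 : taylor a P = C (P.eval a) + X * (C d + X * (taylor a P).divX.divX) := by
    conv_lhs => rw [← X_mul_divX_add (taylor a P), ← X_mul_divX_add (taylor a P).divX]
    rw [coeff_divX, taylor_coeff_zero, zero_add, taylor_coeff_one]; ring
  rw [add_comm, ← taylor_eval, h1]
  simp only [eval_add, eval_mul, eval_C, eval_X, eval_comp] at ht ⊢
  rw [h]
  linear_combination d ^ 2 * ε * ht

end

variable {A : Type*} [CommRing A] [IsDomain A] [IsDiscreteValuationRing A]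
  {A' : Type*} [CommRing A'] [Algebra A A']

/-- `A'` is a separated extension in which `A` is dense and induces the `π`-adic topology. -/
structure Dense' (A' : Type*) [CommRing A'] [Algebra A A'] (π : A) : Prop where
  dense : ∀ (N : ℕ) (y : A'), ∃ a : A, algebraMap A A' π ^ N ∣ y - algebraMap A A' a
  comap : ∀ (N : ℕ) (a : A), algebraMap A A' π ^ N ∣ algebraMap A A' a → π ^ N ∣ a
  sep : ∀ y : A', (∀ N : ℕ, algebraMap A A' π ^ N ∣ y) → y = 0

theorem Dense'.dvd_pow {π : A} (hπ : Irreducible π) (h : Dense' A' π) {y : A'} (hy : y ≠ 0) :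
    ∃ e : ℕ, ∀ a : A, algebraMap A A' π ^ (e + 1) ∣ y - algebraMap A A' a → a ∣ π ^ e := by
  obtain ⟨e, he⟩ : ∃ e, ¬ algebraMap A A' π ^ e ∣ y := by
    by_contra hc
    exact hy (h.sep y fun N => by_contra fun hN => hc ⟨N, hN⟩)
  refine ⟨e, fun a ha => ?_⟩
  have ha' := (pow_dvd_pow _ e.le_succ).trans ha
  have h0 : a ≠ 0 := by
    rintro rfl
    exact he (by simpa using ha')
  obtain ⟨k, u, rfl⟩ := IsDiscreteValuationRing.eq_unit_mul_pow_irreducible h0 hπ
  rw [Units.isUnit u |>.mul_left_dvd]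
  refine pow_dvd_pow _ (not_lt.1 fun hk => he ?_)
  have : algebraMap A A' π ^ e ∣ algebraMap A A' (u * π ^ k) := by
    rw [map_mul, map_pow]
    exact Dvd.dvd.mul_left (pow_dvd_pow _ hk.le) _
  simpa using dvd_add ha' this

theorem Dense'.inj {π : A} (hπ : Irreducible π) (h : Dense' A' π) :
    Function.Injective (algebraMap A A') := by
  refine (injective_iff_map_eq_zero _).2 fun a ha => by_contra fun h0 => ?_
  obtain ⟨k, u, rfl⟩ := IsDiscreteValuationRing.eq_unit_mul_pow_irreducible h0 hπ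
  have := h.comap (k + 1) _ (ha ▸ dvd_zero _)
  rw [(Units.isUnit u).dvd_mul_left, pow_dvd_pow_iff hπ.ne_zero hπ.not_isUnit] at this
  omega

omit [IsDomain A] [IsDiscreteValuationRing A] in
theorem approx_poly {R : Type*} [CommRing R] [Algebra A R] (φ : R →ₐ[A] A') (ρ : R →ₐ[A] A)
    {x y : A'} {a : A} (hρ : ∀ r, x ∣ φ r - algebraMap A A' (ρ r))
    (ha : x ∣ y - algebraMap A A' a) (Q : R[X]) :
    x ∣ aevalTower φ y Q - algebraMap A A' (aevalTower ρ a Q) := by
  have key : ∀ {b c : A'}, x ∣ b - c ↔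
      Ideal.Quotient.mk (Ideal.span {x}) b = Ideal.Quotient.mk (Ideal.span {x}) c := by
    intro b c
    rw [Ideal.Quotient.eq, Ideal.mem_span_singleton]
  have : ((Ideal.Quotient.mk (Ideal.span {x})).comp (aevalTower φ y).toRingHom) =
      (Ideal.Quotient.mk (Ideal.span {x})).comp ((algebraMap A A').comp
        (aevalTower ρ a).toRingHom) := by
    refine Polynomial.ringHom_ext (fun r => ?_) ?_
    · simpa using key.1 (hρ r)
    · simpa using key.1 ha
  exact key.2 (RingHom.congr_fun this Q)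

theorem gb_step [HenselianLocalRing A] [CharZero A] [IsDomain A'] {π : A} (hπ : Irreducible π)
    (hA : Dense' A' π) {R : Type*} [CommRing R] [Algebra A R] (φ : R →ₐ[A] A')
    (hφ : Function.Injective φ)
    (h : ∀ N : ℕ, ∃ ρ : R →ₐ[A] A, ∀ r, algebraMap A A' π ^ N ∣ φ r - algebraMap A A' (ρ r))
    (y : A') (N : ℕ) :
    ∃ ρ : R[X] →ₐ[A] A, (∀ Q, algebraMap A A' π ^ N ∣ aevalTower φ y Q - algebraMap A A' (ρ Q)) ∧
      ∀ Q, aevalTower φ y Q = 0 → ρ Q = 0 := by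
  classical
  by_cases ht : ∃ n, ∃ P : R[X], P ≠ 0 ∧ aevalTower φ y P = 0 ∧ P.natDegree = n
  swap
  · obtain ⟨ρ, hρ⟩ := h N
    obtain ⟨a, ha⟩ := hA.dense N y
    refine ⟨aevalTower ρ a, approx_poly φ ρ hρ ha, fun Q hQ => ?_⟩
    rw [show Q = 0 from by_contra fun h0 => ht ⟨_, Q, h0, hQ, rfl⟩, map_zero]
  obtain ⟨P, hP0, hPy, hPn⟩ := Nat.find_spec ht
  have hmin : ∀ Q : R[X], aevalTower φ y Q = 0 → Q.natDegree < P.natDegree → Q = 0 :=
    fun Q hQ hlt => by_contra fun h0 => Nat.find_min ht (hPn ▸ hlt) ⟨Q, h0, hQ, rfl⟩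
  have : IsDomain R := hφ.isDomain φ.toRingHom
  have : CharZero A' := charZero_of_injective_algebraMap (hA.inj hπ)
  have : CharZero R := φ.toRingHom.charZero
  have hpos : 0 < P.natDegree := by
    refine Nat.pos_of_ne_zero fun h0 => hP0 ?_
    rw [eq_C_of_natDegree_eq_zero h0] at hPy ⊢
    rw [aevalTower_C, map_eq_zero_iff _ hφ] at hPy
    rw [hPy, C_0]
  have hd : aevalTower φ y P.derivative ≠ 0 := fun h0 => by
    have := derivative_eq_zero.1
      (hmin _ h0 (natDegree_derivative_lt hpos.ne'))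
    omega
  obtain ⟨e, he⟩ := hA.dvd_pow hπ hd
  obtain ⟨e', he'⟩ := hA.dvd_pow hπ
    ((map_ne_zero_iff _ hφ).2 (leadingCoeff_ne_zero.2 hP0))
  obtain ⟨ρ, hρ⟩ := h (2 * e + (N + e' + 1))
  obtain ⟨a, ha⟩ := hA.dense (2 * e + (N + e' + 1)) y
  have hev : ∀ (Q : R[X]) (b : A), aevalTower ρ b Q = (Q.map ρ.toRingHom).eval b := fun Q b => by
    rw [eval_map]; rfl
  obtain ⟨k, hk⟩ := he _ ((pow_dvd_pow _ (by omega)).trans (approx_poly φ ρ hρ ha P.derivative))
  obtain ⟨l, hl⟩ := hA.comap (2 * e + (N + e' + 1)) (aevalTower ρ a P) (by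
    simpa [hPy] using approx_poly φ ρ hρ ha P)
  rw [hev, ← derivative_map] at hk
  obtain ⟨t, ht⟩ := newton (P.map ρ.toRingHom) a (ε := k ^ 2 * π ^ (N + e' + 1) * l)
    (Ideal.mul_mem_right _ _ (Ideal.mul_mem_left _ _ (Ideal.pow_mem_of_mem _
      ((mem_maximalIdeal _).2 hπ.not_isUnit) _ (by omega)))) (by
      rw [← hev, hl, pow_add, mul_comm 2 e, pow_mul, hk]; ring)
  rw [← hev] at ht
  set d := (P.map ρ.toRingHom).derivative.eval a
  have hc : ρ P.leadingCoeff ≠ 0 := fun h0 => by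
    have := he' _ ((pow_dvd_pow _ (by omega)).trans (hρ P.leadingCoeff))
    rw [h0, zero_dvd_iff] at this
    exact pow_ne_zero _ hπ.ne_zero this
  refine ⟨aevalTower ρ (a + d * (k ^ 2 * π ^ (N + e' + 1) * l) * t), approx_poly φ ρ
    (fun r => (pow_dvd_pow _ (by omega)).trans (hρ r)) ?_,
    fun Q hQ => ?_⟩
  · rw [map_add, ← sub_sub]
    refine dvd_sub ((pow_dvd_pow _ (by omega)).trans ha) ?_
    rw [← map_pow]
    exact map_dvd _ ⟨d * k ^ 2 * π ^ (e' + 1) * l * t, by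
      rw [add_assoc N, pow_add π N]; ring⟩
  · induction hn : Q.natDegree using Nat.strong_induction_on generalizing Q with
    | _ n ih =>
      rcases lt_or_ge Q.natDegree P.natDegree with h1 | h1
      · rw [hmin Q hQ h1, map_zero]
      · have := ih _ (hn ▸ natDegree_cancelLeads_lt_of_natDegree_le_natDegree h1
          (hpos.trans_le h1)) (P.cancelLeads Q) (by simp [cancelLeads, hQ, hPy]) rfl
        simp only [cancelLeads, map_sub, map_mul, ht, mul_zero, sub_zero, aevalTower_C,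
          Nat.sub_eq_zero_of_le h1, pow_zero, mul_one] at this
        exact (mul_eq_zero.1 this).resolve_left hc

/-- A finite subset of `A'` lies in a subalgebra with retractions to `A` that are arbitrarily
close to the identity. -/
theorem gb [HenselianLocalRing A] [CharZero A] [IsDomain A'] {π : A} (hπ : Irreducible π)
    (hA : Dense' A' π) (s : Finset A') :
    ∃ S : Subalgebra A A', (∀ y ∈ s, y ∈ S) ∧ ∀ N : ℕ, ∃ ρ : S →ₐ[A] A,
      ∀ r : S, algebraMap A A' π ^ N ∣ (r : A') - algebraMap A A' (ρ r) := by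
  classical
  induction s using Finset.induction_on with
  | empty =>
    refine ⟨⊥, by simp, fun N => ⟨(Algebra.botEquivOfInjective (hA.inj hπ)).toAlgHom, fun r => ?_⟩⟩
    obtain ⟨a, rfl⟩ := (Algebra.botEquivOfInjective (hA.inj hπ)).symm.surjective r
    have : (((Algebra.botEquivOfInjective (hA.inj hπ)).symm a : (⊥ : Subalgebra A A')) : A') =
        algebraMap A A' a :=
      congrArg Subtype.val ((Algebra.botEquivOfInjective (hA.inj hπ)).symm.commutes a)
    simp [this]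
  | insert y s _ ih =>
    obtain ⟨S, hs, hS⟩ := ih
    refine ⟨(aevalTower S.val y).range, fun z hz => ?_, fun N => ?_⟩
    · rcases Finset.mem_insert.1 hz with rfl | hz
      · exact ⟨X, by simp⟩
      · exact ⟨C ⟨z, hs z hz⟩, by simp⟩
    · obtain ⟨ρ, h1, h2⟩ := gb_step hπ hA S.val Subtype.val_injective hS y N
      refine ⟨(Ideal.Quotient.liftₐ _ ρ fun Q hQ => h2 Q hQ).comp
        (Ideal.quotientKerEquivRange (aevalTower S.val y)).symm.toAlgHom, fun r => ?_⟩
      obtain ⟨q, rfl⟩ := (Ideal.quotientKerEquivRange (aevalTower S.val y)).surjective r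
      obtain ⟨Q, rfl⟩ := Ideal.Quotient.mk_surjective q
      have h3 : ((Ideal.quotientKerEquivRange (aevalTower S.val y) (Ideal.Quotient.mk _ Q) :
          (aevalTower S.val y).range) : A') = aevalTower S.val y Q := rfl
      simpa [h3] using h1 Q

/-- The completion of a discrete valuation ring. -/
abbrev Cpl (A : Type*) [CommRing A] [IsLocalRing A] := AdicCompletion (maximalIdeal A) A

theorem cpl_dvd {π : A} (hπ : Irreducible π) (N : ℕ) (y : Cpl A) :
    algebraMap A (Cpl A) π ^ N ∣ y ↔ y ∈ maximalIdeal A ^ N • (⊤ : Submodule A (Cpl A)) := by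
  rw [show maximalIdeal A ^ N = Ideal.span {π ^ N} by
      rw [hπ.maximalIdeal_eq, Ideal.span_singleton_pow], Submodule.ideal_span_singleton_smul,
    Submodule.mem_smul_pointwise_iff_exists]
  simp only [Submodule.mem_top, true_and, Algebra.smul_def, map_pow]
  exact ⟨fun ⟨c, hc⟩ => ⟨c, hc.symm⟩, fun ⟨c, hc⟩ => ⟨c, hc.symm⟩⟩

theorem cpl_dense {π : A} (hπ : Irreducible π) : Dense' (Cpl A) π := by
  have fg := (maximalIdeal A).fg_of_isNoetherianRing
  have hc := AdicCompletion.isAdicComplete (M := A) fg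
  refine ⟨fun N y => ?_, fun N a ha => ?_, fun y hy => ?_⟩
  · obtain ⟨a, ha⟩ := Submodule.Quotient.mk_surjective _ (y.1 N)
    refine ⟨a, (cpl_dvd hπ N _).2 ?_⟩
    rw [AdicCompletion.pow_smul_top_eq_ker_eval fg, AdicCompletion.algebraMap_apply]
    simpa [AdicCompletion.eval, sub_eq_zero] using ha.symm
  · rw [cpl_dvd hπ, AdicCompletion.pow_smul_top_eq_ker_eval fg,
      AdicCompletion.algebraMap_apply] at ha
    rw [← Ideal.mem_span_singleton, ← Ideal.span_singleton_pow, ← hπ.maximalIdeal_eq]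
    simpa [AdicCompletion.eval, Ideal.Quotient.eq_zero_iff_mem] using ha
  · exact IsHausdorff.haus hc.toIsHausdorff y fun N =>
      SModEq.zero.2 ((cpl_dvd hπ N y).1 (hy N))

theorem cpl_lim {π : A} (hπ : Irreducible π) (f : ℕ → A) (hf : ∀ m, π ^ m ∣ f (m + 1) - f m) :
    ∃ y : Cpl A, ∀ m, algebraMap A (Cpl A) π ^ m ∣ y - algebraMap A (Cpl A) (f m) := by
  have hc := AdicCompletion.isAdicComplete (M := A) (maximalIdeal A).fg_of_isNoetherianRing
  have h1 : ∀ m k, π ^ m ∣ f (m + k) - f m := fun m k => by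
    induction k with
    | zero => simp
    | succ k ih =>
      have := dvd_add ((pow_dvd_pow π (Nat.le_add_right m k)).trans (hf (m + k))) ih
      simpa [add_assoc] using this
  obtain ⟨y, hy⟩ := IsPrecomplete.prec hc.toIsPrecomplete
    (f := fun m => algebraMap A (Cpl A) (f m)) (fun {m n} hmn => by
      obtain ⟨k, rfl⟩ := Nat.exists_eq_add_of_le hmn
      rw [SModEq.sub_mem, ← cpl_dvd hπ, ← map_sub, ← map_pow]
      exact map_dvd _ (dvd_sub_comm.1 (h1 m k)))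
  exact ⟨y, fun m => dvd_sub_comm.1 ((cpl_dvd hπ m _).2 (SModEq.sub_mem.1 (hy m)))⟩

theorem cpl_eq {π : A} (hπ : Irreducible π) {y : Cpl A} (hy : y ≠ 0) :
    ∃ (k : ℕ) (u : Cpl A), IsUnit u ∧ y = algebraMap A (Cpl A) π ^ k * u := by
  classical
  have he : ∃ e, ¬ algebraMap A (Cpl A) π ^ (e + 1) ∣ y := by
    by_contra hc
    exact hy ((cpl_dense hπ).sep y fun N =>
      (pow_dvd_pow _ N.le_succ).trans (by_contra fun hN => hc ⟨N, hN⟩))
  obtain ⟨u, hu⟩ : algebraMap A (Cpl A) π ^ Nat.find he ∣ y := by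
    rcases h : Nat.find he with _ | k
    · simp
    · exact not_not.1 (Nat.find_min he (m := k) (by omega))
  refine ⟨_, u, by_contra fun h => Nat.find_spec he ?_, hu⟩
  have h1 := (mem_maximalIdeal _).2 h
  rw [AdicCompletion.maximalIdeal_eq_map.trans (congrArg (Ideal.map _) hπ.maximalIdeal_eq),
    Ideal.map_span, Set.image_singleton, Ideal.mem_span_singleton] at h1
  rw [pow_succ]
  exact (mul_dvd_mul_left _ h1).trans (dvd_of_eq hu.symm)

instance : IsDomain (Cpl A) := by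
  obtain ⟨π, hπ⟩ := IsDiscreteValuationRing.exists_irreducible A
  have hr : IsSMulRegular (Cpl A) π :=
    Module.Flat.isSMulRegular_of_nonZeroDivisors (mem_nonZeroDivisors_of_ne_zero hπ.ne_zero)
  have : NoZeroDivisors (Cpl A) := ⟨fun {a b} hab => by
    by_contra hc
    obtain ⟨k, u, hu, rfl⟩ := cpl_eq hπ (not_or.1 hc).1
    obtain ⟨l, v, hv, rfl⟩ := cpl_eq hπ (not_or.1 hc).2
    refine (hu.mul hv).ne_zero ((hr.pow (k + l)).right_eq_zero_of_smul ?_)
    rw [← hab, Algebra.smul_def, map_pow]; ring⟩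
  exact NoZeroDivisors.to_isDomain _

end Pool.Agent.KEW

end MrgPart1

-- ======== part 2: formerly Pool.Agent.MP_55d974_ag.kew.Hen
section MrgPart2

/-! PROJECT KEW: a henselian valuation extends uniquely to algebraic extensions. -/

namespace Pool.Agent.KEW

open IsLocalRing Polynomial

/-- Hensel's lemma for a product of linear factors with exactly one root congruent to one. -/
theorem hen_root {A B ι : Type} [CommRing A] [HenselianLocalRing A] [CommRing B] [IsDomain B]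
    [IsLocalRing B] (φ : A →+* B) [IsLocalHom φ] (s : Finset ι) (u : ι → B) (j : ι) (hj : j ∈ s)
    (h1 : u j - 1 ∈ maximalIdeal B) (h0 : ∀ i ∈ s, i ≠ j → u i ∈ maximalIdeal B)
    (Q : A[X]) (hQ : Q.Monic) (hφ : Q.map φ = ∏ i ∈ s, (X - C (u i))) : ∃ a, φ a = u j := by
  classical
  have hmem : ∀ a : A, a ∈ maximalIdeal A ↔ residue B (φ a) = 0 := fun a => by
    rw [residue_eq_zero_iff, mem_maximalIdeal, mem_maximalIdeal, mem_nonunits_iff,
      mem_nonunits_iff, isUnit_map_iff]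
  have hr1 : residue B (u j) = 1 := by
    rw [← sub_eq_zero, ← map_one (residue B), ← map_sub, residue_eq_zero_iff]
    exact h1
  have hbar : Q.map ((residue B).comp φ) = (X - C 1) * X ^ (s.erase j).card := by
    rw [← Polynomial.map_map, hφ, Polynomial.map_prod, ← Finset.mul_prod_erase _ _ hj,
      ← Finset.prod_const]
    congr 1
    · simp [hr1]
    · refine Finset.prod_congr rfl fun i hi => ?_
      have := (residue_eq_zero_iff _).2 (h0 i (Finset.mem_of_mem_erase hi) (Finset.ne_of_mem_erase hi))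
      simp [this]
  have he : ∀ R : A[X], residue B (φ (R.eval 1)) = (R.map ((residue B).comp φ)).eval 1 := fun R => by
    rw [eval_one_map]
    rfl
  obtain ⟨a, ha, ha1⟩ := HenselianLocalRing.is_henselian Q hQ 1 (by
    rw [hmem, he, hbar]
    simp) (by
    by_contra hu
    have h2 := (hmem _).1 ((mem_maximalIdeal _).2 hu)
    rw [he, ← derivative_map, hbar] at h2
    simp at h2)
  have h3 : (Q.map φ).eval (φ a) = 0 := by
    rw [eval_map, eval₂_at_apply, ha.eq_zero, map_zero]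
  rw [hφ, eval_prod, Finset.prod_eq_zero_iff] at h3
  obtain ⟨i, hi, h4⟩ := h3
  have h5 : φ a = u i := by simpa [sub_eq_zero] using h4
  by_cases hij : i = j
  · exact ⟨a, hij ▸ h5⟩
  · exfalso
    have h6 := (hmem _).1 ha1
    rw [map_sub, map_sub, h5, (residue_eq_zero_iff _).2 (h0 i hi hij)] at h6
    simp at h6

section

variable {A K N : Type} [CommRing A] [IsDomain A] [IsDiscreteValuationRing A] [Field K] [Field N]
  [Algebra A K] [IsFractionRing A K] [Algebra K N] [Algebra A N] [IsScalarTower A K N]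
  {π : A} {V : ValuationSubring N}

omit [Field K] [Algebra A K] [IsFractionRing A K] [Algebra K N] [IsScalarTower A K N] in
theorem hen_local (hπ : Irreducible π) (hV : ∀ c, algebraMap A N c ∈ V)
    (hn : algebraMap A N π ∈ V.nonunits) :
    IsLocalHom ((algebraMap A N).codRestrict V.toSubring hV) := by
  refine ⟨fun a ha => ?_⟩
  by_contra hu
  have h1 : a ∈ maximalIdeal A := (mem_maximalIdeal _).2 hu
  rw [hπ.maximalIdeal_eq, Ideal.mem_span_singleton] at h1
  obtain ⟨b, rfl⟩ := h1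
  rw [map_mul] at ha
  exact (mem_maximalIdeal _).1 (V.coe_mem_nonunits_iff (a := ⟨_, hV π⟩).1 hn)
    (isUnit_of_mul_isUnit_left ha)

theorem hen_comap (hπ : Irreducible π) (hV : ∀ c, algebraMap A N c ∈ V)
    (hn : algebraMap A N π ∈ V.nonunits) (k : K) (hk : algebraMap K N k ∈ V) :
    ∃ a : A, algebraMap A N a = algebraMap K N k := by
  have := hen_local hπ hV hn
  rcases ValuationRing.isInteger_or_isInteger A k with ⟨a, ha⟩ | ⟨a, ha⟩
  · exact ⟨a, by rw [← ha, ← IsScalarTower.algebraMap_apply]⟩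
  · by_cases h0 : k = 0
    · exact ⟨0, by simp [h0]⟩
    have h1 : algebraMap A N a * algebraMap K N k = 1 := by
      rw [IsScalarTower.algebraMap_apply A K N, ha, ← map_mul, inv_mul_cancel₀ h0, map_one]
    have h2 : IsUnit ((algebraMap A N).codRestrict V.toSubring hV a) :=
      IsUnit.of_mul_eq_one ⟨_, hk⟩ (Subtype.ext h1)
    obtain ⟨b, hb⟩ := ((isUnit_map_iff _ a).1 h2).exists_left_inv
    refine ⟨b, ?_⟩
    rw [← mul_one (algebraMap A N b), ← h1, ← mul_assoc, ← map_mul, hb, map_one, one_mul]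

variable [HenselianLocalRing A] [FiniteDimensional K N] [IsGalois K N]

theorem hen_conj (hπ : Irreducible π) (hV : ∀ c, algebraMap A N c ∈ V)
    (hn : algebraMap A N π ∈ V.nonunits) (y : N) (σ : N ≃ₐ[K] N) :
    V.valuation (σ y) = V.valuation y := by
  classical
  by_cases hy : y = 0
  · simp [hy]
  set v := V.valuation with hv
  have hpos : ∀ τ : N ≃ₐ[K] N, 0 < v (τ y) := fun τ =>
    zero_lt_iff.2 ((Valuation.ne_zero_iff v).2 (by simpa using hy))
  obtain ⟨σ₀, -, hσ₀⟩ := Finset.exists_max_image Finset.univ (fun τ : N ≃ₐ[K] N => v (τ y))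
    Finset.univ_nonempty
  set S : Finset (N ≃ₐ[K] N) := Finset.univ.filter fun τ => v (τ y) = v (σ₀ y) with hS
  set I : Finset (Finset (N ≃ₐ[K] N)) := Finset.powersetCard S.card Finset.univ with hI
  set Y : Finset (N ≃ₐ[K] N) → N := fun T => ∏ τ ∈ T, τ y with hY
  have hSI : S ∈ I := by simp [hI]
  have hYS : v (Y S) = v (σ₀ y) ^ S.card := by
    rw [hY, map_prod, ← Finset.prod_const]
    exact Finset.prod_congr rfl fun τ hτ => (Finset.mem_filter.1 hτ).2
  have hYS0 : 0 < v (Y S) := hYS ▸ pow_pos (hpos σ₀) _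
  have hlt : ∀ T ∈ I, T ≠ S → v (Y T) < v (Y S) := fun T hT hne => by
    have hc : T.card = S.card := by simpa [hI] using hT
    rw [hYS, ← hc, ← Finset.prod_const, hY, map_prod]
    refine Finset.prod_lt_prod (fun τ _ => hpos τ) (fun τ _ => hσ₀ τ (Finset.mem_univ _)) ?_
    by_contra hc'
    push Not at hc'
    refine hne (Finset.eq_of_subset_of_card_le (fun τ hτ => ?_) hc.ge)
    exact Finset.mem_filter.2 ⟨Finset.mem_univ _,
      le_antisymm (hσ₀ τ (Finset.mem_univ _)) (hc' τ hτ)⟩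
  set c : N := ∑ T ∈ I, Y T with hc
  have hsub : v (Y S - c) < v (Y S) := by
    rw [Valuation.map_sub_swap, hc, ← Finset.add_sum_erase _ _ hSI, add_sub_cancel_left]
    exact v.map_sum_lt' hYS0 fun T hT =>
      hlt T (Finset.mem_of_mem_erase hT) (Finset.ne_of_mem_erase hT)
  have hvc : v c = v (Y S) := by
    rw [Valuation.map_sub_swap] at hsub
    exact v.map_eq_of_sub_lt hsub
  have hc0 : c ≠ 0 := (Valuation.ne_zero_iff v).1 (hvc ▸ hYS0.ne')
  have hact : ∀ (τ : N ≃ₐ[K] N) (T : Finset (N ≃ₐ[K] N)),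
      τ (Y T) = Y (T.map (Equiv.mulLeft τ).toEmbedding) := fun τ T => by
    rw [hY]
    simp only [map_prod, Finset.prod_map]
    rfl
  have hbij : ∀ {M : Type} [CommMonoid M] (τ : N ≃ₐ[K] N) (g : Finset (N ≃ₐ[K] N) → M),
      ∏ T ∈ I, g (T.map (Equiv.mulLeft τ).toEmbedding) = ∏ T ∈ I, g T := fun τ g =>
    Finset.prod_equiv (Equiv.finsetCongr (Equiv.mulLeft τ)) (fun T => by simp [hI])
      (fun T _ => rfl)
  have hcfix : ∀ τ : N ≃ₐ[K] N, τ c = c := fun τ => by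
    rw [hc, map_sum]
    simp only [hact]
    exact Finset.sum_equiv (Equiv.finsetCongr (Equiv.mulLeft τ)) (fun T => by simp [hI])
      (fun T _ => rfl)
  have hle : ∀ T ∈ I, v (Y T / c) ≤ 1 := fun T hT => by
    rw [map_div₀, hvc, div_le_one₀ hYS0]
    by_cases h : T = S
    · rw [h]
    · exact (hlt T hT h).le
  let u : Finset (N ≃ₐ[K] N) → V := fun T =>
    if h : T ∈ I then ⟨Y T / c, (V.valuation_le_one_iff _).1 (hle T h)⟩ else 0
  have hu : ∀ T ∈ I, (u T : N) = Y T / c := fun T hT => by simp [u, hT]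
  have hmap : (∏ T ∈ I, (X - C (u T))).map V.subtype = ∏ T ∈ I, (X - C (Y T / c)) := by
    rw [Polynomial.map_prod]
    refine Finset.prod_congr rfl fun T hT => ?_
    rw [Polynomial.map_sub, map_X, map_C, ← hu T hT]
    rfl
  have hfix : ∀ τ : N ≃ₐ[K] N, (∏ T ∈ I, (X - C (Y T / c))).map (τ : N →+* N) =
      ∏ T ∈ I, (X - C (Y T / c)) := fun τ => by
    rw [Polynomial.map_prod, ← hbij τ fun T => X - C (Y T / c)]
    refine Finset.prod_congr rfl fun T _ => ?_
    rw [Polynomial.map_sub, map_X, map_C, ← hact]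
    simp [hcfix]
  have hloc := hen_local hπ hV hn
  have hlift : ∏ T ∈ I, (X - C (u T)) ∈
      lifts ((algebraMap A N).codRestrict V.toSubring hV) := by
    rw [lifts_iff_coeff_lifts]
    intro n
    have h1 : (((∏ T ∈ I, (X - C (u T))).coeff n : V) : N) =
        (∏ T ∈ I, (X - C (Y T / c))).coeff n := by
      rw [← hmap, coeff_map]
      rfl
    obtain ⟨k, hk⟩ := (IsGalois.mem_range_algebraMap_iff_fixed (F := K)
      ((∏ T ∈ I, (X - C (Y T / c))).coeff n)).2 fun τ => by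
        conv_rhs => rw [← hfix τ, coeff_map]
        rfl
    obtain ⟨a, ha⟩ := hen_comap hπ hV hn k (by rw [hk, ← h1]; exact Subtype.mem _)
    exact ⟨a, Subtype.ext (ha.trans (hk.trans h1.symm))⟩
  obtain ⟨Q, hQ, -, hQm⟩ := lifts_and_natDegree_eq_and_monic hlift
    (monic_prod_of_monic _ _ fun T _ => monic_X_sub_C _)
  obtain ⟨a, ha⟩ := hen_root (B := V) ((algebraMap A N).codRestrict V.toSubring hV) I u S hSI
    (by
      rw [V.valuation_lt_one_iff]
      push_cast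
      rw [hu S hSI, div_sub_one hc0, map_div₀, ← hv, hvc, div_lt_one₀ hYS0]
      exact hsub)
    (fun T hT hne => by
      rw [V.valuation_lt_one_iff, hu T hT, map_div₀, ← hv, hvc, div_lt_one₀ hYS0]
      exact hlt T hT hne) Q hQm hQ
  have ha' : Y S = algebraMap A N a * c := by
    have h1 : algebraMap A N a = Y S / c := (congrArg Subtype.val ha).trans (hu S hSI)
    rw [h1, div_mul_cancel₀ _ hc0]
  have hall : ∀ τ : N ≃ₐ[K] N, v (τ y) = v (σ₀ y) := fun τ => by
    have h1 : (τ * σ₀⁻¹) (Y S) = Y S := by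
      rw [ha', map_mul, hcfix, IsScalarTower.algebraMap_apply A K N, AlgEquiv.commutes]
    rw [hact] at h1
    have h2 : S.map (Equiv.mulLeft (τ * σ₀⁻¹)).toEmbedding = S := by
      by_contra hne
      exact (hlt _ (by simp [hI]) hne).ne (by rw [h1])
    have h3 : τ ∈ S := by
      rw [← h2]
      exact Finset.mem_map.2 ⟨σ₀, by simp [hS], by simp⟩
    exact (Finset.mem_filter.1 h3).2
  exact (hall σ).trans (hall 1).symm

theorem hen_mem (hπ : Irreducible π) (hV : ∀ c, algebraMap A N c ∈ V)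
    (hn : algebraMap A N π ∈ V.nonunits) (y : N) :
    y ∈ V ↔ ∃ a : A, algebraMap A N a = ∏ σ : N ≃ₐ[K] N, σ y := by
  have h1 : y ∈ V ↔ ∏ σ : N ≃ₐ[K] N, σ y ∈ V := by
    rw [← V.valuation_le_one_iff, ← V.valuation_le_one_iff, map_prod,
      Finset.prod_congr rfl fun σ _ => hen_conj hπ hV hn y σ, Finset.prod_const,
      pow_le_one_iff_of_nonneg zero_le (Finset.card_pos.2 Finset.univ_nonempty).ne']
  rw [h1, ← Algebra.norm_eq_prod_automorphisms]
  exact ⟨hen_comap hπ hV hn _, fun ⟨a, ha⟩ => ha ▸ hV a⟩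

end

theorem hen_ext {L M : Type} [Field L] [Field M] (φ : L →+* M) (V : ValuationSubring L) :
    ∃ U : ValuationSubring M, U.comap φ = V := by
  obtain ⟨U, h, hl⟩ := exists_factor_valuationRing (φ.comp V.subtype)
  refine ⟨U, ValuationSubring.ext _ _ fun x => ⟨fun hx => ?_, fun hx => h ⟨x, hx⟩⟩⟩
  rcases V.mem_or_inv_mem x with h1 | h1
  · exact h1
  by_cases h0 : x = 0
  · exact h0 ▸ V.zero_mem
  have h2 : IsUnit ((φ.comp V.subtype).codRestrict U.toSubring h ⟨_, h1⟩) :=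
    IsUnit.of_mul_eq_one ⟨φ x, hx⟩ (Subtype.ext (by
      change φ x⁻¹ * φ x = 1
      rw [← map_mul, inv_mul_cancel₀ h0, map_one]))
  obtain ⟨b, hb⟩ := ((isUnit_map_iff _ _).1 h2).exists_left_inv
  have h3 : (b : L) * x⁻¹ = 1 := congrArg Subtype.val hb
  rw [mul_inv_eq_one₀ h0] at h3
  exact h3 ▸ b.2

theorem hen_nonunits {L M : Type} [Field L] [Field M] (φ : L →+* M) (U : ValuationSubring M)
    (x : L) : x ∈ (U.comap φ).nonunits ↔ φ x ∈ U.nonunits := by
  rw [ValuationSubring.mem_nonunits_iff_or, ValuationSubring.mem_nonunits_iff_or,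
    ValuationSubring.mem_comap, map_inv₀, map_eq_zero]

theorem henS' : HenS := by
  intro A _ _ _ _ _ π hπ L _ _ hinj halg V W hV hW hVn hWn
  have : FaithfulSMul A L := (faithfulSMul_iff_algebraMap_injective A L).2 hinj
  let K := FractionRing A
  let _ : Algebra K L := FractionRing.liftAlgebra A L
  have : IsScalarTower A K L := FractionRing.isScalarTower_liftAlgebra A L
  have : Algebra.IsAlgebraic K L := Algebra.IsAlgebraic.extendScalars (IsFractionRing.injective A K)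
  have : CharZero K := charZero_of_injective_algebraMap (IsFractionRing.injective A K)
  let M := AlgebraicClosure L
  have : Algebra.IsAlgebraic K M := Algebra.IsAlgebraic.trans K L M
  have : IsAlgClosure K M := ⟨inferInstance, inferInstance⟩
  ext x
  let y : M := algebraMap L M x
  have : FiniteDimensional K (IntermediateField.adjoin K {y}) :=
    IntermediateField.adjoin.finiteDimensional (Algebra.IsIntegral.isIntegral y)
  let N := IntermediateField.normalClosure K (IntermediateField.adjoin K {y}) M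
  have hy : y ∈ N := IntermediateField.le_normalClosure _
    (IntermediateField.subset_adjoin K _ rfl)
  have : IsGalois K N := {}
  have key : ∀ U : ValuationSubring L, (∀ c, algebraMap A L c ∈ U) →
      algebraMap A L π ∈ U.nonunits →
      (x ∈ U ↔ ∃ a : A, algebraMap A N a = ∏ σ : N ≃ₐ[K] N, σ ⟨y, hy⟩) := by
    intro U hU hUn
    obtain ⟨U', rfl⟩ := hen_ext (algebraMap L M) U
    have he : ∀ c : A, (algebraMap N M) (algebraMap A N c) = algebraMap L M (algebraMap A L c) :=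
      fun c => by
        rw [← IsScalarTower.algebraMap_apply A L M, IsScalarTower.algebraMap_apply A K N,
          ← IsScalarTower.algebraMap_apply K N M, ← IsScalarTower.algebraMap_apply A K M]
    refine Iff.trans ?_ (hen_mem (V := U'.comap (algebraMap N M)) hπ (fun c => ?_) ?_ _)
    · rfl
    · rw [ValuationSubring.mem_comap, he]
      exact hU c
    · rw [hen_nonunits, he, ← hen_nonunits]
      exact hUn
  exact (key V hV hVn).trans (key W hW hWn).symm

theorem henS (_ : CplS) (_ : GbS) : HenS := henS'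

end Pool.Agent.KEW

end MrgPart2

-- ======== part 3: formerly Pool.Agent.MP_55d974_ag.kew.GabsB
section MrgPart3

/-! The abstract vanishing lemma for a Steinberg pairing on the fraction field of a normal
domain. -/

namespace Pool.Agent.KEW

namespace Gabs

open Ideal

variable {D E C : Type*} [CommRing D] [Field E] [Algebra D E] [AddCommGroup C]

/-- The hypotheses on the pairing. -/
structure Hyp (π : D) (n : ℕ) (B : E → E → C) : Prop where
  ne : π ≠ 0
  nu : ¬ IsUnit π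
  inc : Inc π
  ml : ∀ a b c, a ≠ 0 → b ≠ 0 → c ≠ 0 → B (a * b) c = B a c + B b c
  mr : ∀ a b c, a ≠ 0 → b ≠ 0 → c ≠ 0 → B a (b * c) = B a b + B a c
  st : ∀ a b, a ≠ 0 → b ≠ 0 → a + b = 1 → B a b = 0
  p3 : ∀ (k : ℕ) (h₁ h₂ c₁ c₂ : D) (F₁ F₂ : E), F₁ ≠ 0 → F₂ ≠ 0 → h₁ ≠ 0 → h₂ ≠ 0 →
    π ^ k ∈ span {h₁, h₂} → F₁ * algebraMap D E h₁ = algebraMap D E (h₁ + π ^ (n + k) * c₁) →
    F₂ * algebraMap D E h₂ = algebraMap D E (h₂ + π ^ (n + k) * c₂) → B F₁ F₂ = 0
  star : ∀ (h c u : D) (F : E) (K : ℕ), F ≠ 0 → (∀ Q ∈ (span {π}).minimalPrimes, h ∉ Q) →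
    F * algebraMap D E h = algebraMap D E (h + π ^ (n + 1) * c) → n ≤ K → u ∉ span {π ^ K} →
    ∃ s : D, B F (algebraMap D E (u + π ^ K * s)) = 0

/-- `F` is congruent to one modulo `π ^ m` at all minimal primes of `π`. -/
def Lev (π : D) (m : ℕ) (F : E) : Prop :=
  ∀ Q (h : Q ∈ (span {π}).minimalPrimes), (F - 1) / algebraMap D E π ^ m ∈ Oq E Q h.isPrime

variable {π : D} {n m : ℕ} {B : E → E → C} {a b c F G : E}

namespace Hyp
variable (H : Hyp π n B)
include H

lemma one_l (hc : c ≠ 0) : B 1 c = 0 := by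
  have := H.ml 1 1 c one_ne_zero one_ne_zero hc
  rwa [mul_one, left_eq_add] at this

lemma one_r (ha : a ≠ 0) : B a 1 = 0 := by
  have := H.mr a 1 1 ha one_ne_zero one_ne_zero
  rwa [mul_one, left_eq_add] at this

lemma div_l (ha : a ≠ 0) (hb : b ≠ 0) (hc : c ≠ 0) : B (a / b) c = B a c - B b c := by
  rw [eq_sub_iff_add_eq, ← H.ml _ _ _ (div_ne_zero ha hb) hb hc, div_mul_cancel₀ _ hb]

lemma div_r (ha : a ≠ 0) (hb : b ≠ 0) (hc : c ≠ 0) : B a (b / c) = B a b - B a c := by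
  rw [eq_sub_iff_add_eq, ← H.mr _ _ _ ha (div_ne_zero hb hc) hc, div_mul_cancel₀ _ hc]

lemma pow_l (ha : a ≠ 0) (hc : c ≠ 0) (k : ℕ) : B (a ^ k) c = k • B a c := by
  induction k with
  | zero => rw [pow_zero, H.one_l hc, zero_smul]
  | succ k ih => rw [pow_succ, H.ml _ _ _ (pow_ne_zero _ ha) ha hc, ih, succ_nsmul]

lemma neg_self (ha : a ≠ 0) : B a (-a) = 0 := by
  by_cases h1 : a = 1
  · rw [h1]; exact H.one_l (by simp)
  · have h2 : 1 - a ≠ 0 := sub_ne_zero.2 (Ne.symm h1)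
    have h3 : 1 - 1 / a ≠ 0 := by
      rw [sub_ne_zero, Ne, eq_div_iff ha, one_mul]; exact h1
    have h4 := H.st (1 / a) _ (one_div_ne_zero ha) h3 (by ring)
    rw [H.div_l one_ne_zero ha h3, H.one_l h3, zero_sub, neg_eq_zero] at h4
    have h5 : -a = (1 - a) / (1 - 1 / a) := by
      rw [eq_div_iff h3]; field_simp; ring
    rw [h5, H.div_r ha h2 h3, h4, H.st a _ ha h2 (by ring), sub_zero]

lemma anti (ha : a ≠ 0) (hb : b ≠ 0) (h : B a b = 0) : B b a = 0 := by
  have h1 := H.neg_self (mul_ne_zero ha hb)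
  have na := neg_ne_zero.2 ha
  have nb := neg_ne_zero.2 hb
  rw [H.ml _ _ _ ha hb (neg_ne_zero.2 (mul_ne_zero ha hb))] at h1
  nth_rewrite 1 [← neg_mul] at h1
  rw [← mul_neg, H.mr _ _ _ ha na hb, H.mr _ _ _ hb ha nb, H.neg_self ha, H.neg_self hb, h] at h1
  simpa using h1

lemma zpow_r (ha : a ≠ 0) (hb : b ≠ 0) (h : B a b = 0) (k : ℤ) : B a (b ^ k) = 0 := by
  have h1 : ∀ k : ℕ, B a (b ^ k) = 0 := fun k =>
    H.anti (pow_ne_zero _ hb) ha (by rw [H.pow_l hb ha, H.anti ha hb h, smul_zero])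
  cases k with
  | ofNat k => rw [Int.ofNat_eq_natCast, zpow_natCast]; exact h1 k
  | negSucc k =>
    rw [zpow_negSucc, ← one_div, H.div_r ha one_ne_zero (pow_ne_zero _ hb), H.one_r ha, h1,
      sub_zero]

end Hyp

variable [IsFractionRing D E]

lemma lev_un {Q : Ideal D} {hQ : Q.IsPrime} (h0 : π ≠ 0) (hπ : π ∈ Q) (hm : 1 ≤ m)
    (h : (F - 1) / algebraMap D E π ^ m ∈ Oq E Q hQ) : Un Q hQ F := by
  obtain ⟨y, x, h1, h2⟩ := h
  have h3 : y + π ^ m * x ∉ Q := fun hh => h1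
    ((Q.add_mem_iff_left (Q.mul_mem_right _ (Q.pow_mem_of_mem hπ _ hm))).1 hh)
  have h4 : Un Q hQ (algebraMap D E y) := un_alg h1
  have h5 : F = algebraMap D E (y + π ^ m * x) / algebraMap D E y := by
    have := alg_ne (E := E) h0
    rw [eq_div_iff h4.1, map_add, map_mul, map_pow, ← h2]
    field_simp
    ring
  rw [h5]
  exact (un_alg h3).div h4

lemma Lev.mul (h0 : π ≠ 0) (hm : 1 ≤ m) (hF : Lev π m F) (hG : Lev π m G) : Lev π m (F * G) := by
  intro Q h
  have := add_mem (mul_mem (lev_un h0 (ver_mem h) hm (hG Q h)).2.1 (hF Q h)) (hG Q h)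
  rwa [← mul_div_assoc, ← add_div, show G * (F - 1) + (G - 1) = F * G - 1 by ring] at this

lemma Lev.inv (h0 : π ≠ 0) (hm : 1 ≤ m) (hF : Lev π m F) : Lev π m F⁻¹ := by
  intro Q h
  have h1 := lev_un h0 (ver_mem h) hm (hF Q h)
  have := neg_mem (mul_mem h1.2.2 (hF Q h))
  rwa [← mul_div_assoc, ← neg_div, mul_sub, inv_mul_cancel₀ h1.1, mul_one, neg_sub] at this

lemma Lev.zpow (h0 : π ≠ 0) (hm : 1 ≤ m) (hF : Lev π m F) (k : ℤ) : Lev π m (F ^ k) := by
  have h1 : ∀ k : ℕ, Lev π m (F ^ k) := by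
    intro k
    induction k with
    | zero => intro Q h; simp
    | succ k ih => rw [pow_succ]; exact ih.mul h0 hm hF
  cases k with
  | ofNat k => rw [Int.ofNat_eq_natCast, zpow_natCast]; exact h1 k
  | negSucc k => rw [zpow_negSucc]; exact (h1 _).inv h0 hm

lemma lev_frac (h0 : π ≠ 0) {h c : D} (hh : h ≠ 0) (hv : ∀ Q ∈ (span {π}).minimalPrimes, h ∉ Q) :
    Lev π m (algebraMap D E (h + π ^ m * c) / algebraMap D E h) := by
  intro Q hQ
  refine ⟨h, c, hv Q hQ, ?_⟩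
  have := alg_ne (E := E) h0
  have := alg_ne (E := E) hh
  rw [map_add, map_mul, map_pow]
  field_simp
  ring

lemma star_ne {u s : D} {K : ℕ} (h : u ∉ span {π ^ K}) : u + π ^ K * s ≠ 0 := fun e =>
  h (mem_span_singleton'.2 ⟨-s, by linear_combination -e⟩)

variable [IsDomain D] [IsNoetherianRing D]

lemma Hyp.stepB (H : Hyp π n B) {h c u : D} {k : ℕ} (hF : F ≠ 0) (hh : h ≠ 0)
    (hv : ∀ Q ∈ (span {π}).minimalPrimes, h ∉ Q)
    (e : F * algebraMap D E h = algebraMap D E (h + π ^ (n + k + 1) * c)) (hu : u ≠ 0)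
    (hk : π ^ k ∈ span {h, u}) : B F (algebraMap D E u) = 0 := by
  obtain ⟨K, hK⟩ := krull H.nu hu
  have h1 := hK (n + k + K) (by omega)
  obtain ⟨s, hs⟩ := H.star h (π ^ k * c) u F _ hF hv (by rw [e]; congr 1; ring) (by omega) h1
  have h2 := alg_ne (E := E) (star_ne (s := s) h1)
  have h3 := alg_ne (E := E) hu
  have h4 := H.p3 k h u (π * c) (π ^ K * s) F _ hF (div_ne_zero h2 h3) hh hu hk
    (by rw [e]; congr 1; ring) (by rw [div_mul_cancel₀ _ h3]; congr 1; ring)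
  rwa [H.div_r hF h2 h3, hs, zero_sub, neg_eq_zero] at h4

lemma Hyp.stepC0 (H : Hyp π n B) (hF : F ≠ 0) (hL : Lev π (n + 1) F) {u : D} (hu : u ≠ 0)
    (hU : ∀ P (hP : Hor π P), u ∈ P → Un P hP.1 F) : B F (algebraMap D E u) = 0 := by
  have fv := finite_minimalPrimes_of_isNoetherianRing D (span {π})
  have p0 := alg_ne (E := E) H.ne
  have u0 := alg_ne (E := E) hu
  obtain ⟨h, c, h0, h1, h2⟩ := common (z := (F - 1) / algebraMap D E π ^ (n + 1))
    (fv.union (fin_hor H.inc hu)) (fun Q hQ => hQ.elim (·.isPrime) (·.1.1)) (by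
      rintro Q (hQ | hQ)
      · exact hL Q hQ
      · rw [div_eq_mul_inv]
        exact mul_mem (sub_mem (hU Q hQ.1 hQ.2).2.1 (one_mem _))
          ((un_alg hQ.1.2.2).pow _).2.2)
  have e : F * algebraMap D E h = algebraMap D E (h + π ^ (n + 1) * c) := by
    rw [map_add, map_mul, map_pow, ← h2]
    field_simp
    ring
  generalize hH : h + π ^ (n + 1) * c = h' at e
  have a0 := alg_ne (E := E) h0
  have a1 : algebraMap D E h' ≠ 0 := e ▸ mul_ne_zero hF a0
  have h0' : h' ≠ 0 := fun e => a1 (by rw [e, map_zero])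
  have h3 : ∀ P, Hor π P → u ∈ P → h' ∉ P := fun P hP hx =>
    not_mem_of_inv h0' (e ▸ ((hU P hP hx).mul (un_alg (h1 P (Or.inr ⟨hP, hx⟩)))).2.2)
  obtain ⟨k₁, hk₁⟩ := clear (E := E) (π := π) hu
  obtain ⟨y, x, y0, y1, y2⟩ := common (z := algebraMap D E π ^ k₁ / algebraMap D E u)
    (fv.union ((fin_hor H.inc h0).union (fin_hor H.inc h0')))
    (fun Q hQ => hQ.elim (·.isPrime) fun hQ => hQ.elim (·.1.1) (·.1.1)) (by
      rintro Q (hQ | hQ | hQ)
      · exact hk₁ Q hQ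
      · exact (((un_alg hQ.1.2.2).pow _).div
          (un_alg fun hx => h1 Q (Or.inr ⟨hQ.1, hx⟩) hQ.2)).2.1
      · exact (((un_alg hQ.1.2.2).pow _).div (un_alg fun hx => h3 Q hQ.1 hx hQ.2)).2.1)
  obtain ⟨k₂, hk₂⟩ := coprime (π := π) (b := h) y0
    fun P hP hy hx => y1 P (Or.inr (Or.inl ⟨hP, hx⟩)) hy
  obtain ⟨k₃, hk₃⟩ := coprime (π := π) (b := h') y0
    fun P hP hy hx => y1 P (Or.inr (Or.inr ⟨hP, hx⟩)) hy
  obtain ⟨K, hK⟩ := krull H.nu hu
  have h4 := hK (n + (k₂ + k₃) + 1 + K + k₁) (by omega)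
  obtain ⟨s, hs⟩ := H.star h c u F _ hF (fun Q hQ => h1 Q (Or.inl hQ)) (hH ▸ e) (by omega) h4
  have h5 := alg_ne (E := E) (star_ne (s := s) h4)
  have h6 := div_ne_zero h5 u0
  have e2 : algebraMap D E (u + π ^ (n + (k₂ + k₃) + 1 + K + k₁) * s) / algebraMap D E u *
      algebraMap D E y = algebraMap D E (y + π ^ (n + (k₂ + k₃) + 1) * (π ^ K * s * x)) := by
    simp only [map_add, map_mul, map_pow, ← y2]
    field_simp
    ring
  have b1 := H.stepB h6 y0 (fun Q hQ => y1 Q (Or.inl hQ)) e2 h0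
    (by rw [pow_add]; exact mul_mem_right _ _ hk₂)
  have b2 := H.stepB h6 y0 (fun Q hQ => y1 Q (Or.inl hQ)) e2 h0'
    (by rw [pow_add]; exact mul_mem_left _ _ hk₃)
  rw [← e, H.mr _ _ _ h6 hF a0, b1, add_zero] at b2
  have b3 := H.anti h6 hF b2
  rwa [H.div_r hF h5 u0, hs, zero_sub, neg_eq_zero] at b3

lemma fin_bad (hI : Inc π) (hF : F ≠ 0) : {P | ∃ hP : Hor π P, ¬ Un P hP.1 F}.Finite := by
  obtain ⟨y, x, hy, e⟩ := frac (D := D) F
  have y0 := alg_ne (E := E) hy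
  have hx : x ≠ 0 := by
    rintro rfl
    exact mul_ne_zero hF y0 (by rw [e, map_zero])
  refine ((fin_hor hI hx).union (fin_hor hI hy)).subset ?_
  rintro P ⟨hP, h⟩
  by_contra h0
  simp only [Set.mem_union, Set.mem_ofPred_eq, not_or, not_and] at h0
  exact h (eq_div_of_mul_eq y0 e ▸ (un_alg (h0.1 hP)).div (un_alg (h0.2 hP)))

lemma Hyp.stepC (H : Hyp π n B) (hF : F ≠ 0) (hL : Lev π (n + 1) F) {u : E} (hu : u ≠ 0)
    (hU : ∀ P (hP : Hor π P), Un P hP.1 F ∨ Un P hP.1 u) : B F u = 0 := by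
  obtain ⟨y, x, y0, y1, e⟩ := common (z := u) (fin_bad H.inc hF) (fun Q hQ => hQ.1.1)
    fun Q hQ => ((hU Q hQ.1).resolve_left hQ.2).2.1
  have a0 := alg_ne (E := E) y0
  have a1 : algebraMap D E x ≠ 0 := e ▸ mul_ne_zero hu a0
  have x0 : x ≠ 0 := fun e => a1 (by rw [e, map_zero])
  have b1 := H.stepC0 hF hL y0 fun P hP hy => by_contra fun h => y1 P ⟨hP, h⟩ hy
  have b2 := H.stepC0 hF hL x0 fun P hP hx => by_contra fun h =>
    not_mem_of_inv x0 (e ▸ (((hU P hP).resolve_left h).mul (un_alg (y1 P ⟨hP, h⟩))).2.2) hx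
  rwa [← e, H.mr _ _ _ hF hu a0, b1, add_zero] at b2

/-- The consequence of the Steinberg relation. -/
lemma Hyp.stein (H : Hyp π n B) {h c : D} (hh : h ≠ 0) (hc : c ≠ 0)
    (hv : ∀ Q ∈ (span {π}).minimalPrimes, h ∉ Q) :
    h + π ^ (n + 1) * c ≠ 0 ∧ B (algebraMap D E (h + π ^ (n + 1) * c) / algebraMap D E h)
      (algebraMap D E c / algebraMap D E h) = 0 := by
  obtain ⟨Q, hQ⟩ := (span {π}).nonempty_minimalPrimes (by
    rw [Ne, span_singleton_eq_top]; exact H.nu)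
  have h1 : h + π ^ (n + 1) * c ≠ 0 := fun e => hv Q hQ (by
    rw [eq_neg_of_add_eq_zero_left e]
    exact Q.neg_mem (Q.mul_mem_right _ (Q.pow_mem_of_mem (ver_mem hQ) _ (by omega))))
  refine ⟨h1, ?_⟩
  have a0 := alg_ne (E := E) hh
  have a1 := div_ne_zero (alg_ne (E := E) h1) a0
  have a2 := div_ne_zero (alg_ne (E := E) hc) a0
  have a3 : algebraMap D E (-π ^ (n + 1)) ≠ 0 := alg_ne (neg_ne_zero.2 (pow_ne_zero _ H.ne))
  have b1 := H.st _ _ a1 (mul_ne_zero a3 a2) (by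
    simp only [map_add, map_mul, map_neg]
    field_simp
    ring)
  have b2 := H.stepC a1 (lev_frac H.ne hh hv) a3 fun P hP => Or.inr (un_alg fun hx =>
    hP.2.2 (hP.1.mem_of_pow_mem _ ((P.neg_mem_iff).1 hx)))
  rwa [H.mr _ _ _ a1 a3 a2, b2, zero_add] at b1

variable [IsIntegrallyClosed D]

lemma Hyp.stepZ (H : Hyp π n B) (hF : F ≠ 0) (hL : Lev π (n + 1) F) {P : Ideal D} (hP : Hor π P) :
    ∃ c : E, c ≠ 0 ∧ (∀ z : E, z ≠ 0 → ∃ a : ℤ, Un P hP.1 (z * c ^ a)) ∧
      (∀ Q (hQ : Hor π Q), Q ≠ P → Un Q hQ.1 F ∨ Un Q hQ.1 c) ∧ B F c = 0 := by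
  obtain ⟨t, t1, t0, ht⟩ := unif (E := E) H.inc hP
  have t2 := alg_ne (E := E) t0
  obtain ⟨h, h1, h0, h2, h3⟩ := pick hP.1 t1 t0 ht
    (finite_minimalPrimes_of_isNoetherianRing D (span {π})) (fun Q hQ => hQ.isPrime)
    fun Q hQ => hor_not_le hP hQ
  obtain ⟨g0, s1⟩ := H.stein (B := B) h0 one_ne_zero h3
  have f1 : Lev π (n + 1) (algebraMap D E (h + π ^ (n + 1) * 1) / algebraMap D E h) :=
    lev_frac H.ne h0 h3
  have g1 : ∀ Q, Hor π Q → h ∈ Q → ∀ c ∉ Q, h + π ^ (n + 1) * c ∉ Q := fun Q hQ hx c hc hh =>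
    (hQ.1.mem_or_mem ((Q.add_mem_iff_right hx).1 hh)).elim
      (fun hh => hQ.2.2 (hQ.1.mem_of_pow_mem _ hh)) hc
  have g2 : ∀ Q, Hor π Q → h ∈ Q → h + π ^ (n + 1) * 1 ∉ Q := fun Q hQ hx =>
    g1 Q hQ hx 1 ((ne_top_iff_one Q).1 hQ.1.ne_top)
  generalize h + π ^ (n + 1) * 1 = g at g0 s1 f1 g2
  obtain ⟨c, -, c0, c2, c3⟩ := pick hP.1 t1 t0 ht
    ((((fin_bad H.inc hF).union ((fin_hor H.inc h0).union (fin_hor H.inc g0)))).sdiff (t := {P}))
    (fun Q hQ => hQ.1.elim (·.1.1) fun hQ => hQ.elim (·.1.1) (·.1.1)) fun Q hQ hle => by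
      have hQ' : Hor π Q := hQ.1.elim (·.1) fun hQ => hQ.elim (·.1) (·.1)
      exact hQ.2 (H.inc P Q hP.1 hQ'.1 hP.2.1 hQ'.2.2 hle).symm
  have c4 : ∀ Q (hQ : Hor π Q), Q ≠ P → c ∈ Q → Un Q hQ.1 F ∧ h ∉ Q ∧ g ∉ Q := fun Q hQ hne hc =>
    ⟨by_contra fun hh => c3 Q ⟨Or.inl ⟨hQ, hh⟩, hne⟩ hc,
      fun hh => c3 Q ⟨Or.inr (Or.inl ⟨hQ, hh⟩), hne⟩ hc,
      fun hh => c3 Q ⟨Or.inr (Or.inr ⟨hQ, hh⟩), hne⟩ hc⟩
  obtain ⟨G0, s2⟩ := H.stein (B := B) h0 c0 h3
  have f2 : Lev π (n + 1) (algebraMap D E (h + π ^ (n + 1) * c) / algebraMap D E h) :=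
    lev_frac H.ne h0 h3
  have a0 := alg_ne (E := E) h0
  have a1 := alg_ne (E := E) c0
  have a2 := div_ne_zero (alg_ne (E := E) g0) a0
  have a3 := div_ne_zero (alg_ne (E := E) G0) a0
  have a4 := div_ne_zero a1 a0
  have s3 := H.stepC (div_ne_zero a2 a3)
    (by rw [div_eq_mul_inv]; exact f1.mul H.ne (by omega) (f2.inv H.ne (by omega))) a4
    fun Q hQ => by
      by_cases hne : Q = P
      · subst hne
        exact Or.inr (div_div_div_cancel_right₀ t2 _ _ ▸ c2.div h2)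
      · rw [div_div_div_cancel_right₀ a0]
        by_cases hh : h ∈ Q
        · exact Or.inl ((un_alg (g2 Q hQ hh)).div
            (un_alg (g1 Q hQ hh c fun hc => (c4 Q hQ hne hc).2.1 hh)))
        · by_cases hc : c ∈ Q
          · exact Or.inl ((un_alg (c4 Q hQ hne hc).2.2).div
              (un_alg fun hx => hh ((Q.add_mem_iff_left (Q.mul_mem_left _ hc)).1 hx)))
          · exact Or.inr ((un_alg hc).div (un_alg hh))
  rw [H.div_l a2 a3 a4, s2, sub_zero, H.div_r a2 a1 a0] at s3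
  rw [map_one, H.div_r a2 one_ne_zero a0, H.one_r a2, zero_sub, neg_eq_zero] at s1
  rw [s1, sub_zero] at s3
  obtain ⟨a, ha⟩ := ht F hF
  have a5 := zpow_ne_zero (-a) a2
  have s4 := H.stepC (mul_ne_zero hF a5)
    (hL.mul H.ne (by omega) (f1.zpow H.ne (by omega) _)) a1 fun Q hQ => by
      by_cases hne : Q = P
      · subst hne
        have := ha.mul (((un_alg (g2 Q hQ h1)).div h2).zpow (-a))
        rw [div_div_eq_mul_div, mul_div_right_comm, mul_zpow, mul_mul_mul_comm,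
          ← zpow_add₀ t2, add_neg_cancel, zpow_zero, mul_one] at this
        exact Or.inl this
      · by_cases hc : c ∈ Q
        · have := c4 Q hQ hne hc
          exact Or.inl (this.1.mul (((un_alg this.2.2).div (un_alg this.2.1)).zpow _))
        · exact Or.inr (un_alg hc)
  rw [H.ml _ _ _ hF a5 a1, H.anti a1 a5 (H.zpow_r a1 a2 (H.anti a2 a1 s3) _), add_zero] at s4
  refine ⟨_, a1, fun z hz => ?_, fun Q hQ hne => ?_, s4⟩
  · obtain ⟨b, hb⟩ := ht z hz
    refine ⟨b, ?_⟩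
    have := hb.mul (c2.zpow b)
    rwa [div_zpow, mul_assoc, mul_div_cancel₀ _ (zpow_ne_zero _ t2)] at this
  · by_cases hc : c ∈ Q
    · exact Or.inl (c4 Q hQ hne hc).1
    · exact Or.inr (un_alg hc)

lemma Hyp.deep (H : Hyp π n B) (hF : F ≠ 0) (hL : Lev π (n + 1) F) {u : E} (hu : u ≠ 0) :
    B F u = 0 := by
  have key : ∀ T : Set (Ideal D), T.Finite → ∀ u : E, u ≠ 0 →
      (∀ P (hP : Hor π P), P ∉ T → Un P hP.1 F ∨ Un P hP.1 u) → B F u = 0 := by
    intro T hT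
    induction T, hT using Set.Finite.induction_on with
    | empty => exact fun u hu h => H.stepC hF hL hu fun P hP => h P hP (Set.notMem_empty _)
    | @insert P T _ _ ih =>
      intro u hu h
      by_cases hP : Hor π P
      · obtain ⟨c, c0, c1, c2, c3⟩ := H.stepZ hF hL hP
        obtain ⟨a, ha⟩ := c1 u hu
        have a0 := zpow_ne_zero a c0
        have := ih _ (mul_ne_zero hu a0) fun Q hQ hT => by
          by_cases hne : Q = P
          · subst hne; exact Or.inr ha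
          · exact (h Q hQ fun hh => hh.elim hne hT).elim Or.inl fun h1 =>
              (c2 Q hQ hne).imp_right fun h2 => h1.mul (h2.zpow a)
        rwa [H.mr _ _ _ hF hu a0, H.zpow_r hF c0 c3, add_zero] at this
      · exact ih u hu fun Q hQ hT => h Q hQ fun hh => hh.elim (fun e => hP (e ▸ hQ)) hT
  exact key _ (fin_bad H.inc hF) u hu fun P hP h => Or.inl (by_contra fun hh => h ⟨hP, hh⟩)

lemma one_add_pow {R : Type*} [CommRing R] (W : R) (k : ℕ) :
    ∃ f, (1 + W) ^ k = 1 + k * W + W ^ 2 * f := by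
  induction k with
  | zero => exact ⟨0, by simp⟩
  | succ k ih =>
    obtain ⟨f, hf⟩ := ih
    exact ⟨k + f * (1 + W), by rw [pow_succ, hf]; push_cast; ring⟩

/-- The binomial estimate behind the level trick. -/
lemma binom {R : Type*} [CommRing R] (p : ℕ) (t y : R) (r : ℕ) :
    ∃ e, (1 + p * t * y) ^ p ^ r = 1 + p ^ r * (p * t * y) * (1 + t * e) := by
  induction r with
  | zero => exact ⟨0, by simp⟩
  | succ r ih =>
    obtain ⟨e, he⟩ := ih
    obtain ⟨f, hf⟩ := one_add_pow ((p : R) ^ r * (p * t * y) * (1 + t * e)) p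
    exact ⟨e + p ^ r * y * (1 + t * e) ^ 2 * f, by rw [pow_succ, pow_mul, he, hf]; ring⟩

lemma Hyp.main (H : Hyp π n B) {p r : ℕ} (hn : (p : D) ^ r * p * π ∣ π ^ n)
    (hq : ∀ c : C, p ^ r • c = 0) (hF : F ≠ 0) (hL : Lev π n F) {u : E} (hu : u ≠ 0) :
    B F u = 0 := by
  obtain ⟨a, ha⟩ := hn
  have n1 : 1 ≤ n := by
    rcases n with _ | n
    · exact absurd (IsUnit.of_mul_eq_one ((p : D) ^ r * p * a)
        (by rw [pow_zero] at ha; rw [ha]; ring)) H.nu
    · omega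
  have p0 := alg_ne (E := E) H.ne
  have ha' : algebraMap D E π ^ n = (p : E) ^ r * p * algebraMap D E π * algebraMap D E a := by
    rw [← map_pow, ha]; simp
  set z := (F - 1) / algebraMap D E π ^ n with hz
  have e : F = 1 + algebraMap D E π ^ n * z := by rw [hz]; field_simp; ring
  set g := 1 + p * algebraMap D E π * (algebraMap D E a * z) with hg
  have h1 : Lev π (n + 1) (g ^ p ^ r / F) := by
    intro Q hQ
    obtain ⟨f, hf⟩ := binom (R := Oq E Q hQ.isPrime) p ⟨_, alg_mem π⟩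
      (⟨_, alg_mem a⟩ * ⟨z, hL Q hQ⟩) r
    have h2 := congrArg Subtype.val hf
    push_cast at h2
    have h3 : (g ^ p ^ r / F - 1) / algebraMap D E π ^ (n + 1) = z * f * F⁻¹ := by
      rw [hg, h2]
      field_simp
      rw [pow_succ]
      linear_combination (-1 : E) * e - (z * (1 + algebraMap D E π * f)) * ha'
    rw [h3]
    exact mul_mem (mul_mem (hL Q hQ) f.2) (lev_un H.ne (ver_mem hQ) n1 (hL Q hQ)).2.2
  obtain ⟨Q, hQ⟩ := (span {π}).nonempty_minimalPrimes (by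
    rw [Ne, span_singleton_eq_top]; exact H.nu)
  have h4 := (lev_un H.ne (ver_mem hQ) (by omega) (h1 Q hQ)).1
  have h5 : g ^ p ^ r ≠ 0 := fun e => h4 (by rw [e, zero_div])
  have h6 := H.deep h4 h1 hu
  by_cases h7 : g = 0
  · have h8 : p ^ r = 0 := by
      by_contra h8
      exact h5 (by rw [h7, zero_pow h8])
    have h9 : (p : E) ^ r = 0 := by rw [← Nat.cast_pow, h8, Nat.cast_zero]
    exact absurd (by rw [ha', h9]; simp) (pow_ne_zero n p0)
  · rwa [H.div_l h5 hF hu, H.pow_l h7 hu, hq, zero_sub, neg_eq_zero] at h6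

end Gabs

open Ideal in
/-- The abstract vanishing lemma. -/
theorem gabs {D E C : Type*} [CommRing D] [IsDomain D] [IsNoetherianRing D] [IsIntegrallyClosed D]
    [Field E] [Algebra D E] [IsFractionRing D E] [AddCommGroup C] (π : D) (n p r : ℕ)
    (h0 : π ≠ 0) (h1 : ¬ IsUnit π) (hn : (p : D) ^ r * p * π ∣ π ^ n)
    (hq : ∀ c : C, p ^ r • c = 0)
    (hinc : ∀ P Q : Ideal D, P.IsPrime → Q.IsPrime → P ≠ ⊥ → π ∉ Q → P ≤ Q → P = Q)
    (B : Eˣ → Eˣ → C) (hl : ∀ a b c, B (a * b) c = B a c + B b c)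
    (hr : ∀ a b c, B a (b * c) = B a b + B a c)
    (hst : ∀ a b : Eˣ, (a : E) + b = 1 → B a b = 0)
    (hP3 : ∀ (k : ℕ) (h₁ h₂ c₁ c₂ : D) (F₁ F₂ : Eˣ), h₁ ≠ 0 → h₂ ≠ 0 → π ^ k ∈ span {h₁, h₂} →
      (F₁ : E) * algebraMap D E h₁ = algebraMap D E (h₁ + π ^ (n + k) * c₁) →
      (F₂ : E) * algebraMap D E h₂ = algebraMap D E (h₂ + π ^ (n + k) * c₂) → B F₁ F₂ = 0)
    (hstar : ∀ (h c u : D) (F : Eˣ) (K : ℕ), (∀ Q ∈ (span {π}).minimalPrimes, h ∉ Q) →
      (F : E) * algebraMap D E h = algebraMap D E (h + π ^ (n + 1) * c) → n ≤ K →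
      u ∉ span {π ^ K} →
      ∃ s : D, ∀ U : Eˣ, (U : E) = algebraMap D E (u + π ^ K * s) → B F U = 0)
    (F : Eˣ) (hF : ∀ Q ∈ (span {π}).minimalPrimes, ∃ c h : D, h ∉ Q ∧
      (F : E) * algebraMap D E h = algebraMap D E (h + π ^ n * c)) (u : Eˣ) : B F u = 0 := by
  classical
  let B' : E → E → C := fun a b =>
    if h : a ≠ 0 ∧ b ≠ 0 then B (Units.mk0 a h.1) (Units.mk0 b h.2) else 0
  have e : ∀ a b (ha : a ≠ 0) (hb : b ≠ 0), B' a b = B (Units.mk0 a ha) (Units.mk0 b hb) :=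
    fun a b ha hb => dif_pos ⟨ha, hb⟩
  have H : Gabs.Hyp π n B' := by
    refine ⟨h0, h1, hinc, fun a b c ha hb hc => ?_, fun a b c ha hb hc => ?_,
      fun a b ha hb h => ?_, fun k h₁ h₂ c₁ c₂ F₁ F₂ a1 a2 a3 a4 a5 a6 a7 => ?_,
      fun h c u F K a1 a2 a3 a4 a5 => ?_⟩
    · rw [e _ _ (mul_ne_zero ha hb) hc, e _ _ ha hc, e _ _ hb hc, Units.mk0_mul, hl]
    · rw [e _ _ ha (mul_ne_zero hb hc), e _ _ ha hc, e _ _ ha hb, Units.mk0_mul, hr]
    · rw [e _ _ ha hb]; exact hst _ _ h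
    · rw [e _ _ a1 a2]; exact hP3 k h₁ h₂ c₁ c₂ _ _ a3 a4 a5 a6 a7
    · obtain ⟨s, hs⟩ := hstar h c u (Units.mk0 F a1) K a2 a3 a4 a5
      exact ⟨s, by rw [e _ _ a1 (Gabs.alg_ne (Gabs.star_ne a5))]; exact hs _ rfl⟩
  have := H.main hn hq F.ne_zero (fun Q hQ => by
    obtain ⟨c, h, a1, a2⟩ := hF Q hQ
    refine ⟨h, c, a1, ?_⟩
    have := Gabs.alg_ne (E := E) h0
    rw [map_add, map_mul, map_pow] at a2
    field_simp
    linear_combination a2) u.ne_zero
  rwa [e _ _ F.ne_zero u.ne_zero, Units.mk0_val, Units.mk0_val] at this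

end Pool.Agent.KEW

end MrgPart3

-- ======== part 4: formerly Pool.Agent.MP_55d974_ag.kew.GStepA
section MrgPart4

/-! Valuation lemmas for the induction step of the vanishing statement. -/

namespace Pool.Agent.KEW.GS

open IsLocalRing LB

variable {E k : Type} [Field E] [Field k]

lemma le_IC (S : Subring E) : S ≤ IC S := fun x hx =>
  isIntegral_algebraMap (R := S) (A := E) (x := ⟨x, hx⟩)

lemma int_mem {S : Subring E} (φ : IC S →+* k) (ν : ValuationSubring k)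
    (h : ∀ s : IC S, s.1 ∈ S → φ s ∈ ν) (x : IC S) : φ x ∈ ν := by
  obtain ⟨p, h1, h2⟩ : IsIntegral S x.1 := x.2
  let ι : S →+* IC S := Subring.inclusion (le_IC S)
  let ψ : S →+* ν := (φ.comp ι).codRestrict ν fun s => h _ s.2
  have h3 : p.eval₂ ι x = 0 := Subtype.ext (by
    have := Polynomial.hom_eval₂ p ι (IC S).subtype x
    exact this.trans h2)
  have h4 : IsIntegral ν (φ x) := ⟨p.map ψ, h1.map ψ, by
    rw [Polynomial.eval₂_map]
    have := Polynomial.hom_eval₂ p ι φ x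
    rw [h3, map_zero] at this
    exact this.symm⟩
  obtain ⟨y, hy⟩ := IsIntegrallyClosed.algebraMap_eq_of_integral h4
  exact hy ▸ y.2

lemma IC_le {S : Subring E} (V : ValuationSubring E) (h : ∀ s ∈ S, s ∈ V) (x : IC S) : x.1 ∈ V :=
  int_mem (IC S).subtype V (fun _ hs => h _ hs) x

/-- `F = 1 + c / h` with `c / h` divisible by `c₀` at `ν` after reduction along `φ`. -/
def Gd {D : Subring E} (φ : D →+* k) (ν : ValuationSubring k) (c₀ : k) (F : Eˣ) : Prop :=
  ∃ c h : D, φ h ≠ 0 ∧ Fr F c h ∧ φ c / φ h / c₀ ∈ ν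

lemma Gd.comp {R D : Subring E} (hle : R ≤ D) {φ : D →+* k} {ν : ValuationSubring k} {c₀ : k}
    {F : Eˣ} (h : Gd (φ.comp (Subring.inclusion hle)) ν c₀ F) : Gd φ ν c₀ F := by
  obtain ⟨c, h', h1, h2, h3⟩ := h
  exact ⟨Subring.inclusion hle c, Subring.inclusion hle h', h1, h2, h3⟩

/-- Reduction of a subring of a valuation ring. -/
noncomputable def rs (D : Subring E) (V : ValuationSubring E) (hD : ∀ x : D, x.1 ∈ V) :
    D →+* ResidueField V := (residue V).comp (D.subtype.codRestrict V hD)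

lemma gd_unit {D : Subring E} {V : ValuationSubring E} {hD : ∀ x : D, x.1 ∈ V}
    {ν : ValuationSubring (ResidueField V)} {c₀ : ResidueField V} {F : Eˣ}
    (h : Gd (rs D V hD) ν c₀ F) (h0 : c₀ ≠ 0) (h1 : c₀ ∈ ν.nonunits) :
    ∃ (w : V) (u : (ResidueField V)ˣ), (F : E) = w ∧ (u : ResidueField V) = residue V w ∧
      Ap ν c₀ u := by
  obtain ⟨c, h', a1, a2, a3⟩ := h
  obtain ⟨g, hg⟩ := ((residue_ne_zero_iff_isUnit (⟨h', hD h'⟩ : V)).1 a1).exists_right_inv
  have e1 : (g : E) = (h' : E)⁻¹ := eq_inv_of_mul_eq_one_right (congrArg Subtype.val hg)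
  have e2 : residue V g = (rs D V hD h')⁻¹ := eq_inv_of_mul_eq_one_right (by
    have := congrArg (residue V) hg
    rwa [map_mul, map_one] at this)
  have e3 : (residue V (1 + ⟨c, hD c⟩ * g) - 1) / c₀ ∈ ν := by
    rw [map_add, map_one, map_mul, e2, add_sub_cancel_left, ← div_eq_mul_inv]
    exact a3
  refine ⟨1 + ⟨c, hD c⟩ * g, Units.mk0 _ (ap_ne h1 h0 e3), ?_, rfl, e3⟩
  rw [a2.2, div_eq_mul_inv, ← e1]
  rfl

lemma k_le (m : ℕ) (c : k) : K k (m + 1) ≤ KI ∅ c := by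
  refine (AddSubgroup.closure_le _).2 ?_
  rintro _ ⟨l, hl, rfl⟩
  rcases l with _ | ⟨u, l⟩
  · simp at hl
  · rw [List.map_cons, List.prod_cons]
    exact ki_gen (fun _ h => h.elim) _

lemma tame_empty (V : ValuationSubring E) (ρ : V →+* k) (a b : Eˣ) (c : k) (γ : Kr E) :
    tame V ρ (sym a * sym b * γ) ∈ KI ∅ c := by
  refine dif_top ((KI ∅ c).comap ((tame V ρ).comp (AddMonoidHom.mulLeft (sym a * sym b))))
    (fun l => k_le l.length c (dif_pick 1 _ _ _ (AddSubgroup.subset_closure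
      ⟨a :: b :: l, rfl, ?_⟩))) γ
  simp [mul_assoc]

/-- The tame symbol of a pair of which one member is deep at each place of the residue field. -/
lemma pl_loc (hT : TameS) (hB : LocB) {D : Subring E} {V : ValuationSubring E}
    (hV : IsDiscreteValuationRing V) (hD : ∀ x : D, x.1 ∈ V)
    {S : Set (ValuationSubring (ResidueField V))} {c₀ : ResidueField V} (hS : Fam S c₀)
    {F₁ F₂ : Eˣ} (h : ∀ ν ∈ S, Gd (rs D V hD) ν c₀ F₁ ∨ Gd (rs D V hD) ν c₀ F₂) (γ : Kr E) :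
    tame V (residue V) (sym F₁ * sym F₂ * γ) ∈ KI S c₀ := by
  have hm := hT.mul V (residue V) hV inferInstance
  have ap : ∀ {F : Eˣ} {w : V} {u : (ResidueField V)ˣ}, (F : E) = w →
      (u : ResidueField V) = residue V w → ∀ ν ∈ S, Gd (rs D V hD) ν c₀ F → Ap ν c₀ u := by
    intro F w u e1 e2 ν hν hG
    obtain ⟨w', u', a1, a2, a3⟩ := gd_unit hG hS.ne (hS.non ν hν)
    rwa [show u = u' from Units.ext (by rw [e2, a2, show w = w' from Subtype.ext (e1 ▸ a1)])]
  have one : ∀ {F : Eˣ}, S.Nonempty → (∀ ν ∈ S, Gd (rs D V hD) ν c₀ F) →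
      ∀ β, tame V (residue V) (sym F * β) ∈ KI S c₀ := by
    rintro F ⟨ν, hν⟩ hG β
    obtain ⟨w, u, a1, a2, -⟩ := gd_unit (hG ν hν) hS.ne (hS.non ν hν)
    rw [hm w F u a1 a2]
    exact neg_mem (ki_gen (fun ν hν => ap a1 a2 ν hν (hG ν hν)) _)
  rcases S.eq_empty_or_nonempty with rfl | hne
  · exact tame_empty _ _ _ _ _ _
  by_cases h1 : ∀ ν ∈ S, Gd (rs D V hD) ν c₀ F₁
  · rw [mul_assoc]; exact one hne h1 _
  by_cases h2 : ∀ ν ∈ S, Gd (rs D V hD) ν c₀ F₂
  · rw [s_anti, k_neg_mul, map_neg, mul_assoc]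
    exact neg_mem (one hne h2 _)
  push Not at h1 h2
  obtain ⟨ν₁, a1, a2⟩ := h1
  obtain ⟨ν₂, b1, b2⟩ := h2
  obtain ⟨w, u, c1, c2, -⟩ := gd_unit ((h ν₂ b1).resolve_right b2) hS.ne (hS.non _ b1)
  obtain ⟨w', u', d1, d2, -⟩ := gd_unit ((h ν₁ a1).resolve_left a2) hS.ne (hS.non _ a1)
  rw [mul_assoc, hm w F₁ u c1 c2, hm w' F₂ u' d1 d2, k_mul_neg, neg_neg, ← mul_assoc]
  exact hB.orth S {ν | Ap ν c₀ u} c₀ hS u u' _ (fun _ _ h => h) fun ν hν hn =>
    ap d1 d2 ν hν ((h ν hν).resolve_left fun hG => hn (ap c1 c2 ν hν hG))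

lemma val_or {ν : ValuationSubring k} {x a b h h' : k} (e : x = a * h + b * h') (hx : x ≠ 0)
    (ha : a ∈ ν) (hb : b ∈ ν) : (h ≠ 0 ∧ x / h ∈ ν) ∨ (h' ≠ 0 ∧ x / h' ∈ ν) := by
  by_cases h0 : h = 0
  · rw [h0, mul_zero, zero_add] at e
    have h1 : h' ≠ 0 := fun h1 => hx (by rw [e, h1, mul_zero])
    exact Or.inr ⟨h1, by rwa [e, mul_div_cancel_right₀ _ h1]⟩
  by_cases h1 : h' = 0
  · exact Or.inl ⟨h0, by rwa [e, h1, mul_zero, add_zero, mul_div_cancel_right₀ _ h0]⟩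
  rcases ν.mem_or_inv_mem (h' / h) with h2 | h2
  · refine Or.inl ⟨h0, ?_⟩
    rw [show x / h = a + b * (h' / h) by rw [e]; field_simp]
    exact add_mem ha (mul_mem hb h2)
  · refine Or.inr ⟨h1, ?_⟩
    rw [show x / h' = a * (h' / h)⁻¹ + b by rw [e]; field_simp]
    exact add_mem (mul_mem ha h2) hb

variable {D : Subring E} {φ : D →+* k} {ν : ValuationSubring k} {π : D} {n : ℕ}

lemma gd_of (hφ : ∀ x, φ x ∈ ν) (h0 : φ π ≠ 0) {F : Eˣ} {c h : D} {m : ℕ}
    (hF : Fr F ((π : E) ^ (n + m) * c) h) (h1 : φ h ≠ 0) (h2 : φ π ^ m / φ h ∈ ν) :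
    Gd φ ν (φ π ^ n) F := by
  refine ⟨π ^ (n + m) * c, h, h1, by simpa using hF, ?_⟩
  rw [show φ (π ^ (n + m) * c) / φ h / φ π ^ n = φ c * (φ π ^ m / φ h) by
    rw [map_mul, map_pow, pow_add]; field_simp]
  exact mul_mem (hφ c) h2

lemma p3_loc (hφ : ∀ x, φ x ∈ ν) (h0 : φ π ≠ 0) {F G : Eˣ} {c h c' h' : D} {m : ℕ}
    (hm : π ^ m ∈ Ideal.span {h, h'}) (hF : Fr F ((π : E) ^ (n + m) * c) h)
    (hG : Fr G ((π : E) ^ (n + m) * c') h') : Gd φ ν (φ π ^ n) F ∨ Gd φ ν (φ π ^ n) G := by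
  obtain ⟨a, b, e⟩ := Ideal.mem_span_pair.1 hm
  have e' : φ π ^ m = φ a * φ h + φ b * φ h' := by
    rw [← map_pow, ← e, map_add, map_mul, map_mul]
  exact (val_or e' (pow_ne_zero _ h0) (hφ a) (hφ b)).imp
    (fun h => gd_of hφ h0 hF h.1 h.2) fun h => gd_of hφ h0 hG h.1 h.2

lemma star_loc (hφ : ∀ x, φ x ∈ ν) (h0 : φ π ≠ 0) (h1 : φ π ∈ ν.nonunits) {F G : Eˣ}
    {c h t t' u₁ u₂ : D} {N K : ℕ} (ht : φ t' ≠ 0) (ht' : (φ t')⁻¹ ∈ ν)
    (hm : (t * t') ^ N ∈ Ideal.span {h, π}) (hF : Fr F ((π : E) ^ (n + 1) * c) h)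
    (hG : Fr G ((t ^ (N * (K + n + 1)) * (u₁ - u₂) : D) : E)
      ((π ^ K + t ^ (N * (K + n + 1)) * u₂ : D) : E)) :
    Gd φ ν (φ π ^ n) F ∨ Gd φ ν (φ π ^ n) G := by
  by_cases hh : φ h ≠ 0 ∧ φ π ^ 1 / φ h ∈ ν
  · exact Or.inl (gd_of hφ h0 hF hh.1 hh.2)
  right
  have a1 : φ h / φ π ∈ ν := by
    by_cases h2 : φ h = 0
    · rw [h2, zero_div]; exact zero_mem _
    · refine (ν.mem_or_inv_mem _).resolve_right fun h3 => hh ⟨h2, ?_⟩
      rwa [pow_one, ← inv_div]
  obtain ⟨a, b, e⟩ := Ideal.mem_span_pair.1 hm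
  have e' : φ t ^ N / φ π = (φ a * (φ h / φ π) + φ b) * (φ t')⁻¹ ^ N := by
    have := congrArg φ e
    rw [map_add, map_mul, map_mul, map_pow, map_mul, mul_pow] at this
    field_simp
    rw [one_div, inv_pow]
    field_simp
    linear_combination -this
  have a2 : φ t ^ N / φ π ∈ ν :=
    e' ▸ mul_mem (add_mem (mul_mem (hφ a) a1) (hφ b)) (pow_mem ht' _)
  obtain ⟨z, hz, e2⟩ : ∃ z ∈ ν, φ t ^ (N * (K + n + 1)) = φ π ^ (K + n + 1) * z :=
    ⟨_, pow_mem a2 (K + n + 1), by rw [pow_mul, div_pow]; field_simp⟩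
  have a3 : ((1 + φ π ^ (n + 1) * z * φ u₂) - 1) / φ π ∈ ν := by
    rw [show ((1 + φ π ^ (n + 1) * z * φ u₂) - 1) / φ π = φ π ^ n * z * φ u₂ by field_simp; ring]
    exact mul_mem (mul_mem (pow_mem (hφ π) _) hz) (hφ _)
  have a4 := ap_ne h1 h0 a3
  have e3 : φ (π ^ K + t ^ (N * (K + n + 1)) * u₂) = φ π ^ K * (1 + φ π ^ (n + 1) * z * φ u₂) := by
    rw [map_add, map_mul, map_pow, map_pow, e2]; ring
  refine ⟨_, _, ?_, hG, ?_⟩
  · rw [e3]; exact mul_ne_zero (pow_ne_zero _ h0) a4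
  · rw [e3, map_mul, map_pow, e2, show φ π ^ (K + n + 1) * z * φ (u₁ - u₂) /
      (φ π ^ K * (1 + φ π ^ (n + 1) * z * φ u₂)) / φ π ^ n =
      φ π * z * φ (u₁ - u₂) * (1 + φ π ^ (n + 1) * z * φ u₂)⁻¹ by field_simp; ring]
    exact mul_mem (mul_mem (mul_mem (hφ π) hz) (hφ _)) (ap_inv_mem h1 h0 a3)

end Pool.Agent.KEW.GS

end MrgPart4

-- ======== part 5: formerly Pool.Agent.MP_55d974_ag.kew.GStep
section MrgPart5

/-! The induction step of the vanishing statement. -/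

open AlgebraicGeometry CategoryTheory TopologicalSpace Opposite Pool.Agent.MP_55d974_ag IsLocalRing

namespace Pool.Agent.KEW

noncomputable section

open Classical

variable {A C : Type} [CommRing A] [AddCommGroup C] {X : Scheme.{0}}

/-- The properties of the functionals `τ y = Λ (y :: x :: l)` of the previous level. -/
structure Tau (f : X ⟶ Spec (.of A)) (π : A) (d n : ℕ) (x : X) (j : ℕ) (τ : X → Ch X →+ C) :
    Prop where
  s : ∀ y w β, τ y (DFinsupp.single w β) ≠ 0 →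
    Hor f π w ∧ dl d w = j + 1 ∧ w ⤳ y ∧ y ⤳ x ∧ dl d y = j ∧ ¬ Hor f π y
  u : ∀ y w (F : (X.residueField w)ˣ) γ, (∀ V, Pl w y V → Ap V (aK f w π ^ n) F) →
    τ y (DFinsupp.single w (sym F * γ)) = 0
  z : ∀ y w, τ y (DFinsupp.single w 1) = 0
  r : ∀ w β y, Hor f π w → dl d w = j + 2 →
    (∀ y', y' ≠ y → τ y' (DD X (DFinsupp.single w β)) = 0) → τ y (DD X (DFinsupp.single w β)) = 0

namespace GS

open LB

variable {f : X ⟶ Spec (.of A)} {π : A} {d n p q j : ℕ} {x y w : X} {τ : X → Ch X →+ C}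

lemma map_eq_zero (t : Ch X →+ C) (c : Ch X) (h : ∀ w, t (DFinsupp.single w (c w)) = 0) :
    t c = 0 := by
  rw [← DFinsupp.sum_single (f := c), DFinsupp.sum, map_sum]
  exact Finset.sum_eq_zero fun w _ => h w

lemma red (G : Geo f π d) (T : Tau f π d n x j τ) {β : Kr (X.residueField w)}
    (H : ∀ w' V (P : Pl w w' V), Hor f π w' → dl d w' = j + 1 → dl d w = dl d w' + 1 → w' ⤳ y →
      y ⤳ x → dl d y = j → ¬ Hor f π y →
      τ y (DFinsupp.single w' (nrm (rk P) (tame V (residue V) β))) = 0) :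
    τ y (DD X (DFinsupp.single w β)) = 0 := by
  refine map_eq_zero _ _ fun w' => ?_
  rw [G.dif.single]
  refine G.dif.ind w w' β ((τ y).comp (DFinsupp.singleAddHom _ w')).ker fun V P h => ?_
  by_contra h0
  obtain ⟨a1, a2, a3, a4, a5, a6⟩ := T.s y w' _ h0
  exact h0 (H w' V P a1 a2 h a3 a4 a5 a6)

lemma deg_one (G : Geo f π d) (T : Tau f π d n x j τ) (F : (X.residueField w)ˣ) :
    τ y (DD X (DFinsupp.single w (sym F))) = 0 := by
  refine map_eq_zero _ _ fun w' => ?_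
  rw [G.dif.single]
  have h := G.dif.mem w w' 0 (sym F) (AddSubgroup.subset_closure ⟨[F], rfl, by simp⟩)
  refine (AddSubgroup.closure_le ((τ y).comp (DFinsupp.singleAddHom _ w')).ker).2 ?_ h
  rintro _ ⟨l, hl, rfl⟩
  rw [List.length_eq_zero_iff.1 hl]
  exact T.z y w'

/-- The structure map to the normalisation. -/
def aD (G : Geo f π d) (h : w ⤳ y) : A →+* IC (O h) :=
  (aK f w).codRestrict _ fun c => le_IC _ ⟨_, G.dim.ak h c⟩

lemma fam (G : Geo f π d) (hw : Hor f π w) (hy : ¬ Hor f π y) (e : dl d y + 1 = dl d w) :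
    Fam {V | Pl w y V} (aK f w π) :=
  have F := G.plf.fam w hw
  ⟨F.fin.subset fun _ h => ⟨y, hy, e, h⟩, fun V h => F.dvr V ⟨y, hy, e, h⟩, F.ne,
    fun V h => F.non V ⟨y, hy, e, h⟩⟩

lemma lv_pos (L : Lv π p q n) (h : ¬ IsUnit π) : ∃ m, n = m + 1 := by
  rcases n with _ | m
  · obtain ⟨a, ha⟩ := L.lev
    exact absurd (IsUnit.of_mul_eq_one ((q : A) * p * a)
      (by rw [pow_zero] at ha; rw [ha]; ring)) h
  · exact ⟨m, rfl⟩

lemma nu_unit (G : Geo f π d) (h : w ⤳ y) (k : y ⤳ x) {s : X.residueField w}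
    (hs : s ∈ O (h.trans k)) : ¬ Nu h s ↔ s ≠ 0 ∧ s⁻¹ ∈ O h :=
  G.pts.nu h s (G.pts.le h k hs)

lemma not_unit (G : Geo f π d) (h : w ⤳ y) (hw : Hor f π w) (hy : ¬ Hor f π y) :
    ¬ IsUnit (aD G h π) := by
  intro hu
  have h1 : aK f w π ∈ O h := ⟨_, G.dim.ak h π⟩
  have := Algebra.IsIntegral.isLocalHom (R := O h) (S := integralClosure (O h) (X.residueField w))
  have h2 : IsUnit (⟨_, h1⟩ : O h) :=
    IsUnit.of_map (algebraMap (O h) (integralClosure (O h) (X.residueField w))) _ hu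
  obtain ⟨b, hb⟩ := h2.exists_right_inv
  refine (G.pts.nu h _ h1).2 ⟨hw, ?_⟩ ((G.dim.nu h).2 hy)
  rw [← eq_inv_of_mul_eq_one_right (congrArg Subtype.val hb)]
  exact b.2

section

variable [CharZero A] (G : Geo f π d) (hT : TameS) (hN : NnS) (hB : LocB) (hE : ExtS)
  (L : Lv π p q n) (hπ : ¬ IsUnit π) (hq : ∀ c : C, q • c = 0) (T : Tau f π d n x j τ)
include G hT hN hB hE L hπ hq T

/-- Pairs of which one member is deep at each place over `y` are killed. -/
lemma pl {F₁ F₂ : (X.residueField w)ˣ} (γ : Kr (X.residueField w))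
    (H : ∀ h : w ⤳ y, y ⤳ x → dl d y = j → ∀ (k : Type) [Field k] (φ : IC (O h) →+* k)
      (ν : ValuationSubring k), (∀ a, φ a ∈ ν) → φ (aD G h π) ≠ 0 → φ (aD G h π) ∈ ν.nonunits →
      Gd φ ν (φ (aD G h π) ^ n) F₁ ∨ Gd φ ν (φ (aD G h π) ^ n) F₂) :
    τ y (DD X (DFinsupp.single w (sym F₁ * sym F₂ * γ))) = 0 := by
  refine red G T fun w' V P a1 a2 a3 h' a5 a6 a7 => ?_
  have h := P.sp.trans h'
  have : CharZero (X.residueField w') := charZero_of_injective_ringHom (G.dim.inj w' a1)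
  have f1 := fam G a1 a7 (by omega)
  have f2 := G.plf.res w w' V P a1 a3.symm
  have f3 := hE (rk P) f2 _ _ f1
  have hD : ∀ a : IC (O h), a.1 ∈ V := IC_le V fun s hs => by
    obtain ⟨a, rfl⟩ := G.pts.le P.sp h' hs
    exact P.mem a
  have e : rs _ V hD (aD G h π) = rk P (aK f w' π) := by
    rw [← G.dim.ak h', ← G.pts.rk_gz P h' _ (by rw [G.dim.ak]; exact G.plf.mem P π)]
    exact congrArg (residue V) (Subtype.ext (G.dim.ak h π).symm)
  obtain ⟨m, hm⟩ := lv_pos L hπ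
  have f4 := fam_pow f3 m
  rw [← hm] at f4
  have t1 := pl_loc hT hB P.dvr hD f4 (F₁ := F₁) (F₂ := F₂) (fun ν hν => by
    rw [← e]
    refine H h a5 a6 _ _ ν (int_mem _ ν ?_) (e ▸ f3.ne) (e ▸ f3.non ν hν)
    rintro ⟨_, hs⟩ ⟨a, rfl⟩
    have := G.pts.rk_gz P h' a (hD ⟨_, hs⟩)
    exact (show rs _ V hD ⟨_, hs⟩ = _ from this) ▸ Pl.mem hν a) γ
  obtain ⟨y₀, b1, z, b2⟩ := hN π p q n (aK f w') (rk P) _ L f2 f1
    (fun V hV => G.plf.mem hV) _ t1
  have b3 : y₀ ∈ ((τ y).comp (DFinsupp.singleAddHom _ w')).ker := by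
    refine (AddSubgroup.closure_le _).2 ?_ b1
    rintro _ ⟨F, γ, hF, rfl⟩
    exact T.u y w' F γ hF
  change ((τ y).comp (DFinsupp.singleAddHom _ w')) _ = 0
  rw [b2, map_add, map_nsmul, hq, add_zero]
  exact b3

lemma p3 (h : w ⤳ y) {F₁ F₂ : (X.residueField w)ˣ} (γ : Kr (X.residueField w))
    {c₁ h₁ c₂ h₂ : IC (O h)} {m : ℕ} (hm : aD G h π ^ m ∈ Ideal.span {h₁, h₂})
    (e₁ : Fr F₁ ((aD G h π : X.residueField w) ^ (n + m) * c₁) h₁)
    (e₂ : Fr F₂ ((aD G h π : X.residueField w) ^ (n + m) * c₂) h₂) :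
    τ y (DD X (DFinsupp.single w (sym F₁ * sym F₂ * γ))) = 0 :=
  pl G hT hN hB hE L hπ hq T γ fun _ _ _ _ _ _ _ a1 a2 _ => p3_loc a1 a2 hm e₁ e₂

end

/-- A prime containing `π` and the denominator lies over `y` or does not survive at `y`. -/
lemma dich (G : Geo f π d) (h : w ⤳ y) (k : y ⤳ x) (hw : Hor f π w) (e : dl d w = dl d y + 2)
    {h₁ : IC (O (h.trans k))} (hmin : ∀ P ∈ (Ideal.span {aD G h π}).minimalPrimes,
      Subring.inclusion (G.nrm.sub h k).1 h₁ ∉ P)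
    (Q : Ideal (IC (O (h.trans k)))) (hQ : Q.IsPrime) (q1 : h₁ ∈ Q)
    (q2 : aD G (h.trans k) π ∈ Q) :
    (∀ b : IC (O (h.trans k)), b.1 ∈ O (h.trans k) → Nu h b → b ∈ Q) ∨
      ∃ b : IC (O (h.trans k)), b.1 ∈ O (h.trans k) ∧ ¬ Nu h b ∧ b ∈ Q := by
  rw [or_iff_not_imp_right]
  intro h0
  push Not at h0
  have h1 : ∀ b : IC (O (h.trans k)), b.1 ∈ O (h.trans k) → b ∈ Q → Nu h b :=
    fun b hb hq => by_contra fun hn => h0 b hb hn hq
  have m0 : aK f w π ∈ O (h.trans k) := ⟨_, G.dim.ak _ π⟩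
  obtain ⟨z, z1, z2⟩ := G.nrm.cen (h.trans k) Q hQ
  have z3 : z ⤳ y := G.pts.ord z1 h z2.1 k fun b hb hn =>
    h1 ⟨b, le_IC _ hb⟩ hb ((z2.2 ⟨b, le_IC _ hb⟩ hb).2 hn)
  obtain ⟨Q₀, a1, a2⟩ := Ideal.exists_minimalPrimes_le ((Ideal.span_singleton_le_iff_mem Q).2 q2)
  rcases a2.lt_or_eq with a3 | rfl
  · obtain ⟨z₀, b1, b2⟩ := G.nrm.cen (h.trans k) Q₀ a1.isPrime
    have b3 := G.nrm.lt (h.trans k) Q₀ Q b1 z1 a1.isPrime hQ a3 b2 z2
    have b4 : ¬ Hor f π z₀ := (G.dim.nu b1).1 ((b2.2 (aD G _ π) m0).1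
      ((Ideal.span_singleton_le_iff_mem _).1 a1.le))
    have b5 := G.dim.lt b1 fun e => b4 (e ▸ hw)
    have b6 : z = y := by_contra fun hne => by
      have := G.dim.lt z3 hne
      omega
    subst b6
    exact fun b hb hn => (z2.2 b hb).2 hn
  · exfalso
    let ι := Subring.inclusion (G.nrm.sub h k).1
    obtain ⟨Q', c1, c2, c3⟩ := Ideal.exists_ideal_comap_le_prime (f := ι) Q₀
      (Ideal.span {aD G h π}) fun r hr => by
        obtain ⟨a, ha⟩ := Ideal.mem_span_singleton'.1 (Ideal.mem_comap.1 hr)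
        obtain ⟨s, s1, s2, s3⟩ := (G.nrm.sub h k).2 a a.2
        have s4 : r * ⟨s, le_IC _ s1⟩ = ⟨_, s3⟩ * aD G _ π := Subtype.ext (by
          have := congrArg Subtype.val ha
          change a.1 * aK f w π = r.1 at this
          change r.1 * s = a.1 * s * aK f w π
          rw [← this]; ring)
        exact (hQ.mem_or_mem (s4 ▸ Q₀.mul_mem_left _ q2)).resolve_right
          fun hs => s2 (h1 _ s1 hs)
    obtain ⟨P, d1, d2⟩ := Ideal.exists_minimalPrimes_le c1
    have := d1.isPrime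
    refine hmin P d1 (a1.2 ⟨Ideal.comap_isPrime ι P, ?_⟩ ((Ideal.comap_mono d2).trans c3) q1)
    exact (Ideal.span_singleton_le_iff_mem _).2
      (show aD G h π ∈ P from (Ideal.span_singleton_le_iff_mem _).1 d1.le)

lemma exists_t (G : Geo f π d) (h : w ⤳ y) (k : y ⤳ x) (hw : Hor f π w) (e : dl d w = dl d y + 2)
    {h₁ : IC (O (h.trans k))} (hmin : ∀ P ∈ (Ideal.span {aD G h π}).minimalPrimes,
      Subring.inclusion (G.nrm.sub h k).1 h₁ ∉ P) :
    ∃ (t : IC (O (h.trans k))) (N : ℕ), t.1 ≠ 0 ∧ t.1⁻¹ ∈ O h ∧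
      ∀ t' : IC (O (h.trans k)), t'.1 ∈ O (h.trans k) → Nu h t' →
        (t * t') ^ N ∈ Ideal.span {h₁, aD G (h.trans k) π} := by
  have := G.nrm.noeth (h.trans k) hw
  set I := Ideal.span {h₁, aD G (h.trans k) π} with hI
  have key : ∀ S : Set (Ideal (IC (O (h.trans k)))), S.Finite → S ⊆ I.minimalPrimes →
      ∃ t : IC (O (h.trans k)), t.1 ≠ 0 ∧ t.1⁻¹ ∈ O h ∧ ∀ Q ∈ S, ∀ t' : IC (O (h.trans k)),
        t'.1 ∈ O (h.trans k) → Nu h t' → t * t' ∈ Q := by
    intro S hS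
    induction S, hS using Set.Finite.induction_on with
    | empty => exact fun _ => ⟨1, one_ne_zero, by simp, fun _ h => h.elim⟩
    | @insert Q S _ _ ih =>
      intro hs
      obtain ⟨t, t1, t2, t3⟩ := ih ((Set.subset_insert _ _).trans hs)
      have hQ := hs (Set.mem_insert _ _)
      rcases dich G h k hw e hmin Q hQ.isPrime (hQ.le (Ideal.subset_span (by simp)))
        (hQ.le (Ideal.subset_span (by simp))) with a | ⟨b, b1, b2, b3⟩
      · refine ⟨t, t1, t2, ?_⟩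
        rintro Q' (rfl | hQ') t' a1 a2
        · exact Q'.mul_mem_left _ (a t' a1 a2)
        · exact t3 Q' hQ' t' a1 a2
      · obtain ⟨b4, b5⟩ := (nu_unit G h k b1).1 b2
        refine ⟨b * t, mul_ne_zero b4 t1, ?_, ?_⟩
        · rw [Subring.coe_mul, mul_inv]; exact mul_mem b5 t2
        · rintro Q' (rfl | hQ') t' a1 a2
          · rw [mul_assoc]; exact Q'.mul_mem_right _ b3
          · rw [mul_assoc]; exact Q'.mul_mem_left _ (t3 Q' hQ' t' a1 a2)
  obtain ⟨t, t1, t2, t3⟩ := key _ (Ideal.finite_minimalPrimes_of_isNoetherianRing _ I) le_rfl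
  obtain ⟨N, hN⟩ := Ideal.exists_radical_pow_le_of_fg I (IsNoetherian.noetherian _)
  refine ⟨t, N, t1, t2, fun t' a1 a2 => hN (Ideal.pow_mem_pow ?_ N)⟩
  rw [← Ideal.sInf_minimalPrimes, Ideal.mem_sInf]
  exact fun {Q} hQ => t3 Q hQ t' a1 a2

section

variable [CharZero A] (G : Geo f π d) (hT : TameS) (hN : NnS) (hB : LocB) (hE : ExtS)
  (L : Lv π p q n) (hπ : ¬ IsUnit π) (hq : ∀ c : C, q • c = 0) (T : Tau f π d n x j τ)
include G hT hN hB hE L hπ hq T

lemma star (h : w ⤳ y) (k : y ⤳ x) (hw : Hor f π w) (hy : ¬ Hor f π y) (e₁ : dl d y = j)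
    (e₂ : dl d w = j + 2) (γ : Kr (X.residueField w)) (F : (X.residueField w)ˣ)
    (c h₀ u : IC (O h)) (K : ℕ) (hmin : ∀ P ∈ (Ideal.span {aD G h π}).minimalPrimes, h₀ ∉ P)
    (hF : Fr F ((aD G h π : X.residueField w) ^ (n + 1) * c) h₀) (hu : ¬ aD G h π ^ K ∣ u)
    (hK : n ≤ K) : ∃ (s : IC (O h)) (U : (X.residueField w)ˣ),
      (U : X.residueField w) = u + (aD G h π : X.residueField w) ^ K * s ∧
      τ y (DD X (DFinsupp.single w (sym F * sym U * γ))) = 0 := by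
  obtain ⟨sc, c1, c2, c3⟩ := (G.nrm.sub h k).2 c c.2
  obtain ⟨sh, h1, h2, h3⟩ := (G.nrm.sub h k).2 h₀ h₀.2
  obtain ⟨su, u1, u2, u3⟩ := (G.nrm.sub h k).2 u u.2
  obtain ⟨c4, c5⟩ := (nu_unit G h k c1).1 c2
  obtain ⟨h4, h5⟩ := (nu_unit G h k h1).1 h2
  obtain ⟨u4, u5⟩ := (nu_unit G h k u1).1 u2
  let h₁ : IC (O (h.trans k)) := ⟨_, h3⟩ * ⟨sc, le_IC _ c1⟩
  let c₁ : IC (O (h.trans k)) := ⟨_, c3⟩ * ⟨sh, le_IC _ h1⟩
  let u₁ : IC (O (h.trans k)) := ⟨_, u3⟩
  let u₂ : IC (O (h.trans k)) := ⟨su, le_IC _ u1⟩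
  have hF' : Fr F ((aD G (h.trans k) π : X.residueField w) ^ (n + 1) * c₁) h₁ := by
    have := hF.1
    refine ⟨mul_ne_zero (mul_ne_zero hF.1 h4) c4, hF.2.trans ?_⟩
    change 1 + aK f w π ^ (n + 1) * c / h₀ = 1 + aK f w π ^ (n + 1) * (c * sc * sh) / (h₀ * sh * sc)
    field_simp
  obtain ⟨t, N, t1, t2, t3⟩ := exists_t G h k hw (by omega) (h₁ := h₁) fun P hP hm => hmin P hP (by
    have := P.mul_mem_right (⟨sh⁻¹, le_IC _ h5⟩ * ⟨sc⁻¹, le_IC _ c5⟩) hm
    refine (Subtype.ext ?_ : _ = h₀) ▸ this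
    change h₀.1 * sh * sc * (sh⁻¹ * sc⁻¹) = h₀.1
    field_simp)
  set M := N * (K + n + 1) with hM
  let s : IC (O h) := ⟨t.1⁻¹, le_IC _ t2⟩ ^ M * ⟨su⁻¹, le_IC _ u5⟩
  have es : (s : X.residueField w) = (t.1 ^ M * su)⁻¹ := by
    rw [mul_inv, ← inv_pow]; rfl
  obtain ⟨m, hm⟩ := lv_pos L hπ
  obtain ⟨K', hK'⟩ := Nat.exists_eq_add_of_le hK
  have g1 : (1 : X.residueField w) + (aD G h π : X.residueField w) ^ K * s ≠ 0 := fun e =>
    not_unit G h hw hy (IsUnit.of_mul_eq_one (-(aD G h π ^ (m + K') * s)) (Subtype.ext (by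
      rw [hK', hm] at e
      push_cast
      linear_combination -e)))
  have g2 : (u : X.residueField w) + (aD G h π : X.residueField w) ^ K * s ≠ 0 := fun e =>
    hu ⟨-s, Subtype.ext (by push_cast; linear_combination e)⟩
  refine ⟨s, Units.mk0 _ g2, rfl, ?_⟩
  have b1 : τ y (DD X (DFinsupp.single w (sym F * sym (Units.mk0 _ g1) * γ))) = 0 :=
    p3 G hT hN hB hE L hπ hq T h γ (m := 0) (c₁ := aD G h π * c) (h₁ := h₀)
      (c₂ := aD G h π ^ K' * s) (h₂ := 1) (Ideal.subset_span (by simp))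
      ⟨hF.1, by rw [hF.2]; push_cast; ring⟩ ⟨one_ne_zero, by rw [Units.val_mk0, hK']; push_cast; ring⟩
  have b2 : τ y (DD X (DFinsupp.single w
      (sym F * sym (Units.mk0 _ g2 / Units.mk0 _ g1) * γ))) = 0 := by
    refine T.r _ _ _ hw e₂ fun y' hne =>
      pl G hT hN hB hE L hπ hq T γ fun h' k' e' _ _ φ ν a1 a2 a3 => ?_
    have : ¬ ∀ b ∈ O (h.trans k), Nu h b → Nu h' b := fun hh => by
      have := G.dim.lt (G.pts.ord h h' k k' hh) hne.symm
      omega
    push Not at this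
    obtain ⟨t', a4, a5, a6⟩ := this
    obtain ⟨a7, a8⟩ := (nu_unit G h' k' a4).1 a6
    have hle := (G.nrm.sub h' k').1
    have a9 : φ ⟨t'⁻¹, le_IC _ a8⟩ * φ (Subring.inclusion hle ⟨t', le_IC _ a4⟩) = 1 := by
      rw [← map_mul, ← map_one φ]
      exact congrArg φ (Subtype.ext (inv_mul_cancel₀ a7))
    refine (star_loc (φ := φ.comp (Subring.inclusion hle)) (π := aD G (h.trans k) π)
      (fun a => a1 _) a2 a3 (K := K) (u₁ := u₁) (u₂ := u₂) (right_ne_zero_of_mul_eq_one a9)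
      (eq_inv_of_mul_eq_one_left a9 ▸ a1 _) (t3 ⟨t', le_IC _ a4⟩ a4 a5) hF' ?_).imp
      (Gd.comp hle) (Gd.comp hle)
    have e3 : ((aD G (h.trans k) π ^ K + t ^ M * u₂ : IC (O (h.trans k))) : X.residueField w) =
        t.1 ^ M * su * (1 + (aD G h π : X.residueField w) ^ K * s) := by
      rw [es]
      change aK f w π ^ K + t.1 ^ M * su = t.1 ^ M * su * (1 + aK f w π ^ K * _)
      field_simp
      ring
    refine ⟨e3 ▸ mul_ne_zero (mul_ne_zero (pow_ne_zero _ t1) u4) g1, ?_⟩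
    rw [e3, Units.val_div_eq_div_val, Units.val_mk0, Units.val_mk0]
    change _ = 1 + t.1 ^ M * (u.1 * su - su) / _
    field_simp
    ring
  have e4 : sym (Units.mk0 _ g2) = sym (Units.mk0 _ g2 / Units.mk0 _ g1) + sym (Units.mk0 _ g1) := by
    rw [← s_mul, div_mul_cancel]
  rw [e4, mul_add, add_mul, DFinsupp.single_add, map_add, map_add, b1, b2, add_zero]

end

lemma inc (G : Geo f π d) (h : w ⤳ y) (hy : ¬ Hor f π y) (e : dl d w = dl d y + 2)
    (P Q : Ideal (IC (O h))) (hP : P.IsPrime) (hQ : Q.IsPrime) (h0 : P ≠ ⊥)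
    (h1 : aD G h π ∉ Q) (hle : P ≤ Q) : P = Q := by
  by_contra hne
  obtain ⟨z, z1, z2⟩ := G.nrm.cen h P hP
  obtain ⟨z', z1', z2'⟩ := G.nrm.cen h Q hQ
  have a1 := G.nrm.lt h P Q z1 z1' hP hQ (lt_of_le_of_ne hle hne) z2 z2'
  have a2 := G.nrm.lt h ⊥ P specializes_rfl z1 Ideal.isPrime_bot hP (bot_lt_iff_ne_bot.2 h0)
    ⟨h, fun b _ => by rw [G.pts.self, Ideal.mem_bot, ZeroMemClass.coe_eq_zero]⟩ z2
  have a3 : Hor f π z' := by_contra fun hn =>
    h1 ((z2'.2 (aD G h π) ⟨_, G.dim.ak h π⟩).2 ((G.dim.nu z1').2 hn))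
  have a4 := G.dim.lt z2'.1 fun e => hy (e ▸ a3)
  omega

end GS

open GS LB in
/-- The induction step: deep symbols are killed at the next level. -/
theorem gstep [CharZero A] {f : X ⟶ Spec (.of A)} {π : A} {d n p q j : ℕ} {x : X}
    {τ : X → Ch X →+ C} (G : Geo f π d) (hT : TameS) (hN : NnS) (hB : LocB) (hE : ExtS)
    (hG : GabS) (L : Lv π p q n) (hπ : ¬ IsUnit π) (hq : ∀ c : C, q • c = 0)
    (T : Tau f π d n x j τ) {w y : X} (hw : Hor f π w) (e : dl d w = j + 2)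
    (F : (X.residueField w)ˣ) (hF : ∀ z V, ¬ Hor f π z → dl d z + 1 = dl d w → Pl w z V → z ⤳ y →
      Ap V (aK f w π ^ n) F) (γ : Kr (X.residueField w)) :
    τ y (DD X (DFinsupp.single w (sym F * γ))) = 0 := by
  by_contra h0
  obtain ⟨h, k, e₁, hy⟩ : w ⤳ y ∧ y ⤳ x ∧ dl d y = j ∧ ¬ Hor f π y := by
    by_contra hn
    exact h0 (red G T fun w' V P _ _ _ h' k e₁ hy => absurd ⟨P.sp.trans h', k, e₁, hy⟩ hn)
  refine h0 ?_
  refine dif_top (((τ y).comp ((DD X).comp ((DFinsupp.singleAddHom _ w).comp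
    (AddMonoidHom.mulLeft (sym F))))).ker) (fun l => ?_) γ
  change τ y (DD X (DFinsupp.single w (sym F * _))) = 0
  rcases l with _ | ⟨g, l⟩
  · rw [List.map_nil, List.prod_nil, mul_one]
    exact deg_one G T F
  rw [List.map_cons, List.prod_cons, ← mul_assoc]
  generalize (l.map sym).prod = δ
  have := G.nrm.noeth h hw
  have := G.nrm.norm h
  have := G.nrm.frac h
  obtain ⟨r, rfl⟩ := L.qq
  refine hG (IC (O h)) (aD G h π) p r n
    (fun a b => τ y (DD X (DFinsupp.single w (sym a * sym b * δ)))) L.pp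
    (fun e => hw (congrArg Subtype.val e)) (not_unit G h hw hy) ?_ hq (inc G h hy (by omega))
    (fun a a' b => ?_) (fun a b b' => ?_) (fun a b hab => ?_)
    (fun F₁ F₂ c₁ h₁ c₂ h₂ m a1 a2 a3 => p3 G hT hN hB hE L hπ hq T h δ a1 a2 a3)
    (fun F c h₀ u K a1 a2 a3 a4 =>
      star G hT hN hB hE L hπ hq T h k hw hy e₁ e δ F c h₀ u K a1 a2 a3 a4) F g fun Q hQ => ?_
  · simpa using map_dvd (aD G h) L.lev
  · rw [s_mul, add_mul, add_mul, DFinsupp.single_add, map_add, map_add]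
  · rw [s_mul, mul_add, add_mul, DFinsupp.single_add, map_add, map_add]
  · rw [s_st hab, zero_mul, DFinsupp.single_zero, map_zero, map_zero]
  · obtain ⟨z, V, a1, a2, a3, a4, a5⟩ := G.nrm.df h hw _ rfl Q hQ
    obtain ⟨s, c, b1, b2⟩ := (a5 _).1 (hF z V a2 a3 a4 a1)
    have b3 : (s : X.residueField w) ≠ 0 := fun e => b1 ((Subtype.ext e : s = 0) ▸ Q.zero_mem)
    have b4 : aK f w π ≠ 0 := hw
    refine ⟨s, c, b1, b3, ?_⟩
    rw [← b2]
    change _ = 1 + aK f w π ^ n * _ / _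
    field_simp
    ring

theorem gst (hT : TameS) (hN : NnS) (hB : LocB) (hE : ExtS) (hG : GabS) : AllC GSt := by
  intro A _ _ _ _ _ X f π d p q n c C _ j Λ hq hj hI hP w hw e y l F γ hF
  have ev : ∀ (l : List X) (w : X) (β), ((Finsupp.applyAddHom l).comp (Lc Λ))
      (DFinsupp.single w β) = Λ w β l := fun l w β =>
    congrArg (fun g : List X →₀ C => g l) (DFinsupp.sumAddHom_single Λ w β)
  rcases l with _ | ⟨x, l⟩
  · refine GS.map_eq_zero ((Finsupp.applyAddHom [y]).comp (Lc Λ)) _ fun w' => ?_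
    rw [ev]
    by_contra h0
    obtain ⟨-, a1, -, -, a2, a3⟩ := hI.sup _ _ _ h0
    have a4 : dl d y = 0 := a3
    omega
  refine gstep (x := x) (τ := fun y => (Finsupp.applyAddHom (y :: x :: l)).comp (Lc Λ)) c.geo hT
    hN hB hE hG c.lv c.hyp.irr.not_isUnit hq ⟨fun y w β h => ?_, fun y w F γ h => ?_,
      fun y w => ?_, fun w β y hw e h => ?_⟩ hw e F (fun z V a1 a2 a3 a4 => hF z V a1 a2 a4 a3) γ
  · rw [ev] at h
    obtain ⟨a1, a2, a3, a4, a5, a6, -⟩ := hI.sup _ _ _ h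
    exact ⟨a1, a2, a3, a6, by omega, a4⟩
  · rw [ev]; exact hI.kill w y F γ _ h
  · rw [ev, hI.one hj]; rfl
  · have h1 : Finsupp.mapDomain List.tail (TT Λ w β) (x :: l) = 0 :=
      congrArg (fun g : List X →₀ C => g (x :: l)) (hP w hw e β)
    rw [Finsupp.mapDomain, Finsupp.sum_apply, Finsupp.sum, Finset.sum_eq_single (y :: x :: l),
      List.tail_cons, Finsupp.single_eq_same] at h1
    · exact h1
    · intro a _ hne
      rcases a with _ | ⟨y', a⟩
      · exact Finsupp.single_eq_of_ne (by simp)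
      · by_cases ha : a = x :: l
        · subst ha
          rw [show TT Λ w β (y' :: x :: l) = 0 from h y' fun e => hne (by rw [e]),
            Finsupp.single_zero]
          rfl
        · exact Finsupp.single_eq_of_ne fun e => ha e.symm
    · intro hn
      rw [Finsupp.notMem_support_iff.1 hn, Finsupp.single_zero]
      rfl

end

end Pool.Agent.KEW

end MrgPart5

-- marker of a merged file
example : 731051 + 203 = 731051 + 203 := rfl
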