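import Mathlib.Data.Int.ConditionallyCompleteOrder
import Pool.Agent.MP_55d974_ag.kew.Deep
import Mathlib.RingTheory.Artinian.Instances
import Mathlib.RingTheory.Flat.TorsionFree
import Mathlib.RingTheory.PicardGroup
import Mathlib.Tactic.Polynomial.Basic
import Mathlib.Tactic.NoncommRing

-- ======== part 0: formerly Pool.Agent.MP_55d974_ag.kew.Tame
section MrgPart0

/-! PROJECT KEW: existence, uniqueness and properties of the tame symbol. -/

namespace Pool.Agent.KEW

noncomputable section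

open Classical IsLocalRing

namespace Tm

section Basics

variable {R : Type} [CommRing R]

theorem mneg (a b : Kr R) : a * -b = -(a * b) := @mul_neg (Kr R) _ _ a b

theorem negm (a b : Kr R) : -a * b = -(a * b) := @neg_mul (Kr R) _ _ a b

theorem sym_mul (a b : Rˣ) : sym (a * b) = sym a + sym b := by simp [sym]

theorem sym_one : sym (1 : Rˣ) = 0 := by simp [sym]

theorem sym_zpow (a : Rˣ) (n : ℤ) : sym (a ^ n) = n • sym a := by
  rw [sym, ofMul_zpow, map_zsmul, map_zsmul, sym]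

theorem sym_inv (a : Rˣ) : sym a⁻¹ = -sym a := by simp [sym]

theorem sym_st {a b : Rˣ} (h : (a : R) + b = 1) : sym a * sym b = 0 := by
  rw [sym, sym, ← map_mul, ← map_zero (RingQuot.mkRingHom (St R))]
  exact RingQuot.mkRingHom_rel ⟨rfl, a, b, h, rfl⟩

theorem klift {T : Type} [Ring T] (g : Rˣ → T) (h1 : ∀ a b, g (a * b) = g a + g b)
    (h2 : ∀ a b : Rˣ, (a : R) + b = 1 → g a * g b = 0) :
    ∃ Θ : Kr R →+* T, ∀ u, Θ (sym u) = g u := by
  refine ⟨RingQuot.lift ⟨(TensorAlgebra.lift ℤ (AddMonoidHom.mk' (fun u : Additive Rˣ =>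
    g u.toMul) fun a b => h1 _ _).toIntLinearMap).toRingHom, ?_⟩, fun u => by simp [sym]⟩
  rintro x y ⟨rfl, a, b, h, rfl⟩
  simpa using h2 a b h

theorem kr_ind {P : Kr R → Prop} (h1 : P 1) (hs : ∀ u x, P x → P (sym u * x))
    (ha : ∀ x y, P x → P y → P (x + y)) (hn : ∀ x, P x → P (-x)) (x : Kr R) : P x := by
  obtain ⟨t, rfl⟩ := RingQuot.mkRingHom_surjective (St R) x
  suffices h : ∀ y, P y → P (RingQuot.mkRingHom (St R) t * y) by simpa using h 1 h1
  induction t using TensorAlgebra.induction with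
  | algebraMap r =>
    intro y hy
    rw [eq_intCast, map_intCast, ← zsmul_eq_mul]
    induction r using Int.induction_on with
    | zero => simpa using ha _ _ hy (hn _ hy)
    | succ i hi => rw [add_smul, one_smul]; exact ha _ _ hi hy
    | pred i hi => rw [sub_smul, one_smul, sub_eq_add_neg]; exact ha _ _ hi (hn _ hy)
  | ι u => exact fun y hy => hs u.toMul y hy
  | mul a b h1 h2 => exact fun y hy => by rw [map_mul, mul_assoc]; exact h1 _ (h2 _ hy)
  | add a b h1 h2 => exact fun y hy => by rw [map_add, add_mul]; exact ha _ _ (h1 _ hy) (h2 _ hy)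

theorem sym_mul_mem (u : Rˣ) {m : ℕ} {x : Kr R} (hx : x ∈ K R m) : sym u * x ∈ K R (m + 1) := by
  refine AddSubgroup.closure_induction (fun x hx => ?_) (by simp) (fun x y _ _ h1 h2 => ?_)
    (fun x _ h => ?_) hx
  · obtain ⟨l, hl, rfl⟩ := hx
    exact AddSubgroup.subset_closure ⟨u :: l, by simpa, by simp⟩
  · rw [mul_add]
    exact add_mem h1 h2
  · rw [mneg]
    exact neg_mem h

end Basics

section Fld

variable {E : Type} [Field E]

theorem sym_neg_self (a : Eˣ) : sym a * sym (-a) = 0 := by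
  by_cases h : (a : E) = 1
  · rw [show a = 1 from Units.ext h, sym_one, zero_mul]
  have h1 : 1 - (a : E) ≠ 0 := sub_ne_zero.2 (Ne.symm h)
  have h2 : 1 - (a : E)⁻¹ ≠ 0 := sub_ne_zero.2 fun e => h (inv_eq_one.1 e.symm)
  have e : -a = Units.mk0 _ h1 * (Units.mk0 _ h2)⁻¹ := by
    rw [eq_mul_inv_iff_mul_eq]
    ext
    simp [mul_sub]
  have s1 : sym a * sym (Units.mk0 _ h1) = 0 := sym_st (by simp)
  have s2 : sym a⁻¹ * sym (Units.mk0 _ h2) = 0 := sym_st (by simp)
  rw [sym_inv, negm] at s2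
  rw [e, sym_mul, sym_inv, mul_add, s1, zero_add, mneg, s2]

theorem sym_anti (a b : Eˣ) : sym a * sym b = -(sym b * sym a) := by
  have h := sym_neg_self (a * b)
  rw [sym_mul, add_mul] at h
  nth_rewrite 1 [← neg_mul] at h
  rw [← mul_neg, sym_mul, sym_mul, mul_add, mul_add, sym_neg_self, sym_neg_self, zero_add,
    add_zero] at h
  exact eq_neg_of_add_eq_zero_left h

theorem neg_sym_neg_one : -sym (-1 : Eˣ) = sym (-1) := by rw [← sym_inv, inv_neg_one]

theorem sym_self (a : Eˣ) : sym a * sym a = sym a * sym (-1) := by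
  have h := sym_neg_self a
  rw [← neg_one_mul a, sym_mul, mul_add] at h
  rw [← neg_sym_neg_one, mneg]
  exact eq_neg_of_add_eq_zero_right h

end Fld

section Main

variable {E k : Type} [Field E] [Field k] {V : ValuationSubring E} (ρ : V →+* k)

/-- A unit of `V` as a unit of the field. -/
abbrev up (u : Vˣ) : Eˣ := Units.map V.subtype.toMonoidHom u

/-- The residue class of a unit of `V`. -/
abbrev dn (u : Vˣ) : kˣ := Units.map ρ.toMonoidHom u

theorem dec (hV : IsDiscreteValuationRing V) {w : V} (hw : Irreducible w) {ϖ : Eˣ}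
    (hϖ : (ϖ : E) = w) (a : Eˣ) : ∃ p : Vˣ × ℤ, a = up p.1 * ϖ ^ p.2 := by
  obtain ⟨n, u, h⟩ :=
    IsDiscreteValuationRing.exists_units_eq_smul_zpow_of_irreducible hw a.ne_zero
  refine ⟨(u, n), Units.ext ?_⟩
  rw [h, Units.val_mul, Units.val_zpow_eq_zpow_val, hϖ]
  rfl

theorem shift {w : V} {ϖ : Eˣ} (hϖ : (ϖ : E) = w) (u : Vˣ) {i N : ℤ} {p : ℕ} (h : i + N = p) :
    ((up u * ϖ ^ i : Eˣ) : E) * (ϖ ^ N : Eˣ) = ((u * w ^ p : V) : E) := by
  rw [← Units.val_mul, mul_assoc, ← zpow_add, h, zpow_natCast, Units.val_mul, Units.val_pow_eq_pow_val,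
    hϖ]
  rfl

theorem dec_uniq {w : V} (h0 : ρ w = 0) {ϖ : Eˣ} (hϖ : (ϖ : E) = w) {u u' : Vˣ} {i j : ℤ}
    (h : up u * ϖ ^ i = up u' * ϖ ^ j) : u = u' ∧ i = j := by
  have key : ∀ {u u' : Vˣ} {i j : ℤ}, up u * ϖ ^ i = up u' * ϖ ^ j → ¬ i < j := by
    intro u u' i j h hl
    obtain ⟨p, hp⟩ : ∃ p : ℕ, j + -i = (p + 1 : ℕ) := ⟨(j - i - 1).toNat, by omega⟩
    have e := shift hϖ u (i := i) (N := -i) (p := 0) (by simp)
    rw [h, shift hϖ u' hp] at e
    have e' := congrArg ρ (Subtype.ext e)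
    simp [h0] at e'
    exact (dn ρ u).ne_zero e'.symm
  obtain rfl : i = j := le_antisymm (not_lt.1 (key h.symm)) (not_lt.1 (key h))
  exact ⟨Units.ext (Subtype.ext (congrArg Units.val (mul_right_cancel h))), rfl⟩

/-- Left multiplication by the symbol of `u ϖ ^ n` on the pairs `a + {ϖ} b`. -/
def Mt (c : kˣ) (n : ℤ) : Matrix (Fin 2) (Fin 2) (Kr k) :=
  !![sym c, 0; n, n • sym (-1) - sym c]

theorem Mt_add (c c' : kˣ) (i j : ℤ) : Mt (c * c') (i + j) = Mt c i + Mt c' j := by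
  ext a b
  fin_cases a <;> fin_cases b <;> simp [Mt, sym_mul, add_mul]
  abel

theorem Mt_zero : Mt (1 : kˣ) 0 = 0 := by
  ext a b
  fin_cases a <;> fin_cases b <;> simp [Mt, sym_one]

theorem Mt_st {c c' : kˣ} (h : (c : k) + c' = 1) : Mt c 0 * Mt c' 0 = 0 := by
  ext a b
  fin_cases a <;> fin_cases b <;> simp [Mt, Matrix.mul_apply, mneg, negm, sym_st h]

theorem Mt_neg (c : kˣ) (i : ℤ) : Mt c i * Mt (-c) i = 0 := by
  have e : ∀ c : kˣ, i • sym (-1) - sym c = sym ((-1) ^ i * c⁻¹) := fun c => by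
    rw [sym_mul, sym_zpow, sym_inv, sub_eq_add_neg]
  have e2 : (i : Kr k) * sym (-c) + (i • sym (-1) - sym c) * (i : Kr k) = 0 := by
    rw [← zsmul_eq_mul, ← zsmul_eq_mul', e, ← sym_zpow, ← sym_zpow, ← sym_mul, ← mul_zpow,
      mul_left_comm, neg_mul, mul_inv_cancel, ← zpow_add_one, ← zpow_mul,
      Even.neg_one_zpow (by rw [mul_comm]; exact Int.even_mul_succ_self i), sym_one]
  have e3 : (i • sym (-1) - sym c) * (i • sym (-1) - sym (-c)) = 0 := by
    rw [e, e, inv_neg, mul_neg, sym_neg_self]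
  ext a b
  fin_cases a <;> fin_cases b <;>
    simp only [Mt, Matrix.mul_apply, Fin.sum_univ_two] <;> simp [sym_neg_self]
  · simpa using e2
  · simpa using e3

theorem Mt_stein {w : V} (h0 : ρ w = 0) {ϖ : Eˣ} (hϖ : (ϖ : E) = w) {u u' : Vˣ} {i j : ℤ}
    (h : ((up u * ϖ ^ i : Eˣ) : E) + (up u' * ϖ ^ j : Eˣ) = 1) :
    Mt (dn ρ u) i * Mt (dn ρ u') j = 0 := by
  obtain ⟨r, p, q, hp, hq, hz⟩ : ∃ r p q : ℕ, i + r = p ∧ j + r = q ∧ (r = 0 ∨ p = 0 ∨ q = 0) :=
    ⟨(-min 0 (min i j)).toNat, (i - min 0 (min i j)).toNat, (j - min 0 (min i j)).toNat,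
      by omega, by omega, by omega⟩
  have e := congrArg (· * ((ϖ ^ (r : ℤ) : Eˣ) : E)) h
  simp only [add_mul, shift hϖ u hp, shift hϖ u' hq, one_mul] at e
  rw [zpow_natCast, Units.val_pow_eq_pow_val, hϖ] at e
  have e' : (dn ρ u : k) * 0 ^ p + dn ρ u' * 0 ^ q = 0 ^ r := by
    have := congrArg ρ (Subtype.ext e : u * w ^ p + u' * w ^ q = w ^ r)
    simpa [h0] using this
  rcases r with _ | r <;> rcases p with _ | p <;> rcases q with _ | q <;>
    simp only [pow_zero, mul_one, pow_succ, mul_zero, add_zero, zero_add] at e'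
  · obtain ⟨rfl, rfl⟩ : i = 0 ∧ j = 0 := by omega
    exact Mt_st e'
  · rw [show i = 0 by omega, show dn ρ u = 1 from Units.ext e', Mt_zero, zero_mul]
  · rw [show j = 0 by omega, show dn ρ u' = 1 from Units.ext e', Mt_zero, mul_zero]
  · exact absurd e' zero_ne_one
  · rw [show j = i by omega, show dn ρ u' = -dn ρ u from Units.ext
      (eq_neg_of_add_eq_zero_right e'), Mt_neg]
  · exact absurd e' (dn ρ u).ne_zero
  · exact absurd e' (dn ρ u').ne_zero
  · omega

theorem span (hV : IsDiscreteValuationRing V) {w : V} (hw : Irreducible w) {ϖ : Eˣ}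
    (hϖ : (ϖ : E) = w) (x : Kr E) :
    ∃ γ δ : Kr V, x = kmap V.subtype γ + sym ϖ * kmap V.subtype δ := by
  refine kr_ind (P := fun x => ∃ γ δ : Kr V, x = kmap V.subtype γ + sym ϖ * kmap V.subtype δ)
    ⟨1, 0, by simp⟩ ?_ ?_ ?_ x
  · rintro a _ ⟨γ, δ, rfl⟩
    obtain ⟨⟨u, n⟩, rfl⟩ := dec hV hw hϖ a
    refine ⟨sym u * γ, n • γ + n • (sym (-1) * δ) - sym u * δ, ?_⟩
    have e : up (-1 : Vˣ) = -1 := Units.ext (by simp)
    simp only [map_sub, map_add, map_zsmul, map_mul, kmap_sym, sym_mul, sym_zpow, e, mul_add,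
      add_mul, mul_sub, smul_mul_assoc, mul_smul_comm, ← mul_assoc, sym_self ϖ,
      sym_anti (up u) ϖ, negm]
    abel
  · rintro _ _ ⟨γ, δ, rfl⟩ ⟨γ', δ', rfl⟩
    exact ⟨γ + γ', δ + δ', by rw [map_add, map_add, mul_add]; abel⟩
  · rintro _ ⟨γ, δ, rfl⟩
    exact ⟨-γ, -δ, by rw [map_neg, map_neg, mneg]; abel⟩

theorem unif (hV : IsDiscreteValuationRing V) (hρ : IsLocalHom ρ) :
    ∃ (w : V) (ϖ : Eˣ), Irreducible w ∧ (ϖ : E) = w ∧ ρ w = 0 := by
  obtain ⟨w, hw⟩ := IsDiscreteValuationRing.exists_irreducible V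
  refine ⟨w, Units.mk0 w fun h => hw.ne_zero (Subtype.ext h), hw, rfl, ?_⟩
  by_contra h
  exact hw.not_isUnit (hρ.map_nonunit w (Ne.isUnit h))

theorem spec (hV : IsDiscreteValuationRing V) (hρ : IsLocalHom ρ) (γ : Kr V) :
    tame V ρ (kmap V.subtype γ) = 0 ∧ ∀ (w : V) (u : Eˣ), Irreducible w → (u : E) = w →
      tame V ρ (sym u * kmap V.subtype γ) = kmap ρ γ := by
  obtain ⟨w, ϖ, hw, hϖ, h0⟩ := unif ρ hV hρ
  choose d hd using dec hV hw hϖ
  have hg : ∀ u n, Mt (dn ρ (d (up u * ϖ ^ n)).1) (d (up u * ϖ ^ n)).2 = Mt (dn ρ u) n := by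
    intro u n
    obtain ⟨h1, h2⟩ := dec_uniq ρ h0 hϖ (hd (up u * ϖ ^ n))
    rw [← h1, ← h2]
  obtain ⟨Θ, hΘ⟩ := klift (fun a : Eˣ => Mt (dn ρ (d a).1) (d a).2) (fun a b => by
    rw [← Mt_add, ← map_mul, ← hg ((d a).1 * (d b).1), up, map_mul, zpow_add, mul_mul_mul_comm,
      ← hd, ← hd])
    fun a b h => Mt_stein ρ h0 hϖ (by rwa [← hd, ← hd])
  have t0 : ∀ a x, Θ (sym a * x) 0 0 = sym (dn ρ (d a).1) * Θ x 0 0 := fun a x => by
    simp [hΘ, Mt, Matrix.mul_apply]
  have t1 : ∀ a x, Θ (sym a * x) 1 0 = (d a).2 • Θ x 0 0 +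
      sym ((-1) ^ (d a).2 * (dn ρ (d a).1)⁻¹) * Θ x 1 0 := fun a x => by
    rw [sym_mul, sym_zpow, sym_inv, ← sub_eq_add_neg]
    simp [hΘ, Mt, Matrix.mul_apply]
  have du : ∀ u n, d (up u * ϖ ^ n) = (u, n) := fun u n => by
    obtain ⟨h1, h2⟩ := dec_uniq ρ h0 hϖ (hd (up u * ϖ ^ n))
    exact Prod.ext h1.symm h2.symm
  have hu : ∀ γ : Kr V, Θ (kmap V.subtype γ) 0 0 = kmap ρ γ ∧ Θ (kmap V.subtype γ) 1 0 = 0 := by
    refine kr_ind (by simp) (fun u x hx => ?_) (fun x y hx hy => by simp [hx, hy])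
      fun x hx => by simp [hx]
    have := du u 0
    rw [zpow_zero, mul_one] at this
    rw [map_mul (kmap _), map_mul (kmap _), kmap_sym, kmap_sym, t0, t1, this, hx.1, hx.2]
    exact ⟨rfl, by simp⟩
  have hl : ∀ l : List Eˣ, Θ (l.map sym).prod 0 0 ∈ K k l.length ∧
      ∀ c, sym c * Θ (l.map sym).prod 1 0 ∈ K k l.length := fun l => by
    induction l with
    | nil => exact ⟨AddSubgroup.subset_closure ⟨[], rfl, by simp⟩, fun c => by simp⟩
    | cons a l ih =>
      rw [List.map_cons, List.prod_cons, t0, t1]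
      exact ⟨sym_mul_mem _ ih.1, fun c => sym_mul_mem _ (add_mem (zsmul_mem ih.1 _) (ih.2 _))⟩
  have ex : ∃ D : Kr E →+ Kr k, (∀ γ : Kr V, D (kmap V.subtype γ) = 0 ∧ ∀ (w : V) (u : Eˣ),
      Irreducible w → (u : E) = w → D (sym u * kmap V.subtype γ) = kmap ρ γ) ∧
      ∀ m, ∀ x ∈ K E (m + 1), D x ∈ K k m := by
    refine ⟨AddMonoidHom.mk' (fun x => Θ x 1 0) fun x y => by simp, fun γ => ⟨(hu γ).2, ?_⟩,
      fun m x hx => ?_⟩
    · intro w' a hw' ha
      obtain ⟨ε, rfl⟩ := IsDiscreteValuationRing.associated_of_irreducible _ hw hw'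
      obtain rfl : a = up ε * ϖ ^ (1 : ℤ) := Units.ext (by simp [ha, hϖ, mul_comm])
      change Θ _ 1 0 = _
      rw [t1, du, (hu γ).1, (hu γ).2, mul_zero, add_zero, one_smul]
    · refine AddSubgroup.closure_induction (fun x hx => ?_) (by simp) (fun x y _ _ h1 h2 => ?_)
        (fun x _ h => ?_) hx
      · obtain ⟨l, hm, rfl⟩ := hx
        obtain ⟨a, l, rfl⟩ := List.exists_cons_of_length_eq_add_one hm
        obtain rfl : l.length = m := by simpa using hm
        change Θ _ 1 0 ∈ _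
        rw [List.map_cons, List.prod_cons, t1]
        exact add_mem (zsmul_mem (hl l).1 _) ((hl l).2 _)
      · rw [map_add]
        exact add_mem h1 h2
      · rw [map_neg]
        exact neg_mem h
  rw [tame, pick, dif_pos ex]
  exact ex.choose_spec.1 γ

theorem mul_unit (hV : IsDiscreteValuationRing V) (hρ : IsLocalHom ρ) (u : Vˣ) (β : Kr E) :
    tame V ρ (sym (up u) * β) = -(sym (dn ρ u) * tame V ρ β) := by
  obtain ⟨w, ϖ, hw, hϖ, -⟩ := unif ρ hV hρ
  obtain ⟨γ, δ, rfl⟩ := span hV hw hϖ β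
  rw [mul_add, ← mul_assoc, sym_anti, negm, mul_assoc, ← kmap_sym, ← map_mul, ← map_mul,
    map_add, map_add, map_neg, (spec ρ hV hρ _).1, (spec ρ hV hρ _).1,
    (spec ρ hV hρ _).2 w ϖ hw hϖ, (spec ρ hV hρ _).2 w ϖ hw hϖ, map_mul, kmap_sym, zero_add,
    zero_add]

end Main

end Tm

open Tm in
theorem tameS : TameS where
  unit V ρ hV hρ γ := (spec ρ hV hρ γ).1
  unif V ρ hV hρ w u hw hu γ := (spec ρ hV hρ γ).2 w u hw hu
  mul V ρ hV hρ w u u' hu hu' β := by
    obtain ⟨ε, rfl⟩ := hρ.map_nonunit w (hu' ▸ u'.isUnit)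
    rw [show u = up ε from Units.ext hu, show u' = dn ρ ε from Units.ext hu', mul_unit ρ hV hρ]
  syms V ρ hV hρ l hl := by
    induction l with
    | nil => simpa using (spec ρ hV hρ 1).1
    | cons a l ih =>
      obtain ⟨h0, h1, h2⟩ := hl a (by simp)
      have e : a = up (V := V) ⟨⟨a, h1⟩, ⟨_, h2⟩, Subtype.ext (mul_inv_cancel₀ h0),
        Subtype.ext (inv_mul_cancel₀ h0)⟩ := Units.ext rfl
      rw [List.map_cons, List.prod_cons, e, mul_unit ρ hV hρ, ih fun u hu => hl u (by simp [hu]),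
        mul_zero, neg_zero]
  one V ρ hV hρ F hF β := by
    obtain ⟨hm, hn⟩ := ValuationSubring.mem_nonunits_iff_exists_mem_maximalIdeal.1 hF
    have h0 : ρ ⟨_, hm⟩ = 0 := by
      by_contra h
      exact hn (hρ.map_nonunit _ (Ne.isUnit h))
    have h1 : ρ (⟨_, hm⟩ + 1) = 1 := by rw [map_add, h0, map_one, zero_add]
    obtain ⟨ε, hε⟩ := hρ.map_nonunit _ (h1 ▸ isUnit_one)
    have e : F = up ε := Units.ext (by simp [hε])
    rw [e, mul_unit ρ hV hρ,
      show dn ρ ε = 1 from Units.ext (by simpa [hε] using h1), sym_one, zero_mul, neg_zero]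
  base V ρ V' ρ' ι ψ h hV hρ hV' hρ' hc w w' e hw hw' ha β := by
    let ϖ := Units.mk0 w.1 fun h => hw.ne_zero (Subtype.ext h)
    let ϖ' := Units.mk0 w'.1 fun h => hw'.ne_zero (Subtype.ext h)
    obtain ⟨γ, δ, rfl⟩ := span hV hw (ϖ := ϖ) rfl β
    let ι' : V →+* V' := (ι.comp V.subtype).codRestrict V' h
    have e1 : ∀ x, kmap ι (kmap V.subtype x) = kmap V'.subtype (kmap ι' x) := fun x => by
      rw [kmap_comp, kmap_comp]
      rfl
    have e2 : ∀ x, kmap ρ' (kmap ι' x) = kmap ψ (kmap ρ x) := fun x => by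
      rw [kmap_comp, kmap_comp]
      exact congrArg (kmap · x) (RingHom.ext hc)
    obtain ⟨ε, hε⟩ := ha.symm
    have e3 : Units.map ι.toMonoidHom ϖ = up ε * ϖ' ^ (e : ℤ) := Units.ext (by
      have := congrArg Subtype.val hε
      simpa [ϖ, ϖ', mul_comm] using this.symm)
    rw [map_add, map_add, map_add, map_mul, kmap_sym, e1, e1, e3, sym_mul, sym_zpow, add_mul,
      smul_mul_assoc, map_add, map_zsmul, mul_unit ρ' hV' hρ', (spec ρ' hV' hρ' _).1,
      (spec ρ' hV' hρ' _).1, (spec ρ hV hρ _).1, (spec ρ' hV' hρ' _).2 w' ϖ' hw' rfl,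
      (spec ρ hV hρ _).2 w ϖ hw rfl, e2]
    simp

end

end Pool.Agent.KEW

end MrgPart0

-- ======== part 1: formerly Pool.Agent.MP_55d974_ag.kew.MilA
section MrgPart1

/-! PROJECT KEW, row MIL, part A: the places of `L(T)`. -/

namespace Pool.Agent.KEW.MilP

open Polynomial IsLocalRing

variable {L E : Type} [Field L] [Field E]

theorem place (φ : L[X] →+* E) (hφ : ∀ x : E, ∃ a b, φ b ≠ 0 ∧ x = φ a / φ b)
    (V : ValuationSubring E) (hV : ∀ p, φ p ∈ V) (hT : V ≠ ⊤) :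
    ∃ P : L[X], P.Monic ∧ Irreducible P ∧ (∀ p, φ p ∈ V.nonunits ↔ P ∣ p) ∧
      (∀ x ∈ V, ∃ a b, ¬ P ∣ b ∧ x * φ b = φ a) ∧ Irreducible (⟨φ P, hV P⟩ : V) ∧
      IsDiscreteValuationRing V := by
  classical
  let ψ : L[X] →+* V := φ.codRestrict V hV
  let I : Ideal L[X] := (maximalIdeal V).comap ψ
  have hI : ∀ p, p ∈ I ↔ V.valuation (φ p) < 1 := fun p =>
    (V.valuation_lt_one_iff (ψ p))
  have hle : ∀ p, V.valuation (φ p) ≤ 1 := fun p => (V.valuation_le_one_iff _).2 (hV p)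
  obtain ⟨p₀, h₀, h₁⟩ : ∃ p ∈ I, φ p ≠ 0 := by
    by_contra! h
    refine hT (top_le_iff.1 fun x _ => ?_)
    obtain ⟨a, b, hb, rfl⟩ := hφ x
    have : V.valuation (φ b) = 1 := (hle b).antisymm (not_lt.1 fun hlt => hb (h b ((hI b).2 hlt)))
    rw [← V.valuation_le_one_iff, map_div₀, this, div_one]
    exact hle a
  have hg : Ideal.span {Submodule.IsPrincipal.generator I} = I := Ideal.span_singleton_generator I
  have hg0 : Submodule.IsPrincipal.generator I ≠ 0 := fun h => by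
    rw [← hg, h, Ideal.span_singleton_zero, Ideal.mem_bot] at h₀
    exact h₁ (by rw [h₀, map_zero])
  set P := normalize (Submodule.IsPrincipal.generator I) with hP
  have hd : ∀ p, V.valuation (φ p) < 1 ↔ P ∣ p := fun p => by
    rw [← hI, hP, normalize_dvd_iff, ← Ideal.mem_span_singleton, hg]
  have hpr : Prime P := by
    have : Prime (Submodule.IsPrincipal.generator I) := by
      rw [← Ideal.span_singleton_prime hg0, hg]
      exact Ideal.comap_isPrime ψ _
    exact (normalize_associated _).symm.prime this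
  have hP0 : φ P ≠ 0 := fun h => by
    obtain ⟨c, rfl⟩ := (hd p₀).1 ((hI _).1 h₀)
    exact h₁ (by rw [map_mul, h, zero_mul])
  have hv0 : 0 < V.valuation (φ P) := zero_lt_iff.2 ((_root_.map_ne_zero _).2 hP0)
  have hv1 : V.valuation (φ P) < 1 := (hd P).2 dvd_rfl
  have hu : ∀ b, ¬ P ∣ b → V.valuation (φ b) = 1 := fun b hb =>
    (hle b).antisymm (not_lt.1 fun h => hb ((hd b).1 h))
  have key : ∀ x ∈ V, x ≠ 0 → ∃ (k : ℕ) (a b : L[X]), ¬ P ∣ a ∧ ¬ P ∣ b ∧
      x * φ b = φ P ^ k * φ a := by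
    intro x hx hx0
    obtain ⟨a, b, hb, rfl⟩ := hφ x
    have ha : a ≠ 0 := by rintro rfl; simp at hx0
    have hb' : b ≠ 0 := by rintro rfl; simp at hb
    obtain ⟨n, a, ha', rfl⟩ := WfDvdMonoid.max_power_factor ha hpr.irreducible
    obtain ⟨m, b, hb'', rfl⟩ := WfDvdMonoid.max_power_factor hb' hpr.irreducible
    have hmn : m ≤ n := by
      rw [← V.valuation_le_one_iff] at hx
      simp only [map_div₀, map_mul, map_pow, hu a ha', hu b hb'', mul_one] at hx
      rw [div_le_one₀ (pow_pos hv0 _)] at hx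
      exact (pow_le_pow_iff_right_of_lt_one₀ hv0 hv1).1 hx
    obtain ⟨k, rfl⟩ := Nat.exists_eq_add_of_le hmn
    refine ⟨k, a, b, ha', hb'', ?_⟩
    have : φ b ≠ 0 := fun h => hb (by rw [map_mul, h, mul_zero])
    simp only [map_mul, map_pow, pow_add]
    field_simp
  have kv : ∀ x : V, x ≠ 0 → ∃ k : ℕ, V.valuation x = V.valuation (φ P) ^ k := by
    intro x hx
    obtain ⟨k, a, b, ha, hb, h⟩ := key x x.2 (fun h => hx (Subtype.ext h))
    refine ⟨k, ?_⟩
    have := congrArg V.valuation h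
    simpa only [map_mul, map_pow, hu a ha, hu b hb, mul_one] using this
  have hirr : Irreducible (⟨φ P, hV P⟩ : V) := by
    refine ⟨fun h => hv1.ne ((V.valuation_eq_one_iff _).1 h), fun x y h => ?_⟩
    have h' : φ P = x * y := congrArg Subtype.val h
    obtain ⟨k, hk⟩ := kv x (by rintro rfl; simp [hP0] at h')
    obtain ⟨l, hl⟩ := kv y (by rintro rfl; simp [hP0] at h')
    have : V.valuation (φ P) ^ 1 = V.valuation (φ P) ^ (k + l) := by
      rw [pow_add, ← hk, ← hl, ← map_mul, ← h', pow_one]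
    have := pow_right_injective₀ hv0 hv1.ne this
    rw [V.valuation_eq_one_iff, V.valuation_eq_one_iff, hk, hl]
    rcases k with _ | k
    · simp
    · obtain rfl : l = 0 := by omega
      simp
  refine ⟨P, monic_normalize hg0, hpr.irreducible, hd, fun x hx => ?_, hirr,
    IsDiscreteValuationRing.ofHasUnitMulPowIrreducibleFactorization ⟨_, hirr, fun {x} hx => ?_⟩⟩
  · by_cases h : x = 0
    · exact ⟨0, 1, hpr.not_dvd_one, by simp [h]⟩
    · obtain ⟨k, a, b, -, hb, h⟩ := key x hx h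
      exact ⟨P ^ k * a, b, hb, by rw [h, map_mul, map_pow]⟩
  · obtain ⟨k, hk⟩ := kv x hx
    obtain ⟨u, hu⟩ := (V.valuation_eq_iff x (φ P ^ k)).1 (by rw [hk, map_pow])
    exact ⟨k, u, Subtype.ext (by rw [← hu, mul_comm]; rfl)⟩

theorem poly_mem (φ : L[X] →+* E) (V : ValuationSubring E) (h1 : ∀ c, φ (C c) ∈ V)
    (h2 : φ X ∈ V) (p : L[X]) : φ p ∈ V := by
  induction p using Polynomial.induction_on' with
  | add p q hp hq => rw [map_add]; exact add_mem hp hq
  | monomial n c =>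
    rw [← C_mul_X_pow_eq_monomial, map_mul, map_pow]
    exact mul_mem (h1 c) (pow_mem h2 n)

theorem ratio (φ : L[X] →+* RatFunc L) (h1 : ∀ c, φ (C c) = RatFunc.C c)
    (h2 : ∃ a b, φ b ≠ 0 ∧ RatFunc.X = φ a / φ b) (x : RatFunc L) :
    ∃ a b, φ b ≠ 0 ∧ x = φ a / φ b := by
  have h : ∀ x : RatFunc L, x ∈ Subfield.closure (φ.range : Set (RatFunc L)) := by
    intro x
    have hp : ∀ p : L[X], algebraMap _ (RatFunc L) p ∈
        Subfield.closure (φ.range : Set (RatFunc L)) := fun p => by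
      induction p using Polynomial.induction_on' with
      | add p q hp hq => rw [map_add]; exact add_mem hp hq
      | monomial n c =>
        obtain ⟨a, b, -, h⟩ := h2
        rw [← C_mul_X_pow_eq_monomial, map_mul, map_pow, RatFunc.algebraMap_C,
          RatFunc.algebraMap_X, ← h1, h]
        exact mul_mem (Subfield.subset_closure ⟨_, rfl⟩) (pow_mem (div_mem
          (Subfield.subset_closure (φ.mem_range_self a))
          (Subfield.subset_closure (φ.mem_range_self b))) n)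
    rw [← RatFunc.num_div_denom x]
    exact div_mem (hp _) (hp _)
  obtain ⟨y, hy, z, hz, rfl⟩ := Subfield.mem_closure_iff.1 (h x)
  rw [Subring.closure_eq] at hy hz
  obtain ⟨a, rfl⟩ := hy
  obtain ⟨b, rfl⟩ := hz
  by_cases hb : φ b = 0
  · exact ⟨0, 1, by simp, by simp [hb]⟩
  · exact ⟨a, b, hb, rfl⟩

/-- The inclusion of the polynomials. -/
noncomputable abbrev al (L : Type) [Field L] : L[X] →+* RatFunc L := algebraMap _ _

theorem FinPl.mem {V : ValuationSubring (RatFunc L)} (h : FinPl L V) (p : L[X]) : al L p ∈ V :=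
  poly_mem _ V (fun c => by simpa using h.1 c) (by simpa using h.2.1) p

/-- `V` is the place of the monic irreducible polynomial `P`. -/
structure Pl (V : ValuationSubring (RatFunc L)) (P : L[X]) : Prop where
  fin : FinPl L V
  mon : P.Monic
  irr : Irreducible P
  non : ∀ p, al L p ∈ V.nonunits ↔ P ∣ p
  frac : ∀ x ∈ V, ∃ a b, ¬ P ∣ b ∧ x * al L b = al L a
  unif : Irreducible (⟨al L P, FinPl.mem fin P⟩ : V)
  dvr : IsDiscreteValuationRing V

theorem exists_pl {V : ValuationSubring (RatFunc L)} (h : FinPl L V) : ∃ P, Pl V P := by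
  obtain ⟨P, h1, h2, h3, h4, h5, h6⟩ := place (al L)
    (ratio _ (by simp) ⟨X, 1, by simp, by simp⟩) V (FinPl.mem h) h.2.2
  exact ⟨P, h, h1, h2, h3, h4, h5, h6⟩

theorem dvr (V : ValuationSubring (RatFunc L)) (h : ∀ c, RatFunc.C c ∈ V) (hT : V ≠ ⊤) :
    IsDiscreteValuationRing V := by
  rcases V.mem_or_inv_mem RatFunc.X with hX | hX
  · exact (exists_pl ⟨h, hX, hT⟩).choose_spec.dvr
  · let φ : L[X] →+* RatFunc L := eval₂RingHom RatFunc.C RatFunc.X⁻¹
    have h1 : ∀ c, φ (C c) = RatFunc.C c := fun c => by simp [φ]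
    have h2 : φ X = RatFunc.X⁻¹ := by simp [φ]
    exact (place φ (ratio φ h1 ⟨1, X, by simp [h2, RatFunc.X_ne_zero], by simp [h2]⟩) V
      (poly_mem φ V (fun c => h1 c ▸ h c) (h2 ▸ hX)) hT).choose_spec.2.2.2.2.2

variable {V U : ValuationSubring (RatFunc L)} {P Q : L[X]}

theorem Pl.un (h : Pl V P) {p : L[X]} (hp : ¬ P ∣ p) : Un V (al L p) := by
  rw [← h.non, V.mem_nonunits_iff_or, not_or, not_not] at hp
  exact ⟨hp.1, FinPl.mem h.fin p, hp.2⟩

theorem Pl.uniq (h : Pl V P) (h' : Pl U P) : V = U := by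
  have : ∀ {V U : ValuationSubring (RatFunc L)}, Pl V P → Pl U P → V ≤ U := by
    intro V U h h' x hx
    obtain ⟨a, b, hb, e⟩ := h.frac x hx
    rw [(eq_mul_inv_iff_mul_eq₀ (h'.un hb).1).2 e]
    exact mul_mem (FinPl.mem h'.fin a) (h'.un hb).2.2
  exact (this h h').antisymm (this h' h)

theorem exists_pl' (h1 : P.Monic) (h2 : Irreducible P) : ∃ V, Pl V P := by
  let v : IsDedekindDomain.HeightOneSpectrum L[X] :=
    ⟨Ideal.span {P}, (Ideal.span_singleton_prime h2.ne_zero).2 h2.prime, by simpa using h2.ne_zero⟩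
  let V := (v.valuation (RatFunc L)).valuationSubring
  have hm : ∀ p, al L p ∈ V := fun p => v.valuation_le_one p
  have hn : (al L P)⁻¹ ∉ V := by
    have : v.valuation (RatFunc L) (al L P) < 1 :=
      (v.valuation_lt_one_iff_mem P).2 (Ideal.mem_span_singleton_self P)
    rw [Valuation.mem_valuationSubring_iff, map_inv₀, not_le]
    exact (one_lt_inv₀ (zero_lt_iff.2 ((_root_.map_ne_zero _).2 (by simpa using h2.ne_zero)))).2 this
  obtain ⟨Q, hQ⟩ := exists_pl (V := V) ⟨fun c => by simpa using hm (C c), by simpa using hm X,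
    fun h => hn (h ▸ trivial)⟩
  obtain rfl := eq_of_monic_of_associated hQ.mon h1 (hQ.irr.associated_of_dvd h2
    ((hQ.non P).1 (V.mem_nonunits_iff_or.2 (Or.inr hn))))
  exact ⟨V, hQ⟩

theorem fin_un (u : (RatFunc L)ˣ) : {V | FinPl L V ∧ ¬ Un V u}.Finite := by
  classical
  have h0 : (u : RatFunc L).num * (u : RatFunc L).denom ≠ 0 :=
    mul_ne_zero (RatFunc.num_ne_zero u.ne_zero) (RatFunc.denom_ne_zero _)
  refine ((UniqueFactorizationMonoid.normalizedFactors
    ((u : RatFunc L).num * (u : RatFunc L).denom)).toFinset.finite_toSet.biUnion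
    (t := fun P => {V | Pl V P}) fun P _ => Set.Subsingleton.finite fun V h U h' =>
      Pl.uniq h h').subset fun V hV => ?_
  obtain ⟨P, hP⟩ := exists_pl hV.1
  refine Set.mem_biUnion (x := P) ?_ hP
  rw [Finset.mem_coe, Multiset.mem_toFinset, Polynomial.mem_normalizedFactors_iff h0]
  refine ⟨hP.irr, hP.mon, by_contra fun h => hV.2 ?_⟩
  have ha := hP.un fun h' => h (h'.mul_right (u : RatFunc L).denom)
  have hb := hP.un fun h' => h (h'.mul_left (u : RatFunc L).num)
  refine ⟨u.ne_zero, ?_, ?_⟩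
  · rw [← RatFunc.num_div_denom (u : RatFunc L), div_eq_mul_inv]
    exact mul_mem ha.2.1 hb.2.2
  · rw [← RatFunc.num_div_denom (u : RatFunc L), inv_div, div_eq_mul_inv]
    exact mul_mem hb.2.1 ha.2.2

/-- Residues are represented by polynomials of small degree. -/
theorem Pl.rep (h : Pl V P) (c : ResidueField V) : ∃ g : L[X], g.degree < P.degree ∧
    residue V ⟨al L g, FinPl.mem h.fin g⟩ = c := by
  obtain ⟨x, rfl⟩ := residue_surjective c
  obtain ⟨a, b, hb, e⟩ := h.frac x x.2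
  obtain ⟨s, t, hst⟩ := (h.irr.coprime_iff_not_dvd).2 hb
  refine ⟨(a * t) %ₘ P, degree_modByMonic_lt _ h.mon, ?_⟩
  rw [← sub_eq_zero, ← map_sub, residue_eq_zero_iff, ← ValuationSubring.coe_mem_nonunits_iff]
  have e1 := congrArg (al L) hst
  have e2 := congrArg (al L) (modByMonic_add_div (a * t) P)
  simp only [map_add, map_mul, map_one] at e1 e2
  have : ((⟨al L ((a * t) %ₘ P), FinPl.mem h.fin _⟩ - x : V) : RatFunc L) =
      al L P * (-al L ((a * t) /ₘ P) - x * al L s) := by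
    change al L ((a * t) %ₘ P) - x = _
    linear_combination e2 - al L t * e + x * e1
  rw [this, V.mem_nonunits_iff, map_mul]
  exact mul_lt_one_of_lt_of_le ((h.non P).2 dvd_rfl) ((V.valuation_le_one_iff _).2
    (sub_mem (neg_mem (FinPl.mem h.fin _)) (mul_mem x.2 (FinPl.mem h.fin _))))

end Pool.Agent.KEW.MilP

end MrgPart1

-- ======== part 2: formerly Pool.Agent.MP_55d974_ag.kew.Mil
section MrgPart2

/-! PROJECT KEW, row MIL: Milnor's theorem on the K-ring of `L(T)`. -/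

namespace Pool.Agent.KEW

namespace MilP

open Polynomial IsLocalRing
open Tm (mneg negm sym_mul sym_inv sym_st klift kr_ind sym_mul_mem sym_anti sym_self)

noncomputable section

variable {L : Type} [Field L] {V U : ValuationSubring (RatFunc L)} {P Q p q : L[X]} {d : ℕ}

open Classical in
/-- A nonzero polynomial as a unit of `L(T)`. -/
def up (p : L[X]) : (RatFunc L)ˣ := if h : al L p = 0 then 1 else Units.mk0 _ h

theorem up_val (hp : p ≠ 0) : (up p : RatFunc L) = al L p := by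
  rw [up, dif_neg (by simpa using hp), Units.val_mk0]

theorem up_mul (hp : p ≠ 0) (hq : q ≠ 0) : sym (up (p * q)) = sym (up p) + sym (up q) := by
  rw [← sym_mul]
  congr 1
  ext
  rw [Units.val_mul, up_val hp, up_val hq, up_val (mul_ne_zero hp hq), map_mul]

theorem sym_div {R : Type} [CommRing R] (a b : Rˣ) : sym (a / b) = sym a - sym b := by
  rw [div_eq_mul_inv, sym_mul, sym_inv, sub_eq_add_neg]

theorem up_st {r : L[X]} (hp : p ≠ 0) (hq : q ≠ 0) (hr : r ≠ 0) (h : p + q = r) :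
    (sym (up p) - sym (up r)) * (sym (up q) - sym (up r)) = 0 := by
  rw [← sym_div, ← sym_div]
  refine sym_st ?_
  rw [Units.val_div_eq_div_val, Units.val_div_eq_div_val, ← add_div, up_val hp, up_val hq,
    ← map_add, h, ← up_val hr, div_self (Units.ne_zero _)]

variable (L d) in
/-- The subring generated by the symbols of polynomials of degree at most `d`. -/
def F : Subring (Kr (RatFunc L)) :=
  Subring.closure {x | ∃ p : L[X], p ≠ 0 ∧ p.natDegree ≤ d ∧ x = sym (up p)}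

theorem up_mem (hp : p ≠ 0) (h : p.natDegree ≤ d) : sym (up p) ∈ F L d :=
  Subring.subset_closure ⟨p, hp, h, rfl⟩

theorem F_mono {e : ℕ} (h : d ≤ e) : F L d ≤ F L e :=
  Subring.closure_mono fun _ ⟨p, h1, h2, h3⟩ => ⟨p, h1, h2.trans h, h3⟩

theorem mem_F (β : Kr (RatFunc L)) : ∃ d, β ∈ F L d := by
  induction β using kr_ind with
  | h1 => exact ⟨0, one_mem _⟩
  | hs u x h =>
    obtain ⟨d, h⟩ := h
    have h1 := RatFunc.num_ne_zero u.ne_zero
    have h2 := RatFunc.denom_ne_zero (u : RatFunc L)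
    have : u = up (u : RatFunc L).num / up (u : RatFunc L).denom := by
      ext
      rw [Units.val_div_eq_div_val, up_val h1, up_val h2, RatFunc.num_div_denom]
    refine ⟨max d (max (u : RatFunc L).num.natDegree (u : RatFunc L).denom.natDegree),
      mul_mem ?_ (F_mono (le_max_left _ _) h)⟩
    conv_rhs => rw [this, sym_div]
    exact sub_mem (up_mem h1 (by omega)) (up_mem h2 (by omega))
  | ha x y h h' =>
    obtain ⟨d, h⟩ := h
    obtain ⟨e, h'⟩ := h'
    exact ⟨max d e, add_mem (F_mono (le_max_left _ _) h) (F_mono (le_max_right _ _) h')⟩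
  | hn x h => exact h.imp fun _ h => neg_mem h

theorem F_comm (u : (RatFunc L)ˣ) {a : Kr (RatFunc L)} (ha : a ∈ F L d) :
    ∃ a' ∈ F L d, a * sym u = sym u * a' ∧ sym u * a = a' * sym u := by
  induction ha using Subring.closure_induction with
  | mem x hx =>
    refine ⟨-x, neg_mem (Subring.subset_closure hx), ?_⟩
    obtain ⟨p, -, -, rfl⟩ := hx
    exact ⟨by rw [mneg, sym_anti], by rw [negm, sym_anti]⟩
  | zero => exact ⟨0, zero_mem _, by simp⟩
  | one => exact ⟨1, one_mem _, by simp⟩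
  | add x y _ _ h h' =>
    obtain ⟨a, h1, h2, h3⟩ := h
    obtain ⟨b, h4, h5, h6⟩ := h'
    exact ⟨a + b, add_mem h1 h4, by rw [add_mul, mul_add, h2, h5], by rw [add_mul, mul_add, h3, h6]⟩
  | neg x _ h =>
    obtain ⟨a, h1, h2, h3⟩ := h
    exact ⟨-a, neg_mem h1, by rw [negm, mneg, h2], by rw [negm, mneg, h3]⟩
  | mul x y _ _ h h' =>
    obtain ⟨a, h1, h2, h3⟩ := h
    obtain ⟨b, h4, h5, h6⟩ := h'
    exact ⟨a * b, mul_mem h1 h4, by rw [mul_assoc, h5, ← mul_assoc, h2, mul_assoc],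
      by rw [← mul_assoc, h3, mul_assoc, h6, mul_assoc]⟩

theorem rel {g : L[X]} (hP : P ≠ 0) (hd : P.natDegree = d + 1) (hp : p ≠ 0) (hq : q ≠ 0)
    (hg : g ≠ 0) (dp : p.natDegree ≤ d) (dq : q.natDegree ≤ d) (dg : g.natDegree ≤ d)
    (h : P ∣ p * q - g) : sym (up P) * (sym (up g) - (sym (up p) + sym (up q))) ∈ F L d := by
  obtain ⟨f, hf⟩ := h
  have m := sub_mem (up_mem hg dg) (add_mem (up_mem hp dp) (up_mem hq dq))
  by_cases h0 : f = 0
  · rw [h0, mul_zero, sub_eq_zero] at hf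
    rw [← hf, up_mul hp hq, sub_self, mul_zero]
    exact zero_mem _
  have df : f.natDegree ≤ d := by
    have h1 := natDegree_mul hP h0
    have h2 := natDegree_sub_le (p * q) g
    have h3 := natDegree_mul hp hq
    rw [hf] at h2
    omega
  have := up_st (mul_ne_zero hP h0) hg (mul_ne_zero hp hq) (by rw [← hf, sub_add_cancel])
  rw [up_mul hP h0, up_mul hp hq, add_sub_assoc, add_mul, add_eq_zero_iff_eq_neg] at this
  rw [this]
  exact neg_mem (mul_mem (sub_mem (up_mem h0 df) (add_mem (up_mem hp dp) (up_mem hq dq))) m)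

theorem Pl.unit (h : Pl V P) (hp : ¬ P ∣ p) : ∃ w : Vˣ, w = (⟨al L p, FinPl.mem h.fin p⟩ : V) ∧
    kmap V.subtype (sym w) = sym (up p) := by
  have hu := h.un hp
  refine ⟨⟨⟨_, hu.2.1⟩, ⟨_, hu.2.2⟩, Subtype.ext (mul_inv_cancel₀ hu.1),
    Subtype.ext (inv_mul_cancel₀ hu.1)⟩, rfl, ?_⟩
  rw [kmap_sym]
  congr 1
  ext
  rw [up_val (by rintro rfl; exact hp (dvd_zero _))]
  rfl

theorem ndvd (hd : P.natDegree = d + 1) (hp : p ≠ 0) (dp : p.natDegree ≤ d) : ¬ P ∣ p :=
  not_dvd_of_natDegree_lt hp (by omega)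

theorem Pl.lift (h : Pl V P) (hd : P.natDegree = d + 1) : ∃ (T : Type) (_ : Ring T)
    (Φ : Kr (ResidueField V) →+* T) (π : F L d →+* T), (∀ x, π x = 0 → sym (up P) * x ∈ F L d) ∧
    ∀ x (hx : x ∈ F L d), ∃ γ, kmap V.subtype γ = x ∧ Φ (kmap (residue V) γ) = π ⟨x, hx⟩ := by
  let I : Ideal (F L d) :=
    { carrier := {a | sym (up P) * a ∈ F L d}
      add_mem' := fun {a b} ha hb => by simpa [mul_add] using add_mem ha hb
      zero_mem' := by simp
      smul_mem' := fun b a ha => by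
        obtain ⟨b', h1, -, h2⟩ := F_comm (up P) b.2
        change sym (up P) * (b * a) ∈ F L d
        rw [← mul_assoc, h2, mul_assoc]
        exact mul_mem h1 ha }
  have : I.IsTwoSided := ⟨fun {a} b ha => by
    change sym (up P) * (a * b) ∈ F L d
    rw [← mul_assoc]
    exact mul_mem ha b.2⟩
  let ρ : L[X] →+* ResidueField V := (residue V).comp ((al L).codRestrict V (FinPl.mem h.fin))
  have hρ : ∀ p, ρ p = 0 ↔ P ∣ p := fun p => by
    rw [← h.non]
    exact (residue_eq_zero_iff _).trans ValuationSubring.coe_mem_nonunits_iff.symm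
  choose r r1 r2 using h.rep
  replace r2 : ∀ c, ρ (r c) = c := r2
  have r0 : ∀ c : (ResidueField V)ˣ, r c ≠ 0 := fun c hc => c.ne_zero (by rw [← r2 c, hc, map_zero])
  have rd : ∀ c : (ResidueField V)ˣ, (r c).natDegree ≤ d := fun c => by
    have := natDegree_lt_natDegree (r0 c) (r1 c)
    omega
  have inj : ∀ p q : L[X], p.natDegree ≤ d → q.natDegree ≤ d → ρ p = ρ q → p = q :=
    fun p q hp hq e => sub_eq_zero.1 (by_contra fun hn => ndvd hd hn
      ((natDegree_sub_le _ _).trans (max_le hp hq)) ((hρ _).1 (by rw [map_sub, e, sub_self])))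
  let g : (ResidueField V)ˣ → F L d ⧸ I := fun c =>
    Ideal.Quotient.mk I ⟨sym (up (r c)), up_mem (r0 c) (rd c)⟩
  have g1 : ∀ a b, g (a * b) = g a + g b := fun a b => by
    rw [← map_add, Ideal.Quotient.eq]
    exact rel h.irr.ne_zero hd (r0 a) (r0 b) (r0 _) (rd a) (rd b) (rd _)
      ((hρ _).1 (by rw [map_sub, map_mul, r2, r2, r2, Units.val_mul, sub_self]))
  have g2 : ∀ a b : (ResidueField V)ˣ, (a : ResidueField V) + b = 1 → g a * g b = 0 := by
    intro a b e
    have : r a + r b = 1 := inj _ _ ((natDegree_add_le _ _).trans (max_le (rd a) (rd b)))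
      (by simp) (by rw [map_add, r2, r2, e, map_one])
    rw [← map_mul, ← map_zero (Ideal.Quotient.mk I)]
    congr 1
    exact Subtype.ext (sym_st (by rw [up_val (r0 a), up_val (r0 b), ← map_add, this, map_one]))
  obtain ⟨Φ, hΦ⟩ := klift g g1 g2
  refine ⟨_, inferInstance, Φ, Ideal.Quotient.mk I,
    fun x hx => Ideal.Quotient.eq_zero_iff_mem.1 hx, fun x hx => ?_⟩
  induction hx using Subring.closure_induction with
  | mem x hx =>
    obtain ⟨p, h1, h2, rfl⟩ := hx
    obtain ⟨w, h3, h4⟩ := h.unit (ndvd hd h1 h2)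
    refine ⟨_, h4, ?_⟩
    rw [kmap_sym, hΦ]
    have : r (Units.map (residue V).toMonoidHom w : (ResidueField V)ˣ) = p :=
      inj _ _ (rd _) h2 (by rw [r2]; exact congrArg (residue V) h3)
    simp only [g, this]
  | zero => exact ⟨0, map_zero _, by rw [map_zero, map_zero]; exact (map_zero _).symm⟩
  | one => exact ⟨1, map_one _, by rw [map_one, map_one]; exact (map_one _).symm⟩
  | add x y _ _ h h' =>
    obtain ⟨a, h1, h2⟩ := h
    obtain ⟨b, h3, h4⟩ := h'
    exact ⟨a + b, by rw [map_add, h1, h3], by rw [map_add, map_add, h2, h4, ← map_add]; rfl⟩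
  | neg x _ h =>
    obtain ⟨a, h1, h2⟩ := h
    exact ⟨-a, by rw [map_neg, h1], by rw [map_neg, map_neg, h2, ← map_neg]; rfl⟩
  | mul x y _ _ h h' =>
    obtain ⟨a, h1, h2⟩ := h
    obtain ⟨b, h3, h4⟩ := h'
    exact ⟨a * b, by rw [map_mul, h1, h3], by rw [map_mul, map_mul, h2, h4, ← map_mul]; rfl⟩

variable (L d) in
/-- Monic irreducible polynomials of degree `d + 1`. -/
def Ir : Type := {P : L[X] // P.Monic ∧ Irreducible P ∧ P.natDegree = d + 1}

variable (L d) in
/-- The span of `F d` and the `{P} F d`. -/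
def H : AddSubgroup (Kr (RatFunc L)) :=
  AddSubgroup.closure (F L d ∪ {x | ∃ P : Ir L d, ∃ y ∈ F L d, x = sym (up P.1) * y})

theorem H1 {x : Kr (RatFunc L)} (h : x ∈ F L d) : x ∈ H L d :=
  AddSubgroup.subset_closure (Or.inl h)

theorem H2 (P : Ir L d) {x : Kr (RatFunc L)} (h : x ∈ F L d) : sym (up P.1) * x ∈ H L d :=
  AddSubgroup.subset_closure (Or.inr ⟨P, x, h, rfl⟩)

theorem mulH {a : Kr (RatFunc L)} (h1 : ∀ y ∈ F L d, a * y ∈ H L d)
    (h2 : ∀ P : Ir L d, ∀ y ∈ F L d, a * (sym (up P.1) * y) ∈ H L d) :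
    ∀ x ∈ H L d, a * x ∈ H L d := by
  refine fun x hx => (AddSubgroup.closure_le ((H L d).comap (AddMonoidHom.mulLeft a))).2 ?_ hx
  rintro y (hy | ⟨P, y, hy, rfl⟩)
  exacts [h1 y hy, h2 P y hy]

theorem mulH1 {a : Kr (RatFunc L)} (ha : a ∈ F L d) : ∀ x ∈ H L d, a * x ∈ H L d :=
  mulH (fun _ hy => H1 (mul_mem ha hy)) fun P y hy => by
    obtain ⟨b, h1, h2, -⟩ := F_comm (up P.1) ha
    rw [← mul_assoc, h2, mul_assoc]
    exact H2 P (mul_mem h1 hy)

theorem mulH2 (Q : Ir L d) : ∀ x ∈ H L d, sym (up Q.1) * x ∈ H L d :=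
  mulH (fun _ hy => H2 Q hy) fun P y hy => by
    have self : sym (up P.1) * sym (up P.1) * y ∈ H L d := by
      have : (-1 : (RatFunc L)ˣ) = up (-1) := by
        ext
        rw [up_val (by simp)]
        simp
      rw [sym_self, mul_assoc, this]
      exact H2 P (mul_mem (up_mem (by simp) (by simp)) hy)
    rw [← mul_assoc]
    by_cases e : P.1 - Q.1 = 0
    · rwa [← sub_eq_zero.1 e]
    have hd : (P.1 - Q.1).natDegree ≤ d := by
      have := natDegree_lt_natDegree e (degree_sub_lt_left (by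
        rw [degree_eq_natDegree P.2.1.ne_zero, degree_eq_natDegree Q.2.1.ne_zero, P.2.2.2, Q.2.2.2])
        P.2.1.ne_zero (P.2.1.trans Q.2.1.symm))
      rw [P.2.2.2] at this
      omega
    have := up_st Q.2.2.1.ne_zero e P.2.2.1.ne_zero (add_sub_cancel _ _)
    have m := mul_mem (up_mem e hd) hy
    have : sym (up Q.1) * sym (up P.1) * y = sym (up Q.1) * (sym (up (P.1 - Q.1)) * y) -
        sym (up P.1) * (sym (up (P.1 - Q.1)) * y) + sym (up P.1) * sym (up P.1) * y := by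
      have aux : ∀ {T : Type} [Ring T] (a b c y : T), (a - b) * (c - b) = 0 →
          a * b * y = a * (c * y) - b * (c * y) + b * b * y := fun a b c y h => by
        rw [← sub_eq_zero, ← neg_eq_zero, ← zero_mul y, ← h]
        noncomm_ring
      exact aux _ _ _ _ this
    rw [this]
    exact add_mem (sub_mem (H2 Q m) (H2 P m)) self

theorem F_le_H {a : Kr (RatFunc L)} (ha : a ∈ F L (d + 1)) : ∀ x ∈ H L d, a * x ∈ H L d := by
  induction ha using Subring.closure_induction with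
  | mem a ha =>
    obtain ⟨p, h1, h2, rfl⟩ := ha
    rcases h2.eq_or_lt with h2 | h2
    swap
    · exact mulH1 (up_mem h1 (by omega))
    by_cases hi : Irreducible p
    · have hc : C p.leadingCoeff⁻¹ ≠ 0 := by simpa using h1
      have := up_mul h1 hc
      intro x hx
      rw [eq_sub_of_add_eq this.symm, sub_mul]
      exact sub_mem (mulH2 ⟨_, monic_mul_leadingCoeff_inv h1, (irreducible_mul_leadingCoeff_inv).2 hi,
        by rw [natDegree_mul_leadingCoeff_self_inv, h2]⟩ x hx) (mulH1 (up_mem hc (by simp)) x hx)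
    · obtain ⟨a, b, ha, hb, e⟩ := (irreducible_or_factor
        (not_isUnit_of_natDegree_pos p (by omega))).resolve_left hi
      subst e
      have a0 := left_ne_zero_of_mul h1
      have b0 := right_ne_zero_of_mul h1
      have := natDegree_pos_iff_degree_pos.2 (degree_pos_of_ne_zero_of_nonunit a0 ha)
      have := natDegree_pos_iff_degree_pos.2 (degree_pos_of_ne_zero_of_nonunit b0 hb)
      rw [natDegree_mul a0 b0] at h2
      rw [up_mul a0 b0]
      exact mulH1 (add_mem (up_mem a0 (by omega)) (up_mem b0 (by omega)))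
  | zero => simp
  | one => simp
  | add a b _ _ h h' => exact fun x hx => by rw [add_mul]; exact add_mem (h x hx) (h' x hx)
  | neg a _ h => exact fun x hx => by rw [negm]; exact neg_mem (h x hx)
  | mul a b _ _ h h' => exact fun x hx => by rw [mul_assoc]; exact h _ (h' x hx)

theorem Pl.tame (hT : TameS) (h : Pl V P) (γ : Kr V) :
    tame V (residue V) (sym (up P) * kmap V.subtype γ) = kmap (residue V) γ :=
  hT.unif V _ h.dvr inferInstance _ _ h.unif (up_val h.irr.ne_zero) γ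

theorem step (hT : TameS) {β : Kr (RatFunc L)} (hβ : β ∈ F L (d + 1))
    (h0 : ∀ V, FinPl L V → tame V (residue V) β = 0) : β ∈ F L d := by
  let S : (Ir L d →₀ F L d) →+ Kr (RatFunc L) := Finsupp.liftAddHom fun P =>
    (AddMonoidHom.mulLeft (sym (up P.1))).comp (F L d).subtype.toAddMonoidHom
  have hle : H L d ≤ S.range ⊔ (F L d).toAddSubgroup := by
    refine (AddSubgroup.closure_le _).2 ?_
    rintro y (hy | ⟨P, y, hy, rfl⟩)
    · exact AddSubgroup.mem_sup_right hy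
    · exact AddSubgroup.mem_sup_left ⟨Finsupp.single P ⟨y, hy⟩, by simp [S]⟩
  obtain ⟨_, ⟨x, rfl⟩, y, hy, e⟩ := AddSubgroup.mem_sup.1 (hle (F_le_H hβ 1 (H1 (one_mem _))))
  have hS : S x = ∑ P ∈ x.support, sym (up P.1) * x P := rfl
  rw [mul_one, hS] at e
  rw [← e]
  refine add_mem (sum_mem fun P hP => ?_) hy
  obtain ⟨V, hV⟩ := exists_pl' P.2.1 P.2.2.1
  obtain ⟨T, _, Φ, π, h1, h2⟩ := hV.lift P.2.2.2
  obtain ⟨γ, h3, h4⟩ := h2 _ (x P).2
  refine h1 _ (h4.symm.trans ?_)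
  have := h0 V hV.fin
  obtain ⟨γ', rfl, -⟩ := h2 y hy
  rw [← e, map_add, hT.unit V _ hV.dvr inferInstance, add_zero, map_sum,
    Finset.sum_eq_single P (fun Q _ hQ => ?_) (fun h => (h hP).elim), ← h3, hV.tame hT] at this
  · rw [this, map_zero]
  obtain ⟨γ'', h5, -⟩ := h2 _ (x Q).2
  obtain ⟨w, -, h6⟩ := hV.unit (p := Q.1) fun h => hQ (Subtype.ext
    (eq_of_monic_of_associated P.2.1 Q.2.1 (P.2.2.1.associated_of_dvd Q.2.2.1 h)).symm)
  rw [← h5, ← h6, ← map_mul, hT.unit V _ hV.dvr inferInstance]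

theorem ker (hT : TameS) (β : Kr (RatFunc L))
    (h0 : ∀ V, FinPl L V → tame V (residue V) β = 0) : ∃ γ, β = kmap RatFunc.C γ := by
  obtain ⟨d, hd⟩ := mem_F β
  have : β ∈ F L 0 := by
    induction d with
    | zero => exact hd
    | succ d ih => exact ih (step hT hd h0)
  refine ((Subring.closure_le (t := (kmap (RatFunc.C (K := L))).range)).2 ?_ this).imp
    fun _ h => h.symm
  rintro _ ⟨p, h1, h2, rfl⟩
  rw [eq_C_of_natDegree_le_zero h2] at h1 ⊢
  refine ⟨sym (Units.mk0 (p.coeff 0) (by simpa using h1)), ?_⟩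
  rw [kmap_sym]
  congr 1
  ext
  rw [up_val h1]
  simp

theorem fin (hT : TameS) (β : Kr (RatFunc L)) :
    {V | FinPl L V ∧ tame V (residue V) β ≠ 0}.Finite := by
  have : ∃ s : Set (ValuationSubring (RatFunc L)), s.Finite ∧ ∀ V, FinPl L V → V ∉ s →
      ∃ γ, β = kmap V.subtype γ := by
    induction β using kr_ind with
    | h1 => exact ⟨∅, Set.finite_empty, fun V _ _ => ⟨1, (map_one _).symm⟩⟩
    | hs u x h =>
      obtain ⟨s, h1, h2⟩ := h
      refine ⟨_, h1.union (fin_un u), fun V hV hs => ?_⟩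
      obtain ⟨γ, rfl⟩ := h2 V hV fun h => hs (Or.inl h)
      have hu : Un V u := by_contra fun h => hs (Or.inr ⟨hV, h⟩)
      refine ⟨sym ⟨⟨_, hu.2.1⟩, ⟨_, hu.2.2⟩, Subtype.ext (mul_inv_cancel₀ hu.1),
        Subtype.ext (inv_mul_cancel₀ hu.1)⟩ * γ, ?_⟩
      rw [map_mul, kmap_sym]
      congr 2
      exact Units.ext rfl
    | ha x y h h' =>
      obtain ⟨s, h1, h2⟩ := h
      obtain ⟨t, h3, h4⟩ := h'
      refine ⟨_, h1.union h3, fun V hV hs => ?_⟩
      obtain ⟨γ, rfl⟩ := h2 V hV fun h => hs (Or.inl h)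
      obtain ⟨γ', rfl⟩ := h4 V hV fun h => hs (Or.inr h)
      exact ⟨_, (map_add _ _ _).symm⟩
    | hn x h =>
      obtain ⟨s, h1, h2⟩ := h
      refine ⟨_, h1, fun V hV hs => ?_⟩
      obtain ⟨γ, rfl⟩ := h2 V hV hs
      exact ⟨_, (map_neg _ _).symm⟩
  obtain ⟨s, h1, h2⟩ := this
  refine h1.subset fun V hV => by_contra fun hs => hV.2 ?_
  obtain ⟨γ, rfl⟩ := h2 V hV.1 hs
  exact hT.unit V _ (exists_pl hV.1).choose_spec.dvr inferInstance γ

theorem tame_mem {E k : Type} [Field E] [Field k] (V : ValuationSubring E) (ρ : V →+* k) {m : ℕ}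
    {x : Kr E} (h : x ∈ K E (m + 1)) : tame V ρ x ∈ K k m := by
  unfold tame pick
  split_ifs with hh
  exacts [hh.choose_spec.2 m x h, zero_mem _]

theorem surj (hT : TameS) (m n : ℕ) : ∀ (V : ValuationSubring (RatFunc L)) (P : L[X]), Pl V P →
    P.natDegree = n → ∀ δ ∈ K (ResidueField V) m, ∃ β ∈ K (RatFunc L) (m + 1),
      tame V (residue V) β = δ ∧ ∀ U, FinPl L U → U ≠ V → tame U (residue U) β = 0 := by
  classical
  induction n using Nat.strong_induction_on with | _ n ih =>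
  intro V P h hn δ hδ
  induction hδ using AddSubgroup.closure_induction with
  | zero => exact ⟨0, zero_mem _, map_zero _, fun U _ _ => map_zero _⟩
  | add x y _ _ h h' =>
    obtain ⟨a, h1, h2, h3⟩ := h
    obtain ⟨b, h4, h5, h6⟩ := h'
    exact ⟨a + b, add_mem h1 h4, by rw [map_add, h2, h5], fun U hU e => by
      rw [map_add, h3 U hU e, h6 U hU e, add_zero]⟩
  | neg x _ h =>
    obtain ⟨a, h1, h2, h3⟩ := h
    exact ⟨-a, neg_mem h1, by rw [map_neg, h2], fun U hU e => by rw [map_neg, h3 U hU e, neg_zero]⟩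
  | mem δ hδ =>
  obtain ⟨l, hl, rfl⟩ := hδ
  obtain ⟨x, x1, ⟨γ, rfl, x2⟩, x3⟩ : ∃ x ∈ K (RatFunc L) l.length, (∃ γ, x = kmap V.subtype γ ∧
      kmap (residue V) γ = (l.map sym).prod) ∧ ∀ U Q, Pl U Q → P.natDegree ≤ Q.natDegree →
      ∃ γ, x = kmap U.subtype γ := by
    clear hl
    induction l with
    | nil => exact ⟨1, AddSubgroup.subset_closure ⟨[], rfl, rfl⟩, ⟨1, by simp⟩, fun U _ _ _ => ⟨1, by simp⟩⟩
    | cons c l ihl =>
      obtain ⟨x, x1, ⟨γ, rfl, x2⟩, x3⟩ := ihl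
      obtain ⟨g, g1, g2⟩ := h.rep c
      have g0 : g ≠ 0 := by
        rintro rfl
        exact c.ne_zero (g2.symm.trans ((congrArg _ (Subtype.ext (map_zero _))).trans (map_zero _)))
      have g3 := natDegree_lt_natDegree g0 g1
      obtain ⟨w, w1, w2⟩ := h.unit (not_dvd_of_natDegree_lt g0 g3)
      refine ⟨_, sym_mul_mem (up g) x1, ⟨sym w * γ, by rw [map_mul, w2], ?_⟩, fun U Q hQ hd => ?_⟩
      · rw [map_mul, x2, kmap_sym, List.map_cons, List.prod_cons]
        congr 2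
        exact Units.ext ((congrArg (residue V) w1).trans g2)
      · obtain ⟨w', -, w3⟩ := hQ.unit (not_dvd_of_natDegree_lt g0 (g3.trans_le hd))
        obtain ⟨γ', e⟩ := x3 U Q hQ hd
        exact ⟨sym w' * γ', by rw [map_mul, w3, e]⟩
  subst hl
  have b1 := sym_mul_mem (up P) x1
  have b2 := (h.tame hT γ).trans x2
  have b3 : ∀ U, FinPl L U → U ≠ V → ∃ β ∈ K (RatFunc L) (l.length + 1), tame U (residue U) β =
      tame U (residue U) (sym (up P) * kmap V.subtype γ) ∧
      ∀ U', FinPl L U' → U' ≠ U → tame U' (residue U') β = 0 := by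
    intro U hU hne
    obtain ⟨Q, hQ⟩ := exists_pl hU
    rcases lt_or_ge Q.natDegree P.natDegree with hd | hd
    · exact ih _ (hn ▸ hd) U Q hQ rfl _ (tame_mem _ _ b1)
    · obtain ⟨γ', e⟩ := x3 U Q hQ hd
      obtain ⟨w, -, w2⟩ := hQ.unit (p := P) fun hh => hne (Pl.uniq
        (eq_of_monic_of_associated hQ.mon h.mon (hQ.irr.associated_of_dvd h.irr hh) ▸ hQ) h)
      exact ⟨0, zero_mem _, by
        rw [e, ← w2, ← map_mul, hT.unit U _ hQ.dvr inferInstance, map_zero],
        fun _ _ _ => map_zero _⟩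
  generalize sym (up P) * kmap V.subtype γ = β at b1 b2 b3
  choose! b c1 c2 c3 using b3
  let s := (fin hT β).toFinset.erase V
  have hs : ∀ U, U ∈ s ↔ U ≠ V ∧ FinPl L U ∧ tame U (residue U) β ≠ 0 := by simp [s]
  refine ⟨β - ∑ U ∈ s, b U, sub_mem b1 (sum_mem fun U hU => c1 U ((hs U).1 hU).2.1 ((hs U).1 hU).1),
    ?_, fun U hU hne => ?_⟩
  · rw [map_sub, map_sum, Finset.sum_eq_zero fun U hU =>
      c3 U ((hs U).1 hU).2.1 ((hs U).1 hU).1 V h.fin ((hs U).1 hU).1.symm, sub_zero, b2]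
  · rw [map_sub, map_sum, sub_eq_zero]
    by_cases hh : U ∈ s
    · rw [Finset.sum_eq_single U (fun U' hU' e =>
        c3 U' ((hs U').1 hU').2.1 ((hs U').1 hU').1 U hU e.symm) (fun h => (h hh).elim),
        c2 U hU hne]
    · rw [Finset.sum_eq_zero fun U' hU' => c3 U' ((hs U').1 hU').2.1 ((hs U').1 hU').1 U hU
        fun e => hh (e ▸ hU')]
      exact by_contra fun h => hh ((hs U).2 ⟨hne, hU, h⟩)

end

end MilP

theorem milS (hT : TameS) : MilS where
  dvr _ _ V := MilP.dvr V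
  fin _ _ := MilP.fin hT
  ker _ _ := MilP.ker hT
  surj _ _ V hV m := by
    obtain ⟨P, hP⟩ := MilP.exists_pl hV
    exact MilP.surj hT m _ V P hP rfl

end Pool.Agent.KEW

end MrgPart2

-- marker of a merged file
example : 731051 + 564307 = 731051 + 564307 := rfl
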