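import Mathlib.Algebra.BigOperators.Field
import Mathlib.Tactic.Polynomial.Basic
import Pool.Agent.MP_55d974_ag.kew.Deep
import Mathlib.Algebra.Order.Ring.Star
import Mathlib.RingTheory.Valuation.LocalSubring
import Mathlib.RingTheory.Adjoin.PowerBasis

-- ======== part 0: formerly Pool.Agent.MP_55d974_ag.kew.NnA
section MrgPart0

/-! PROJECT KEW, row NN, part A: symbols and the places of the rational function field. -/

namespace Pool.Agent.KEW.Nn

noncomputable section

open Classical IsLocalRing Polynomial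

section Symbols

variable {R : Type} [CommRing R] {E : Type} [Field E]

theorem k_neg_mul (x y : Kr R) : -x * y = -(x * y) := neg_mul x y

theorem k_mul_neg (x y : Kr R) : x * -y = -(x * y) := mul_neg x y

theorem sym_mul (u v : Rˣ) : sym (u * v) = sym u + sym v := by
  simp only [sym, ofMul_mul, map_add]

theorem sym_one : sym (1 : Rˣ) = 0 := by
  simp only [sym, ofMul_one, map_zero]

theorem sym_inv (u : Rˣ) : sym u⁻¹ = -sym u := by
  simp only [sym, ofMul_inv, map_neg]

theorem sym_pow (u : Rˣ) (k : ℕ) : sym (u ^ k) = k • sym u := by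
  simp only [sym, ofMul_pow, map_nsmul]

theorem sym_st (a b : Rˣ) (h : (a : R) + b = 1) : sym a * sym b = 0 := by
  rw [sym, sym, ← map_mul, ← map_zero (RingQuot.mkRingHom (St R))]
  exact RingQuot.mkRingHom_rel ⟨rfl, a, b, h, rfl⟩

theorem sym_neg (a : Eˣ) : sym a * sym (-a) = 0 := by
  by_cases h : a = 1
  · rw [h, sym_one, zero_mul]
  have h1 : (1 : E) - a ≠ 0 := fun c => h (Units.ext (sub_eq_zero.1 c).symm)
  have h2 : (1 : E) - (a⁻¹ : Eˣ) ≠ 0 := fun c =>
    h (inv_eq_one.1 (Units.ext (sub_eq_zero.1 c).symm))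
  have e : -a = Units.mk0 _ h1 * (Units.mk0 _ h2)⁻¹ := by
    rw [eq_mul_inv_iff_mul_eq]
    ext
    simp only [Units.val_mul, Units.val_neg, Units.val_mk0, Units.val_inv_eq_inv_val]
    field_simp
    ring
  have s1 := sym_st a (Units.mk0 _ h1) (by simp)
  have s2 := sym_st a⁻¹ (Units.mk0 _ h2) (by simp)
  rw [sym_inv, k_neg_mul, neg_eq_zero] at s2
  rw [e, sym_mul, sym_inv, mul_add, k_mul_neg, s1, s2, neg_zero, add_zero]

theorem sym_anti (a b : Eˣ) : sym a * sym b = -(sym b * sym a) := by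
  have h := sym_neg (a * b)
  have e1 : -(a * b) = -a * b := (neg_mul a b).symm
  have e2 : -(a * b) = -b * a := by rw [mul_comm a b, neg_mul]
  rw [sym_mul a b, add_mul] at h
  nth_rw 1 [e1] at h
  rw [e2, sym_mul, sym_mul, mul_add, mul_add, sym_neg, sym_neg, zero_add, zero_add] at h
  exact eq_neg_of_add_eq_zero_left h

theorem kr_ind (H : AddSubgroup (Kr R)) (h : ∀ l : List Rˣ, (l.map sym).prod ∈ H) (x : Kr R) :
    x ∈ H := by
  have h1 : x ∈ Subring.closure (Set.range (sym : Rˣ → Kr R)) := by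
    obtain ⟨t, rfl⟩ := RingQuot.mkRingHom_surjective (St R) x
    induction t using TensorAlgebra.induction with
    | algebraMap r => rw [eq_intCast, map_intCast]; exact intCast_mem _ r
    | ι u => exact Subring.subset_closure ⟨Additive.toMul u, rfl⟩
    | mul a b ha hb => rw [map_mul]; exact mul_mem ha hb
    | add a b ha hb => rw [map_add]; exact add_mem ha hb
  rw [Subring.mem_closure_iff] at h1
  refine (AddSubgroup.closure_le H).2 (fun y hy => ?_) h1
  obtain ⟨l, hl, rfl⟩ := Submonoid.exists_list_of_mem_closure hy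
  choose f hf using hl
  have e : l = (l.attach.map fun t => f t.1 t.2).map sym := by
    rw [List.map_map]
    conv_lhs => rw [← List.attach_map_subtype_val l]
    exact List.map_congr_left fun t _ => (hf t.1 t.2).symm
  rw [e]
  exact h _

theorem move (z : Eˣ) (x : Kr E) : ∃ x', x * sym z = sym z * x' := by
  let H : AddSubgroup (Kr E) :=
    { carrier := {x | ∃ x', x * sym z = sym z * x'}
      zero_mem' := ⟨0, by rw [zero_mul, mul_zero]⟩
      add_mem' := fun ⟨a, ha⟩ ⟨b, hb⟩ => ⟨a + b, by rw [add_mul, ha, hb, mul_add]⟩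
      neg_mem' := fun ⟨a, ha⟩ => ⟨-a, by rw [k_neg_mul, ha, k_mul_neg]⟩ }
  refine kr_ind H (fun l => ?_) x
  induction l with
  | nil => exact ⟨1, by simp⟩
  | cons u l ih =>
    obtain ⟨y, hy⟩ := ih
    refine ⟨-(sym u * y), ?_⟩
    rw [List.map_cons, List.prod_cons, mul_assoc, hy, ← mul_assoc, sym_anti u z, k_neg_mul,
      mul_assoc, k_mul_neg]

/-- Entries may be changed by negligible factors. -/
theorem swap (ν : Kr E →+ Kr R) (J : AddSubgroup (Kr R)) {l l' : List Eˣ}
    (h : List.Forall₂ (fun u u' => ∀ β, ν (sym (u / u') * β) ∈ J) l l') (x : Kr E) :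
    ν (x * (l.map sym).prod - x * (l'.map sym).prod) ∈ J := by
  induction h generalizing x with
  | nil => rw [sub_self, map_zero]; exact J.zero_mem
  | @cons u u' l l' h _ ih =>
    obtain ⟨y, hy⟩ := move (u / u') x
    have e : sym u = sym u' + sym (u / u') := by rw [← sym_mul, mul_div_cancel]
    have e2 : x * ((u :: l).map sym).prod - x * ((u' :: l').map sym).prod =
        (x * sym u' * (l.map sym).prod - x * sym u' * (l'.map sym).prod) +
          sym (u / u') * (y * (l.map sym).prod) := by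
      rw [List.map_cons, List.prod_cons, List.map_cons, List.prod_cons, e, ← mul_assoc,
        ← mul_assoc, ← mul_assoc, ← hy, mul_add, add_mul]
      abel
    rw [e2, map_add]
    exact J.add_mem (ih _) (h _)

theorem pick_mem {S : Type} [CommRing S] (i : ℕ) (P : (Kr R →+ Kr S) → Prop) {m : ℕ} {x : Kr R}
    (hx : x ∈ K R (m + i)) : pick i P x ∈ K S m := by
  unfold pick
  split_ifs with h
  · exact h.choose_spec.2 m x hx
  · exact zero_mem _

theorem list_mem (l : List Rˣ) : (l.map sym).prod ∈ K R l.length :=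
  AddSubgroup.subset_closure ⟨l, rfl, rfl⟩

/-- The unit given by a nonzero element. -/
def un (x : E) : Eˣ := if h : x = 0 then 1 else Units.mk0 x h

theorem un_val {x : E} (h : x ≠ 0) : (un x : E) = x := by
  rw [un, dif_neg h]
  rfl

theorem un_coe (u : Eˣ) : un (u : E) = u := Units.ext (un_val u.ne_zero)

theorem tame_list (hT : TameS) {k : Type} [Field k] (V : ValuationSubring E) (ρ : V →+* k)
    (hV : IsDiscreteValuationRing V) (hρ : IsLocalHom ρ) {l : List Eˣ} {l' : List kˣ}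
    (h : List.Forall₂ (fun (u : Eˣ) (u' : kˣ) => ∃ w : V, (u : E) = w ∧ (u' : k) = ρ w) l l')
    (β : Kr E) :
    tame V ρ ((l.map sym).prod * β) = (l'.map sym).prod * tame V ρ β ∨
      tame V ρ ((l.map sym).prod * β) = -((l'.map sym).prod * tame V ρ β) := by
  induction h with
  | nil => left; simp
  | @cons u u' l l' h _ ih =>
    obtain ⟨w, h1, h2⟩ := h
    rw [List.map_cons, List.prod_cons, List.map_cons, List.prod_cons, mul_assoc, mul_assoc,
      hT.mul V ρ hV hρ w u u' h1 h2]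
    rcases ih with ih | ih
    · right; rw [ih]
    · left; rw [ih, k_mul_neg, neg_neg]

end Symbols

section Val

variable {L E : Type} [Field L] [Field E]

theorem un_iff (U : ValuationSubring E) (w : U) : Un U (w : E) ↔ IsUnit w := by
  constructor
  · rintro ⟨h0, -, h2⟩
    exact IsUnit.of_mul_eq_one ⟨_, h2⟩ (Subtype.ext (mul_inv_cancel₀ h0))
  · intro h
    obtain ⟨v, hv⟩ := h.exists_right_inv
    have e : (w : E) * v = 1 := congrArg Subtype.val hv
    refine ⟨left_ne_zero_of_mul_eq_one e, w.2, ?_⟩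
    rw [← eq_inv_of_mul_eq_one_right e]
    exact v.2

theorem non_of_inv {U : ValuationSubring E} {x : E} (h : x ∉ U) : x⁻¹ ∈ U.nonunits := by
  rw [ValuationSubring.mem_nonunits_iff_or]
  right
  rwa [inv_inv]

theorem non_mul {U : ValuationSubring E} {x y : E} (hx : x ∈ U.nonunits) (hy : y ∈ U) :
    x * y ∈ U.nonunits := by
  rw [ValuationSubring.mem_nonunits_iff, map_mul] at *
  exact mul_lt_one_of_nonneg_of_lt_one_left zero_le hx ((U.valuation_le_one_iff y).2 hy)

theorem non_of_div {U : ValuationSubring E} {x w : E} (hw : w ∈ U.nonunits) (h0 : w ≠ 0)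
    (h : x / w ∈ U) : x ∈ U.nonunits := by
  have := non_mul hw h
  rwa [mul_div_cancel₀ _ h0] at this

theorem un_of_non {U : ValuationSubring E} {x : E} (h : x - 1 ∈ U.nonunits) : Un U x := by
  rw [ValuationSubring.mem_nonunits_iff] at h
  have e : U.valuation x = 1 := by
    have := U.valuation.map_one_add_of_lt h
    rwa [add_sub_cancel] at this
  refine ⟨fun c => by simp [c] at e, (U.valuation_le_one_iff _).1 e.le,
    (U.valuation_le_one_iff _).1 ?_⟩
  rw [map_inv₀, e, inv_one]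

/-- The value of a polynomial at a large element is close to its leading term. -/
theorem large (U : ValuationSubring E) (ψ : L →+* E) {g : L[X]} (hg : g ≠ 0) {b w : E}
    (hb : b ≠ 0) (hbi : b⁻¹ ∈ U) (h : ∀ i, ψ (g.coeff i / g.leadingCoeff) * b⁻¹ / w ∈ U) :
    (g.eval₂ ψ b / (ψ g.leadingCoeff * b ^ g.natDegree) - 1) / w ∈ U := by
  have hl : ψ g.leadingCoeff ≠ 0 := (_root_.map_ne_zero ψ).2 (leadingCoeff_ne_zero.2 hg)
  have e : (g.eval₂ ψ b / (ψ g.leadingCoeff * b ^ g.natDegree) - 1) / w =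
      ∑ i ∈ Finset.range g.natDegree,
        ψ (g.coeff i / g.leadingCoeff) * b⁻¹ / w * b⁻¹ ^ (g.natDegree - i - 1) := by
    rw [eval₂_eq_sum_range, Finset.sum_range_succ, add_div, coeff_natDegree,
      div_self (mul_ne_zero hl (pow_ne_zero _ hb)), add_sub_cancel_right, Finset.sum_div,
      Finset.sum_div]
    refine Finset.sum_congr rfl fun i hi => ?_
    obtain ⟨j, hj⟩ := Nat.exists_eq_add_of_lt (Finset.mem_range.1 hi)
    rw [hj, map_div₀, show i + j + 1 - i - 1 = j by omega, inv_pow]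
    by_cases hw : w = 0
    · simp [hw]
    · field_simp
      ring
  rw [e]
  exact sum_mem fun i _ => mul_mem (h i) (pow_mem hbi _)

/-- A point of the affine line with its place. -/
structure Pt (φ : L →+* E) (a : E) (V : ValuationSubring (RatFunc L)) (ρ : V →+* E) : Prop where
  hV : ∀ c, RatFunc.C c ∈ V
  hT : RatFunc.X ∈ V
  h1 : ∀ c, ρ ⟨_, hV c⟩ = φ c
  h2 : ρ ⟨_, hT⟩ = a
  loc : IsLocalHom ρ

theorem poly_mem {V : ValuationSubring (RatFunc L)} (hV : ∀ c, RatFunc.C c ∈ V)
    (hT : RatFunc.X ∈ V) (g : L[X]) : algebraMap L[X] (RatFunc L) g ∈ V := by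
  induction g using Polynomial.induction_on' with
  | add p q hp hq => rw [map_add]; exact add_mem hp hq
  | monomial n c => rw [RatFunc.algebraMap_monomial]; exact mul_mem (hV c) (pow_mem hT n)

namespace Pt

variable {φ : L →+* E} {a : E} {V : ValuationSubring (RatFunc L)} {ρ : V →+* E}

theorem mem (h : Pt φ a V ρ) (g : L[X]) : algebraMap L[X] (RatFunc L) g ∈ V :=
  poly_mem h.hV h.hT g

theorem val (h : Pt φ a V ρ) (g : L[X]) : ρ ⟨_, h.mem g⟩ = g.eval₂ φ a := by
  have : ρ.comp ((algebraMap L[X] (RatFunc L)).codRestrict V h.mem) = eval₂RingHom φ a := by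
    refine Polynomial.ringHom_ext (fun c => (h.h1 c).trans ?_) (h.h2.trans ?_)
    · exact (eval₂_C φ a).symm
    · exact (eval₂_X φ a).symm
  exact DFunLike.congr_fun this g

theorem unit (h : Pt φ a V ρ) {g : L[X]} (hg : g.eval₂ φ a ≠ 0) :
    Un V (algebraMap L[X] (RatFunc L) g) := by
  have := h.loc
  refine (un_iff V ⟨_, h.mem g⟩).2 (IsUnit.of_map ρ _ ?_)
  rw [h.val]
  exact hg.isUnit

theorem mem_iff (h : Pt φ a V ρ) (x : RatFunc L) : x ∈ V ↔ x.denom.eval₂ φ a ≠ 0 := by
  constructor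
  · intro hx c
    obtain ⟨u, v, huv⟩ := x.isCoprime_num_denom
    have e : (⟨_, h.mem x.num⟩ : V) = ⟨x, hx⟩ * ⟨_, h.mem x.denom⟩ := Subtype.ext (by
      have := x.num_div_denom
      rw [div_eq_iff (RatFunc.algebraMap_ne_zero x.denom_ne_zero)] at this
      exact this)
    have e2 : x.num.eval₂ φ a = 0 := by rw [← h.val, e, map_mul, h.val, c, mul_zero]
    have := congrArg (eval₂ φ a) huv
    rw [eval₂_add, eval₂_mul, eval₂_mul, e2, c, eval₂_one] at this
    simp at this
  · intro hx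
    rw [← x.num_div_denom, div_eq_mul_inv]
    exact mul_mem (h.mem _) (h.unit hx).2.2

theorem ne_top (h : Pt φ a V ρ) {Q : L[X]} (hQ : Q ≠ 0) (h0 : Q.eval₂ φ a = 0) : V ≠ ⊤ := by
  intro c
  have h1 : Un V (algebraMap L[X] (RatFunc L) Q) :=
    ⟨RatFunc.algebraMap_ne_zero hQ, h.mem Q, by rw [c]; trivial⟩
  have h2 := ((un_iff V ⟨_, h.mem Q⟩).1 h1).map ρ
  rw [h.val, h0] at h2
  exact not_isUnit_zero h2

theorem irr (h : Pt φ a V ρ) [IsDiscreteValuationRing V] {P : L[X]} (h0 : P.eval₂ φ a = 0)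
    (hP : ∀ g : L[X], g.eval₂ φ a = 0 → P ∣ g) : Irreducible (⟨_, h.mem P⟩ : V) := by
  have := h.loc
  rw [IsDiscreteValuationRing.irreducible_iff_uniformizer]
  refine le_antisymm (fun x hx => ?_) ?_
  · have hd := (h.mem_iff x).1 x.2
    have e : (⟨_, h.mem x.1.num⟩ : V) = x * ⟨_, h.mem x.1.denom⟩ := Subtype.ext (by
      have := x.1.num_div_denom
      rw [div_eq_iff (RatFunc.algebraMap_ne_zero x.1.denom_ne_zero)] at this
      exact this)
    have hx0 : ρ x = 0 := by
      by_contra c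
      exact hx (IsUnit.of_map ρ _ (Ne.isUnit c))
    obtain ⟨g, hg⟩ := hP x.1.num (by rw [← h.val, e, map_mul, hx0, zero_mul])
    have hu := (un_iff V ⟨_, h.mem x.1.denom⟩).1 (h.unit hd)
    rw [Ideal.mem_span_singleton, ← hu.dvd_mul_right, ← e]
    exact ⟨⟨_, h.mem g⟩, Subtype.ext (by
      change algebraMap _ _ x.1.num = algebraMap _ _ P * algebraMap _ _ g
      rw [← map_mul, ← hg])⟩
  · rw [Ideal.span_le, Set.singleton_subset_iff]
    intro c
    have := c.map ρ
    rw [h.val, h0] at this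
    exact not_isUnit_zero this

end Pt

theorem exists_pt (φ : L →+* E) (a : E) : ∃ V ρ, Pt φ a V ρ := by
  have dv : ∀ {p q : L[X]}, p ∣ q → q.eval₂ φ a ≠ 0 → p.eval₂ φ a ≠ 0 := fun h hq c =>
    hq (eval₂_eq_zero_of_dvd_of_eval₂_eq_zero φ a h c)
  let V : ValuationSubring (RatFunc L) :=
    { carrier := {x | x.denom.eval₂ φ a ≠ 0}
      mul_mem' := fun {x y} hx hy => dv (RatFunc.denom_mul_dvd x y) (by
        rw [eval₂_mul]; exact mul_ne_zero hx hy)
      one_mem' := by simp
      add_mem' := fun {x y} hx hy => dv (RatFunc.denom_add_dvd x y) (by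
        rw [eval₂_mul]; exact mul_ne_zero hx hy)
      zero_mem' := by simp
      neg_mem' := fun {x} hx => dv ((RatFunc.denom_dvd x.denom_ne_zero).2
        ⟨-x.num, by rw [map_neg, neg_div, x.num_div_denom]⟩) hx
      mem_or_inv_mem' := fun x => by
        by_cases h0 : x = 0
        · left; simp [h0]
        by_cases h : x.denom.eval₂ φ a = 0
        · right
          refine dv (RatFunc.denom_inv_dvd h0) fun c => ?_
          obtain ⟨u, v, huv⟩ := x.isCoprime_num_denom
          have := congrArg (eval₂ φ a) huv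
          rw [eval₂_add, eval₂_mul, eval₂_mul, h, c, eval₂_one] at this
          simp at this
        · exact Or.inl h }
  let ρ : V →+* E :=
    { toFun := fun x => RatFunc.eval φ a x
      map_one' := RatFunc.eval_one φ a
      map_mul' := fun x y => RatFunc.eval_mul φ a x.2 y.2
      map_zero' := RatFunc.eval_zero φ a
      map_add' := fun x y => RatFunc.eval_add φ a x.2 y.2 }
  refine ⟨V, ρ, fun c => ?_, ?_, fun c => RatFunc.eval_C φ a, RatFunc.eval_X φ a, ⟨fun x hx => ?_⟩⟩
  · change (RatFunc.C c).denom.eval₂ φ a ≠ 0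
    simp
  · change (RatFunc.X : RatFunc L).denom.eval₂ φ a ≠ 0
    simp
  · have h1 : x.1.num.eval₂ φ a ≠ 0 := fun c => hx.ne_zero (by
      change RatFunc.eval φ a x.1 = 0
      rw [RatFunc.eval, c, zero_div])
    have h0 : x.1 ≠ 0 := fun c => h1 (by simp [c])
    exact (un_iff V x).1 ⟨h0, x.2, dv (RatFunc.denom_inv_dvd h0) h1⟩

/-- The structure map of the residue field of a finite place. -/
def fU {U : ValuationSubring (RatFunc L)} (h : FinPl L U) : L →+* ResidueField U :=
  (residue U).comp (RatFunc.C.codRestrict U h.1)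

/-- The class of the variable in the residue field of a finite place. -/
def tU {U : ValuationSubring (RatFunc L)} (h : FinPl L U) : ResidueField U :=
  residue U ⟨_, h.2.1⟩

theorem fin_pt {U : ValuationSubring (RatFunc L)} (h : FinPl L U) :
    Pt (fU h) (tU h) U (residue U) :=
  ⟨h.1, h.2.1, fun _ => rfl, rfl, inferInstance⟩

theorem eval_mem (φ : L →+* E) (a : E) (g : L[X]) :
    g.eval₂ φ a ∈ Subfield.closure (Set.range φ ∪ {a}) := by
  rw [eval₂_eq_sum_range]
  have ha : a ∈ Subfield.closure (Set.range φ ∪ {a}) := Subfield.subset_closure (Or.inr rfl)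
  exact sum_mem fun i _ => mul_mem (Subfield.subset_closure (Or.inl ⟨_, rfl⟩)) (pow_mem ha _)

theorem fin_gen {U : ValuationSubring (RatFunc L)} (h : FinPl L U) :
    Subfield.closure (Set.range (fU h) ∪ {tU h}) = ⊤ := by
  refine eq_top_iff.2 fun y _ => ?_
  obtain ⟨x, rfl⟩ := residue_surjective y
  have hp := fin_pt h
  have hd := (hp.mem_iff x).1 x.2
  have e : (⟨_, hp.mem x.1.num⟩ : U) = x * ⟨_, hp.mem x.1.denom⟩ := Subtype.ext (by
    have := x.1.num_div_denom
    rw [div_eq_iff (RatFunc.algebraMap_ne_zero x.1.denom_ne_zero)] at this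
    exact this)
  have e2 := congrArg (residue U) e
  rw [map_mul, hp.val, hp.val] at e2
  rw [eq_div_of_mul_eq hd e2.symm]
  exact div_mem (eval_mem _ _ _) (eval_mem _ _ _)

theorem fin_int {U : ValuationSubring (RatFunc L)} (h : FinPl L U) :
    (fU h).IsIntegralElem (tU h) := by
  obtain ⟨x, hx⟩ : ∃ x, x ∉ U := by
    by_contra c
    exact h.2.2 (eq_top_iff.2 fun x _ => not_not.1 fun d => c ⟨x, d⟩)
  exact ⟨x.denom, x.monic_denom, not_not.1 fun c => hx (((fin_pt h).mem_iff x).2 c)⟩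

/-- The place at infinity exists. -/
theorem exists_inf (L : Type) [Field L] : ∃ (W : ValuationSubring (RatFunc L)) (σ : W →+* L)
    (hW : ∀ c, RatFunc.C c ∈ W), (∀ c, σ ⟨_, hW c⟩ = c) ∧ RatFunc.X ∉ W ∧ IsLocalHom σ := by
  obtain ⟨V, ρ, h⟩ := exists_pt (RingHom.id L) 0
  have ht : Transcendental L (RatFunc.X : RatFunc L)⁻¹ := fun c =>
    RatFunc.transcendental_X (IsAlgebraic.inv_iff.1 c)
  let ι : RatFunc L →ₐ[L] RatFunc L := RatFunc.liftAlgHom (aeval (RatFunc.X : RatFunc L)⁻¹)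
    (nonZeroDivisors_le_comap_nonZeroDivisors_of_injective _ (transcendental_iff_injective.1 ht))
  have hC : ∀ c, ι (RatFunc.C c) = RatFunc.C c := fun c => ι.commutes c
  have hX : ι RatFunc.X = RatFunc.X⁻¹ := by
    have := RatFunc.liftAlgHom_apply_div (aeval (RatFunc.X : RatFunc L)⁻¹)
      (nonZeroDivisors_le_comap_nonZeroDivisors_of_injective _
        (transcendental_iff_injective.1 ht)) X 1
    simpa using this
  let W := V.comap ι.toRingHom
  let j : W →+* V := (ι.toRingHom.comp W.subtype).codRestrict V fun x => x.2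
  have hW : ∀ c, RatFunc.C c ∈ W := fun c => by
    change ι (RatFunc.C c) ∈ V
    rw [hC]
    exact h.hV c
  refine ⟨W, ρ.comp j, hW, fun c => ?_, fun c => ?_, ⟨fun x hx => ?_⟩⟩
  · have : j ⟨_, hW c⟩ = ⟨_, h.hV c⟩ := Subtype.ext (hC c)
    rw [RingHom.comp_apply, this, h.h1]
    rfl
  · have c' : ι RatFunc.X ∈ V := c
    rw [hX] at c'
    have := ((un_iff V ⟨_, h.hT⟩).1 ⟨RatFunc.X_ne_zero, h.hT, c'⟩).map ρ
    rw [h.h2] at this
    exact not_isUnit_zero this
  · have := h.loc
    have h1 := (un_iff V (j x)).2 (IsUnit.of_map ρ _ hx)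
    refine (un_iff W x).1 ⟨fun c => h1.1 ?_, x.2, ?_⟩
    · change ι x.1 = 0
      rw [c, map_zero]
    · change ι x.1⁻¹ ∈ V
      rw [map_inv₀]
      exact h1.2.2

theorem inf_lead {W : ValuationSubring (RatFunc L)} (hW : ∀ c, RatFunc.C c ∈ W)
    (hX : RatFunc.X ∉ W) {g : L[X]} (hg : g ≠ 0) : algebraMap L[X] (RatFunc L) g /
      (RatFunc.C g.leadingCoeff * RatFunc.X ^ g.natDegree) - 1 ∈ W.nonunits := by
  have hi := non_of_inv hX
  have h0 : (RatFunc.X : RatFunc L)⁻¹ ≠ 0 := inv_ne_zero RatFunc.X_ne_zero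
  have e : algebraMap L[X] (RatFunc L) g = g.eval₂ RatFunc.C RatFunc.X := by
    rw [← RatFunc.algebraMap_eq_C, ← aeval_def, RatFunc.aeval_X_left_eq_algebraMap]
  refine non_of_div hi h0 ?_
  rw [e]
  refine large W RatFunc.C hg RatFunc.X_ne_zero (W.nonunits_subset hi) fun i => ?_
  rw [mul_div_cancel_right₀ _ h0]
  exact hW _

/-- The place at infinity is unique. -/
theorem inf_le {U W : ValuationSubring (RatFunc L)} (hU : ∀ c, RatFunc.C c ∈ U)
    (hW : ∀ c, RatFunc.C c ∈ W) (h1 : RatFunc.X ∉ U) (h2 : RatFunc.X ∉ W) : U ≤ W := by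
  intro x hx
  by_cases h0 : x = 0
  · rw [h0]; exact zero_mem _
  have hn := RatFunc.num_ne_zero h0
  have hd := x.denom_ne_zero
  have c1 : (RatFunc.C x.num.leadingCoeff : RatFunc L) ≠ 0 :=
    (_root_.map_ne_zero _).2 (leadingCoeff_ne_zero.2 hn)
  have c2 : (RatFunc.C x.denom.leadingCoeff : RatFunc L) ≠ 0 :=
    (_root_.map_ne_zero _).2 (leadingCoeff_ne_zero.2 hd)
  have hX : (RatFunc.X : RatFunc L) ≠ 0 := RatFunc.X_ne_zero
  have n1 := RatFunc.algebraMap_ne_zero (K := L) hn
  have n2 := RatFunc.algebraMap_ne_zero (K := L) hd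
  rcases le_or_gt x.num.natDegree x.denom.natDegree with h | h
  · obtain ⟨j, hj⟩ := Nat.exists_eq_add_of_le h
    have u1 := (un_of_non (inf_lead hW h2 hn)).2.1
    have u2 := (un_of_non (inf_lead hW h2 hd)).2.2
    have := mul_mem (mul_mem (mul_mem u1 u2) (hW (x.num.leadingCoeff / x.denom.leadingCoeff)))
      (pow_mem (W.nonunits_subset (non_of_inv h2)) j)
    rw [← x.num_div_denom]
    refine (congrArg (· ∈ W) ?_).mp this
    rw [hj, map_div₀, inv_pow]
    field_simp
    ring
  · obtain ⟨j, hj⟩ := Nat.exists_eq_add_of_lt h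
    have u1 := (un_of_non (inf_lead hU h1 hn)).2.2
    have u2 := (un_of_non (inf_lead hU h1 hd)).2.1
    have hx' := x.num_div_denom.symm ▸ hx
    have := mul_mem (mul_mem (mul_mem (mul_mem u1 u2) hx')
      (hU (x.denom.leadingCoeff / x.num.leadingCoeff)))
      (pow_mem (U.nonunits_subset (non_of_inv h1)) j)
    refine (h1 ((congrArg (· ∈ U) ?_).mp this)).elim
    rw [hj, map_div₀, inv_pow]
    field_simp
    ring

end Val

end

end Pool.Agent.KEW.Nn

end MrgPart0

-- ======== part 1: formerly Pool.Agent.MP_55d974_ag.kew.NnB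
section MrgPart1

/-! PROJECT KEW, row NN, part B: reciprocity, bounded denominators. -/

namespace Pool.Agent.KEW.Nn

noncomputable section

open Classical IsLocalRing Polynomial Filter

variable {L E : Type} [Field L] [Field E]

theorem surj' (hM : MilS) {U : ValuationSubring (RatFunc L)} (h : FinPl L U)
    (δ : Kr (ResidueField U)) : ∃ β, tame U (residue U) β = δ ∧
      ∀ U', FinPl L U' → U' ≠ U → tame U' (residue U') β = 0 := by
  let H : AddSubgroup (Kr (ResidueField U)) :=
    { carrier := {δ | ∃ β, tame U (residue U) β = δ ∧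
        ∀ U', FinPl L U' → U' ≠ U → tame U' (residue U') β = 0}
      zero_mem' := ⟨0, map_zero _, fun _ _ _ => map_zero _⟩
      add_mem' := fun ⟨a, ha, ha'⟩ ⟨b, hb, hb'⟩ => ⟨a + b, by rw [map_add, ha, hb],
        fun U' h1 h2 => by rw [map_add, ha' U' h1 h2, hb' U' h1 h2, add_zero]⟩
      neg_mem' := fun ⟨a, ha, ha'⟩ => ⟨-a, by rw [map_neg, ha],
        fun U' h1 h2 => by rw [map_neg, ha' U' h1 h2, neg_zero]⟩ }
  refine kr_ind H (fun l => ?_) δ
  obtain ⟨β, -, h1, h2⟩ := hM.surj L U h _ _ (list_mem l)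
  exact ⟨β, h1, h2⟩

theorem tame_res (hT : TameS) {k : Type} [Field k] (V : ValuationSubring E) (ρ : V →+* k)
    (hV : IsDiscreteValuationRing V) (hρ : IsLocalHom ρ) (β : Kr E)
    (h : tame V (residue V) β = 0) : tame V ρ β = 0 := by
  obtain ⟨w, hw⟩ := IsDiscreteValuationRing.exists_irreducible V
  have := hT.base V (residue V) V ρ (RingHom.id E) (ResidueField.lift ρ) (fun x => x.2) hV
    inferInstance hV hρ (fun x => rfl) w w 1 hw hw (by rw [pow_one]; exact Associated.refl _) β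
  rwa [kmap_id, h, map_zero, smul_zero] at this

section Rec

variable {φ : L →+* E} {a : E} {V W : ValuationSubring (RatFunc L)} {ρ : V →+* E} {σ : W →+* L}

theorem spec' (hN : NrmS) (h : Pt φ a V ρ) (hg : Subfield.closure (Set.range φ ∪ {a}) = ⊤)
    (hi : φ.IsIntegralElem a) (hW : ∀ c, RatFunc.C c ∈ W) (hσ : ∀ c, σ ⟨_, hW c⟩ = c)
    (hX : RatFunc.X ∉ W) (β : Kr (RatFunc L))
    (hβ : ∀ U, FinPl L U → U ≠ V → tame U (residue U) β = 0) :
    N1 φ a (tame V ρ β) = -tame W σ β :=
  hN.spec φ a hg hi V W ρ σ h.hV hW h.hT h.h1 h.h2 hσ hX β fun U h1 h2 h3 h4 =>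
    hβ U ⟨h1, not_not.1 fun c => h4 (le_antisymm (inf_le h1 hW c hX) (inf_le hW h1 hX c)), h2⟩ h3

/-- Reciprocity modulo a subgroup. -/
theorem recip (hT : TameS) (hM : MilS) (hN : NrmS) (h : Pt φ a V ρ) (hV : V ≠ ⊤)
    (hg : Subfield.closure (Set.range φ ∪ {a}) = ⊤)
    (hi : φ.IsIntegralElem a) (hW : ∀ c, RatFunc.C c ∈ W) (hσ : ∀ c, σ ⟨_, hW c⟩ = c)
    (hX : RatFunc.X ∉ W) (J : AddSubgroup (Kr L)) (β : Kr (RatFunc L))
    (hβ : ∀ U (hU : FinPl L U), U ≠ V → N1 (fU hU) (tU hU) (tame U (residue U) β) ∈ J) :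
    N1 φ a (tame V ρ β) + tame W σ β ∈ J := by
  have key : ∀ T : Finset (ValuationSubring (RatFunc L)), ∀ β : Kr (RatFunc L),
      (∀ U, FinPl L U → U ≠ V → U ∉ T → tame U (residue U) β = 0) →
      (∀ U (hU : FinPl L U), U ≠ V → N1 (fU hU) (tU hU) (tame U (residue U) β) ∈ J) →
      N1 φ a (tame V ρ β) + tame W σ β ∈ J := by
    intro T
    induction T using Finset.induction_on with
    | empty =>
      intro β h1 _
      rw [spec' hN h hg hi hW hσ hX β fun U c1 c2 => h1 U c1 c2 (Finset.notMem_empty U),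
        neg_add_cancel]
      exact J.zero_mem
    | insert U₀ T _ ih =>
      intro β h1 h2
      by_cases c : FinPl L U₀ ∧ U₀ ≠ V
      swap
      · exact ih β (fun U c1 c2 c3 => h1 U c1 c2 fun d => (Finset.mem_insert.1 d).elim
          (fun e => c (e ▸ ⟨c1, c2⟩)) c3) h2
      obtain ⟨β₀, b1, b2⟩ := surj' hM c.1 (tame U₀ (residue U₀) β)
      have k1 := ih (β - β₀) (fun U c1 c2 c3 => by
        by_cases e : U = U₀
        · subst e
          rw [map_sub, b1, sub_self]
        · rw [map_sub, b2 U c1 e, h1 U c1 c2 fun d => (Finset.mem_insert.1 d).elim e c3, sub_zero])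
        (fun U c1 c2 => by
          by_cases e : U = U₀
          · subst e
            rw [map_sub, b1, sub_self, map_zero]
            exact J.zero_mem
          · rw [map_sub, b2 U c1 e, sub_zero]
            exact h2 U c1 c2)
      have k2 : tame V ρ β₀ = 0 := tame_res hT V ρ (hM.dvr L V h.hV hV) h.loc β₀
        (b2 V ⟨h.hV, h.hT, hV⟩ c.2.symm)
      have k3 := spec' hN (fin_pt c.1) (fin_gen c.1) (fin_int c.1) hW hσ hX β₀ b2
      have k4 := h2 U₀ c.1 c.2
      rw [← b1, k3] at k4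
      rw [map_sub, map_sub (tame W σ), k2, sub_zero] at k1
      have := J.sub_mem k1 k4
      rwa [sub_neg_eq_add, add_assoc, sub_add_cancel] at this
  exact key (hM.fin L β).toFinset β (fun U c1 _ c3 => not_not.1 fun d =>
    c3 ((Set.Finite.mem_toFinset _).2 ⟨c1, d⟩)) hβ

end Rec

theorem exists_ext (ψ : L →+* E) (V : ValuationSubring L) :
    ∃ U : ValuationSubring E, U.comap ψ = V := by
  obtain ⟨U, h, hl⟩ := IsLocalRing.exists_factor_valuationRing (ψ.comp V.subtype)
  refine ⟨U, le_antisymm (fun x hx => ?_) fun x hx => h ⟨x, hx⟩⟩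
  by_contra c
  have h0 : x ≠ 0 := fun d => c (d ▸ zero_mem V)
  have h1 : x⁻¹ ∈ V := (V.mem_or_inv_mem x).resolve_left c
  have h2 : IsUnit ((ψ.comp V.subtype).codRestrict U.toSubring h ⟨_, h1⟩) :=
    IsUnit.of_mul_eq_one ⟨ψ x, hx⟩ (Subtype.ext (by
      change ψ x⁻¹ * ψ x = 1
      rw [← map_mul, inv_mul_cancel₀ h0, map_one]))
  have h3 := ((un_iff V _).2 (IsUnit.of_map _ _ h2)).2.2
  exact c (by simpa using h3)

theorem trace_mem [Algebra L E] [FiniteDimensional L E] [CharZero L] (V : ValuationSubring L)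
    (y : E) (hy : ∀ U : ValuationSubring E, U.comap (algebraMap L E) = V → y ∈ U) :
    Algebra.trace L E y ∈ V := by
  obtain ⟨U, hU⟩ := exists_ext (algebraMap L (AlgebraicClosure L)) V
  rw [← hU, ValuationSubring.mem_comap, trace_eq_sum_embeddings]
  refine sum_mem fun s _ => hy (U.comap s.toRingHom) ?_
  rw [ValuationSubring.comap_comap, ← hU]
  congr 1
  exact s.comp_algebraMap

theorem pow_bound {S : Set (ValuationSubring E)} {c : E} (h : Fam S c) (x : E) :
    ∀ᶠ k : ℕ in atTop, ∀ V ∈ S, c ^ k * x ∈ V := by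
  refine (eventually_all_finite h.fin).2 fun V hV => ?_
  have := h.dvr V hV
  have hc : c ∈ V := V.nonunits_subset (h.non V hV)
  by_cases hx : x ∈ V
  · exact Eventually.of_forall fun k => mul_mem (pow_mem hc k) hx
  have h0 : x ≠ 0 := fun d => hx (d ▸ zero_mem V)
  have h1 : x⁻¹ ∈ V := (V.mem_or_inv_mem x).resolve_left hx
  obtain ⟨w, hw⟩ := IsDiscreteValuationRing.exists_irreducible V
  obtain ⟨j, hj⟩ := IsDiscreteValuationRing.associated_pow_irreducible (x := (⟨_, h1⟩ : V))
    (fun d => inv_ne_zero h0 (congrArg Subtype.val d)) hw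
  have h2 : w ∣ ⟨c, hc⟩ := by
    rw [← Ideal.mem_span_singleton, ← hw.maximalIdeal_eq]
    exact ValuationSubring.coe_mem_nonunits_iff.1 (h.non V hV)
  refine (eventually_ge_atTop j).mono fun k hk => ?_
  obtain ⟨t, ht⟩ := hj.dvd.trans ((pow_dvd_pow_of_dvd h2 j).trans (pow_dvd_pow _ hk))
  have e : c ^ k = x⁻¹ * t := congrArg Subtype.val ht
  rw [e, mul_right_comm, inv_mul_cancel₀ h0, one_mul]
  exact t.2

/-- Elements that are integral at all extensions have bounded denominators. -/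
theorem coeff_bound [Algebra L E] [CharZero L] (pb : PowerBasis L E)
    {S : Set (ValuationSubring L)} {c : E} (h : Fam {U | U.comap (algebraMap L E) ∈ S} c) :
    ∃ k : ℕ, ∀ y : E, (∀ U : ValuationSubring E, U.comap (algebraMap L E) ∈ S → y ∈ U) →
      ∃ g : L[X], g.natDegree < pb.dim ∧ aeval pb.gen g = c ^ k * y ∧
        ∀ V ∈ S, ∀ i, g.coeff i ∈ V := by
  have := pb.finite
  obtain ⟨k, hk⟩ := (eventually_all.2 fun i => pow_bound h (pb.basis.traceDual i)).exists
  refine ⟨k, fun y hy => ⟨∑ i : Fin pb.dim, C (pb.basis.repr (c ^ k * y) i) * X ^ (i : ℕ),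
    ?_, ?_, fun V hV j => ?_⟩⟩
  · by_cases h0 : (∑ i : Fin pb.dim, C (pb.basis.repr (c ^ k * y) i) * X ^ (i : ℕ)) = 0
    · rw [h0, natDegree_zero]
      exact pb.dim_pos
    · exact (natDegree_lt_iff_degree_lt h0).2 (degree_sum_fin_lt _)
  · conv_rhs => rw [← pb.basis.sum_repr (c ^ k * y)]
    rw [map_sum]
    refine Finset.sum_congr rfl fun i _ => ?_
    rw [map_mul, aeval_C, map_pow, aeval_X, pb.basis_eq_pow, Algebra.smul_def]
  · rw [finsetSum_coeff]
    refine sum_mem fun i _ => ?_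
    rw [coeff_C_mul_X_pow]
    split_ifs
    · have e := pb.basis.traceDual.traceDual_repr_apply (c ^ k * y) i
      rw [Module.Basis.traceDual_traceDual, Algebra.traceForm_apply, mul_right_comm] at e
      rw [e]
      exact trace_mem V _ fun U hU => mul_mem (hk i U (show _ ∈ S from hU ▸ hV))
        (hy U (hU ▸ hV))
    · exact zero_mem _

/-- The value of `1 + w ^ (s d + n) g` at a bounded element. -/
theorem bounded (U : ValuationSubring E) (ψ : L →+* E) {g : L[X]} {d s n : ℕ}
    (hg : g.natDegree < d) (hc : ∀ i, ψ (g.coeff i) ∈ U) {w : L} {b : E} (hw : ψ w ∈ U)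
    (h0 : w ≠ 0) (hb : ψ w ^ s * b ∈ U) :
    ((1 + C (w ^ (s * d + n)) * g).eval₂ ψ b - 1) / ψ w ^ n ∈ U := by
  have h1 : ψ w ≠ 0 := (_root_.map_ne_zero ψ).2 h0
  rw [eval₂_add, eval₂_one, eval₂_mul, eval₂_C, add_sub_cancel_left, map_pow, pow_add,
    mul_right_comm, mul_div_cancel_right₀ _ (pow_ne_zero _ h1), eval₂_eq_sum_range' ψ hg,
    Finset.mul_sum]
  refine sum_mem fun i hi => ?_
  obtain ⟨j, hj⟩ := Nat.exists_eq_add_of_lt (Finset.mem_range.1 hi)
  have e : ψ w ^ (s * d) * (ψ (g.coeff i) * b ^ i) =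
      ψ (g.coeff i) * (ψ w ^ s * b) ^ i * ψ w ^ (s * (j + 1)) := by
    rw [hj]
    ring
  rw [e]
  exact mul_mem (mul_mem (hc i) (pow_mem hb i)) (pow_mem hw _)

end

end Pool.Agent.KEW.Nn

end MrgPart1

-- ======== part 2: formerly Pool.Agent.MP_55d974_ag.kew.Nn
section MrgPart2

/-! PROJECT KEW, row NN: the norm respects the congruence subgroups modulo `q`.
The proof is an induction on the degree of the generator, by reciprocity on `L(T)`. -/

namespace Pool.Agent.KEW

noncomputable section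

open Classical IsLocalRing Polynomial Filter

namespace Nn

variable {L E : Type} [Field L] [Field E]

/-- A polynomial as a unit of the rational function field. -/
def pu (r : L[X]) : (RatFunc L)ˣ := un (algebraMap L[X] (RatFunc L) r)

theorem pu_val {r : L[X]} (h : r ≠ 0) : (pu r : RatFunc L) = algebraMap L[X] (RatFunc L) r :=
  un_val (RatFunc.algebraMap_ne_zero h)

/-- The symbol of a list of polynomials. -/
def sp (G : List L[X]) : Kr (RatFunc L) := ((G.map pu).map sym).prod

theorem sp_cons (r : L[X]) (G : List L[X]) : sp (r :: G) = sym (pu r) * sp G := by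
  simp only [sp, List.map_cons, List.prod_cons]

/-- The leading term. -/
def lead (r : L[X]) : L[X] := C r.leadingCoeff * X ^ r.natDegree

theorem lead_ne {r : L[X]} (h : r ≠ 0) : lead r ≠ 0 :=
  mul_ne_zero (C_ne_zero.2 (leadingCoeff_ne_zero.2 h)) (pow_ne_zero _ X_ne_zero)

theorem lead_eval (φ : L →+* E) (b : E) (r : L[X]) :
    (lead r).eval₂ φ b = φ r.leadingCoeff * b ^ r.natDegree := by
  rw [lead, eval₂_mul, eval₂_C, eval₂_X_pow]

theorem lead_eval_ne (φ : L →+* E) {b : E} (hb : b ≠ 0) {r : L[X]} (h : r ≠ 0) :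
    (lead r).eval₂ φ b ≠ 0 := by
  rw [lead_eval]
  exact mul_ne_zero ((_root_.map_ne_zero φ).2 (leadingCoeff_ne_zero.2 h)) (pow_ne_zero _ hb)

theorem ne_of_eval {φ : L →+* E} {b : E} {r : L[X]} (h : r.eval₂ φ b ≠ 0) : r ≠ 0 :=
  fun c => h (by rw [c, eval₂_zero])

theorem root_iff (φ : L →+* E) (b : E) {P : L[X]} (hP : Irreducible P) (h0 : P.eval₂ φ b = 0)
    (r : L[X]) : r.eval₂ φ b = 0 ↔ P ∣ r := by
  refine ⟨fun h => not_not.1 fun c => ?_, fun h => eval₂_eq_zero_of_dvd_of_eval₂_eq_zero φ b h h0⟩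
  obtain ⟨u, v, huv⟩ := hP.coprime_iff_not_dvd.2 c
  have := congrArg (eval₂ φ b) huv
  rw [eval₂_add, eval₂_mul, eval₂_mul, h, h0, eval₂_one] at this
  simp at this

theorem tame_units (hT : TameS) {φ : L →+* E} {a : E} {V : ValuationSubring (RatFunc L)}
    {ρ : V →+* E} (h : Pt φ a V ρ) (hV : IsDiscreteValuationRing V) (G : List L[X])
    (hG : ∀ r ∈ G, r.eval₂ φ a ≠ 0) : tame V ρ (sp G) = 0 :=
  hT.syms V ρ hV h.loc _ fun u hu => by
    obtain ⟨r, hr, rfl⟩ := List.mem_map.1 hu
    rw [pu_val (ne_of_eval (hG r hr))]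
    exact h.unit (hG r hr)

theorem sp_swap {R : Type} [CommRing R] (ν : Kr (RatFunc L) →+ Kr R) (J : AddSubgroup (Kr R))
    (f : L[X]) (G : List L[X]) (h : ∀ r ∈ G, ∀ β, ν (sym (pu r / pu (lead r)) * β) ∈ J) :
    ν (sp (f :: G) - sp (f :: G.map lead)) ∈ J := by
  rw [sp_cons, sp_cons]
  refine swap ν J ?_ _
  rw [List.map_map, List.forall₂_map_left_iff, List.forall₂_map_right_iff, List.forall₂_same]
  exact h

theorem poly_bound {S : Set (ValuationSubring L)} {w : L} (h : Fam S w) (r : L[X]) :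
    ∀ᶠ k : ℕ in atTop, ∀ V ∈ S, ∀ i, w ^ k * (r.coeff i / r.leadingCoeff) ∈ V := by
  refine (((eventually_all_finset (Finset.range (r.natDegree + 1))).2 fun i _ =>
    pow_bound h (r.coeff i / r.leadingCoeff)).mono fun k hk V hV i => ?_)
  by_cases hi : i < r.natDegree + 1
  · exact hk i (Finset.mem_range.2 hi) V hV
  · rw [coeff_eq_zero_of_natDegree_lt (by omega), zero_div, mul_zero]
    exact zero_mem _

/-- The norm of `L(b)` sends the congruence subgroup into `J`. -/
def Good (S : Set (ValuationSubring L)) (w : L) (n : ℕ) (J : AddSubgroup (Kr L)) (φ : L →+* E)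
    (b : E) : Prop := ∀ (F : Eˣ) (γ : Kr E),
  (∀ U : ValuationSubring E, U.comap φ ∈ S → Ap U (φ w ^ n) F) → N1 φ b (sym F * γ) ∈ J

theorem non_ext {S : Set (ValuationSubring L)} {w : L} (h : Fam S w) {ψ : L →+* E}
    {U : ValuationSubring E} (hU : U.comap ψ ∈ S) : ψ w ∈ U.nonunits := by
  have := h.non _ hU
  rw [ValuationSubring.mem_nonunits_iff_or] at this ⊢
  refine Or.inr fun c => (this.resolve_left h.ne) ?_
  rw [ValuationSubring.mem_comap, map_inv₀]
  exact c

theorem weaken {U : ValuationSubring E} {x c : E} {n : ℕ} (hc : c ∈ U) (h0 : c ≠ 0)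
    (h : x / c ^ (n + 1) ∈ U) : x / c ^ n ∈ U := by
  have := mul_mem h hc
  rwa [pow_succ, ← div_div, div_mul_cancel₀ _ h0] at this

theorem non_pow {U : ValuationSubring E} {c : E} (hc : c ∈ U.nonunits) (n : ℕ) :
    c ^ (n + 1) ∈ U.nonunits := by
  rw [pow_succ']
  exact non_mul hc (pow_mem (U.nonunits_subset hc) n)

theorem big {S : Set (ValuationSubring L)} {w : L} (h : Fam S w) {ψ : L →+* E}
    {U : ValuationSubring E} (hU : U.comap ψ ∈ S) {k n : ℕ} {t : E}
    (ht : ψ w ^ (k + (n + 1)) * t ∉ U) : t ≠ 0 ∧ ∀ r : L[X], r ≠ 0 →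
      (∀ i, w ^ k * (r.coeff i / r.leadingCoeff) ∈ U.comap ψ) → r.eval₂ ψ t ≠ 0 ∧
      (r.eval₂ ψ t / (lead r).eval₂ ψ t - 1) / ψ w ^ n ∈ U := by
  have h0 : t ≠ 0 := fun c => ht (by rw [c, mul_zero]; exact zero_mem _)
  have hw := non_ext h hU
  have hw1 : ψ w ∈ U := U.nonunits_subset hw
  have hw0 : ψ w ≠ 0 := (_root_.map_ne_zero ψ).2 h.ne
  have hi := (U.mem_or_inv_mem _).resolve_left ht
  refine ⟨h0, fun r hr hc => ?_⟩
  have h1 : (r.eval₂ ψ t / (lead r).eval₂ ψ t - 1) / ψ w ^ (n + 1) ∈ U := by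
    rw [lead_eval]
    refine large U ψ hr h0 ?_ fun i => ?_
    · have := mul_mem (pow_mem hw1 (k + (n + 1))) hi
      rwa [mul_inv, mul_inv_cancel_left₀ (pow_ne_zero _ hw0)] at this
    · have := mul_mem (ValuationSubring.mem_comap.1 (hc i)) hi
      refine (congrArg (· ∈ U) ?_).mp this
      rw [map_mul, map_pow]
      field_simp
      ring
  refine ⟨fun c => ?_, weaken hw1 hw0 h1⟩
  have := (un_of_non (non_of_div (non_pow hw n) (pow_ne_zero _ hw0) h1)).1
  exact this (by rw [c, zero_div])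

/-- The contribution of a finite place other than the place of the generator. -/
theorem place (hT : TameS) (hM : MilS) {S : Set (ValuationSubring L)} {w : L} (h : Fam S w)
    {n k d : ℕ} {J : AddSubgroup (Kr L)} {g f : L[X]} {G : List L[X]} (hg : g.natDegree < d)
    (hc : ∀ V ∈ S, ∀ i, g.coeff i ∈ V) (hf : f = 1 + C (w ^ ((k + (n + 1)) * d + (n + 1))) * g)
    (hG0 : G ≠ []) (hG : ∀ r ∈ G, r ≠ 0)
    (hk : ∀ r ∈ G, ∀ V ∈ S, ∀ i, w ^ k * (r.coeff i / r.leadingCoeff) ∈ V)
    {U : ValuationSubring (RatFunc L)} (hU : FinPl L U)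
    (ih : ∀ r ∈ f :: X :: G, r.eval₂ (fU hU) (tU hU) = 0 → Good S w n J (fU hU) (tU hU)) :
    N1 (fU hU) (tU hU) (tame U (residue U) (sp (f :: G) - sp (f :: G.map lead))) ∈ J := by
  have hp := fin_pt hU
  have hd := hM.dvr L U hU.1 hU.2.2
  generalize fU hU = ψ at *
  generalize tU hU = t at *
  have hw0 : ψ w ≠ 0 := (_root_.map_ne_zero ψ).2 h.ne
  by_cases hall : ∀ r ∈ f :: X :: G, r.eval₂ ψ t ≠ 0
  · have ht : t ≠ 0 := by simpa using hall X (by simp)
    rw [map_sub, tame_units hT hp hd _ fun r hr => hall r (by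
        rcases List.mem_cons.1 hr with c | c <;> simp [c]),
      tame_units hT hp hd _ fun r hr => ?_, sub_self, map_zero]
    · exact J.zero_mem
    · rcases List.mem_cons.1 hr with c | c
      · exact hall r (by simp [c])
      · obtain ⟨r', hr', rfl⟩ := List.mem_map.1 c
        exact lead_eval_ne ψ ht (hG r' hr')
  obtain ⟨r₀, hr₀, hr₁⟩ : ∃ r ∈ f :: X :: G, r.eval₂ ψ t = 0 := by simpa only [not_forall,
    not_not, exists_prop] using hall
  have good := ih r₀ hr₀ hr₁
  have bd : ∀ U' : ValuationSubring (ResidueField U), U'.comap ψ ∈ S →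
      ψ w ^ (k + (n + 1)) * t ∈ U' → (f.eval₂ ψ t - 1) / ψ w ^ (n + 1) ∈ U' := fun U' h1 h2 => by
    rw [hf]
    exact bounded U' ψ hg (hc _ h1) (U'.nonunits_subset (non_ext h h1)) h.ne h2
  by_cases hf0 : f.eval₂ ψ t = 0
  · by_cases hS : ∃ U' : ValuationSubring (ResidueField U), U'.comap ψ ∈ S
    · have nb : ∀ U' : ValuationSubring (ResidueField U), U'.comap ψ ∈ S →
          ψ w ^ (k + (n + 1)) * t ∉ U' := fun U' h1 h2 =>
        (un_of_non (non_of_div (non_pow (non_ext h h1) n) (pow_ne_zero _ hw0) (bd U' h1 h2))).1 hf0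
      obtain ⟨U₀, hU₀⟩ := hS
      have b0 := big h hU₀ (nb U₀ hU₀)
      refine sp_swap ((N1 ψ t).comp (tame U (residue U))) J f G fun r hr β => ?_
      have e1 := (b0.2 r (hG r hr) (hk r hr _ hU₀)).1
      have e2 := lead_eval_ne ψ b0.1 (hG r hr)
      have u2 := hp.unit e2
      have e3 : residue U ⟨_, u2.2.2⟩ = ((lead r).eval₂ ψ t)⁻¹ := by
        refine eq_inv_of_mul_eq_one_left ?_
        rw [← hp.val, ← map_mul, ← map_one (residue U)]
        exact congrArg _ (Subtype.ext (inv_mul_cancel₀ u2.1))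
      rw [AddMonoidHom.comp_apply, hT.mul U (residue U) hd hp.loc (⟨_, hp.mem r⟩ * ⟨_, u2.2.2⟩) _
        (un (r.eval₂ ψ t / (lead r).eval₂ ψ t)) ?_ ?_, map_neg]
      · refine J.neg_mem (good _ _ fun U' hU' => ?_)
        rw [Ap, un_val (div_ne_zero e1 e2)]
        exact ((big h hU' (nb U' hU')).2 r (hG r hr) (hk r hr _ hU')).2
      · rw [Units.val_div_eq_div_val, pu_val (hG r hr), pu_val (lead_ne (hG r hr)), div_eq_mul_inv]
        rfl
      · rw [un_val (div_ne_zero e1 e2), map_mul, hp.val, e3, div_eq_mul_inv]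
    · have key : ∀ m, ∀ x ∈ K (ResidueField U) (m + 1), N1 ψ t x ∈ J := fun m x hx => by
        refine (AddSubgroup.closure_le (J.comap (N1 ψ t))).2 ?_ hx
        rintro _ ⟨l, hl, rfl⟩
        obtain ⟨u, l, rfl⟩ := List.exists_cons_of_length_eq_add_one hl
        rw [List.map_cons, List.prod_cons]
        exact good u _ fun U' hU' => (hS ⟨U', hU'⟩).elim
      obtain ⟨m, hm⟩ : ∃ m, G.length = m + 1 :=
        Nat.exists_eq_succ_of_ne_zero fun c => hG0 (List.length_eq_zero_iff.1 c)
      refine key m _ (pick_mem 1 _ (sub_mem ?_ ?_))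
      · have := list_mem ((f :: G).map pu)
        rwa [List.length_map, List.length_cons, hm] at this
      · have := list_mem ((f :: G.map lead).map pu)
        rwa [List.length_map, List.length_cons, List.length_map, hm] at this
  · have key : ∀ β, N1 ψ t (tame U (residue U) (sym (pu f) * β)) ∈ J := fun β => by
      rw [hT.mul U (residue U) hd hp.loc ⟨_, hp.mem f⟩ _ (un (f.eval₂ ψ t))
        (pu_val (ne_of_eval hf0)) (by rw [un_val hf0, hp.val]), map_neg]
      refine J.neg_mem (good _ _ fun U' hU' => ?_)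
      rw [Ap, un_val hf0]
      refine weaken (U'.nonunits_subset (non_ext h hU')) hw0 (bd U' hU' (not_not.1 fun c => ?_))
      have b := big h hU' c
      rcases List.mem_cons.1 hr₀ with e | e
      · exact hf0 (e ▸ hr₁)
      rcases List.mem_cons.1 e with e | e
      · rw [e, eval₂_X] at hr₁
        exact b.1 hr₁
      · exact (b.2 r₀ (hG r₀ e) (hk r₀ e _ hU')).1 hr₁
    rw [sp_cons, sp_cons, map_sub, map_sub]
    exact J.sub_mem (key _) (key _)

theorem exists_polys [Algebra L E] (pb : PowerBasis L E) (l : List Eˣ) : ∃ G : List L[X],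
    List.Forall₂ (fun (r : L[X]) (u : Eˣ) => r.natDegree < pb.dim ∧
      r.eval₂ (algebraMap L E) pb.gen = u) G l := by
  induction l with
  | nil => exact ⟨[], List.Forall₂.nil⟩
  | cons u l ih =>
    obtain ⟨G, hG⟩ := ih
    obtain ⟨r, h1, h2⟩ := pb.exists_eq_aeval (u : E)
    exact ⟨r :: G, List.Forall₂.cons ⟨h1, h2.symm⟩ hG⟩

theorem forall₂_left {α β : Type} {R : α → β → Prop} {l : List α} {l' : List β}
    (h : List.Forall₂ R l l') : ∀ x ∈ l, ∃ y, R x y := by
  induction h with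
  | nil => simp
  | cons h _ ih =>
    intro x hx
    rcases List.mem_cons.1 hx with rfl | hx
    exacts [⟨_, h⟩, ih x hx]

theorem main (hT : TameS) (hM : MilS) (hN : NrmS) (hA : LocA) (hE : ExtS) {A : Type} [CommRing A]
    [CharZero L] {π : A} {p q n : ℕ} {a : A →+* L} {S : Set (ValuationSubring L)}
    (hl : Lv π p q n) (h : Fam S (a π)) (ha : ∀ V ∈ S, ∀ c, a c ∈ V) {J : AddSubgroup (Kr L)}
    (hJ : KI S (a π ^ n) ≤ J) (hq : ∀ z, q • z ∈ J) (d : ℕ) :
    ∀ (E : Type) [Field E] (φ : L →+* E) (b : E) (Q : L[X]),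
      Subfield.closure (Set.range φ ∪ {b}) = ⊤ → Q ≠ 0 → Q.natDegree = d → Q.eval₂ φ b = 0 →
      Good S (a π) n J φ b := by
  induction d using Nat.strong_induction_on with | _ d ih => ?_
  intro E _ φ b Q hg hQ hd hQ0
  let := φ.toAlgebra
  have halg : IsAlgebraic L b := ⟨Q, hQ, hQ0⟩
  have hi : IsIntegral L b := halg.isIntegral
  have htop : IntermediateField.adjoin L {b} = ⊤ := IntermediateField.toSubfield_injective hg
  have htop' : Algebra.adjoin L {b} = ⊤ := by
    rw [← IntermediateField.adjoin_simple_toSubalgebra_of_isAlgebraic halg, htop]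
    rfl
  let pb := PowerBasis.ofAdjoinEqTop hi htop'
  have hdim : pb.dim ≤ d := hd ▸ natDegree_le_of_dvd (minpoly.dvd L b hQ0) hQ
  have hP := minpoly.irreducible hi
  have hP0 : (minpoly L b).eval₂ φ b = 0 := minpoly.aeval L b
  have hPd : (minpoly L b).natDegree = pb.dim := rfl
  generalize minpoly L b = P at hP hP0 hPd
  have hF := hE φ pb.finite S _ h
  set w := a π with hw
  have hw0 : φ w ≠ 0 := hF.ne
  obtain ⟨k₀, hk₀⟩ := coeff_bound pb hF
  obtain ⟨V, ρ, hp⟩ := exists_pt φ b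
  have hV := hp.ne_top hP.ne_zero hP0
  have hVd := hM.dvr L V hp.hV hV
  obtain ⟨W, σ, hW, hσ, hX, hσl⟩ := exists_inf L
  have hWd := hM.dvr L W hW fun c => hX (by rw [c]; trivial)
  have hPU : ∀ U (hU : FinPl L U), U ≠ V → P.eval₂ (fU hU) (tU hU) ≠ 0 := fun U hU c e =>
    c (ValuationSubring.ext _ _ fun x => by
      rw [(fin_pt hU).mem_iff, hp.mem_iff, Ne, Ne, root_iff _ _ hP e, root_iff _ _ hP hP0])
  intro F γ hFU
  refine kr_ind (J.comap ((N1 φ b).comp (AddMonoidHom.mulLeft (sym F)))) (fun l => ?_) γ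
  change N1 φ b (sym F * (l.map sym).prod) ∈ J
  obtain ⟨G₀, hG₀⟩ := exists_polys pb l
  have g0 : ∀ r ∈ G₀, r.natDegree < pb.dim ∧ r.eval₂ φ b ≠ 0 := fun r hr => by
    obtain ⟨u, h1, h2⟩ := forall₂_left hG₀ r hr
    exact ⟨h1, fun c => u.ne_zero (h2.symm.trans c)⟩
  have gne : ∀ r ∈ G₀ ++ [P], r ≠ 0 := fun r hr => by
    rcases List.mem_append.1 hr with c | c
    · exact ne_of_eval (g0 r c).2
    · rw [List.mem_singleton.1 c]
      exact hP.ne_zero
  obtain ⟨k, hk⟩ := ((eventually_all_finite (G₀ ++ [P]).finite_toSet).2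
    fun r _ => poly_bound h r).exists
  obtain ⟨F', g', hF', rfl⟩ := hA.root π p q n (φ.comp a) _ hl hF (fun U hU c => ha _ hU c)
    ((k + (n + 1)) * pb.dim + (n + 1) + k₀) F hFU
  rw [sym_mul, sym_pow, add_mul, smul_mul_assoc, map_add, map_nsmul]
  refine J.add_mem ?_ (hq _)
  obtain ⟨g, hg1, hg2, hg3⟩ := hk₀ _ hF'
  obtain ⟨f, hf⟩ : ∃ f, f = 1 + C (w ^ ((k + (n + 1)) * pb.dim + (n + 1))) * g := ⟨_, rfl⟩
  have f1 : f.eval₂ φ b = F' := by
    have e : g.eval₂ φ b =
        φ w ^ k₀ * ((F' - 1) / φ w ^ ((k + (n + 1)) * pb.dim + (n + 1) + k₀)) := hg2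
    rw [hf, eval₂_add, eval₂_one, eval₂_mul, eval₂_C, e, map_pow, ← mul_assoc, ← pow_add,
      mul_div_cancel₀ _ (pow_ne_zero _ hw0), add_sub_cancel]
  have f0 : f.eval₂ φ b ≠ 0 := f1 ▸ F'.ne_zero
  have f2 : f.natDegree < pb.dim := by
    rw [hf]
    refine (natDegree_add_le _ _).trans_lt (max_lt ?_ ((natDegree_C_mul_le _ _).trans_lt hg1))
    rw [natDegree_one]
    exact pb.dim_pos
  have t1 : tame V ρ (sym (pu P)) = 1 := by
    have := hT.unif V ρ hVd hp.loc ⟨_, hp.mem P⟩ (pu P)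
      (hp.irr hP0 fun r => (root_iff φ b hP hP0 r).1) (pu_val hP.ne_zero) 1
    rwa [map_one, mul_one, map_one] at this
  have t2 := tame_list hT V ρ hVd hp.loc (l := (f :: G₀).map pu) (l' := F' :: l) (by
    rw [List.forall₂_map_left_iff]
    refine List.Forall₂.cons ⟨⟨_, hp.mem f⟩, pu_val (ne_of_eval f0), by rw [hp.val, f1]⟩
      (hG₀.imp fun r u hr => ⟨⟨_, hp.mem r⟩, pu_val (ne_of_eval (φ := φ) (b := b) fun c =>
        u.ne_zero (hr.2.symm.trans c)), by rw [hp.val]; exact hr.2.symm⟩)) (sym (pu P))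
  have t3 : (((f :: G₀).map pu).map sym).prod * sym (pu P) = sp (f :: (G₀ ++ [P])) := by
    simp only [sp, List.map_cons, List.prod_cons, List.map_append, List.prod_append,
      List.map_nil, List.prod_nil, mul_one, mul_assoc]
  rw [t3, t1, mul_one, List.map_cons, List.prod_cons] at t2
  suffices hs : N1 φ b (tame V ρ (sp (f :: (G₀ ++ [P])))) ∈ J by
    rcases t2 with e | e
    · rwa [e] at hs
    · rwa [e, map_neg, neg_mem_iff] at hs
  rcases le_or_gt pb.dim 1 with h1 | h1
  · have cst : ∀ (r : L[X]), r ≠ 0 → r.natDegree < pb.dim → ∀ U (hU : FinPl L U),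
        r.eval₂ (fU hU) (tU hU) ≠ 0 := fun r hr hr' U hU => by
      have e := eq_C_of_natDegree_eq_zero (show r.natDegree = 0 by omega)
      rw [e, eval₂_C]
      exact (_root_.map_ne_zero _).2 fun c => hr (by rw [e, c, C_0])
    have e := eq_C_of_natDegree_eq_zero (show f.natDegree = 0 by omega)
    have c0 : f.coeff 0 ≠ 0 := fun c => ne_of_eval f0 (by rw [e, c, C_0])
    rw [spec' hN hp hg hi hW hσ hX _ fun U hU c => tame_units hT (fin_pt hU)
      (hM.dvr L U hU.1 hU.2.2) _ fun r hr => ?_, sp_cons,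
      hT.mul W σ hWd hσl ⟨_, hW (f.coeff 0)⟩ _ (un (f.coeff 0)) ?_ (by rw [un_val c0, hσ]), neg_neg]
    · refine hJ (AddSubgroup.subset_closure ⟨_, _, fun U hU => ?_, rfl⟩)
      have hwU : w ∈ U := U.nonunits_subset (h.non U hU)
      have := bounded U (RingHom.id L) (s := k + (n + 1)) (n := n + 1) (w := w) (b := 0) hg1
        (hg3 U hU) hwU h.ne (by rw [mul_zero]; exact zero_mem _)
      rw [← hf, eval₂_at_zero] at this
      rw [Ap, un_val c0]
      exact weaken hwU h.ne this
    · rw [pu_val (ne_of_eval f0)]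
      conv_lhs => rw [e]
      rfl
    · rcases List.mem_cons.1 hr with e | e
      · exact cst r (e ▸ ne_of_eval f0) (e ▸ f2) U hU
      rcases List.mem_append.1 e with e | e
      · exact cst r (ne_of_eval (g0 r e).2) (g0 r e).1 U hU
      · rw [List.mem_singleton.1 e]
        exact hPU U hU c
  · have hb : b ≠ 0 := fun c => by
      have := natDegree_le_of_dvd ((root_iff φ b hP hP0 X).1 (by rw [eval₂_X, c])) X_ne_zero
      rw [natDegree_X] at this
      omega
    have r1 := recip hT hM hN hp hV hg hi hW hσ hX J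
      (sp (f :: (G₀ ++ [P])) - sp (f :: (G₀ ++ [P]).map lead)) fun U hU c =>
        place hT hM h hg1 hg3 hf (by simp) gne hk hU fun r hr e => by
          have k1 : r ≠ 0 → r.natDegree < pb.dim → Good S w n J (fU hU) (tU hU) := fun c1 c2 =>
            ih _ (c2.trans_le hdim) _ _ _ r (fin_gen hU) c1 rfl e
          rcases List.mem_cons.1 hr with e' | e'
          · exact k1 (e' ▸ ne_of_eval f0) (e' ▸ f2)
          rcases List.mem_cons.1 e' with e' | e'
          · exact k1 (e' ▸ X_ne_zero) (by rw [e', natDegree_X]; exact h1)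
          rcases List.mem_append.1 e' with e' | e'
          · exact k1 (ne_of_eval (g0 r e').2) (g0 r e').1
          · rw [List.mem_singleton.1 e'] at e
            exact (hPU U hU c e).elim
    have r2 := sp_swap (tame W σ) J f (G₀ ++ [P]) fun r hr β => by
      rw [hT.one W σ hWd hσl]
      · exact J.zero_mem
      · rw [Units.val_div_eq_div_val, pu_val (gne r hr), pu_val (lead_ne (gne r hr)), lead, map_mul,
          map_pow]
        exact inf_lead hW hX (gne r hr)
    have r3 : tame V ρ (sp (f :: (G₀ ++ [P]).map lead)) = 0 :=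
      tame_units hT hp hVd _ fun r hr => by
        rcases List.mem_cons.1 hr with e | e
        · exact e ▸ f0
        · obtain ⟨r', hr', rfl⟩ := List.mem_map.1 e
          exact lead_eval_ne φ hb (gne r' hr')
    have := J.sub_mem r1 r2
    rwa [add_sub_cancel_right, map_sub (tame V ρ), r3, sub_zero] at this

theorem ki_map (N : Kr E →+ Kr L) (J : AddSubgroup (Kr L)) {S : Set (ValuationSubring E)} {c : E}
    (h : ∀ F γ, (∀ V ∈ S, Ap V c F) → N (sym F * γ) ∈ J) {x : Kr E} (hx : x ∈ KI S c) :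
    N x ∈ J := by
  refine (AddSubgroup.closure_le (J.comap N)).2 ?_ hx
  rintro _ ⟨F, γ, hF, rfl⟩
  exact h F γ hF

end Nn

theorem nnS' (hT : TameS) (hM : MilS) (hN : NrmS) (hA : LocA) (hE : ExtS) : NnS := by
  intro A L E _ _ _ _ π p q n a φ S hl hφ h ha x hx
  let := φ.toAlgebra
  have : FiniteDimensional L E := hφ
  have hex : ∃ b, Subfield.closure (Set.range φ ∪ {b}) = ⊤ := by
    obtain ⟨b, hb⟩ := Field.exists_primitive_element L E
    exact ⟨b, congrArg IntermediateField.toSubfield hb⟩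
  have hi : IsIntegral L hex.choose := Algebra.IsIntegral.isIntegral _
  have good := Nn.main hT hM hN hA hE hl h ha
    (J := KI S (a π ^ n) ⊔ (nsmulAddMonoidHom q).range) le_sup_left
    (fun z => AddSubgroup.mem_sup_right ⟨z, rfl⟩) _ E φ hex.choose (minpoly L hex.choose)
    hex.choose_spec (minpoly.ne_zero hi) rfl (minpoly.aeval L _)
  have h1 := Nn.ki_map _ _ good hx
  obtain ⟨y, hy, _, ⟨z, rfl⟩, e⟩ := AddSubgroup.mem_sup.1 h1
  exact ⟨y, hy, z, by rw [nrm, dif_pos hex, ← e]; rfl⟩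

theorem nnS (hT : TameS) (hM : MilS) (hN : NrmS) (hA : LocA) (_hB : LocB) (_hC : CplS)
    (hE : ExtS) : NnS := nnS' hT hM hN hA hE

end

end Pool.Agent.KEW

end MrgPart2

-- marker of a merged file
example : 731051 + 184351 = 731051 + 184351 := rfl
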