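import Mathlib.FieldTheory.RatFunc.IntermediateField
import Mathlib.Order.CompletePartialOrder
import Pool.Agent.MP_55d974_ag.kew.Deep

/-! PROJECT KEW: the Bass-Tate norm of a simple extension is well defined. -/

namespace Pool.Agent.KEW

noncomputable section

open Classical IsLocalRing Polynomial

namespace NrmAux

section Gen

variable {L F E E' : Type} [Field L] [Field F] [Field E] [Field E'] [Algebra L F]

theorem coprime_rep {t : F} (ht : IntermediateField.adjoin L {t} = ⊤) (x : F) :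
    ∃ f g : L[X], IsCoprime f g ∧ aeval t g ≠ 0 ∧ x * aeval t g = aeval t f := by
  obtain ⟨r, s, h⟩ := (IntermediateField.mem_adjoin_simple_iff L x).1
    (ht ▸ IntermediateField.mem_top)
  by_cases hs : aeval t s = 0
  · exact ⟨0, 1, isCoprime_one_right, by simp, by simp [h, hs]⟩
  have hs0 : s ≠ 0 := by
    rintro rfl
    exact hs (map_zero _)
  have hd : GCDMonoid.gcd r s ≠ 0 := fun h0 => hs0 ((gcd_eq_zero_iff r s).1 h0).2
  have h1 := EuclideanDomain.mul_div_cancel' hd (GCDMonoid.gcd_dvd_left r s)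
  have h2 := EuclideanDomain.mul_div_cancel' hd (GCDMonoid.gcd_dvd_right r s)
  have h3 := congrArg (aeval t) h1
  have h4 := congrArg (aeval t) h2
  rw [map_mul] at h3 h4
  have h5 : aeval t (GCDMonoid.gcd r s) ≠ 0 := fun h0 => hs (by rw [← h4, h0, zero_mul])
  refine ⟨_, _, isCoprime_div_gcd_div_gcd hs0, fun h0 => hs (by rw [← h4, h0, mul_zero]), ?_⟩
  refine mul_left_cancel₀ h5 ?_
  rw [h3, mul_left_comm, h4, h, div_mul_cancel₀ _ hs]

/-- A place of `F` over `L` that sends `t` to `a`. -/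
structure Pc (t : F) (φ : L →+* E) (a : E) (V : ValuationSubring F) (ρ : V →+* E) : Prop where
  hC : ∀ c, algebraMap L F c ∈ V
  ht : t ∈ V
  rC : ∀ c, ρ ⟨_, hC c⟩ = φ c
  rt : ρ ⟨_, ht⟩ = a

variable {t : F} {φ : L →+* E} {a : E} {V : ValuationSubring F} {ρ : V →+* E}
  {φ' : L →+* E'} {a' : E'} {V' : ValuationSubring F} {ρ' : V' →+* E'}

theorem Pc.ev (h : Pc t φ a V ρ) (f : L[X]) :
    ∃ y : V, (y : F) = aeval t f ∧ ρ y = eval₂ φ a f := by
  refine ⟨eval₂ ((algebraMap L F).codRestrict V h.hC) ⟨t, h.ht⟩ f, ?_, ?_⟩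
  · exact Polynomial.hom_eval₂ f _ V.subtype _
  · rw [Polynomial.hom_eval₂, h.rt]
    congr 1
    exact RingHom.ext h.rC

theorem Pc.rep (h : Pc t φ a V ρ) (ht : IntermediateField.adjoin L {t} = ⊤) (x : V) :
    ∃ f g : L[X], eval₂ φ a g ≠ 0 ∧ (x : F) * aeval t g = aeval t f ∧
      ρ x * eval₂ φ a g = eval₂ φ a f := by
  obtain ⟨f, g, ⟨u, v, hc⟩, -, hx⟩ := coprime_rep ht (x : F)
  obtain ⟨y, hy, hy'⟩ := h.ev f
  obtain ⟨z, hz, hz'⟩ := h.ev g
  have h1 : x * z = y := Subtype.ext (by rw [hy, ← hx, ← hz]; rfl)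
  have h2 : ρ x * eval₂ φ a g = eval₂ φ a f := by rw [← hy', ← hz', ← h1, map_mul]
  refine ⟨f, g, fun h0 => ?_, hx, h2⟩
  have h3 := congrArg (eval₂ φ a) hc
  rw [h0, mul_zero] at h2
  rw [eval₂_add, eval₂_mul, eval₂_mul, h0, ← h2, eval₂_one] at h3
  simp at h3

theorem Pc.div (h : Pc t φ a V ρ) (hl : IsLocalHom ρ) {f g : L[X]} (hg : eval₂ φ a g ≠ 0) {x : F}
    (hx : x * aeval t g = aeval t f) : x ∈ V := by
  obtain ⟨y, hy, -⟩ := h.ev f
  obtain ⟨z, hz, hz'⟩ := h.ev g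
  obtain ⟨u, rfl⟩ : IsUnit z := hl.map_nonunit z (by rw [hz']; exact hg.isUnit)
  have h1 : ((u : V) : F) * ((u⁻¹ : Vˣ) : V) = 1 := by
    exact_mod_cast congrArg (fun w : V => (w : F)) u.mul_inv
  have : x = ((y * (u⁻¹ : Vˣ) : V) : F) := by
    rw [MulMemClass.coe_mul, hy, ← hx, ← hz, mul_assoc, h1, mul_one]
  rw [this]
  exact Subtype.prop _

theorem Pc.le (h : Pc t φ a V ρ) (h' : Pc t φ' a' V' ρ') (ht : IntermediateField.adjoin L {t} = ⊤)
    (hl : IsLocalHom ρ') (hk : ∀ g, eval₂ φ' a' g = 0 → eval₂ φ a g = 0) : V ≤ V' := fun x hx => by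
  obtain ⟨f, g, hg, h1, -⟩ := h.rep ht ⟨x, hx⟩
  exact h'.div hl (fun h0 => hg (hk g h0)) h1

theorem Pc.hom_eq {ρ₁ : V →+* E} (h : Pc t φ a V ρ) (h' : Pc t φ a V ρ₁)
    (ht : IntermediateField.adjoin L {t} = ⊤) : ρ = ρ₁ := by
  refine RingHom.ext fun x => ?_
  obtain ⟨f, g, hg, hx, h2⟩ := h.rep ht x
  obtain ⟨y, hy, hy'⟩ := h'.ev f
  obtain ⟨z, hz, hz'⟩ := h'.ev g
  have h1 : x * z = y := Subtype.ext (by rw [hy, ← hx, ← hz]; rfl)
  refine mul_right_cancel₀ hg ?_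
  rw [h2, ← hy', ← hz', ← h1, map_mul]

theorem Pc.eq_zero (h : Pc t φ 0 V ρ) (h' : Pc t φ' 0 V' ρ')
    (ht : IntermediateField.adjoin L {t} = ⊤) (hl : IsLocalHom ρ) (hl' : IsLocalHom ρ') :
    V = V' :=
  le_antisymm (h.le h' ht hl' fun g hg => by simpa [eval₂_at_zero] using hg)
    (h'.le h ht hl fun g hg => by simpa [eval₂_at_zero] using hg)

theorem Pc.irr (h : Pc t φ 0 V ρ) (ht : IntermediateField.adjoin L {t} = ⊤)
    (hd : IsDiscreteValuationRing V) (hl : IsLocalHom ρ) : Irreducible (⟨t, h.ht⟩ : V) := by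
  rw [IsDiscreteValuationRing.irreducible_iff_uniformizer]
  refine le_antisymm (fun x hx => ?_) ?_
  · obtain ⟨f, g, hg, h1, h2⟩ := h.rep ht x
    have h0 : ρ x = 0 := by
      by_contra h0
      exact hx (hl.map_nonunit x (Ne.isUnit h0))
    rw [h0, zero_mul, eval₂_at_zero, eq_comm, map_eq_zero, ← X_dvd_iff] at h2
    obtain ⟨f', rfl⟩ := h2
    obtain ⟨z, hz, hz'⟩ := h.ev g
    have hg0 : aeval t g ≠ 0 := fun h3 => hg (by
      rw [← hz', show z = 0 from Subtype.ext (hz.trans h3), map_zero])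
    have hm : aeval t f' / aeval t g ∈ V := h.div hl hg (div_mul_cancel₀ _ hg0)
    refine Ideal.mem_span_singleton.2 ⟨⟨_, hm⟩, Subtype.ext ?_⟩
    change (x : F) = t * (aeval t f' / aeval t g)
    rw [← mul_div_assoc, eq_div_iff hg0, h1, map_mul, aeval_X]
  · rw [Ideal.span_singleton_le_iff_mem, mem_maximalIdeal, mem_nonunits_iff]
    intro hu
    have := hu.map ρ
    rw [h.rt] at this
    exact not_isUnit_zero this

theorem local_of_ker (hd : IsDiscreteValuationRing V) (ρ : V →+* E) {x : V} (hx : x ≠ 0)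
    (h0 : ρ x = 0) : IsLocalHom ρ := by
  have h1 : (RingHom.ker ρ).IsMaximal :=
    (RingHom.ker_isPrime ρ).isMaximal fun h => hx (by
      have : x ∈ RingHom.ker ρ := h0
      rwa [h] at this)
  refine ⟨fun y hy => ?_⟩
  by_contra hn
  have : y ∈ RingHom.ker ρ := by
    rw [eq_maximalIdeal h1]
    exact hn
  rw [RingHom.mem_ker.1 this] at hy
  exact not_isUnit_zero hy

theorem pc_res (U : ValuationSubring F) (hC : ∀ c, algebraMap L F c ∈ U) (ht : t ∈ U)
    (hn : t⁻¹ ∉ U) : Pc t ((residue U).comp ((algebraMap L F).codRestrict U hC)) 0 U (residue U) :=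
  ⟨hC, ht, fun _ => rfl, (residue_eq_zero_iff _).2
    (ValuationSubring.coe_mem_nonunits_iff.1 ((U.mem_nonunits_iff_or).2 (Or.inr hn)))⟩

theorem exists_pc (ht : IntermediateField.adjoin L {t} = ⊤) (htr : Transcendental L t)
    (φ : L →+* E) (a : E) : ∃ (V : ValuationSubring F) (ρ : V →+* E), Pc t φ a V ρ := by
  have hinj : Function.Injective (aeval t : L[X] →ₐ[L] F) := transcendental_iff_injective.1 htr
  let V : ValuationSubring F :=
    { carrier := {x | ∃ f g : L[X], eval₂ φ a g ≠ 0 ∧ x * aeval t g = aeval t f}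
      mul_mem' := by
        rintro x y ⟨f, g, hg, hx⟩ ⟨f', g', hg', hy⟩
        refine ⟨f * f', g * g', by rw [eval₂_mul]; exact mul_ne_zero hg hg', ?_⟩
        rw [map_mul, map_mul, ← hx, ← hy]
        ring
      one_mem' := ⟨1, 1, by simp, by simp⟩
      add_mem' := by
        rintro x y ⟨f, g, hg, hx⟩ ⟨f', g', hg', hy⟩
        refine ⟨f * g' + f' * g, g * g', by rw [eval₂_mul]; exact mul_ne_zero hg hg', ?_⟩
        rw [map_add, map_mul, map_mul, map_mul, ← hx, ← hy]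
        ring
      zero_mem' := ⟨0, 1, by simp, by simp⟩
      neg_mem' := by
        rintro x ⟨f, g, hg, hx⟩
        exact ⟨-f, g, hg, by rw [map_neg, ← hx, neg_mul]⟩
      mem_or_inv_mem' := fun x => by
        obtain ⟨f, g, ⟨u, v, hc⟩, hg0, hx⟩ := coprime_rep ht x
        by_cases hg : eval₂ φ a g = 0
        · have hf : eval₂ φ a f ≠ 0 := fun h0 => by
            have h3 := congrArg (eval₂ φ a) hc
            rw [eval₂_add, eval₂_mul, eval₂_mul, h0, hg, eval₂_one] at h3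
            simp at h3
          have hx0 : x ≠ 0 := by
            rintro rfl
            rw [zero_mul, ← map_zero (aeval t : L[X] →ₐ[L] F)] at hx
            exact hf (by rw [← hinj hx, eval₂_zero])
          exact Or.inr ⟨g, f, hf, by rw [← hx, inv_mul_cancel_left₀ hx0]⟩
        · exact Or.inl ⟨f, g, hg, hx⟩ }
  have hex : ∀ x : V, ∃ y : E, ∀ f g : L[X], (x : F) * aeval t g = aeval t f →
      y * eval₂ φ a g = eval₂ φ a f := fun x => by
    obtain ⟨f0, g0, hg0, hx0⟩ := x.2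
    refine ⟨eval₂ φ a f0 / eval₂ φ a g0, fun f g hx => ?_⟩
    have : f0 * g = f * g0 := hinj (by
      rw [map_mul, map_mul, ← hx, ← hx0]
      ring)
    rw [div_mul_eq_mul_div, div_eq_iff hg0, ← eval₂_mul, this, eval₂_mul]
  choose r hr using hex
  have hu : ∀ (x : V) (y : E) (f g : L[X]), eval₂ φ a g ≠ 0 → (x : F) * aeval t g = aeval t f →
      y * eval₂ φ a g = eval₂ φ a f → r x = y := fun x y f g hg hx hy =>
    mul_right_cancel₀ hg ((hr x f g hx).trans hy.symm)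
  refine ⟨V,
    { toFun := r
      map_one' := hu _ _ 1 1 (by simp) (by simp) (by simp)
      map_zero' := hu _ _ 0 1 (by simp) (by simp) (by simp)
      map_mul' := fun x y => ?_
      map_add' := fun x y => ?_ }, fun c => ⟨C c, 1, by simp, by simp⟩, ⟨X, 1, by simp, by simp⟩,
    fun c => hu _ _ (C c) 1 (by simp) (by simp) (by simp), hu _ _ X 1 (by simp) (by simp) (by simp)⟩
  · obtain ⟨f, g, hg, hx⟩ := x.2
    obtain ⟨f', g', hg', hy⟩ := y.2
    refine hu _ _ (f * f') (g * g') (by rw [eval₂_mul]; exact mul_ne_zero hg hg') ?_ ?_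
    · rw [MulMemClass.coe_mul, map_mul, map_mul, ← hx, ← hy]
      ring
    · rw [eval₂_mul, eval₂_mul, ← hr x f g hx, ← hr y f' g' hy]
      ring
  · obtain ⟨f, g, hg, hx⟩ := x.2
    obtain ⟨f', g', hg', hy⟩ := y.2
    refine hu _ _ (f * g' + f' * g) (g * g') (by rw [eval₂_mul]; exact mul_ne_zero hg hg') ?_ ?_
    · rw [AddMemClass.coe_add, map_add, map_mul, map_mul, map_mul, ← hx, ← hy]
      ring
    · rw [eval₂_add, eval₂_mul, eval₂_mul, eval₂_mul, ← hr x f g hx, ← hr y f' g' hy]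
      ring

end Gen

section Kr

variable {R S : Type} [CommRing R] [CommRing S]

theorem sym_mul (u v : Rˣ) : sym (u * v) = sym u + sym v := by
  simp [sym]

theorem sym_inv (u : Rˣ) : sym u⁻¹ = -sym u := by
  simp [sym]

theorem kneg_mul (x y : Kr R) : -x * y = -(x * y) := neg_mul x y

theorem kmul_neg (x y : Kr R) : x * -y = -(x * y) := mul_neg x y

theorem K_mul {m n : ℕ} {x y : Kr R} (hx : x ∈ K R m) (hy : y ∈ K R n) : x * y ∈ K R (m + n) := by
  refine AddSubgroup.closure_induction (p := fun x _ => x * y ∈ K R (m + n)) ?_ (by simp)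
    (fun x x' _ _ h1 h2 => by rw [add_mul]; exact add_mem h1 h2)
    (fun x _ h => by rw [kneg_mul]; exact neg_mem h) hx
  rintro _ ⟨l, hl, rfl⟩
  refine AddSubgroup.closure_induction (p := fun y _ => (l.map sym).prod * y ∈ K R (m + n)) ?_
    (by simp) (fun x x' _ _ h1 h2 => by rw [mul_add]; exact add_mem h1 h2)
    (fun x _ h => by rw [kmul_neg]; exact neg_mem h) hy
  rintro _ ⟨l', hl', rfl⟩
  exact AddSubgroup.subset_closure ⟨l ++ l', by simp [hl, hl'], by simp⟩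

theorem mem_sup (x : Kr R) : x ∈ ⨆ m, K R m := by
  obtain ⟨x, rfl⟩ := RingQuot.mkRingHom_surjective (St R) x
  induction x using TensorAlgebra.induction with
  | algebraMap r =>
    have h1 : (1 : Kr R) ∈ K R 0 := AddSubgroup.subset_closure ⟨[], rfl, rfl⟩
    have := AddSubgroup.zsmul_mem _ (AddSubgroup.mem_iSup_of_mem (S := K R) 0 h1) r
    simpa using this
  | ι u =>
    exact AddSubgroup.mem_iSup_of_mem 1
      (AddSubgroup.subset_closure ⟨[Additive.toMul u], rfl, by simp [sym]⟩)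
  | mul a b ha hb =>
    rw [map_mul]
    generalize RingQuot.mkRingHom (St R) a = x at ha
    generalize RingQuot.mkRingHom (St R) b = y at hb
    refine AddSubgroup.iSup_induction (C := fun x => x * y ∈ ⨆ m, K R m) _ ha (fun m x hx => ?_)
      (by simp) (fun x x' h1 h2 => by rw [add_mul]; exact add_mem h1 h2)
    exact AddSubgroup.iSup_induction (C := fun y => x * y ∈ ⨆ m, K R m) _ hb
      (fun n y hy => AddSubgroup.mem_iSup_of_mem _ (K_mul hx hy))
      (by simp) (fun y y' h1 h2 => by rw [mul_add]; exact add_mem h1 h2)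
  | add a b ha hb =>
    rw [map_add]
    exact add_mem ha hb

theorem pick_mem (i : ℕ) (P : (Kr R →+ Kr S) → Prop) {m : ℕ} {x : Kr R} (hx : x ∈ K R (m + i)) :
    pick i P x ∈ K S m := by
  unfold pick
  split_ifs with h
  · exact h.choose_spec.2 m x hx
  · exact zero_mem _

theorem pick_spec (i : ℕ) (P : (Kr R →+ Kr S) → Prop)
    (h : ∃ N, P N ∧ ∀ m, ∀ x ∈ K R (m + i), N x ∈ K S m) : P (pick i P) := by
  unfold pick
  rw [dif_pos h]
  exact h.choose_spec.1

end Kr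

section Main

variable {L E : Type} [Field L] [Field E]

theorem gen_of {t : RatFunc L} (h : RatFunc.X ∈ IntermediateField.adjoin L {t}) :
    IntermediateField.adjoin L {t} = ⊤ :=
  top_le_iff.1 (RatFunc.adjoin_X.symm.le.trans (IntermediateField.adjoin_simple_le_iff.2 h))

theorem gen_sub (c : L) : IntermediateField.adjoin L {(RatFunc.X - RatFunc.C c : RatFunc L)} = ⊤ :=
  gen_of (by
    have := add_mem (IntermediateField.mem_adjoin_simple_self L (RatFunc.X - RatFunc.C c))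
      (IntermediateField.algebraMap_mem _ c)
    simpa using this)

theorem gen_inv (c : L) :
    IntermediateField.adjoin L {((RatFunc.X - RatFunc.C c)⁻¹ : RatFunc L)} = ⊤ :=
  gen_of (by
    have := add_mem (inv_mem (IntermediateField.mem_adjoin_simple_self L
      (RatFunc.X - RatFunc.C c)⁻¹)) (IntermediateField.algebraMap_mem _ c)
    simpa using this)

variable {φ : L →+* E} {a : E} {V W : ValuationSubring (RatFunc L)} {ρ : V →+* E} {σ : W →+* L}

theorem fin_facts (hM : MilS) (h : Pc RatFunc.X φ a V ρ) (hi : φ.IsIntegralElem a) :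
    FinPl L V ∧ IsDiscreteValuationRing V ∧ IsLocalHom ρ := by
  obtain ⟨p, hp, h0⟩ := hi
  obtain ⟨y, hy, hy'⟩ := h.ev p
  have h1 : (y : RatFunc L) ≠ 0 := fun h2 =>
    RatFunc.transcendental_X ⟨p, hp.ne_zero, hy.symm.trans h2⟩
  have h2 : V ≠ ⊤ := by
    rintro rfl
    have : y * ⟨(y : RatFunc L)⁻¹, trivial⟩ = 1 := Subtype.ext (mul_inv_cancel₀ h1)
    have h3 := congrArg ρ this
    rw [map_mul, hy', h0, map_one, zero_mul] at h3
    exact zero_ne_one h3
  have h3 := hM.dvr L V h.hC h2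
  exact ⟨⟨h.hC, h.ht, h2⟩, h3, local_of_ker h3 ρ (fun h4 => h1 (by rw [h4]; rfl)) (hy'.trans h0)⟩

theorem sub_not_mem (hW : ∀ c, RatFunc.C c ∈ W) (hX : RatFunc.X ∉ W) (c : L) :
    RatFunc.X - RatFunc.C c ∉ W := fun h => hX (by simpa using add_mem h (hW c))

theorem inf_facts (hM : MilS) (hW : ∀ c, RatFunc.C c ∈ W) (hσ : ∀ c, σ ⟨_, hW c⟩ = c)
    (hX : RatFunc.X ∉ W) : IsDiscreteValuationRing W ∧ IsLocalHom σ ∧
      ∀ c, Pc (RatFunc.X - RatFunc.C c)⁻¹ (RingHom.id L) 0 W σ := by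
  have h1 : IsDiscreteValuationRing W := hM.dvr L W hW (by
    rintro rfl
    exact hX trivial)
  have h2 : RatFunc.X⁻¹ ∈ W := (W.mem_or_inv_mem _).resolve_left hX
  have h3 : IsLocalHom σ := by
    refine local_of_ker h1 σ (x := ⟨_, h2⟩ - ⟨_, hW (σ ⟨_, h2⟩)⟩) (fun h => hX ?_)
      (by rw [map_sub, hσ, sub_self])
    have h4 : (RatFunc.X : RatFunc L)⁻¹ = RatFunc.C (σ ⟨_, h2⟩) :=
      congrArg Subtype.val (sub_eq_zero.1 h)
    rw [← inv_inv RatFunc.X, h4, ← map_inv₀]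
    exact hW _
  refine ⟨h1, h3, fun c => ?_⟩
  have h4 := sub_not_mem hW hX c
  have h5 := (W.mem_or_inv_mem _).resolve_left h4
  refine ⟨hW, h5, hσ, ?_⟩
  by_contra h0
  exact (ValuationSubring.coe_mem_nonunits_iff (a := ⟨_, h5⟩)).1
    (W.inv_mem_nonunits_iff.2 (Or.inr h4)) (h3.map_nonunit _ (Ne.isUnit h0))

theorem inf_eq (hM : MilS) (hW : ∀ c, RatFunc.C c ∈ W) (hσ : ∀ c, σ ⟨_, hW c⟩ = c)
    (hX : RatFunc.X ∉ W) {U : ValuationSubring (RatFunc L)} (hU : ∀ c, RatFunc.C c ∈ U)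
    (hX' : RatFunc.X ∉ U) : U = W := by
  obtain ⟨-, h1, h2⟩ := inf_facts hM hW hσ hX
  have h4 := sub_not_mem hU hX' 0
  exact (pc_res U hU ((U.mem_or_inv_mem _).resolve_left h4) (by rwa [inv_inv])).eq_zero (h2 0)
    (gen_inv 0) inferInstance h1

theorem exists_inf (L : Type) [Field L] : ∃ (W : ValuationSubring (RatFunc L)) (σ : W →+* L)
    (hW : ∀ c, RatFunc.C c ∈ W), (∀ c, σ ⟨_, hW c⟩ = c) ∧ RatFunc.X ∉ W := by
  obtain ⟨W, σ, h⟩ := exists_pc (L := L) (t := (RatFunc.X : RatFunc L)⁻¹)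
    (by simpa using gen_inv (0 : L))
    (fun h => RatFunc.transcendental_X (IsAlgebraic.inv_iff.1 h)) (RingHom.id L) 0
  refine ⟨W, σ, h.hC, h.rC, fun hX => ?_⟩
  have : (⟨_, hX⟩ : W) * ⟨_, h.ht⟩ = 1 := Subtype.ext (mul_inv_cancel₀ RatFunc.X_ne_zero)
  have h3 := congrArg σ this
  rw [map_mul, h.rt, map_one, mul_zero] at h3
  exact zero_ne_one h3

theorem tame_res (hT : TameS) {F : Type} [Field F] (V : ValuationSubring F) (ρ : V →+* E)
    (hd : IsDiscreteValuationRing V) [hl : IsLocalHom ρ] (β : Kr F) :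
    tame V ρ β = kmap (ResidueField.lift ρ) (tame V (residue V) β) := by
  obtain ⟨w, hw⟩ := IsDiscreteValuationRing.exists_irreducible V
  have := hT.base V (residue V) V ρ (RingHom.id F) (ResidueField.lift ρ) (fun x => x.2) hd
    inferInstance hd hl (fun x => (ResidueField.lift_residue_apply ρ x).symm) w w 1 hw hw
    (by rw [pow_one]; exact Associated.refl _) β
  rwa [kmap_id, one_smul] at this

theorem lift_surj (h : Pc RatFunc.X φ a V ρ) [IsLocalHom ρ]
    (hg : Subfield.closure (Set.range φ ∪ {a}) = ⊤) :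
    Function.Surjective (ResidueField.lift ρ) := by
  rw [← RingHom.fieldRange_eq_top_iff, ← top_le_iff, ← hg, Subfield.closure_le]
  rintro _ (⟨c, rfl⟩ | rfl)
  · exact ⟨_, (ResidueField.lift_residue_apply ρ _).trans (h.rC c)⟩
  · exact ⟨_, (ResidueField.lift_residue_apply ρ _).trans h.rt⟩

/-- Elements unramified at the finite places other than `V`. -/
def G (V : ValuationSubring (RatFunc L)) : AddSubgroup (Kr (RatFunc L)) where
  carrier := {β | ∀ U, FinPl L U → U ≠ V → tame U (residue U) β = 0}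
  add_mem' h1 h2 U hU hV := by rw [map_add, h1 U hU hV, h2 U hU hV, add_zero]
  zero_mem' U _ _ := map_zero _
  neg_mem' h1 U hU hV := by rw [map_neg, h1 U hU hV, neg_zero]

theorem surj_deg (hT : TameS) (hM : MilS) (h : Pc RatFunc.X φ a V ρ)
    (hg : Subfield.closure (Set.range φ ∪ {a}) = ⊤) (hi : φ.IsIntegralElem a) {m : ℕ} {δ : Kr E}
    (hδ : δ ∈ K E m) : ∃ β ∈ G V, β ∈ K (RatFunc L) (m + 1) ∧ tame V ρ β = δ := by
  obtain ⟨h1, h2, h3⟩ := fin_facts hM h hi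
  let e := RingEquiv.ofBijective (ResidueField.lift ρ) ⟨RingHom.injective _, lift_surj h hg⟩
  obtain ⟨β, hβ, h4, h5⟩ := hM.surj L V h1 m _ (kmap_mem e.symm.toRingHom hδ)
  refine ⟨β, h5, hβ, ?_⟩
  rw [tame_res hT V ρ h2, h4, kmap_comp,
    show (ResidueField.lift ρ).comp e.symm.toRingHom = RingHom.id E from
      RingHom.ext fun x => e.apply_symm_apply x, kmap_id]

theorem surj_all (hT : TameS) (hM : MilS) (h : Pc RatFunc.X φ a V ρ)
    (hg : Subfield.closure (Set.range φ ∪ {a}) = ⊤) (hi : φ.IsIntegralElem a) (δ : Kr E) :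
    ∃ β ∈ G V, tame V ρ β = δ := by
  refine AddSubgroup.iSup_induction (C := fun δ => ∃ β ∈ G V, tame V ρ β = δ) _ (mem_sup δ)
    (fun m δ hδ => ?_) ⟨0, zero_mem _, map_zero _⟩ ?_
  · obtain ⟨β, h1, -, h2⟩ := surj_deg hT hM h hg hi hδ
    exact ⟨β, h1, h2⟩
  · rintro _ _ ⟨β, h1, rfl⟩ ⟨β', h2, rfl⟩
    exact ⟨β + β', add_mem h1 h2, map_add _ _ _⟩

theorem kmap_C {U : ValuationSubring (RatFunc L)} (hU : ∀ c, RatFunc.C c ∈ U) (γ : Kr L) :
    kmap RatFunc.C γ = kmap U.subtype (kmap (RatFunc.C.codRestrict U hU) γ) := by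
  rw [kmap_comp]
  rfl

theorem exists_N (hT : TameS) (hM : MilS) (h : Pc RatFunc.X φ a V ρ)
    (hg : Subfield.closure (Set.range φ ∪ {a}) = ⊤) (hi : φ.IsIntegralElem a)
    (hW : ∀ c, RatFunc.C c ∈ W) (hσ : ∀ c, σ ⟨_, hW c⟩ = c) (hX : RatFunc.X ∉ W) :
    ∃ N : Kr E →+ Kr L, ∀ β ∈ G V, N (tame V ρ β) = -tame W σ β := by
  obtain ⟨h1, h2, h3⟩ := fin_facts hM h hi
  obtain ⟨h4, h5, -⟩ := inf_facts hM hW hσ hX
  let e := RingEquiv.ofBijective (ResidueField.lift ρ) ⟨RingHom.injective _, lift_surj h hg⟩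
  have hs : Function.Surjective ((tame V ρ).comp (G V).subtype) := fun δ => by
    obtain ⟨β, h6, h7⟩ := surj_all hT hM h hg hi δ
    exact ⟨⟨β, h6⟩, h7⟩
  have hk : ((tame V ρ).comp (G V).subtype).ker ≤ (-(tame W σ).comp (G V).subtype).ker := by
    rintro ⟨β, hβ⟩ h0
    have h6 : tame V ρ β = 0 := h0
    have h7 : tame V (residue V) β = 0 := by
      have := congrArg (kmap e.symm.toRingHom) h6
      rwa [tame_res hT V ρ h2, kmap_comp, map_zero,
        show e.symm.toRingHom.comp (ResidueField.lift ρ) = RingHom.id _ from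
          RingHom.ext fun x => e.symm_apply_apply x, kmap_id] at this
    obtain ⟨γ, rfl⟩ := hM.ker L β fun U hU => by
      by_cases hUV : U = V
      · subst hUV
        exact h7
      · exact hβ U hU hUV
    change -tame W σ (kmap RatFunc.C γ) = 0
    rw [kmap_C hW, hT.unit W σ h4 h5, neg_zero]
  exact ⟨AddMonoidHom.liftOfSurjective _ hs ⟨_, hk⟩, fun β hβ =>
    AddMonoidHom.liftOfRightInverse_comp_apply _ _ _ ⟨_, hk⟩ ⟨β, hβ⟩⟩

/-- The defining property of the norm of a simple extension. -/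
def NP (φ : L →+* E) (a : E) (N : Kr E →+ Kr L) : Prop :=
  ∀ (V W : ValuationSubring (RatFunc L)) (ρ : V →+* E) (σ : W →+* L)
    (hV : ∀ c, RatFunc.C c ∈ V) (hW : ∀ c, RatFunc.C c ∈ W) (hT : RatFunc.X ∈ V),
    (∀ c, ρ ⟨_, hV c⟩ = φ c) → ρ ⟨_, hT⟩ = a → (∀ c, σ ⟨_, hW c⟩ = c) → RatFunc.X ∉ W →
    ∀ β, (∀ U : ValuationSubring (RatFunc L), (∀ c, RatFunc.C c ∈ U) → U ≠ ⊤ → U ≠ V → U ≠ W →
      tame U (residue U) β = 0) → N (tame V ρ β) = -tame W σ β

theorem spec (hT : TameS) (hM : MilS) (φ : L →+* E) (a : E)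
    (hg : Subfield.closure (Set.range φ ∪ {a}) = ⊤) (hi : φ.IsIntegralElem a) :
    NP φ a (N1 φ a) := by
  refine pick_spec 0 (NP φ a) ?_
  obtain ⟨V, ρ, h⟩ := exists_pc RatFunc.adjoin_X RatFunc.transcendental_X φ a
  obtain ⟨W, σ, hW, hσ, hX⟩ := exists_inf L
  obtain ⟨N, hN⟩ := exists_N hT hM h hg hi hW hσ hX
  refine ⟨N, fun V' W' ρ' σ' hV' hW' hT' h1 h2 hσ' hX' β hβ => ?_, fun m x hx => ?_⟩
  · have h' : Pc RatFunc.X φ a V' ρ' := ⟨hV', hT', h1, h2⟩
    obtain rfl : V' = V :=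
      le_antisymm (h'.le h RatFunc.adjoin_X (fin_facts hM h hi).2.2 fun _ h => h)
        (h.le h' RatFunc.adjoin_X (fin_facts hM h' hi).2.2 fun _ h => h)
    obtain rfl : W' = W := inf_eq hM hW hσ hX hW' hX'
    obtain rfl : ρ' = ρ := h'.hom_eq h RatFunc.adjoin_X
    obtain rfl : σ' = σ :=
      ((inf_facts hM hW' hσ' hX').2.2 0).hom_eq ((inf_facts hM hW hσ hX).2.2 0) (gen_inv 0)
    refine hN β fun U hU hUV => hβ U hU.1 hU.2.2 hUV ?_
    rintro rfl
    exact hX hU.2.1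
  · obtain ⟨β, h1, h2, rfl⟩ := surj_deg hT hM h hg hi hx
    rw [hN β h1]
    exact neg_mem (pick_mem 1 _ h2)

theorem spec_G (hT : TameS) (hM : MilS) (h : Pc RatFunc.X φ a V ρ)
    (hg : Subfield.closure (Set.range φ ∪ {a}) = ⊤) (hi : φ.IsIntegralElem a)
    (hW : ∀ c, RatFunc.C c ∈ W) (hσ : ∀ c, σ ⟨_, hW c⟩ = c) (hX : RatFunc.X ∉ W)
    {β : Kr (RatFunc L)} (hβ : β ∈ G V) : N1 φ a (tame V ρ β) = -tame W σ β :=
  spec hT hM φ a hg hi V W ρ σ h.hC hW h.ht h.rC h.rt hσ hX β fun U h1 h2 h3 h4 =>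
    hβ U ⟨h1, by_contra fun h5 => h4 (inf_eq hM hW hσ hX h1 h5), h2⟩ h3

theorem n1_proj (hT : TameS) (hM : MilS) (hg : Subfield.closure (Set.range φ ∪ {a}) = ⊤)
    (hi : φ.IsIntegralElem a) (c : Lˣ) (δ : Kr E) :
    N1 φ a (sym (Units.map φ.toMonoidHom c) * δ) = sym c * N1 φ a δ := by
  obtain ⟨V, ρ, h⟩ := exists_pc RatFunc.adjoin_X RatFunc.transcendental_X φ a
  obtain ⟨W, σ, hW, hσ, hX⟩ := exists_inf L
  obtain ⟨h1, h2, h3⟩ := fin_facts hM h hi
  obtain ⟨h4, h5, -⟩ := inf_facts hM hW hσ hX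
  obtain ⟨β, hβ, rfl⟩ := surj_all hT hM h hg hi δ
  let u : (RatFunc L)ˣ := Units.map RatFunc.C.toMonoidHom c
  have h6 : sym u * β ∈ G V := fun U hU hUV => by
    rw [hT.mul U (residue U) (hM.dvr L U hU.1 hU.2.2) inferInstance ⟨_, hU.1 c⟩ u
      (Units.map ((residue U).comp (RatFunc.C.codRestrict U hU.1)).toMonoidHom c) rfl rfl,
      hβ U hU hUV, mul_zero, neg_zero]
  have h7 := spec_G hT hM h hg hi hW hσ hX h6
  rw [hT.mul V ρ h2 h3 ⟨_, h.hC c⟩ u (Units.map φ.toMonoidHom c) rfl (h.rC c).symm,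
    hT.mul W σ h4 h5 ⟨_, hW c⟩ u c rfl (hσ c).symm, map_neg, neg_inj] at h7
  rw [h7, spec_G hT hM h hg hi hW hσ hX hβ, kmul_neg]

theorem n1_bij (hT : TameS) (hM : MilS) (c : L)
    (hg : Subfield.closure (Set.range φ ∪ {φ c}) = ⊤) (γ : Kr L) :
    N1 φ (φ c) (kmap φ γ) = γ := by
  have hi : φ.IsIntegralElem (φ c) := RingHom.isIntegralElem_map φ
  obtain ⟨V, ρ, h⟩ := exists_pc RatFunc.adjoin_X RatFunc.transcendental_X φ (φ c)
  obtain ⟨W, σ, hW, hσ, hX⟩ := exists_inf L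
  obtain ⟨h1, h2, h3⟩ := fin_facts hM h hi
  obtain ⟨h4, h5, h6⟩ := inf_facts hM hW hσ hX
  have h0 : (RatFunc.X - RatFunc.C c : RatFunc L) ≠ 0 := fun h0 =>
    sub_not_mem hW hX c (h0 ▸ zero_mem W)
  let u := Units.mk0 _ h0
  have h' : Pc (RatFunc.X - RatFunc.C c) φ 0 V ρ := ⟨h.hC, sub_mem h.ht (h.hC c), h.rC, by
    have := map_sub ρ ⟨_, h.ht⟩ ⟨_, h.hC c⟩
    rw [h.rt, h.rC, sub_self] at this
    exact this⟩
  have h7 : sym u * kmap RatFunc.C γ ∈ G V := fun U hU hUV => by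
    have h8 := sub_mem hU.2.1 (hU.1 c)
    have h9 : (RatFunc.X - RatFunc.C c)⁻¹ ∈ U := by
      by_contra h9
      exact hUV ((pc_res U hU.1 h8 h9).eq_zero h' (gen_sub c) inferInstance h3)
    let w : Uˣ := ⟨⟨_, h8⟩, ⟨_, h9⟩, Subtype.ext (mul_inv_cancel₀ h0),
      Subtype.ext (inv_mul_cancel₀ h0)⟩
    have : sym u = kmap U.subtype (sym w) := by
      rw [kmap_sym]
      exact congrArg sym (Units.ext rfl)
    rw [this, kmap_C hU.1, ← map_mul]
    exact hT.unit U _ (hM.dvr L U hU.1 hU.2.2) inferInstance _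
  have h8 := spec_G hT hM h hg hi hW hσ hX h7
  have h9 : tame V ρ (sym u * kmap RatFunc.C γ) = kmap φ γ := by
    rw [kmap_C h.hC, hT.unif V ρ h2 h3 _ u (h'.irr (gen_sub c) h2 h3) rfl, kmap_comp]
    exact congrArg (fun ψ => kmap ψ γ) (RingHom.ext h.rC)
  have h10 : tame W σ (sym u⁻¹ * kmap RatFunc.C γ) = γ := by
    rw [kmap_C hW, hT.unif W σ h4 h5 _ u⁻¹ ((h6 c).irr (gen_inv c) h4 h5) rfl, kmap_comp,
      show σ.comp (RatFunc.C.codRestrict W hW) = RingHom.id L from RingHom.ext hσ, kmap_id]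
  rw [sym_inv, kneg_mul, map_neg] at h10
  rw [← h9, h8, h10]

end Main

end NrmAux

open NrmAux in
theorem nrmS (hT : TameS) (hM : MilS) : NrmS where
  spec φ a hg hi := spec hT hM φ a hg hi
  proj {L E} _ _ _ φ hf c δ := by
    have h : ∃ a, Subfield.closure (Set.range φ ∪ {a}) = ⊤ := by
      let _ := φ.toAlgebra
      have : Module.Finite L E := hf
      obtain ⟨a, ha⟩ := Field.exists_primitive_element L E
      exact ⟨a, congrArg IntermediateField.toSubfield ha⟩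
    unfold nrm
    rw [dif_pos h]
    exact n1_proj hT hM h.choose_spec (hf.to_isIntegral _) c δ
  bij {L E} _ _ φ hs γ := by
    have h : ∃ a, Subfield.closure (Set.range φ ∪ {a}) = ⊤ :=
      ⟨0, top_le_iff.1 fun x _ => Subfield.subset_closure (Or.inl (hs x))⟩
    unfold nrm
    rw [dif_pos h]
    have h1 := h.choose_spec
    obtain ⟨c, hc⟩ := hs h.choose
    rw [← hc] at h1 ⊢
    exact n1_bij hT hM c h1 γ

end

end Pool.Agent.KEW
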