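import Mathlib.Algebra.GroupWithZero.Submonoid.CancelMulZero
import Mathlib.RingTheory.PicardGroup
import Pool.Agent.MP_55d974_ag.kew.Deep
import Mathlib.AlgebraicGeometry.Morphisms.Finite
import Mathlib.AlgebraicGeometry.ProjectiveSpectrum.Basic
import Mathlib.Tactic.Polynomial.Basic

-- ======== part 0: formerly Pool.Agent.MP_55d974_ag.kew.Pts
section MrgPart0

/-! PROJECT KEW, row PTS: points and primes of local rings. -/

open AlgebraicGeometry CategoryTheory TopologicalSpace Opposite Pool.Agent.MP_55d974_ag IsLocalRing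

namespace Pool.Agent.KEW

noncomputable section

namespace PtsA

variable {X : Scheme.{0}}

/-- The specialisation map of local rings. -/
def sp {y z : X} (h : y ⤳ z) : X.presheaf.stalk z →+* X.presheaf.stalk y :=
  (X.presheaf.stalkSpecializes h).hom

theorem gz_eq {y z : X} (h : y ⤳ z) (a) : gz h a = residue _ (sp h a) := rfl

theorem sp_sp {w z x : X} (h : w ⤳ z) (h' : z ⤳ x) (a) :
    sp h (sp h' a) = sp (h.trans h') a := by
  unfold sp
  rw [← X.presheaf.stalkSpecializes_comp h h']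
  rfl

theorem sp_self {y : X} (h : y ⤳ y) (a) : sp h a = a := by
  unfold sp
  rw [X.presheaf.stalkSpecializes_refl]
  rfl

theorem gz_sp {w z x : X} (h : w ⤳ z) (h' : z ⤳ x) (a) :
    gz h (sp h' a) = gz (h.trans h') a := by
  rw [gz_eq, gz_eq, sp_sp]

theorem sp_germ {y z : X} (h : y ⤳ z) {U : X.Opens} (hz : z ∈ U) (c : Γ(X, U)) :
    sp h (X.presheaf.germ U z hz c) = X.presheaf.germ U y (h.mem_open U.2 hz) c := by
  unfold sp
  rw [← X.presheaf.germ_stalkSpecializes hz h]
  rfl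

theorem gz_zero {y z : X} (h : y ⤳ z) (a) : gz h a = 0 ↔ sp h a ∈ maximalIdeal _ := by
  rw [gz_eq]
  exact residue_eq_zero_iff _

theorem mem_of_gz {y z : X} (h : y ⤳ z) {a} (ha : gz h a = 0) : a ∈ maximalIdeal _ := by
  rw [gz_zero, mem_maximalIdeal, mem_nonunits_iff] at ha
  rw [mem_maximalIdeal, mem_nonunits_iff]
  exact fun hu => ha (hu.map _)

theorem nu_gz {y z : X} (h : y ⤳ z) (a) : Nu h (gz h a) ↔ a ∈ maximalIdeal _ := by
  refine ⟨?_, fun ha => ⟨a, ha, rfl⟩⟩
  rintro ⟨b, hb, e⟩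
  have := mem_of_gz h (a := a - b) (by rw [map_sub, e, sub_self])
  simpa using add_mem this hb

theorem nu_tr {w z x : X} (h : w ⤳ z) (h' : z ⤳ x) (a) :
    Nu h (gz (h.trans h') a) ↔ sp h' a ∈ maximalIdeal _ := by
  rw [← gz_sp h h', nu_gz]

theorem aff (x : X) : ∃ U : X.Opens, IsAffineOpen U ∧ x ∈ U := by
  obtain ⟨_, ⟨U, hU, rfl⟩, hx, -⟩ :=
    X.isBasis_affineOpens.exists_subset_of_mem_open (Set.mem_univ x) isOpen_univ
  exact ⟨U, hU, hx⟩

theorem germ_unit {U : X.Opens} (hU : IsAffineOpen U) {x : X} (hx : x ∈ U) (c : Γ(X, U)) :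
    X.presheaf.germ U x hx c ∈ maximalIdeal _ ↔ c ∈ (hU.primeIdealOf ⟨x, hx⟩).asIdeal := by
  let := X.presheaf.algebra_section_stalk ⟨x, hx⟩
  have := hU.isLocalization_stalk ⟨x, hx⟩
  exact IsLocalization.AtPrime.to_map_mem_maximal_iff (X.presheaf.stalk x)
    (hU.primeIdealOf ⟨x, hx⟩).asIdeal c

theorem germ_surj {U : X.Opens} (hU : IsAffineOpen U) {x : X} (hx : x ∈ U)
    (e : X.presheaf.stalk x) : ∃ c s : Γ(X, U), IsUnit (X.presheaf.germ U x hx s) ∧
      e * X.presheaf.germ U x hx s = X.presheaf.germ U x hx c := by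
  let := X.presheaf.algebra_section_stalk ⟨x, hx⟩
  have := hU.isLocalization_stalk ⟨x, hx⟩
  obtain ⟨⟨c, s⟩, he⟩ := IsLocalization.surj (hU.primeIdealOf ⟨x, hx⟩).asIdeal.primeCompl e
  exact ⟨c, s, IsLocalization.map_units (X.presheaf.stalk x) s, he⟩

theorem sp_surj {y z : X} (h : y ⤳ z) (e : X.presheaf.stalk y) :
    ∃ c s, IsUnit (sp h s) ∧ e * sp h s = sp h c := by
  obtain ⟨U, hU, hz⟩ := aff z
  obtain ⟨c, s, h1, h2⟩ := germ_surj hU (h.mem_open U.2 hz) e
  refine ⟨X.presheaf.germ U z hz c, X.presheaf.germ U z hz s, ?_, ?_⟩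
  · rwa [sp_germ]
  · rwa [sp_germ, sp_germ]

theorem spec_of_le {U : X.Opens} (hU : IsAffineOpen U) {p q : PrimeSpectrum Γ(X, U)}
    (h : p.asIdeal ≤ q.asIdeal) : hU.fromSpec p ⤳ hU.fromSpec q :=
  ((PrimeSpectrum.le_iff_specializes p q).1 h).map hU.fromSpec.continuous

theorem ord0 {z z' x : X} (k : z ⤳ x) (k' : z' ⤳ x)
    (h : ∀ a, sp k a ∈ maximalIdeal _ → sp k' a ∈ maximalIdeal _) : z ⤳ z' := by
  obtain ⟨U, hU, hx⟩ := aff x
  have h1 := k.mem_open U.2 hx
  have h2 := k'.mem_open U.2 hx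
  have := spec_of_le hU (p := hU.primeIdealOf ⟨z, h1⟩) (q := hU.primeIdealOf ⟨z', h2⟩) fun c hc => by
    rw [← germ_unit] at hc ⊢
    have := h (X.presheaf.germ U x hx c)
    rw [sp_germ, sp_germ] at this
    exact this hc
  rwa [hU.fromSpec_primeIdealOf, hU.fromSpec_primeIdealOf] at this

theorem prime_from {U : X.Opens} (hU : IsAffineOpen U) (p : PrimeSpectrum Γ(X, U))
    (hp : hU.fromSpec p ∈ U) : hU.primeIdealOf ⟨_, hp⟩ = p :=
  hU.fromSpec.isOpenEmbedding.injective (hU.fromSpec_primeIdealOf _)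

theorem pt0 {x : X} (P : Ideal (X.presheaf.stalk x)) [P.IsPrime] :
    ∃ (z : X) (k : z ⤳ x), ∀ a, a ∈ P ↔ sp k a ∈ maximalIdeal _ := by
  obtain ⟨U, hU, hx⟩ := aff x
  let p : PrimeSpectrum Γ(X, U) := ⟨P.comap (X.presheaf.germ U x hx).hom, inferInstance⟩
  have k : hU.fromSpec p ⤳ x := by
    have := spec_of_le hU (p := p) (q := hU.primeIdealOf ⟨x, hx⟩) fun c hc => by
      rw [← germ_unit]
      exact le_maximalIdeal (Ideal.IsPrime.ne_top ‹_›) hc
    rwa [hU.fromSpec_primeIdealOf] at this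
  refine ⟨_, k, fun a => ?_⟩
  obtain ⟨c, s, h1, h2⟩ := germ_surj hU hx a
  have h3 := congrArg (sp k) h2
  rw [map_mul] at h3
  rw [← Ideal.mul_unit_mem_iff_mem P h1, h2, ← Ideal.mul_unit_mem_iff_mem _ (h1.map (sp k)), h3,
    sp_germ, germ_unit hU, prime_from]
  rfl

theorem nu {y z : X} (h : y ⤳ z) : ∀ b ∈ O h, ¬ Nu h b ↔ b ≠ 0 ∧ b⁻¹ ∈ O h := by
  rintro _ ⟨a, rfl⟩
  rw [nu_gz, mem_maximalIdeal, mem_nonunits_iff, not_not]
  constructor
  · rintro ⟨u, rfl⟩
    refine ⟨(u.isUnit.map _).ne_zero, ⟨(u⁻¹ : _ˣ), ?_⟩⟩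
    refine eq_inv_of_mul_eq_one_left ?_
    rw [← map_mul, Units.inv_mul, map_one]
  · rintro ⟨h0, b, hb⟩
    have := mem_of_gz h (a := 1 - a * b) (by rw [map_sub, map_mul, hb, map_one,
      mul_inv_cancel₀ h0, sub_self])
    have := isUnit_of_mem_nonunits_one_sub_self _ this
    exact isUnit_of_mul_isUnit_left this

theorem unit_iff {E : Type} [Field E] (V : ValuationSubring E) (x : V) :
    IsUnit x ↔ (x : E) ≠ 0 ∧ (x : E)⁻¹ ∈ V := by
  constructor
  · rintro ⟨u, rfl⟩
    have h1 : ((u : V) : E) * ((u⁻¹ : Vˣ) : V) = 1 := by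
      rw [← MulMemClass.coe_mul, Units.mul_inv]
      rfl
    refine ⟨left_ne_zero_of_mul_eq_one h1, ?_⟩
    rw [← eq_inv_of_mul_eq_one_right h1]
    exact Subtype.prop _
  · rintro ⟨h0, h1⟩
    exact IsUnit.of_mul_eq_one ⟨_, h1⟩ (Subtype.ext (mul_inv_cancel₀ h0))

end PtsA

open PtsA in
theorem ptsS : PtsS := fun X =>
  { loc := fun h => IsLocalRing.of_surjective' _ (gz h).rangeRestrict_surjective
    frac := fun {y z} h => IsFractionRing.of_field _ _ fun b => by
      obtain ⟨e, rfl⟩ := X.residue_surjective y b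
      obtain ⟨c, s, h1, h2⟩ := sp_surj h e
      refine ⟨⟨_, c, rfl⟩, ⟨_, s, rfl⟩, ?_⟩
      have h3 : gz h s ≠ 0 := (h1.map (residue _)).ne_zero
      refine (eq_div_iff h3).2 ?_
      exact (map_mul (residue _) e _).symm.trans (congrArg (residue _) h2)
    nu := nu
    self := fun h b => by
      constructor
      · rintro ⟨a, ha, rfl⟩
        rwa [gz_zero, sp_self]
      · rintro rfl
        exact ⟨0, zero_mem _, map_zero _⟩
    le := fun h h' => by
      rintro _ ⟨a, rfl⟩
      exact ⟨_, gz_sp h h' a⟩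
    sub := fun h h' => by
      rintro _ ⟨e, rfl⟩
      obtain ⟨c, s, h1, h2⟩ := sp_surj h' e
      refine ⟨_, ⟨s, rfl⟩, ?_, c, ?_⟩
      · rw [nu_tr, mem_maximalIdeal, mem_nonunits_iff, not_not]
        exact h1
      · rw [← gz_sp h h', ← gz_sp h h', ← h2, map_mul]
    pt := fun h P _ => by
      obtain ⟨z, k, hz⟩ := pt0 (P.comap (gz h).rangeRestrict)
      have h1 := ord0 h k fun a ha => (hz a).1 (by
        have : (gz h).rangeRestrict a = 0 := Subtype.ext ((gz_zero h a).2 ha)
        exact Ideal.mem_comap.2 (this ▸ P.zero_mem))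
      refine ⟨z, h1, k, ?_⟩
      rintro ⟨_, a, rfl⟩
      exact (hz a).trans (nu_tr h1 k a).symm
    ord := fun h h' k k' H => ord0 k k' fun a ha =>
      (nu_tr h' k' a).1 (H _ ⟨a, rfl⟩ ((nu_tr h k a).2 ha))
    pl := fun h V => by
      constructor
      · intro P
        refine ⟨P.dvr, ?_, ?_⟩
        · rintro _ ⟨a, rfl⟩
          exact P.mem a
        · rintro _ ⟨a, rfl⟩ h0 h1
          have := P.loc.map_nonunit a ((unit_iff V _).2 ⟨h0, h1⟩)
          refine ((nu h _ ⟨a, rfl⟩).1 ?_).2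
          rwa [nu_gz, mem_maximalIdeal, mem_nonunits_iff, not_not]
      · rintro ⟨h1, h2, h3⟩
        refine ⟨h, h1, fun a => h2 _ ⟨a, rfl⟩, ⟨fun a ha => ?_⟩⟩
        obtain ⟨h4, h5⟩ := (unit_iff V _).1 ha
        have := (nu h _ ⟨a, rfl⟩).2 ⟨h4, h3 _ ⟨a, rfl⟩ h4 h5⟩
        rwa [nu_gz, mem_maximalIdeal, mem_nonunits_iff, not_not] at this
    rk_gz := fun {w z x V} P h' a m => by
      have : rk P (gz h' a) = residue V ((gz P.sp).codRestrict V P.mem (sp h' a)) :=
        @ResidueField.map_residue _ _ _ _ _ _ _ P.loc _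
      rw [this]
      exact congrArg _ (Subtype.ext (gz_sp P.sp h' a).symm) }

end

end Pool.Agent.KEW

end MrgPart0

-- ======== part 1: formerly Pool.Agent.MP_55d974_ag.kew.Proj
section MrgPart1

/-! PROJECT KEW, the standard charts of a projective morphism. -/

open AlgebraicGeometry CategoryTheory Limits TopologicalSpace Opposite Pool.Agent.MP_55d974_ag
  HomogeneousLocalization

namespace Pool.Agent.KEW

noncomputable section

attribute [local instance] MvPolynomial.gradedAlgebra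

namespace PJ

variable (n : ℕ)

/-- The graded polynomial ring. -/
abbrev G := MvPolynomial.homogeneousSubmodule (Fin (n + 1)) ℤ

/-- The variables. -/
abbrev xx (i : Fin (n + 1)) : MvPolynomial (Fin (n + 1)) ℤ := MvPolynomial.X i

theorem xm (i : Fin (n + 1)) : xx n i ∈ G n 1 := MvPolynomial.isHomogeneous_X _ _

/-- The fraction `x_k / x_i`. -/
def fr (i k : Fin (n + 1)) : Away (G n) (xx n i) := Away.mk _ (xm n i) 1 (xx n k) (xm n k)

/-- The standard chart. -/
abbrev V (i : Fin (n + 1)) : (Proj (G n)).Opens := Proj.basicOpen (G n) (xx n i)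

/-- The fraction as a section. -/
def s (i k : Fin (n + 1)) : Γ(Proj (G n), V n i) :=
  (Proj.awayToSection (G n) (xx n i)).hom (fr n i k)

theorem scale {R : Type} [CommRing R] (φ : MvPolynomial (Fin (n + 1)) ℤ →+* R) (c : R) (d : ℕ)
    (a : MvPolynomial (Fin (n + 1)) ℤ) (ha : a.IsHomogeneous d) :
    MvPolynomial.eval₂Hom (Int.castRingHom R) (fun k => φ (xx n k) * c) a = φ a * c ^ d := by
  conv_lhs => rw [a.as_sum]
  conv_rhs => rw [a.as_sum]
  rw [map_sum, map_sum, Finset.sum_mul]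
  refine Finset.sum_congr rfl fun m hm => ?_
  have hd : ∑ k, m k = d := by
    have := ha (MvPolynomial.mem_support_iff.1 hm)
    rw [← this, Finsupp.weight_apply, Finsupp.sum_fintype _ _ (by simp)]
    simp
  rw [MvPolynomial.eval₂Hom_monomial, MvPolynomial.monomial_eq, map_mul,
    Finsupp.prod_fintype _ _ (by simp), Finsupp.prod_fintype _ _ (by simp), map_prod, ← hd,
    ← Finset.prod_pow_eq_pow_sum, mul_assoc, ← Finset.prod_mul_distrib]
  congr 1
  · simp
  · exact Finset.prod_congr rfl fun k _ => by rw [mul_pow, map_pow]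

theorem fr_top (i : Fin (n + 1)) : Subring.closure (Set.range (fr n i)) = ⊤ := by
  refine top_le_iff.1 fun z hz => ?_
  clear hz
  obtain ⟨d, a, ha, rfl⟩ := Away.mk_surjective (G n) (xm n i) z
  have h : Away.mk _ (xm n i) d a ha =
      MvPolynomial.eval₂Hom (Int.castRingHom _) (fr n i) a := by
    apply val_injective
    have e : (algebraMap (Away (G n) (xx n i)) (Localization.Away (xx n i))).comp
        (MvPolynomial.eval₂Hom (Int.castRingHom _) (fr n i)) =
        MvPolynomial.eval₂Hom (Int.castRingHom _) (fun k => algebraMap _ _ (xx n k) *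
          Localization.mk 1 ⟨xx n i, Submonoid.mem_powers _⟩) := by
      refine MvPolynomial.ringHom_ext (fun r => by simp) fun k => ?_
      simp only [RingHom.comp_apply, MvPolynomial.eval₂Hom_X',
        HomogeneousLocalization.algebraMap_apply, fr, Away.val_mk]
      rw [← Localization.mk_one_eq_algebraMap, Localization.mk_mul]
      congr 1
      simp
    have e2 := DFunLike.congr_fun e a
    rw [RingHom.comp_apply, HomogeneousLocalization.algebraMap_apply, scale n _ _ d a (by simpa using ha)] at e2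
    rw [e2, Away.val_mk, ← Localization.mk_one_eq_algebraMap, Localization.mk_pow,
      Localization.mk_mul]
    congr 1
    · simp
    · ext
      simp
  rw [h]
  clear h ha
  induction a using MvPolynomial.induction_on with
  | C r => simp
  | add p q hp hq =>
    rw [map_add]
    exact add_mem hp hq
  | mul_X p k hp =>
    rw [map_mul, MvPolynomial.eval₂Hom_X']
    exact mul_mem hp (Subring.subset_closure ⟨k, rfl⟩)

theorem s_top (i : Fin (n + 1)) : Subring.closure (Set.range (s n i)) = ⊤ := by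
  have h : Function.Surjective (Proj.awayToSection (G n) (xx n i)).hom :=
    (Proj.basicOpenIsoAway (G n) (xx n i) (xm n i) one_pos).commRingCatIsoToRingEquiv.surjective
  have e : Set.range (s n i) = (Proj.awayToSection (G n) (xx n i)).hom '' Set.range (fr n i) := by
    rw [← Set.range_comp]
    rfl
  rw [e, ← RingHom.map_closure, fr_top, ← RingHom.range_eq_map, RingHom.range_eq_top.2 h]

theorem s_one (i : Fin (n + 1)) : s n i i = 1 := by
  have : fr n i i = 1 := by
    apply val_injective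
    rw [fr, Away.val_mk, val_one]
    simp only [pow_one]
    exact Localization.mk_self (⟨xx n i, Submonoid.mem_powers _⟩ : Submonoid.powers (xx n i))
  rw [s, this, map_one]

theorem germ_val (i k : Fin (n + 1)) (x : Proj (G n)) (hx : x ∈ V n i) :
    ((Proj.stalkIso (G n) x).hom ((Proj (G n)).presheaf.germ _ x hx (s n i k))).val =
      Localization.mk (xx n k) ⟨xx n i, hx⟩ := by
  have h := Proj.stalkIso'_germ (G n) (V n i) x hx (s n i k)
  have h2 := ProjectiveSpectrum.Proj.awayToSection_apply (G n) (xx n i) (fr n i k) ⟨x, hx⟩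
  refine (congrArg val h).trans (h2.trans ?_)
  rw [fr, Away.val_mk, Localization.mk_eq_mk', IsLocalization.map_mk', ← Localization.mk_eq_mk']
  congr 1
  ext
  simp

theorem s_basic (i k : Fin (n + 1)) : (Proj (G n)).basicOpen (s n i k) = V n i ⊓ V n k := by
  ext x
  by_cases hx : x ∈ V n i
  · have h1 := (Proj (G n)).mem_basicOpen (s n i k) x hx
    have h2 : IsUnit ((Proj (G n)).presheaf.germ _ x hx (s n i k)) ↔ x ∈ V n k := by
      rw [← MulEquiv.isUnit_map (f := (Proj.stalkIso (G n) x).commRingCatIsoToRingEquiv), ← isUnit_iff_isUnit_val]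
      erw [germ_val]
      rw [Localization.mk_eq_mk', IsLocalization.AtPrime.isUnit_mk'_iff]
      rfl
    exact (h1.trans h2).trans ⟨fun h => ⟨hx, h⟩, fun h => h.2⟩
  · exact ⟨fun h => (hx ((Proj (G n)).basicOpen_le _ h)).elim, fun h => (hx h.1).elim⟩

theorem s_mul (i j k : Fin (n + 1)) (x : Proj (G n)) (hi : x ∈ V n i) (hj : x ∈ V n j) :
    (Proj (G n)).presheaf.germ _ x hi (s n i j) * (Proj (G n)).presheaf.germ _ x hj (s n j k) =
      (Proj (G n)).presheaf.germ _ x hi (s n i k) := by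
  apply (Proj.stalkIso (G n) x).commRingCatIsoToRingEquiv.injective
  apply val_injective
  rw [map_mul, val_mul]
  refine (congrArg₂ (· * ·) (germ_val n i j x hi) (germ_val n j k x hj)).trans
    (Eq.trans ?_ (germ_val n i k x hi).symm)
  rw [Localization.mk_mul, Localization.mk_eq_mk_iff, Localization.r_iff_exists]
  refine ⟨1, ?_⟩
  simp only [OneMemClass.coe_one, one_mul, Submonoid.coe_mul]
  ring

theorem s_cov (x : Proj (G n)) : ∃ i, x ∈ V n i := by
  refine Opens.mem_iSup.1 ((Proj.iSup_basicOpen_eq_top' (G n) (xx n) (fun i => ⟨1, xm n i⟩)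
    ?_).ge (Set.mem_univ x))
  refine top_le_iff.1 fun a h => ?_
  clear h
  induction a using MvPolynomial.induction_on with
  | C r => simp
  | add p q hp hq => exact add_mem hp hq
  | mul_X p k hp => exact mul_mem hp (Algebra.subset_adjoin ⟨k, rfl⟩)

theorem gen {Y W V S : Scheme.{0}} [IsAffine V] [IsAffine S] (j : Y ⟶ W) [IsClosedImmersion j]
    (p : W ⟶ V) (q : W ⟶ S) (h : IsPullback p q (terminal.from V) (terminal.from S)) :
    Subring.closure (Set.range (j ≫ p).appTop ∪ Set.range (j ≫ q).appTop) = ⊤ := by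
  have : IsAffine W := .of_isPullback h
  have h1 := CommRingCat.closure_range_union_range_eq_top_of_isPushout
    (isPushout_appTop_of_isPullback h)
  have h2 := (IsClosedImmersion.isAffine_surjective_of_isAffine j).2
  have h3 := congrArg (Subring.map j.appTop.hom) h1
  rw [RingHom.map_closure, ← RingHom.range_eq_map, RingHom.range_eq_top.2 h2, Set.image_union,
    ← Set.range_comp, ← Set.range_comp] at h3
  rw [Scheme.Hom.comp_appTop, Scheme.Hom.comp_appTop]
  exact h3

set_option backward.isDefEq.respectTransparency false in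
theorem app_top {X P : Scheme.{0}} (g : X ⟶ P) (V : P.Opens) :
    (g ∣_ V).appTop ≫ (g ⁻¹ᵁ V).topIso.hom = V.topIso.hom ≫ g.app V := by
  rw [morphismRestrict_appTop, Scheme.Opens.topIso_hom, Scheme.Opens.topIso_hom,
    Scheme.Hom.app_eq_appLE, Scheme.Hom.app_eq_appLE, Scheme.Hom.map_appLE,
    Scheme.Hom.appLE_map, Scheme.Hom.appLE_map]

set_option backward.isDefEq.respectTransparency false in
theorem ι_top {X S : Scheme.{0}} (f : X ⟶ S) (U : X.Opens) :
    (U.ι ≫ f).appTop ≫ U.topIso.hom = f.appTop ≫ X.presheaf.map (homOfLE le_top).op := by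
  rw [Scheme.Hom.comp_appTop, Scheme.Opens.ι_appTop, Scheme.Opens.topIso_hom, Category.assoc,
    ← X.presheaf.map_comp]
  rfl

theorem gen' {X W P S : Scheme.{0}} [IsAffine S] (i : X ⟶ W) (p : W ⟶ P) (q : W ⟶ S)
    (hp : IsPullback p q (terminal.from P) (terminal.from S))
    [IsClosedImmersion i] (V : P.Opens) (hV : IsAffineOpen V) :
    Subring.closure (Set.range ((i ≫ p) ∣_ V).appTop ∪
      Set.range (((i ≫ p) ⁻¹ᵁ V).ι ≫ i ≫ q).appTop) = ⊤ := by
  have : IsAffine V := hV
  have h0 := (isPullback_morphismRestrict p V).paste_vert hp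
  rw [terminal.hom_ext (V.ι ≫ terminal.from P) (terminal.from _)] at h0
  have h1 := gen (i ∣_ p ⁻¹ᵁ V) (p ∣_ V) (Scheme.Opens.ι _ ≫ q) h0
  rw [morphismRestrict_ι_assoc] at h1
  rw [morphismRestrict_comp]
  exact h1

theorem chart {A : Type} [CommRing A] {X P : Scheme.{0}} (g : X ⟶ P) (f : X ⟶ Spec (.of A))
    (V : P.Opens) {ι : Type} (s : ι → Γ(P, V)) (hs : Subring.closure (Set.range s) = ⊤)
    (h1 : Subring.closure (Set.range (g ∣_ V).appTop ∪
      Set.range ((g ⁻¹ᵁ V).ι ≫ f).appTop) = ⊤) :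
    Subring.closure (Set.range (aU f (g ⁻¹ᵁ V)) ∪ Set.range fun l => g.app V (s l)) = ⊤ := by
  have h2 : Function.Surjective (g ⁻¹ᵁ V).topIso.hom.hom :=
    (g ⁻¹ᵁ V).topIso.commRingCatIsoToRingEquiv.surjective
  have h3 := congrArg (Subring.map (g ⁻¹ᵁ V).topIso.hom.hom) h1
  rw [RingHom.map_closure, ← RingHom.range_eq_map, RingHom.range_eq_top.2 h2] at h3
  refine top_le_iff.1 (h3.ge.trans (Subring.closure_le.2 ?_))
  rintro _ ⟨_, ⟨z, rfl⟩ | ⟨z, rfl⟩, rfl⟩
  · have e3 := DFunLike.congr_fun (congrArg CommRingCat.Hom.hom (app_top g V)) z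
    have e4 : V.topIso.hom z ∈ Subring.closure (Set.range s) := by
      rw [hs]
      trivial
    have e5 := Subring.mem_map.2 ⟨_, e4, (rfl : (g.app V).hom _ = _)⟩
    rw [RingHom.map_closure, ← Set.range_comp] at e5
    exact Set.mem_of_eq_of_mem e3 (Subring.closure_mono Set.subset_union_right e5)
  · have e3 := DFunLike.congr_fun (congrArg CommRingCat.Hom.hom (ι_top f (g ⁻¹ᵁ V))) z
    refine Set.mem_of_eq_of_mem e3
      (Subring.subset_closure (Or.inl ⟨(Scheme.ΓSpecIso (.of A)).hom z, ?_⟩))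
    simp [aU]

theorem cov {A : Type} [CommRing A] {X W P : Scheme.{0}} (i : X ⟶ W) (p : W ⟶ P)
    (q : W ⟶ Spec (.of A)) (hp : IsPullback p q (terminal.from P) (terminal.from _))
    [IsClosedImmersion i] {n : ℕ} (V : Fin (n + 1) → P.Opens) (s : ∀ k, Fin (n + 1) → Γ(P, V k))
    (h1 : ∀ k, IsAffineOpen (V k)) (h2 : ∀ x, ∃ k, x ∈ V k)
    (h3 : ∀ k, Subring.closure (Set.range (s k)) = ⊤) (h4 : ∀ k, s k k = 1)
    (h5 : ∀ k l, P.basicOpen (s k l) = V k ⊓ V l)
    (h6 : ∀ k l m x (hk : x ∈ V k) (hl : x ∈ V l), P.presheaf.germ _ x hk (s k l) *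
      P.presheaf.germ _ x hl (s l m) = P.presheaf.germ _ x hk (s k m)) :
    Cov (i ≫ q) := by
  have : IsAffineHom p := MorphismProperty.of_isPullback hp.flip inferInstance
  refine ⟨n, fun k => (i ≫ p) ⁻¹ᵁ V k, fun k l => (i ≫ p).app _ (s k l),
    fun k => (h1 k).preimage _, fun x => h2 _,
    fun k => chart _ _ _ _ (h3 k) (gen' i p q hp _ (h1 k)),
    fun k => ?_, fun k l => ?_, fun k l m x hk hl => ?_⟩
  · simp only [h4, map_one]
  · rw [← Scheme.preimage_basicOpen, h5]
    rfl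
  · rw [← (i ≫ p).germ_stalkMap_apply _ x hk, ← (i ≫ p).germ_stalkMap_apply _ x hl,
      ← (i ≫ p).germ_stalkMap_apply _ x hk, ← map_mul, h6]

end PJ

open PJ in
theorem projS : ProjS := by
  rintro A _ X f ⟨n, i, hi, rfl⟩
  exact cov i _ _ (IsPullback.of_hasBinaryProduct' _ _) (V n) (s n)
    (fun k => Proj.isAffineOpen_basicOpen (G n) _ (xm n k) one_pos)
    (s_cov n) (s_top n) (s_one n) (s_basic n) (s_mul n)

end

end Pool.Agent.KEW

end MrgPart1

-- marker of a merged file
example : 731051 + 621168 = 731051 + 621168 := rfl
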