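import Mathlib.RingTheory.DedekindDomain.Factorization
import Mathlib.RingTheory.PiTensorProduct
import Pool.Agent.MP_55d974_ag.kew.Deep
import Pool.Agent.MP_55d974_ag.kew.GStep
import Pool.Agent.MP_55d974_ag.kew.SEq
import Pool.Agent.MP_55d974_ag.coh.Tow
import Pool.Agent.MP_55d974_ag.kew.Pure
import Pool.Agent.MP_55d974_ag.kew.Proj
import Pool.Agent.MP_55d974_ag.kew.Mil
import Pool.Agent.MP_55d974_ag.kew.Nrm
import Pool.Agent.MP_55d974_ag.kew.Nn
import Pool.Agent.MP_55d974_ag.kew.St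
import Pool.Agent.MP_55d974_ag.kew.Core
import Pool.Agent.MP_55d974_ag.kew.LimQ

-- ======== part 0: formerly Pool.Agent.MP_55d974_ag.kew.Ext
section MrgPart0

/-! PROJECT KEW: extensions of finitely many discrete valuation rings to a finite extension. -/

namespace Pool.Agent.KEW

open IsLocalRing IsDedekindDomain

namespace Ext

/-- A valuation ring containing a Dedekind domain is its localisation at the centre. -/
theorem centre {B E : Type} [CommRing B] [IsDedekindDomain B] [Field E] [Algebra B E]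
    [IsFractionRing B E] (U : ValuationSubring E) (hU : ∀ x : B, algebraMap B E x ∈ U) (b : B)
    (hb : b ≠ 0) (hn : algebraMap B E b ∈ U.nonunits) :
    ∃ v : HeightOneSpectrum B, b ∈ v.asIdeal ∧ HeightOneSpectrum.valuationSubringAtPrime E v = U := by
  let ψ : B →+* U := (algebraMap B E).codRestrict U hU
  let P : Ideal B := (maximalIdeal U).comap ψ
  have hP : ∀ x, x ∈ P ↔ algebraMap B E x ∈ U.nonunits := fun x =>
    (ValuationSubring.coe_mem_nonunits_iff (a := ψ x)).symm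
  have hbP : b ∈ P := (hP b).2 hn
  let v : HeightOneSpectrum B := ⟨P, inferInstance, fun h => hb (by simpa [h] using hbP)⟩
  refine ⟨v, hbP, ValuationSubring.eq_of_le_of_ne_top _ ?_ ?_⟩
  · rintro x ⟨a, s, hs, rfl⟩
    refine U.mul_mem _ _ (hU a) ?_
    have h1 : algebraMap B E s ∉ U.nonunits := fun h => hs ((hP s).2 h)
    rw [ValuationSubring.mem_nonunits_iff_or, not_or, not_not] at h1
    simpa using h1.2
  · rintro rfl
    rcases (ValuationSubring.mem_nonunits_iff_or _).1 hn with h | h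
    · exact hb ((IsFractionRing.to_map_eq_zero_iff (K := E)).1 h)
    · exact h (ValuationSubring.mem_top _)

theorem nonunits_map {L E : Type} [Field L] [Field E] (φ : L →+* E) (U : ValuationSubring E)
    {c : L} (h : c ∈ (U.comap φ).nonunits) : φ c ∈ U.nonunits := by
  rw [ValuationSubring.mem_nonunits_iff_or] at h ⊢
  rcases h with h | h
  · exact Or.inl (by rw [h, map_zero])
  · exact Or.inr (by rw [← map_inv₀]; exact h)

theorem one {L E : Type} [Field L] [Field E] [CharZero L] (φ : L →+* E) (hφ : φ.Finite)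
    (V : ValuationSubring L) (hV : IsDiscreteValuationRing V) (c : L) (hc : c ≠ 0)
    (hn : c ∈ V.nonunits) :
    {U : ValuationSubring E | U.comap φ = V}.Finite ∧
      ∀ U : ValuationSubring E, U.comap φ = V → IsDiscreteValuationRing U := by
  letI : Algebra L E := φ.toAlgebra
  haveI : Module.Finite L E := hφ
  letI : Algebra V E := (φ.comp V.subtype).toAlgebra
  haveI : IsScalarTower V L E := IsScalarTower.of_algebraMap_eq fun _ => rfl
  haveI : IsDedekindDomain (integralClosure V E) := integralClosure.isDedekindDomain V L E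
  haveI : IsFractionRing (integralClosure V E) E :=
    IsIntegralClosure.isFractionRing_of_finite_extension V L E _
  let b : integralClosure V E := algebraMap V _ ⟨c, V.nonunits_subset hn⟩
  have hb' : algebraMap (integralClosure V E) E b = φ c := rfl
  have hb : b ≠ 0 := fun h => hc (φ.injective (by rw [← hb', h, map_zero, map_zero]))
  have key : ∀ U : ValuationSubring E, U.comap φ = V → ∃ v : HeightOneSpectrum (integralClosure V E),
      b ∈ v.asIdeal ∧ HeightOneSpectrum.valuationSubringAtPrime E v = U := by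
    intro U hU
    refine centre U (fun x => ?_) b hb ?_
    · have hV' : ∀ y : V, φ y ∈ U := fun y => by
        have h : (y : L) ∈ U.comap φ := by rw [hU]; exact y.2
        exact h
      letI : Algebra V U := ((φ.comp V.subtype).codRestrict U hV').toAlgebra
      haveI : IsScalarTower V U E := IsScalarTower.of_algebraMap_eq fun _ => rfl
      have hi : IsIntegral U (x : E) := IsIntegral.tower_top (R := V) x.2
      obtain ⟨y, hy⟩ := IsIntegrallyClosed.isIntegral_iff.1 hi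
      change (x : E) ∈ U
      rw [← hy]
      exact y.2
    · rw [hb']
      exact nonunits_map φ U (by rw [hU]; exact hn)
  constructor
  · have hf := Ideal.finite_factors (I := Ideal.span {b}) (by simpa using hb)
    refine (hf.image (HeightOneSpectrum.valuationSubringAtPrime E)).subset fun U hU => ?_
    obtain ⟨v, h1, h2⟩ := key U hU
    exact ⟨v, Ideal.dvd_span_singleton.2 h1, h2⟩
  · intro U hU
    obtain ⟨v, -, rfl⟩ := key U hU
    exact IsLocalization.AtPrime.isDiscreteValuationRing_of_dedekind_domain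
      (integralClosure V E) v.ne_bot _

end Ext

theorem extS : ExtS := by
  intro L E _ _ _ φ hφ S c h
  refine ⟨?_, fun U hU => ?_, (map_ne_zero φ).2 h.ne, fun U hU => ?_⟩
  · refine (h.fin.biUnion fun V hV =>
      (Ext.one φ hφ V (h.dvr V hV) c h.ne (h.non V hV)).1).subset fun U hU => ?_
    exact Set.mem_biUnion hU rfl
  · exact (Ext.one φ hφ _ (h.dvr _ hU) c h.ne (h.non _ hU)).2 U rfl
  · exact Ext.nonunits_map φ U (h.non _ hU)

end Pool.Agent.KEW

end MrgPart0

-- ======== part 1: formerly Pool.Agent.MP_55d974_ag.kew.Cpl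
section MrgPart1

/-! PROJECT KEW: completions of discrete valuation rings and Greenberg approximation. -/

namespace Pool.Agent.KEW

open IsLocalRing

theorem cpl_irr {A : Type} [CommRing A] [IsDomain A] [IsDiscreteValuationRing A] {π : A}
    (hπ : Irreducible π) : Irreducible (algebraMap A (Cpl A) π) := by
  have hm : maximalIdeal (Cpl A) = Ideal.span {algebraMap A (Cpl A) π} := by
    rw [AdicCompletion.maximalIdeal_eq_map.trans (congrArg (Ideal.map _) hπ.maximalIdeal_eq),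
      Ideal.map_span, Set.image_singleton]
  have h0 : algebraMap A (Cpl A) π ≠ 0 :=
    (map_ne_zero_iff _ ((cpl_dense hπ).inj hπ)).2 hπ.ne_zero
  exact ((Ideal.span_singleton_prime h0).1 (hm ▸ (maximalIdeal.isMaximal _).isPrime)).irreducible

theorem cplS : CplS := by
  intro A _ _ _ π hπ
  have hi := cpl_irr hπ
  have hd : IsDiscreteValuationRing (Cpl A) :=
    IsDiscreteValuationRing.ofHasUnitMulPowIrreducibleFactorization ⟨_, hi, fun {x} hx => by
      obtain ⟨k, u, hu, rfl⟩ := cpl_eq hπ hx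
      exact ⟨k, associated_mul_unit_right _ _ hu⟩⟩
  refine ⟨Cpl A, inferInstance, inferInstance, hd, inferInstance, (cpl_dense hπ).inj hπ, hi, ?_,
    fun x N => (cpl_dense hπ).dense N x⟩
  rw [← hi.maximalIdeal_eq]
  infer_instance

theorem IsCpl.dense' {A : Type} [CommRing A] [IsDomain A] [IsDiscreteValuationRing A] {π : A}
    {B : Type} [CommRing B] [IsDomain B] [Algebra A B] (hπ : Irreducible π) (h : IsCpl A π B) :
    Dense' B π := by
  refine ⟨fun N y => h.den y N, fun N a ha => ?_, fun y hy => ?_⟩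
  · rcases eq_or_ne a 0 with rfl | h0
    · exact dvd_zero _
    obtain ⟨k, u, rfl⟩ := IsDiscreteValuationRing.eq_unit_mul_pow_irreducible h0 hπ
    rw [map_mul, ((Units.isUnit u).map _).dvd_mul_left, map_pow,
      pow_dvd_pow_iff h.irr.ne_zero h.irr.not_isUnit] at ha
    exact Dvd.dvd.mul_left (pow_dvd_pow _ ha) _
  · refine IsHausdorff.haus h.cpl.toIsHausdorff y fun N => SModEq.zero.2 ?_
    rw [smul_eq_mul, Ideal.mul_top, Ideal.span_singleton_pow, Ideal.mem_span_singleton]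
    exact hy N

theorem gbS : GbS := by
  intro A _ _ _ _ _ π B _ _ _ _ hπ h s
  obtain ⟨S, hs, hS⟩ := gb hπ (h.dense' hπ) s
  obtain ⟨ρ, hρ⟩ := hS 1
  have hle : Algebra.adjoin A (s : Set B) ≤ S := Algebra.adjoin_le fun y hy => hs y hy
  exact ⟨ρ.comp (Subalgebra.inclusion hle), fun x => by
    simpa using hρ (Subalgebra.inclusion hle x)⟩

end Pool.Agent.KEW

end MrgPart1

-- ======== part 2: formerly Pool.Agent.MP_55d974_ag.kew.Gabs
section MrgPart2

/-! The abstract vanishing lemma in the form of the specification. -/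

namespace Pool.Agent.KEW

lemma fr_iff {E : Type} [Field E] {D : Subring E} {F : Eˣ} {π c h : D} {m : ℕ} (h0 : h ≠ 0) :
    Fr F ((π : E) ^ m * c) h ↔
      (F : E) * algebraMap D E h = algebraMap D E (h + π ^ m * c) := by
  have h1 : (h : E) ≠ 0 := fun e => h0 (Subtype.ext e)
  have e : algebraMap D E (h + π ^ m * c) = h + (π : E) ^ m * c := by
    rw [map_add, map_mul, map_pow]; rfl
  rw [e, Fr, and_iff_right h1, one_add_div h1, eq_div_iff h1]
  rfl

theorem gabS : GabS := by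
  intro E C _ _ D _ _ _ π p r n B _ h0 h1 hn hq hinc hl hr hst hP hS F g hF
  have : IsIntegrallyClosed D := (isIntegrallyClosed_iff_isIntegrallyClosedIn E).2 inferInstance
  obtain ⟨Q, hQ⟩ := (Ideal.span {π}).nonempty_minimalPrimes (by
    rw [Ne, Ideal.span_singleton_eq_top]; exact h1)
  refine gabs π n p r h0 h1 hn hq hinc B hl hr hst
    (fun k h₁ h₂ c₁ c₂ F₁ F₂ a1 a2 a3 a4 a5 =>
      hP F₁ F₂ c₁ h₁ c₂ h₂ k a3 ((fr_iff a1).2 a4) ((fr_iff a2).2 a5))
    (fun h c u F K a1 a2 a3 a4 => ?_) F (fun P hP => ?_) g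
  · obtain ⟨s, U, e, hU⟩ := hS F c h u K a1
      ((fr_iff fun e : h = 0 => a1 Q hQ (e ▸ Q.zero_mem)).2 a2)
      (fun hd => a4 (Ideal.mem_span_singleton.2 hd)) a3
    refine ⟨s, fun U' e' => ?_⟩
    rwa [show U' = U from Units.ext (by rw [e', e, map_add, map_mul, map_pow]; rfl)]
  · obtain ⟨h, c, a1, a2⟩ := hF P hP
    exact ⟨c, h, a1, (fr_iff fun e : h = 0 => a1 (e ▸ P.zero_mem)).1 a2⟩

end Pool.Agent.KEW

end MrgPart2

-- ======== part 3: formerly Pool.Agent.MP_55d974_ag.kew.Crd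
section MrgPart3

/-! Homogeneous coordinates of a point describe its specialisations. -/

open AlgebraicGeometry CategoryTheory TopologicalSpace Opposite Pool.Agent.MP_55d974_ag IsLocalRing

namespace Pool.Agent.KEW

namespace CrdA

variable {A : Type} [CommRing A] {X : Scheme.{0}} {U : X.Opens} {w z z' : X}

lemma gz_germ (h : w ⤳ z) (hz : z ∈ U) (hw : w ∈ U) (s : Γ(X, U)) :
    gz h (X.presheaf.germ U z hz s) = X.evaluation U w hw s := by
  rw [← X.germ_residue, ← X.presheaf.germ_stalkSpecializes hz h]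
  rfl

lemma ev_mem (h : w ⤳ z) (hz : z ∈ U) (hw : w ∈ U) (s : Γ(X, U)) :
    X.evaluation U w hw s ∈ O h := ⟨_, gz_germ h hz hw s⟩

lemma nu_iff (hP : Pts X) (h : w ⤳ z) (a : X.presheaf.stalk z) : ¬ Nu h (gz h a) ↔ IsUnit a := by
  refine ⟨fun hn => by_contra fun hu => hn ⟨a, hu, rfl⟩, fun hu => ?_⟩
  obtain ⟨b, hb⟩ := hu.exists_right_inv
  have e : gz h a * gz h b = 1 := by rw [← map_mul, hb, map_one]
  exact (hP.nu h _ ⟨a, rfl⟩).2 ⟨left_ne_zero_of_mul_eq_one e, b, eq_inv_of_mul_eq_one_right e⟩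

lemma mem_prime (hU : IsAffineOpen U) (hz : z ∈ U) (s : Γ(X, U)) :
    s ∉ (hU.primeIdealOf ⟨z, hz⟩).asIdeal ↔ IsUnit (X.presheaf.germ U z hz s) := by
  let := X.presheaf.algebra_section_stalk (⟨z, hz⟩ : U)
  have := hU.isLocalization_stalk ⟨z, hz⟩
  exact (IsLocalization.AtPrime.isUnit_to_map_iff (X.presheaf.stalk z)
    (hU.primeIdealOf ⟨z, hz⟩).asIdeal s).symm

lemma nu_ev (hP : Pts X) (hU : IsAffineOpen U) (h : w ⤳ z) (hz : z ∈ U) (hw : w ∈ U)
    (s : Γ(X, U)) : Nu h (X.evaluation U w hw s) ↔ s ∈ (hU.primeIdealOf ⟨z, hz⟩).asIdeal := by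
  rw [← not_iff_not, mem_prime, ← gz_germ h hz, nu_iff hP]

lemma sp_of_le (hU : IsAffineOpen U) (hz : z ∈ U) (hw : w ∈ U)
    (h : hU.primeIdealOf ⟨w, hw⟩ ≤ hU.primeIdealOf ⟨z, hz⟩) : w ⤳ z := by
  have := ((PrimeSpectrum.le_iff_specializes _ _).1 h).map hU.fromSpec.continuous
  rwa [hU.fromSpec_primeIdealOf, hU.fromSpec_primeIdealOf] at this

lemma frac (hU : IsAffineOpen U) (hz : z ∈ U) (a : X.presheaf.stalk z) :
    ∃ x s : Γ(X, U), IsUnit (X.presheaf.germ U z hz s) ∧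
      a * X.presheaf.germ U z hz s = X.presheaf.germ U z hz x := by
  let := X.presheaf.algebra_section_stalk (⟨z, hz⟩ : U)
  have := hU.isLocalization_stalk ⟨z, hz⟩
  obtain ⟨⟨x, s⟩, e⟩ := IsLocalization.surj (hU.primeIdealOf ⟨z, hz⟩).asIdeal.primeCompl
    (S := X.presheaf.stalk z) a
  exact ⟨x, s, (mem_prime hU hz s).1 s.2, e⟩

lemma point (hU : IsAffineOpen U) (Q : PrimeSpectrum Γ(X, U)) :
    ∃ (z : X) (hz : z ∈ U), hU.primeIdealOf ⟨z, hz⟩ = Q := by
  have hz : hU.fromSpec Q ∈ U := by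
    have : hU.fromSpec Q ∈ Set.range hU.fromSpec := ⟨Q, rfl⟩
    rwa [hU.range_fromSpec] at this
  exact ⟨_, hz, hU.fromSpec.isOpenEmbedding.injective (hU.fromSpec_primeIdealOf ⟨_, hz⟩)⟩

lemma ev_aU (f : X ⟶ Spec (.of A)) (hw : w ∈ U) (c : A) :
    X.evaluation U w hw (aU f U c) = aK f w c := by
  have := X.presheaf.germ_res (homOfLE (le_top : U ≤ ⊤)) w hw
  rw [← X.germ_residue]
  simp only [aK, sA, aU, ← this]
  rfl

theorem crd (hP : Pts X) {f : X ⟶ Spec (.of A)} (hC : Cov f) (w : X) :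
    ∃ (N : ℕ) (τ : Fin (N + 1) → X.residueField w), IsCrd f w τ := by
  obtain ⟨N, U, t, aff, cov, gen, one, bas, rel⟩ := hC
  have rel' : ∀ i j k (hi : w ∈ U i) (hj : w ∈ U j), X.evaluation _ w hi (t i j) *
      X.evaluation _ w hj (t j k) = X.evaluation _ w hi (t i k) := by
    intro i j k hi hj
    have := congrArg (X.residue w) (rel i j k w hi hj)
    rwa [map_mul] at this
  obtain ⟨i₀, h₀⟩ := cov w
  set τ : Fin (N + 1) → X.residueField w := fun k => X.evaluation _ w h₀ (t i₀ k) with hτ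
  have ne : ∀ i, τ i ≠ 0 ↔ w ∈ U i := fun i => by
    rw [hτ, Scheme.evaluation_ne_zero_iff_mem_basicOpen, bas]
    exact and_iff_right h₀
  have bi : ∀ i (hi : w ∈ U i), Bi f w τ i = (X.evaluation _ w hi).hom.range := by
    intro i hi
    rw [RingHom.range_eq_map, ← gen i, RingHom.map_closure, Set.image_union, ← Set.range_comp,
      ← Set.range_comp, Bi]
    congr 2
    · exact congrArg _ (funext fun c => (ev_aU f hi c).symm)
    · refine congrArg _ (funext fun k => ?_)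
      rw [div_eq_iff ((ne i).2 hi), mul_comm]
      exact (rel' i₀ i k h₀ hi).symm
  have le : ∀ {z} (h : w ⤳ z) (i), z ∈ U i → τ i ≠ 0 ∧ Bi f w τ i ≤ O h := by
    intro z h i hz
    have hi : w ∈ U i := h.mem_open (U i).2 hz
    refine ⟨(ne i).2 hi, ?_⟩
    rw [bi i hi]
    rintro _ ⟨s, rfl⟩
    exact ev_mem h hz hi s
  have ins : ∀ {z} (h : w ⤳ z) (i), τ i ≠ 0 → Bi f w τ i ≤ O h → z ∈ U i := by
    intro z h i h1 h2
    have hi := (ne i).1 h1
    obtain ⟨j, hz⟩ := cov z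
    have hj : w ∈ U j := h.mem_open (U j).2 hz
    have e := rel' j i j hj hi
    rw [one, map_one] at e
    have h3 : ¬ Nu h (X.evaluation _ w hj (t j i)) :=
      (hP.nu h _ (ev_mem h hz hj _)).2 ⟨left_ne_zero_of_mul_eq_one e, by
        rw [← eq_inv_of_mul_eq_one_right e]
        exact h2 (bi i hi ▸ ⟨_, rfl⟩)⟩
    rw [← gz_germ h hz, nu_iff hP, ← Scheme.mem_basicOpen, bas] at h3
    exact h3.2
  refine ⟨N, τ, fun {z} h => ?_, fun {z} h i h1 h2 => ?_, fun i h1 => ?_, fun {z z'} h h' hle => ?_⟩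
  · obtain ⟨i, hz⟩ := cov z
    exact ⟨i, le h i hz⟩
  · have hz := ins h i h1 h2
    have hi := (ne i).1 h1
    rintro _ ⟨a, rfl⟩
    obtain ⟨x, s, h3, h4⟩ := frac (aff i) hz a
    rw [bi i hi]
    refine ⟨_, ⟨s, rfl⟩, ?_, x, ?_⟩
    · rw [← nu_iff hP h, gz_germ h hz hi] at h3
      exact h3
    · have := congrArg (gz h) h4
      rw [map_mul, gz_germ h hz hi, gz_germ h hz hi] at this
      exact this.symm
  · have hi := (ne i).1 h1
    rw [bi i hi]
    intro P hp
    obtain ⟨z, hz, e⟩ := point (aff i) ⟨P.comap (X.evaluation _ w hi).hom.rangeRestrict,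
      Ideal.comap_isPrime _ _⟩
    have h : w ⤳ z := sp_of_le (aff i) hz hi fun s hs => by
      rw [e]
      have h2 := (hP.self _ _).1 ((nu_ev hP (aff i) specializes_rfl hi hi s).2 hs)
      have h3 : (X.evaluation _ w hi).hom.rangeRestrict s = 0 := Subtype.ext h2
      exact Ideal.mem_comap.2 (h3 ▸ P.zero_mem)
    refine ⟨z, h, bi i hi ▸ (le h i hz).2, ?_⟩
    rintro ⟨_, s, rfl⟩
    have := nu_ev hP (aff i) h hz hi s
    rw [e] at this
    exact this.symm
  · obtain ⟨i, hz⟩ := cov z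
    have hi : w ∈ U i := h.mem_open (U i).2 hz
    have hz' := ins h' i (le h i hz).1 ((le h i hz).2.trans hle)
    refine sp_of_le (aff i) hz hz' fun s hs => ?_
    rw [← nu_ev hP (aff i) h' hz' hi] at hs
    rw [← nu_ev hP (aff i) h hz hi]
    by_contra hn
    have := (hP.nu h _ (ev_mem h hz hi s)).1 hn
    exact (hP.nu h' _ (ev_mem h' hz' hi s)).2 ⟨this.1, hle this.2⟩ hs

theorem noeth [IsNoetherianRing A] {f : X ⟶ Spec (.of A)} (hC : Cov f) : IsNoetherian X := by
  obtain ⟨N, U, t, aff, cov, gen, -⟩ := hC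
  refine (isNoetherian_iff_of_finite_iSup_eq_top (S := fun i => ⟨U i, aff i⟩) ?_).2 fun i => ?_
  · exact top_le_iff.1 fun x _ => Opens.mem_iSup.2 (cov x)
  · refine isNoetherianRing_of_surjective _ _ (MvPolynomial.eval₂Hom (aU f (U i)) (t i)) ?_
    rw [← RingHom.range_eq_top, ← top_le_iff, ← gen i, Subring.closure_le]
    rintro _ (⟨c, rfl⟩ | ⟨k, rfl⟩)
    · exact ⟨MvPolynomial.C c, by simp⟩
    · exact ⟨MvPolynomial.X k, by simp⟩

end CrdA

theorem crd (h0 : ProjS) (h1 : PtsS) : All Crd := by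
  intro A _ _ _ _ _ X f π d h
  have := CrdA.noeth (h0 A X f h.proj)
  exact ⟨CrdA.crd (h1 X) (h0 A X f h.proj), inferInstance⟩

end Pool.Agent.KEW

end MrgPart3

-- ======== part 4: formerly Pool.Agent.MP_55d974_ag.kew.Pnn
section MrgPart4

/-! PROJECT KEW, projective Noether normalisation near a vertical point. -/

open AlgebraicGeometry IsLocalRing

namespace Pool.Agent.KEW

theorem pnn (h1 : PtsS) (h2 : All Crd) (h3 : All Dim) : All Pnn := by
  intro A _ _ _ _ _ X f π d H w x h hw _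
  have P := h1 X
  have D := h3 A X f π d H
  obtain ⟨N, τ, C⟩ := (h2 A X f π d H).crd w
  let _ := (aK f w).toAlgebra
  have hu : ∀ {z} (k : w ⤳ z), ∀ b ∈ O k, PnnA.U (O k) b ↔ ¬ Nu k b := fun k b hb => by
    rw [P.nu k b hb]
    exact ⟨fun e => e.2, fun e => ⟨hb, e⟩⟩
  have hD : PnnA.Dat τ π (fun z : {z // w ⤳ z} => O z.2) (fun z => dl d z.1) (dl d w - 1) :=
    { loc := fun z => P.loc z.2
      ex := fun z => C.ex z.2
      fr := fun z i hi c hc => by
        obtain ⟨s, k1, k2, k3⟩ := C.loc z.2 i hi.1 hi.2 c hc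
        exact ⟨s, k1, (hu z.2 s (hi.2 k1)).2 k2, k3⟩
      pt := fun i hi Q hQ => by
        obtain ⟨z, k, k1, k2⟩ := C.pt i hi Q hQ
        exact ⟨⟨z, k⟩, k1, fun b => by rw [hu k b (k1 b.2), not_not]; exact k2 b⟩
      lt := fun z z' hle hne =>
        D.lt (C.ord z.2 z'.2 hle) fun e => hne (Subtype.ext e.symm)
      ver := fun z hz => by
        have k1 : aK f w π ∈ O z.2 := ⟨_, D.ak z.2 π⟩
        have k2 := (D.nu z.2).1 (not_not.1 fun e => hz ((hu z.2 _ k1).2 e))
        have := D.lt z.2 fun e => k2 (e ▸ hw)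
        omega }
  exact hD.main H.irr.not_isUnit (D.inj w hw) ⟨x, h⟩ (P.frac h) (D.hor w hw).2

end Pool.Agent.KEW

end MrgPart4

-- ======== part 5: formerly Pool.Agent.MP_55d974_ag.kew.Nrmx
section MrgPart5

/-! PROJECT KEW, row NRMX: normalisations of local rings of horizontal closures. -/

open AlgebraicGeometry CategoryTheory TopologicalSpace Opposite Pool.Agent.MP_55d974_ag IsLocalRing

namespace Pool.Agent.KEW

noncomputable section

open Classical

variable {A : Type} [CommRing A] {X : Scheme.{0}}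

namespace Nx

theorem nu_mem {y z : X} (h : y ⤳ z) {b : X.residueField y} (hb : Nu h b) : b ∈ O h := by
  obtain ⟨a, -, rfl⟩ := hb
  exact ⟨a, rfl⟩

theorem nu_mul {y z : X} (h : y ⤳ z) {b c : X.residueField y} (hb : Nu h b) (hc : c ∈ O h) :
    Nu h (b * c) := by
  obtain ⟨a, ha, rfl⟩ := hb
  obtain ⟨a', rfl⟩ := hc
  exact ⟨a * a', Ideal.mul_mem_right _ _ ha, map_mul _ _ _⟩

/-- Elements of `O (h.trans h')` that are units in `O h`. -/
def um (H : Pts X) {w z x : X} (h : w ⤳ z) (h' : z ⤳ x) : Submonoid (X.residueField w) where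
  carrier := {s | s ∈ O (h.trans h') ∧ ¬ Nu h s}
  one_mem' := ⟨one_mem _, (H.nu h 1 (one_mem _)).2 ⟨one_ne_zero, by simp⟩⟩
  mul_mem' := by
    rintro a b ⟨a1, a2⟩ ⟨b1, b2⟩
    have a3 := H.le h h' a1
    have b3 := H.le h h' b1
    obtain ⟨a4, a5⟩ := (H.nu h a a3).1 a2
    obtain ⟨b4, b5⟩ := (H.nu h b b3).1 b2
    refine ⟨mul_mem a1 b1, (H.nu h _ (mul_mem a3 b3)).2 ⟨mul_ne_zero a4 b4, ?_⟩⟩
    rw [mul_inv]
    exact mul_mem a5 b5

theorem sub (H : Pts X) {w z x : X} (h : w ⤳ z) (h' : z ⤳ x) :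
    ∀ c ∈ IC (O h), ∃ s ∈ O (h.trans h'), ¬ Nu h s ∧ c * s ∈ IC (O (h.trans h')) := fun c hc => by
  obtain ⟨s, hs, h1⟩ := IC_clear (O h) (O (h.trans h')) (um H h h') (fun s hs => hs.1)
    (fun c hc => by
      obtain ⟨s, a, b, e⟩ := H.sub h h' c hc
      exact ⟨s, ⟨a, b⟩, e⟩) hc
  exact ⟨s, hs.1, hs.2, h1⟩

theorem cen (H : Pts X) {w x : X} (h : w ⤳ x) (P : Ideal (IC (O h))) (hP : P.IsPrime) :
    ∃ (z : X) (h1 : w ⤳ z), Cen h P h1 := by
  obtain ⟨z, h1, h2, h3⟩ := H.pt h (P.comap (Subring.inclusion (le_IC (O h))))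
    (Ideal.comap_isPrime _ _)
  exact ⟨z, h1, h2, fun b hb => h3 ⟨b.1, hb⟩⟩

theorem bot (H : Pts X) {w x : X} (h : w ⤳ x) (P : Ideal (IC (O h))) (h1 : w ⤳ w)
    (hc : Cen h P h1) : P = ⊥ := by
  refine Ideal.eq_bot_of_comap_eq_bot (R := O h) (S := integralClosure (O h) (X.residueField w))
    (I := P) (eq_bot_iff.2 fun b hb => ?_)
  have := (hc.2 ⟨b.1, le_IC _ b.2⟩ b.2).1 hb
  exact Subtype.ext ((H.self h1 _).1 this)

theorem lt {f : X ⟶ Spec (.of A)} {π : A} {d : ℕ} (H : Pts X) (hD : Dim f π d) {w x z z' : X}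
    (h : w ⤳ x) (P Q : Ideal (IC (O h))) (h1 : w ⤳ z) (h2 : w ⤳ z') (hP : P.IsPrime)
    (hl : P < Q) (c1 : Cen h P h1) (c2 : Cen h Q h2) : dl d z' < dl d z := by
  have hs : z ⤳ z' := H.ord h1 h2 c1.1 c2.1 fun b hb hn =>
    (c2.2 ⟨b, le_IC _ hb⟩ hb).1 (hl.le ((c1.2 ⟨b, le_IC _ hb⟩ hb).2 hn))
  refine hD.lt hs ?_
  rintro rfl
  have h3 := @Ideal.IsIntegral.comap_lt_comap (O h) _ (integralClosure (O h) (X.residueField w))
    _ _ _ P Q hP hl
  refine h3.not_ge fun b hb => ?_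
  exact (c1.2 ⟨b.1, le_IC _ b.2⟩ b.2).2 ((c2.2 ⟨b.1, le_IC _ b.2⟩ b.2).1 hb)

theorem noethO {f : X ⟶ Spec (.of A)} {π : A} {d : ℕ} (hy : Hyp f π d) {w x : X} (h : w ⤳ x) :
    IsNoetherianRing (O h) := by
  have := hy.reg x
  exact isNoetherianRing_of_surjective _ _ (gz h).rangeRestrict (gz h).rangeRestrict_surjective

theorem ak_mem {f : X ⟶ Spec (.of A)} {π : A} {d : ℕ} (hD : Dim f π d) {w x : X} (h : w ⤳ x)
    (c : A) : aK f w c ∈ O h := ⟨_, hD.ak h c⟩

/-- The units of a subring that are integral over `R`. -/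
def uI {E : Type} [Field E] (S R : Subring E) : Submonoid E where
  carrier := {s | s ∈ S ∧ s ≠ 0 ∧ s⁻¹ ∈ S ∧ s ∈ IC R}
  one_mem' := ⟨one_mem _, one_ne_zero, by simp, one_mem _⟩
  mul_mem' := by
    rintro a b ⟨a1, a2, a3, a4⟩ ⟨b1, b2, b3, b4⟩
    refine ⟨mul_mem a1 b1, mul_ne_zero a2 b2, ?_, mul_mem a4 b4⟩
    rw [mul_inv]
    exact mul_mem a3 b3

theorem clr {E : Type} [Field E] (S R : Subring E)
    (h : ∀ c ∈ S, ∃ s ∈ S, s ≠ 0 ∧ s⁻¹ ∈ S ∧ IsIntegral R s ∧ IsIntegral R (s * c)) :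
    ∀ y ∈ IC S, ∃ s ∈ uI S R, y * s ∈ IC R := fun y hy => by
  obtain ⟨s, hs, h1⟩ := IC_clear S (IC R) (uI S R) (fun s hs => hs.2.2.2) (fun c hc => by
    obtain ⟨s, a1, a2, a3, a4, a5⟩ := h c hc
    exact ⟨s, ⟨a1, a2, a3, a4⟩, mul_comm s c ▸ a5⟩) hy
  exact ⟨s, hs, IC_IC h1⟩

theorem adj_le {E ι : Type} [Field E] [Algebra A E] (S : Subring E) (u : ι → E)
    (h1 : ∀ c, algebraMap A E c ∈ S) (h2 : ∀ k, u k ∈ S) :
    (Algebra.adjoin A (Set.range u)).toSubring ≤ S := by
  rw [Algebra.adjoin_eq_ring_closure, Subring.closure_le]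
  rintro _ (⟨c, rfl⟩ | ⟨k, rfl⟩)
  exacts [h1 c, h2 k]

theorem fin {f : X ⟶ Spec (.of A)} {π : A} {d : ℕ} (H : Pts X) (hD : Dim f π d) (hS : Sep f π d)
    (hP : Pnn f π d) {w x : X} (h : w ⤳ x) (hw : Hor f π w) :
    Module.Finite (O h) (integralClosure (O h) (X.residueField w)) := by
  obtain ⟨x', h', hx'⟩ := hS.ver x
  let := (aK f w).toAlgebra
  obtain ⟨u, -, u2, u3, u4⟩ := hP (h.trans h') hw hx'
  have hR := adj_le (O (h.trans h')) u (ak_mem hD _) u2
  have h1 := IC_fin hR (fun y hy => by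
    obtain ⟨s, hs, e⟩ := clr _ (Algebra.adjoin A (Set.range u)).toSubring u4 y hy
    exact ⟨s, hs.2.1, hs.2.2.1, e⟩) u3
  refine IC_fin (H.le h h') (fun y hy => ?_) h1
  obtain ⟨s, s1, s2, s3⟩ := sub H h h' y hy
  obtain ⟨s4, s5⟩ := (H.nu h s (H.le h h' s1)).1 s2
  exact ⟨s, s4, s5, s3⟩

theorem dm_of_cen (H : Pts X) {w x z : X} (h : w ⤳ x) (Q : Ideal (IC (O h))) (hQ : Q.IsPrime)
    (h1 : w ⤳ z) (hc : Cen h Q h1) {V : ValuationSubring (X.residueField w)}
    (hV : IsAt (IC (O h)) Q V) : Dm (O h1) V := by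
  constructor
  · intro c hc'
    obtain ⟨s, s1, s2, s3⟩ := H.sub h1 hc.1 c hc'
    refine (hV c).2 ⟨⟨s, le_IC _ s1⟩, ⟨c * s, le_IC _ s3⟩, fun hs => s2 ((hc.2 _ s1).1 hs), ?_⟩
    exact mul_comm _ _
  · intro c hc' c0 ci
    refine ((H.nu h1 c hc').1 fun hn => ?_).2
    obtain ⟨s, s1, s2, s3⟩ := H.sub h1 hc.1 c hc'
    obtain ⟨s', c', t1, t2⟩ := (hV _).1 ci
    have hb : (⟨c * s, le_IC _ s3⟩ : IC (O h)) ∈ Q :=
      (hc.2 _ s3).2 (nu_mul h1 hn (H.le h1 hc.1 s1))
    have e : s' * ⟨s, le_IC _ s1⟩ = c' * ⟨c * s, le_IC _ s3⟩ := by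
      apply Subtype.ext
      change s'.1 * s = c'.1 * (c * s)
      rw [← t2]
      field_simp
    have := hQ.mem_or_mem (e ▸ Q.mul_mem_left c' hb)
    exact this.elim t1 fun hs => s2 ((hc.2 _ s1).1 hs)

theorem df [IsDomain A] [IsDiscreteValuationRing A] {f : X ⟶ Spec (.of A)} {π : A} {d : ℕ}
    (hT : HartS) (hy : Hyp f π d) (H : Pts X) (hD : Dim f π d) (hS : Sep f π d) (hP : Pnn f π d)
    {w x : X} (h : w ⤳ x) (hw : Hor f π w) (t : IC (O h)) (ht : t.1 = aK f w π)
    (Q : Ideal (IC (O h))) (hQ : Q ∈ (Ideal.span {t}).minimalPrimes) :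
    ∃ z V, z ⤳ x ∧ ¬ Hor f π z ∧ dl d z + 1 = dl d w ∧ Pl w z V ∧ IsAt (IC (O h)) Q V := by
  have hQp := hQ.isPrime
  have htQ : t ∈ Q := hQ.le (Ideal.mem_span_singleton_self t)
  have htO : t.1 ∈ O h := ht ▸ ak_mem hD h π
  obtain ⟨z, h1, hc⟩ := cen H h Q hQp
  have hz : ¬ Hor f π z := (hD.nu h1).1 (ht ▸ (hc.2 t htO).1 htQ)
  have hx : ¬ Hor f π x := fun hx => hz (hD.sp hc.1 hx)
  have := noethO hy h
  have := IC_noeth _ (fin H hD hS hP h hw)
  have := H.frac h
  have := IC_frac (O h)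
  have hQ0 : Q ≠ ⊥ := by
    rintro rfl
    exact hw (ht ▸ congrArg Subtype.val (show t = 0 from htQ))
  obtain ⟨V, hV, hV'⟩ := hT.dvr (IC (O h)) Q hQp hQ0 (lt_min_bot hQ)
  refine ⟨z, V, hc.1, hz, ?_, (H.pl h1 V).2 ⟨hV', dm_of_cen H h Q hQp h1 hc hV⟩, hV⟩
  have hlt : dl d z < dl d w := hD.lt h1 (by
    rintro rfl
    exact hz hw)
  suffices dl d w - 1 ≤ dl d z by omega
  let := (aK f w).toAlgebra
  obtain ⟨u, u1, u2, -, u4⟩ := hP h hw hx
  let R := Algebra.adjoin A (Set.range u)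
  have hR : R.toSubring ≤ O h := adj_le (O h) u (ak_mem hD _) u2
  have : IsIntegrallyClosed R := IsIntegrallyClosed.of_equiv u1.aevalEquiv.toRingEquiv
  have hp : Prime (u1.aevalEquiv (MvPolynomial.C π)) :=
    (MulEquiv.prime_iff u1.aevalEquiv).2 ((MvPolynomial.prime_C_iff _).2 hy.irr.prime)
  have key : ∀ P : MvPolynomial (Fin (dl d w - 1)) A, Nu h1 (MvPolynomial.aeval u P) →
      MvPolynomial.C π ∣ P := fun P hn => by
    have hm : MvPolynomial.aeval u P ∈ O h := hR (u1.aevalEquiv P).2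
    refine (map_dvd_iff u1.aevalEquiv).1 (min_contr hp (IC (O h)) (fun y hy => IC_mono hR hy) Q t
      ?_ hQ (fun y => ?_) _ ⟨_, le_IC _ hm⟩ rfl ((hc.2 _ hm).2 hn))
    · exact ht.trans (MvPolynomial.aeval_C u π).symm
    · obtain ⟨s, hs, e⟩ := clr _ R.toSubring u4 y.1 y.2
      refine ⟨⟨s, le_IC _ hs.1⟩, fun hq => hQp.ne_top (Ideal.eq_top_of_isUnit_mem _ hq ?_),
        hs.2.2.2, e⟩
      exact IsUnit.of_mul_eq_one ⟨s⁻¹, le_IC _ hs.2.2.1⟩ (Subtype.ext (mul_inv_cancel₀ hs.2.1))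
  choose a ha using fun k => H.le h1 hc.1 (u2 k)
  let v : Fin (dl d w - 1) → X.residueField z := fun k => X.residue z (a k)
  have hv : AlgebraicIndependent (aK f z).range v := by
    rw [algebraicIndependent_iff]
    intro p hp0
    obtain ⟨P, rfl⟩ := MvPolynomial.map_surjective _ (aK f z).rangeRestrict_surjective p
    have e1 : (X.residue z).hom (MvPolynomial.eval₂ (sA f z) a P) = 0 := by
      rw [MvPolynomial.eval₂_comp_left, ← hp0, MvPolynomial.aeval_def, MvPolynomial.eval₂_map]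
      rfl
    have e2 : gz h1 (MvPolynomial.eval₂ (sA f z) a P) = MvPolynomial.aeval u P := by
      rw [MvPolynomial.eval₂_comp_left, MvPolynomial.aeval_def]
      congr 1
      · exact RingHom.ext (hD.ak h1)
      · exact funext ha
    obtain ⟨P', rfl⟩ := key P ⟨_, (residue_eq_zero_iff _).1 e1, e2⟩
    have e3 : (aK f z).rangeRestrict π = 0 := Subtype.ext (not_not.1 hz)
    rw [map_mul, MvPolynomial.map_C, e3, map_zero, zero_mul]
  have h5 := hv.cardinalMk_le_trdeg
  rw [(hD.ver z hz).2, Cardinal.mk_fin] at h5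
  exact_mod_cast h5

end Nx

theorem nrmx (hT : HartS) (h1 : PtsS) (h3 : All Dim) (h4 : All Sep) (h5 : All Pnn) : All Nrmx := by
  intro A _ _ _ _ _ X f π d hy
  have H := h1 X
  have hD := h3 A X f π d hy
  have hS := h4 A X f π d hy
  have hP : Pnn f π d := @h5 A _ _ _ _ _ X f π d hy
  refine ⟨fun h hw => Nx.fin H hD hS hP h hw, fun h hw => ?_, fun h => IC_closed _, fun h => ?_,
    fun h h' => ⟨IC_mono (H.le h h'), Nx.sub H h h'⟩,
    fun h hw t ht Q hQ => Nx.df hT hy H hD hS hP h hw t ht Q hQ, fun h P hp => Nx.cen H h P hp,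
    fun h P Q k1 k2 hp _ hl c1 c2 => Nx.lt H hD h P Q k1 k2 hp hl c1 c2,
    fun h P k _ hc => Nx.bot H h P k hc⟩
  · have := Nx.noethO hy h
    exact IC_noeth _ (Nx.fin H hD hS hP h hw)
  · have := H.frac h
    exact IC_frac _

end

end Pool.Agent.KEW

end MrgPart5

-- ======== part 6: formerly Pool.Agent.MP_55d974_ag.kew.Plf
section MrgPart6

/-! PROJECT KEW, row PLF: finiteness of places. -/

open AlgebraicGeometry CategoryTheory TopologicalSpace Opposite Pool.Agent.MP_55d974_ag IsLocalRing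

namespace Pool.Agent.KEW

namespace PlfA

section Alg

variable {E : Type} [Field E]

theorem le_ic (S : Subring E) : S ≤ IC S := fun x hx =>
  isIntegral_algebraMap (R := S) (A := E) (x := ⟨x, hx⟩)

theorem ic_le (S : Subring E) (V : ValuationSubring E) (h : ∀ x ∈ S, x ∈ V) :
    ∀ x ∈ IC S, x ∈ V := fun x hx => by
  have h1 : IsIntegral S x := hx
  have h2 : IsIntegral V x :=
    h1.map_of_comp_eq (Subring.inclusion (T := V.toSubring) h) (RingHom.id E) rfl
  obtain ⟨y, rfl⟩ := IsIntegrallyClosed.isIntegral_iff.1 h2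
  exact y.2

theorem ne_top (V : ValuationSubring E) (h : IsDiscreteValuationRing V) : V ≠ ⊤ := by
  rintro rfl
  obtain ⟨w, hw⟩ := IsDiscreteValuationRing.exists_irreducible (⊤ : ValuationSubring E)
  have h0 : (w : E) ≠ 0 := fun e => hw.ne_zero (Subtype.ext e)
  exact hw.not_isUnit (IsUnit.of_mul_eq_one ⟨(w : E)⁻¹, trivial⟩ (Subtype.ext (mul_inv_cancel₀ h0)))

/-- The centre of `V` on `D`. -/
def ctr (D : Subring E) (V : ValuationSubring E) (h : ∀ x ∈ D, x ∈ V) : Ideal D :=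
  (maximalIdeal V).comap (Subring.inclusion (T := V.toSubring) h)

theorem mem_ctr {D : Subring E} {V : ValuationSubring E} {h : ∀ x ∈ D, x ∈ V} {b : D} :
    b ∈ ctr D V h ↔ (b : E) ∈ V.nonunits :=
  (V.coe_mem_nonunits_iff (a := ⟨b, h b b.2⟩)).symm

theorem ctr_prime (D : Subring E) (V : ValuationSubring E) (h : ∀ x ∈ D, x ∈ V) :
    (ctr D V h).IsPrime := Ideal.comap_isPrime _ _

theorem at_le {D : Subring E} {V W : ValuationSubring E} {h : ∀ x ∈ D, x ∈ V}
    (hW : IsAt D (ctr D V h) W) : W ≤ V := fun x hx => by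
  obtain ⟨s, c, hs, e⟩ := (hW x).1 hx
  rw [mem_ctr, V.mem_nonunits_iff_or, not_or, not_not] at hs
  have : x = (s : E)⁻¹ * c := by rw [← e, inv_mul_cancel_left₀ hs.1]
  rw [this]
  exact mul_mem hs.2 (h _ c.2)

theorem ctr_ne {D : Subring E} [IsFractionRing D E] {V : ValuationSubring E} {h : ∀ x ∈ D, x ∈ V}
    (hV : V ≠ ⊤) : ctr D V h ≠ ⊥ := fun e => hV (eq_top_iff.2 fun x _ => by
  obtain ⟨a, b, hb, rfl⟩ := IsFractionRing.div_surjective (A := D) x
  have h1 : b ∉ ctr D V h := by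
    rw [e, Ideal.mem_bot]
    exact nonZeroDivisors.ne_zero hb
  rw [mem_ctr, V.mem_nonunits_iff_or, not_or, not_not] at h1
  rw [div_eq_mul_inv]
  exact mul_mem (h _ a.2) h1.2)

theorem conductor (S : Subring E) [IsFractionRing S E] [Module.Finite S (integralClosure S E)] :
    ∃ t : S, t ≠ 0 ∧ ∀ x ∈ IC S, (t : E) * x ∈ S := by
  classical
  obtain ⟨s, hs⟩ := Module.Finite.fg_top (R := S) (M := integralClosure S E)
  obtain ⟨t, ht⟩ := IsLocalization.exist_integer_multiples_of_finset (nonZeroDivisors S)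
    (s.image fun a : integralClosure S E => (a : E))
  refine ⟨t, nonZeroDivisors.ne_zero t.2, fun x hx => ?_⟩
  have h1 : (⟨x, hx⟩ : integralClosure S E) ∈ Submodule.span S (s : Set (integralClosure S E)) :=
    hs ▸ Submodule.mem_top
  refine Submodule.span_induction (p := fun (y : integralClosure S E) _ => ((t : S) : E) * y ∈ S)
    (fun y hy => ?_) (by simp) (fun y z _ _ h1 h2 => ?_) (fun c y _ h => ?_) h1
  · obtain ⟨r, hr⟩ := ht _ (Finset.mem_image_of_mem _ hy)
    have e : ((t : S) : E) * y = r := hr.symm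
    exact e ▸ r.2
  · rw [Subalgebra.coe_add, mul_add]
    exact add_mem h1 h2
  · have e : ((t : S) : E) * (c • y : integralClosure S E) = c * (((t : S) : E) * y) :=
      mul_left_comm _ _ _
    exact e ▸ mul_mem c.2 h

end Alg

variable {A : Type} [CommRing A] {X : Scheme.{0}} {f : X ⟶ Spec (.of A)} {π : A} {d : ℕ}

theorem mid (hD : Dim f π d) {w z y : X} (h : w ⤳ z) (k : z ⤳ y) (e : dl d y + 1 = dl d w)
    (hz : z ≠ w) : z = y := by
  by_contra hy
  have h1 := hD.lt h hz.symm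
  have h2 := hD.lt k hy
  omega

theorem pl_le (hP : Pts X) {w z : X} {V} (h : w ⤳ z) (P : Pl w z V) : ∀ x ∈ IC (O h), x ∈ V :=
  ic_le _ V ((hP.pl h V).1 P).2.1

theorem cen_ctr (hP : Pts X) {w z : X} {V} (h : w ⤳ z) (P : Pl w z V) :
    Cen h (ctr _ V (pl_le hP h P)) h := by
  refine ⟨specializes_rfl, fun b hb => ?_⟩
  rw [mem_ctr, V.mem_nonunits_iff_or, ← not_iff_not, hP.nu h _ hb, not_or, not_not]
  exact and_congr_right fun h0 => ⟨((hP.pl h V).1 P).2.2 _ hb h0, ((hP.pl h V).1 P).2.1 _⟩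

theorem ht (hP : Pts X) (hD : Dim f π d) (hN : Nrmx f π d) {w z : X} {V} (h : w ⤳ z)
    (P : Pl w z V) (e : dl d z + 1 = dl d w) (Q : Ideal (IC (O h))) (hQ : Q.IsPrime)
    (hlt : Q < ctr _ V (pl_le hP h P)) : Q = ⊥ := by
  obtain ⟨z', h1, c⟩ := hN.cen h Q hQ
  have h2 := hN.lt h Q _ h1 h hQ (ctr_prime _ _ _) hlt c (cen_ctr hP h P)
  by_cases hz : z' = w
  · subst hz
    exact hN.bot h Q h1 hQ c
  · rw [mid hD h1 c.1 e hz] at h2
    exact absurd h2 (lt_irrefl _)

theorem isAt (hT : HartS) (hP : Pts X) (hD : Dim f π d) (hN : Nrmx f π d) {w z : X} {V}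
    (h : w ⤳ z) (hw : Hor f π w) (P : Pl w z V) (e : dl d z + 1 = dl d w) :
    IsAt _ (ctr _ V (pl_le hP h P)) V := by
  have := hN.noeth h hw
  have := hN.norm h
  have := hN.frac h
  obtain ⟨W, hW, hd⟩ := hT.dvr _ _ (ctr_prime _ V (pl_le hP h P)) (ctr_ne (ne_top V P.dvr))
    (ht hP hD hN h P e)
  rwa [W.eq_of_le_of_ne_top (at_le hW) (ne_top V P.dvr)] at hW

theorem fin (hT : HartS) (hP : Pts X) (hD : Dim f π d) (hN : Nrmx f π d) (w z : X)
    (hw : Hor f π w) (e : dl d z + 1 = dl d w) : {V | Pl w z V}.Finite := by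
  by_cases h : w ⤳ z
  swap
  · exact Set.finite_empty.subset fun V P => h P.sp
  have := hN.noeth h hw
  obtain ⟨b, hb, h1, h0⟩ : ∃ b ∈ O h, Nu h b ∧ b ≠ 0 := by
    by_contra hc
    push Not at hc
    have k : z ⤳ w := hP.ord h specializes_rfl specializes_rfl h fun b hb h1 =>
      (hP.self _ b).2 (hc b hb h1)
    have := hD.lt k fun e' => by subst e'; omega
    omega
  have hf := (Ideal.span {(⟨b, le_ic _ hb⟩ : IC (O h))}).finite_minimalPrimes_of_isNoetherianRing
  refine (hf.biUnion (t := fun Q => {V | IsAt _ Q V}) fun Q _ =>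
    Set.Subsingleton.finite fun V hV W hW => SetLike.ext fun x => (hV x).trans (hW x).symm).subset
    fun V P => Set.mem_biUnion (x := ctr _ V (pl_le hP h P)) ?_ (isAt hT hP hD hN h hw P e)
  refine ⟨⟨ctr_prime _ _ _, (Ideal.span_singleton_le_iff_mem _).2
    (((cen_ctr hP h P).2 _ hb).2 h1)⟩, fun Q hQ hle => ?_⟩
  rcases hle.eq_or_lt with e' | e'
  · exact e'.ge
  · have h2 := (Ideal.span_singleton_le_iff_mem _).1 hQ.2
    rw [ht hP hD hN h P e Q hQ.1 e', Ideal.mem_bot] at h2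
    exact absurd (congrArg Subtype.val h2) h0

theorem res (hT : HartS) (hP : Pts X) (hD : Dim f π d) (hN : Nrmx f π d) (w z : X) (V)
    (P : Pl w z V) (hz : Hor f π z) (e : dl d z + 1 = dl d w) : (rk P).Finite := by
  have h := P.sp
  have hw := hD.sp h hz
  let g : X.presheaf.stalk z →+* IC (O h) :=
    (Subring.inclusion (le_ic (O h))).comp (gz h).rangeRestrict
  have hg : g.Finite :=
    RingHom.Finite.comp (g := Subring.inclusion (le_ic (O h))) (hN.fin h hw)
      (RingHom.Finite.of_surjective _ (gz h).rangeRestrict_surjective)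
  have := ctr_prime _ V (pl_le hP h P)
  have hm : (ctr _ V (pl_le hP h P)).IsMaximal := by
    refine Ideal.isMaximal_of_isIntegral_of_isMaximal_comap' g hg.to_isIntegral _ ?_
    have := P.loc
    have e' : (ctr _ V (pl_le hP h P)).comap g = maximalIdeal _ :=
      maximalIdeal_comap ((gz P.sp).codRestrict V P.mem)
    exact e' ▸ inferInstance
  let ρ : IC (O h) →+* ResidueField V :=
    (residue V).comp (Subring.inclusion (T := V.toSubring) (pl_le hP h P))
  have hρ : Function.Surjective ρ := fun x => by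
    obtain ⟨x, rfl⟩ := residue_surjective x
    obtain ⟨s, c, hs, e'⟩ := (isAt hT hP hD hN h hw P e x).1 x.2
    obtain ⟨t, i, hi, e2⟩ := hm.exists_inv hs
    have h1 : ρ i = 0 := (residue_eq_zero_iff _).2 hi
    have h2 : ρ s * residue V x = ρ c :=
      (map_mul (residue V) ⟨s, pl_le hP h P _ s.2⟩ x).symm.trans
        (congrArg (residue V) (Subtype.ext e'))
    have h3 : ρ t * ρ s = 1 := by
      rw [← map_one ρ, ← e2, map_add, h1, add_zero, map_mul]
    exact ⟨t * c, by rw [map_mul, ← h2, ← mul_assoc, h3, one_mul]⟩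
  exact RingHom.Finite.of_comp_finite (f := residue _)
    ((RingHom.Finite.of_surjective ρ hρ).comp hg)

theorem vz (hP : Pts X) (hD : Dim f π d) (hS : Sep f π d) (w : X) (hw : Hor f π w) :
    {z | ¬ Hor f π z ∧ dl d z + 1 = dl d w ∧ w ⤳ z}.Finite := by
  refine (hS.fin w (Units.mk0 _ hw)).subset fun z ⟨hz, e, h⟩ => ⟨h, ?_, fun k => ?_⟩
  · have := hD.add z
    have := hD.add w
    omega
  · exact (hP.nu h _ k.1).2 ⟨hw, k.2⟩ ((hD.nu h).2 hz)

theorem mem (hD : Dim f π d) {w z : X} {V} (P : Pl w z V) (c : A) : aK f w c ∈ V :=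
  hD.ak P.sp c ▸ P.mem _

theorem cond (hT : HartS) (hP : Pts X) (hD : Dim f π d) (hN : Nrmx f π d) {w y : X} (h : w ⤳ y)
    (hw : Hor f π w) (hy : ¬ Hor f π y) (e : dl d y + 1 = dl d w) :
    ∃ c : ℕ, ∀ g, (∀ V, Pl w y V → g / aK f w π ^ c ∈ V) → g ∈ O h := by
  have := hN.noeth h hw
  have := hN.norm h
  have := hN.frac h
  have := hN.fin h hw
  have := hP.frac h
  have key : ∀ x, (∀ V, Pl w y V → x ∈ V) → x ∈ IC (O h) := fun x hx => by
    let I : Ideal (IC (O h)) :=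
      { carrier := {s | (s : X.residueField w) * x ∈ IC (O h)}
        add_mem' := fun {a b} ha hb => by
          rw [Set.mem_ofPred_eq, Subring.coe_add, add_mul]
          exact add_mem ha hb
        zero_mem' := by simp
        smul_mem' := fun c a ha => by
          rw [Set.mem_ofPred_eq, smul_eq_mul, Subring.coe_mul, mul_assoc]
          exact mul_mem c.2 ha }
    by_contra hc
    have hI : I ≠ ⊤ := fun e' => hc (by simpa [I] using (Ideal.eq_top_iff_one I).1 e')
    obtain ⟨⟨Q, hQ⟩⟩ := Ideal.nonempty_minimalPrimes hI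
    have h0 : Q ≠ ⊥ := fun e' => by
      obtain ⟨a, b, hb, rfl⟩ := IsFractionRing.div_surjective (A := IC (O h)) x
      have hb0 := nonZeroDivisors.ne_zero hb
      have h1 : b ∈ I := by
        have : (b : X.residueField w) * (a / b) = a :=
          mul_div_cancel₀ _ fun k => hb0 (Subtype.ext k)
        exact (congrArg (· ∈ IC (O h)) this).mpr a.2
      exact hb0 (Ideal.mem_bot.1 (e' ▸ hQ.1.2 h1))
    obtain ⟨V, hV, hd⟩ := hT.dvr _ Q hQ.1.1 h0 (hT.den _ x I Q (fun _ => Iff.rfl) hQ)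
    obtain ⟨z, h1, c⟩ := hN.cen h Q hQ.1.1
    obtain rfl : z = y := mid hD h1 c.1 e fun k => by
      subst k
      exact h0 (hN.bot h Q h1 hQ.1.1 c)
    have hpl : Pl w z V := by
      refine (hP.pl h V).2 ⟨hd, fun u hu => (hV u).2 ⟨1, ⟨u, le_ic _ hu⟩,
        (Ideal.ne_top_iff_one _).1 hQ.1.1.ne_top, one_mul _⟩, fun u hu u0 hi => ?_⟩
      obtain ⟨s, t, hs, e'⟩ := (hV _).1 hi
      refine ((hP.nu h u hu).1 fun k => hs ?_).2
      have : s = t * ⟨u, le_ic _ hu⟩ := Subtype.ext ((mul_inv_eq_iff_eq_mul₀ u0).1 e')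
      exact this ▸ Q.mul_mem_left _ ((c.2 ⟨u, le_ic _ hu⟩ hu).2 k)
    obtain ⟨s, t, hs, e'⟩ := (hV x).1 (hx V hpl)
    exact hs (hQ.1.2 (show (s : X.residueField w) * x ∈ IC (O h) from e' ▸ t.2))
  obtain ⟨t, t0, htc⟩ := conductor (O h)
  have hπ : aK f w π ∈ O h := ⟨_, hD.ak h π⟩
  have hr : (⟨_, hπ⟩ : O h) ∈ (Ideal.span {t}).radical := by
    rw [Ideal.radical_eq_sInf, Submodule.mem_sInf]
    rintro J ⟨hJ, hp⟩
    obtain ⟨z, h1, k, hz⟩ := hP.pt h J hp
    obtain rfl : z = y := mid hD h1 k e fun k => by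
      subst k
      exact t0 (Subtype.ext ((hP.self h1 _).1 ((hz t).1 (hJ (Ideal.mem_span_singleton_self t)))))
    exact (hz _).2 ((hD.nu h1).2 hy)
  obtain ⟨c, hc⟩ := hr
  obtain ⟨r, hr⟩ := Ideal.mem_span_singleton'.1 hc
  refine ⟨c, fun g hg => ?_⟩
  have e1 : (r : X.residueField w) * t = aK f w π ^ c := congrArg Subtype.val hr
  have e2 : g = r * (t * (g / aK f w π ^ c)) := by
    rw [← mul_assoc, e1, mul_div_cancel₀ _ (pow_ne_zero _ hw)]
  exact e2 ▸ mul_mem r.2 (htc _ (key _ hg))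

end PlfA

theorem plf (hT : HartS) (h1 : PtsS) (_h2 : All Crd) (h3 : All Dim) (h4 : All Sep)
    (h6 : All Nrmx) : All Plf := by
  intro A _ _ _ _ _ X f π d H
  have hP := h1 X
  have hD := h3 A X f π d H
  have hS := h4 A X f π d H
  have hN := h6 A X f π d H
  refine ⟨PlfA.fin hT hP hD hN, PlfA.res hT hP hD hN, PlfA.vz hP hD hS, fun w hw =>
    ⟨?_, fun V ⟨_, _, _, P⟩ => P.dvr, hw, fun V ⟨z, hz, _, P⟩ => ?_⟩, PlfA.mem hD,
    fun P P' => hS.sep P.sp P'.sp _ ((hP.pl _ _).1 P).2 ((hP.pl _ _).1 P').2,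
    PlfA.cond hT hP hD hN⟩
  · exact ((PlfA.vz hP hD hS w hw).biUnion (t := fun z => {V | Pl w z V}) fun z hz =>
      PlfA.fin hT hP hD hN w z hw hz.2.1).subset fun V ⟨z, hz, e, P⟩ =>
        Set.mem_biUnion (x := z) ⟨hz, e, P.sp⟩ P
  · have hπ : aK f w π ∈ O P.sp := ⟨_, hD.ak P.sp π⟩
    exact PlfA.mem_ctr.1 (((PlfA.cen_ctr hP P.sp P).2 ⟨_, PlfA.le_ic _ hπ⟩ hπ).2
      ((hD.nu P.sp).2 hz))

end Pool.Agent.KEW

end MrgPart6

-- ======== part 7: formerly Pool.Agent.MP_55d974_ag.kew.Mov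
section MrgPart7

/-! PROJECT KEW: a vertical point is a regular divisor on a horizontal closure. -/

open AlgebraicGeometry CategoryTheory TopologicalSpace Opposite Pool.Agent.MP_55d974_ag
  IsLocalRing

namespace Pool.Agent.KEW

noncomputable section

namespace MovA

section Alg

variable {R : Type} [CommRing R]

/-- prime avoidance in a coset -/
theorem davis (S : Set (Ideal R)) (hS : S.Finite) (hp : ∀ P ∈ S, P.IsPrime) (x : R) (J : Ideal R)
    (h : ∀ P ∈ S, x ∈ P → ¬ J ≤ P) : ∃ a ∈ J, ∀ P ∈ S, x + a ∉ P := by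
  classical
  let T : Finset (Ideal R) := hS.toFinset.filter fun P => ∀ Q ∈ S, x ∈ Q → ¬ P ≤ Q
  have h1 : ¬ ((J ⊓ T.inf id : Ideal R) : Set R) ⊆ ⋃ Q ∈ {Q ∈ S | x ∈ Q}, (Q : Set R) := by
    refine mt (Ideal.subset_union_prime_finite (f := fun Q : Ideal R => Q)
      (hS.subset (Set.sep_subset _ _)) ⊥ ⊥ fun Q hQ _ _ => hp Q hQ.1).1 ?_
    rintro ⟨Q, ⟨hQ, hx⟩, hle⟩
    rcases (hp Q hQ).inf_le.1 hle with h2 | h2
    · exact h Q hQ hx h2
    · obtain ⟨P, hP, h3⟩ := (hp Q hQ).inf_le'.1 h2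
      exact (Finset.mem_filter.1 hP).2 Q hQ hx h3
  obtain ⟨a, ha, ha'⟩ := Set.not_subset.1 h1
  simp only [Set.mem_iUnion, not_exists, Set.mem_ofPred_eq, SetLike.mem_coe, and_imp] at ha'
  refine ⟨a, ha.1, fun P hP hm => ?_⟩
  by_cases h2 : ∀ Q ∈ S, x ∈ Q → ¬ P ≤ Q
  · have h3 : a ∈ P := (Finset.inf_le (f := id)
      (Finset.mem_filter.2 ⟨hS.mem_toFinset.2 hP, h2⟩) : T.inf id ≤ P) ha.2
    exact h2 P hP ((P.add_mem_iff_left h3).1 hm) le_rfl
  · push Not at h2
    obtain ⟨Q, hQ, hx, h3⟩ := h2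
    exact ha' Q hQ hx ((Q.add_mem_iff_right hx).1 (h3 hm))

variable [IsLocalRing R]

theorem step {I : Ideal R} {i : ℕ} {y : R} (hm : ((i + 1 : ℕ) : ℕ∞) ≤ (maximalIdeal R).height)
    (hI : ∀ Q : Ideal R, Q.IsPrime → I ≤ Q → (i : ℕ∞) ≤ Q.height)
    (hy : ∀ P ∈ I.minimalPrimes, P ≠ maximalIdeal R → y ∉ P) (Q : Ideal R) (hQ : Q.IsPrime)
    (h1 : I ≤ Q) (h2 : y ∈ Q) : ((i + 1 : ℕ) : ℕ∞) ≤ Q.height := by
  obtain ⟨P, hP, h3⟩ := Ideal.exists_minimalPrimes_le h1
  have := hP.1.1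
  by_cases h4 : P = maximalIdeal R
  · exact hm.trans (Ideal.height_mono (h4 ▸ h3))
  · refine le_trans ?_ (Ideal.height_add_one_le_of_lt_of_isPrime
      (lt_of_le_of_ne h3 fun h => hy P hP h4 (h ▸ h2)))
    push_cast
    exact add_le_add_left (hI P this hP.1.2) 1

/-- generators of the maximal ideal in general position -/
theorem ind [IsNoetherianRing R] (π : R) (n : ℕ) (hm : (maximalIdeal R).height = (n + 1 : ℕ))
    (h0 : ∀ Q : Ideal R, Q.IsPrime → π ∈ Q → 1 ≤ Q.height) (t : Finset R) (ht : t.card ≤ n + 1)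
    (hs : Ideal.span (t : Set R) = maximalIdeal R) (i : ℕ) (hi : i ≤ n) :
    ∃ s t : Finset R, s.card ≤ i ∧ t.card + i ≤ n + 1 ∧
      Ideal.span (s : Set R) ⊔ Ideal.span (t : Set R) = maximalIdeal R ∧
      (∀ Q : Ideal R, Q.IsPrime → Ideal.span (s : Set R) ≤ Q → (i : ℕ∞) ≤ Q.height) ∧
      ∀ Q : Ideal R, Q.IsPrime → Ideal.span (s : Set R) ⊔ Ideal.span {π} ≤ Q →
        ((i + 1 : ℕ) : ℕ∞) ≤ Q.height := by
  classical
  induction i with
  | zero =>
    refine ⟨∅, t, le_rfl, ht, by simpa using hs, fun _ _ _ => by simp, fun Q hQ h => ?_⟩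
    simpa using h0 Q hQ ((Ideal.span_singleton_le_iff_mem _).1 (le_sup_right.trans h))
  | succ i ih =>
    obtain ⟨s, t, h1, h2, h3, h4, h5⟩ := ih (by omega)
    obtain ⟨x, t', hx, ht'⟩ : ∃ (x : R) (t' : Finset R), t'.card + (i + 1) ≤ n + 1 ∧
        Ideal.span (t : Set R) = Ideal.span {x} ⊔ Ideal.span (t' : Set R) := by
      rcases t.eq_empty_or_nonempty with rfl | ⟨x, hx⟩
      · exact ⟨0, ∅, by simp; omega, by simp⟩
      · refine ⟨x, t.erase x, ?_, ?_⟩
        · have := Finset.card_erase_add_one hx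
          omega
        · rw [← Ideal.span_insert, ← Finset.coe_insert, Finset.insert_erase hx]
    obtain ⟨a, ha, hy⟩ := davis
      {P | P ≠ maximalIdeal R ∧ (P ∈ (Ideal.span (s : Set R)).minimalPrimes ∨
        P ∈ (Ideal.span (s : Set R) ⊔ Ideal.span {π}).minimalPrimes)}
      (((Ideal.finite_minimalPrimes_of_isNoetherianRing R _).union
        (Ideal.finite_minimalPrimes_of_isNoetherianRing R _)).subset fun P hP => hP.2)
      (fun P hP => hP.2.elim (fun h => h.1.1) fun h => h.1.1) x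
      (Ideal.span (s : Set R) ⊔ Ideal.span (t' : Set R)) (fun P hP hxP hle => by
        have hp : P.IsPrime := hP.2.elim (fun h => h.1.1) fun h => h.1.1
        refine hP.1 (le_antisymm (le_maximalIdeal hp.ne_top) ?_)
        rw [← h3, ht']
        exact sup_le (le_sup_left.trans hle)
          (sup_le ((Ideal.span_singleton_le_iff_mem _).2 hxP) (le_sup_right.trans hle)))
    have e : Ideal.span ((insert (x + a) s : Finset R) : Set R) =
        Ideal.span {x + a} ⊔ Ideal.span (s : Set R) := by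
      rw [Finset.coe_insert, Ideal.span_insert]
    refine ⟨insert (x + a) s, t', (Finset.card_insert_le _ _).trans (by omega), hx, ?_,
      fun Q hQ h => ?_, fun Q hQ h => ?_⟩
    · rw [e, ← h3, ht', sup_assoc, sup_left_comm (Ideal.span (s : Set R))]
      refine le_antisymm (sup_le ?_ le_sup_right) (sup_le ?_ le_sup_right)
      · exact (Ideal.span_singleton_le_iff_mem _).2 (add_mem
          (Ideal.mem_sup_left (Ideal.mem_span_singleton_self _)) (Ideal.mem_sup_right ha))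
      · have := sub_mem (Ideal.mem_sup_left (Ideal.mem_span_singleton_self (x + a)))
          (Ideal.mem_sup_right ha)
        rw [add_sub_cancel_right] at this
        exact (Ideal.span_singleton_le_iff_mem _).2 this
    · rw [e] at h
      refine step ?_ h4 (fun P hP hn => hy P ⟨hn, Or.inl hP⟩) Q hQ (le_sup_right.trans h)
        ((Ideal.span_singleton_le_iff_mem _).1 (le_sup_left.trans h))
      rw [hm]
      exact_mod_cast (by omega : i + 1 ≤ n + 1)
    · rw [e, sup_assoc] at h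
      refine step ?_ h5 (fun P hP hn => hy P ⟨hn, Or.inr hP⟩) Q hQ (le_sup_right.trans h)
        ((Ideal.span_singleton_le_iff_mem _).1 (le_sup_left.trans h))
      rw [hm]
      exact_mod_cast (by omega : i + 1 + 1 ≤ n + 1)

end Alg

/-- a prime of a regular local ring with regular one-dimensional quotient which avoids `π` -/
theorem prime {R : Type} [CommRing R] [IsRegularLocalRing R] (π : R) (n : ℕ)
    (hd : ringKrullDim R = (n + 1 : ℕ)) (h0 : ∀ Q : Ideal R, Q.IsPrime → π ∈ Q → 1 ≤ Q.height) :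
    ∃ (P : Ideal R) (t : R), P.IsPrime ∧ π ∉ P ∧ P.height = n ∧
      maximalIdeal R = P ⊔ Ideal.span {t} := by
  have hm : (maximalIdeal R).height = (n + 1 : ℕ) := by
    have := maximalIdeal_height_eq_ringKrullDim (R := R)
    rw [hd] at this
    exact_mod_cast this
  obtain ⟨t, h1, h2⟩ := (IsNoetherian.noetherian (maximalIdeal R)).exists_span_finset_card_eq_spanFinrank
  have h3 := IsRegularLocalRing.spanFinrank_maximalIdeal (R := R)
  rw [hd, ← h1] at h3
  obtain ⟨s, t, h4, h5, h6, h7, h8⟩ :=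
    ind π n hm h0 t (le_of_eq (by exact_mod_cast h3)) h2 n le_rfl
  obtain ⟨P, hP, -⟩ := Ideal.exists_minimalPrimes_le (I := Ideal.span (s : Set R))
    (J := maximalIdeal R) (h6 ▸ le_sup_left)
  have h9 : P.height ≤ n :=
    (Ideal.height_le_card_of_mem_minimalPrimes_span_finset hP).trans (by exact_mod_cast h4)
  obtain ⟨x, hx⟩ : ∃ x, Ideal.span (t : Set R) = Ideal.span {x} := by
    rcases t.eq_empty_or_nonempty with rfl | ht
    · exact ⟨0, by simp⟩
    · obtain ⟨x, rfl⟩ := Finset.card_eq_one.1 (le_antisymm (by omega) ht.card_pos)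
      exact ⟨x, by simp⟩
  refine ⟨P, x, hP.1.1, fun h => ?_, le_antisymm h9 (h7 P hP.1.1 hP.1.2), ?_⟩
  · have := (h8 P hP.1.1 (sup_le hP.1.2 ((Ideal.span_singleton_le_iff_mem _).2 h))).trans h9
    have : n + 1 ≤ n := by exact_mod_cast this
    omega
  · refine le_antisymm ?_ (sup_le (le_maximalIdeal hP.1.1.ne_top) (hx ▸ h6 ▸ le_sup_right))
    rw [← h6, hx]
    exact sup_le_sup_right hP.1.2 _

/-- the point of a prime of the local ring -/
theorem point {X : Scheme.{0}} (z : X) (P : Ideal (X.presheaf.stalk z)) (hP : P.IsPrime) :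
    ∃ (w : X) (h : w ⤳ z), RingHom.ker (gz h) = P ∧
      ringKrullDim (X.presheaf.stalk w) = P.height := by
  let p : Spec (X.presheaf.stalk z) := ⟨P, hP⟩
  have hr : ∀ y, y ∈ Set.range (X.fromSpecStalk z) ↔ y ⤳ z := fun y => by
    rw [Scheme.range_fromSpecStalk]; rfl
  have hE := (X.fromSpecStalk z).isEmbedding
  have h : X.fromSpecStalk z p ⤳ z := (hr _).1 ⟨p, rfl⟩
  refine ⟨_, h, ?_, ?_⟩
  · have h1 := Scheme.fromSpecStalk_closedPoint (x := X.fromSpecStalk z p)
    rw [← Scheme.SpecMap_stalkSpecializes_fromSpecStalk h, Scheme.Hom.comp_apply] at h1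
    have h2 := congrArg PrimeSpectrum.asIdeal (hE.injective h1)
    refine Eq.trans (Ideal.ext fun a => ?_) h2
    exact residue_eq_zero_iff _
  · have hle : ∀ a b, X.fromSpecStalk z a ≤ X.fromSpecStalk z b ↔ a ≤ b := fun a b =>
      hE.isInducing.specializes_iff
    have hlt : ∀ a b, X.fromSpecStalk z a < X.fromSpecStalk z b ↔ a < b := fun a b => by
      rw [lt_iff_le_not_ge, lt_iff_le_not_ge, hle, hle]
    rw [ringKrullDim_stalk_eq_coheight, ← Order.coheight_eq_of_strictMono (X.fromSpecStalk z)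
      (fun a b => (hlt a b).2) (fun a b hb => ?_) p, ← idealHeight_eq_coheight]
    obtain ⟨a', rfl⟩ := (hr b).2 (hb.le.trans' ((hr _).1 ⟨a, rfl⟩ : _ ⤳ z))
    exact ⟨a', (hlt _ _).1 hb, rfl⟩

end MovA

theorem mov (h1 : PtsS) (h3 : All Dim) : All Mov := by
  intro A _ _ _ _ _ X f π d H z hz
  have D := h3 A X f π d H
  have T := h1 X
  have := H.reg z
  have hπ : sA f z π ∈ maximalIdeal _ := (residue_eq_zero_iff _).1 (not_not.1 hz)
  have hc : ∀ y, ¬ Hor f π y → 1 ≤ cod y := fun y hy => by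
    have := D.add y
    have := (D.ver y hy).1
    omega
  obtain ⟨n, hn⟩ : ∃ n, cod z = n + 1 := ⟨cod z - 1, by have := hc z hz; omega⟩
  obtain ⟨P, t, hP, h4, h5, h6⟩ := MovA.prime (sA f z π) n (by rw [D.eq, hn]) fun Q hQ hq => by
    obtain ⟨w, h, k1, k2⟩ := MovA.point z Q hQ
    have k3 := hc w (not_not.2 (by rw [← D.ak h, ← RingHom.mem_ker, k1]; exact hq))
    rw [D.eq] at k2
    have k4 : (cod w : ℕ∞) = Q.height := by exact_mod_cast k2
    rw [← k4]
    exact_mod_cast k3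
  obtain ⟨w, h, k1, k2⟩ := MovA.point z P hP
  rw [D.eq, h5] at k2
  have k3 : cod w = n := by exact_mod_cast k2
  have hw : Hor f π w := fun h0 => h4 (by rw [← k1, RingHom.mem_ker, D.ak h]; exact h0)
  have := T.loc h
  have := T.frac h
  obtain ⟨ρ, hs, hρ⟩ : ∃ ρ : X.presheaf.stalk z →+* O h, Function.Surjective ρ ∧
      ∀ a, (ρ a : X.residueField w) = gz h a :=
    ⟨(gz h).rangeRestrict, (gz h).rangeRestrict_surjective, fun _ => rfl⟩
  have : IsNoetherianRing (O h) := isNoetherianRing_of_surjective _ _ _ hs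
  have hm : maximalIdeal (O h) = (maximalIdeal _).map ρ :=
    (map_maximalIdeal_of_surjective _ hs).symm
  have hf : ¬ IsField (O h) := fun hf => by
    have k4 := Ideal.mem_map_of_mem ρ hπ
    rw [← hm, isField_iff_maximalIdeal_eq.1 hf, Ideal.mem_bot] at k4
    exact hw ((D.ak h π).symm.trans ((hρ _).symm.trans (congrArg Subtype.val k4)))
  have hpr : (maximalIdeal (O h)).IsPrincipal := by
    refine ⟨ρ t, le_antisymm ?_ ?_⟩
    · rw [hm, h6, Ideal.map_sup, Ideal.map_span, Set.image_singleton, sup_le_iff]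
      refine ⟨Ideal.map_le_iff_le_comap.2 fun a ha => ?_, le_rfl⟩
      rw [← k1] at ha
      have k5 : ρ a = 0 := Subtype.ext ((hρ a).trans ha)
      rw [Ideal.mem_comap, k5]
      exact zero_mem _
    · rw [hm, h6]
      exact (Ideal.span_singleton_le_iff_mem _).2 (Ideal.mem_map_of_mem ρ
        (Ideal.mem_sup_right (Ideal.mem_span_singleton_self t)))
  have hdvr : IsDiscreteValuationRing (O h) :=
    ((IsDiscreteValuationRing.TFAE (O h) hf).out 4 0).1 hpr
  let V : ValuationSubring (X.residueField w) :=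
    { O h with
      mem_or_inv_mem' := fun x => by
        rcases ValuationRing.isInteger_or_isInteger (O h) x with ⟨a, ha⟩ | ⟨a, ha⟩
        · exact Or.inl (ha ▸ a.2)
        · exact Or.inr (ha ▸ a.2) }
  have hV : Pl w z V := (T.pl h V).2 ⟨hdvr, fun _ hx => hx, fun _ _ _ hx => hx⟩
  refine ⟨w, V, hw, ?_, hV, fun V' hV' => ?_, fun x => ?_⟩
  · have := D.add w
    have := D.add z
    omega
  · obtain ⟨-, k4, k5⟩ := (T.pl h V').1 hV'
    refine le_antisymm (fun x hx => ?_) fun x hx => k4 x hx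
    rcases eq_or_ne x 0 with rfl | h0
    · exact zero_mem _
    · refine (V.mem_or_inv_mem x).elim id fun k6 => ?_
      have := k5 _ k6 (inv_ne_zero h0) (by rwa [inv_inv])
      rwa [inv_inv] at this
  · obtain ⟨⟨_, a, rfl⟩, rfl⟩ := residue_surjective x
    exact ⟨X.residue z a, rfl⟩

end

end Pool.Agent.KEW

end MrgPart7

-- ======== part 8: formerly Pool.Agent.MP_55d974_ag.kew.Thk
section MrgPart8

/-! PROJECT KEW: the thickenings of the special fibre. -/

open AlgebraicGeometry CategoryTheory Limits TopologicalSpace Opposite Pool.Agent.MP_55d974_ag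
  IsLocalRing

namespace Pool.Agent.KEW

noncomputable section

namespace ThkA

variable {A : Type} [CommRing A] {X : Scheme.{0}} (f : X ⟶ Spec (.of A)) (π : A)

theorem from_comp (y : X) :
    X.fromSpecStalk y ≫ f = Spec.map (CommRingCat.ofHom (sA f y)) := by
  have h : f = X.toSpecΓ ≫ Spec.map ((Scheme.ΓSpecIso (.of A)).inv ≫ f.appTop) := by
    rw [Spec.map_comp, ← Scheme.toSpecΓ_naturality_assoc, toSpecΓ_SpecMap_ΓSpecIso_inv,
      Category.comp_id]
  conv_lhs => rw [h]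
  rw [Scheme.fromSpecStalk_toSpecΓ_assoc, ← Spec.map_comp]
  rfl

theorem mem_iff (y : X) (c : A) : c ∈ (f y).asIdeal ↔ aK f y c = 0 := by
  have h := congrArg (fun g => g (closedPoint (X.presheaf.stalk y))) (from_comp f y)
  simp only [Scheme.Hom.comp_apply, Scheme.fromSpecStalk_closedPoint] at h
  rw [h]
  exact (residue_eq_zero_iff _).symm

theorem closedBase (n : ℕ) : IsClosedImmersion (baseι π n) :=
  IsClosedImmersion.spec_of_surjective _ Ideal.Quotient.mk_surjective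

theorem closed (n : ℕ) : IsClosedImmersion (thick f π n) :=
  MorphismProperty.pullback_fst (P := @IsClosedImmersion) _ _ (closedBase π n)

theorem range (n : ℕ) (hn : 1 ≤ n) : Set.range (thick f π n) = {y | ¬ Hor f π y} := by
  refine (Scheme.Pullback.range_fst f (baseι π n)).trans (Set.ext fun y => ?_)
  have h := range_comap_of_surjective _ (Ideal.Quotient.mk (Ideal.span {π ^ n}))
    Ideal.Quotient.mk_surjective
  change f y ∈ Set.range (PrimeSpectrum.comap (Ideal.Quotient.mk (Ideal.span {π ^ n}))) ↔ _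
  rw [h, Ideal.mk_ker, PrimeSpectrum.zeroLocus_span]
  refine (PrimeSpectrum.mem_zeroLocus _ _).trans ?_
  rw [Set.singleton_subset_iff, SetLike.mem_coe, (f y).2.pow_mem_iff_mem n hn, mem_iff]
  simp [Hor]

theorem kill (n : ℕ) (x : Xn f π n) :
    ((thick f π n).stalkMap x).hom (sA f _ π ^ n) = 0 := by
  obtain ⟨θ, hθ⟩ := Spec.map_surjective
    ((Xn f π n).fromSpecStalk x ≫ pullback.snd f (baseι π n))
  have h : Spec.map (CommRingCat.ofHom (sA f _) ≫ (thick f π n).stalkMap x) =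
      Spec.map (CommRingCat.ofHom (Ideal.Quotient.mk (Ideal.span {π ^ n})) ≫ θ) := by
    rw [Spec.map_comp, Spec.map_comp, ← from_comp, Scheme.SpecMap_stalkMap_fromSpecStalk_assoc,
      hθ, Category.assoc]
    exact congrArg _ pullback.condition
  have h' := congrArg (fun g => g.hom (π ^ n)) (Spec.map_injective h)
  simp only [CommRingCat.hom_comp, CommRingCat.hom_ofHom, RingHom.comp_apply] at h'
  rw [← map_pow, h', Ideal.Quotient.eq_zero_iff_mem.2 (Ideal.mem_span_singleton_self _), map_zero]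

theorem ker (n : ℕ) (x : Xn f π n) :
    RingHom.ker ((thick f π n).stalkMap x).hom = Ideal.span {sA f _ π ^ n} := by
  refine le_antisymm ?_ ((Ideal.span_singleton_le_iff_mem _).2 (kill f π n x))
  have := closed f π n
  let J : Ideal (X.presheaf.stalk (thick f π n x)) := Ideal.span {sA f _ π ^ n}
  have hJ : J ≠ ⊤ := fun h => by
    have h1 := (Ideal.span_singleton_eq_top.1 h).map ((thick f π n).stalkMap x).hom
    rw [kill] at h1
    exact not_isUnit_zero h1
  have := Ideal.Quotient.nontrivial_iff.2 hJ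
  have := IsLocalRing.of_surjective' (Ideal.Quotient.mk J) Ideal.Quotient.mk_surjective
  have := IsLocalHom.of_surjective (Ideal.Quotient.mk J) Ideal.Quotient.mk_surjective
  let θ : A ⧸ Ideal.span {π ^ n} →+* _ ⧸ J :=
    Ideal.Quotient.lift _ ((Ideal.Quotient.mk J).comp (sA f _)) fun a ha => by
      obtain ⟨c, rfl⟩ := Ideal.mem_span_singleton'.1 ha
      rw [RingHom.comp_apply, Ideal.Quotient.eq_zero_iff_mem, map_mul, map_pow]
      exact J.mul_mem_left _ (Ideal.mem_span_singleton_self _)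
  let g : Spec (.of (_ ⧸ J)) ⟶ Xn f π n := pullback.lift
    (Spec.map (CommRingCat.ofHom (Ideal.Quotient.mk J)) ≫ X.fromSpecStalk _)
    (Spec.map (CommRingCat.ofHom θ)) (by
      rw [Category.assoc, from_comp, baseι, ← Spec.map_comp, ← Spec.map_comp]
      rfl)
  have hg : g ≫ thick f π n =
      Spec.map (CommRingCat.ofHom (Ideal.Quotient.mk J)) ≫ X.fromSpecStalk _ :=
    pullback.lift_fst _ _ _
  have hx : g (closedPoint _) = x := (thick f π n).isClosedEmbedding.injective (by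
    rw [← Scheme.Hom.comp_apply, hg, Scheme.Hom.comp_apply]
    refine Eq.trans (congrArg _ ?_) Scheme.fromSpecStalk_closedPoint
    exact comap_closedPoint (Ideal.Quotient.mk J))
  obtain ⟨ψ, hψ⟩ : ∃ ψ : (Xn f π n).presheaf.stalk x ⟶ .of (_ ⧸ J),
      Spec.map ψ ≫ (Xn f π n).fromSpecStalk x = g := by
    have h := Scheme.Spec_stalkClosedPointTo_fromSpecStalk g
    generalize Scheme.stalkClosedPointTo g = ψ at h
    revert ψ
    rw [hx]
    exact fun ψ h => ⟨ψ, h⟩
  rw [← hψ, Category.assoc, ← Scheme.SpecMap_stalkMap_fromSpecStalk, ← Spec.map_comp_assoc,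
    cancel_mono] at hg
  intro a ha
  have h' := congrArg (fun g => g.hom a) (Spec.map_injective hg)
  simp only [CommRingCat.hom_comp, CommRingCat.hom_ofHom, RingHom.comp_apply] at h'
  rw [RingHom.mem_ker.1 ha, map_zero] at h'
  exact Ideal.Quotient.eq_zero_iff_mem.1 h'.symm

end ThkA

theorem thk (_h3 : All Dim) : All Thk := fun _ _ _ _ _ _ _ f π _ _ n hn =>
  ⟨ThkA.closed f π n, ThkA.range f π n hn, ThkA.ker f π n⟩

end

end Pool.Agent.KEW

end MrgPart8

-- ======== part 9: formerly Pool.Agent.MP_55d974_ag.kew.Lam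
section MrgPart9

/-! PROJECT KEW, the whole recursion. -/

open AlgebraicGeometry CategoryTheory TopologicalSpace Opposite Pool.Agent.MP_55d974_ag IsLocalRing

namespace Pool.Agent.KEW

noncomputable section

open Classical

namespace Stp

variable {A : Type} [CommRing A] {X : Scheme.{0}} {f : X ⟶ Spec (.of A)} {π : A} {d n j : ℕ}
  {C : Type} [AddCommGroup C] {Λ Λ' : Lm X C}

/-- The recursion holds at all points. -/
theorem rec_all (hG : Geo f π d) (hI : Inv f π d n j Λ) (hI' : Inv f π d n (j + 1) Λ')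
    (hR : Rec f π d j Λ' Λ) (w : X) (β) : Del (Λ' w β) = TT Λ w β := by
  by_cases hw : Hor f π w ∧ dl d w = j + 2
  · exact hR w hw.1 hw.2 β
  have h1 : Λ' w β = 0 := by
    ext l
    by_contra h
    exact hw ⟨(hI'.sup _ _ _ h).1, (hI'.sup _ _ _ h).2.1⟩
  rw [h1, map_zero]
  ext l
  by_contra h
  obtain ⟨z, hz⟩ := tt_ne (Ne.symm h)
  obtain ⟨z1, z2, -⟩ := hI.sup _ _ _ hz
  have h2 : dK w z β ≠ 0 := fun h0 => by
    rw [hG.dif.single, h0, map_zero] at hz
    exact hz rfl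
  obtain ⟨h3, h4⟩ := hG.dif.loc _ _ _ h2
  exact hw ⟨hG.dim.sp h3 z1, by omega⟩

/-- The recursion on chains. -/
theorem del_lc (hG : Geo f π d) (hI : Inv f π d n j Λ) (hI' : Inv f π d n (j + 1) Λ')
    (hR : Rec f π d j Λ' Λ) (b : Ch X) : Del (Lc Λ' b) = Lc Λ (DD X b) := by
  have : (Del (C := C)).comp (Lc Λ') = (Lc Λ).comp (DD X) := by
    refine DFinsupp.addHom_ext fun w β => ?_
    rw [AddMonoidHom.comp_apply, Lc, DFinsupp.sumAddHom_single]
    exact rec_all hG hI hI' hR w β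
  exact DFunLike.congr_fun this b

theorem del_apply {x : X} {a : List X →₀ C} (h : ∀ l, a l ≠ 0 → ∃ l', l = x :: l') (l : List X) :
    Del a l = a (x :: l) :=
  Finsupp.mapDomain_apply' (Set.range (x :: ·)) (f := List.tail) a
    (fun l hl => (h l (Finsupp.mem_support_iff.1 hl)).imp fun _ e => e.symm)
    (by
      rintro _ ⟨l1, rfl⟩ _ ⟨l2, rfl⟩ e
      exact congrArg _ e) ⟨l, rfl⟩

/-- The component at `x` is the value of `T` on a localisation of the first entry. -/
theorem tail_eq (hA : LocA) (hG : Geo f π d) (hn : n ≠ 0) (hI' : Inv f π d n (j + 1) Λ')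
    (hR : Rec f π d j Λ' Λ) {w x : X} (hw : Hor f π w) (hd : dl d w = j + 2) (hx : ¬ Hor f π x)
    (hdx : dl d x + 1 = dl d w) (F : (X.residueField w)ˣ) : ∃ g : (X.residueField w)ˣ,
      (∀ V, Pl w x V → Ap V (aK f w π ^ n) (g / F)) ∧
      (∀ z V, ¬ Hor f π z → dl d z + 1 = dl d w → z ≠ x → Pl w z V → Ap V (aK f w π ^ n) g) ∧
      ∀ γ l, Λ' w (sym F * γ) (x :: l) = TT Λ w (sym g * γ) l := by
  obtain ⟨g, g1, g2⟩ := hA.one _ {V | Pl w x V} _ (fam_pow (hG.plf.fam w hw) hn) F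
  have h1 : ∀ V, Pl w x V → Ap V (aK f w π ^ n) (g / F) := fun V hV => g1 V ⟨x, hx, hdx, hV⟩ hV
  have h2 : ∀ z V, ¬ Hor f π z → dl d z + 1 = dl d w → z ≠ x → Pl w z V →
      Ap V (aK f w π ^ n) g := fun z V z1 z2 z3 z4 =>
    g2 V ⟨z, z1, z2, z4⟩ fun h5 => z3 (hG.plf.uniq z4 h5)
  refine ⟨g, h1, h2, fun γ l => ?_⟩
  have h3 := hI'.kill w x (g / F) γ l h1
  rw [sym_div, ksub_mul, map_sub, Finsupp.sub_apply, sub_eq_zero] at h3
  rw [← h3, ← hR w hw hd, del_apply]
  intro l hl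
  obtain ⟨-, -, h4⟩ := hI'.sup _ _ _ hl
  rcases l with _ | ⟨z, l⟩
  · have h5 : dl d w = 0 := h4
    omega
  · by_cases hz : z = x
    · exact ⟨l, by rw [hz]⟩
    · exact absurd (hI'.kill w z g γ l fun V hV => h2 z V h4.2.1 h4.2.2.1.symm hz hV) hl

/-- Only the part of degree `j` matters at level `j`. -/
def Hm (j : ℕ) (Λ : Lm X C) : Prop := ∀ w i, i ≠ j → ∀ β ∈ K _ i, Λ w β = 0

theorem Hm.tt (hH : Hm j Λ) (hD : Dif f π d) (w : X) {i : ℕ} (hi : i ≠ j + 1) {β}
    (hβ : β ∈ K _ i) : TT Λ w β = 0 := by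
  rcases i with _ | i
  · obtain ⟨m, rfl⟩ := mem_K_zero.1 hβ
    rw [← zsmul_one, map_zsmul, tt_one hD, smul_zero]
  ext l
  by_contra h
  obtain ⟨z, hz⟩ := tt_ne h
  rw [hD.single, hH z i (by omega) _ (hD.mem w z i β hβ)] at hz
  exact hz rfl

theorem hm_zero {q : ℕ} {cy : Ch X →+ C} (hcy : Cy d q cy) : Hm 0 (L0 f π d cy) := by
  intro w i hi β hβ
  obtain ⟨i, rfl⟩ := Nat.exists_eq_succ_of_ne_zero hi
  refine K_ind (P := fun β => L0 f π d cy w β = 0) (fun u y _ => ?_) (map_zero _)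
    (fun x y hx hy => by rw [map_add, hx, hy, add_zero])
    (fun x hx => by rw [map_neg, hx, neg_zero]) hβ
  unfold L0
  split_ifs
  · simp [hcy.pos]
  · rfl

theorem Hm.succ (hH : Hm j Λ) (hA : LocA) (hG : Geo f π d) (hn : n ≠ 0)
    (hI' : Inv f π d n (j + 1) Λ') (hR : Rec f π d j Λ' Λ) : Hm (j + 1) Λ' := by
  intro w i hi β hβ
  rcases i with _ | i
  · obtain ⟨m, rfl⟩ := mem_K_zero.1 hβ
    rw [← zsmul_one, map_zsmul, hI'.one (by omega), smul_zero]
  refine K_ind (P := fun β => Λ' w β = 0) (fun u y hy => ?_) (map_zero _)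
    (fun x y hx hy => by rw [map_add, hx, hy, add_zero])
    (fun x hx => by rw [map_neg, hx, neg_zero]) hβ
  ext l
  by_contra h
  obtain ⟨h1, h2, h3⟩ := hI'.sup _ _ _ h
  rcases l with _ | ⟨x, l⟩
  · have h5 : dl d w = 0 := h3
    omega
  obtain ⟨g, -, -, hg⟩ := tail_eq hA hG hn hI' hR h1 h2 h3.2.1 h3.2.2.1.symm u
  rw [hg, hH.tt hG.dif w hi (sym_mul_mem_K g hy)] at h
  exact h rfl

theorem p1 (hG : Geo f π d)
    (hdd : ∀ i, ∀ b ∈ Coh.Deg (X := X.carrier) (AW d i), DD X (DD X b) = 0)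
    (hI : Inv f π d n j Λ) (hI' : Inv f π d n (j + 1) Λ') (hR : Rec f π d j Λ' Λ)
    (hH : Hm (j + 1) Λ') : P1 f π d (j + 1) Λ' := by
  intro w _ hd β
  refine hom_ind (P := fun β => Del (TT Λ' w β) = 0) (fun i β hβ => ?_)
    (fun x y hx hy => by rw [map_add, map_add, hx, hy, add_zero]) β
  by_cases hi : i = j + 1 + 1
  · change Del (Lc Λ' (DD X (DFinsupp.single w β))) = 0
    rw [del_lc hG hI hI' hR, hdd (cod w), map_zero]
    intro z
    have h1 := hG.dim.add w
    by_cases hz : w = z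
    · subst hz
      rw [DFinsupp.single_eq_same, AW, if_pos ⟨rfl, by omega⟩, show d - cod w = i by omega]
      exact hβ
    · rw [DFinsupp.single_eq_of_ne (Ne.symm hz)]
      exact zero_mem _
  · rw [hH.tt hG.dif w hi hβ, map_zero]

theorem lv_ne {p q : ℕ} (h : Lv π p q n) (hπ : Irreducible π) : n ≠ 0 := by
  rintro rfl
  have := h.lev
  rw [pow_zero] at this
  exact hπ.not_isUnit (isUnit_of_dvd_one ((dvd_mul_left _ _).trans this))

end Stp

theorem lamS (hA : LocA) (hc : AllC CxS) (h0 : AllC Blg) (h1 : AllC GSt) (h2 : AllC Step) :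
    AllC LamS := by
  intro A _ _ _ _ _ X f π d p q n c C _ cy hcy
  have key : ∀ (j : ℕ) (Λ : {Λ : Lm X C // Inv f π d n j Λ ∧ GG f π d n j Λ ∧ Stp.Hm j Λ}),
      ∃ Λ' : {Λ : Lm X C // Inv f π d n (j + 1) Λ ∧ GG f π d n (j + 1) Λ ∧ Stp.Hm (j + 1) Λ},
        Rec f π d j Λ'.1 Λ.1 := by
    intro j Λ
    obtain ⟨Λ', a, b⟩ := h2 A X f π d p q n c C j Λ.1 Λ.2.1 Λ.2.2.1
    have hH := Λ.2.2.2.succ hA c.geo (Stp.lv_ne c.lv c.hyp.irr) a b
    exact ⟨⟨Λ', a, h1 A X f π d p q n c C (j + 1) Λ' hcy.tor (by omega) a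
      (Stp.p1 c.geo (hc A X f π d p q n c d (by omega) le_rfl).dd Λ.2.1 a b hH), hH⟩, b⟩
  choose nx hnx using key
  let Λ : ∀ j : ℕ, {Λ : Lm X C // Inv f π d n j Λ ∧ GG f π d n j Λ ∧ Stp.Hm j Λ} := fun j =>
    Nat.rec ⟨L0 f π d cy, (h0 A X f π d p q n c C cy hcy).1, (h0 A X f π d p q n c C cy hcy).2,
      Stp.hm_zero hcy⟩ nx j
  exact ⟨fun j => (Λ j).1, rfl, fun j => ⟨(Λ j).2.1, hnx j (Λ j)⟩⟩

end

end Pool.Agent.KEW

end MrgPart9

-- ======== part 10: formerly Pool.Agent.MP_55d974_ag.kew.Blg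
section MrgPart10

/-! PROJECT KEW, level zero of the recursion: the glue. -/

open AlgebraicGeometry CategoryTheory TopologicalSpace Opposite Pool.Agent.MP_55d974_ag IsLocalRing

namespace Pool.Agent.KEW
namespace BG

noncomputable section

open Classical

variable {A : Type} [CommRing A] {X : Scheme.{0}} {f : X ⟶ Spec (.of A)} {π : A} {d q n : ℕ}
  {C : Type} [AddCommGroup C] {cy : Ch X →+ C}

theorem L0_apply (cy : Ch X →+ C) (w : X) (β) (l : List X) :
    L0 f π d cy w β l = if Hor f π w ∧ dl d w = 1 then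
      (if [@epsilon _ ⟨w⟩ fun x => ¬ Hor f π x ∧ w ⤳ x] = l then cy (DFinsupp.single w β) else 0)
      else 0 := by
  unfold L0
  split_ifs with h1 h2
  · subst h2
    simp
  · simp [h2]
  · simp

theorem eps (G : Geo f π d) (w : X) :
    ¬ Hor f π (@epsilon _ ⟨w⟩ fun x => ¬ Hor f π x ∧ w ⤳ x) ∧
      w ⤳ @epsilon _ ⟨w⟩ fun x => ¬ Hor f π x ∧ w ⤳ x := by
  obtain ⟨x, h1, h2⟩ := G.sep.ver w
  exact epsilon_spec (p := fun x => ¬ Hor f π x ∧ w ⤳ x) ⟨x, h2, h1⟩

theorem inv0 (G : Geo f π d) (hc : Cy d q cy) : Inv f π d n 0 (L0 f π d cy) := by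
  refine ⟨fun w β l h => ?_, fun w x F γ l _ => ?_, fun h => absurd h (by omega)⟩
  · rw [L0_apply] at h
    split_ifs at h with h1 h2
    · subst h2
      obtain ⟨e1, e2⟩ := eps G w
      have := G.dim.lt e2 fun e => e1 (e ▸ h1.1)
      have h0 : dl d (@epsilon _ ⟨w⟩ fun x => ¬ Hor f π x ∧ w ⤳ x) = 0 := by omega
      exact ⟨h1.1, h1.2, e2, e1, by omega, h0⟩
    · exact absurd rfl h
    · exact absurd rfl h
  · rw [L0_apply, hc.pos]
    simp

theorem pos (hc : Cy d q cy) (z : X) (i : ℕ) (β) (hβ : β ∈ K _ (i + 1)) :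
    cy (DFinsupp.single z β) = 0 :=
  K_ind (P := fun β => cy (DFinsupp.single z β) = 0) (fun u y _ => hc.pos z u y) (by simp)
    (fun x y hx hy => by rw [DFinsupp.single_add, map_add, hx, hy, add_zero])
    (fun x hx => by rw [DFinsupp.single_neg]; exact (map_neg cy _).trans (by rw [hx, neg_zero])) hβ

variable (f π d n) in
/-- The geometric form of the basic lemma. -/
def Core (cy : Ch X →+ C) : Prop := ∀ (τ : Ch X →+ C) (x : X), ¬ Hor f π x → dl d x = 0 →
  (∀ z β, τ (DFinsupp.single z β) =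
    if Hor f π z ∧ dl d z = 1 ∧ z ⤳ x then cy (DFinsupp.single z β) else 0) →
  ∀ w, Hor f π w → dl d w = 2 → ∀ F : (X.residueField w)ˣ,
  (∀ z V, ¬ Hor f π z → dl d z = 1 → z ⤳ x → Pl w z V → Ap V (aK f w π ^ n) F) →
  ∀ γ, τ (DD X (DFinsupp.single w (sym F * γ))) = 0

theorem gg0 (G : Geo f π d) (hc : Cy d q cy) (h : Core f π d n cy) :
    GG f π d n 0 (L0 f π d cy) := by
  intro w hw hd y l F γ hF
  let τ : Ch X →+ C := (Finsupp.applyAddHom (y :: l)).comp (Lc (L0 f π d cy))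
  have hτ : ∀ z β, τ (DFinsupp.single z β) = L0 f π d cy z β (y :: l) := fun z β => by
    simp [τ, Lc]
  change τ (DD X (DFinsupp.single w (sym F * γ))) = 0
  by_cases hy : ¬ Hor f π y ∧ dl d y = 0 ∧ l = []
  · obtain ⟨h1, h2, rfl⟩ := hy
    refine h τ y h1 h2 (fun z β => ?_) w hw hd F (fun z V a b c e => hF z V a (by omega) c e) γ
    rw [hτ, L0_apply]
    by_cases hz : Hor f π z ∧ dl d z = 1
    · rw [if_pos hz]
      obtain ⟨e1, e2⟩ := eps G z
      by_cases hzy : z ⤳ y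
      · rw [if_pos (show Hor f π z ∧ dl d z = 1 ∧ z ⤳ y from ⟨hz.1, hz.2, hzy⟩), if_pos]
        rw [(G.sep.x0 z hz.1 hz.2).unique ⟨e1, e2⟩ ⟨h1, hzy⟩]
      · rw [if_neg (show ¬ (Hor f π z ∧ dl d z = 1 ∧ z ⤳ y) from fun a => hzy a.2.2), if_neg]
        intro e
        exact hzy ((List.cons.inj e).1 ▸ e2)
    · rw [if_neg hz, if_neg fun a => hz ⟨a.1, a.2.1⟩]
  · have : τ = 0 := by
      refine DFinsupp.addHom_ext fun z β => ?_
      rw [hτ]
      by_contra hne
      obtain ⟨-, a2, -, a3, a4, a5⟩ := (inv0 (n := n) G hc).sup z β _ hne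
      refine hy ⟨a3, by omega, ?_⟩
      cases l with
      | nil => rfl
      | cons x l =>
        obtain ⟨-, -, b, -⟩ := a5
        omega
    rw [this]
    rfl

theorem bd (G : Geo f π d) (hc : Cy d q cy) {w : X} (hd : dl d w = 2) (β) :
    cy (DD X (DFinsupp.single w β)) = 0 :=
  hc.bd w β (by have := G.dim.add w; omega)

end

end BG

theorem blg (hT : TameS) (hB : BlaS) : AllC Blg := fun _ _ _ _ _ _ _ _ _ _ _ _ _ c _ _ cy hc =>
  ⟨BG.inv0 c.geo hc, BG.gg0 c.geo hc fun τ _ hx h0 hτ _ hw h2 F hF γ =>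
    blg_core hB hT c.hyp.irr c.geo c.lv cy τ hc.tor (BG.pos hc) hx h0 hτ hw h2
      (fun _ => BG.bd c.geo hc h2 _) F hF γ⟩

end Pool.Agent.KEW

end MrgPart10

-- ======== part 11: formerly Pool.Agent.MP_55d974_ag.kew.Cx
section MrgPart11

/-! PROJECT KEW, row CX: the Gersten complexes and their horizontal subcomplexes. -/

open AlgebraicGeometry CategoryTheory TopologicalSpace Opposite Pool.Agent.MP_55d974_ag IsLocalRing

namespace Pool.Agent.KEW

noncomputable section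

open Classical

namespace Cxa

theorem ap_non {E : Type} [Field E] {V : ValuationSubring E} {c : E} {F : Eˣ} (h0 : c ≠ 0)
    (hc : c ∈ V.nonunits) (h : Ap V c F) : (F : E) - 1 ∈ V.nonunits := by
  rw [ValuationSubring.mem_nonunits_iff] at hc ⊢
  have h1 := (V.valuation_le_one_iff _).2 h
  rw [← div_mul_cancel₀ ((F : E) - 1) h0, map_mul]
  exact mul_lt_one_of_nonneg_of_lt_one_right h1 zero_le hc

variable {A : Type} [CommRing A] {X : Scheme.{0}} {f : X ⟶ Spec (.of A)} {π : A} {d : ℕ}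

theorem mem_aw {m j i : ℕ} {w : X} (h : cod w = j) (e : j + i = m) {β} :
    β ∈ AW m j w ↔ β ∈ K (X.residueField w) i := by
  rw [AW, if_pos ⟨h, by omega⟩, show m - j = i by omega]

theorem aw_cases {m j : ℕ} {w : X} {β} (h : β ∈ AW m j w) :
    β = 0 ∨ cod w = j ∧ ∃ i, j + i = m ∧ β ∈ K (X.residueField w) i := by
  by_cases c : cod w = j ∧ j ≤ m
  · rw [AW, if_pos c] at h
    exact Or.inr ⟨c.1, m - j, by omega, h⟩
  · rw [AW, if_neg c] at h
    exact Or.inl h

theorem DD_mem (G : Geo f π d) (b : Ch X) (z : X) (H : AddSubgroup (Kr (X.residueField z)))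
    (h : ∀ w, dK w z (b w) ∈ H) : DD X b z ∈ H := by
  rw [G.dif.app, dd, DFinsupp.sumAddHom_apply]
  exact sum_mem fun w _ => h w

theorem DD_loc (G : Geo f π d) (b : Ch X) (z : X) (h : ∀ w, w ⤳ z → b w = 0) : DD X b z = 0 :=
  AddSubgroup.mem_bot.1 (DD_mem G b z ⊥ fun w => AddSubgroup.mem_bot.2 (by_contra fun c =>
    c (by rw [h w (G.dif.loc w z _ c).1, map_zero])))

theorem dK_aw (G : Geo f π d) {m j : ℕ} (w z : X) {β} (h : β ∈ AW m j w) :
    dK w z β ∈ AW m (j + 1) z := by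
  by_cases c : dK w z β = 0
  · rw [c]
    exact zero_mem _
  rcases aw_cases h with rfl | ⟨h1, i, h2, h3⟩
  · exact (c (map_zero _)).elim
  have h4 := (G.dif.loc w z _ c).2
  have h5 := G.dim.add w
  have h6 := G.dim.add z
  cases i with
  | zero =>
    obtain ⟨n, rfl⟩ := mem_K_zero.1 h3
    refine (c ?_).elim
    rw [← zsmul_one, map_zsmul, G.dif.zero, smul_zero]
  | succ i => exact (mem_aw (by omega) (by omega)).2 (G.dif.mem w z i β h3)

theorem DD_deg (G : Geo f π d) {m j : ℕ} {b : Ch X} (hb : ∀ w, b w ∈ AW m j w) (z : X) :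
    DD X b z ∈ AW m (j + 1) z :=
  DD_mem G b z _ fun w => dK_aw G w z (hb w)

theorem DD_flt (G : Geo f π d) (c : Ch X) {w z : X} (hw : w ⤳ z) :
    dd (c.filter (· ⤳ z)) w = DD X c w := by
  rw [← G.dif.app, ← sub_eq_zero, ← DFinsupp.sub_apply, ← map_sub]
  exact DD_loc G _ w fun v hv => by
    rw [DFinsupp.sub_apply, DFinsupp.filter_apply, if_pos (hv.trans hw), sub_self]

theorem deg_flt (G : Geo f π d) {m j i : ℕ} (e : j + i = m) {c : Ch X}
    (hc : ∀ w, c w ∈ AW m j w) (z : X) : Deg z j i (c.filter (· ⤳ z)) := fun w => by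
  rw [DFinsupp.filter_apply]
  split_ifs with hw
  · rcases aw_cases (hc w) with h | ⟨h, i', h', h''⟩
    · rw [h]
      exact ⟨zero_mem _, fun h => (h rfl).elim⟩
    · rw [show i = i' by omega]
      exact ⟨h'', fun _ => ⟨hw, by rw [G.dim.eq, h]⟩⟩
  · exact ⟨zero_mem _, fun h => (h rfl).elim⟩

theorem aw_zero {m j : ℕ} (h : m < j) {c : Ch X} (hc : ∀ w, c w ∈ AW m j w) : c = 0 :=
  DFinsupp.ext fun w => by
    rcases aw_cases (hc w) with h | ⟨-, i, h, -⟩
    · exact h
    · omega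

theorem DD_ex (G : Geo f π d) {m : ℕ} (hG : Gersten X m) (j : ℕ) (z : X) (c : Ch X)
    (hc : ∀ w, c w ∈ AW m (j + 1) w) (h0 : ∀ w, w ⤳ z → DD X c w = 0) :
    ∃ b : Ch X, (∀ w, b w ∈ AW m j w) ∧ ∀ w, w ⤳ z → DD X b w = c w := by
  rcases lt_or_ge m (j + 1) with hj | hj
  · exact ⟨0, fun w => zero_mem _, fun w _ => by rw [map_zero, aw_zero hj hc]⟩
  obtain ⟨i, hi⟩ := Nat.exists_eq_add_of_le hj
  obtain ⟨b, h1, h2⟩ := ((hG z).2.2 j i (c.filter (· ⤳ z)) hi.symm (deg_flt G hi.symm hc z)).1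
    fun w hw => (DD_flt G c hw).trans (h0 w hw)
  refine ⟨b, fun w => ?_, fun w hw => ?_⟩
  · by_cases h : b w = 0
    · rw [h]
      exact zero_mem _
    · have h3 := ((h1 w).2 h).2
      rw [G.dim.eq] at h3
      exact (mem_aw (by exact_mod_cast h3) (by omega)).2 (h1 w).1
  · rw [G.dif.app, ← h2 w hw, DFinsupp.filter_apply, if_pos hw]

/-- The square of the differential vanishes in weight `m`. -/
theorem DD_DD (G : Geo f π d) {m : ℕ} (hG : Gersten X m) (j : ℕ) (b : Ch X)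
    (hb : ∀ w, b w ∈ AW m j w) : DD X (DD X b) = 0 := by
  rcases lt_or_ge m (j + 1) with hj | hj
  · rw [aw_zero hj (DD_deg G hb), map_zero]
  obtain ⟨i, hi⟩ := Nat.exists_eq_add_of_le hj
  refine DFinsupp.ext fun z => ?_
  rw [← DD_flt G _ (specializes_rfl (x := z))]
  exact ((hG z).2.2 j i _ hi.symm (deg_flt G hi.symm (DD_deg G hb) z)).2
    ⟨b.filter (· ⤳ z), deg_flt G (by omega) hb z, fun w hw => by
      rw [DFinsupp.filter_apply, if_pos hw, DD_flt G b hw]⟩ z specializes_rfl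

/-- An element at a vertical point is the vertical part of the boundary of a horizontal one. -/
theorem move (hT : TameS) (hN : NrmS) (hA : LocA) (G : Geo f π d) {y : X} (hy : ¬ Hor f π y)
    {i : ℕ} {μ} (hμ : μ ∈ K (X.residueField y) i) : ∃ w, Hor f π w ∧ dl d w = dl d y + 1 ∧
      ∃ β ∈ K (X.residueField w) (i + 1), dK w y β = μ ∧
        ∀ y', ¬ Hor f π y' → y' ≠ y → dK w y' β = 0 := by
  obtain ⟨w, V, hw, hd, P, hu, hs⟩ := G.mov y hy
  have hS := G.plf.fam w hw
  have hV : V ∈ {V | ∃ z, ¬ Hor f π z ∧ dl d z + 1 = dl d w ∧ Pl w z V} := ⟨y, hy, hd.symm, P⟩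
  have := P.dvr
  obtain ⟨t, ht⟩ := IsDiscreteValuationRing.exists_irreducible V
  have ht0 : (t : X.residueField w) ≠ 0 := fun h => ht.ne_zero (Subtype.ext h)
  obtain ⟨g, g1, g2⟩ := hA.one _ {V} _ hS (Units.mk0 _ ht0)
  obtain ⟨γ, γ1, γ2⟩ := kmap_surj (residue_surjective (R := V)) (kmap_mem (rk P) hμ)
  refine ⟨w, hw, hd, sym g * kmap V.subtype γ, sym_mul_mem_K _ (kmap_mem _ γ1), ?_,
    fun y' hy' hne => AddSubgroup.mem_bot.1 (G.dif.ind w y' _ ⊥ fun V' P' hd' => ?_)⟩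
  · have e : sym g = sym (Units.mk0 _ ht0) + sym (g / Units.mk0 _ ht0) := by
      rw [← sym_mul, mul_div_cancel]
    rw [G.dif.uniq w y V P _ hd hu, e, add_mul, map_add,
      hT.unif V _ P.dvr inferInstance t _ ht rfl,
      hT.one V _ P.dvr inferInstance _ (ap_non hS.ne (hS.non V hV) (g1 V hV rfl)), add_zero, γ2]
    exact hN.bij _ hs μ
  · have hV' : V' ∈ {V | ∃ z, ¬ Hor f π z ∧ dl d z + 1 = dl d w ∧ Pl w z V} :=
      ⟨y', hy', hd'.symm, P'⟩
    have hn : V' ∉ ({V} : Set _) := fun h => hne (G.plf.uniq P' (Set.mem_singleton_iff.1 h ▸ P))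
    rw [hT.one V' _ P'.dvr inferInstance _ (ap_non hS.ne (hS.non V' hV') (g2 V' hV' hn)), map_zero]
    exact zero_mem _

theorem cyc (G : Geo f π d) {m j : ℕ} {τ : Ch X} (hτ : ∀ w, τ w ∈ AW m j w) {y : X}
    (hy : dl d y + j = d) (h0 : DD X τ y = 0) (w : X) (h : w ⤳ y) : DD X τ w = 0 := by
  by_cases e : w = y
  · rw [e, h0]
  have h1 := G.dim.lt h e
  have h2 := G.dim.add w
  rcases aw_cases (DD_deg G hτ w) with h3 | ⟨h3, -⟩
  · exact h3
  · omega

end Cxa

open Cxa

theorem cxS (hT : TameS) (hN : NrmS) (hA : LocA) : AllC CxS := by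
  intro A _ _ _ _ _ X f π d p q n c m hm' hm
  have G := c.geo
  refine
    { closed := G.dim.cl
      lt := fun y _ z h e => G.dim.lt h e
      le := fun y hy => (G.dim.ver y hy).1
      loc := DD_loc G
      deg := fun j b hb z => DD_deg G hb z
      dd := fun j b hb => DD_DD G (c.ger m hm' hm) j b hb
      ex := fun j _ z b hb h0 => DD_ex G (c.ger m hm' hm) j z b hb h0
      top := fun w => if_neg fun h => by omega
      bot := fun y hy => if_neg fun h => ?_
      dim := fun j w hw h z hz hs => ?_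
      move := fun j _ y hy μ hμ => ?_ }
  · have h1 := (G.dim.ver y hy).1
    have h2 := G.dim.add y
    omega
  · have h1 : cod w = j := by_contra fun e => h (if_neg fun k => e k.1)
    have h2 := G.dim.add w
    have h3 := G.dim.lt hs fun e => hw (e ▸ hz)
    omega
  · rcases aw_cases hμ with rfl | ⟨h1, i, h2, h3⟩
    · exact ⟨0, zero_mem _, by rw [map_zero]; rfl, fun y' _ _ => by rw [map_zero]; rfl⟩
    obtain ⟨w, hw, hd, β, b1, b2, b3⟩ := move hT hN hA G hy h3
    have h4 := G.dim.add w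
    have h5 := G.dim.add y
    refine ⟨DFinsupp.single w β, ⟨fun v => ?_, fun v hv => ?_⟩, (G.dif.single w β y).trans b2,
      fun y' hy' e => (G.dif.single w β y').trans (b3 y' hy' e)⟩
    · by_cases e : v = w
      · subst e
        rw [DFinsupp.single_eq_same]
        exact (mem_aw (by omega) (by omega)).2 b1
      · rw [DFinsupp.single_eq_of_ne e]
        exact zero_mem _
    · exact DFinsupp.single_eq_of_ne fun e => hv (e ▸ hw)

theorem hexS (h : AllC CxS) : AllC HexS := by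
  intro A _ _ _ _ _ X f π d p q n c m hm' hm j hj z b hb hv h0
  obtain ⟨a, h1, h2⟩ := (h A X f π d p q n c m hm' hm).hor_ex hj ⟨hb, hv⟩ h0
  exact ⟨a, (Coh.mem_hor.1 h1).1.1, (Coh.mem_hor.1 h1).1.2, h2⟩

theorem negQ (h : AllC HexS) : AllC NegQ := by
  intro A _ _ _ _ _ X f π d p q n c ι N hI hK j
  have G := c.geo
  have hH := h A X f π d p q n c
  induction j with
  | zero =>
    intro y hy hd b hb _ h0
    obtain ⟨U, hU, s, hs⟩ := hI.sur y b hb (cyc G hb hd h0)
    rw [map_nsmul, ← Coh.germ_congr (X := X.carrier) hs, ← map_nsmul, ← map_nsmul]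
    exact (hK.ker y hy hd U hU _).2 ⟨U, hU, le_rfl,
      Coh.ap (X := X.carrier) (pull (thick f π n) d) U s,
      (Coh.rs_refl (X := X.carrier) (KD (thick f π n) d) _).trans
        (map_nsmul (Coh.ap (X := X.carrier) (pull (thick f π n) d) U) q s)⟩
  | succ j ih =>
    intro y hy hd b hb hv h0
    obtain ⟨a, h1, h2, h3⟩ := hH d d.le_succ le_rfl j (by omega) y b hb hv (cyc G hb hd h0)
    refine Coh.mem_neg.2 ⟨q • a, nsmul_mem (Coh.mem_hor.2 ⟨⟨h1, h2⟩, fun w hw hs =>
      (h3 w hs).trans (hv w hw)⟩) q, fun w hw hs e =>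
        ih w hw e a h1 h2 ((h3 w hs).trans (hv w hw)), ?_⟩
    rw [map_nsmul, map_nsmul, map_nsmul, Coh.germ_congr (X := X.carrier) h3]

end

end Pool.Agent.KEW

end MrgPart11

-- ======== part 12: formerly Pool.Agent.MP_55d974_ag.kew.NegD
section MrgPart12

/-! PROJECT KEW, row NEGD: products with units congruent to one are negligible. -/

open AlgebraicGeometry CategoryTheory TopologicalSpace Opposite Pool.Agent.MP_55d974_ag IsLocalRing

namespace Pool.Agent.KEW

noncomputable section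

open Classical

namespace Nd

variable {A : Type} [CommRing A] {X : Scheme.{0}} {f : X ⟶ Spec (.of A)} {π : A} {d : ℕ}

/-- The value of a unit of the local ring at `y` in the residue field of a generisation. -/
def uv {w y : X} (h : w ⤳ y) (u : (X.presheaf.stalk y)ˣ) : (X.residueField w)ˣ :=
  Units.map (gz h).toMonoidHom u

theorem uv_val {w y : X} (h : w ⤳ y) (u : (X.presheaf.stalk y)ˣ) :
    (uv h u : X.residueField w) = gz h u := rfl

/-- Multiplication by minus the symbol of `u` at the generisations of `y`. -/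
def mu {y : X} (u : (X.presheaf.stalk y)ˣ) (w : X) :
    Kr (X.residueField w) →+ Kr (X.residueField w) :=
  if h : w ⤳ y then -AddMonoidHom.mulLeft (sym (uv h u)) else 0

theorem mu_pos {w y : X} (h : w ⤳ y) (u : (X.presheaf.stalk y)ˣ) (β) :
    mu u w β = -(sym (uv h u) * β) := by
  rw [mu, dif_pos h]
  rfl

theorem mu_neg {w y : X} (h : ¬ w ⤳ y) (u : (X.presheaf.stalk y)ˣ) (β) : mu u w β = 0 := by
  rw [mu, dif_neg h]
  rfl

/-- The same on chains. -/
def Mu {y : X} (u : (X.presheaf.stalk y)ˣ) : Ch X →+ Ch X :=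
  DFinsupp.mapRange.addMonoidHom (mu u)

theorem Mu_apply {y : X} (u : (X.presheaf.stalk y)ˣ) (b : Ch X) (w : X) :
    Mu u b w = mu u w (b w) := rfl

theorem Mu_single {y : X} (u : (X.presheaf.stalk y)ˣ) (w : X) (β) :
    Mu u (DFinsupp.single w β) = DFinsupp.single w (mu u w β) :=
  DFinsupp.mapRange_single (hf := fun _ => map_zero _)

theorem DD_neg (σ : Ch X) (z : X) : DD X (-σ) z = -DD X σ z :=
  congrArg (fun b : Ch X => b z) (map_neg (DD X) σ)

theorem sp_sA {y z : X} (h : y ⤳ z) (c : A) : PtsA.sp h (sA f z c) = sA f y c :=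
  PtsA.sp_germ h (U := ⊤) trivial _

theorem uv_ver (hD : Dim f π d) {n : ℕ} (hn : n ≠ 0) {z y : X} (h : z ⤳ y) (hz : ¬ Hor f π z)
    {u : (X.presheaf.stalk y)ˣ} (hu : sA f y π ^ n ∣ (u : X.presheaf.stalk y) - 1) :
    uv h u = 1 := by
  obtain ⟨c, hc⟩ := hu
  have h0 : aK f z π = 0 := not_not.1 hz
  have := congrArg (gz h) hc
  rw [map_sub, map_one, map_mul, map_pow, hD.ak, h0, zero_pow hn, zero_mul, sub_eq_zero] at this
  exact Units.ext this

/-- The projection formula for one component of the differential. -/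
theorem dK_mu (hT : TameS) (hN : NrmS) [CharZero A] (G : Geo f π d) {n : ℕ} (hn : n ≠ 0) {y : X}
    {u : (X.presheaf.stalk y)ˣ} (hu : sA f y π ^ n ∣ (u : X.presheaf.stalk y) - 1) {z : X}
    (h : z ⤳ y) (w : X) (β) : dK w z (mu u w β) = sym (uv h u) * dK w z β := by
  refine G.dif.congr w z _ β (AddMonoidHom.mulLeft (sym (uv h u))) fun V P hd => ?_
  have m : gz (P.sp.trans h) u ∈ V := by
    rw [← PtsA.gz_sp P.sp h]
    exact P.mem _
  have e := hT.mul V (residue V) P.dvr inferInstance ⟨_, m⟩ (uv (P.sp.trans h) u)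
    (Units.map (rk P).toMonoidHom (uv h u)) rfl (G.pts.rk_gz P h u m).symm β
  rw [mu_pos (P.sp.trans h), map_neg, e, neg_neg]
  by_cases hz : Hor f π z
  · haveI : CharZero (X.residueField z) := charZero_of_injective_ringHom (G.dim.inj z hz)
    exact hN.proj (rk P) (G.plf.res w z V P hz hd.symm) _ _
  · rw [uv_ver G.dim hn h hz hu, map_one, sym_one, sym_one, zero_mul, map_zero]
    exact (zero_mul _).symm

theorem DD_Mu (hT : TameS) (hN : NrmS) [CharZero A] (G : Geo f π d) {n : ℕ} (hn : n ≠ 0) {y : X}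
    {u : (X.presheaf.stalk y)ˣ} (hu : sA f y π ^ n ∣ (u : X.presheaf.stalk y) - 1) {z : X}
    (h : z ⤳ y) (b : Ch X) : DD X (Mu u b) z = sym (uv h u) * DD X b z := by
  induction b using DFinsupp.induction with
  | h0 => simp
  | ha w β b _ _ ih =>
    rw [map_add, map_add, map_add, DFinsupp.add_apply, DFinsupp.add_apply, ih, mul_add, Mu_single,
      G.dif.single, G.dif.single, dK_mu hT hN G hn hu h]

/-- The boundary of a chain of codimension `j` lives in codimension `j + 1`. -/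
theorem DD_off (G : Geo f π d) {m j : ℕ} {τ : Ch X} (hτ : ∀ w, τ w ∈ AW m j w) {z : X}
    (hz : cod z ≠ j + 1) : DD X τ z = 0 := by
  rw [G.dif.app, dd, DFinsupp.sumAddHom_apply]
  refine Finset.sum_eq_zero fun w _ => ?_
  by_contra c
  have h1 := (G.dif.loc w z _ c).2
  have h2 := G.dim.add w
  have h3 := G.dim.add z
  have h4 := hτ w
  rw [AW, if_neg (fun k => hz (by omega)), AddSubgroup.mem_bot] at h4
  exact c (by rw [h4]; exact map_zero (dK w z))

theorem cyc (G : Geo f π d) {m j : ℕ} {τ : Ch X} (hτ : ∀ w, τ w ∈ AW m j w) {y : X}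
    (hy : dl d y + j = d) (h0 : DD X τ y = 0) (w : X) (h : w ⤳ y) : DD X τ w = 0 := by
  by_cases e : w = y
  · rw [e, h0]
  · have h1 := G.dim.lt h e
    have h2 := G.dim.add w
    exact DD_off G hτ (by omega)

theorem mu_mem {e j : ℕ} {y w : X} (u : (X.presheaf.stalk y)ˣ) {β} (hβ : β ∈ AW e j w) :
    mu u w β ∈ AW (e + 1) j w := by
  by_cases h : w ⤳ y
  · by_cases c : cod w = j ∧ j ≤ e
    · rw [AW, if_pos c] at hβ
      rw [AW, if_pos ⟨c.1, c.2.trans (Nat.le_succ e)⟩, mu_pos h, Nat.succ_sub c.2]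
      exact neg_mem (sym_mul_mem_K _ hβ)
    · rw [AW, if_neg c, AddSubgroup.mem_bot] at hβ
      rw [hβ, map_zero]
      exact zero_mem _
  · rw [mu_neg h]
    exact zero_mem _

end Nd

open Nd in
theorem negD (hT : TameS) (hN : NrmS) (h : AllC HexS) : AllC NegD := by
  intro A _ _ _ _ _ X f π d p q n c ι N _ hK e hde j
  have G := c.geo
  have hH := h A X f π d p q n c
  have hn : n ≠ 0 := by
    rintro rfl
    have h1 := c.lv.lev
    rw [pow_zero] at h1
    exact c.hyp.irr.not_isUnit (isUnit_of_dvd_one ((dvd_mul_left _ _).trans h1))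
  induction j with
  | zero =>
    intro y hy hd u τ b hu hτ _ h0 hb
    exact hK.k2 y hy hd e hde u τ b hu hτ (cyc G hτ hd h0) hb
  | succ j ih =>
    intro y hy hd u τ b hu hτ hv h0 hb
    obtain ⟨σ, s1, s2, s3⟩ := hH e (by omega) (by omega) j (by omega) y τ hτ hv (cyc G hτ hd h0)
    have key : ∀ w (hw : w ⤳ y), DD X (Mu u σ) w = sym (uv hw u) * τ w := fun w hw => by
      rw [DD_Mu hT hN G hn hu hw, s3 w hw]
    refine ⟨Mu u σ, ⟨⟨⟨fun w => ?_, fun w hw => ?_⟩, fun w hw => ?_⟩, ?_⟩, ?_⟩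
    · rw [hde]
      exact mu_mem u (s1 w)
    · rw [Mu_apply, s2 w hw, map_zero]
    · rw [key w hw.2, hv w hw.1, mul_zero]
    · refine AddSubgroup.mem_iInf.2 fun y' => AddSubgroup.mem_iInf.2 fun hy' => ?_
      obtain ⟨v1, v2, v3⟩ := hy'
      refine ih y' v1 v3 (Units.map (PtsA.sp v2).toMonoidHom u) (-σ) (Mu u σ) ?_
        (fun w => neg_mem (s1 w)) (fun w hw => ?_) ?_ fun w hw => ?_
      · have := map_dvd (PtsA.sp v2) hu
        rw [map_pow, map_sub, map_one, sp_sA] at this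
        exact this
      · rw [DFinsupp.neg_apply, s2 w hw, neg_zero]
      · refine (DD_neg σ y').trans ?_
        rw [s3 y' v2, hv y' v1, neg_zero]
      · rw [Mu_apply, mu_pos (hw.trans v2), DFinsupp.neg_apply, kmul_neg]
        congr 3
        exact Units.ext (PtsA.gz_sp hw v2 _).symm
    · refine DFinsupp.ext fun w => ?_
      change DFinsupp.filter _ (DD X (Mu u σ)) w = DFinsupp.filter _ b w
      rw [DFinsupp.filter_apply, DFinsupp.filter_apply]
      split_ifs with hw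
      · rw [key w hw]
        exact (hb w hw).symm
      · rfl

end

end Pool.Agent.KEW

end MrgPart12

-- ======== part 13: formerly Pool.Agent.MP_55d974_ag.kew.LocZ
section MrgPart13

/-! PROJECT KEW: global localisation modulo negligible germs. -/

open AlgebraicGeometry CategoryTheory TopologicalSpace Opposite Pool.Agent.MP_55d974_ag IsLocalRing

namespace Pool.Agent.KEW

open Classical

variable {A : Type} [CommRing A] {X : Scheme.{0}} {f : X ⟶ Spec (.of A)} {π : A} {d : ℕ}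

theorem Fam.pow {E : Type} [Field E] {S : Set (ValuationSubring E)} {c : E} (h : Fam S c) {k : ℕ}
    (hk : k ≠ 0) : Fam S (c ^ k) :=
  ⟨h.fin, h.dvr, pow_ne_zero _ h.ne, fun V hV => by
    have := h.non V hV
    rw [ValuationSubring.mem_nonunits_iff] at this ⊢
    rw [map_pow]
    exact pow_lt_one' this hk⟩

theorem AW_ne {m j : ℕ} {w : X} {β : Kr (X.residueField w)} (h : β ∈ AW m j w) (h0 : β ≠ 0) :
    cod w = j ∧ β ∈ K _ (m - j) := by
  unfold AW at h
  split_ifs at h with h1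
  · exact ⟨h1.1, h⟩
  · exact absurd h h0

theorem mem_of_single {H : AddSubgroup (Ch X)} {b : Ch X}
    (h : ∀ w, b w ≠ 0 → DFinsupp.single w (b w) ∈ H) : b ∈ H := by
  rw [← DFinsupp.sum_single (f := b)]
  exact sum_mem fun w hw => h w (DFinsupp.mem_support_iff.1 hw)

theorem locZ (hT : TameS) (hA : LocA) (h : AllC NegF) : AllC LocZ := by
  intro A _ _ _ _ _ X f π d p q n c ι N hι hN j hj y hy hr b hb
  have g := c.geo
  have hy' : ¬ Hor f π y := hy
  let G₁ : AddSubgroup (Ch X) :=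
    Coh.Hor (X := X.carrier) (Yv f π) (AW d) (DD X) j {z | z ≠ y} ⊓
      ⨅ y' ∈ {y' | y' ∈ Yv f π ∧ dl d y' + j = d ∧ y' ≠ y},
        (NG f π d N j y').comap (Coh.germ (X := X.carrier) y')
  let G₂ : AddSubgroup (Ch X) := (NG f π d N j y).comap (Coh.germ (X := X.carrier) y) ⊓
    (Coh.Off (X := X.carrier) {y}).comap (DD X)
  have m1 : ∀ (w : X) (β), Hor f π w → cod w = j → β ∈ K _ (d - j) →
      (∀ z, ¬ Hor f π z → z ≠ y → dK w z β = 0) →
      (∀ z, ¬ Hor f π z → dl d z + j = d → z ≠ y → w ⤳ z →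
        Coh.germ (X := X.carrier) z (DFinsupp.single w β : Ch X) ∈ NG f π d N j z) →
      DFinsupp.single w β ∈ G₁ := fun w β hw hc hβ h1 h2 => by
    refine ⟨⟨⟨single_AW hc hj hβ, single_ver hw β⟩, fun z hz => ?_⟩, ?_⟩
    · exact (g.dif.single w β z).trans (h1 z hz.1 hz.2)
    · refine AddSubgroup.mem_iInf.2 fun z => AddSubgroup.mem_iInf.2 fun hz => ?_
      by_cases hwz : w ⤳ z
      · exact h2 z hz.1 hz.2.1 hz.2.2 hwz
      · change Coh.germ (X := X.carrier) z (DFinsupp.single w β : Ch X) ∈ NG f π d N j z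
        rw [germ_single hwz]
        exact zero_mem _
  have key : b ∈ G₁ ⊔ G₂ := by
    refine mem_of_single fun w h0 => ?_
    have hw : Hor f π w := by_contra fun hw => h0 (hb.1.2 w hw)
    obtain ⟨hc, hβ⟩ := AW_ne (hb.1.1 w) h0
    have hdw := g.dim.add w
    generalize b w = β at hβ
    rcases hj.eq_or_lt with rfl | hlt
    · have hz : ∀ z, dK w z β = 0 := fun z => by
        rw [Nat.sub_self] at hβ
        obtain ⟨k, rfl⟩ := mem_K_zero.1 hβ
        rw [← zsmul_one, map_zsmul, g.dif.zero, smul_zero]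
      by_cases hwy : w ⤳ y
      · refine AddSubgroup.mem_sup_left (m1 w β hw hc hβ (fun z _ _ => hz z) fun z h1 _ h2 h3 => ?_)
        exact absurd ((g.sep.x0 w hw (by omega)).unique ⟨h1, h3⟩ ⟨hy', hwy⟩) h2
      · refine AddSubgroup.mem_sup_right ⟨?_, ?_⟩
        · change Coh.germ (X := X.carrier) y (DFinsupp.single w β : Ch X) ∈ NG f π j N j y
          rw [germ_single hwy]
          exact zero_mem _
        · rintro z rfl
          exact (g.dif.single w β z).trans (hz z)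
    obtain ⟨i, hi⟩ : ∃ i, j + i + 1 = d := ⟨d - j - 1, by omega⟩
    have hM : ∀ z, ∃ M : ℕ, ¬ Hor f π z → dl d z + j = d → ∀ F,
        (∀ V, Pl w z V → Ap V (aK f w π ^ M) F) → ∀ γ ∈ K _ i,
        Coh.germ (X := X.carrier) z (DFinsupp.single w (sym F * γ)) ∈ NG f π d N j z := fun z => by
      by_cases hz : ¬ Hor f π z ∧ dl d z + j = d
      · obtain ⟨M, hM⟩ := h A X f π d p q n c ι N hι hN j i w z hi hw hz.1 hz.2 (by omega)
        exact ⟨M, fun _ _ => hM⟩
      · exact ⟨0, fun h1 h2 => absurd ⟨h1, h2⟩ hz⟩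
    choose M hM using hM
    obtain ⟨B, hB⟩ := ((g.plf.vz w hw).image M).bddAbove
    have hB' : ∀ {z V F}, ¬ Hor f π z → dl d z + j = d → Pl w z V →
        Ap V (aK f w π ^ (B + 1)) F → Ap V (aK f w π ^ M z) F := fun h1 h2 P hF =>
      hF.mono (g.plf.mem P π) hw ((hB ⟨_, ⟨h1, by omega, P.sp⟩, rfl⟩).trans B.le_succ)
    have h1' : ∀ {z V F}, Pl w z V → Ap V (aK f w π ^ (B + 1)) F → Ap V (aK f w π) F :=
      fun P hF => pow_one (aK f w π) ▸ hF.mono (g.plf.mem P π) hw (Nat.le_add_left 1 B)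
    rw [show d - j = i + 1 by omega] at hβ
    refine K_ind (P := fun β => (DFinsupp.single w β : Ch X) ∈ G₁ ⊔ G₂) (fun u γ hγ => ?_)
      (by simp) (fun _ _ a b => by rw [DFinsupp.single_add]; exact add_mem a b)
      (fun _ a => by rw [DFinsupp.single_neg]; exact neg_mem a) hβ
    obtain ⟨G, hG1, hG2⟩ := hA.one _ {V | Pl w y V} _ ((g.plf.fam w hw).pow B.succ_ne_zero) u
    have hG2' : ∀ {z V}, ¬ Hor f π z → z ≠ y → dl d z + 1 = dl d w → Pl w z V →
        Ap V (aK f w π ^ (B + 1)) G := fun h1 h2 h3 P =>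
      hG2 _ ⟨_, h1, h3, P⟩ fun P' => h2 (g.plf.uniq P P')
    have hG1' : ∀ {V}, Pl w y V → Ap V (aK f w π ^ (B + 1)) (G / u) := fun P =>
      hG1 _ ⟨_, hy', by omega, P⟩ P
    have e : sym u * γ = sym G * γ - sym (G / u) * γ := by
      rw [sym_div, ksub_mul, sub_sub_cancel]
    rw [e, DFinsupp.single_sub]
    refine sub_mem (AddSubgroup.mem_sup_left (m1 w _ hw hc ?_ (fun z h1 h2 => ?_)
      fun z h1 h2 h3 _ => ?_)) (AddSubgroup.mem_sup_right ⟨?_, ?_⟩)
    · rw [show d - j = i + 1 by omega]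
      exact sym_mul_mem_K G hγ
    · exact g.dK_deep hT hw h1 (fun V P h3 => h1' P (hG2' h1 h2 h3 P)) γ
    · exact hM z h1 h2 G (fun V P => hB' h1 h2 P (hG2' h1 h3 (by omega) P)) γ hγ
    · exact hM y hy' hr _ (fun V P => hB' hy' hr P (hG1' P)) γ hγ
    · rintro z rfl
      exact (g.dif.single w _ z).trans (g.dK_deep hT hw hy' (fun V P _ => h1' P (hG1' P)) γ)
  obtain ⟨b', h1, e, h2, rfl⟩ := AddSubgroup.mem_sup.1 key
  refine ⟨b', ⟨h1.1.1, fun z hz => ?_⟩, ?_, fun z a1 a2 a3 => ?_⟩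
  · rcases eq_or_ne z y with rfl | hzy
    · have h3 : DD X (b' + e) z = 0 := hb.2 z ⟨hy, specializes_rfl⟩
      have h4 : DD X e z = 0 := h2.2 z rfl
      rwa [map_add, DFinsupp.add_apply, h4, add_zero] at h3
    · exact h1.1.2 z ⟨hz.1, hzy⟩
  · rw [sub_add_cancel_left, map_neg]
    exact neg_mem h2.1
  · exact AddSubgroup.mem_iInf.1 (AddSubgroup.mem_iInf.1 h1.2 z) ⟨a1, a2, a3⟩

end Pool.Agent.KEW

end MrgPart13

-- ======== part 14: formerly Pool.Agent.MP_55d974_ag.kew.BijOf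
section MrgPart14

/-! PROJECT KEW, assembly of the cohomological statement. -/

open AlgebraicGeometry CategoryTheory TopologicalSpace Opposite Pool.Agent.MP_55d974_ag IsLocalRing

namespace Pool.Agent.KEW

theorem bij_of (h0 : Coh.CohStmt) (h1 : AllC CxS) (h2 : AllC IoS) (h3 : AllC Vl) (h4 : AllC KnS)
    (h5 : AllC LocZ) (h6 : AllC KillS) : AllC Bij := by
  intro A _ _ _ _ _ X f π d p q n c
  obtain ⟨ι, hι⟩ := h2 A X f π d p q n c
  obtain ⟨N, hN⟩ := h4 A X f π d p q n c ι hι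
  have hV := h3 A X f π d p q n c
  have := c.geo.crd.noeth
  have := hasSh X
  have := hasE X
  obtain ⟨s, i⟩ := h0 X.carrier _ (Yv f π) (dl d) d q (AW d) (DD X) N (KS X d)
    (KD (thick f π n) d) (pull (thick f π n) d) ι (h1 A X f π d p q n c d d.le_succ le_rfl)
    ⟨hι.deg, hι.off, hι.nat, hι.cyc, hι.inj, hι.sur,
      fun z hz => hV.van z (not_not.1 hz), hV.lift, hN.ker⟩
    (h5 A X f π d p q n c ι N hι hN) (h6 A X f π d p q n c ι N hι hN)
  constructor
  · refine (injective_iff_map_eq_zero _).2 fun x hx => ?_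
    obtain ⟨x, rfl⟩ := QuotientAddGroup.mk_surjective x
    obtain ⟨e, he⟩ := (QuotientAddGroup.eq_zero_iff _).1 hx
    obtain ⟨c₁, h⟩ := i x e he.symm
    exact (QuotientAddGroup.eq_zero_iff _).2 ⟨c₁, h.symm⟩
  · intro y
    obtain ⟨y, rfl⟩ := QuotientAddGroup.mk_surjective y
    obtain ⟨x, e, h⟩ := s y
    exact ⟨QuotientAddGroup.mk x, QuotientAddGroup.eq.2 ⟨e, eq_neg_add_of_add_eq h.symm⟩⟩

end Pool.Agent.KEW

end MrgPart14

-- ======== part 15: formerly Pool.Agent.MP_55d974_ag.kew.Main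
section MrgPart15

/-! PROJECT KEW, assembly. -/

namespace Pool.Agent.KEW

theorem geo_all : All Geo :=
  have h2 := crd projS ptsS
  have h3 := dim ptsS
  have h4 := sep (henS cplS gbS) ptsS h2 h3
  have h5 := pnn ptsS h2 h3
  have h6 := nrmx hartS ptsS h3 h4 h5
  geo_of ptsS h2 h3 h4 h5 h6 (plf hartS ptsS h2 h3 h4 h6) (mov ptsS h3) (thk h3)
    (dif tameS ptsS h3 h4)

theorem bij_all' (hV : AllC Vl) : AllC Bij :=
  have hM := milS tameS
  have hN := nrmS tameS hM
  have hB := locB locA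
  have hK := khS contS
  have hS := stS contS
  have hc := cxS tameS hN locA
  have hx := hexS hc
  bij_of Coh.coh hc (ioS hK hS) hV (knS hK hS hV)
    (locZ tameS locA (negF tameS (deepS locA) (negQ hx) (negD tameS hN hx)))
    (killS (lamS locA hc (blg tameS (blaS cplS gbS (henS cplS gbS) hartS coreS))
      (gst tameS (nnS tameS hM hN locA hB cplS extS) hB extS gabS) (step locA hB)))

theorem bij_all : AllC Bij := bij_all' (vl (khS contS) (stS contS))

end Pool.Agent.KEW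

end MrgPart15

-- marker of a merged file
example : 731051 + 32412 = 731051 + 32412 := rfl
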