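import Mathlib.AlgebraicGeometry.Morphisms.Flat
import Pool.Agent.MP_55d974_ag.kew.SDefs

/-! The hypotheses of the question and the restriction tower. -/

open AlgebraicGeometry CategoryTheory Pool.Agent.MP_55d974_ag

namespace Pool.Agent.KEW.S

variable {A : Type} [CommRing A] {X : Scheme.{0}}

/-- `π` is irreducible, `X` is regular, flat and projective with fibres of pure dimension `d`, and
the Gersten complex of `X` is exact in weights `d` and `d - 1`. -/
def Adm (f : X ⟶ Spec (.of A)) (π : A) (d : ℕ) : Prop :=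
  Irreducible π ∧ IsProjective f ∧ Flat f ∧ (∀ x : X, IsRegularLocalRing (X.presheaf.stalk x)) ∧
    (∀ s, ∀ Z ∈ irreducibleComponents (f ⁻¹' {s}), topologicalKrullDim Z = d) ∧
    Gersten X d ∧ Gersten X (d - 1)

/-- The property `P` holds for the restriction maps from `H^d(X, K_d)` to the tower of the
`H^d(X_n, K_d)`. -/
def Res (P : ∀ (C : AddCommGrpCat.{0}) (H : ℕ → AddCommGrpCat.{0}), (∀ n, H (n + 1) ⟶ H n) →
    (∀ n, C ⟶ H n) → ℕ → Prop) (f : X ⟶ Spec (.of A)) (π : A) (d q : ℕ) : Prop :=
  P ((HH X d).obj (KS X d)) (fun n => (HH X d).obj (KD (thick f π n) d))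
    (fun n => (HH X d).map (tr f π d n)) (fun n => (HH X d).map (pull (thick f π n) d)) q

end Pool.Agent.KEW.S
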