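import Pool.Agent.MP_55d974_ag.kew.Deep
import Mathlib.Algebra.MvPolynomial.Funext
import Mathlib.CategoryTheory.Functor.Category
import Mathlib.CategoryTheory.ObjectProperty.FullSubcategory
import Mathlib.CategoryTheory.Opposites
import Mathlib.CategoryTheory.Sites.LocalSite
import Mathlib.Topology.Sheaves.Sheafify

-- ======== part 0: formerly Pool.Agent.MP_55d974_ag.kew.Cont
section MrgPart0

/-! The Milnor K-ring commutes with directed limits of rings. -/

namespace Pool.Agent.KEW

noncomputable section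

open Classical Filter

namespace Ct

theorem sym_mul {R : Type} [CommRing R] (a b : Rˣ) : sym (a * b) = sym a + sym b := by
  simp [sym, ofMul_mul]

theorem sym_st {R : Type} [CommRing R] (a b : Rˣ) (h : (a : R) + b = 1) : sym a * sym b = 0 := by
  rw [sym, sym, ← map_mul, ← map_zero (RingQuot.mkRingHom (St R))]
  exact RingQuot.mkRingHom_rel ⟨rfl, a, b, h, rfl⟩

/-- The universal property of the K-ring. -/
theorem exists_lift {R T : Type} [CommRing R] [Ring T] (ψ : Rˣ → T)
    (h1 : ∀ a b, ψ (a * b) = ψ a + ψ b) (h2 : ∀ a b : Rˣ, (a : R) + b = 1 → ψ a * ψ b = 0) :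
    ∃ Ψ : Kr R →+* T, ∀ u, Ψ (sym u) = ψ u := by
  let l : Additive Rˣ →+ T := AddMonoidHom.mk' (fun u => ψ (Additive.toMul u)) fun a b => h1 _ _
  refine ⟨RingQuot.lift ⟨(TensorAlgebra.lift ℤ l.toIntLinearMap).toRingHom, ?_⟩, fun u => ?_⟩
  · rintro x y ⟨rfl, a, b, h, rfl⟩
    simpa [l] using h2 a b h
  · simp [sym, l]

variable {ι : Type} [Preorder ι] {R : ι → Type} [∀ i, CommRing (R i)] {S : Type} [CommRing S]

/-- `S` is the limit of the rings `R i`. -/
structure Sys (f : ∀ i j, i ≤ j → R i →+* R j) (g : ∀ i, R i →+* S) : Prop where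
  tr : ∀ i j k h h' x, f j k h' (f i j h x) = f i k (h.trans h') x
  cp : ∀ i j h x, g j (f i j h x) = g i x
  sj : ∀ s, ∃ i x, g i x = s
  kr : ∀ i x, g i x = 0 → ∃ j h, f i j h x = 0

variable {f : ∀ i j, i ≤ j → R i →+* R j} {g : ∀ i, R i →+* S}

theorem Sys.ne (H : Sys f g) : Nonempty ι := ⟨(H.sj 0).choose⟩

theorem Sys.eq (H : Sys f g) {i : ι} {x y : R i} (h : g i x = g i y) :
    ∃ j h, f i j h x = f i j h y := by
  obtain ⟨j, hj, e⟩ := H.kr i (x - y) (by rw [map_sub, h, sub_self])
  exact ⟨j, hj, by rwa [map_sub, sub_eq_zero] at e⟩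

theorem Sys.cpu (H : Sys f g) {i j : ι} (h : i ≤ j) (a : (R i)ˣ) :
    Units.map (g j).toMonoidHom (Units.map (f i j h).toMonoidHom a) =
      Units.map (g i).toMonoidHom a := Units.ext (H.cp i j h a)

theorem Sys.cpk (H : Sys f g) {i j : ι} (h : i ≤ j) (a : Kr (R i)) :
    kmap (g j) (kmap (f i j h) a) = kmap (g i) a := by
  rw [kmap_comp]
  congr 2
  exact RingHom.ext (H.cp i j h)

theorem Sys.trk (H : Sys f g) {i j k : ι} (h : i ≤ j) (h' : j ≤ k) (a : Kr (R i)) :
    kmap (f j k h') (kmap (f i j h) a) = kmap (f i k (h.trans h')) a := by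
  rw [kmap_comp]
  congr 2
  exact RingHom.ext (H.tr i j k h h')

variable [IsDirectedOrder ι]

theorem Sys.unit (H : Sys f g) (u : Sˣ) : ∃ i, ∃ a : (R i)ˣ, Units.map (g i).toMonoidHom a = u := by
  obtain ⟨i, a, ha⟩ := H.sj u
  obtain ⟨j, b, hb⟩ := H.sj ↑u⁻¹
  obtain ⟨k, hi, hj⟩ := exists_ge_ge i j
  obtain ⟨l, hl, e⟩ := H.eq (x := f i k hi a * f j k hj b) (y := 1)
    (by rw [map_mul, H.cp, H.cp, ha, hb, map_one, Units.mul_inv])
  rw [map_mul, map_one] at e
  refine ⟨l, Units.mkOfMulEqOne _ _ e, Units.ext ?_⟩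
  change g l (f k l hl (f i k hi a)) = u
  rw [H.cp, H.cp, ha]

theorem Sys.ev_unit (H : Sys f g) (u : Sˣ) :
    ∀ᶠ j in atTop, ∃ a : (R j)ˣ, Units.map (g j).toMonoidHom a = u := by
  obtain ⟨i, a, ha⟩ := H.unit u
  exact (eventually_ge_atTop i).mono fun j h => ⟨_, (H.cpu h a).trans ha⟩

/-- Elements of `K_m` of the limit come from a finite level. -/
theorem Sys.ev_K (H : Sys f g) {m : ℕ} {x : Kr S} (hx : x ∈ K S m) :
    ∀ᶠ j in atTop, ∃ y ∈ K (R j) m, kmap (g j) y = x := by
  refine AddSubgroup.closure_induction (fun x hx => ?_) ?_ (fun x y _ _ h1 h2 => ?_)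
    (fun x _ h => ?_) hx
  · obtain ⟨l, hl, rfl⟩ := hx
    have : ∀ᶠ j in atTop, ∃ l' : List (R j)ˣ, l'.map (Units.map (g j).toMonoidHom) = l := by
      clear hl hx
      induction l with
      | nil => exact .of_forall fun j => ⟨[], rfl⟩
      | cons u l ih =>
        refine (ih.and (H.ev_unit u)).mono fun j h => ?_
        obtain ⟨⟨l', h1⟩, a, h2⟩ := h
        exact ⟨a :: l', by rw [List.map_cons, h1, h2]⟩
    refine this.mono fun j h => ?_
    obtain ⟨l', rfl⟩ := h
    refine ⟨_, AddSubgroup.subset_closure ⟨l', by simpa using hl, rfl⟩, ?_⟩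
    rw [map_list_prod, List.map_map, List.map_map]
    exact congrArg _ (List.map_congr_left fun u _ => kmap_sym _ u)
  · exact .of_forall fun j => ⟨0, zero_mem _, map_zero _⟩
  · refine (h1.and h2).mono fun j h => ?_
    obtain ⟨⟨a, ha, rfl⟩, b, hb, rfl⟩ := h
    exact ⟨a + b, add_mem ha hb, map_add _ _ _⟩
  · refine h.mono fun j h => ?_
    obtain ⟨a, ha, rfl⟩ := h
    exact ⟨-a, neg_mem ha, map_neg _ _⟩

variable (R) in
/-- Families that agree eventually. -/
def con : RingCon (∀ j, Kr (R j)) where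
  r x y := ∀ᶠ j in atTop, x j = y j
  iseqv := ⟨fun _ => .of_forall fun _ => rfl, fun h => h.mono fun _ => Eq.symm,
    fun h h' => (h.and h').mono fun _ e => e.1.trans e.2⟩
  mul' h h' := (h.and h').mono fun _ e => congrArg₂ (· * ·) e.1 e.2
  add' h h' := (h.and h').mono fun _ e => congrArg₂ (· + ·) e.1 e.2

variable (f) in
/-- The family of images of an element. -/
def fam (i : ι) (x : Kr (R i)) : ∀ j, Kr (R j) := fun j =>
  if h : i ≤ j then kmap (f i j h) x else 0

variable (f) in
/-- The map from level `i` to the ring of germs of families. -/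
def germ (i : ι) : Kr (R i) →+* (con R).Quotient where
  toFun x := (con R).mk' (fam f i x)
  map_one' := by
    rw [← map_one (con R).mk']
    exact (con R).eq.2 ((eventually_ge_atTop i).mono fun j h => by simp [fam, h])
  map_mul' x y := by
    rw [← map_mul]
    exact (con R).eq.2 ((eventually_ge_atTop i).mono fun j h => by simp [fam, h])
  map_zero' := by
    rw [← map_zero (con R).mk']
    exact (con R).eq.2 ((eventually_ge_atTop i).mono fun j h => by simp [fam, h])
  map_add' x y := by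
    rw [← map_add]
    exact (con R).eq.2 ((eventually_ge_atTop i).mono fun j h => by simp [fam, h])

omit [IsDirectedOrder ι] in
theorem Sys.germ_map (H : Sys f g) {i j : ι} (h : i ≤ j) (x : Kr (R i)) :
    germ f j (kmap (f i j h) x) = germ f i x :=
  (con R).eq.2 ((eventually_ge_atTop j).mono fun k hk => by
    simp only [fam, hk, h.trans hk, dif_pos, H.trk])

theorem Sys.germ_eq (H : Sys f g) {i j : ι} (a : (R i)ˣ) (b : (R j)ˣ)
    (e : Units.map (g i).toMonoidHom a = Units.map (g j).toMonoidHom b) :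
    germ f i (sym a) = germ f j (sym b) := by
  obtain ⟨k, hi, hj⟩ := exists_ge_ge i j
  obtain ⟨l, hl, e⟩ := H.eq (x := f i k hi a) (y := f j k hj b)
    (by rw [H.cp, H.cp]; exact congrArg Units.val e)
  rw [← H.germ_map hi, ← H.germ_map hj, ← H.germ_map hl, ← H.germ_map hl (kmap _ (sym b))]
  simp only [kmap_sym]
  exact congrArg _ (congrArg _ (Units.ext e))

theorem Sys.ker (H : Sys f g) (i : ι) (x : Kr (R i)) (hx : kmap (g i) x = 0) :
    ∃ j h, kmap (f i j h) x = 0 := by
  have := H.ne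
  choose lv un hun using H.unit
  have key : ∀ j (a : (R j)ˣ), germ f (lv (Units.map (g j).toMonoidHom a)) (sym (un _)) =
      germ f j (sym a) := fun j a => H.germ_eq _ _ (hun _)
  obtain ⟨Ψ, hΨ⟩ := exists_lift (fun u => germ f (lv u) (sym (un u))) (fun u v => by
    obtain ⟨j, ⟨a, rfl⟩, b, rfl⟩ := ((H.ev_unit u).and (H.ev_unit v)).exists
    rw [← map_mul, key, key, key, sym_mul, map_add]) (fun u v h => by
    obtain ⟨j, ⟨a, rfl⟩, b, rfl⟩ := ((H.ev_unit u).and (H.ev_unit v)).exists
    obtain ⟨k, hk, e⟩ := H.eq (x := (a : R j) + (b : R j)) (y := 1) (by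
      rw [map_add, map_one]
      exact h)
    rw [key, key, ← map_mul, ← H.germ_map hk, map_mul, kmap_sym, kmap_sym, sym_st, map_zero]
    rwa [map_add, map_one] at e)
  have h1 : Ψ.comp (kmap (g i)) = germ f i := kr_ext fun u => by
    rw [RingHom.comp_apply, kmap_sym, hΨ, key]
  have h2 : germ f i x = (con R).mk' 0 := by
    rw [← h1, RingHom.comp_apply, hx, map_zero, map_zero]
  obtain ⟨j, h3, h4⟩ := (Eventually.and ((con R).eq.1 h2) (eventually_ge_atTop i)).exists
  exact ⟨j, h4, by simpa [fam, h4] using h3⟩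

end Ct

theorem contS : ContS := fun _ _ _ _ _ _ h1 h2 h3 h4 i x hx =>
  Ct.Sys.ker ⟨h1, h2, h3, h4⟩ i x hx

end

end Pool.Agent.KEW

end MrgPart0

-- ======== part 1: formerly Pool.Agent.MP_55d974_ag.kew.Kh
section MrgPart1

/-! Improved and naive Milnor K-groups of local rings. -/

namespace Pool.Agent.KEW

noncomputable section

open Classical IsLocalRing MvPolynomial

namespace Ct

section Low

variable {R : Type} [CommRing R]

theorem sym_one : sym (1 : Rˣ) = 0 := by
  have := sym_mul (1 : Rˣ) 1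
  rw [mul_one] at this
  exact left_eq_add.1 this

theorem sym_inv (u : Rˣ) : sym u⁻¹ = -sym u :=
  eq_neg_of_add_eq_zero_left (by rw [← sym_mul, inv_mul_cancel, sym_one])

theorem K_zero {x : Kr R} (hx : x ∈ K R 0) : ∃ n : ℤ, x = n := by
  refine AddSubgroup.closure_induction (fun x hx => ?_) ⟨0, by simp⟩ (fun x y _ _ h1 h2 => ?_)
    (fun x _ h => ?_) hx
  · obtain ⟨l, hl, rfl⟩ := hx
    rw [List.length_eq_zero_iff.1 hl]
    exact ⟨1, by simp⟩
  · obtain ⟨a, rfl⟩ := h1
    obtain ⟨b, rfl⟩ := h2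
    exact ⟨a + b, by simp⟩
  · obtain ⟨a, rfl⟩ := h
    exact ⟨-a, by simp⟩

theorem int_mem (n : ℤ) : (n : Kr R) ∈ K R 0 := by
  rw [← zsmul_one]
  have : (1 : Kr R) ∈ K R 0 := AddSubgroup.subset_closure ⟨[], rfl, rfl⟩
  exact zsmul_mem this n

theorem sym_mem (u : Rˣ) : sym u ∈ K R 1 := AddSubgroup.subset_closure ⟨[u], rfl, by simp⟩

theorem K_one {x : Kr R} (hx : x ∈ K R 1) : ∃ u, x = sym u := by
  refine AddSubgroup.closure_induction (fun x hx => ?_) ⟨1, sym_one.symm⟩ (fun x y _ _ h1 h2 => ?_)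
    (fun x _ h => ?_) hx
  · obtain ⟨l, hl, rfl⟩ := hx
    obtain ⟨u, rfl⟩ := List.length_eq_one_iff.1 hl
    exact ⟨u, by simp⟩
  · obtain ⟨a, rfl⟩ := h1
    obtain ⟨b, rfl⟩ := h2
    exact ⟨a * b, (sym_mul a b).symm⟩
  · obtain ⟨a, rfl⟩ := h
    exact ⟨a⁻¹, (sym_inv a).symm⟩

theorem int_inj {n : ℤ} (h : (n : Kr R) = 0) : n = 0 := by
  obtain ⟨Ψ, -⟩ := exists_lift (R := R) (fun _ => (0 : ℤ)) (by simp) (by simp)
  simpa using congrArg Ψ h

theorem sym_inj {u v : Rˣ} (h : sym u = sym v) : u = v := by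
  obtain ⟨Ψ, hΨ⟩ := exists_lift (R := R) (T := AddMonoid.End (ℤ × Additive Rˣ))
    (fun u => AddMonoidHom.mk' (fun x => (0, x.1 • Additive.ofMul u)) fun x y => by
      simp [add_zsmul])
    (fun a b => AddMonoidHom.ext fun x => by
      change ((0 : ℤ), x.1 • Additive.ofMul (a * b)) =
        ((0 : ℤ), x.1 • Additive.ofMul a) + ((0 : ℤ), x.1 • Additive.ofMul b)
      simp [ofMul_mul, zsmul_add])
    (fun a b _ => AddMonoidHom.ext fun x => by
      change ((0 : ℤ), (0 : ℤ) • Additive.ofMul a) = 0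
      simp)
  have := congrArg Ψ h
  rw [hΨ, hΨ] at this
  have h1 : ((0 : ℤ), (1 : ℤ) • Additive.ofMul u) = (0, (1 : ℤ) • Additive.ofMul v) :=
    DFunLike.congr_fun (F := _ →+ _) this (1, 0)
  simpa using h1

theorem sym_mul_mem (u : Rˣ) {m : ℕ} {x : Kr R} (hx : x ∈ K R m) : sym u * x ∈ K R (m + 1) := by
  refine AddSubgroup.closure_induction (fun x hx => ?_) (by simp) (fun x y _ _ h1 h2 => ?_)
    (fun x _ h => ?_) hx
  · obtain ⟨l, hl, rfl⟩ := hx
    exact AddSubgroup.subset_closure ⟨u :: l, by simp [hl], by simp⟩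
  · rw [mul_add]
    exact add_mem h1 h2
  · have e : sym u * -x = -(sym u * x) := map_neg (AddMonoidHom.mulLeft (sym u)) x
    rw [e]
    exact neg_mem h

end Low

section Loc

variable {A : Type} [CommRing A] (M : Submonoid A)

/-- The members of a submonoid, ordered by divisibility. -/
structure Ix where
  val : A
  mem : val ∈ M

instance : Preorder (Ix M) where
  le a b := a.val ∣ b.val
  le_refl _ := dvd_rfl
  le_trans _ _ _ := dvd_trans

instance : IsDirectedOrder (Ix M) :=
  ⟨fun a b => ⟨⟨a.val * b.val, mul_mem a.mem b.mem⟩, dvd_mul_right _ _, dvd_mul_left _ _⟩⟩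

variable {M}

/-- The transition maps. -/
def aw (i j : Ix M) (h : i ≤ j) : Localization.Away i.val →+* Localization.Away j.val :=
  IsLocalization.Away.lift i.val (IsLocalization.Away.isUnit_of_dvd j.val h)

/-- The maps to the limit. -/
def ag (i : Ix M) : Localization.Away i.val →+* Localization M :=
  IsLocalization.Away.lift i.val (IsLocalization.map_units (Localization M) ⟨i.val, i.mem⟩)

theorem away_ext {f : A} {T : Type} [CommRing T] {φ ψ : Localization.Away f →+* T}
    (h : ∀ a, φ (algebraMap A _ a) = ψ (algebraMap A _ a)) : φ = ψ :=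
  IsLocalization.ringHom_ext (Submonoid.powers f) (RingHom.ext h)

theorem aw_eq (i j : Ix M) (h : i ≤ j) (a : A) : aw i j h (algebraMap A _ a) = algebraMap A _ a :=
  IsLocalization.Away.lift_eq _ _ _

theorem ag_eq (i : Ix M) (a : A) : ag i (algebraMap A _ a) = algebraMap A _ a :=
  IsLocalization.Away.lift_eq _ _ _

variable (M) in
theorem sys : Sys (aw (M := M)) ag where
  tr i j k h h' := DFunLike.congr_fun (away_ext (φ := (aw j k h').comp (aw i j h)) fun a => by
    rw [RingHom.comp_apply, aw_eq, aw_eq, aw_eq])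
  cp i j h := DFunLike.congr_fun (away_ext (φ := (ag j).comp (aw i j h)) fun a => by
    rw [RingHom.comp_apply, aw_eq, ag_eq, ag_eq])
  sj s := by
    obtain ⟨⟨a, t⟩, e⟩ := IsLocalization.surj M s
    refine ⟨⟨t, t.2⟩, algebraMap A _ a * IsLocalization.Away.invSelf (t : A), ?_⟩
    refine (IsLocalization.map_units (Localization M) t).mul_right_cancel (Eq.trans ?_ e.symm)
    rw [← ag_eq (M := M) ⟨t.1, t.2⟩ t.1, ← map_mul, mul_assoc, mul_comm (IsLocalization.Away.invSelf _),
      IsLocalization.Away.mul_invSelf, mul_one, ag_eq]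
  kr i x hx := by
    obtain ⟨⟨a, t, n, rfl⟩, e⟩ := IsLocalization.surj (Submonoid.powers i.val) x
    have h1 := congrArg (ag i) e
    rw [map_mul, hx, zero_mul, ag_eq] at h1
    obtain ⟨c, hc⟩ := (IsLocalization.map_eq_zero_iff M _ _).1 h1.symm
    refine ⟨⟨i.val * c, mul_mem i.mem c.2⟩, dvd_mul_right _ _, ?_⟩
    have h2 := congrArg (aw i ⟨i.val * c, mul_mem i.mem c.2⟩ (dvd_mul_right _ _)) e
    have h3 := congrArg (algebraMap A (Localization.Away (i.val * c))) hc
    rw [map_mul, map_zero, (IsLocalization.Away.isUnit_of_dvd (i.val * c)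
      (dvd_mul_left _ _)).mul_right_eq_zero] at h3
    rw [map_mul, aw_eq, aw_eq, h3, map_pow] at h2
    exact ((IsLocalization.Away.isUnit_of_dvd (i.val * c)
      (dvd_mul_right _ _)).pow n).mul_left_eq_zero.1 h2

theorem loc_ker (hC : ContS) (i : Ix M) (x : Kr (Localization.Away i.val))
    (hx : kmap (ag i) x = 0) : ∃ h ∈ M, i.val ∣ h ∧ ∀ (T : Type) [CommRing T]
      (ψ : Localization.Away i.val →+* T), IsUnit (ψ (algebraMap A _ h)) → kmap ψ x = 0 := by
  obtain ⟨j, h, e⟩ := hC _ _ aw ag (sys M).tr (sys M).cp (sys M).sj (sys M).kr i x hx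
  refine ⟨j.val, j.mem, h, fun T _ ψ hu => ?_⟩
  have : ψ = (IsLocalization.Away.lift (g := ψ.comp (algebraMap A _)) j.val hu).comp (aw i j h) :=
    away_ext fun a => by
      rw [RingHom.comp_apply, aw_eq, IsLocalization.Away.lift_eq, RingHom.comp_apply]
  rw [this, ← kmap_comp, e, map_zero]

theorem loc_surj {m : ℕ} {x : Kr (Localization M)} (hx : x ∈ K _ m) :
    ∃ i : Ix M, ∃ y ∈ K _ m, kmap (ag i) y = x :=
  have := (sys M).ne
  ((sys M).ev_K hx).exists

end Loc

section Prim

variable {R : Type} [CommRing R] {σ : Type}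

theorem alg_eq (c : R) : algebraMap R (RT R σ) c = algebraMap (MvPolynomial σ R) _ (C c) :=
  IsScalarTower.algebraMap_apply _ _ _ _

theorem rt_poly {S τ : Type} [CommRing S] (e : σ ↪ τ) (φ : R →+* S) (P : MvPolynomial σ R) :
    rt e φ (algebraMap _ _ P) = algebraMap _ _ (rename e (map φ P)) :=
  IsLocalization.map_eq _ _

theorem rt_alg {S τ : Type} [CommRing S] (e : σ ↪ τ) (φ : R →+* S) :
    (rt e φ).comp (algebraMap R _) = (algebraMap S _).comp φ := RingHom.ext fun c => by
  rw [RingHom.comp_apply, RingHom.comp_apply, alg_eq, alg_eq, rt_poly, map_C, rename_C]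

theorem prim_of_eval {H : MvPolynomial σ R} (p : σ → R) (h : IsUnit (eval p H)) :
    H ∈ prim R σ := fun m hm e => by
  have h1 : Ideal.Quotient.mk m (eval p H) = 0 := by
    rw [MvPolynomial.map_eval, e, map_zero]
  exact hm.ne_top (Ideal.eq_top_of_isUnit_mem _ (Ideal.Quotient.eq_zero_iff_mem.1 h1) h)

theorem nzd_fin : ∀ (n : ℕ) (P : MvPolynomial (Fin n) R) (j : Fin n →₀ ℕ),
    IsUnit (coeff j P) → P ∈ nonZeroDivisors (MvPolynomial (Fin n) R)
  | 0, P, j, h => by
    rw [Subsingleton.elim j 0] at h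
    rw [eq_C_of_isEmpty P]
    exact (h.map C).mem_nonZeroDivisors
  | n + 1, P, j, h => by
    have h1 := Polynomial.mem_nonzeroDivisors_of_coeff_mem (p := finSuccEquiv R n P) (j 0)
      (nzd_fin n _ j.tail (by rwa [finSuccEquiv_coeff_coeff, Finsupp.cons_tail]))
    refine mem_nonZeroDivisors_iff_left.2 fun Q hQ => (finSuccEquiv R n).injective ?_
    rw [map_zero]
    exact mem_nonZeroDivisors_iff_left.1 h1 _ (by rw [← map_mul, hQ, map_zero])

variable [IsLocalRing R]

theorem prim_coeff {H : MvPolynomial σ R} (h : H ∈ prim R σ) : ∃ j, IsUnit (coeff j H) := by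
  by_contra! hn
  refine h (maximalIdeal R) inferInstance (MvPolynomial.ext _ _ fun j => ?_)
  rw [coeff_map, coeff_zero, Ideal.Quotient.eq_zero_iff_mem]
  exact hn j

theorem prim_eval [Infinite (ResidueField R)] {H : MvPolynomial σ R} (h : H ∈ prim R σ) :
    ∃ p : σ → R, IsUnit (eval p H) := by
  by_contra! hn
  refine h (maximalIdeal R) inferInstance (MvPolynomial.funext (R := ResidueField R) fun x => ?_)
  choose p hp using fun i => residue_surjective (x i)
  have := MvPolynomial.map_eval (residue R) p H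
  rw [show residue R ∘ p = x from _root_.funext hp, (residue_eq_zero_iff _).2 (hn p)] at this
  exact this.symm.trans (map_zero _).symm

theorem prim_nzd [Fintype σ] : prim R σ ≤ nonZeroDivisors (MvPolynomial σ R) := fun P hP => by
  obtain ⟨j, hj⟩ := prim_coeff hP
  let e := Fintype.equivFin σ
  have h1 := nzd_fin _ (rename e P) (j.mapDomain e) (by rwa [coeff_rename_mapDomain _ e.injective])
  refine mem_nonZeroDivisors_iff_left.2 fun Q hQ => rename_injective e e.injective ?_
  rw [map_zero]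
  exact mem_nonZeroDivisors_iff_left.1 h1 _ (by rw [← map_mul, hQ, map_zero])

theorem alg_inj [Fintype σ] : Function.Injective (algebraMap R (RT R σ)) := fun a b h => by
  rw [alg_eq, alg_eq] at h
  exact C_injective σ R (IsLocalization.injective _ prim_nzd h)

end Prim

section Main

variable {R : Type} [CommRing R]

/-- The embedding with image `b`. -/
abbrev em (b : Bool) : Unit ↪ Bool := ⟨fun _ => b, fun _ _ _ => rfl⟩

theorem rt_one (b : Bool) (P : MvPolynomial Unit R) :
    rt (em b) (RingHom.id R) (algebraMap _ _ P) = algebraMap _ _ (rename (em b) P) := by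
  rw [rt_poly, map_id]

theorem ren_mem (b : Bool) {P : MvPolynomial Unit R} (h : P ∈ prim R Unit) :
    rename (em b) P ∈ prim R Bool := by
  have := prim_le (em b) (RingHom.id R) h
  change rename (em b) (map (RingHom.id R) P) ∈ prim R Bool at this
  rwa [map_id] at this

variable [IsLocalRing R]

theorem const_of_eq (w : RT R Unit)
    (h : rt (em false) (RingHom.id R) w = rt (em true) (RingHom.id R) w) :
    ∃ c, algebraMap R _ c = w := by
  obtain ⟨⟨P, Q⟩, e⟩ := IsLocalization.surj (prim R Unit) w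
  have h1 := congrArg (rt (em false) (RingHom.id R)) e
  have h2 := congrArg (rt (em true) (RingHom.id R)) e
  rw [map_mul, rt_one, rt_one] at h1 h2
  have h3 : rename (em false) P * rename (em true) Q.1 = rename (em true) P * rename (em false) Q.1 :=
    IsLocalization.injective (RT R Bool) prim_nzd (by
      rw [map_mul, map_mul, ← h1, ← h2, h]
      ring)
  let Φ : MvPolynomial Bool R →+* MvPolynomial Unit (MvPolynomial Unit R) :=
    eval₂Hom (C.comp C) fun b => if b then X () else C (X ())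
  have e1 : Φ.comp (rename (em false)).toRingHom = C := by
    ext1 <;> [ext1; skip] <;> simp [Φ]
  have e2 : Φ.comp (rename (em true)).toRingHom = map C := by
    ext1 <;> [ext1; skip] <;> simp [Φ]
  have f1 : ∀ P, Φ (rename (em false) P) = C P := DFunLike.congr_fun e1
  have f2 : ∀ P, Φ (rename (em true) P) = map C P := DFunLike.congr_fun e2
  obtain ⟨j, u, hu⟩ := prim_coeff Q.2
  have h4 := congrArg (fun z => coeff j (Φ z)) h3
  simp only [map_mul, f1, f2, mul_comm _ (C Q.1), coeff_C_mul, coeff_map, ← hu] at h4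
  refine ⟨coeff j P * ↑u⁻¹, (IsLocalization.map_units (RT R Unit) Q).mul_right_cancel
    (Eq.trans ?_ e.symm)⟩
  rw [alg_eq, ← map_mul]
  congr 1
  rw [map_mul, mul_right_comm, mul_comm _ Q.1, ← h4, mul_assoc, ← map_mul, Units.mul_inv, map_one,
    mul_one]

theorem inj_inf (hC : ContS) [Infinite (ResidueField R)] (y : Kr R)
    (hy : kmap (algebraMap R (RT R Unit)) y = 0) : y = 0 := by
  let i : Ix (prim R Unit) := ⟨1, one_mem _⟩
  obtain ⟨h, hm, -, H⟩ := loc_ker hC i (kmap ((algebraMap _ _).comp C) y) (by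
    rw [kmap_comp, ← hy]
    congr 2
    exact RingHom.ext fun c => (ag_eq i _).trans (alg_eq c).symm)
  obtain ⟨p, hp⟩ := prim_eval hm
  have := H R (IsLocalization.Away.lift (g := eval p) i.val (by simp [i]))
    (by rwa [IsLocalization.Away.lift_eq])
  rw [kmap_comp, ← RingHom.comp_assoc, IsLocalization.Away.lift_comp] at this
  rw [← kmap_id y, ← this]
  congr 2
  exact RingHom.ext fun c => (eval_C c).symm

theorem surj_inf (hC : ContS) [Infinite (ResidueField R)] {m : ℕ} {x : Kr (RT R Unit)}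
    (hx : x ∈ KH R m) : ∃ y ∈ K R m, kmap (algebraMap R _) y = x := by
  obtain ⟨i, y, hy, rfl⟩ := loc_surj hx.1
  let j : Ix (prim R Bool) := ⟨rename (em false) i.val * rename (em true) i.val,
    mul_mem (ren_mem _ i.mem) (ren_mem _ i.mem)⟩
  have dv : ∀ b, rename (em b) i.val ∣ j.val := fun b => by
    cases b
    · exact dvd_mul_right _ _
    · exact dvd_mul_left _ _
  let d : Bool → (Localization.Away i.val →+* Localization.Away j.val) := fun b =>
    IsLocalization.Away.lift (g := (algebraMap _ _).comp (rename (em b)).toRingHom) i.val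
      (IsLocalization.Away.isUnit_of_dvd j.val (dv b))
  have hd : ∀ b P, d b (algebraMap _ _ P) = algebraMap _ _ (rename (em b) P) := fun b P =>
    IsLocalization.Away.lift_eq _ _ _
  have h1 : ∀ b, (ag j).comp (d b) = (rt (em b) (RingHom.id R)).comp (ag i) := fun b =>
    away_ext fun P => by rw [RingHom.comp_apply, RingHom.comp_apply, hd, ag_eq, ag_eq, rt_one]
  obtain ⟨h, hm, hj, H⟩ := loc_ker hC j (kmap (d false) y - kmap (d true) y) (by
    rw [map_sub, kmap_comp, kmap_comp, h1, h1, ← kmap_comp, ← kmap_comp, sub_eq_zero]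
    exact hx.2)
  obtain ⟨p, hp⟩ := prim_eval hm
  let s : MvPolynomial Bool R →+* MvPolynomial Unit R :=
    eval₂Hom C fun b => if b then C (p true) else X ()
  have hs : (eval fun _ => p false).comp s = eval p := by
    refine MvPolynomial.ringHom_ext (fun c => ?_) fun b => ?_
    · simp [s]
    · cases b <;> simp [s]
  have hu : IsUnit (algebraMap _ (RT R Unit) (s h)) :=
    IsLocalization.map_units _ (⟨s h, prim_of_eval (fun _ => p false)
      (by rwa [← hs] at hp)⟩ : prim R Unit)
  have hv : IsUnit (eval (fun _ => p true) i.val) := by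
    have := isUnit_of_dvd_unit (map_dvd (eval p) ((dv true).trans hj)) hp
    rwa [eval_rename] at this
  have e1 : s.comp (rename (em false)).toRingHom = RingHom.id _ := by
    ext1 <;> [ext1; skip] <;> simp [s]
  have e2 : s.comp (rename (em true)).toRingHom = C.comp (eval fun _ => p true) := by
    ext1 <;> [ext1; skip] <;> simp [s]
  have f1 : ∀ P, s (rename (em false) P) = P := DFunLike.congr_fun e1
  have f2 : ∀ P, s (rename (em true) P) = C (eval (fun _ => p true) P) := DFunLike.congr_fun e2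
  let ψ : Localization.Away j.val →+* RT R Unit :=
    IsLocalization.Away.lift (g := (algebraMap _ _).comp s) j.val
      (isUnit_of_dvd_unit (map_dvd _ hj) hu)
  have hψ : ∀ P, ψ (algebraMap _ _ P) = algebraMap _ _ (s P) := fun P =>
    IsLocalization.Away.lift_eq _ _ _
  let ev : Localization.Away i.val →+* R := IsLocalization.Away.lift i.val hv
  have g1 : ψ.comp (d false) = ag i := away_ext fun P => by
    rw [RingHom.comp_apply, hd, hψ, f1, ag_eq]
  have g2 : ψ.comp (d true) = (algebraMap R _).comp ev := away_ext fun P => by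
    rw [RingHom.comp_apply, hd, hψ, f2, RingHom.comp_apply, IsLocalization.Away.lift_eq, alg_eq]
  have := H _ ψ (by rwa [hψ])
  rw [map_sub, kmap_comp, kmap_comp, g1, g2, sub_eq_zero, ← kmap_comp] at this
  exact ⟨_, kmap_mem ev hy, this.symm⟩

end Main

end Ct

open Ct

theorem khS (hC : ContS) : KhS where
  mem R _ m x hx := ⟨kmap_mem _ hx, by
    change kmap _ (kmap _ x) = kmap _ (kmap _ x)
    rw [kmap_comp, kmap_comp, rt_alg, rt_alg]⟩
  mul R _ m u x hx := ⟨by
    rw [kmap_sym]
    exact sym_mul_mem _ hx.1, by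
    have h := hx.2
    change kmap _ x = kmap _ x at h
    change kmap _ (_ * x) = kmap _ (_ * x)
    rw [map_mul, map_mul, h, kmap_comp, kmap_comp, rt_alg, rt_alg]⟩
  nat R S _ _ φ x := by rw [kmap_comp, kmap_comp, rt_alg]
  surj R _ _ m hm x hx := by
    rcases hm with hm | hm
    · exact surj_inf hC hx
    · interval_cases m
      · obtain ⟨n, rfl⟩ := K_zero hx.1
        exact ⟨n, int_mem n, map_intCast _ n⟩
      · obtain ⟨w, rfl⟩ := K_one hx.1
        have h := hx.2
        change kmap _ (sym w) = kmap _ (sym w) at h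
        rw [kmap_sym, kmap_sym] at h
        have h1 := sym_inj h
        obtain ⟨c, hc⟩ := const_of_eq (w : RT R Unit) (congrArg Units.val h1)
        obtain ⟨c', hc'⟩ := const_of_eq (↑w⁻¹ : RT R Unit) (congrArg Units.inv h1)
        refine ⟨sym (Units.mkOfMulEqOne c c' (alg_inj (σ := Unit) ?_)), sym_mem _, ?_⟩
        · rw [map_mul, hc, hc', map_one, Units.mul_inv]
        · rw [kmap_sym]
          exact congrArg _ (Units.ext hc)
  inj R _ _ m hm y hy h := by
    rcases hm with hm | hm
    · exact inj_inf hC y h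
    · interval_cases m
      · obtain ⟨n, rfl⟩ := K_zero hy
        rw [map_intCast] at h
        rw [int_inj h, Int.cast_zero]
      · obtain ⟨u, rfl⟩ := K_one hy
        rw [kmap_sym, ← sym_one] at h
        have h1 : u = 1 := Units.ext (alg_inj (σ := Unit)
          ((congrArg Units.val (sym_inj h)).trans (map_one _).symm))
        rw [h1, sym_one]

end

end Pool.Agent.KEW

end MrgPart1

-- ======== part 2: formerly Pool.Agent.MP_55d974_ag.kew.St
section MrgPart2

/-! PROJECT KEW, stalks of the improved Milnor K-sheaf. -/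

open AlgebraicGeometry CategoryTheory Limits TopologicalSpace Opposite Pool.Agent.MP_55d974_ag Filter

namespace Pool.Agent.KEW

noncomputable section

namespace StA

open Ct MvPolynomial

section Lim

variable {ι : Type} [Preorder ι] [IsDirectedOrder ι] {R : ι → Type} [∀ i, CommRing (R i)]
  {S : Type} [CommRing S] {f : ∀ i j, i ≤ j → R i →+* R j} {g : ∀ i, R i →+* S} {σ : Type}

omit [IsDirectedOrder ι] in
theorem ev0 (H : Sys f g) {i : ι} {x : R i} (h : g i x = 0) :
    ∀ᶠ j in atTop, ∀ h : i ≤ j, f i j h x = 0 := by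
  obtain ⟨j, hj, e⟩ := H.kr i x h
  exact (eventually_ge_atTop j).mono fun k hk h => by rw [← H.tr i j k hj hk, e, map_zero]

theorem evu (H : Sys f g) {i : ι} {x : R i} (h : IsUnit (g i x)) :
    ∀ᶠ j in atTop, ∀ h : i ≤ j, IsUnit (f i j h x) := by
  obtain ⟨b, hb⟩ := h.exists_right_inv
  obtain ⟨j, y, rfl⟩ := H.sj b
  obtain ⟨k, hi, hj⟩ := exists_ge_ge i j
  have := ev0 H (x := f i k hi x * f j k hj y - 1)
    (by rw [map_sub, map_mul, H.cp, H.cp, hb, map_one, sub_self])
  refine (this.and (eventually_ge_atTop k)).mono fun l hl h => ?_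
  have e := hl.1 hl.2
  rw [map_sub, map_mul, map_one, sub_eq_zero, H.tr] at e
  exact IsUnit.of_mul_eq_one _ e

omit [IsDirectedOrder ι] in
theorem evp (H : Sys f g) (P : MvPolynomial σ S) :
    ∀ᶠ j in atTop, ∃ Q : MvPolynomial σ (R j), map (g j) Q = P := by
  induction P using MvPolynomial.induction_on with
  | C a =>
    obtain ⟨i, x, rfl⟩ := H.sj a
    exact (eventually_ge_atTop i).mono fun j h => ⟨C (f i j h x), by rw [map_C, H.cp]⟩
  | add p q hp hq =>
    refine (hp.and hq).mono fun j h => ?_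
    obtain ⟨⟨a, ha⟩, b, hb⟩ := h
    exact ⟨a + b, by rw [map_add, ha, hb]⟩
  | mul_X p n hp =>
    refine hp.mono fun j h => ?_
    obtain ⟨a, ha⟩ := h
    exact ⟨a * X n, by rw [map_mul, ha, map_X]⟩

theorem rt_map {A B : Type} [CommRing A] [CommRing B] (φ : A →+* B) (P : MvPolynomial σ A) :
    rt (.refl σ) φ (algebraMap _ _ P) = algebraMap _ _ (map φ P) := by
  rw [rt_poly]
  exact congrArg _ (rename_id_apply _)

theorem rtSys [IsLocalRing S] [Fintype σ] (H : Sys f g) :
    Sys (fun i j h => rt (.refl σ) (f i j h)) fun i => rt (.refl σ) (g i) where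
  tr i j k h h' x := by
    rw [← RingHom.comp_apply, rt_comp, show (f j k h').comp (f i j h) = f i k (h.trans h') from
      RingHom.ext (H.tr i j k h h')]
    rfl
  cp i j h x := by
    rw [← RingHom.comp_apply, rt_comp, show (g j).comp (f i j h) = g i from
      RingHom.ext (H.cp i j h)]
    rfl
  sj s := by
    have := H.ne
    obtain ⟨⟨P, Q⟩, e⟩ := IsLocalization.surj (prim S σ) s
    obtain ⟨n, hn⟩ := prim_coeff Q.2
    obtain ⟨i, Q', hQ⟩ := (evp H Q.1).exists
    rw [← hQ, coeff_map] at hn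
    obtain ⟨j, ⟨⟨P', hP⟩, hu⟩, hj⟩ :=
      (((evp H P).and (evu H hn)).and (eventually_ge_atTop i)).exists
    have hm : map (f i j hj) Q' ∈ prim (R j) σ := fun m hm e => by
      have := congrArg (coeff n) e
      rw [coeff_map, coeff_map, coeff_zero, Ideal.Quotient.eq_zero_iff_mem] at this
      exact hm.ne_top (Ideal.eq_top_of_isUnit_mem _ this (hu hj))
    refine ⟨j, IsLocalization.mk' _ P' ⟨_, hm⟩, ?_⟩
    refine (IsLocalization.map_units (RT S σ) Q).mul_right_cancel (Eq.trans ?_ e.symm)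
    have e' : map (g j) (map (f i j hj) Q') = Q.1 := by
      rw [MvPolynomial.map_map, show (g j).comp (f i j hj) = g i from RingHom.ext (H.cp i j hj), hQ]
    rw [← e', ← rt_map, ← map_mul]
    exact (congrArg _ (IsLocalization.mk'_spec _ P' (⟨_, hm⟩ : prim (R j) σ))).trans
      ((rt_map _ _).trans (congrArg _ hP))
  kr i x hx := by
    have := H.ne
    obtain ⟨⟨P, Q⟩, e⟩ := IsLocalization.surj (prim (R i) σ) x
    have h1 := congrArg (rt (.refl σ) (g i)) e
    rw [map_mul, hx, zero_mul, rt_map, ← map_zero (algebraMap (MvPolynomial σ S) _)] at h1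
    have h2 := IsLocalization.injective _ prim_nzd h1
    obtain ⟨j, h3, hj⟩ := (((eventually_all_finset P.support).2 fun n _ => ev0 H (x := coeff n P)
      (by rw [← coeff_map, ← h2, coeff_zero])).and (eventually_ge_atTop i)).exists
    refine ⟨j, hj, ?_⟩
    have h4 : map (f i j hj) P = 0 := MvPolynomial.ext _ _ fun n => by
      rw [coeff_map, coeff_zero]
      by_cases hn : n ∈ P.support
      · exact h3 n hn hj
      · rw [notMem_support_iff.1 hn, map_zero]
    have h5 := congrArg (rt (.refl σ) (f i j hj)) e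
    rw [map_mul, rt_map _ P, h4, map_zero] at h5
    exact ((IsLocalization.map_units _ Q).map _).mul_left_eq_zero.1 h5

end Lim

variable {Y : Scheme.{0}} (y : Y)

/-- The open neighbourhoods of a point, ordered by reverse inclusion. -/
abbrev Nb : Type := {U : Y.Opens // y ∈ U}ᵒᵈ

instance : IsDirectedOrder (Nb y) :=
  ⟨fun a b => ⟨⟨a.1 ⊓ b.1, a.2, b.2⟩, inf_le_left (a := a.1), inf_le_right (a := a.1)⟩⟩

theorem sys : Sys (R := fun U : Nb y => Γ(Y, U.1))
    (fun U V h => (Y.presheaf.map (homOfLE (h : V.1 ≤ U.1)).op).hom)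
    fun U => (Y.presheaf.germ U.1 y U.2).hom where
  tr i j k h h' x := by
    rw [← CommRingCat.comp_apply, ← Functor.map_comp]
    rfl
  cp i j h x := Y.presheaf.germ_res_apply _ y _ x
  sj s := by
    obtain ⟨U, h, x, e⟩ := Y.presheaf.exists_germ_eq s
    exact ⟨⟨U, h⟩, x, e⟩
  kr i x hx := by
    obtain ⟨W, h, a, b, e⟩ := Y.presheaf.germ_eq y i.2 i.2 x 0 (hx.trans (map_zero _).symm)
    exact ⟨⟨W, h⟩, a.le, e.trans (map_zero _)⟩

variable (m : ℕ)

/-- The map from the stalk of the presheaf to the K-group of the local ring. -/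
def al : TopCat.Presheaf.stalk (X := Y) (KP Y m) y ⟶ (khF m).obj (Y.presheaf.stalk y) :=
  colimit.desc _ ((khF m).mapCocone (colimit.cocone ((OpenNhds.inclusion y).op ⋙ Y.presheaf)))

theorem al_germ (U : Y.Opens) (hy : y ∈ U) :
    TopCat.Presheaf.germ (X := Y) (KP Y m) U y hy ≫ al y m = (khF m).map (Y.presheaf.germ U y hy) :=
  colimit.ι_desc _ _

theorem kh_ker (hC : ContS) (U : Y.Opens) (hy : y ∈ U) (s : KH Γ(Y, U) m)
    (h : (khF m).map (Y.presheaf.germ U y hy) s = 0) :
    ∃ (V : Y.Opens) (_ : y ∈ V) (hle : V ≤ U), (khF m).map (Y.presheaf.map (homOfLE hle).op) s = 0 := by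
  have H := rtSys (σ := Unit) (sys y)
  have h' : kmap (rt (.refl Unit) (Y.presheaf.germ U y hy).hom) s.1 = 0 := congrArg Subtype.val h
  obtain ⟨V, hV, e⟩ := hC _ _ _ _ H.tr H.cp H.sj H.kr (OrderDual.toDual ⟨U, hy⟩) s.1 h'
  exact ⟨V.1, V.2, hV, Subtype.ext e⟩

theorem al_inj (hC : ContS) (t) (h : al y m t = 0) : t = 0 := by
  obtain ⟨U, hy, s, rfl⟩ := TopCat.Presheaf.exists_germ_eq (X := Y) (KP Y m) t
  rw [← ConcreteCategory.comp_apply, al_germ] at h
  obtain ⟨V, hV, hle, e⟩ := kh_ker y m hC U hy s h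
  rw [← TopCat.Presheaf.germ_res_apply (X := Y) (KP Y m) (homOfLE hle) y hV s]
  exact (congrArg _ e).trans (map_zero _)

/-- The comparison of the stalks. -/
def be : TopCat.Presheaf.stalk (X := Y) (KP Y m) y ⟶ TopCat.Presheaf.stalk (X := Y) (KS Y m).obj y :=
  (TopCat.Presheaf.stalkFunctor (X := Y) AddCommGrpCat.{0} y).map
  (toSheafify (Opens.grothendieckTopology Y) (KP Y m))

instance : IsIso (be y m) := TopCat.Presheaf.stalkFunctor_map_unit_toSheafify_isIso _ _ _

theorem be_germ (U : Y.Opens) (hy : y ∈ U) (s) :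
    be y m (TopCat.Presheaf.germ (X := Y) (KP Y m) U y hy s) =
      TopCat.Presheaf.germ (X := Y) (KS Y m).obj U y hy (shf U s) :=
  TopCat.Presheaf.stalkFunctor_map_germ_apply U y hy _ s

theorem nat (U V : Y.Opens) (h : V ≤ U) (s : (KP Y m).obj (op U)) :
    (KS Y m).obj.map (homOfLE h).op (shf U s) = shf V ((KP Y m).map (homOfLE h).op s) :=
  (ConcreteCategory.congr_hom
    ((toSheafify (Opens.grothendieckTopology Y) (KP Y m)).naturality (homOfLE h).op) s).symm

theorem pull_shf {Z : Scheme.{0}} (h : Z ⟶ Y) (m : ℕ) (U : Y.Opens) (s : (KP Y m).obj (op U)) :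
    (pull h m).hom.app (op U) (shf U s) = shf (h ⁻¹ᵁ U) ((khF m).map (h.app U) s) :=
  ConcreteCategory.congr_hom (congrArg (fun t => NatTrans.app t (op U))
    (toSheafify_sheafifyLift _ _ (KD h m).2)) s

end StA

theorem stS (hC : ContS) : StS where
  st Y m := by
    refine ⟨fun y U hy => (TopCat.Presheaf.germ (X := Y) (KS Y m).obj U y hy ≫
      inv (StA.be y m) ≫ StA.al y m).hom, fun y U hy s => ?_, fun y U V h hy s => ?_,
      fun y U hy s h => ?_⟩
    · change StA.al y m (inv (StA.be y m) (TopCat.Presheaf.germ (X := Y) (KS Y m).obj U y hy _)) = _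
      rw [← StA.be_germ, IsIso.hom_inv_id_apply, ← ConcreteCategory.comp_apply, StA.al_germ]
    · exact congrArg (fun t => StA.al y m (inv (StA.be y m) t))
        (TopCat.Presheaf.germ_res_apply (X := Y) (KS Y m).obj (homOfLE h) y hy s)
    · have h1 := congrArg (StA.be y m) (StA.al_inj y m hC _ h)
      rw [map_zero] at h1
      have h2 := (IsIso.inv_hom_id_apply (StA.be y m) _).symm.trans h1
      obtain ⟨W, hW, a, b, e⟩ := TopCat.Presheaf.germ_eq (X := Y) (KS Y m).obj y hy hy s 0
        (h2.trans (map_zero _).symm)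
      exact ⟨W, hW, a.le, e.trans (map_zero _)⟩
  loc Y m U s y hy := by
    obtain ⟨V, hV, t, e⟩ := TopCat.Presheaf.exists_germ_eq (X := Y) (KP Y m)
      (inv (StA.be y m) (TopCat.Presheaf.germ (X := Y) (KS Y m).obj U y hy s))
    have h1 := congrArg (StA.be y m) e
    rw [StA.be_germ, IsIso.inv_hom_id_apply] at h1
    obtain ⟨W, hW, a, b, e⟩ := TopCat.Presheaf.germ_eq (X := Y) (KS Y m).obj y hV hy _ _ h1
    exact ⟨W, hW, b.le, _, e.symm.trans (StA.nat m V W a.le t)⟩
  nat Y m := StA.nat m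
  spread Y m U y hy σ hσ := by
    have := (StA.sys y).ne
    obtain ⟨V, h1, h2⟩ :=
      (((StA.sys y).ev_K hσ).and (eventually_ge_atTop (OrderDual.toDual ⟨U, hy⟩))).exists
    exact ⟨V.1, V.2, h2, h1⟩
  pull h m := StA.pull_shf h m
  comp {Z Y W} g h m := by
    refine Sheaf.hom_ext (sheafify_hom_ext _ _ _ (KD (h ≫ g) m).2 ?_)
    refine NatTrans.ext (funext fun U => AddCommGrpCat.hom_ext (AddMonoidHom.ext fun s => ?_))
    change (KEW.pull h m).hom.app (op (g ⁻¹ᵁ U.unop))
      ((KEW.pull g m).hom.app (op U.unop) (shf U.unop s)) =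
      (KEW.pull (h ≫ g) m).hom.app (op U.unop) (shf U.unop s)
    rw [StA.pull_shf, StA.pull_shf, StA.pull_shf]
    exact congrArg (shf (h ⁻¹ᵁ g ⁻¹ᵁ U.unop)) (ConcreteCategory.congr_hom
      ((khF m).map_comp (g.app U.unop) (h.app (g ⁻¹ᵁ U.unop))) s).symm

end

end Pool.Agent.KEW

end MrgPart2

-- marker of a merged file
example : 731051 + 815969 = 731051 + 815969 := rfl
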