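import Mathlib.RingTheory.Unramified.LocalStructure
import Pool.Agent.MP_55d974_ag.kew.St
import Pool.Agent.MP_55d974_ag.kew.SEq
import Pool.Agent.MP_55d974_ag.kew.Mil
import Pool.Agent.MP_55d974_ag.kew.Nrm
import Pool.Agent.MP_55d974_ag.kew.Proj
import Pool.Agent.MP_55d974_ag.kew.Pure
import Pool.Agent.MP_55d974_ag.Final
import Pool.Agent.MP_55d974_ag.kew.Main
import Pool.Agent.MP_55d974_ag.kew.LimQ
import Pool.Agent.MP_55d974_ag.kew.SDef2

-- ======== part 0: formerly Pool.Agent.MP_55d974_ag.kew.Uni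
section MrgPart0

/-! The improved Milnor K-sheaf of weight one is the sheaf of units. -/

open AlgebraicGeometry CategoryTheory Limits TopologicalSpace Opposite Pool.Agent.MP_55d974_ag
  MvPolynomial

namespace Pool.Agent.KEW

noncomputable section

namespace Uni

open Ct

variable {R : Type} [CommRing R] {σ : Type}

theorem nzd [Fintype σ] : prim R σ ≤ nonZeroDivisors (MvPolynomial σ R) := fun P hP => by
  refine mem_nonZeroDivisors_iff_left.2 fun Q hQ => MvPolynomial.ext _ _ fun j => ?_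
  refine eq_zero_of_localization _ fun J hJ => ?_
  have h1 := prim_le (.refl σ) (algebraMap R (Localization.AtPrime J)) hP
  change rename id (map _ P) ∈ prim _ σ at h1
  rw [rename_id, AlgHom.id_apply] at h1
  have h2 := mem_nonZeroDivisors_iff_left.1 (prim_nzd h1)
    (map (algebraMap R (Localization.AtPrime J)) Q) (by rw [← map_mul, hQ, map_zero])
  rw [← coeff_map, h2, coeff_zero]

theorem inj : Function.Injective (algebraMap R (RT R Unit)) := fun a b h => by
  rw [alg_eq, alg_eq] at h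
  exact C_injective _ R (IsLocalization.injective _ nzd h)

theorem const (w : RT R Unit)
    (h : rt (em false) (RingHom.id R) w = rt (em true) (RingHom.id R) w) :
    ∃ c, algebraMap R _ c = w := by
  obtain ⟨⟨P, Q⟩, e⟩ := IsLocalization.surj (prim R Unit) w
  have h1 := congrArg (rt (em false) (RingHom.id R)) e
  have h2 := congrArg (rt (em true) (RingHom.id R)) e
  rw [map_mul, rt_one, rt_one] at h1 h2
  have h3 : rename (em false) P * rename (em true) Q.1 = rename (em true) P * rename (em false) Q.1 :=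
    IsLocalization.injective (RT R Bool) nzd (by
      rw [map_mul, map_mul, ← h1, ← h2, h]
      ring)
  let Φ : MvPolynomial Bool R →+* MvPolynomial Unit (MvPolynomial Unit R) :=
    eval₂Hom (C.comp C) fun b => if b then X () else C (X ())
  have e1 : Φ.comp (rename (em false)).toRingHom = C := by
    ext1 <;> [ext1; skip] <;> simp [Φ]
  have e2 : Φ.comp (rename (em true)).toRingHom = map C := by
    ext1 <;> [ext1; skip] <;> simp [Φ]
  have f1 : ∀ P, Φ (rename (em false) P) = C P := DFunLike.congr_fun e1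
  have f2 : ∀ P, Φ (rename (em true) P) = map C P := DFunLike.congr_fun e2
  let I : Ideal R :=
    { carrier := {c | ∃ a, C c * P = C a * Q.1}
      add_mem' := fun ⟨a, ha⟩ ⟨b, hb⟩ => ⟨a + b, by rw [map_add, map_add, add_mul, add_mul, ha, hb]⟩
      zero_mem' := ⟨0, by simp⟩
      smul_mem' := fun c _ ⟨a, ha⟩ => ⟨c * a, by
        rw [smul_eq_mul, map_mul, map_mul, mul_assoc, mul_assoc, ha]⟩ }
  have h5 : I = ⊤ := by
    by_contra hn
    obtain ⟨m, hm, hle⟩ := Ideal.exists_le_maximal I hn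
    refine Q.2 m hm (MvPolynomial.ext _ _ fun j => ?_)
    have h4 := congrArg (fun z => coeff j (Φ z)) h3
    simp only [map_mul, f1, f2, mul_comm _ (C Q.1), coeff_C_mul, coeff_map] at h4
    rw [coeff_map, coeff_zero, Ideal.Quotient.eq_zero_iff_mem]
    exact hle ⟨coeff j P, by rw [mul_comm, h4, mul_comm]⟩
  obtain ⟨a, ha⟩ : (1 : R) ∈ I := h5 ▸ trivial
  refine ⟨a, (IsLocalization.map_units (RT R Unit) Q).mul_right_cancel (Eq.trans ?_ e.symm)⟩
  rw [alg_eq, ← map_mul, ← ha, map_one, one_mul]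

theorem mem (u : Rˣ) : sym (Units.map (algebraMap R (RT R Unit)).toMonoidHom u) ∈ KH R 1 := by
  refine ⟨sym_mem _, ?_⟩
  change kmap _ (sym _) = kmap _ (sym _)
  rw [kmap_sym, kmap_sym]
  exact congrArg sym (Units.ext ((DFunLike.congr_fun (rt_alg (em false) (RingHom.id R)) u.1).trans
    (DFunLike.congr_fun (rt_alg (em true) (RingHom.id R)) u.1).symm))

/-- A unit gives a symbol. -/
def us (R : Type) [CommRing R] : Additive Rˣ →+ KH R 1 :=
  AddMonoidHom.mk' (fun u => ⟨_, mem u.toMul⟩) fun a b => Subtype.ext (by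
    change sym (Units.map _ (a.toMul * b.toMul)) = sym _ + sym _
    rw [map_mul, sym_mul])

theorem us_bij : Function.Bijective (us R) := by
  refine ⟨fun a b h => Additive.toMul.injective (Units.ext (inj
    (congrArg Units.val (sym_inj (congrArg Subtype.val h))))), fun ⟨x, hx⟩ => ?_⟩
  obtain ⟨u, rfl⟩ := K_one hx.1
  have h : kmap _ (sym u) = kmap _ (sym u) := hx.2
  rw [kmap_sym, kmap_sym] at h
  have h1 := sym_inj h
  obtain ⟨a, ha⟩ := const u.1 (congrArg Units.val h1)
  obtain ⟨b, hb⟩ := const u.2 (congrArg Units.inv h1)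
  have hab : a * b = 1 := inj (by rw [map_mul, ha, hb, map_one]; exact u.3)
  exact ⟨Additive.ofMul ⟨a, b, hab, by rw [mul_comm, hab]⟩, Subtype.ext (congrArg sym (Units.ext ha))⟩

/-- Units as symbols, naturally in the ring. -/
def η : unitsF ⟶ khF 1 where
  app R := AddCommGrpCat.ofHom (us R)
  naturality R S φ := by
    refine AddCommGrpCat.hom_ext (AddMonoidHom.ext fun u => Subtype.ext ?_)
    refine Eq.trans ?_ (kmap_sym (rt (.refl Unit) φ.hom) _).symm
    exact congrArg sym (Units.ext (DFunLike.congr_fun (rt_alg (.refl Unit) φ.hom) _).symm)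

theorem η_iso : IsIso η := by
  have : ∀ R, IsIso (η.app R) := fun R => (ConcreteCategory.isIso_iff_bijective _).2 us_bij
  exact NatIso.isIso_of_isIso_app _

variable {X Y Z : Scheme.{0}}

/-- Units as sections of the K-sheaf. -/
def θ0 (Y : Scheme.{0}) : Y.presheaf ⋙ unitsF ⟶ (KS Y 1).obj :=
  Functor.whiskerLeft _ η ≫ toSheafify _ (KP Y 1)

theorem θ0_iso (Y : Scheme.{0}) : IsIso (θ0 Y) := by
  have := η_iso
  have : IsIso (toSheafify (Opens.grothendieckTopology Y) (KP Y 1)) := isIso_toSheafify _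
    ((Presheaf.isSheaf_of_iso_iff (asIso (Functor.whiskerLeft Y.presheaf η))).1
      (isSheaf_units Y.sheaf))
  exact IsIso.comp_isIso' (inferInstance : IsIso (Functor.whiskerLeft Y.presheaf η)) this

/-- Units as sections of the direct image of the K-sheaf. -/
def θ (g : Y ⟶ X) : K1 g ⟶ KD g 1 := ⟨Functor.whiskerLeft (Opens.map g.base).op (θ0 Y)⟩

theorem θ_iso (g : Y ⟶ X) : IsIso (θ g) := by
  have := θ0_iso Y
  have : IsIso ((sheafToPresheaf _ _).map (θ g)) :=
    (inferInstance : IsIso (Functor.whiskerLeft (Opens.map g.base).op (θ0 Y)))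
  exact isIso_of_reflects_iso _ (sheafToPresheaf _ _)

theorem θ0_pull (h : Z ⟶ Y) : θ0 Y ≫ (pull h 1).hom =
    Functor.whiskerRight h.c unitsF ≫ Functor.whiskerLeft (Opens.map h.base).op (θ0 Z) := by
  unfold θ0 pull
  erw [Category.assoc, toSheafify_sheafifyLift]
  ext U : 2
  exact (η.naturality_assoc (h.c.app U) _).symm

theorem θ_pull (g : Y ⟶ X) (g' : Z ⟶ X) (h : Z ⟶ Y) (e : h ≫ g = g') (c : Compat g g' h) :
    K1map g g' h c ≫ θ g' = θ g ≫ pullD g h 1 ≫ eqToHom (by rw [e]) := by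
  subst e
  rw [eqToHom_refl, Category.comp_id]
  apply Sheaf.hom_ext
  ext U : 2
  have h1 := congrArg (fun φ => φ.app ((Opens.map g.base).op.obj U)) (θ0_pull h)
  refine Eq.trans ?_ h1.symm
  exact congrArg (fun φ => unitsF.map φ ≫ (θ0 Z).app _) (h.app_eq_appLE (U := g ⁻¹ᵁ U.unop)).symm

theorem θ_res (X : Scheme.{0}) : ∃ ψ : KS X 1 ⟶ K1 (𝟙 X), ∀ (Y : Scheme.{0}) (g : Y ⟶ X)
    (c : Compat (𝟙 X) g g), ψ ≫ K1map (𝟙 X) g g c ≫ θ g = pull g 1 := by
  obtain ⟨ι, -, h⟩ := (θ0_iso X).out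
  refine ⟨⟨ι⟩, fun Y g c => ?_⟩
  have e : (K1map (𝟙 X) g g c ≫ θ g).hom = θ0 X ≫ (pull g 1).hom := by
    refine Eq.trans ?_ (θ0_pull g).symm
    ext U : 2
    exact congrArg (fun φ => unitsF.map φ ≫ (θ0 Y).app _) (g.app_eq_appLE (U := U.unop)).symm
  refine Sheaf.hom_ext ((congrArg (ι ≫ ·) e).trans ?_)
  rw [← Category.assoc, h, Category.id_comp]

/-- The free abelian sheaf on the whole space is the constant sheaf. -/
def zIso (X : Scheme.{0}) : (Functor.const X.Opensᵒᵖ).obj (AddCommGrpCat.of (ULift.{0} ℤ)) ≅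
    yoneda.obj (⊤ : X.Opens) ⋙ AddCommGrpCat.free :=
  (NatIso.ofComponents (fun W => AddEquiv.toAddCommGrpIso
    ((@FreeAbelianGroup.uniqueEquiv (W.unop ⟶ ⊤) ⟨⟨homOfLE le_top⟩, fun _ => rfl⟩).trans
      AddEquiv.ulift.symm)) fun {W W'} i => by
    refine AddCommGrpCat.hom_ext (FreeAbelianGroup.lift_ext _ _ fun j => ULift.ext _ _ ?_)
    exact (FreeAbelianGroup.lift_apply_of (fun _ : W'.unop ⟶ ⊤ => (1 : ℤ)) (i.unop ≫ j)).trans
      (FreeAbelianGroup.lift_apply_of (fun _ : W.unop ⟶ ⊤ => (1 : ℤ)) j).symm).symm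

/-- The two forms of `H¹` agree. -/
def hIso (X : Scheme.{0}) : HF X ≅ S.HH X 1 :=
  haveI := hasExt X
  (Abelian.extFunctor.{0} 1).mapIso
    ((presheafToSheaf (Opens.grothendieckTopology X) _).mapIso (zIso X)).op

theorem missed_of {C C' : AddCommGrpCat.{0}} {H H' : ℕ → AddCommGrpCat.{0}}
    {t : ∀ n, H (n + 1) ⟶ H n} {t' : ∀ n, H' (n + 1) ⟶ H' n} {ρ : ∀ n, C ⟶ H n}
    {ρ' : ∀ n, C' ⟶ H' n} {p : ℕ} (α : ∀ n, H n ⟶ H' (n + 1)) (hα : ∀ n, IsIso (α n))
    (h1 : ∀ n, t n ≫ α n = α (n + 1) ≫ t' (n + 1))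
    (h2 : ∃ β : C' ⟶ C, ∀ n, β ≫ ρ n ≫ α n = ρ' (n + 1)) (h : Missed C H t ρ p) :
    Missed C' H' t' ρ' p := by
  obtain ⟨y, hy, h⟩ := h
  obtain ⟨β, hβ⟩ := h2
  refine ⟨fun n => Nat.casesOn n ((t' 0).hom ((α 0).hom (y 0))) fun n => (α n).hom (y n),
    fun n => ?_, fun r hr c => ?_⟩
  · cases n with
    | zero => rfl
    | succ n =>
      have := congrArg (fun φ => φ.hom (y (n + 1))) (h1 n)
      exact this.symm.trans (congrArg (α n).hom (hy n))
  · obtain ⟨n, hn⟩ := h r hr (β.hom c)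
    have hb := (ConcreteCategory.isIso_iff_bijective (α n)).1 (hα n)
    refine ⟨n + 1, fun z hz => ?_⟩
    obtain ⟨z, rfl⟩ := hb.2 z
    refine hn z (hb.1 ?_)
    rw [map_sub, map_nsmul]
    exact (congrArg (fun φ => φ.hom c - (α n).hom (y n)) (hβ n)).trans hz

theorem missed {A : Type} [CommRing A] (f : X ⟶ Spec (.of A)) (π : A) (p : ℕ)
    (h : Missed ((HF X).obj (K1 (𝟙 X))) (fun n => (HF X).obj (K1 (thick f π (n + 1))))
      (fun n => (HF X).map (trans f π (n + 1))) (fun n => (HF X).map (restr f π (n + 1))) p) :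
    Missed ((S.HH X 1).obj (S.KS X 1)) (fun n => (S.HH X 1).obj (S.KD (thick f π n) 1))
      (fun n => (S.HH X 1).map (S.tr f π 1 n))
      (fun n => (S.HH X 1).map (S.pull (thick f π n) 1)) p := by
  refine missed_of (fun n => (hIso X).hom.app _ ≫ (S.HH X 1).map (θ (thick f π (n + 1))))
    (fun n => ?_) (fun n => ?_) ?_ h
  · exact IsIso.comp_isIso' ((hIso X).app _).isIso_hom
      (@Functor.map_isIso _ _ _ _ _ _ _ _ (θ_iso (thick f π (n + 1))))
  · rw [(hIso X).hom.naturality_assoc, Category.assoc, ← Functor.map_comp, ← Functor.map_comp]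
    exact congrArg (fun φ => _ ≫ (S.HH X 1).map φ)
      (θ_pull _ _ _ (step_thick f π (n + 1)) (compat_step f π (n + 1)))
  · obtain ⟨ψ, h⟩ := θ_res X
    refine ⟨(S.HH X 1).map ψ ≫ (hIso X).inv.app _, fun n => ?_⟩
    rw [(hIso X).hom.naturality_assoc, Category.assoc, Iso.inv_hom_id_app_assoc,
      ← Functor.map_comp]
    exact ((S.HH X 1).map_comp _ _).symm.trans
      (congrArg (S.HH X 1).map (h _ _ (compat_thick f π (n + 1))))

theorem gersten {m : ℕ} (h : Gersten X m) : S.Gersten X m := by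
  unfold S.Gersten
  simp only [S.dd_eq]
  exact h

end Uni

end

end Pool.Agent.KEW

end MrgPart0

-- ======== part 1: formerly Pool.Agent.MP_55d974_ag.kew.San
section MrgPart1

/-! PROJECT KEW, a test of the definitions: the Gersten complex in weights zero and one. -/

open AlgebraicGeometry CategoryTheory TopologicalSpace Opposite IsLocalRing

namespace Pool.Agent.KEW

noncomputable section

open Classical PtsA

namespace San

variable {X : Scheme.{0}}

theorem eq_of_dim {y z : X} {n : ℕ} (h : y ⤳ z) (hy : ringKrullDim (X.presheaf.stalk y) = n)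
    (hz : ringKrullDim (X.presheaf.stalk z) = n) : y = z := by
  by_contra hn
  have h1 : ∀ x : X, ringKrullDim (X.presheaf.stalk x) = n → Order.coheight x = n := fun x hx =>
    WithBot.coe_injective ((ringKrullDim_stalk_eq_coheight x).symm.trans hx)
  have h2 : z < y := lt_of_le_not_ge h fun h' => hn (Specializes.antisymm h h').eq
  have := Order.coheight_strictAnti h2 (by simp [h1 y hy])
  rw [h1 y hy, h1 z hz] at this
  exact lt_irrefl _ this

theorem eq_of_zero {y z : X} (h : y ⤳ z) (hz : ringKrullDim (X.presheaf.stalk z) = 0) : y = z := by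
  have h1 : Order.coheight z = 0 :=
    WithBot.coe_injective ((ringKrullDim_stalk_eq_coheight z).symm.trans hz)
  exact (Specializes.antisymm h (Order.coheight_eq_zero.1 h1 (show z ≤ y from h))).eq

theorem gen (x : X) [IsDomain (X.presheaf.stalk x)] : ∃ w, w ⤳ x ∧
    ringKrullDim (X.presheaf.stalk w) = 0 ∧ ∀ y, y ⤳ x → w ⤳ y := by
  obtain ⟨w, h1, h2⟩ := gen_pt x
  refine ⟨w, h1, ?_, h2⟩
  rw [ringKrullDim_stalk_eq_coheight, Order.coheight_eq_zero.2 fun y hy =>
    h2 y (Specializes.trans hy h1)]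
  rfl

theorem gz_inj {w z : X} [IsDomain (X.presheaf.stalk z)] (h : w ⤳ z)
    (hw : ringKrullDim (X.presheaf.stalk w) = 0) : Function.Injective (gz h) := by
  obtain ⟨z', k, hz⟩ := pt0 (⊥ : Ideal (X.presheaf.stalk z))
  obtain rfl : z' = w := eq_of_zero (ord0 k h fun a ha => by
    rw [Ideal.mem_bot.1 ((hz a).2 ha), map_zero]
    exact zero_mem _) hw
  exact (injective_iff_map_eq_zero _).2 fun a ha => (hz a).2 ((gz_zero h a).1 ha)

theorem dK_zero {y z : X} {β : Kr (X.residueField y)}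
    (h : ∀ V, Pl y z V → tame V (residue V) β = 0) : dK y z β = 0 := by
  rw [dif_dK]
  split_ifs
  · rw [finsum_def]
    split_ifs
    · rw [AddMonoidHom.finsetSum_apply]
      exact Finset.sum_eq_zero fun V _ => by rw [AddMonoidHom.comp_apply, h V.1 V.2, map_zero]
    · rfl
  · rfl

theorem dK_int (y z : X) (n : ℤ) : dK y z n = 0 := dK_zero fun V P => by
  rw [← map_intCast (kmap V.subtype)]
  exact tameS.unit V _ P.dvr inferInstance _

theorem dK_unit {y z : X} (h : y ⤳ z) {f : (X.residueField y)ˣ} {a : X.presheaf.stalk z}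
    (ha : IsUnit a) (e : (f : X.residueField y) = gz h a) : dK y z (sym f) = 0 :=
  dK_zero fun V P => by
    obtain ⟨u, rfl⟩ := ha
    have : f = Units.map V.subtype.toMonoidHom
      (Units.map ((gz h).codRestrict V P.mem).toMonoidHom u) := Units.ext e
    rw [this, ← kmap_sym]
    exact tameS.unit V _ P.dvr inferInstance _

theorem dK_irr {w z : X} [IsDomain (X.presheaf.stalk z)]
    [IsDiscreteValuationRing (X.presheaf.stalk z)] (h : w ⤳ z)
    (hw : ringKrullDim (X.presheaf.stalk w) = 0) {f : (X.residueField w)ˣ}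
    {a : X.presheaf.stalk z} (ha : Irreducible a) (e : (f : X.residueField w) = gz h a) :
    dK w z (sym f) = 1 := by
  have hi := gz_inj h hw
  have := ptsS X |>.frac h
  let V : ValuationSubring (X.residueField w) := ValuationSubring.ofSubring (O h) fun t => by
    obtain ⟨⟨_, c, rfl⟩, ⟨_, s, rfl⟩, hs, rfl⟩ := IsFractionRing.div_surjective (A := O h) t
    change gz h c / gz h s ∈ O h ∨ (gz h c / gz h s)⁻¹ ∈ O h
    rcases ValuationRing.dvd_total c s with ⟨r, rfl⟩ | ⟨r, rfl⟩
    · by_cases h0 : gz h c = 0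
      · simp [h0]
      · exact Or.inr ⟨r, by rw [inv_div, map_mul, mul_div_cancel_left₀ _ h0]⟩
    · have h0 : gz h s ≠ 0 := fun h0 => nonZeroDivisors.ne_zero hs (Subtype.ext h0)
      exact Or.inl ⟨r, by rw [map_mul, mul_div_cancel_left₀ _ h0]⟩
  have hm : ∀ b, gz h b ∈ V := fun b => ⟨b, rfl⟩
  let ε : X.presheaf.stalk z ≃+* V := RingEquiv.ofBijective ((gz h).codRestrict V hm)
    ⟨fun b c hbc => hi (congrArg Subtype.val hbc), fun ⟨_, b, hb⟩ => ⟨b, Subtype.ext hb⟩⟩
  have P : Pl w z V := ⟨h, IsDiscreteValuationRing.RingEquivClass.isDiscreteValuationRing ε, hm,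
    ⟨fun b hb => (isUnit_map_iff ε b).1 hb⟩⟩
  have hu : ∀ W, Pl w z W → W = V := fun W Q => by
    refine le_antisymm (fun t ht => by_contra fun hn => ?_) (by
      rintro _ ⟨b, rfl⟩
      exact Q.mem b)
    obtain ⟨b, hb⟩ : t⁻¹ ∈ V := (V.mem_or_inv_mem t).resolve_left hn
    have h0 : t ≠ 0 := fun h0 => hn (h0 ▸ V.zero_mem)
    obtain ⟨u, rfl⟩ := Q.loc.map_nonunit b ((unit_iff W _).2 ⟨by
      change gz h b ≠ 0
      rw [hb]
      exact inv_ne_zero h0, by
      change (gz h b)⁻¹ ∈ W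
      rwa [hb, inv_inv]⟩)
    refine hn ⟨(u⁻¹ : _ˣ), ?_⟩
    rw [← inv_inv t, ← hb]
    exact eq_inv_of_mul_eq_one_left (by rw [← map_mul, Units.inv_mul, map_one])
  rw [dif_dK, if_pos (by rw [hw, IsDiscreteValuationRing.ringKrullDim_eq_one, zero_add]),
    finsum_eq_single _ (⟨V, P⟩ : {V // Pl w z V}) fun W hW =>
      (hW (Subtype.ext (hu W.1 W.2))).elim, AddMonoidHom.comp_apply]
  have h1 := tameS.unif V (residue V) P.dvr inferInstance (ε a) f (ha.map ε) e 1
  rw [map_one, mul_one, map_one] at h1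
  have h2 := (nrmS tameS (milS tameS)).bij (rk P) (fun t => by
    obtain ⟨t, rfl⟩ := residue_surjective t
    obtain ⟨b, rfl⟩ := ε.surjective t
    exact ⟨residue _ b, @ResidueField.map_residue _ _ _ _ _ _ _ P.loc _⟩) 1
  rw [map_one] at h2
  exact (congrArg _ h1).trans h2

theorem dd_gen {x w : X} {i : ℕ} {a : Ch X} (ha : Deg x 0 i a) (hg : ∀ y, y ⤳ x → w ⤳ y) (z : X) :
    dd a z = dK w z (a w) := by
  have : a = DFinsupp.single w (a w) := DFinsupp.ext fun y => by
    by_cases hy : w = y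
    · subst hy
      rw [DFinsupp.single_eq_same]
    · rw [DFinsupp.single_eq_of_ne (Ne.symm hy)]
      by_contra h0
      exact hy (eq_of_zero (hg y ((ha y).2 h0).1) ((ha y).2 h0).2)
  conv_lhs => rw [this]
  exact dif_dd_single _ _ _

theorem ev_eq {U : X.Opens} {x y : X} (hx : x ∈ U) (h : y ⤳ x) :
    (X.evaluation U y (h.mem_open U.2 hx)).hom = (gz h).comp (X.presheaf.germ U x hx).hom :=
  RingHom.ext fun c => by
    rw [RingHom.comp_apply, gz_eq, sp_germ]
    rfl

theorem res_zero {U : X.Opens} {x : X} (hx : x ∈ U) (T : Finset Γ(X, U))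
    (h : ∀ c ∈ T, X.presheaf.germ U x hx c = 0) :
    ∃ (V : X.Opens) (_ : x ∈ V) (i : V ⟶ U), ∀ c ∈ T, X.presheaf.map i.op c = 0 := by
  induction T using Finset.induction_on with
  | empty => exact ⟨U, hx, 𝟙 _, by simp⟩
  | insert c T _ ih =>
    obtain ⟨V, hV, i, h1⟩ := ih fun c hc => h c (Finset.mem_insert_of_mem hc)
    obtain ⟨W, hW, j, j', h2⟩ := X.presheaf.germ_eq x hV hV (X.presheaf.map i.op c) 0 (by
      rw [X.presheaf.germ_res_apply, map_zero]
      exact h c (Finset.mem_insert_self _ _))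
    refine ⟨W, hW, j ≫ i, fun b hb => ?_⟩
    rw [op_comp, X.presheaf.map_comp, CommRingCat.comp_apply]
    rcases Finset.mem_insert.1 hb with rfl | hb
    · rw [h2, map_zero]
    · rw [h1 b hb, map_zero]

theorem rt_zero {U : X.Opens} {x w : X} [IsDomain (X.presheaf.stalk x)] (hx : x ∈ U) (h : w ⤳ x)
    (hw : ringKrullDim (X.presheaf.stalk w) = 0) (c : RT Γ(X, U) Unit)
    (hc : rt (.refl _) (X.evaluation U w (h.mem_open U.2 hx)).hom c = 0) :
    ∃ (V : X.Opens) (_ : x ∈ V) (i : V ⟶ U), rt (.refl _) (X.presheaf.map i.op).hom c = 0 := by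
  obtain ⟨⟨P, Q⟩, e⟩ := IsLocalization.surj (prim Γ(X, U) Unit) c
  have h1 := congrArg (rt (.refl _) (X.evaluation U w (h.mem_open U.2 hx)).hom) e
  rw [map_mul, hc, zero_mul, Ct.rt_poly, eq_comm,
    map_eq_zero_iff _ (IsLocalization.injective _ Ct.prim_nzd),
    map_eq_zero_iff _ (MvPolynomial.rename_injective _ (Function.Embedding.refl Unit).injective)]
    at h1
  obtain ⟨V, hV, i, h2⟩ := res_zero hx P.coeffs fun b hb => by
    obtain ⟨j, -, rfl⟩ := MvPolynomial.mem_coeffs_iff.1 hb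
    have := congrArg (MvPolynomial.coeff j) h1
    rw [MvPolynomial.coeff_map, ev_eq hx h, MvPolynomial.coeff_zero] at this
    exact (map_eq_zero_iff _ (gz_inj h hw)).1 this
  refine ⟨V, hV, i, ?_⟩
  have h3 := congrArg (rt (.refl Unit) (X.presheaf.map i.op).hom) e
  have h4 : MvPolynomial.map (X.presheaf.map i.op).hom P = 0 := MvPolynomial.ext _ _ fun j => by
    rw [MvPolynomial.coeff_map, MvPolynomial.coeff_zero]
    by_cases h0 : MvPolynomial.coeff j P = 0
    · rw [h0, map_zero]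
    · exact h2 _ (MvPolynomial.coeff_mem_coeffs j h0)
  rw [map_mul, Ct.rt_poly _ _ P, h4, map_zero, map_zero] at h3
  exact (((IsLocalization.map_units _ Q).map _).mul_left_eq_zero).1 h3

theorem low {m : ℕ} (hm : m ≤ 1) {U : X.Opens} {x : X} [IsDomain (X.presheaf.stalk x)]
    (hx : x ∈ U) (s : (KP X m).obj (op U)) (hs : Agree hx s 0) :
    ∃ (V : X.Opens) (_ : x ∈ V) (i : V ⟶ U), (KP X m).map i.op s = 0 := by
  obtain ⟨w, h, hw, -⟩ := gen x
  have h1 := hs w h hw
  rw [DFinsupp.zero_apply, map_zero] at h1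
  obtain ⟨s, hs'⟩ := s
  interval_cases m
  · obtain ⟨n, rfl⟩ := Ct.K_zero hs'.1
    change kmap _ (n : Kr _) = 0 at h1
    rw [map_intCast] at h1
    obtain rfl := Ct.int_inj h1
    exact ⟨U, hx, 𝟙 _, Subtype.ext (by
      change kmap _ ((0 : ℤ) : Kr _) = 0
      rw [Int.cast_zero, map_zero])⟩
  · obtain ⟨u, rfl⟩ := Ct.K_one hs'.1
    change kmap _ (sym u) = 0 at h1
    rw [kmap_sym, ← Ct.sym_one] at h1
    obtain ⟨V, hV, i, h2⟩ := rt_zero hx h hw ((u : RT Γ(X, U) Unit) - 1) (by
      rw [map_sub, map_one, sub_eq_zero]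
      exact congrArg Units.val (Ct.sym_inj h1))
    refine ⟨V, hV, i, Subtype.ext ?_⟩
    change kmap _ (sym u) = 0
    rw [kmap_sym, ← Ct.sym_one]
    rw [map_sub, map_one, sub_eq_zero] at h2
    exact congrArg sym (Units.ext h2)

/-- A generisation given by a prime element. -/
def By {z x : X} (k : z ⤳ x) (p : X.presheaf.stalk x) : Prop :=
  Prime p ∧ ∀ a, p ∣ a ↔ sp k a ∈ maximalIdeal _

theorem by_of_prime {x : X} {p : X.presheaf.stalk x} (hp : Prime p) :
    ∃ (z : X) (k : z ⤳ x), By k p := by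
  have := (Ideal.span_singleton_prime hp.ne_zero).2 hp
  obtain ⟨z, k, hz⟩ := pt0 (Ideal.span {p})
  exact ⟨z, k, hp, fun a => Ideal.mem_span_singleton.symm.trans (hz a)⟩

variable [∀ x : X, IsDomain (X.presheaf.stalk x)]
  [∀ x : X, UniqueFactorizationMonoid (X.presheaf.stalk x)]

theorem By.dvr {z x : X} {k : z ⤳ x} {p : X.presheaf.stalk x} (H : By k p) :
    IsDiscreteValuationRing (X.presheaf.stalk z) ∧ Irreducible (sp k p) := by
  obtain ⟨w, h, hw, hg⟩ := gen x
  have h0 : sp k p ≠ 0 := fun h0 => H.1.ne_zero (gz_inj h hw (by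
    rw [← gz_sp (hg z k) k, h0, map_zero, map_zero]))
  have h1 : ∀ e ∈ maximalIdeal (X.presheaf.stalk z), sp k p ∣ e := fun e he => by
    obtain ⟨c, s, hs, h2⟩ := sp_surj k e
    obtain ⟨r, rfl⟩ := (H.2 c).2 (h2 ▸ Ideal.mul_mem_right _ _ he)
    rw [← hs.dvd_mul_right, h2, map_mul]
    exact dvd_mul_right _ _
  have h2 : sp k p ∈ maximalIdeal _ := (H.2 p).1 dvd_rfl
  have h3 : maximalIdeal (X.presheaf.stalk z) = Ideal.span {sp k p} :=
    le_antisymm (fun e he => Ideal.mem_span_singleton.2 (h1 e he))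
      ((Ideal.span_singleton_le_iff_mem _).2 h2)
  have h4 : Irreducible (sp k p) :=
    ((Ideal.span_singleton_prime h0).1 (h3 ▸ inferInstance)).irreducible
  exact ⟨IsDiscreteValuationRing.of_ufd_of_unique_irreducible ⟨_, h4⟩ fun a b ha hb =>
    (h4.associated_of_dvd ha (h1 a ha.not_isUnit)).symm.trans
      (h4.associated_of_dvd hb (h1 b hb.not_isUnit)), h4⟩

theorem By.dim {z x : X} {k : z ⤳ x} {p : X.presheaf.stalk x} (H : By k p) :
    ringKrullDim (X.presheaf.stalk z) = (1 : ℕ) :=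
  have := H.dvr.1
  IsDiscreteValuationRing.ringKrullDim_eq_one _

theorem by_of_dim {z x : X} (k : z ⤳ x) (hz : ringKrullDim (X.presheaf.stalk z) = (1 : ℕ)) :
    ∃ p, By k p := by
  obtain ⟨w, h, hw, hg⟩ := gen x
  obtain ⟨p, hp, hp'⟩ := Ideal.IsPrime.exists_mem_prime_of_ne_bot
    (inferInstance : ((maximalIdeal _).comap (sp k)).IsPrime) fun h0 => by
      obtain rfl : z = w := eq_of_zero (ord0 k h fun a ha => by
        have h1 : a ∈ (maximalIdeal _).comap (sp k) := ha
        rw [h0, Ideal.mem_bot] at h1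
        rw [h1, map_zero]
        exact zero_mem _) hw
      rw [hw] at hz
      exact zero_ne_one hz
  obtain ⟨z', k', H⟩ := by_of_prime hp'
  obtain rfl : z' = z := eq_of_dim (ord0 k' k fun a ha => by
    obtain ⟨r, rfl⟩ := (H.2 a).2 ha
    rw [map_mul]
    exact Ideal.mul_mem_right _ _ hp) H.dim hz
  exact ⟨p, H⟩

theorem By.one {w z x : X} {k : z ⤳ x} {p : X.presheaf.stalk x} (H : By k p) (h : w ⤳ x)
    (hw : ringKrullDim (X.presheaf.stalk w) = 0) (h' : w ⤳ z) {f : (X.residueField w)ˣ}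
    (e : (f : X.residueField w) = gz h p) : dK w z (sym f) = 1 :=
  have := H.dvr.1
  dK_irr h' hw H.dvr.2 (e.trans (gz_sp h' k p).symm)

theorem By.zero {w z z' x : X} {k : z ⤳ x} {p : X.presheaf.stalk x} (H : By k p) (h : w ⤳ x)
    (hw : ringKrullDim (X.presheaf.stalk w) = 0) (k' : z' ⤳ x) (h' : w ⤳ z') (hn : z ≠ z')
    {f : (X.residueField w)ˣ} (e : (f : X.residueField w) = gz h p) : dK w z' (sym f) = 0 := by
  by_cases hd : ringKrullDim (X.presheaf.stalk z') = (1 : ℕ)
  · refine dK_unit h' (a := sp k' p) (by_contra fun hu => hn (eq_of_dim (ord0 k k' fun a ha => ?_)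
      H.dim hd)) (e.trans (gz_sp h' k' p).symm)
    obtain ⟨r, rfl⟩ := (H.2 a).2 ha
    rw [map_mul]
    exact Ideal.mul_mem_right _ _ hu
  · rw [dif_dK, if_neg (by rwa [hw, zero_add])]
    rfl

theorem unit_of {w x : X} (h : w ⤳ x) (hw : ringKrullDim (X.presheaf.stalk w) = 0)
    (hg : ∀ y, y ⤳ x → w ⤳ y) (f : (X.residueField w)ˣ) {a b : X.presheaf.stalk x}
    (hab : IsRelPrime a b) (e : f * gz h b = gz h a) (hb : b ≠ 0)
    (H : ∀ z, z ⤳ x → dK w z (sym f) = 0) : IsUnit a := by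
  have hi := gz_inj h hw
  have hb' : gz h b ≠ 0 := (map_ne_zero_iff _ hi).2 hb
  have ha : a ≠ 0 := fun h0 => mul_ne_zero f.ne_zero hb' (by rw [e, h0, map_zero])
  by_contra hn
  obtain ⟨p, hp, hpa⟩ := WfDvdMonoid.exists_irreducible_factor hn ha
  obtain ⟨z, k, B⟩ := by_of_prime hp.prime
  obtain ⟨n, a', h1, rfl⟩ := WfDvdMonoid.max_power_factor ha hp
  have hn0 : n ≠ 0 := by
    rintro rfl
    exact h1 (by simpa using hpa)
  have un : ∀ c, ¬ p ∣ c → IsUnit (sp k c) := fun c hc => by_contra fun hu => hc ((B.2 c).2 hu)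
  have ha' : gz h a' ≠ 0 := (map_ne_zero_iff _ hi).2 (right_ne_zero_of_mul ha)
  have hp' : gz h p ≠ 0 := (map_ne_zero_iff _ hi).2 hp.ne_zero
  have h2 : f * Units.mk0 _ hb' = Units.mk0 _ hp' ^ n * Units.mk0 _ ha' :=
    Units.ext (by simpa using e)
  have h3 := congrArg (fun u => dK w z (sym u)) h2
  have h4 : ∀ (u : (X.residueField w)ˣ) (n : ℕ), sym (u ^ n) = n • sym u := fun u n => by
    induction n with
    | zero => rw [pow_zero, Ct.sym_one, zero_smul]
    | succ n ih => rw [pow_succ, Ct.sym_mul, ih, succ_nsmul]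
  simp only [Ct.sym_mul, h4, map_add, map_nsmul] at h3
  rw [H z k, dK_unit (f := Units.mk0 _ hb') (hg z k) (un b fun hc => hp.not_isUnit (hab hpa hc))
    (gz_sp (hg z k) k b).symm,
    dK_unit (f := Units.mk0 _ ha') (hg z k) (un a' h1) (gz_sp (hg z k) k a').symm,
    B.one (f := Units.mk0 _ hp') h hw (hg z k) rfl, add_zero, add_zero, nsmul_one] at h3
  exact hn0 (Int.natCast_eq_zero.1 (Ct.int_inj (n := n) (by rw [Int.cast_natCast, ← h3])))

end San

open San

/-- The Gersten complex of weight zero is exact if the local rings are domains. -/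
theorem gersten_zero (X : Scheme.{0}) [∀ x : X, IsDomain (X.presheaf.stalk x)] : Gersten X 0 := by
  intro x
  refine ⟨fun U hx => low zero_le_one hx, fun a ha => ?_, fun j i a h => by omega⟩
  obtain ⟨w, h, hw, hg⟩ := gen x
  obtain ⟨n, hn⟩ := Ct.K_zero (ha w).1
  refine iff_of_true (fun z _ => by rw [dd_gen ha hg, hn, dK_int])
    ⟨⊤, trivial, ⟨_, (khS contS).mem _ 0 n (Ct.int_mem n)⟩, fun y k hy => ?_⟩
  obtain rfl := eq_of_zero (hg y k) hy
  rw [hn]
  simp only [map_intCast]

/-- The Gersten complex of weight one is exact if the local rings are factorial. -/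
theorem gersten_one (X : Scheme.{0}) [∀ x : X, IsDomain (X.presheaf.stalk x)]
    [∀ x : X, UniqueFactorizationMonoid (X.presheaf.stalk x)] : Gersten X 1 := by
  intro x
  obtain ⟨w, h, hw, hg⟩ := gen x
  have hi := gz_inj h hw
  refine ⟨fun U hx => low le_rfl hx, fun a ha => ⟨fun H => ?_, ?_⟩, fun j i a hji ha => ?_⟩
  · obtain ⟨f, hf⟩ := Ct.K_one (ha w).1
    simp only [dd_gen ha hg, hf] at H
    have := (ptsS X).frac h
    obtain ⟨⟨_, c, rfl⟩, ⟨_, s, rfl⟩, hs, e⟩ :=
      IsFractionRing.div_surjective (A := O h) (f : X.residueField w)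
    have h0 : gz h s ≠ 0 := fun h0 => nonZeroDivisors.ne_zero hs (Subtype.ext h0)
    obtain ⟨c, s, r, hcs, rfl, rfl⟩ := UniqueFactorizationMonoid.exists_reduced_factors' c s
      ((map_ne_zero_iff _ hi).1 h0)
    rw [map_mul, mul_ne_zero_iff] at h0
    have e1 : f * gz h s = gz h c := by
      rw [← e]
      change gz h (r * c) / gz h (r * s) * _ = _
      rw [map_mul, map_mul, mul_div_mul_left _ _ h0.1, div_mul_cancel₀ _ h0.2]
    have hs0 := (map_ne_zero_iff _ hi).1 h0.2
    have hc := unit_of h hw hg f hcs e1 hs0 H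
    have hs' := unit_of h hw hg f⁻¹ hcs.symm (by rw [← e1, Units.inv_mul_cancel_left]) hc.ne_zero
      fun z k => by rw [Ct.sym_inv, map_neg, H z k, neg_zero]
    obtain ⟨c, rfl⟩ := hc
    obtain ⟨s, rfl⟩ := hs'
    obtain ⟨U, hx, g, hg'⟩ := X.presheaf.exists_germ_eq ((c * s⁻¹ : _ˣ) : X.presheaf.stalk x)
    obtain ⟨V, i, hV, u, hu⟩ := X.toRingedSpace.isUnit_res_of_isUnit_germ U g x hx
      (hg' ▸ Units.isUnit _)
    refine ⟨V, hV, ⟨_, (khS contS).mem _ 1 (sym u) (Ct.sym_mem u)⟩, fun y k hy => ?_⟩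
    obtain rfl := eq_of_zero (hg y k) hy
    refine ((khS contS).nat _ _ _ _).trans (congrArg _ ?_)
    rw [hf, kmap_sym]
    refine congrArg sym (Units.ext ?_)
    change (X.evaluation V w _).hom u = f
    rw [ev_eq hV h, RingHom.comp_apply, hu, X.presheaf.germ_res_apply, hg', Units.val_mul, map_mul,
      ← e1, mul_assoc, ← map_mul, Units.mul_inv, map_one, mul_one]
  · rintro ⟨U, hx, ⟨s, hs'⟩, hs⟩ z k
    obtain ⟨y, hy, e⟩ := (khS contS).surj _ 1 (Or.inr le_rfl) _
      (kh_mem (X.presheaf.germ U x hx).hom hs')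
    obtain ⟨u, rfl⟩ := Ct.K_one hy
    have h1 := hs w h hw
    rw [ev_eq hx h] at h1
    have h2 := congrArg (kmap (rt (.refl Unit) (gz h))) e
    rw [(khS contS).nat] at h2
    replace h2 := h2.trans (kmap_comp _ _ _)
    rw [rt_comp] at h2
    have h3 := (khS contS).inj _ 1 (Or.inr le_rfl) _
      (sub_mem (kmap_mem (gz h) hy) (ha w).1) (by rw [map_sub, h2, sub_eq_zero]; exact h1)
    rw [dd_gen ha hg, ← sub_eq_zero.1 h3, kmap_sym]
    exact dK_unit (hg z k) (u.isUnit.map (sp k)) (gz_sp (hg z k) k u).symm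
  · obtain ⟨rfl, rfl⟩ : j = 0 ∧ i = 0 := by omega
    choose n hn using fun y => Ct.K_zero (ha y).1
    refine iff_of_true (fun z _ => dif_dd_zero a z fun y => by rw [hn, dK_int]) ?_
    have key : ∀ y, ∃ β ∈ K (X.residueField w) 1, a y ≠ 0 →
        dK w y β = 1 ∧ ∀ z, z ⤳ x → y ≠ z → dK w z β = 0 := fun y => by
      by_cases h0 : a y = 0
      · exact ⟨0, zero_mem _, fun h => (h h0).elim⟩
      · obtain ⟨k, hd⟩ := (ha y).2 h0
        obtain ⟨p, B⟩ := by_of_dim k hd
        exact ⟨_, Ct.sym_mem (Units.mk0 _ ((map_ne_zero_iff _ hi).2 B.1.ne_zero)), fun _ =>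
          ⟨B.one h hw (hg y k) rfl, fun z k' hn => B.zero h hw k' (hg z k') hn rfl⟩⟩
    choose β hβ hβ' using key
    refine ⟨DFinsupp.single w (∑ y ∈ a.support, n y • β y), fun y => ?_, fun z k => ?_⟩
    · by_cases hy : w = y
      · subst hy
        rw [DFinsupp.single_eq_same]
        exact ⟨sum_mem fun y _ => zsmul_mem (hβ y) _, fun _ => ⟨h, hw⟩⟩
      · rw [DFinsupp.single_eq_of_ne (Ne.symm hy)]
        exact ⟨zero_mem _, fun h => (h rfl).elim⟩
    · rw [dif_dd_single, map_sum, Finset.sum_eq_single z (fun y hy hyz => by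
        rw [map_zsmul, (hβ' y (DFinsupp.mem_support_iff.1 hy)).2 z k hyz, smul_zero])
        (fun hz => by
          rw [Ct.int_inj ((hn z).symm.trans (DFinsupp.notMem_support_iff.1 hz)), zero_smul,
            map_zero]), map_zsmul]
      by_cases h0 : a z = 0
      · rw [Ct.int_inj ((hn z).symm.trans h0), zero_smul, h0]
      · rw [(hβ' z h0).1, zsmul_one, hn]

/-- The Gersten complex of weight zero is exact on regular schemes. -/
theorem gersten_zero_of_regular (X : Scheme.{0})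
    (h : ∀ x : X, IsRegularLocalRing (X.presheaf.stalk x)) : Gersten X 0 :=
  have : ∀ x : X, IsDomain (X.presheaf.stalk x) := fun x => have := h x; reg_dom _
  gersten_zero X

end

end Pool.Agent.KEW

end MrgPart1

-- ======== part 2: formerly Pool.Agent.MP_55d974_ag.kew.Ufd
section MrgPart2

/-! Regular local rings of dimension at most two are factorial; smooth curves over a discrete
valuation ring. -/

open AlgebraicGeometry CategoryTheory IsLocalRing

namespace Pool.Agent.KEW

namespace Ufd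

variable {R : Type} [CommRing R] [IsLocalRing R] [IsNoetherianRing R]

theorem nak {P N : Ideal R} [hP : P.IsPrime] {x : R} (hx : x ∈ maximalIdeal R) (hn : x ∉ P)
    (hN : N ≤ P) (h : P ≤ N ⊔ Ideal.span {x}) : P ≤ N := by
  refine Submodule.le_of_le_smul_of_le_jacobson_bot (I := maximalIdeal R)
    (IsNoetherian.noetherian P) (maximalIdeal_le_jacobson _) fun p hp => ?_
  obtain ⟨a, ha, _, hb, rfl⟩ := Submodule.mem_sup.1 (h hp)
  obtain ⟨b, rfl⟩ := Ideal.mem_span_singleton'.1 hb
  have h1 : b ∈ P := (hP.mem_or_mem ((P.add_mem_iff_right (hN ha)).1 hp)).resolve_right hn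
  exact Submodule.add_mem_sup ha (by
    rw [mul_comm]
    exact Submodule.smul_mem_smul hx h1)

theorem princ {x y : R} (h : maximalIdeal R = Ideal.span {x} ⊔ Ideal.span {y}) (P : Ideal R)
    [hP : P.IsPrime] (hn : x ∉ P) : P.IsPrincipal := by
  have hx : x ∈ maximalIdeal R := h ▸ Submodule.mem_sup_left (Ideal.mem_span_singleton_self x)
  have hy : y ∈ maximalIdeal R := h ▸ Submodule.mem_sup_right (Ideal.mem_span_singleton_self y)
  have hs := Ideal.Quotient.mk_surjective (I := Ideal.span {x})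
  have h0 : (Ideal.span {x}).map (Ideal.Quotient.mk (Ideal.span {x})) = ⊥ :=
    Ideal.map_quotient_self _
  have : IsPrincipalIdealRing (R ⧸ Ideal.span {x}) := IsPrincipalIdealRing.of_prime fun Q hQ => by
    have hle : Ideal.span {x} ≤ Q.comap (Ideal.Quotient.mk _) := by
      rw [← Ideal.map_le_iff_le_comap, h0]
      exact bot_le
    have hm : Q.comap (Ideal.Quotient.mk _) ≤ maximalIdeal R :=
      le_maximalIdeal (Ideal.comap_ne_top _ hQ.ne_top)
    rw [← Ideal.map_comap_of_surjective _ hs Q]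
    by_cases hyQ : y ∈ Q.comap (Ideal.Quotient.mk (Ideal.span {x}))
    · rw [le_antisymm hm (h ▸ sup_le hle ((Ideal.span_singleton_le_iff_mem _).2 hyQ)), h,
        Ideal.map_sup, h0, bot_sup_eq, Ideal.map_span, Set.image_singleton]
      exact ⟨_, rfl⟩
    · rw [le_antisymm (nak hy hyQ hle (h ▸ hm)) hle, h0]
      infer_instance
  obtain ⟨g, hg⟩ := (this.principal (P.map (Ideal.Quotient.mk (Ideal.span {x})))).principal
  obtain ⟨g, hgP, rfl⟩ := (Ideal.mem_map_iff_of_surjective _ hs).1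
    (hg.ge (Submodule.mem_span_singleton_self g))
  have hN : Ideal.span {g} ≤ P := (Ideal.span_singleton_le_iff_mem _).2 hgP
  refine ⟨g, le_antisymm (nak hx hn hN fun p hp => ?_) hN⟩
  obtain ⟨a, ha⟩ := Ideal.mem_span_singleton'.1 (hg.le (Ideal.mem_map_of_mem _ hp))
  obtain ⟨a, rfl⟩ := hs a
  rw [← map_mul, eq_comm, Ideal.Quotient.eq] at ha
  rw [← add_sub_cancel (a * g) p]
  exact Submodule.add_mem_sup (Ideal.mul_mem_left _ _ (Ideal.mem_span_singleton_self g)) ha

theorem two {I : Ideal R} (h : I.spanFinrank ≤ 2) :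
    ∃ x y, I = Ideal.span {x} ⊔ Ideal.span {y} := by
  classical
  obtain ⟨s, h1, h2⟩ := (IsNoetherian.noetherian I).exists_span_finset_card_eq_spanFinrank
  rw [← h1] at h
  rw [← h2]
  obtain h | h | h : s.card = 0 ∨ s.card = 1 ∨ s.card = 2 := by omega
  · exact ⟨0, 0, by simp [Finset.card_eq_zero.1 h]⟩
  · obtain ⟨x, rfl⟩ := Finset.card_eq_one.1 h
    exact ⟨x, x, by simp⟩
  · obtain ⟨x, y, -, rfl⟩ := Finset.card_eq_two.1 h
    exact ⟨x, y, by simp [Ideal.span_insert]⟩

end Ufd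

open Ufd

theorem ufd_two (R : Type) [CommRing R] [IsRegularLocalRing R] (h : ringKrullDim R ≤ 2) :
    haveI := reg_dom R
    UniqueFactorizationMonoid R := by
  have := reg_dom R
  have e : ((maximalIdeal R).spanFinrank : WithBot ℕ∞) = ringKrullDim R :=
    IsRegularLocalRing.spanFinrank_maximalIdeal
  obtain ⟨x, y, hm⟩ := two (I := maximalIdeal R) (by exact_mod_cast e.trans_le h)
  have h1 : ∀ P : Ideal R, P.IsPrime → P ≠ maximalIdeal R → P.IsPrincipal := fun P hP hn => by
    by_cases hx : x ∈ P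
    · refine princ (hm.trans (sup_comm _ _)) P fun hy => hn (le_antisymm
        (le_maximalIdeal hP.ne_top) (hm ▸ sup_le ?_ ?_)) <;>
      rwa [Ideal.span_singleton_le_iff_mem]
    · exact princ hm P hx
  have h2 : ∀ P : Ideal R, P ≠ ⊥ → P.IsPrime → P.IsPrincipal → ∃ x ∈ P, Prime x :=
    fun P h0 hP _ => ⟨_, Submodule.IsPrincipal.generator_mem P,
      Submodule.IsPrincipal.prime_generator_of_isPrime P h0⟩
  refine UniqueFactorizationMonoid.iff_exists_prime_mem_of_isPrime.2 fun P h0 hP => ?_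
  by_cases hn : P = maximalIdeal R
  · by_cases hq : ∃ Q : Ideal R, Q ≠ ⊥ ∧ Q.IsPrime ∧ Q ≠ maximalIdeal R
    · obtain ⟨Q, a, b, c⟩ := hq
      obtain ⟨z, hz, hz'⟩ := h2 Q a b (h1 Q b c)
      exact ⟨z, hn ▸ le_maximalIdeal b.ne_top hz, hz'⟩
    · have h3 : Ring.KrullDimLE 1 R := Ring.krullDimLE_one_iff_of_noZeroDivisors.2 fun Q a b => by
        by_contra c
        exact hq ⟨Q, a, b, fun d => c (d ▸ inferInstance)⟩
      have h4 : (maximalIdeal R).spanFinrank ≤ 1 := by
        exact_mod_cast e.trans_le (Ring.krullDimLE_iff.1 h3)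
      refine h2 P h0 hP (hn ▸ ((Submodule.spanFinrank_eq_one_iff _).1 (le_antisymm h4 ?_)).1)
      rw [Nat.one_le_iff_ne_zero]
      exact fun h5 => h0 (hn.trans
        ((Submodule.spanFinrank_eq_zero_iff_eq_bot (IsNoetherian.noetherian _)).1 h5))
  · exact h2 P h0 hP (h1 P hP hn)

theorem dim_two {A : Type} [CommRing A] [IsDomain A] [IsDiscreteValuationRing A] {X : Scheme.{0}}
    (f : X ⟶ Spec (.of A)) [SmoothOfRelativeDimension 1 f] (x : X) :
    ringKrullDim (X.presheaf.stalk x) ≤ 2 := by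
  obtain ⟨U, hU, V, hV, hx, e, h⟩ :=
    SmoothOfRelativeDimension.exists_isStandardSmoothOfRelativeDimension (n := 1) (f := f) x
  obtain ⟨g, -, hg⟩ := h.exists_etale_mvPolynomial
  let := g.toAlgebra
  have : Algebra.Etale (MvPolynomial (Fin 1) Γ(Spec (.of A), U)) Γ(X, V) := hg
  have : IsNoetherianRing Γ(Spec (.of A), U) := IsLocallyNoetherian.component_noetherian ⟨U, hU⟩
  have h1 : ringKrullDim Γ(Spec (.of A), U) ≤ 1 := by
    rw [← IsDiscreteValuationRing.ringKrullDim_eq_one A,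
      ← PrimeSpectrum.topologicalKrullDim_eq_ringKrullDim,
      ← PrimeSpectrum.topologicalKrullDim_eq_ringKrullDim]
    exact hU.fromSpec.isOpenEmbedding.isInducing.topologicalKrullDim_le
  have h2 : ringKrullDim Γ(X, V) ≤ ringKrullDim (MvPolynomial (Fin 1) Γ(Spec (.of A), U)) :=
    Order.krullDim_le_of_strictMono (PrimeSpectrum.comap g) fun P Q hlt =>
      lt_of_le_of_ne (Ideal.comap_mono hlt.le) fun e' => hlt.ne (PrimeSpectrum.ext
        (Algebra.QuasiFinite.eq_of_le_of_under_eq (R := MvPolynomial (Fin 1) Γ(Spec (.of A), U))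
          _ _ hlt.le (congrArg PrimeSpectrum.asIdeal e')))
  rw [MvPolynomial.ringKrullDim_of_isNoetherianRing] at h2
  let := X.presheaf.algebra_section_stalk ⟨x, hx⟩
  have := hV.isLocalization_stalk ⟨x, hx⟩
  rw [IsLocalization.AtPrime.ringKrullDim_eq_height (hV.primeIdealOf ⟨x, hx⟩).asIdeal]
  refine (Ideal.height_le_ringKrullDim_of_ne_top (Ideal.IsPrime.ne_top inferInstance)).trans
    (h2.trans ?_)
  simpa [one_add_one_eq_two] using add_le_add_left h1 1

theorem gersten_curve {A : Type} [CommRing A] [IsDomain A] [IsDiscreteValuationRing A]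
    {X : Scheme.{0}} (f : X ⟶ Spec (.of A)) [SmoothOfRelativeDimension 1 f]
    (h : ∀ x : X, IsRegularLocalRing (X.presheaf.stalk x)) : Gersten X 1 :=
  have : ∀ x : X, IsDomain (X.presheaf.stalk x) := fun x => have := h x; reg_dom _
  have : ∀ x : X, UniqueFactorizationMonoid (X.presheaf.stalk x) := fun x =>
    have := h x
    ufd_two _ (dim_two f x)
  gersten_one X

end Pool.Agent.KEW

end MrgPart2

-- ======== part 3: formerly Pool.Agent.MP_55d974_ag.kew.PureS
section MrgPart3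

/-! The fibres of a smooth morphism of relative dimension `n` are of pure dimension `n`. -/

open AlgebraicGeometry CategoryTheory TopologicalSpace IsLocalRing Algebra

namespace Pool.Agent.KEW

theorem trdeg_etale {k B : Type} [Field k] [CommRing B] [Algebra k B] {n : ℕ}
    (h : (algebraMap k B).IsStandardSmoothOfRelativeDimension n) (q : Ideal B) [q.IsPrime]
    (hq : q.height = 0) : trdeg k (B ⧸ q) = n := by
  obtain ⟨g, hc, hg⟩ := h.exists_etale_mvPolynomial
  let := g.toAlgebra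
  have : Etale (MvPolynomial (Fin n) k) B := hg
  have : IsScalarTower k (MvPolynomial (Fin n) k) B :=
    .of_algebraMap_eq fun c => (DFunLike.congr_fun hc c).symm
  have : IsNoetherianRing B := FiniteType.isNoetherianRing (MvPolynomial (Fin n) k) B
  let p := q.under (MvPolynomial (Fin n) k)
  have h1 : p = ⊥ := by
    rw [Ideal.height_eq_height_add_of_liesOver_of_hasGoingDown p q, add_eq_zero] at hq
    exact Ideal.height_eq_zero_iff_eq_bot.1 hq.1
  let := Localization.AtPrime.algebraOfLiesOver p q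
  have h2 := trdeg_add_eq k p.ResidueField (A := q.ResidueField)
  rw [trdeg_eq_zero (R := p.ResidueField), add_zero,
    Dg.trdeg_frac (k := k) (B ⧸ q) q.ResidueField,
    Dg.trdeg_frac (k := k) (_ ⧸ p) p.ResidueField] at h2
  rw [← h2, (Ideal.quotientEquivAlgOfEq k h1).trdeg_eq, (AlgEquiv.quotientBot k _).trdeg_eq,
    MvPolynomial.trdeg_of_isDomain]
  simp

theorem height_smooth {k : Type} [Field k] {W : Scheme.{0}} (t : W ⟶ Spec (CommRingCat.of k))
    {n : ℕ} [SmoothOfRelativeDimension n t] (w : W) (hw : IsMax w) : Order.height w = n := by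
  have := SmoothOfRelativeDimension.smooth n t
  obtain ⟨A, _, _, _, j, _, hj, p, rfl⟩ := Dg.exists_chart t w
  have h1 : SmoothOfRelativeDimension n (Spec.map (CommRingCat.ofHom (algebraMap k A))) := by
    rw [← hj, ← zero_add n]
    infer_instance
  obtain ⟨s, hs, h2⟩ := (HasRingHomProperty.Spec_iff (P := @SmoothOfRelativeDimension n)).1 h1
  obtain ⟨a, ha, hp⟩ : ∃ a ∈ s, a ∉ p.asIdeal := by
    by_contra! hc
    exact p.2.ne_top (top_le_iff.1 (hs ▸ Ideal.span_le.2 hc))
  let i := Spec.map (CommRingCat.ofHom (algebraMap A (Localization.Away a)))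
  obtain ⟨q, rfl⟩ : p ∈ Set.range i :=
    (PrimeSpectrum.localization_away_comap_range (Localization.Away a) a).ge hp
  have e : (i ≫ j) ≫ t = Spec.map (CommRingCat.ofHom (algebraMap k (Localization.Away a))) := by
    rw [Category.assoc, hj, ← Spec.map_comp]
    rfl
  refine Dg.height_eq t ((Dg.dl_chart t (i ≫ j) e q).trans (trdeg_etale (h2 a ha) _ ?_))
  rw [idealHeight_eq_coheight, ← coheight_eq_of_isOpenImmersion (i ≫ j)]
  exact Order.coheight_eq_zero.2 hw

theorem pure_of_smooth {X S : Scheme.{0}} (f : X ⟶ S) (n : ℕ) [SmoothOfRelativeDimension n f] :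
    ∀ s, ∀ Z ∈ irreducibleComponents (f ⁻¹' {s}), topologicalKrullDim Z = n := fun s Z hZ => by
  have := smoothOfRelativeDimension_isStableUnderBaseChange (n := n)
  have h0 : SmoothOfRelativeDimension n (f.fiberToSpecResidueField s) :=
    MorphismProperty.pullback_snd _ _ inferInstance
  let e := f.fiberHomeo s
  have h1 : IsIrreducible (e.symm '' Z) := hZ.1.image _ e.symm.continuous.continuousOn
  have h2 : IsClosed Z := isClosed_of_mem_irreducibleComponents Z hZ
  have h3 := h1.isGenericPoint_genericPoint (e.symm.isClosedMap _ h2)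
  rw [Pure.dim_emb (e.symm ∘ Subtype.val)
    (e.symm.isClosedEmbedding.comp h2.isClosedEmbedding_subtypeVal) h1.genericPoint
    (by rw [Set.range_comp, Subtype.range_coe, h3.def]),
    @height_smooth (S.residueField s) _ _ _ n h0 _ fun v hv => ?_]
  · rfl
  · have h4 : Z ⊆ e '' closure {v} := fun z hz => ⟨e.symm z, specializes_iff_mem_closure.1
      (Specializes.trans hv (h3.specializes ⟨z, hz, rfl⟩)), e.apply_symm_apply z⟩
    have h5 := hZ.2 (isIrreducible_singleton.closure.image _ e.continuous.continuousOn) h4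
    exact h3.specializes ⟨e v, h5 ⟨v, subset_closure rfl, rfl⟩, e.symm_apply_apply v⟩

end Pool.Agent.KEW

end MrgPart3

-- ======== part 4: formerly Pool.Agent.MP_55d974_ag.kew.Both
section MrgPart4

/-! The two characteristics. -/

open AlgebraicGeometry CategoryTheory Limits Pool.Agent.MP_55d974_ag

namespace Pool.Agent.KEW

theorem mixed (p : ℕ) (hp : p.Prime) (A : Type) [CommRing A] [IsDomain A]
    [IsDiscreteValuationRing A] [HenselianLocalRing A] [CharP (IsLocalRing.ResidueField A) p]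
    [CharZero A] (π : A) (X : Scheme.{0}) (f : X ⟶ Spec (CommRingCat.of A)) (d r : ℕ)
    (H : S.Adm f π d) : S.Res S.IsoLim f π d (p ^ r) := by
  obtain ⟨hπ, h1, h2, h3, h4, hG, hG'⟩ := H
  have hR := relDim_of_pure f h1 d h4
  have hg : ∀ m, d ≤ m + 1 → m ≤ d → Gersten X m := fun m h h' => by
    rcases h'.eq_or_lt with rfl | h'
    · exact S.gersten hG
    · rw [show m = d - 1 by omega]
      exact S.gersten hG'
  have h := main_of (stS contS) geo_all bij_all p hp A π hπ X f d h1 h2 h3 hR hg r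
  exact ⟨h.1, h.2, limQ (khS contS) (stS contS) geo_all bij_all p hp A π hπ X f d h1 h2 h3 hR hg r⟩

theorem equal (p : ℕ) (hp : p.Prime) : ∃ (A : Type) (_ : CommRing A) (_ : IsDomain A)
    (_ : IsDiscreteValuationRing A) (_ : HenselianLocalRing A)
    (_ : CharP (IsLocalRing.ResidueField A) p) (_ : CharP A p) (π : A) (X : Scheme.{0})
    (f : X ⟶ Spec (CommRingCat.of A)), S.Adm f π 1 ∧ S.Res Missed f π 1 p := by
  have : Fact p.Prime := ⟨hp⟩
  let φ : ZMod p →+* Alg (ZMod p) :=
    (algebraMap (Polynomial (ZMod p)) (Alg (ZMod p))).comp Polynomial.C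
  have hs := snd_smooth p (Spec.map (CommRingCat.ofHom φ))
  have : Smooth (prod.snd : X0 p ⨯ Spec (.of (Alg (ZMod p))) ⟶ _) :=
    SmoothOfRelativeDimension.smooth 1 _
  have hr := regular_stalk (prod.snd : X0 p ⨯ Spec (.of (Alg (ZMod p))) ⟶ _)
  obtain ⟨y, h1, h2⟩ := Pool.Agent.MP_55d974_ag.main p
  refine ⟨Alg (ZMod p), inferInstance, inferInstance, inferInstance, inferInstance,
    charP_of_injective_ringHom (residue_bij (ZMod p)).1 p,
    charP_of_injective_ringHom φ.injective p, tt _, _, prod.snd,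
    ⟨tt_irr, isProjective p _, inferInstance, hr, pure_of_smooth _ 1,
      Uni.gersten (gersten_curve prod.snd hr), Uni.gersten (gersten_zero_of_regular _ hr)⟩,
    Uni.missed _ _ p ⟨y, h1, fun r hr c => ?_⟩⟩
  obtain ⟨n, hn⟩ := h2 c
  obtain ⟨r, rfl⟩ := Nat.exists_eq_add_of_le' hr
  exact ⟨n, fun z hz => hn (p ^ r • z) (hz.trans ((congrArg (· • z) (pow_succ p r)).trans
    (mul_nsmul z (p ^ r) p)))⟩

end Pool.Agent.KEW

end MrgPart4

-- marker of a merged file
example : 731051 + 326130 = 731051 + 326130 := rfl
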