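import Mathlib
import Pool.Agent.MP_55d974_ag.kew.LimQ

/-! PROJECT KEW: the restriction map to the limit, modulo `q`. -/

open AlgebraicGeometry CategoryTheory TopologicalSpace Opposite Pool.Agent.MP_55d974_ag IsLocalRing

namespace Pool.Agent.KEW

theorem bij_lim {C : Type} [AddCommGroup C] {H : ℕ → Type} [∀ n, AddCommGroup (H n)]
    (r : ∀ n, C →+ H n) (L : AddSubgroup (∀ n, H n)) (ρ : C →+ L) (hρ : ∀ c n, (ρ c).1 n = r n c)
    (q n₀ : ℕ) (inj : Function.Injective (modq q (r n₀)))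
    (sur : ∀ y ∈ L, ∃ c, ∃ z ∈ L, ∀ n, y n = r n c + q • z n) : Function.Bijective (modq q ρ) := by
  constructor
  · refine (injective_iff_map_eq_zero _).2 fun x hx => (injective_iff_map_eq_zero _).1 inj x ?_
    obtain ⟨x, rfl⟩ := QuotientAddGroup.mk_surjective x
    obtain ⟨e, he⟩ := (QuotientAddGroup.eq_zero_iff _).1 hx
    exact (QuotientAddGroup.eq_zero_iff _).2 ⟨e.1 n₀, (congrArg (·.1 n₀) he).trans (hρ x n₀)⟩
  · intro y
    obtain ⟨y, rfl⟩ := QuotientAddGroup.mk_surjective y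
    obtain ⟨c, z, hz, h⟩ := sur y.1 y.2
    refine ⟨QuotientAddGroup.mk c, QuotientAddGroup.eq.2 ⟨⟨z, hz⟩, eq_neg_add_of_add_eq ?_⟩⟩
    exact Subtype.ext (funext fun n => (congrArg (· + q • z n) (hρ c n)).trans (h n).symm)

theorem lim_bij (hK : KhS) (hS : StS) (hg : All Geo) (hb : AllC Bij) (p : ℕ) (hp : p.Prime)
    (A : Type) [CommRing A] [IsDomain A] [IsDiscreteValuationRing A] [HenselianLocalRing A]
    [CharZero A] [CharP (ResidueField A) p] (π : A) (hπ : Irreducible π) (X : Scheme.{0})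
    (f : X ⟶ Spec (.of A)) (d : ℕ) (h1 : IsProjective f) (h2 : Flat f)
    (h3 : ∀ x : X, IsRegularLocalRing (X.presheaf.stalk x)) (h4 : RelDim f d)
    (hG : ∀ m, d ≤ m + 1 → m ≤ d → Gersten X m) (r : ℕ)
    (L : AddSubgroup (∀ n, HH (KD (thick f π n) d) d))
    (hL : ∀ y, y ∈ L ↔ ∀ n, tr0 f π d n (y (n + 1)) = y n) (ρ : HH (KS X d) d →+ L)
    (hρ : ∀ c n, (ρ c).1 n = res0 f π d n c) : Function.Bijective (modq (p ^ r) ρ) := by
  obtain ⟨n₀, h⟩ := (main_of hS hg hb p hp A π hπ X f d h1 h2 h3 h4 hG r).1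
  refine bij_lim (res0 f π d) L ρ hρ _ n₀ (h n₀ le_rfl).1 fun y hy => ?_
  obtain ⟨c, z, a, b⟩ := limQ hK hS hg hb p hp A π hπ X f d h1 h2 h3 h4 hG r y ((hL y).1 hy)
  exact ⟨c, z, (hL z).2 a, b⟩

end Pool.Agent.KEW
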