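import Mathlib
import Pool.Agent.MP_55d974_ag.kew.SpecA

/-! PROJECT KEW: deep one-units in algebras over a complete ring are `q`-th powers. -/

namespace Pool.Agent.KEW

open Polynomial

theorem pow_expand {B : Type} [CommRing B] (π : B) (p r : ℕ) :
    ∃ H : B[X], (1 + C ((p : B) * π) * X) ^ p ^ r =
      1 + C ((p : B) ^ r * p * π) * (X + C π * H) := by
  induction r with
  | zero => exact ⟨0, by simp⟩
  | succ r ih =>
    obtain ⟨H, hH⟩ := ih
    obtain ⟨w, hw⟩ := sq_dvd_add_pow_sub_sub (C ((p : B) ^ r * p * π) * (X + C π * H)) 1 p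
    refine ⟨H + C ((p : B) ^ r) * (X + C π * H) ^ 2 * w, ?_⟩
    rw [pow_succ, pow_mul, hH]
    simp only [one_pow, one_mul, map_mul, map_pow, map_natCast] at hw ⊢
    linear_combination hw

theorem lim_finite {B R : Type} [CommRing B] [CommRing R] [Algebra B R] [Module.Finite B R]
    (π : B) (hc : IsAdicComplete (Ideal.span {π}) B) (y d : ℕ → R)
    (hy : ∀ m, y (m + 1) = y m + algebraMap B R π ^ m * d m) :
    ∃ z, ∀ m, algebraMap B R π ^ m ∣ y m - z := by
  obtain ⟨N, φ, hφ⟩ := Module.Finite.exists_fin' B R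
  choose e he using fun m => hφ (d m)
  have key : ∀ i : Fin N, ∃ L : B, ∀ m, π ^ m ∣ (∑ j ∈ Finset.range m, π ^ j * e j i) - L := by
    intro i
    obtain ⟨L, hL⟩ := IsPrecomplete.prec (I := Ideal.span {π}) hc.toIsPrecomplete
      (f := fun m => ∑ j ∈ Finset.range m, π ^ j * e j i) (by
        intro m n hmn
        rw [SModEq.sub_mem, Ideal.span_singleton_pow, smul_eq_mul, Ideal.mul_top,
          Ideal.mem_span_singleton, ← dvd_neg, neg_sub, Finset.sum_range_sub_sum_range hmn]
        refine Finset.dvd_sum fun j hj => Dvd.dvd.mul_right (pow_dvd_pow _ ?_) _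
        exact (Finset.mem_filter.1 hj).2)
    refine ⟨L, fun m => ?_⟩
    have := hL m
    rwa [SModEq.sub_mem, Ideal.span_singleton_pow, smul_eq_mul, Ideal.mul_top,
      Ideal.mem_span_singleton] at this
  choose L hL using key
  have hs : ∀ m, y m = y 0 + φ (∑ j ∈ Finset.range m, π ^ j • e j) := by
    intro m
    induction m with
    | zero => simp
    | succ m ih =>
      rw [hy, Finset.sum_range_succ, map_add, ← add_assoc, ← ih, map_smul, he, Algebra.smul_def,
        map_pow]
  refine ⟨y 0 + φ L, fun m => ?_⟩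
  choose t ht using fun i => hL i m
  refine ⟨φ t, ?_⟩
  have : (∑ j ∈ Finset.range m, π ^ j • e j) - L = π ^ m • t := by
    ext i
    simpa [Finset.sum_apply] using ht i
  rw [hs m, add_sub_add_left_eq_sub, ← map_sub, this, map_smul, Algebra.smul_def, map_pow]

theorem haus_finite {B R : Type} [CommRing B] [IsNoetherianRing B] [CommRing R] [Algebra B R]
    [Module.Finite B R] (π : B) (hc : IsAdicComplete (Ideal.span {π}) B) (x : R)
    (hx : ∀ m, algebraMap B R π ^ m ∣ x) : x = 0 := by
  have h := Ideal.iInf_pow_smul_eq_bot_of_le_jacobson (M := R) (Ideal.span {π})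
    (IsAdicComplete.le_jacobson_bot _)
  rw [← Submodule.mem_bot B, ← h, Submodule.mem_iInf]
  intro m
  obtain ⟨t, rfl⟩ := hx m
  rw [← map_pow, ← Algebra.smul_def]
  exact Submodule.smul_mem_smul (Ideal.pow_mem_pow (Ideal.mem_span_singleton_self π) m) trivial

theorem solve_finite {B R : Type} [CommRing B] [IsNoetherianRing B] [CommRing R] [Algebra B R]
    [Module.Finite B R] (π : B) (hc : IsAdicComplete (Ideal.span {π}) B) (H : B[X]) (c : R) :
    ∃ z : R, z + algebraMap B R π * aeval z H = c := by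
  let y : ℕ → R := fun m => (fun t => c - algebraMap B R π * aeval t H)^[m] 0
  have hy : ∀ m, y (m + 1) = c - algebraMap B R π * aeval (y m) H := fun m =>
    Function.iterate_succ_apply' _ _ _
  have hd : ∀ a b : R, a - b ∣ aeval a H - aeval b H := fun a b => by
    simpa only [eval_map_algebraMap] using sub_dvd_eval_sub a b (H.map (algebraMap B R))
  have h1 : ∀ m, algebraMap B R π ^ m ∣ y (m + 1) - y m := by
    intro m
    induction m with
    | zero => simp
    | succ m ih =>
      have : y (m + 1 + 1) - y (m + 1) =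
          -((aeval (y (m + 1)) H - aeval (y m) H) * algebraMap B R π) := by
        rw [hy (m + 1)]
        nth_rewrite 2 [hy m]
        ring
      rw [this, pow_succ, dvd_neg]
      exact mul_dvd_mul_right (ih.trans (hd _ _)) _
  choose d hd' using h1
  obtain ⟨z, hz⟩ := lim_finite π hc y d fun m => by rw [← hd']; ring
  refine ⟨z, sub_eq_zero.1 (haus_finite π hc _ fun m => ?_)⟩
  have : z + algebraMap B R π * aeval z H - c =
      -(y (m + 1) - z) - algebraMap B R π * (aeval (y m) H - aeval z H) := by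
    rw [hy]; ring
  rw [this]
  exact dvd_sub (dvd_neg.2 ((pow_dvd_pow _ m.le_succ).trans (hz _)))
    (((hz m).trans (hd _ _)).mul_left _)

/-- `1 + q p π c` is a `q`-th power if `c` is integral over a `π`-adically complete ring. -/
theorem nn_pow' {B E : Type} [CommRing B] [IsNoetherianRing B] [CommRing E] [Algebra B E] (π : B)
    (hc : IsAdicComplete (Ideal.span {π}) B) (p r : ℕ) (c : E) (hi : IsIntegral B c) :
    ∃ z : E, IsIntegral B z ∧ (1 + algebraMap B E (p * π) * z) ^ p ^ r =
      1 + algebraMap B E ((p : B) ^ r * p * π) * c := by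
  have := Algebra.finite_adjoin_simple_of_isIntegral hi
  obtain ⟨H, hH⟩ := pow_expand π p r
  obtain ⟨z, hz⟩ := solve_finite (R := Algebra.adjoin B {c}) π hc H
    ⟨c, Algebra.self_mem_adjoin_singleton B c⟩
  refine ⟨z, (Algebra.IsIntegral.isIntegral (R := B) z).map (Algebra.adjoin B {c}).val, ?_⟩
  have h1 := congrArg (aeval (z : E)) hH
  have h2 := congrArg (Algebra.adjoin B {c}).val hz
  simp only [map_add, map_mul, map_pow, map_one, aeval_C, aeval_X, AlgHom.commutes,
    ← aeval_algHom_apply, Subalgebra.coe_val] at h1 h2 ⊢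
  rw [h1, h2]

/-- The `q`-th power lemma at level `n`. -/
theorem nn_pow {A B E : Type} [CommRing A] [CommRing B] [IsNoetherianRing B] [Algebra A B]
    [CommRing E] [Algebra B E] {π : A} {p q n : ℕ} (hl : Lv π p q n)
    (hc : IsAdicComplete (Ideal.span {algebraMap A B π}) B) (c : E) (hi : IsIntegral B c) :
    ∃ g : E, 1 + algebraMap B E (algebraMap A B π) ^ n * c = g ^ q := by
  obtain ⟨r, rfl⟩ := hl.qq
  obtain ⟨t, ht⟩ := hl.lev
  obtain ⟨z, -, hz⟩ := nn_pow' (algebraMap A B π) hc p r (algebraMap B E (algebraMap A B t) * c)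
    (isIntegral_algebraMap.mul hi)
  refine ⟨_, Eq.trans ?_ hz.symm⟩
  rw [← map_pow, ← map_pow, ht]
  simp [mul_assoc]

end Pool.Agent.KEW
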